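import Pool.Agent.Lib.MP_8cb858_nt.PT.FIN
import Pool.Agent.Lib.MP_8cb858_nt.PF.SpecE
import Pool.Agent.Lib.MP_8cb858_nt.PF.SpecS

/-!
# Specs, block E: the step theorem with arbitrary local conditions at the places of `M`

`F` is a number field, `a, b ∈ 𝓞 F`, `f = X^3 + a X + b`, `D' = dsc a b`, `L = Lk a b`; `Cf M Q P a b` is the
configuration: `M` contains the places over 6, `Q` are places of type (1,2), `P` places of type (3), `Q, P` outside `M`,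
`D'` not in `v^2` for `v ∉ M`. `D, Ds` are positive natural numbers, `Ad M P T Ds D`: `D` is `T`-admissible with the class
of `Ds` at `M`. `n = [F:ℚ]`. The Specs of `PF/` (all proved: `PF/All.lean`, `PF/AllD.lean`, `PF/AllS.lean`, ...) may be used as
hypotheses. Most modules are ports of the modules of `PF/` of the same name (without the final `H`): `Act, Cmp, Neu, Fam, k` become
`Cf, Ad`; the condition `k ∈ v` becomes `v ∈ M`, `D ≡ 1 mod 8k` becomes `D Ds` a square, `Aff 1` at `M` becomes `Aff Ds`.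
Module XXX = file `PT/XXX.lean`, `theorem specXXX (hYYY : SpecYYY) .. : SpecXXX`, own lemmas in the namespace
`Pool.Agent.Lib.MP_8cb858_nt.PT.XXXM`. Every Spec is a closed proposition with a complete proof in its doc string.
-/

namespace Pool.Agent.Lib.MP_8cb858_nt.PT

open Polynomial NumberField IsDedekindDomain Pool.Agent.Lib.MP_8cb858_nt.SEL
open Pool.Agent.Lib.MP_8cb858_nt.PF
open scoped Classical WithZero

section defs

variable {F : Type} [Field F] [NumberField F]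

/-- The configurations. -/
structure Cf (M Q P : Finset (HeightOneSpectrum (𝓞 F))) (a b : 𝓞 F) : Prop where
  six : ∀ v : HeightOneSpectrum (𝓞 F), (6 : 𝓞 F) ∈ v.asIdeal → v ∈ M
  qm : ∀ v ∈ Q, v ∉ M
  pm : ∀ v ∈ P, v ∉ M
  qp : ∀ v ∈ Q, v ∉ P
  ne : P.Nonempty
  t12 : ∀ v ∈ Q, ∀ x : 𝓞 F, x ^ 2 + dsc a b ∉ v.asIdeal
  t3 : ∀ v ∈ P, ∀ x : 𝓞 F, x ^ 3 + a * x + b ∉ v.asIdeal
  sf : ∀ v : HeightOneSpectrum (𝓞 F), v ∉ M → dsc a b ∉ v.asIdeal ^ 2

/-- `D` is `T`-admissible with the class of `Ds` at the places of `M`. -/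
structure Ad (M P T : Finset (HeightOneSpectrum (𝓞 F))) (Ds D : ℕ) : Prop where
  pos : 0 < D
  sq : ∀ v ∈ M, IsSquare ((D * Ds : ℕ) : v.adicCompletion F)
  ex : ∀ v ∈ T, vv v (D : v.adicCompletion F) = WithZero.exp (-1 : ℤ)
  un : ∀ v : HeightOneSpectrum (𝓞 F), v ∉ M → v ∉ P → v ∉ T → vv v (D : v.adicCompletion F) = 1

/-- The classes which are Kummer classes of `E^Ds` at the places of `M`, Kummer classes of `E` at the infinite places,
and unit classes at all other places outside `Q`. -/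
def Wh (M Q : Finset (HeightOneSpectrum (𝓞 F))) (Ds : ℕ) (a b : 𝓞 F) : Set (Lk (a : F) (b : F)) :=
  {α | InV α ∧ (∀ v ∈ M, Aff (Ds : v.adicCompletion F) (ul v α)) ∧
    (∀ v : InfinitePlace F, Aff 1 (up v.Completion α)) ∧
    ∀ v : HeightOneSpectrum (𝓞 F), v ∉ M → v ∉ Q → Ev (vv v) (ul v α)}

/-- `v` is real and `f` has three real roots there. -/
def Thr (v : InfinitePlace F) (a b : F) : Prop := v.IsReal ∧ (v.embedding (dsc a b)).re < 0

/-- The number of real places where `f` has three real roots. -/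
noncomputable def nth (a b : F) : ℕ :=
  (Finset.univ.filter (fun v : InfinitePlace F => Thr v a b)).card

/-- Reciprocity for the set `Q` (all integral `a, b`). -/
def RecFor (F : Type) [Field F] [NumberField F] (Q : Finset (HeightOneSpectrum (𝓞 F))) : Prop :=
  ∀ (a b : 𝓞 F) (α : Lk (a : F) (b : F)), dsc a b ≠ 0 → InV α →
    (∀ v : HeightOneSpectrum (𝓞 F), v ∉ Q → Iso (up (v.adicCompletion F) α)) →
    (∀ v : InfinitePlace F, Iso (up v.Completion α)) →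
    Even (Q.filter (fun v => ¬ Iso (up (v.adicCompletion F) α))).card

end defs

/-! ## E1. Infinite places -/

/-- **LIT** (200 lines). The infinite places, without any sign condition.
Proof. Complex places and real places with `¬ Thr`: every `α` with `InV α` is a square and `Aff 1 α`: adapt `PF/LIF.lean`
(`SpecLI` is the case `a > 0`; what is used there is that `f` has only one real root, which holds iff `D' > 0`, i.e. iff `¬ Thr`,
since `D' ≠ 0`: for real `A, B` with `4A^3+27B^2 > 0` a root `t` satisfies `(3t^2+A)^2 (3t^2+4A) = D' > 0`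
(identity `-(dq)(3t^2+a)^2 = D'`, `dq a t = -3t^2-4a`), so `X^2+tX+t^2+A` has negative discriminant). So take `c = 0`.
`Thr`: `v.Completion ≅ ℝ` (as in `PF/LIF.lean`), roots `t1 < t2 < t3` (SRT below; or: `D' < 0`, `t` any root (IVT), the
cofactor has positive discriminant). `ev`aluation at the three roots is an isomorphism `L → ℝ^3` (or use `PF.SpecTOC`,
`SpecTOI` with the root `t1`: `d = dq a t1 > 0`); `α` is a square iff its three values are `≥ 0`; `InV`: the product of the three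
values is positive. Claim: for `InV α`, `Aff 1 α` iff `ev t1 α > 0`. `→`: `y^2 = f(x) > 0`, so `x > t1`, `x - t1 > 0` and
`α(t1)(x - t1)` is a nonzero square. `←`: the other two values have the same sign; if positive take `x > t3` (all `x - t_i > 0`); if
negative take `t1 < x < t2` (`x - t2, x - t3 < 0`, `f(x) > 0`). `grp`, `sqa` follow; `col`: `c α` = 0 if `ev t1 α > 0`, else 1.
`nat`: `D` is a square `≠ 0` in `v.Completion` (real or complex: `v.Completion` is isometric to `ℝ` or `ℂ`), `PF.SpecAFI` `dd`. -/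
structure SpecLIT : Prop where
  grp : ∀ (F : Type) [Field F] [NumberField F] (v : InfinitePlace F) (a b : F)
    (α β : Lk (algebraMap F v.Completion a) (algebraMap F v.Completion b)), dsc a b ≠ 0 →
    InV α → InV β → Aff 1 α → Aff 1 β → Aff 1 (α * β)
  sqa : ∀ (F : Type) [Field F] [NumberField F] (v : InfinitePlace F) (a b : F)
    (α : Lk (algebraMap F v.Completion a) (algebraMap F v.Completion b)), dsc a b ≠ 0 →
    InV α → IsSquare α → Aff 1 α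
  col : ∀ (F : Type) [Field F] [NumberField F] (v : InfinitePlace F) (a b : F), dsc a b ≠ 0 →
    ∃ c : Lk (algebraMap F v.Completion a) (algebraMap F v.Completion b) →
      Fin (if Thr v a b then 2 else 1),
      ∀ α β, InV α → InV β → c α = c β → Aff 1 (α * β)
  nat : ∀ (F : Type) [Field F] [NumberField F] (v : InfinitePlace F) (a b : F) (D : ℕ)
    (α : Lk (algebraMap F v.Completion a) (algebraMap F v.Completion b)), 0 < D →
    (Aff (D : v.Completion) α ↔ Aff 1 α)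

/-- **SRT** (120 lines). Three real embeddings.
Proof. `A = φ a`, `B = φ b`, `φ (dsc a b) = 4A^3+27B^2 < 0`, so `A < 0`; `s = √(-A/3) > 0`, `A = -3 s^2`,
`g(t) = t^3 + A t + B`: `g(-s) = B + 2 s^3`, `g(s) = B - 2 s^3`, and `27 B^2 < -4A^3 = 108 s^6`, so `|B| < 2 s^3`,
`g(-s) > 0 > g(s)`; `g(t) > 0` for large `t`, `< 0` for large negative `t`: three roots `t1 < -s < t2 < s < t3`
(intermediate value theorem), `ψ i = AdjoinRoot.lift φ (t i) _` (`ψ i θ = t i`). -/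
def SpecSRT : Prop :=
  ∀ (F : Type) [Field F] (a b : F) (φ : F →+* ℝ), φ (dsc a b) < 0 →
    ∃ ψ : Fin 3 → (Lk a b →+* ℝ), Function.Injective ψ ∧ ∀ (i : Fin 3) (x : F),
      ψ i (AdjoinRoot.of _ x) = φ x

/-- **SRQ** (200 lines; from SRT, `PF.SpecSRR`). The number of infinite places of `L` (see `PF/SRP.lean`).
Proof. `r₁(L) ≥ r₁(F) + 2 nth`: for every real embedding of `F` one extension to a real embedding of `L` (SRR), three for
those of the places with `Thr` (SRT) (the real embeddings of `F` correspond to the real places: `v.embedding` is real valued,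
`InfinitePlace.IsReal`). Then `2 (r₁ + r₂)(L) = 3n + r₁(L) ≥ 3n + r₁(F) + 2 nth = 2n + 2 (r₁ + r₂)(F) + 2 nth`. -/
def SpecSRQ : Prop :=
  ∀ (F : Type) [Field F] [NumberField F] (a b : F) [Fact (Irreducible (fpol a b))],
    Module.finrank ℚ F + Fintype.card (InfinitePlace F) + nth a b ≤
      Fintype.card (InfinitePlace (Lk a b))

/-- **SUF** (150 lines; from `PF.SpecSUI`). Units of square norm (port of `PF/SUE.lean` with `n + e` instead of `n`). -/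
def SpecSUF : Prop :=
  ∀ (F L : Type) [Field F] [NumberField F] [Field L] [NumberField L] [Algebra F L] (e : ℕ),
    Module.finrank ℚ F + Fintype.card (InfinitePlace F) + e ≤ Fintype.card (InfinitePlace L) →
    ∃ E : Fin (2 ^ (Module.finrank ℚ F + e)) → (𝓞 L)ˣ,
      (∀ i, IsSquare (Algebra.norm F ((E i : 𝓞 L) : L))) ∧
      ∀ i j, i ≠ j → ¬ IsSquare (((E i : 𝓞 L) : L) * ((E j : 𝓞 L) : L))

/-- **SUH** (port of `PF/SU.lean`; SUF with `e = nth`, SRQ instead of SUE, SRP). Many global classes which are unit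
classes outside `S` and `M`, without sign condition. -/
def SpecSUH : Prop :=
  ∀ (F : Type) [Field F] [NumberField F] (a b : 𝓞 F) (S M : Finset (HeightOneSpectrum (𝓞 F))),
    dsc a b ≠ 0 →
    (∃ w : HeightOneSpectrum (𝓞 F), ∀ x : 𝓞 F, x ^ 3 + a * x + b ∉ w.asIdeal) →
    (∀ v : HeightOneSpectrum (𝓞 F), (2 : 𝓞 F) ∈ v.asIdeal → v ∈ M) → (∀ v ∈ S, v ∉ M) →
    (∀ v : HeightOneSpectrum (𝓞 F), dsc a b ∈ v.asIdeal → v ∈ S ∨ v ∈ M) →
    (∀ v ∈ S, ∃ x : 𝓞 F, x ^ 3 + a * x + b ∈ v.asIdeal ∧ 3 * x ^ 2 + a ∉ v.asIdeal) →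
    ∃ G : Finset (Lk (a : F) (b : F)),
      2 ^ (Module.finrank ℚ F + nth (a : F) (b : F) + S.card) * ∏ v ∈ M, (1 + nr a b v) ≤ G.card ∧
      (∀ α ∈ G, InV α ∧ ∀ v : HeightOneSpectrum (𝓞 F), v ∉ S → v ∉ M →
        Ev (vv v) (up (v.adicCompletion F) α)) ∧
      ∀ α ∈ G, ∀ β ∈ G, α ≠ β → ¬ IsSquare (α * β)

/-! ## E2. Local statements -/

/-- **KMD** (60 lines). KML and IX for the twist by `D`.
Proof. `PF.SpecTWD` for `D`: `κ : L → Lk (aD^2) (bD^3)`; `a D^2`, `b D^3` are integral, `dsc ≠ 0`. `grp`: `PF.SpecKML`. `col`: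
`PF.SpecIX` for `(aD^2, bD^3)`: `c' = c ∘ κ`; the number of roots of `x^3+aD^2x+bD^3` is that of `f` (`t ↦ D t`; `Nat.card_congr`). -/
structure SpecKMD : Prop where
  grp : ∀ (K : Type) [Field K] [CharZero K] (w : Valuation K ℤᵐ⁰) (a b D : K) (α β : Lk a b),
    IsLF w → w a ≤ 1 → w b ≤ 1 → dsc a b ≠ 0 → w D ≤ 1 → D ≠ 0 → InV α → InV β →
    Aff D α → Aff D β → Aff D (α * β)
  col : ∀ (K : Type) [Field K] [CharZero K] (w : Valuation K ℤᵐ⁰) (a b D : K), IsLF w →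
    w a ≤ 1 → w b ≤ 1 → dsc a b ≠ 0 → w D ≤ 1 → D ≠ 0 →
    ∃ c : Lk a b → Fin (two w * (1 + Nat.card {t : K // t ^ 3 + a * t + b = 0})),
      ∀ α β : Lk a b, InV α → InV β → c α = c β → Aff D (α * β)

/-- **LJR** (200 lines). The Kummer classes of a ramified twist at a good place: at most `1 + nr` classes.
Proof. Let `y^2 = D f(x)`, `y ≠ 0`, `α D (x - θ)` a square; `D (x-θ)` is a unit (norm `D^2 y^2`, `PF.SpecAFI` `pt`).
(A) `w x > 1`: `f(x) = x^3 (1 + a/x^2 + b/x^3)`, the bracket is `≡ 1`, so it is a square `u^2 ≠ 0` (`PF.SpecHNS` `sqr`), and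
`D x = (y/(x u))^2`; `1 - θ/x = 1 + 4 z`, the coordinates of `z` have `w < 1` (`w 2 = 1`), a square (`PF.SpecHNA` `sq`, `k = 1`). So
`D (x - θ) = D x (1 - θ/x)` is a square and `α` is a square. (B) `w x ≤ 1`: `w(D f(x)) = w(y)^2` and `w D = exp(-1)`, so
`w(f(x)) ≤ 1` is an odd power of `exp 1`, hence `< 1`; by `PF.SpecRTS` (or the identity in `PF.SpecRTA`: `f(x)`, `f'(x)` not both
in `m` as `w(D') = 1`) `w(f'(x)) = 1` and there is a root `t`, `w t ≤ 1`, `w(x-t) < 1` (`PF.SpecHNS` `cub`), `w(3t^2+a) = 1`.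
Let `α, α'` be of type (B) with the same root `t`: claim: `β = (x - θ)(x' - θ)` is a square. Coordinates at `t` (`PF.SpecTOC`,
`d = dq a t`): `x - θ` has `(x-t, (x + t/2) - (1/2)√d)` (`pnt` with `D = 1`). The element `γ` with coordinates
`(1, 3t/2 - (1/2)√d)` (`ex`) is a unit: norm `(9t^2 - d)/4 = 3t^2+a`; `β γ^{-2}` has the coordinates `(r, z + s√d)` with
`w(z - 1) < 1`, `w s < 1` (both `x, x' ≡ t`), so `z = X^2 + dY^2`, `s = 2XY` (`PF.SpecSQS` `one`), and `z^2 - d s^2 = (X^2 - dY^2)^2`;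
`N(β) = f(x) f(x') = (y y'/D)^2` is a square `≠ 0`, so `r (z^2 - ds^2) = N(β γ^{-2})` and `r` are squares: `β γ^{-2}` is a square
(`PF.SpecTOI`). So `α α'` is a square. Colours: 0 for squares, `1 + (index of t)` for classes of type (B) (choose for each `α` a
point; an enumeration of the finite set of roots, at most 3: `Finite` because the polynomial is not zero), anything else otherwise. -/
def SpecLJR : Prop :=
  ∀ (K : Type) [Field K] [CharZero K] (w : Valuation K ℤᵐ⁰) (a b D : K), IsLF w → w 2 = 1 →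
    w a ≤ 1 → w b ≤ 1 → w (dsc a b) = 1 → w D = WithZero.exp (-1 : ℤ) →
    ∃ c : Lk a b → Fin (1 + Nat.card {t : K // t ^ 3 + a * t + b = 0}),
      ∀ α β : Lk a b, InV α → InV β → Aff D α → Aff D β → c α = c β → IsSquare (α * β)

/-- **NR3** (40 lines). A cubic has at most three roots. -/
def SpecNR3 : Prop :=
  ∀ (K : Type) [Field K] (a b : K), Nat.card {t : K // t ^ 3 + a * t + b = 0} ≤ 3 ∧
    Finite {t : K // t ^ 3 + a * t + b = 0}

/-! ## E3. Elementary facts -/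

/-- **FAH** (port of `PF/FAP.lean`, `PF/FAC.lean`). Elementary facts on configurations and admissible `D`.
Proof. NF `int`, `t3`, `t12`, `dense`. `tw`: `v ∉ M`, so `6 ∉ v`, `2, 3 ∉ v`. `ne0`: `w ∈ P` (residue characteristic `≥ 5`); if
`D' ∈ w` then `f` has a root modulo `w` (see `PF/FAC.lean`); so `D' ≠ 0`. `bad`: `D' ∈ v`, `v ∉ M`: not in `P` (as in `ne0`), not in
`Q` (`x = 0` in `t12`), `w(D') = exp(-1)` (`sf`). `rt`: `PF.SpecLR` (first part) gives a root in `F_v`; `dense`. `dA`: `Ds ≠ 0`,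
`D Ds` a square in `F_v`: `PF.SpecAFI` `dd`. `dsc F_v`: injectivity of `F → F_v`. -/
structure SpecFAH : Prop where
  int : ∀ {F : Type} [Field F] [NumberField F] (v : HeightOneSpectrum (𝓞 F)) (x : 𝓞 F),
    vv v (lc v x) ≤ 1
  nat : ∀ {F : Type} [Field F] [NumberField F] (v : HeightOneSpectrum (𝓞 F)) (D : ℕ),
    vv v (D : v.adicCompletion F) ≤ 1
  tw : ∀ {F : Type} [Field F] [NumberField F] {M Q P : Finset (HeightOneSpectrum (𝓞 F))}
    {a b : 𝓞 F}, Cf M Q P a b → ∀ v : HeightOneSpectrum (𝓞 F), v ∉ M →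
      vv v 2 = 1 ∧ vv v 3 = 1 ∧ (2 : 𝓞 F) ∉ v.asIdeal
  ne0 : ∀ {F : Type} [Field F] [NumberField F] {M Q P : Finset (HeightOneSpectrum (𝓞 F))}
    {a b : 𝓞 F}, Cf M Q P a b → dsc a b ≠ 0 ∧ dsc (a : F) (b : F) ≠ 0 ∧
      ∀ v : HeightOneSpectrum (𝓞 F), dsc (lc v a) (lc v b) ≠ 0
  sqf : ∀ {F : Type} [Field F] [NumberField F] {M Q P : Finset (HeightOneSpectrum (𝓞 F))}
    {a b : 𝓞 F}, Cf M Q P a b → ∀ v : HeightOneSpectrum (𝓞 F), v ∉ M →
      WithZero.exp (-1 : ℤ) ≤ vv v (dsc (lc v a) (lc v b))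
  t3 : ∀ {F : Type} [Field F] [NumberField F] {M Q P : Finset (HeightOneSpectrum (𝓞 F))}
    {a b : 𝓞 F}, Cf M Q P a b → ∀ v ∈ P, T3 (vv v) (lc v a) (lc v b)
  t12 : ∀ {F : Type} [Field F] [NumberField F] {M Q P : Finset (HeightOneSpectrum (𝓞 F))}
    {a b : 𝓞 F}, Cf M Q P a b → ∀ v ∈ Q, T12 (vv v) (lc v a) (lc v b)
  bad : ∀ {F : Type} [Field F] [NumberField F] {M Q P : Finset (HeightOneSpectrum (𝓞 F))}
    {a b : 𝓞 F}, Cf M Q P a b → ∀ v : HeightOneSpectrum (𝓞 F), dsc a b ∈ v.asIdeal → v ∉ M →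
      v ∉ P ∧ v ∉ Q ∧ vv v (dsc (lc v a) (lc v b)) = WithZero.exp (-1 : ℤ)
  fin : ∀ {F : Type} [Field F] [NumberField F] {a b : 𝓞 F}, dsc a b ≠ 0 →
    {v : HeightOneSpectrum (𝓞 F) | dsc a b ∈ v.asIdeal}.Finite
  rt : ∀ {F : Type} [Field F] [NumberField F] {M Q P : Finset (HeightOneSpectrum (𝓞 F))}
    {a b : 𝓞 F}, Cf M Q P a b → ∀ v : HeightOneSpectrum (𝓞 F), v ∉ M →
      (v ∈ Q ∨ dsc a b ∈ v.asIdeal) →
      ∃ x : 𝓞 F, x ^ 3 + a * x + b ∈ v.asIdeal ∧ 3 * x ^ 2 + a ∉ v.asIdeal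
  dA : ∀ {F : Type} [Field F] [NumberField F] {a b : 𝓞 F} (v : HeightOneSpectrum (𝓞 F))
    (D Ds : ℕ) (α : Lk (lc v a) (lc v b)), 0 < D → 0 < Ds →
      IsSquare ((D * Ds : ℕ) : v.adicCompletion F) →
      (Aff (D : v.adicCompletion F) α ↔ Aff (Ds : v.adicCompletion F) α)

/-! ## E4. The structure of the Selmer groups -/

/-- **HAQ** (port of `PF/HAP.lean`). The planes at the places of `Q`. -/
def SpecHAQ : Prop :=
  ∀ (F : Type) [Field F] [NumberField F] (M Q P : Finset (HeightOneSpectrum (𝓞 F))) (a b : 𝓞 F),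
    Cf M Q P a b → ∀ v ∈ Q, ∀ α β : Lk (a : F) (b : F), InV α → InV β →
      ee v (α * β) = ee v α + ee v β ∧ ss v (α * β) = ss v α + ss v β ∧
      ee v α * ss v α = (if Iso (ul v α) then 0 else 1) ∧
      ((ee v α = 0 ∧ ss v α = 0) ↔ IsSquare (ul v α)) ∧
      (ee v α = 0 ↔ Ev (vv v) (ul v α)) ∧
      (ss v α = 0 ↔ IsSquare (ul v α) ∨ (¬ Ev (vv v) (ul v α) ∧ Iso (ul v α)))

/-- **SLH** (port of `PF/SLC.lean`). The local conditions of the 2-Selmer group of `E^D`.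
Proof. Infinite places: LIT `nat` (`map_natCast`). `v ∈ M`: FAH `dA`. `v ∈ P`: LV, LZ, EVF: both sides hold. `v ∉ M, P, Q` or
`v ∈ Q \ T`: `w D = 1`, LG. `v ∈ T`: LT. -/
def SpecSLH : Prop :=
  ∀ (F : Type) [Field F] [NumberField F] (M Q P T : Finset (HeightOneSpectrum (𝓞 F)))
    (Ds D : ℕ) (a b : 𝓞 F), Cf M Q P a b → 0 < Ds → Ad M P T Ds D → T ⊆ Q →
    ∀ α : Lk (a : F) (b : F), α ∈ SelSet (a : F) (b : F) (D : F) ↔ α ∈ Wh M Q Ds a b ∧ Cnd Q T α

/-- **RCH** (port of `PF/RCE.lean`). Reciprocity on `Wh`.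
Proof. `RecFor F Q`. `Iso` at `v ∉ Q`: `v ∈ M`: `Aff Ds`, AFI `iso`; `v ∈ P`: a square (LV), AFI `inv`, ADJ `one`; otherwise `Ev`, LG
(`D = 1`), AFI `iso`. Infinite places: `Aff 1`, AFI `iso`. -/
def SpecRCH : Prop :=
  ∀ (F : Type) [Field F] [NumberField F] (M Q P : Finset (HeightOneSpectrum (𝓞 F))) (Ds : ℕ)
    (a b : 𝓞 F), RecFor F Q → Cf M Q P a b → 0 < Ds → ∀ α ∈ Wh M Q Ds a b, ∑ v ∈ Q, ee v α * ss v α = 0

/-- **ELH** (port of `PF/ELF.lean`). `Wh` is a group. Proof: INV, EVF, at `v ∈ M` KMD `grp` and LZ, LIT `grp`, `sqa`. -/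
def SpecELH : Prop :=
  ∀ (F : Type) [Field F] [NumberField F] (M Q P : Finset (HeightOneSpectrum (𝓞 F))) (Ds : ℕ)
    (a b : 𝓞 F), Cf M Q P a b → 0 < Ds → (1 : Lk (a : F) (b : F)) ∈ Wh M Q Ds a b ∧
    ∀ α ∈ Wh M Q Ds a b, ∀ β ∈ Wh M Q Ds a b, α * β ∈ Wh M Q Ds a b

/-- **WCH** (port of `PF/WCT.lean`). Many elements of `Wh`.
Proof. `bad` = the finite set of the `v ∉ M` with `D' ∈ v`, `S = Q ∪ bad`. SUH: `G0` with
`2^(n + nth + #S) ∏_(v ∈ M) (1 + nr v)` elements. Colours (`WCTM.pgh`, index types a sum or use it twice): `v ∈ M`: KMD `col` for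
`Ds` (`two_v (1 + nr v)` colours, product `2^n ∏ (1 + nr v)`, NF `twm`); infinite places: LIT `col`
(`∏_v (if Thr then 2 else 1) = 2^nth`); `v ∈ bad`: `ee v` (2 colours). So `2^#Q` elements have the same colours; multiply by one of
them. -/
def SpecWCH : Prop :=
  ∀ (F : Type) [Field F] [NumberField F] (M Q P : Finset (HeightOneSpectrum (𝓞 F))) (Ds : ℕ)
    (a b : 𝓞 F), Cf M Q P a b → 0 < Ds →
    ∃ G : Finset (Lk (a : F) (b : F)), 2 ^ Q.card ≤ G.card ∧ (∀ α ∈ G, α ∈ Wh M Q Ds a b) ∧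
      ∀ α ∈ G, ∀ β ∈ G, α ≠ β → ¬ IsSquare (α * β)

/-- **RPH** (port of `PF/RP0.lean`). `1` is in `SelSet`: LZ, LIT `nat`, `sqa`. -/
def SpecRPH : Prop :=
  ∀ (F : Type) [Field F] [NumberField F] (a b : F) (D : ℕ), dsc a b ≠ 0 → 0 < D →
    Rep (D : F) (1 : Lk a b) (0 : Sel 2 (cur a b (D : F))) ∧
    ∀ (α : Lk a b) (z : Sel 2 (cur a b (D : F))), Rep (D : F) α z → (z = 0 ↔ IsSquare α)

/-- **TVL** (port of `PF/TVS.lean`; local form). `Triv` at a place of type (1,2), good for `E^D`.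
Proof. The local class of `α` is a Kummer class (BR `sel`), so a unit class (LG, `w D = 1`, `w(D') = 1` by T12 with `x = 0`).
Then as in `PF/TVS.lean`. -/
def SpecTVL : Prop :=
  ∀ (F : Type) [Field F] [NumberField F] (a b : 𝓞 F) (D : ℕ) (v : HeightOneSpectrum (𝓞 F)),
    0 < D → (6 : 𝓞 F) ∉ v.asIdeal → (D : 𝓞 F) ∉ v.asIdeal →
    (∀ x : 𝓞 F, x ^ 2 + dsc a b ∉ v.asIdeal) →
    ∀ (α : Lk (a : F) (b : F)) (z : Sel 2 (cN a b D)), Rep (D : F) α z →
      Ev (vv v) (ul v α) ∧ (TrN D v z ↔ IsSquare (ul v α))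

/-- **TRL** (80 lines; from TVL). Triviality is given by a character.
Proof. Representatives `α, β` (BR `surj`), `αβ` of the sum (BR `mul`). TVL: all three are unit classes. LS (T12) `c2` of `PR.Hyp`
(two nonsquare unit classes have a square product), and INV `quo`/`trs` for the other cases. -/
def SpecTRL : Prop :=
  ∀ (F : Type) [Field F] [NumberField F] (a b : 𝓞 F) (D : ℕ) (v : HeightOneSpectrum (𝓞 F)),
    0 < D → (6 : 𝓞 F) ∉ v.asIdeal → (D : 𝓞 F) ∉ v.asIdeal →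
    (∀ x : 𝓞 F, x ^ 2 + dsc a b ∉ v.asIdeal) →
    ∀ z w : Sel 2 (cN a b D), TrN D v (z + w) ↔ (TrN D v z ↔ TrN D v w)

/-- **KRH** (port of `PF/KRN.lean`). For good `(a, b)` the coordinates are injective on `Wh` modulo squares.
Proof. All `e_v = 0`: `α ∈ SelSet a b D0` by SLH (`T = ∅`), `Rep D0 α z`; `TrN D0 v z` for all `v ∈ Q` (TVL, HAQ: `e_v = s_v = 0` iff
square); so `z = 0`, `α` is a square (RPH). (`D0 ∉ v` for `v ∈ Q` because `w(D0) = 1`, NF `int`.) -/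
def SpecKRH : Prop :=
  ∀ (F : Type) [Field F] [NumberField F] (M Q P : Finset (HeightOneSpectrum (𝓞 F))) (Ds D0 : ℕ)
    (a b : 𝓞 F), Cf M Q P a b → 0 < Ds → Ad M P ∅ Ds D0 →
    (∀ z : Sel 2 (cN a b D0), (∀ v ∈ Q, TrN D0 v z) → z = 0) →
    ∀ α ∈ Wh M Q Ds a b, (∀ v ∈ Q, ee v α = 0 ∧ ss v α = 0) → IsSquare α

/-- **WGH** (port of `PF/WGR.lean`). The subgroup of the vectors of coordinates. -/
def SpecWGH : Prop :=
  ∀ (F : Type) [Field F] [NumberField F] (M Q P : Finset (HeightOneSpectrum (𝓞 F))) (Ds D0 : ℕ)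
    (a b : 𝓞 F), RecFor F Q → Cf M Q P a b → 0 < Ds → Ad M P ∅ Ds D0 →
    (∀ z : Sel 2 (cN a b D0), (∀ v ∈ Q, TrN D0 v z) → z = 0) →
    ∃ W : AddSubgroup ({v // v ∈ Q} → ZMod 2 × ZMod 2),
      (∀ w, w ∈ W ↔ ∃ α ∈ Wh M Q Ds a b, ∀ v, w v = (ee v.1 α, ss v.1 α)) ∧
      (∀ w ∈ W, ∑ v, (w v).1 * (w v).2 = 0) ∧
      2 ^ Fintype.card {v // v ∈ Q} ≤ Nat.card W

/-- **CRH** (port of `PF/CRD.lean`). The Selmer group is counted by vectors. -/
def SpecCRH : Prop :=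
  ∀ (F : Type) [Field F] [NumberField F] (M Q P : Finset (HeightOneSpectrum (𝓞 F))) (Ds D0 : ℕ)
    (a b : 𝓞 F), RecFor F Q → Cf M Q P a b → 0 < Ds → Ad M P ∅ Ds D0 →
    (∀ z : Sel 2 (cN a b D0), (∀ v ∈ Q, TrN D0 v z) → z = 0) →
    ∀ (T : Finset (HeightOneSpectrum (𝓞 F))) (D : ℕ), T ⊆ Q → Ad M P T Ds D →
    Nat.card (Sel 2 (cN a b D)) =
      {w : {v // v ∈ Q} → ZMod 2 × ZMod 2 |
        (∃ α ∈ Wh M Q Ds a b, ∀ v, w v = (ee v.1 α, ss v.1 α)) ∧
        (∀ v, v.1 ∉ T → (w v).1 = 0) ∧ ∀ v, v.1 ∈ T → (w v).2 = 0}.ncard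

/-- **STH** (port of `PF/STW.lean`). The step theorem over `F`. -/
def SpecSTH : Prop :=
  ∀ (F : Type) [Field F] [NumberField F] (M Q P : Finset (HeightOneSpectrum (𝓞 F))) (Ds D0 : ℕ)
    (a b : 𝓞 F), RecFor F Q → Cf M Q P a b → 0 < Ds → Ad M P ∅ Ds D0 →
    (∀ z : Sel 2 (cN a b D0), (∀ v ∈ Q, TrN D0 v z) → z = 0) →
    (∀ T ⊆ Q, ∀ D D' : ℕ, Ad M P T Ds D → Ad M P T Ds D' →
      Nat.card (Sel 2 (cN a b D)) = Nat.card (Sel 2 (cN a b D'))) ∧
    ∀ T ⊆ Q, ∀ v ∈ Q, v ∉ T → ∀ D D' : ℕ, Ad M P T Ds D → Ad M P (insert v T) Ds D' →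
      ((∀ z : Sel 2 (cN a b D), TrN D v z) →
        Nat.card (Sel 2 (cN a b D')) = 2 * Nat.card (Sel 2 (cN a b D))) ∧
      (¬ (∀ z : Sel 2 (cN a b D), TrN D v z) →
        2 * Nat.card (Sel 2 (cN a b D')) = Nat.card (Sel 2 (cN a b D)))

/-- **SEQ** (80 lines). Comparison of Selmer groups by local conditions.
Proof. `D, D' ≠ 0`. `z ↦ α` (BR `surj`, `sel`) `∈ SelSet D ⊆ SelSet D'`, `↦ z'` (BR `ex`). Injective: if `z1' = z2'` then
`α1 α2` is a square (BR `inj`), `α1 = α2 γ^2` (INV `quo`), `Rep D α1 z2` (BR `sqr`), `z1 = z2` (BR `uni`). Finite: `PF.SpecSFN`. -/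
def SpecSEQ : Prop :=
  ∀ (F : Type) [Field F] [NumberField F] (a b : 𝓞 F) (D D' : ℕ), dsc a b ≠ 0 → 0 < D → 0 < D' →
    SelSet (a : F) (b : F) (D : F) ⊆ SelSet (a : F) (b : F) (D' : F) →
    Nat.card (Sel 2 (cN a b D)) ≤ Nat.card (Sel 2 (cN a b D'))

/-- **JNH** (150 lines). The junk lemma.
Proof. For `v ∈ J` let `c_v` be the colouring of LJR for `D1` (`6 ∉ v`, `w(D') = 1`). For every colour vector `χ` choose (if possible) a
class `z0` in `Sel(E^D1)` with representative `α0` of this colour; if `z` (representative `α`) has the same colour then `α α0`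
is in `SelSet D2`: `InV`: INV. `v ∈ M`: KMD `grp` for `D1` and FAH `dA`. Infinite places: LIT `nat`, `grp`. `v ∈ J`: a square, LZ.
`v ∈ P`: a square (LV), LZ. Other `v`: `w D1 = w D2 = 1`, LG: `Ev` for both, EVF, LG. `z ↦` the class of `α α0` in `Sel(E^D2)` (BR
`ex`) is injective on the classes of colour `χ` (as in SEQ). The number of colour vectors is `≤ 4^#J` (NR3). Finiteness: SFN. -/
def SpecJNH : Prop :=
  ∀ (F : Type) [Field F] [NumberField F] (M P J : Finset (HeightOneSpectrum (𝓞 F))) (a b : 𝓞 F)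
    (D1 D2 : ℕ), dsc a b ≠ 0 → (∀ v : HeightOneSpectrum (𝓞 F), (6 : 𝓞 F) ∈ v.asIdeal → v ∈ M) →
    (∀ v : HeightOneSpectrum (𝓞 F), v ∉ M → dsc a b ∉ v.asIdeal ^ 2) →
    (∀ v ∈ P, v ∉ M ∧ ∀ x : 𝓞 F, x ^ 3 + a * x + b ∉ v.asIdeal) →
    (∀ v ∈ J, v ∉ M ∧ dsc a b ∉ v.asIdeal ∧
      vv v (D1 : v.adicCompletion F) = WithZero.exp (-1 : ℤ)) →
    0 < D1 → 0 < D2 → (∀ v ∈ M, IsSquare ((D1 * D2 : ℕ) : v.adicCompletion F)) →
    (∀ v : HeightOneSpectrum (𝓞 F), v ∉ M → v ∉ J → v ∉ P →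
      vv v (D1 : v.adicCompletion F) = 1 ∧ vv v (D2 : v.adicCompletion F) = 1) →
    Nat.card (Sel 2 (cN a b D1)) ≤ 4 ^ J.card * Nat.card (Sel 2 (cN a b D2))

/-! ## E5. Translation to prime numbers, `F = ℚ` -/

/-- **PLQ** (200 lines). The places of `ℚ`.
Proof. `𝓞 ℚ ≃+* ℤ` (`Rat.ringOfIntegersEquiv`): every element of `𝓞 ℚ` is the cast of an integer, `(n : 𝓞 ℚ) ∈ v ^ k` iff
`p^k ∣ n` for the prime number `p = nv v` of `v` (the ideal is generated by `p`). See `Mathlib.NumberTheory.Padics.HeightOneSpectrum`.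
`int`: NF `int`. `t12`: `x = n`, `x^2 + dsc = n^2 + dz a b` (`p ∣` it iff `n^2 = -dz` in `ZMod p`). `t3` the same. -/
structure SpecPLQ : Prop where
  ex : ∀ p : ℕ, p.Prime → ∃ v : HeightOneSpectrum (𝓞 ℚ), (p : 𝓞 ℚ) ∈ v.asIdeal
  pr : ∀ v : HeightOneSpectrum (𝓞 ℚ), ∃ p : ℕ, p.Prime ∧ (p : 𝓞 ℚ) ∈ v.asIdeal
  uni : ∀ (p : ℕ) (v v' : HeightOneSpectrum (𝓞 ℚ)), p.Prime → (p : 𝓞 ℚ) ∈ v.asIdeal →
    (p : 𝓞 ℚ) ∈ v'.asIdeal → v = v'
  mem : ∀ (p : ℕ) (v : HeightOneSpectrum (𝓞 ℚ)) (n : ℤ) (k : ℕ), p.Prime → (p : 𝓞 ℚ) ∈ v.asIdeal →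
    ((n : 𝓞 ℚ) ∈ v.asIdeal ^ k ↔ (p : ℤ) ^ k ∣ n)
  nat : ∀ (p : ℕ) (v : HeightOneSpectrum (𝓞 ℚ)) (n : ℕ), p.Prime → (p : 𝓞 ℚ) ∈ v.asIdeal →
    ((¬ p ∣ n ↔ vv v (n : v.adicCompletion ℚ) = 1) ∧
    ((p ∣ n ∧ ¬ p ^ 2 ∣ n) ↔ vv v (n : v.adicCompletion ℚ) = WithZero.exp (-1 : ℤ)))
  y12 : ∀ (p : ℕ) (v : HeightOneSpectrum (𝓞 ℚ)) (a b : ℤ), p.Prime → (p : 𝓞 ℚ) ∈ v.asIdeal →
    (Y12 p a b ↔ ∀ x : 𝓞 ℚ, x ^ 2 + dsc (a : 𝓞 ℚ) (b : 𝓞 ℚ) ∉ v.asIdeal)
  y3 : ∀ (p : ℕ) (v : HeightOneSpectrum (𝓞 ℚ)) (a b : ℤ), p.Prime → (p : 𝓞 ℚ) ∈ v.asIdeal →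
    (Y3 p a b ↔ ∀ x : 𝓞 ℚ, x ^ 3 + (a : 𝓞 ℚ) * x + (b : 𝓞 ℚ) ∉ v.asIdeal)

/-- **RCQ** (reciprocity over `ℚ`, all finite sets `Q`). Proof: `PR.SpecREC` (`PR.specREC`): over `ℚ`
the number of places (finite or real) where the form is anisotropic is even, and all of them are in `Q`. Translation: `a, b` are
casts of integers, `Lk (a : ℚ) (b : ℚ)` is `PR.Lk ℚ A B`; `ℚ_[p] ≃+* v.adicCompletion ℚ` and `ℝ ≃+* v.Completion`; `Iso` is
invariant under isomorphisms of fields. See `PF/REC.lean`. -/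
def SpecRCQ : Prop := ∀ Q : Finset (HeightOneSpectrum (𝓞 ℚ)), RecFor ℚ Q

-- **STZ**: `theorem specSTEP (h..) : SpecSTEP` from STH, PLQ, RCQ, FAH. **JNZ**: `SpecJNK` from JNH, PLQ. **TRZ**: `SpecTRZ` from
-- TRL, PLQ. **GEN**: `SpecGEN` from SFN, SEQ, AFI `dd` (finite and infinite places), `z + z = 0` (order a power of 2).
-- **SQZ**: `SpecSQZ`: `cls` by Hensel (`PF.SpecHNS` `sqr` for `p` odd; `PF.SpecSQ2` at 2), PLQ.
-- The curve: `cur (a:ℚ) (b:ℚ) D` and `cN (a:𝓞 ℚ) (b:𝓞 ℚ) D` are equal by `((a : 𝓞 ℚ) : ℚ) = (a : ℚ)` (`map_intCast`/`push_cast`);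
-- generalise before rewriting (dependent types).

end Pool.Agent.Lib.MP_8cb858_nt.PT
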