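import Pool.Agent.Lib.MP_8cb858_nt.PT.FIN
import Pool.Agent.Lib.MP_8cb858_nt.PT.SpecE
import Pool.Agent.Lib.MP_8cb858_nt.PF.SpecF

/-!
# Specs, blocks FM and DN of phase 3: the first moment uniform in the twist (`SpecFMZ`), counting pairs of
# integers (`SpecEQZ`, `SpecTLZ`, `SpecTYZ`)

Every Spec is a closed proposition with a complete proof in its doc string. Module XXX = file `PT/XXX.lean` (import
`...PT.SpecF`), `theorem specXXX (hYYY : SpecYYY) (h : PF.SpecZZZ) .. : SpecXXX`, own lemmas in the namespace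
`Pool.Agent.Lib.MP_8cb858_nt.PT.XXXM`. The Specs of `PF/` and `PR/` are proved and may be used as hypotheses.

The new point compared with `PF.SpecFM`: at a place `v` dividing `D` (outside 6) a pair `(A, B)` attached to a
Selmer class of `E^D` satisfies `tr(A adj B) ∈ v^2`, `det B ∈ v^3`, and for given `A` of unit determinant there are at
most `4 q^10` such `B` modulo `v^3` (the exact number is `3 q^10 - 2 q^8`; 5 free entries, so `q^15` in all). So the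
factor `D^(5n)` is compensated up to `4^(number of places)`.
-/

namespace Pool.Agent.Lib.MP_8cb858_nt.PT

open Polynomial NumberField IsDedekindDomain Pool.Agent.Lib.MP_8cb858_nt.SEL Matrix
open Pool.Agent.Lib.MP_8cb858_nt.PF
open scoped Classical WithZero

/-! ## F1. The local count, abstract chain rings of length 3 -/

/-- `R` is a chain ring of length three, `π` the reduction to the residue field `k`, `N` the square of the maximal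
ideal `ker π`. Example: `R = O/v^3`, `k = O/v`, `N = v^2/v^3`. -/
structure Ch3 {R k : Type} [CommRing R] [Field k] (π : R →+* k) (N : Ideal R) : Prop where
  fin : Finite R
  surj : Function.Surjective π
  unit : ∀ x : R, π x ≠ 0 → IsUnit x
  le : ∀ x ∈ N, π x = 0
  mul : ∀ x y : R, π x = 0 → π y = 0 → x * y ∈ N
  mul3 : ∀ x y : R, π x = 0 → y ∈ N → x * y = 0
  sq : ∀ x : R, x ^ 2 = 0 → x ∈ N
  c1 : {x : R | π x = 0}.ncard ≤ Nat.card k ^ 2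
  c2 : (N : Set R).ncard ≤ Nat.card k
  c3 : Nat.card R ≤ Nat.card k ^ 3

/-- The symmetric `B` with `tr(adj(A) B) = 0`, `tr(A adj(B)) ∈ N`, `det B = 0`. -/
def NS {R : Type} [CommRing R] (N : Ideal R) (A : Matrix (Fin 3) (Fin 3) R) :
    Set (Matrix (Fin 3) (Fin 3) R) :=
  {B | B.IsSymm ∧ (A.adjugate * B).trace = 0 ∧ (A * B.adjugate).trace ∈ N ∧ B.det = 0}

/-- The hyperbolic form with matrix `antidiag(1, δ, 1)`. -/
def hy {R : Type} [CommRing R] (δ : R) : Matrix (Fin 3) (Fin 3) R := !![0, 0, 1; 0, δ, 0; 1, 0, 0]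

/-- **MHB** (80 lines). A hyperbolic basis with given isotropic first vector, over any commutative ring with `1/2`.
Proof. `c = e ⬝ A w` is a unit; `w1 = c⁻¹ w`, `A(e,w1) = 1`; `w2 = w1 - (1/2) A(w1,w1) e`: `A(e,w2) = 1`,
`A(w2,w2) = A(w1,w1) - A(w1,w1) A(e,w1) + 0 = 0`. Put `x = e × w2` (`crossProduct`), `u = adj(A) x`, `g` = the matrix with
columns `e, u, w2`. Identities (all over any commutative ring, `A` symmetric; write `A = !![a,b,c;b,d,f;c,f,h]` and use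
`ring` or `linear_combination`): `x ⬝ adj(A) x = A(e,e) A(w2,w2) - A(e,w2)^2 = -1`; `A adj(A) = det A`;
`e ⬝ x = w2 ⬝ x = 0`. Hence `A(e,u) = det A (e ⬝ x) = 0`, `A(w2,u) = 0`, `A(u,u) = det A (u ⬝ x) = -det A`, and
`det g = -(u ⬝ x) = 1`. -/
def SpecMHB : Prop :=
  ∀ (R : Type) [CommRing R] (A : Matrix (Fin 3) (Fin 3) R) (e w : Fin 3 → R), IsUnit (2 : R) →
    A.IsSymm → e ⬝ᵥ A.mulVec e = 0 → IsUnit (e ⬝ᵥ A.mulVec w) →
    ∃ g : Matrix (Fin 3) (Fin 3) R, g.det = 1 ∧ g.mulVec ![1, 0, 0] = e ∧ gᵀ * A * g = hy (-A.det)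

/-- **MLI** (120 lines). Lifting an isotropic vector of the residue form.
Proof. `A(e, ·) ≠ 0` because `det ≠ 0`, `e ≠ 0`: choose `j` with `(A e)_j ≠ 0` (over `k`), `e0` a lift of `e` (`surj`), and
`w0 = c • Pi.single j 1` with `A(e0,w0) = 1` (the coefficient is a unit, `unit`). `c = A(e0,e0)`, `d = A(w0,w0)`, `π c = 0`;
`h = 1/2` (`2` is a unit), `x = -h c - h^3 d c^2`; `e1 = e0 + x w0`: `A(e1,e1) = c + 2 x + x^2 d`. `c^2 ∈ N`, `c^3 = 0` (`mul`, `mul3`),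
so `x^2 d = h^2 d c^2` and `2 x = -c - h^2 d c^2`: the sum is 0. `π(x) = 0`, so `e1` reduces to `e` and `A(e1,w0) = 1 + x d` is a
unit. MHB for `e1, w0`. -/
def SpecMLI : Prop :=
  ∀ (R k : Type) [CommRing R] [Field k] (π : R →+* k) (N : Ideal R) (A : Matrix (Fin 3) (Fin 3) R)
    (e : Fin 3 → k), Ch3 π N → (2 : k) ≠ 0 → A.IsSymm → (A.map π).det ≠ 0 → e ≠ 0 →
    e ⬝ᵥ (A.map π).mulVec e = 0 →
    ∃ g : Matrix (Fin 3) (Fin 3) R, g.det = 1 ∧ (g.map π).mulVec ![1, 0, 0] = e ∧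
      gᵀ * A * g = hy (-A.det)

/-- **MNC** (200 lines). The count in normal form.
Proof. Write `B = (α,β,γ; β,η,ε; γ,ε,ζ)`. `adj(hy δ) = -(antidiag(δ,1,δ))`, so the trace condition is `-2δγ - η = 0`, `η = -2δγ`.
`tr(hy δ · adj B) = 2(βε - γη) + δ(αζ - γ^2) = 2βε + δαζ + 3δγ^2`, `det B = -α(2δγζ + ε^2) - β^2 ζ + 2βγε + 2δγ^3`. The first
column of `B` is `0` modulo `ker π`, so `π α = π β = π γ = 0`; `γ^2 ∈ N`, `γ^3 = 0`. So the conditions are (i) `2βε + δαζ ∈ N`,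
(ii) `α(2δγζ + ε^2) + β^2 ζ - 2βγε = 0`. (a) `π ε ≠ 0`: (ii): `β^2, βγ ∈ N` and `2δγζ + ε^2` is a unit, so `α ∈ N`; then (i):
`2βε ∈ N`, `β ∈ N`; so `β^2 = βγ = 0` (`mul3`) and `α = 0`. Number of `(α,β,γ,ε,ζ)`: at most `1 · q · q^2 · q^3 · q^3 = q^9`.
(b) `π ε = 0`. Then `π ζ ≠ 0` (otherwise `B.map π = 0`; `π η = 0`), `βε ∈ N`, so (i) gives `α ∈ N`; in (ii) `α(…) = 0`, `βγε = 0`
(`mul`, `mul3`), so `β^2 ζ = 0`, `β^2 = 0`, `β ∈ N` (`sq`). Number: at most `q · q · q^2 · q^2 · q^3 = q^9`. The map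
`B ↦ (α,β,γ,ε,ζ)` is injective on the set. (Two sets, each contained in a product of five sets: `Set.ncard_prod`.) -/
def SpecMNC : Prop :=
  ∀ (R k : Type) [CommRing R] [Field k] [Finite k] (π : R →+* k) (N : Ideal R) (δ : R), Ch3 π N →
    (2 : k) ≠ 0 → π δ ≠ 0 →
    {B ∈ NS N (hy δ) | (B.map π).mulVec ![1, 0, 0] = 0 ∧ B.map π ≠ 0}.ncard ≤ 2 * Nat.card k ^ 9

/-- **MZC** (100 lines). The `B` which vanish in the residue field.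
Proof. Let `m = {x | π x = 0}`, `S` = the set, `S' = {B symmetric, B.map π = 0}`. `S × m → S'`,
`(B, x) ↦ B + x • (3 det A)⁻¹ • A`, is injective: `tr(adj(A) ·)` of the image is `x` because `tr(adj(A) A) = 3 det A`
(`3 det A` is a unit). `#S' ≤ (#m)^6` (six entries). So `#S #m ≤ (#m)^6`, `#m ≥ 1`, `#S ≤ (#m)^5 ≤ q^10`. -/
def SpecMZC : Prop :=
  ∀ (R k : Type) [CommRing R] [Field k] [Finite k] (π : R →+* k) (N : Ideal R)
    (A : Matrix (Fin 3) (Fin 3) R), Ch3 π N → (3 : k) ≠ 0 → A.IsSymm → (A.map π).det ≠ 0 →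
    {B : Matrix (Fin 3) (Fin 3) R | B.IsSymm ∧ (A.adjugate * B).trace = 0 ∧ B.map π = 0}.ncard ≤
      Nat.card k ^ 10

/-- **MKV** (80 lines). An isotropic vector in the kernel.
Proof. `M = A⁻¹ B`. `PR.SpecFID` `cp`: `det(x A - B) = x^3 det A`, so `det(x - M) = x^3`, and `M^3 = 0` (Cayley-Hamilton; see
`PF/FCZ.lean`). `A M = B = Mᵀ A`. `M ≠ 0`. If `M^2 ≠ 0` take `e = M^2 x ≠ 0`: `B e = A M^3 x = 0`, `A(e,e) = x ⬝ A M^4 x = 0`. If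
`M^2 = 0` take `e = M x ≠ 0`: `B e = A M^2 x = 0`, `A(e,e) = x ⬝ A M^2 x = 0`. -/
def SpecMKV : Prop :=
  ∀ (k : Type) [Field k] (A B : Matrix (Fin 3) (Fin 3) k), A.IsSymm → A.det ≠ 0 → B.IsSymm →
    (A.adjugate * B).trace = 0 → (A * B.adjugate).trace = 0 → B.det = 0 → B ≠ 0 →
    ∃ e : Fin 3 → k, e ≠ 0 ∧ e ⬝ᵥ A.mulVec e = 0 ∧ B.mulVec e = 0

/-- **MIV** (50 lines). The number of isotropic vectors. Proof. If there is no nonzero one: 1. Otherwise `PF.SpecFHB` and the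
second part of `PF.SpecFCN` (this is the step `c1` in `PF/FC3.lean`). -/
def SpecMIV : Prop :=
  ∀ (k : Type) [Field k] [Finite k] (A : Matrix (Fin 3) (Fin 3) k), (2 : k) ≠ 0 → A.IsSymm →
    A.det ≠ 0 → {e : Fin 3 → k | e ⬝ᵥ A.mulVec e = 0}.ncard ≤ Nat.card k ^ 2

/-- **MLC** (150 lines). The local count.
Proof. `NS N A ⊆ S0 ∪ T`, `S0` the set of MZC, `T = {B ∈ NS N A | B.map π ≠ 0}`. Let `S = {e : Fin 3 → k | e ≠ 0, A(e,e) = 0}` (for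
`A.map π`), `#S ≤ q^2 - 1` (MIV, without 0), and the relation `B.map π e = 0`. For `B ∈ T` MKV (for `A.map π`, `B.map π`; `π` of the
conditions, `Ch3.le`) gives `e`, and its `q - 1` nonzero multiples. For `e ∈ S` MLI gives `g`; `B ↦ gᵀ B g` is injective
(`det g = 1`) and maps the `B ∈ T` with `B e = 0` modulo `ker π` into the set of MNC with `δ = -det A`: `gᵀBg` is symmetric; the traces
are multiplied by `det g ^ 2 = 1` (`PR.SpecFID` `cg`, and `cg` with `(B, A)` and `trace_mul_comm`); `(gᵀBg)‾ e_1 = ḡᵀ B̄ e = 0`;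
`gᵀBg ≠ 0` in `k`. Double counting (`PF.FC3M.dcle`): `#T (q-1) ≤ (q^2-1) 2 q^9`, `#T ≤ 2 (q+1) q^9 ≤ 3 q^10` (`q ≥ 2`). -/
def SpecMLC : Prop :=
  ∀ (R k : Type) [CommRing R] [Field k] [Finite k] (π : R →+* k) (N : Ideal R)
    (A : Matrix (Fin 3) (Fin 3) R), Ch3 π N → (2 : k) ≠ 0 → (3 : k) ≠ 0 → A.IsSymm →
    (A.map π).det ≠ 0 → (NS N A).ncard ≤ 4 * Nat.card k ^ 10

section glob

variable {F : Type} [Field F] [NumberField F]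

/-- The square of the maximal ideal of `O/v^3`. -/
def N3 (v : HeightOneSpectrum (𝓞 F)) : Ideal (𝓞 F ⧸ v.asIdeal ^ 3) :=
  (v.asIdeal ^ 2).map (Ideal.Quotient.mk (v.asIdeal ^ 3))

/-- The reductions modulo `v^3` of the matrices `B` which can occur at a place dividing `D`. -/
def NW (A : MO F) (v : HeightOneSpectrum (𝓞 F)) :
    Set (Matrix (Fin 3) (Fin 3) (𝓞 F ⧸ v.asIdeal ^ 3)) :=
  NS (N3 v) (md (v.asIdeal ^ 3) A)

/-- `B` has a pattern in `Z` and satisfies the conditions at the places of `W`. -/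
def PatW (Q P W : Finset (HeightOneSpectrum (𝓞 F))) (Z : Finset (Finset (HeightOneSpectrum (𝓞 F))))
    (A B : MO F) : Prop :=
  Pat Q Q P Z A B ∧ ∀ v ∈ W, md (v.asIdeal ^ 3) B ∈ NW A v

/-- The relative density. -/
noncomputable def dnW (Q P W : Finset (HeightOneSpectrum (𝓞 F)))
    (Z : Finset (Finset (HeightOneSpectrum (𝓞 F)))) : ℝ :=
  dns Q Q P Z * ∏ v ∈ W, 4 / (nv v : ℝ) ^ 5

/-- The norm of the modulus. -/
noncomputable def nmW (Q P W : Finset (HeightOneSpectrum (𝓞 F))) : ℝ :=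
  (∏ v ∈ Q ∪ P, (nv v : ℝ)) * ∏ v ∈ W, (nv v : ℝ) ^ 3

end glob

/-- **MQR** (200 lines). The local count for `R = O/v^3`.
Proof. `MLC` for `k = 𝓞 F ⧸ v` (a finite field with `q = nv v` elements: `PF.finite_quot`, `PF.card_quot`, `Ideal.Quotient.field`, as
in `PF.fcb_at`), `π = Ideal.Quotient.factor` (`v^3 ≤ v`), `N = N3 v` (`mk x ∈ N3 v` iff `x ∈ v^2`, because `v^3 ≤ v^2`). `Ch3`: `surj`,
`le`, `mul`, `mul3` clear. `unit`: `x ∉ v`, so `v` and `(x)` are coprime, `v^3` and `(x)` too (`IsCoprime.pow_left`). `sq`: `x^2 ∈ v^3` implies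
`x ∈ v^2`: `PF.SpecNF` `int` (`2 w ≥ 3` implies `w ≥ 2`), or `Ideal.IsPrime.mul_mem_pow`. Cardinalities: `O/v^3` has `q^3` elements
(`Ideal.absNorm` is multiplicative), `O/v^2` has `q^2`; `{π x = 0}` is the kernel of the surjective additive map `O/v^3 → O/v`: `q^3/q`
elements, `N3 v` the kernel of `O/v^3 → O/v^2`: `q^3/q^2`. Finally `det (md (v^3) A)` maps to `det (md v A) ≠ 0`. -/
def SpecMQR : Prop :=
  ∀ (F : Type) [Field F] [NumberField F] (v : HeightOneSpectrum (𝓞 F)) (A : MO F),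
    (6 : 𝓞 F) ∉ v.asIdeal → A.IsSymm → A.det ∉ v.asIdeal →
    (NW A v).ncard ≤ 4 * nv v ^ 10 ∧ Finite (𝓞 F ⧸ v.asIdeal ^ 3)

/-! ## F2. Counting pairs -/

/-- **MPT** (60 lines). The condition at a place dividing `D`.
Proof. `Gc` (`PF.SpecFATT` gives it for attached pairs): `tr(A adj B) = a D^2 det A ∈ v^2`, `det B = -b D^3 det A ∈ v^3`
(`md_det`, `md_adj`, `md_mul`, `md_trace`, `md_symm`). -/
def SpecMPT : Prop :=
  ∀ (F : Type) [Field F] [NumberField F] (v : HeightOneSpectrum (𝓞 F)) (a b : 𝓞 F) (D : ℕ)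
    (A B : MO F), (D : 𝓞 F) ∈ v.asIdeal → Gc (a * (D : 𝓞 F) ^ 2) (b * (D : 𝓞 F) ^ 3) A B →
    md (v.asIdeal ^ 3) B ∈ NW A v

/-- **MPB** (150 lines). The number of `B` with pattern, for one `A` (adapt `PF/FPB.lean`).
Proof. For `z ∈ Z` apply `PF.SpecFFIB` with the index type `HeightOneSpectrum ⊕ HeightOneSpectrum`,
`s = (Q ∪ P).disjSum W`, `J (inl v) = v`, `J (inr v) = v^3`, `T (inl v) = AL Q Q z A v`, `T (inr v) = NW A v`; pairwise coprime because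
the places are distinct (`W` is disjoint from `Q ∪ P`; `IsCoprime.pow`). The product of the `#T` is, by `PF.SpecFAL` and MQR, at most
`(∏_(Q∪P) nv)^5 (2^(-#Q) …) ∏_W 4 nv^10`. Union over `z ∈ Z`: `M (∏_(Q∪P) nv)^5 dns ∏_W 4 nv^10 = M nmW^5 dnW`. -/
def SpecMPB : Prop :=
  ∀ (F : Type) [Field F] [NumberField F] (Q P W : Finset (HeightOneSpectrum (𝓞 F)))
    (Z : Finset (Finset (HeightOneSpectrum (𝓞 F)))) (A : MO F) (S : Set (MO F)) (M : ℝ),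
    (∀ v ∈ Q, v ∉ P) → (∀ v ∈ W, v ∉ Q ∧ v ∉ P) → (∀ z ∈ Z, z ⊆ Q) → A.IsSymm →
    (∀ v ∈ Q ∪ P ∪ W, (6 : 𝓞 F) ∉ v.asIdeal ∧ A.det ∉ v.asIdeal) → 0 ≤ M →
    (∀ R0 : MO F, {B ∈ S | ∀ i j, B i j - R0 i j ∈
        (∏ v ∈ Q ∪ P, v.asIdeal) * ∏ v ∈ W, v.asIdeal ^ 3}.Finite ∧
      ({B ∈ S | ∀ i j, B i j - R0 i j ∈
        (∏ v ∈ Q ∪ P, v.asIdeal) * ∏ v ∈ W, v.asIdeal ^ 3}.ncard : ℝ) ≤ M) →
    {B ∈ S | PatW Q P W Z A B}.Finite ∧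
    ({B ∈ S | PatW Q P W Z A B}.ncard : ℝ) ≤ M * nmW Q P W ^ 5 * dnW Q P W Z

/-- **MP1** (120 lines; port of `PF/FP1.lean`: MPB instead of FPB, the modulus `(∏ v) ∏_W v^3` of norm `nmW`). -/
def SpecMP1 : Prop :=
  ∀ (F : Type) [Field F] [NumberField F] (C : ℝ), 1 ≤ C → ∃ (C' : ℝ) (P0 : ℕ), 0 < C' ∧
    ∀ (Q P W : Finset (HeightOneSpectrum (𝓞 F))) (Z : Finset (Finset (HeightOneSpectrum (𝓞 F)))),
    (∀ v ∈ Q, v ∉ P) → (∀ v ∈ W, v ∉ Q ∧ v ∉ P) → (∀ v ∈ Q ∪ P ∪ W, P0 < nv v) →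
    (∀ z ∈ Z, z ⊆ Q) →
    ∀ ρ : InfinitePlace F → ℝ, (∀ v, 1 ≤ ρ v) → nmW Q P W ≤ vol ρ →
      {X ∈ R1 F C ρ | PatW Q P W Z X.1 X.2}.Finite ∧
      ({X ∈ R1 F C ρ | PatW Q P W Z X.1 X.2}.ncard : ℝ) ≤ C' * dnW Q P W Z * vol ρ ^ 5

/-- **MP2** (120 lines; port of `PF/FP2.lean`). -/
def SpecMP2 : Prop :=
  ∀ (F : Type) [Field F] [NumberField F] (C : ℝ), 1 ≤ C → ∃ (C' : ℝ) (P0 : ℕ), 0 < C' ∧
    ∀ (Q P W : Finset (HeightOneSpectrum (𝓞 F))) (Z : Finset (Finset (HeightOneSpectrum (𝓞 F)))),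
    (∀ v ∈ Q, v ∉ P) → (∀ v ∈ W, v ∉ Q ∧ v ∉ P) → (∀ v ∈ Q ∪ P ∪ W, P0 < nv v) →
    (∀ z ∈ Z, z ⊆ Q) →
    ∀ (ρ : InfinitePlace F → ℝ) (k : ℕ), (∀ v, 1 ≤ ρ v) →
    nmW Q P W * 4 ^ (k * Module.finrank ℚ F) ≤ vol ρ →
      {X ∈ R2 F C ρ k | PatW Q P W Z X.1 X.2}.Finite ∧
      ({X ∈ R2 F C ρ k | PatW Q P W Z X.1 X.2}.ncard : ℝ) ≤ C' * dnW Q P W Z * vol ρ ^ 5

/-- **MZ2** (100 lines; port of `PF/FZ2.lean`: `hpt` is supplemented by `PF.SpecFATT` and MPT for `v ∈ W`). -/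
def SpecMZ2 : Prop :=
  ∀ (F : Type) [Field F] [NumberField F], ∃ (C : ℝ) (P0 : ℕ), 1 ≤ C ∧
    ∀ (Q P W : Finset (HeightOneSpectrum (𝓞 F))) (D : ℕ)
      (Z : Finset (Finset (HeightOneSpectrum (𝓞 F)))) (ρ : InfinitePlace F → ℝ), 0 < D →
    (∀ v ∈ Q, v ∉ P) → (∀ v ∈ Q ∪ P, P0 < nv v ∧ (D : 𝓞 F) ∉ v.asIdeal) →
    (∀ v ∈ W, P0 < nv v ∧ (D : 𝓞 F) ∈ v.asIdeal) →
    (∀ v, 1 ≤ ρ v) → ∀ z ∈ FS Q Q P D Z ρ,
    (∃ X ∈ R1 F C (fun v => D * ρ v), AtZ D z X ∧ PatW Q P W Z X.1 X.2) ∨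
    (∃ (k : ℕ) (Φ : 𝓞 F → MO F × MO F),
      Set.InjOn Φ {q : 𝓞 F | ∀ v : InfinitePlace F, v (q : F) ≤ 2 ^ k} ∧
      ∀ q : 𝓞 F, (∀ v : InfinitePlace F, v (q : F) ≤ 2 ^ k) →
        Φ q ∈ R2 F C (fun v => D * ρ v) k ∧ AtZ D z (Φ q) ∧ PatW Q P W Z (Φ q).1 (Φ q).2)

/-- **MMA** (300 lines; port of `PF/FMA.lean`: `d = dnW`, `N = nmW`; uses `PF.SpecFZ1`, MZ2, MP1, MP2, `SEL.SpecCNL`,
`SEL.SpecBX2`). First moment with patterns and conditions at places dividing the twist. -/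
def SpecMMA : Prop :=
  ∀ (F : Type) [Field F] [NumberField F], ∃ (C : ℝ) (P0 : ℕ), 0 < C ∧
    ∀ (Q P W : Finset (HeightOneSpectrum (𝓞 F))) (D : ℕ)
      (Z : Finset (Finset (HeightOneSpectrum (𝓞 F)))), 0 < D →
    (∀ v ∈ Q, v ∉ P) → (∀ v ∈ Q ∪ P, P0 < nv v ∧ (D : 𝓞 F) ∉ v.asIdeal) →
    (∀ v ∈ W, P0 < nv v ∧ (D : 𝓞 F) ∈ v.asIdeal) → (∀ z ∈ Z, z ⊆ Q) →
    ∃ R0 : ℝ, ∀ ρ : InfinitePlace F → ℝ, (∀ v, R0 ≤ ρ v) →
      (FS Q Q P D Z ρ).Finite ∧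
      ((FS Q Q P D Z ρ).ncard : ℝ) ≤
        C * (D : ℝ) ^ (5 * Module.finrank ℚ F) * dnW Q P W Z * vol ρ ^ 5

/-! ## F3. Counting pairs of integers -/

/-- **HZA** (200 lines). Asymptotics. `U = X^(1/3)`, `V = X^(1/2)`, `PR.Ht X` = the pairs with `|a| ≤ U`, `|b| ≤ V` (`PR.SpecDNH`),
`U V = X^(5/6)`.
Proof. (1) For one class `(r, s)` modulo `N` the number of pairs in `Ht X` is the product of two numbers within 1 of `2U/N` and `2V/N`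
(`PR.DNBM.cB`, PR/DNB.lean), so it is `4UV/N^2 + O(U/N + V/N + 1)`; sum over the classes in `R` (finite). (2) `dz a b = 0`: `4 a^3 = -27 b^2`
determines `a` by `b`: at most `2V + 1` pairs. -/
def SpecHZA : Prop :=
  (∀ (N : ℕ) (R : Set (ZMod N × ZMod N)) (ε : ℝ), 0 < N → 0 < ε → ∃ X0 : ℝ, ∀ X : ℝ, X0 ≤ X →
    |({q ∈ PR.Ht X | ((q.1 : ZMod N), (q.2 : ZMod N)) ∈ R}.ncard : ℝ) -
      4 * (R.ncard : ℝ) / (N : ℝ) ^ 2 * X ^ (5 / 6 : ℝ)| ≤ ε * X ^ (5 / 6 : ℝ)) ∧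
  ∀ ε : ℝ, 0 < ε → ∃ X0 : ℝ, ∀ X : ℝ, X0 ≤ X →
    ({q ∈ PR.Ht X | dz q.1 q.2 = 0}.ncard : ℝ) ≤ ε * X ^ (5 / 6 : ℝ)

/-- **HZB** (80 lines; from HZA). The number of elements of `Hz X` is `4 X^(5/6) (1 + o(1))`. Proof. `N = 1`, `R = univ` in HZA (1); `Hz X` is
`Ht X` without the set of HZA (2); `X^(5/6) ≥ 1`. The last item: `(1, 0)` for `X ≥ 1`. -/
def SpecHZB : Prop :=
  (∀ X : ℝ, (Hz X).Finite) ∧ (∀ X : ℝ, 1 ≤ X → 0 < (Hz X).ncard) ∧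
  ∀ ε : ℝ, 0 < ε → ∃ X0 : ℝ, ∀ X : ℝ, X0 ≤ X →
    |((Hz X).ncard : ℝ) - 4 * X ^ (5 / 6 : ℝ)| ≤ ε * X ^ (5 / 6 : ℝ)

-- **EQZ** (100 lines): `theorem specEQZ (hHZA) (hHZB) : SpecEQZ` (PT/EQZ.lean). The set of EQZ is the set of HZA (1) without part of that of
-- HZA (2): `|# - 4 #R/N^2 X^(5/6)| ≤ 2 ε' X^(5/6)`, `|#Hz - 4 X^(5/6)| ≤ ε' X^(5/6)`, so `|# - #R/N^2 #Hz| ≤ (2 + #R/N^2) ε' X^(5/6) ≤
-- 3 ε' X^(5/6) ≤ ε #Hz` (`#R ≤ N^2`; `#Hz ≥ 3 X^(5/6)`).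

/-- **TLA** (250 lines; port of PR/DNT.lean without the condition `0 < a`).
Proof. As in `PR/DNT.lean`; `p^2 ≤ |dz a b| ≤ 31 X` because `dz a b ≠ 0`, so `p ≤ 6 V`. (0) `a = 0`: at most `2V + 1 ≤ 3V` pairs.
(i) `a ≠ 0`, `p ∤ a`: `a` takes at most `2U` values, `b` at most `2(2V/p^2 + 1)` values for each. (ii) `a ≠ 0`, `p | a`: then `p ≤ U` and
`p | b`: `a` takes at most `2U/p` values, `b` at most `2V/p + 1`. So twice the bound of `PR/DNT.lean`, `(12/z + ε) X^(5/6)`. -/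
def SpecTLA : Prop :=
  ∀ (z : ℕ) (ε : ℝ), 5 ≤ z → 0 < ε → ∃ X0 : ℝ, ∀ X : ℝ, X0 ≤ X →
    ({q ∈ Hz X | ∃ p : ℕ, p.Prime ∧ z < p ∧ (p : ℤ) ^ 2 ∣ dz q.1 q.2}.ncard : ℝ) ≤
      (12 / z + ε) * X ^ (5 / 6 : ℝ)

-- **TLZ** (50 lines): `theorem specTLZ (hTLA) (hHZB) : SpecTLZ` (PT/TLZ.lean): `z` with `12/z ≤ ε`, `ε' = ε`: at most `2 ε X^(5/6)`, and
-- `#Hz ≥ 3 X^(5/6)` for large `X`.

-- **TYZ** (100 lines): `theorem specTYZ (h : PR.SpecDNQ) (h : PF.SpecDNP) ... : SpecTYZ` (PT/TYZ.lean). (1) `PR.SpecDNQ`. (2) `PF.SpecDNP` (2),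
-- `k = ZMod p`, `Nat.card (ZMod p) = p`. (3) `t ↦ (-3t^2, 2t^3)` is a bijection from `ZMod p` to the set: injective: `t = 0` iff `a = 0`, and
-- `b/a = -2t/3`; surjective: `a = 0` implies `b = 0`, `t = 0`; otherwise `t = -3b/(2a)`: `-3t^2 = -27b^2/(4a^2) = a`, `2t^3 = -27 b^3/(4a^3) = b`.
-- (4) square: `PR.RTXM.square_of_no_root` (PR/RTX.lean); `≠ 0`: `PF.SpecDNP` (1).

/-! ## F4. Translation to `F = ℚ` -/

/-- **HQB** (100 lines). The box of `ℚ`. `ρ = X^(1/6)`.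
Proof. `ℚ` has one infinite place `v` (`Rat.infinitePlace`, `Subsingleton (InfinitePlace ℚ)`), real, `v x = |x|`, `mult = 1`; so
`vol (fun _ => X^(1/6)) = X^(1/6)`. `|a|^3 ≤ X` iff `|a| ≤ (X^(1/6))^2`, `b^2 ≤ X` iff `|b| ≤ (X^(1/6))^3`. -/
def SpecHQB : Prop :=
  ∀ X : ℝ, 1 ≤ X → vol (F := ℚ) (fun _ => X ^ (1 / 6 : ℝ)) ^ 5 = X ^ (5 / 6 : ℝ) ∧
    ∀ a b : ℤ, (a, b) ∈ Hz X ↔ ((a : 𝓞 ℚ), (b : 𝓞 ℚ)) ∈ Bx ℚ (fun _ => X ^ (1 / 6 : ℝ))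

/-- **FMP** (300 lines; from MMA, HQB, PLQ, HZB): `SpecFMZ`.
Proof. `C1, P0` from MMA for `F = ℚ` (`finrank = 1`), `K1 = 4`, `C0 = ∏ p` over the primes `p ≤ P0`, `C = C1 C0^5 + 1`. `Q` ↦ the set `Q♯`
of the places of the primes of `Q` (PLQ `ex`, `uni`: a bijection; `nv v = p`: PLQ, `nv v ∈ v`, `nv v` is a power of `p`, `p ∉ v^2`; or
`Ideal.absNorm`), `Z` ↦ its image `Z♯`, `#Z♯ = #Z`; `P = ∅`; `W` = the places of the primes `p ∣ D`, `P0 < p`. The map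
`(a, b, z) ↦ ((a : 𝓞 ℚ), (b : 𝓞 ℚ), z)` is injective (`((a : 𝓞 ℚ) : ℚ) = (a : ℚ)`, so the curves are the same; generalise the curve before
rewriting) from the set of `SpecFMZ` to `FS Q♯ Q♯ ∅ D Z♯ ρ`, `ρ = X^(1/6)`: HQB; `Y12 p a b` iff the condition at `v` (PLQ `y12`);
`Tz p z ↔ TrN D v z` (`uni`). So `# ≤ C1 D^5 (#Z/2^#Q) ∏_Q … ∏_W 4/p^5 X^(5/6)`. As `D` is squarefree, `D = ∏_{p ∣ D} p`
(`Nat.prod_primeFactors_of_squarefree`) `≤ C0 ∏_W p`, so `D^5 ∏_W 4/p^5 ≤ C0^5 4^#W ≤ C0^5 4^ω(D)`. Finally `X^(5/6) ≤ #Hz X` for large `X`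
(HZB). -/
def SpecFMP : Prop := SpecFMZ

end Pool.Agent.Lib.MP_8cb858_nt.PT
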