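import Pool.Agent.Lib.MP_8cb858_nt.PF.SpecA
import Pool.Agent.Lib.MP_8cb858_nt.PF.SpecB
import Pool.Agent.Lib.MP_8cb858_nt.PT.SpecE
import Pool.Agent.Lib.MP_8cb858_nt.PF.SpecO

section
/-!
# ADJ: additions to part O (composition of base changes, adjugate formula, `1` is isotropic)
-/
namespace Pool.Agent.Lib.MP_8cb858_nt.PF

open Polynomial NumberField IsDedekindDomain Pool.Agent.Lib.MP_8cb858_nt.SEL
open scoped Classical WithZero

theorem specADJ (hCOO : SpecCOO) (hNRM : SpecNRM) : SpecADJ where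
  comp := by
    intro R S T _ _ _ a b φ ψ α
    rw [hCOO.ext α, hCOO.upv, hCOO.upv, hCOO.upv]
    rfl
  adj := by
    intro R _ a b x y z
    rw [hCOO.mul, hNRM.frm, hCOO.ofv]
    congr 1 <;> ring
  one := by
    intro K _ a b
    have h0 : cf 0 (1 : Lk a b) = 1 := by rw [hCOO.one]; exact (hCOO.co 1 0 0).1
    have h2 : cf 2 (1 : Lk a b) = 0 := by rw [hCOO.one]; exact (hCOO.co 1 0 0).2.2
    refine ⟨1, ?_, ?_⟩
    · intro h
      have h3 : (1 : K) = 0 := by
        rw [← h0, h, cf, map_zero, coeff_zero]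
      exact one_ne_zero h3
    · rw [one_pow, mul_one, h2]

end Pool.Agent.Lib.MP_8cb858_nt.PF
end

section
/-!
# AFM: `Aff 1` is closed under multiplication if `f` has no root (port of `PR/AFM.lean`)
-/
set_option autoImplicit false

namespace Pool.Agent.Lib.MP_8cb858_nt.PF

open Polynomial NumberField Pool.Agent.Lib.MP_8cb858_nt.SEL
open scoped Classical WithZero

namespace AFMM

theorem sqdiv {M : Type} [CommRing M] {a b : M} (hb : IsUnit b) (h : IsSquare (a * b ^ 2)) :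
    IsSquare a := by
  obtain ⟨u, rfl⟩ := hb
  obtain ⟨r, hr⟩ := h
  refine ⟨r * (↑u⁻¹ : M), ?_⟩
  have e : (u : M) * (↑u⁻¹ : M) = 1 := u.mul_inv
  calc a = a * ((u : M) * (↑u⁻¹ : M)) ^ 2 := by rw [e]; ring
    _ = (a * (u : M) ^ 2) * (↑u⁻¹ : M) ^ 2 := by ring
    _ = r * (↑u⁻¹ : M) * (r * (↑u⁻¹ : M)) := by rw [hr]; ring

theorem unitB (hNRM : SpecNRM) {K : Type} [Field K] {a b D : K} (hD : D ≠ 0) {x : K}
    (hx : x ^ 3 + a * x + b ≠ 0) :
    IsUnit (AdjoinRoot.of (fpol a b) D * (AdjoinRoot.of _ x - th a b)) := by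
  rw [hNRM.unt, hNRM.lin, isUnit_iff_ne_zero]
  exact mul_ne_zero (pow_ne_zero 3 hD) hx

end AFMM

/-- **AFM** -/
theorem specAFM (hNRM : SpecNRM) (hCLN : SpecCLN) (hLZ : SpecLZ) : SpecAFM := by
  intro K _ _ w a b α α' hw hroot hα hα' h1 h2
  have hD : (1 : K) ≠ 0 := one_ne_zero
  obtain ⟨x₁, y₁, hy₁, e₁, s₁⟩ := h1
  obtain ⟨x₂, y₂, hy₂, e₂, s₂⟩ := h2
  have u₁ := AFMM.unitB (a := a) (b := b) hNRM hD (hroot x₁)
  have u₂ := AFMM.unitB (a := a) (b := b) hNRM hD (hroot x₂)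
  by_cases hx : x₁ = x₂
  · subst hx
    refine hLZ K w a b 1 _ hw hD (AFMM.sqdiv u₁ ?_)
    have := s₁.mul s₂
    refine (congrArg IsSquare ?_).mp this
    ring
  · obtain ⟨x₃, y₃, hy₃, e₃, s₃⟩ := hCLN K a b 1 hD hroot x₁ y₁ x₂ y₂ hx e₁ e₂
    refine ⟨x₃, y₃, hy₃, e₃, AFMM.sqdiv (u₁.mul u₂) ?_⟩
    have := (s₁.mul s₂).mul s₃
    refine (congrArg IsSquare ?_).mp this
    ring

end Pool.Agent.Lib.MP_8cb858_nt.PF
end

section
/-!
# CLN: collinear points (port of `PR/CLN.lean`)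
-/
set_option autoImplicit false

namespace Pool.Agent.Lib.MP_8cb858_nt.PF

open Polynomial

namespace CLNM

theorem th_eq {R : Type} [CommRing R] (a b : R) :
    th a b ^ 3 + AdjoinRoot.of (fpol a b) a * th a b + AdjoinRoot.of (fpol a b) b = 0 := by
  have h := AdjoinRoot.eval₂_root (fpol a b)
  rw [eval₂_fpol] at h
  exact h

end CLNM

open CLNM in
/-- **CLN** -/
theorem specCLN : SpecCLN := by
  intro K _ _ a b D hD hroot x₁ y₁ x₂ y₂ hx h₁ h₂
  have hsub : x₁ - x₂ ≠ 0 := sub_ne_zero.2 hx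
  obtain ⟨e₁, he₁⟩ : ∃ e, y₁ = D * e := ⟨y₁ / D, by field_simp⟩
  obtain ⟨e₂, he₂⟩ : ∃ e, y₂ = D * e := ⟨y₂ / D, by field_simp⟩
  have k₁ : D * e₁ ^ 2 = x₁ ^ 3 + a * x₁ + b := by
    apply mul_left_cancel₀ hD
    rw [← h₁, he₁]
    ring
  have k₂ : D * e₂ ^ 2 = x₂ ^ 3 + a * x₂ + b := by
    apply mul_left_cancel₀ hD
    rw [← h₂, he₂]
    ring
  obtain ⟨l, hl⟩ : ∃ l, e₁ - e₂ = l * (x₁ - x₂) := ⟨(e₁ - e₂) / (x₁ - x₂), by field_simp⟩
  obtain ⟨n, hn⟩ : ∃ n, n = e₁ - l * x₁ := ⟨_, rfl⟩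
  obtain ⟨x₃, hx₃⟩ : ∃ x, x = D * l ^ 2 - x₁ - x₂ := ⟨_, rfl⟩
  have l₁ : l * x₁ + n = e₁ := by rw [hn]; ring
  have l₂ : l * x₂ + n = e₂ := by
    rw [hn]
    linear_combination hl
  -- comparison of the coefficients
  have hlin : ∀ t : K, t ^ 3 + a * t + b - D * (l * t + n) ^ 2 - (t - x₁) * (t - x₂) * (t - x₃) =
      (a - 2 * D * l * n - (x₁ * x₂ + x₁ * x₃ + x₂ * x₃)) * t + (b - D * n ^ 2 + x₁ * x₂ * x₃) := by
    intro t
    rw [hx₃]
    ring
  have g₁ := hlin x₁
  have g₂ := hlin x₂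
  rw [l₁, k₁] at g₁
  rw [l₂, k₂] at g₂
  have E₁ : a - 2 * D * l * n - (x₁ * x₂ + x₁ * x₃ + x₂ * x₃) = 0 := by
    have h : (a - 2 * D * l * n - (x₁ * x₂ + x₁ * x₃ + x₂ * x₃)) * (x₁ - x₂) = 0 := by
      linear_combination g₂ - g₁
    exact (mul_eq_zero.1 h).resolve_right hsub
  have E₂ : b - D * n ^ 2 + x₁ * x₂ * x₃ = 0 := by
    linear_combination (-x₁) * E₁ - g₁
  have hf₃ : x₃ ^ 3 + a * x₃ + b = D * (l * x₃ + n) ^ 2 := by
    have h := hlin x₃
    rw [E₁, E₂] at h
    linear_combination h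
  refine ⟨x₃, D * (l * x₃ + n), ?_, ?_, ?_⟩
  · intro h0
    have h1 : l * x₃ + n = 0 := (mul_eq_zero.1 h0).resolve_left hD
    apply hroot x₃
    rw [hf₃, h1]
    ring
  · rw [hf₃]
    ring
  · have t0 := th_eq a b
    have F₁ := congrArg (AdjoinRoot.of (fpol a b)) E₁
    have F₂ := congrArg (AdjoinRoot.of (fpol a b)) E₂
    have F₃ := congrArg (AdjoinRoot.of (fpol a b)) hx₃
    simp only [map_sub, map_add, map_mul, map_pow, map_ofNat, map_zero] at F₁ F₂ F₃
    refine ⟨AdjoinRoot.of (fpol a b) D ^ 2 * (AdjoinRoot.of (fpol a b) l * th a b +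
      AdjoinRoot.of (fpol a b) n), ?_⟩
    generalize AdjoinRoot.of (fpol a b) x₁ = X₁ at *
    generalize AdjoinRoot.of (fpol a b) x₂ = X₂ at *
    generalize AdjoinRoot.of (fpol a b) x₃ = X₃ at *
    generalize AdjoinRoot.of (fpol a b) l = l' at *
    generalize AdjoinRoot.of (fpol a b) n = n' at *
    generalize AdjoinRoot.of (fpol a b) D = d at *
    generalize th a b = t at *
    rw [F₃] at F₁ F₂ ⊢
    linear_combination (-d ^ 3) * t0 + (d ^ 3 * t) * F₁ + d ^ 3 * F₂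

end Pool.Agent.Lib.MP_8cb858_nt.PF
end

section
/-!
SUX: the size of the x-coordinate of a sum of points of `E_1` (helper20)
-/
namespace Pool.Agent.Lib.MP_8cb858_nt.PF

open Polynomial NumberField IsDedekindDomain Pool.Agent.Lib.MP_8cb858_nt.SEL
open scoped Classical WithZero

namespace SUXM

variable {K : Type} [Field K]

/-- the equation -/
theorem eqn {a b x y : K} (h : ((curve a b).baseChange K).toAffine.Nonsingular x y) :
    y ^ 2 = x ^ 3 + a * x + b := by
  have h1 := (WeierstrassCurve.Affine.equation_iff (W := ((curve a b).baseChange K).toAffine) x y).1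
    h.left
  have e1 : ((curve a b).baseChange K).toAffine.a₁ = 0 := by
    show algebraMap K K 0 = 0
    simp
  have e2 : ((curve a b).baseChange K).toAffine.a₂ = 0 := by
    show algebraMap K K 0 = 0
    simp
  have e3 : ((curve a b).baseChange K).toAffine.a₃ = 0 := by
    show algebraMap K K 0 = 0
    simp
  have e4 : ((curve a b).baseChange K).toAffine.a₄ = a := by
    show algebraMap K K a = a
    simp
  have e6 : ((curve a b).baseChange K).toAffine.a₆ = b := by
    show algebraMap K K b = b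
    simp
  rw [e1, e2, e3, e4, e6] at h1
  linear_combination h1

/-- the addition law -/
theorem add_facts {a b x₁ y₁ x₂ y₂ x₃ y₃ : K}
    (h₁ : ((curve a b).baseChange K).toAffine.Nonsingular x₁ y₁)
    (h₂ : ((curve a b).baseChange K).toAffine.Nonsingular x₂ y₂)
    (h₃ : ((curve a b).baseChange K).toAffine.Nonsingular x₃ y₃)
    (h : WeierstrassCurve.Affine.Point.some x₁ y₁ h₁ + WeierstrassCurve.Affine.Point.some x₂ y₂ h₂ =
      WeierstrassCurve.Affine.Point.some x₃ y₃ h₃) :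
    ¬ (x₁ = x₂ ∧ y₁ = -y₂) ∧ ∃ l, x₃ = l ^ 2 - x₁ - x₂ ∧
      (x₁ ≠ x₂ → l * (x₁ - x₂) = y₁ - y₂) ∧
      (x₁ = x₂ → y₁ = y₂ ∧ l * (2 * y₁) = 3 * x₁ ^ 2 + a) := by
  have e1 : ((curve a b).baseChange K).toAffine.a₁ = 0 := by
    show algebraMap K K 0 = 0
    simp
  have e2 : ((curve a b).baseChange K).toAffine.a₂ = 0 := by
    show algebraMap K K 0 = 0
    simp
  have e3 : ((curve a b).baseChange K).toAffine.a₃ = 0 := by
    show algebraMap K K 0 = 0
    simp
  have e4 : ((curve a b).baseChange K).toAffine.a₄ = a := by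
    show algebraMap K K a = a
    simp
  have hneg : ∀ x y : K, ((curve a b).baseChange K).toAffine.negY x y = -y := by
    intro x y
    unfold WeierstrassCurve.Affine.negY
    rw [e1, e3]
    ring
  have hne : ¬ (x₁ = x₂ ∧ y₁ = ((curve a b).baseChange K).toAffine.negY x₂ y₂) := by
    rintro ⟨hx, hy⟩
    rw [WeierstrassCurve.Affine.Point.add_of_Y_eq hx hy] at h
    exact WeierstrassCurve.Affine.Point.some_ne_zero h₃ h.symm
  rw [WeierstrassCurve.Affine.Point.add_some hne] at h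
  injection h with hx hy
  refine ⟨by rwa [hneg] at hne, ((curve a b).baseChange K).toAffine.slope x₁ x₂ y₁ y₂, ?_, ?_, ?_⟩
  · rw [← hx]
    unfold WeierstrassCurve.Affine.addX
    rw [e1, e2]
    ring
  · intro hx'
    rw [WeierstrassCurve.Affine.slope_of_X_ne hx']
    exact div_mul_cancel₀ _ (sub_ne_zero.2 hx')
  · intro hx'
    have hy' : y₁ ≠ ((curve a b).baseChange K).toAffine.negY x₂ y₂ := fun h' => hne ⟨hx', h'⟩
    have hy1 := eqn h₁
    have hy2 := eqn h₂
    rw [← hx'] at hy2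
    have h3 : (y₁ - y₂) * (y₁ + y₂) = 0 := by linear_combination hy1 - hy2
    have h4 : y₁ + y₂ ≠ 0 := by
      intro h5
      apply hy'
      rw [hneg]
      linear_combination h5
    have h5 : y₁ = y₂ := by
      rcases mul_eq_zero.1 h3 with h6 | h6
      · exact sub_eq_zero.1 h6
      · exact absurd h6 h4
    refine ⟨h5, ?_⟩
    rw [WeierstrassCurve.Affine.slope_of_Y_ne hx' hy', hneg, e1, e2, e4]
    have h6 : y₁ - -y₁ ≠ 0 := by
      intro h7
      apply h4
      rw [← h5]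
      linear_combination h7
    rw [show (2 : K) * y₁ = y₁ - -y₁ by ring, div_mul_cancel₀ _ h6]
    ring

variable {w : Valuation K ℤᵐ⁰}

theorem mul_lt_of {x y : K} {g : ℤᵐ⁰} (hx : w x ≤ g) (hy : w y < 1) (hg : 0 < g) :
    w (x * y) < g := by
  rw [map_mul]
  by_cases h0 : w y = 0
  · rw [h0, mul_zero]
    exact hg
  · calc w x * w y ≤ g * w y := mul_le_mul_left hx _
      _ < g * 1 := by
        rw [mul_comm g, mul_comm g]
        exact mul_lt_mul_of_pos_right hy hg
      _ = g := mul_one g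

theorem inv_lt {x : K} (h : 1 < w x) : w x⁻¹ < 1 := by
  rw [map_inv₀]
  exact inv_lt_one_of_one_lt₀ h

/-- the algebraic identities -/
theorem alg {a b x₁ y₁ x₂ y₂ x₃ l : K} (n₁ : x₁ ≠ 0) (n₂ : x₂ ≠ 0)
    (hy1 : y₁ ^ 2 = x₁ ^ 3 + a * x₁ + b) (hy2 : y₂ ^ 2 = x₂ ^ 3 + a * x₂ + b)
    (hl : x₃ = l ^ 2 - x₁ - x₂) (hl1 : x₁ ≠ x₂ → l * (x₁ - x₂) = y₁ - y₂)
    (hl2 : x₁ = x₂ → y₁ = y₂ ∧ l * (2 * y₁) = 3 * x₁ ^ 2 + a) :
    (y₁ / x₁) ^ 2 = x₁ + (a * x₁⁻¹ + b * x₁⁻¹ ^ 2) ∧
    (y₂ / x₂) ^ 2 = x₂ + (a * x₂⁻¹ + b * x₂⁻¹ ^ 2) ∧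
    (y₁ / x₁) ^ 2 - (y₂ / x₂) ^ 2 = (x₁ - x₂) *
      (1 - (a * (x₁⁻¹ * x₂⁻¹) + b * (x₁⁻¹ * x₂⁻¹ ^ 2 + x₁⁻¹ ^ 2 * x₂⁻¹))) ∧
    l * (y₁ / x₁ + y₂ / x₂) = ((y₁ / x₁) ^ 2 + (y₁ / x₁) * (y₂ / x₂) + (y₂ / x₂) ^ 2) -
      (a * x₂⁻¹ + b * x₂⁻¹ ^ 2 + a * x₁⁻¹ + b * (x₁⁻¹ * x₂⁻¹ + x₁⁻¹ ^ 2)) := by
  have i1 : x₁ * x₁⁻¹ = 1 := mul_inv_cancel₀ n₁
  have i2 : x₂ * x₂⁻¹ = 1 := mul_inv_cancel₀ n₂
  have A1 : (y₁ / x₁) ^ 2 = x₁ + (a * x₁⁻¹ + b * x₁⁻¹ ^ 2) := by
    field_simp
    linear_combination hy1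
  have A2 : (y₂ / x₂) ^ 2 = x₂ + (a * x₂⁻¹ + b * x₂⁻¹ ^ 2) := by
    field_simp
    linear_combination hy2
  have A3 : (y₁ / x₁) ^ 2 - (y₂ / x₂) ^ 2 = (x₁ - x₂) *
      (1 - (a * (x₁⁻¹ * x₂⁻¹) + b * (x₁⁻¹ * x₂⁻¹ ^ 2 + x₁⁻¹ ^ 2 * x₂⁻¹))) := by
    rw [A1, A2]
    field_simp
    ring
  refine ⟨A1, A2, A3, ?_⟩
  by_cases hx : x₁ = x₂
  · obtain ⟨h1, h2⟩ := hl2 hx
    subst hx
    subst h1
    have : l * (y₁ / x₁ + y₁ / x₁) = 3 * (y₁ / x₁) ^ 2 - (2 * a * x₁⁻¹ + 3 * b * x₁⁻¹ ^ 2) := by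
      rw [A1]
      field_simp
      linear_combination x₁ * h2
    rw [this]
    ring
  · have h1 := hl1 hx
    have hd : x₁ - x₂ ≠ 0 := sub_ne_zero.2 hx
    have e1 : y₁ = (y₁ / x₁) * x₁ := (div_mul_cancel₀ _ n₁).symm
    have e2 : y₂ = (y₂ / x₂) * x₂ := (div_mul_cancel₀ _ n₂).symm
    set s₁ := y₁ / x₁
    set s₂ := y₂ / x₂
    apply mul_right_cancel₀ hd
    have h2 : l * (s₁ + s₂) * (x₁ - x₂) = (s₁ * x₁ - s₂ * x₂) * (s₁ + s₂) := by
      rw [← e1, ← e2]
      linear_combination (s₁ + s₂) * h1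
    rw [h2]
    have h3 : (s₁ * x₁ - s₂ * x₂) * (s₁ + s₂) = (x₁ - x₂) * (s₁ ^ 2 + s₁ * s₂) +
        x₂ * (s₁ ^ 2 - s₂ ^ 2) := by ring
    rw [h3, A3]
    have h4 : s₁ ^ 2 + s₁ * s₂ + s₂ ^ 2 - (a * x₂⁻¹ + b * x₂⁻¹ ^ 2 + a * x₁⁻¹ +
        b * (x₁⁻¹ * x₂⁻¹ + x₁⁻¹ ^ 2)) = s₁ ^ 2 + s₁ * s₂ + x₂ * (1 - (a * (x₁⁻¹ * x₂⁻¹) +
          b * (x₁⁻¹ * x₂⁻¹ ^ 2 + x₁⁻¹ ^ 2 * x₂⁻¹))) := by
      rw [A2]
      field_simp
      ring
    rw [h4]
    ring

end SUXM

open SUXM

theorem specSUX : SpecSUX := by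
  intro K _ _ w a b x₁ y₁ x₂ y₂ x₃ y₃ h₁ h₂ h₃ ha hb hx1 hx2 hadd
  have hy1 := eqn h₁
  have hy2 := eqn h₂
  obtain ⟨hne, l, hl, hl1, hl2⟩ := add_facts h₁ h₂ h₃ hadd
  have n₁ : x₁ ≠ 0 := by
    rintro rfl
    rw [map_zero] at hx1
    exact absurd hx1 (not_lt.2 zero_le)
  have n₂ : x₂ ≠ 0 := by
    rintro rfl
    rw [map_zero] at hx2
    exact absurd hx2 (not_lt.2 zero_le)
  obtain ⟨A1, A2, A3, A4⟩ := alg n₁ n₂ hy1 hy2 hl hl1 hl2
  have j1 := inv_lt hx1
  have j2 := inv_lt hx2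
  have p1 : (0 : ℤᵐ⁰) < 1 := zero_lt_one
  have sq : ∀ x : K, w x < 1 → w (x ^ 2) < 1 := fun x hx => by
    rw [pow_two]
    exact mul_lt_of hx.le hx p1
  have e1 : w (a * x₁⁻¹ + b * x₁⁻¹ ^ 2) < 1 :=
    Valuation.map_add_lt _ (mul_lt_of ha j1 p1) (mul_lt_of hb (sq _ j1) p1)
  have e2 : w (a * x₂⁻¹ + b * x₂⁻¹ ^ 2) < 1 :=
    Valuation.map_add_lt _ (mul_lt_of ha j2 p1) (mul_lt_of hb (sq _ j2) p1)
  have e3 : w (a * x₂⁻¹ + b * x₂⁻¹ ^ 2 + a * x₁⁻¹ + b * (x₁⁻¹ * x₂⁻¹ + x₁⁻¹ ^ 2)) < 1 :=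
    Valuation.map_add_lt _ (Valuation.map_add_lt _ e2 (mul_lt_of ha j1 p1))
      (mul_lt_of hb (Valuation.map_add_lt _ (mul_lt_of j1.le j2 p1) (sq _ j1)) p1)
  have e4 : w (a * (x₁⁻¹ * x₂⁻¹) + b * (x₁⁻¹ * x₂⁻¹ ^ 2 + x₁⁻¹ ^ 2 * x₂⁻¹)) < 1 :=
    Valuation.map_add_lt _ (mul_lt_of ha (mul_lt_of j1.le j2 p1) p1)
      (mul_lt_of hb (Valuation.map_add_lt _ (mul_lt_of j1.le (sq _ j2) p1)
        (mul_lt_of (sq _ j1).le j2 p1)) p1)
  have w1 : w (y₁ / x₁) ^ 2 = w x₁ := by
    rw [← map_pow, A1]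
    exact Valuation.map_add_eq_of_lt_left _ (e1.trans hx1)
  have w2 : w (y₂ / x₂) ^ 2 = w x₂ := by
    rw [← map_pow, A2]
    exact Valuation.map_add_eq_of_lt_left _ (e2.trans hx2)
  have g1 : 1 < w (y₁ / x₁) := by
    by_contra hcon
    have := pow_le_one' (not_lt.1 hcon) 2
    rw [w1] at this
    exact absurd hx1 (not_lt.2 this)
  have g2 : 1 < w (y₂ / x₂) := by
    by_contra hcon
    have := pow_le_one' (not_lt.1 hcon) 2
    rw [w2] at this
    exact absurd hx2 (not_lt.2 this)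
  have m1 : y₁ ≠ 0 := by
    rintro rfl
    rw [zero_div, map_zero] at g1
    exact absurd g1 (not_lt.2 zero_le)
  have m2 : y₂ ≠ 0 := by
    rintro rfl
    rw [zero_div, map_zero] at g2
    exact absurd g2 (not_lt.2 zero_le)
  refine ⟨m1, m2, ?_⟩
  have hz : x₁ / y₁ + x₂ / y₂ = (y₁ / x₁ + y₂ / x₂) / ((y₁ / x₁) * (y₂ / x₂)) := by
    field_simp
    ring
  rw [hz]
  have hs1 : y₁ / x₁ ≠ 0 := div_ne_zero m1 n₁
  have hs2 : y₂ / x₂ ≠ 0 := div_ne_zero m2 n₂
  set s₁ := y₁ / x₁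
  set s₂ := y₂ / x₂
  set ε₁ := a * x₁⁻¹ + b * x₁⁻¹ ^ 2
  set ε₂ := a * x₂⁻¹ + b * x₂⁻¹ ^ 2
  set η := ε₂ + a * x₁⁻¹ + b * (x₁⁻¹ * x₂⁻¹ + x₁⁻¹ ^ 2)
  have key : x₃ * (s₁ + s₂) ^ 2 = (s₁ * s₂) ^ 2 +
      ((s₁ ^ 2 + s₁ * s₂ + s₂ ^ 2) * (-(2 * η)) + η * η + (s₁ + s₂) ^ 2 * (ε₁ + ε₂)) := by
    have : x₃ * (s₁ + s₂) ^ 2 = (l * (s₁ + s₂)) ^ 2 - (x₁ + x₂) * (s₁ + s₂) ^ 2 := by
      rw [hl]
      ring
    rw [this, A4]
    have q1 : x₁ = s₁ ^ 2 - ε₁ := by rw [A1]; ring
    have q2 : x₂ = s₂ ^ 2 - ε₂ := by rw [A2]; ring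
    rw [show x₁ + x₂ = s₁ ^ 2 - ε₁ + (s₂ ^ 2 - ε₂) by rw [← q1, ← q2]]
    ring
  have p2 : w (2 : K) ≤ 1 := by
    have : (2 : K) = 1 + 1 := by norm_num
    rw [this]
    exact Valuation.map_add_le _ (by simp) (by simp)
  -- sizes
  have t11 : w (s₁ ^ 2) ≤ w ((s₁ * s₂) ^ 2) := by
    rw [mul_pow, map_mul]
    refine le_mul_of_one_le_right' ?_
    rw [map_pow]
    exact one_le_pow_of_one_le' g2.le 2
  have t22 : w (s₂ ^ 2) ≤ w ((s₁ * s₂) ^ 2) := by
    rw [mul_pow, map_mul]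
    refine le_mul_of_one_le_left' ?_
    rw [map_pow]
    exact one_le_pow_of_one_le' g1.le 2
  have t12 : w (s₁ * s₂) ≤ w ((s₁ * s₂) ^ 2) := by
    rw [pow_two, map_mul w (s₁ * s₂)]
    refine le_mul_of_one_le_right' ?_
    rw [map_mul]
    exact one_le_mul g1.le g2.le
  have hq0 : 0 < w ((s₁ * s₂) ^ 2) := by
    rw [Valuation.pos_iff]
    exact pow_ne_zero _ (mul_ne_zero hs1 hs2)
  have hq1 : 1 < w ((s₁ * s₂) ^ 2) := lt_of_lt_of_le (by
    rw [map_mul]
    exact one_lt_mul_of_lt_of_le' g1 g2.le) t12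
  have tT : w (s₁ ^ 2 + s₁ * s₂ + s₂ ^ 2) ≤ w ((s₁ * s₂) ^ 2) :=
    Valuation.map_add_le _ (Valuation.map_add_le _ t11 t12) t22
  have tS : w ((s₁ + s₂) ^ 2) ≤ w ((s₁ * s₂) ^ 2) := by
    have : (s₁ + s₂) ^ 2 = s₁ ^ 2 + s₁ * s₂ + s₂ ^ 2 + s₁ * s₂ := by ring
    rw [this]
    exact Valuation.map_add_le _ tT t12
  have hη2 : w (-(2 * η)) < 1 := by
    rw [Valuation.map_neg, mul_comm, mul_comm]
    exact mul_lt_of p2 e3 p1
  have hR : w ((s₁ ^ 2 + s₁ * s₂ + s₂ ^ 2) * (-(2 * η)) + η * η + (s₁ + s₂) ^ 2 * (ε₁ + ε₂)) <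
      w ((s₁ * s₂) ^ 2) := by
    refine Valuation.map_add_lt _ (Valuation.map_add_lt _ (mul_lt_of tT hη2 hq0) ?_)
      (mul_lt_of tS (Valuation.map_add_lt _ e1 e2) hq0)
    exact (mul_lt_of e3.le e3 p1).trans hq1
  have hfin : w (x₃ * (s₁ + s₂) ^ 2) = w ((s₁ * s₂) ^ 2) := by
    rw [key]
    exact Valuation.map_add_eq_of_lt_left _ hR
  rw [map_div₀, div_pow, ← map_pow, ← map_pow, mul_div_assoc', ← map_mul, hfin]
  exact div_self hq0.ne'

end Pool.Agent.Lib.MP_8cb858_nt.PF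
end

section
/-!
# CLK: the Kummer map is a homomorphism
-/
set_option autoImplicit false

namespace Pool.Agent.Lib.MP_8cb858_nt.PF

open Polynomial Pool.Agent.Lib.MP_8cb858_nt.SEL

/-- **CLK** -/
theorem specCLK : SpecCLK := by
  intro K _ _ a b hd x₁ y₁ x₂ y₂ x₃ y₃ h₁ h₂ h₃ hy₁ hy₂ h
  obtain ⟨-, l, hx₃, hl1, hl2⟩ := SUXM.add_facts h₁ h₂ h₃ h
  have k₁ := SUXM.eqn h₁
  have k₂ := SUXM.eqn h₂
  obtain ⟨n, hn⟩ : ∃ n, n = y₁ - l * x₁ := ⟨_, rfl⟩
  -- comparison of the coefficients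
  have hlin : ∀ t : K, t ^ 3 + a * t + b - (l * t + n) ^ 2 - (t - x₁) * (t - x₂) * (t - x₃) =
      (a - 2 * l * n - (x₁ * x₂ + x₁ * x₃ + x₂ * x₃)) * t + (b - n ^ 2 + x₁ * x₂ * x₃) := by
    intro t
    rw [hx₃]
    ring
  have g₁ := hlin x₁
  have l₁ : l * x₁ + n = y₁ := by rw [hn]; ring
  rw [l₁, ← k₁] at g₁
  have E₁ : a - 2 * l * n - (x₁ * x₂ + x₁ * x₃ + x₂ * x₃) = 0 := by
    by_cases hx : x₁ = x₂
    · obtain ⟨-, h4⟩ := hl2 hx
      subst hx
      rw [hn, hx₃]
      linear_combination (-1 : K) * h4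
    · have h4 := hl1 hx
      have l₂ : l * x₂ + n = y₂ := by
        rw [hn]
        linear_combination (-1 : K) * h4
      have g₂ := hlin x₂
      rw [l₂, ← k₂] at g₂
      have h5 : (a - 2 * l * n - (x₁ * x₂ + x₁ * x₃ + x₂ * x₃)) * (x₁ - x₂) = 0 := by
        linear_combination g₂ - g₁
      exact (mul_eq_zero.1 h5).resolve_right (sub_ne_zero.2 hx)
  have E₂ : b - n ^ 2 + x₁ * x₂ * x₃ = 0 := by
    linear_combination (-x₁) * E₁ - g₁
  have t0 := CLNM.th_eq a b
  have F₁ := congrArg (AdjoinRoot.of (fpol a b)) E₁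
  have F₂ := congrArg (AdjoinRoot.of (fpol a b)) E₂
  have F₃ := congrArg (AdjoinRoot.of (fpol a b)) hx₃
  simp only [map_sub, map_add, map_mul, map_pow, map_ofNat, map_zero] at F₁ F₂ F₃
  refine ⟨AdjoinRoot.of (fpol a b) l * th a b + AdjoinRoot.of (fpol a b) n, ?_⟩
  generalize AdjoinRoot.of (fpol a b) x₁ = X₁ at *
  generalize AdjoinRoot.of (fpol a b) x₂ = X₂ at *
  generalize AdjoinRoot.of (fpol a b) x₃ = X₃ at *
  generalize AdjoinRoot.of (fpol a b) l = l' at *
  generalize AdjoinRoot.of (fpol a b) n = n' at *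
  generalize th a b = t at *
  rw [F₃] at F₁ F₂ ⊢
  linear_combination (-1 : Lk a b) * t0 + t * F₁ + F₂

end Pool.Agent.Lib.MP_8cb858_nt.PF
end

section
/-!
ENG: the groups `E_n` (helper20)
-/
namespace Pool.Agent.Lib.MP_8cb858_nt.PF

open Polynomial NumberField IsDedekindDomain Pool.Agent.Lib.MP_8cb858_nt.SEL
open scoped Classical WithZero

namespace ENGM

variable {K : Type} [Field K] {w : Valuation K ℤᵐ⁰} {a b : K}

theorem le_iff {g z : ℤᵐ⁰} (h : g * z ^ 2 = 1) (k : ℕ) :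
    WithZero.exp (2 * (k : ℤ)) ≤ g ↔ z ≤ WithZero.exp (-(k : ℤ)) := by
  have hz : z ≠ 0 := by
    rintro rfl
    rw [zero_pow two_ne_zero, mul_zero] at h
    exact zero_ne_one h
  have hg : g = (z⁻¹) ^ 2 := by
    rw [inv_pow]
    exact eq_inv_of_mul_eq_one_left h
  have he : WithZero.exp (2 * (k : ℤ)) = WithZero.exp (k : ℤ) ^ 2 := by
    rw [← WithZero.exp_nsmul]
    simp
  rw [hg, he, pow_le_pow_iff_left₀ zero_le zero_le two_ne_zero, WithZero.exp_neg]
  have hk : WithZero.exp (k : ℤ) ≠ 0 := WithZero.exp_ne_zero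
  exact le_inv_comm₀ (WithZero.exp_pos) (zero_lt_iff.2 hz)

theorem one_lt_of_En {n : ℕ} {x y : K} {h : ((curve a b).baseChange K).toAffine.Nonsingular x y}
    (hn : 1 ≤ n) (hP : En w n (WeierstrassCurve.Affine.Point.some x y h : Pt (curve a b) K)) :
    1 < w x := by
  have h1 : WithZero.exp (2 * (n : ℤ)) ≤ w x := hP
  refine lt_of_lt_of_le ?_ h1
  rw [← WithZero.exp_zero, WithZero.exp_lt_exp]
  omega

/-- size of `z` -/
theorem zx (ha : w a ≤ 1) (hb : w b ≤ 1) {x y : K}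
    (h : ((curve a b).baseChange K).toAffine.Nonsingular x y) (hx : 1 < w x) :
    y ≠ 0 ∧ w x * w (x / y) ^ 2 = 1 := by
  have hy := SUXM.eqn h
  have n₁ : x ≠ 0 := by
    rintro rfl
    rw [map_zero] at hx
    exact absurd hx (not_lt.2 zero_le)
  have A1 : (y / x) ^ 2 = x + (a * x⁻¹ + b * x⁻¹ ^ 2) := by
    field_simp
    linear_combination hy
  have j1 := SUXM.inv_lt hx
  have p1 : (0 : ℤᵐ⁰) < 1 := zero_lt_one
  have e1 : w (a * x⁻¹ + b * x⁻¹ ^ 2) < 1 :=
    Valuation.map_add_lt _ (SUXM.mul_lt_of ha j1 p1) (SUXM.mul_lt_of hb (by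
      rw [pow_two]
      exact SUXM.mul_lt_of j1.le j1 p1) p1)
  have w1 : w (y / x) ^ 2 = w x := by
    rw [← map_pow, A1]
    exact Valuation.map_add_eq_of_lt_left _ (e1.trans hx)
  have m1 : y ≠ 0 := by
    rintro rfl
    rw [zero_div, map_zero, zero_pow two_ne_zero] at w1
    rw [← w1] at hx
    exact absurd hx (not_lt.2 zero_le)
  refine ⟨m1, ?_⟩
  have : x / y = (y / x)⁻¹ := (inv_div y x).symm
  rw [this, map_inv₀, inv_pow, w1]
  exact mul_inv_cancel₀ (by
    intro h0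
    rw [h0] at hx
    exact absurd hx (not_lt.2 zero_le))

theorem neg_some' {x y : K} (h : ((curve a b).baseChange K).toAffine.Nonsingular x y) :
    ∃ h' : ((curve a b).baseChange K).toAffine.Nonsingular x (-y),
      (-(WeierstrassCurve.Affine.Point.some x y h) : Pt (curve a b) K) =
        WeierstrassCurve.Affine.Point.some x (-y) h' := by
  have hneg : ((curve a b).baseChange K).toAffine.negY x y = -y := by
    unfold WeierstrassCurve.Affine.negY
    have e1 : ((curve a b).baseChange K).toAffine.a₁ = 0 := by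
      show algebraMap K K 0 = 0
      simp
    have e3 : ((curve a b).baseChange K).toAffine.a₃ = 0 := by
      show algebraMap K K 0 = 0
      simp
    rw [e1, e3]
    ring
  have h1 := WeierstrassCurve.Affine.Point.neg_some h
  have h2 := (WeierstrassCurve.Affine.nonsingular_neg x y).mpr h
  refine ⟨hneg ▸ h2, ?_⟩
  rw [h1]
  congr 1

theorem pz_neg (P : Pt (curve a b) K) : pz (-P) = - pz P := by
  cases P with
  | zero =>
    show pz (0 : Pt (curve a b) K) = - pz (0 : Pt (curve a b) K)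
    show (0 : K) = - 0
    simp
  | some x y h =>
    obtain ⟨h', e⟩ := neg_some' h
    rw [e]
    show x / (-y) = -(x / y)
    rw [div_neg]

theorem En_neg (n : ℕ) (P : Pt (curve a b) K) : En w n (-P) ↔ En w n P := by
  cases P with
  | zero => exact Iff.rfl
  | some x y h =>
    obtain ⟨h', e⟩ := neg_some' h
    rw [e]
    exact Iff.rfl

/-- one point -/
theorem En_iff (ha : w a ≤ 1) (hb : w b ≤ 1) (k : ℕ) (P : Pt (curve a b) K)
    (hP : En w 1 P) : En w k P ↔ w (pz P) ≤ WithZero.exp (-(k : ℤ)) := by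
  cases P with
  | zero =>
    have h1 : w (pz (WeierstrassCurve.Affine.Point.zero : Pt (curve a b) K)) = 0 := by
      show w 0 = 0
      exact map_zero _
    rw [h1]
    exact ⟨fun _ => zero_le, fun _ => trivial⟩
  | some x y h => exact le_iff (zx ha hb h (one_lt_of_En le_rfl hP)).2 k

theorem sub_iff [CharZero K] (ha : w a ≤ 1) (hb : w b ≤ 1) (k : ℕ)
    (P Q : Pt (curve a b) K) (hP : En w 1 P) (hQ : En w 1 Q) :
    En w k (P - Q) ↔ w (pz P - pz Q) ≤ WithZero.exp (-(k : ℤ)) := by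
  have z0 : pz (WeierstrassCurve.Affine.Point.zero : Pt (curve a b) K) = 0 := rfl
  by_cases hPz : P = 0
  · subst hPz
    rw [zero_sub, En_neg]
    have : pz (0 : Pt (curve a b) K) = 0 := rfl
    rw [this, zero_sub, Valuation.map_neg]
    exact En_iff ha hb k Q hQ
  by_cases hQz : Q = 0
  · subst hQz
    rw [sub_zero]
    have : pz (0 : Pt (curve a b) K) = 0 := rfl
    rw [this, sub_zero]
    exact En_iff ha hb k P hP
  by_cases hPQ : P = Q
  · subst hPQ
    rw [sub_self, sub_self, map_zero]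
    exact ⟨fun _ => zero_le, fun _ => trivial⟩
  cases P with
  | zero => exact absurd rfl hPz
  | some x₁ y₁ h₁ =>
    cases Q with
    | zero => exact absurd rfl hQz
    | some x₂ y₂ h₂ =>
      obtain ⟨h₂', e⟩ := neg_some' h₂
      have hne : (WeierstrassCurve.Affine.Point.some x₁ y₁ h₁ : Pt (curve a b) K) -
          WeierstrassCurve.Affine.Point.some x₂ y₂ h₂ ≠ 0 := fun h => hPQ (sub_eq_zero.1 h)
      have hx1 := one_lt_of_En le_rfl hP
      have hx2 := one_lt_of_En le_rfl hQ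
      obtain ⟨R, hR⟩ : ∃ R, R = (WeierstrassCurve.Affine.Point.some x₁ y₁ h₁ : Pt (curve a b) K) -
          WeierstrassCurve.Affine.Point.some x₂ y₂ h₂ := ⟨_, rfl⟩
      rw [← hR] at hne ⊢
      rw [sub_eq_add_neg, e] at hR
      cases R with
      | zero => exact absurd rfl hne
      | some x₃ y₃ h₃ =>
        obtain ⟨_, _, h4⟩ := specSUX K w a b x₁ y₁ x₂ (-y₂) x₃ y₃ h₁ h₂' h₃ ha hb hx1 hx2 hR.symm
        have h5 : x₁ / y₁ + x₂ / (-y₂) = x₁ / y₁ - x₂ / y₂ := by rw [div_neg]; ring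
        rw [h5] at h4
        exact le_iff h4 k

theorem En_mono {n m : ℕ} (h : m ≤ n) {P : Pt (curve a b) K} (hP : En w n P) : En w m P := by
  cases P with
  | zero => trivial
  | some x y hh =>
    refine le_trans ?_ (show WithZero.exp (2 * (n : ℤ)) ≤ w x from hP)
    rw [WithZero.exp_le_exp]
    omega

end ENGM

open ENGM

theorem specENG : SpecENG where
  grp := by
    intro K _ _ w a b n ha hb _ hn
    refine ⟨{ carrier := {P | En w n P}, zero_mem' := trivial, neg_mem' := ?_, add_mem' := ?_ },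
      fun P => Iff.rfl⟩
    · intro P Q hP hQ
      have hQ' : En w n (-Q) := (En_neg n Q).2 hQ
      show En w n (P + Q)
      rw [← sub_neg_eq_add, sub_iff ha hb n P (-Q) (En_mono hn hP) (En_mono hn hQ'), pz_neg,
        sub_neg_eq_add]
      exact Valuation.map_add_le _ ((En_iff ha hb n P (En_mono hn hP)).1 hP)
        ((En_iff ha hb n Q (En_mono hn hQ)).1 hQ)
    · intro P hP
      exact (En_neg n P).2 hP
  sub := by
    intro K _ _ w a b k P Q ha hb _ _ hP hQ
    exact sub_iff ha hb k P Q hP hQ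
  dbl := by
    intro K _ _ w a b n e P ha hb _ hn he hP
    have hP1 := En_mono hn hP
    have hP' : En w 1 (-P) := (En_neg 1 P).2 hP1
    rw [two_nsmul, ← sub_neg_eq_add, sub_iff ha hb (n + e) P (-P) hP1 hP', pz_neg, sub_neg_eq_add]
    have h1 := (En_iff ha hb n P hP1).1 hP
    rw [← two_mul, map_mul, he]
    calc WithZero.exp (-(e : ℤ)) * w (pz P) ≤ WithZero.exp (-(e : ℤ)) * WithZero.exp (-(n : ℤ)) :=
          mul_le_mul_right h1 _
      _ = WithZero.exp (-((n + e : ℕ) : ℤ)) := by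
          rw [← WithZero.exp_add]
          congr 1
          push_cast
          ring
  tor := by
    intro K _ _ w a b P ha hb _ hP h2
    cases P with
    | zero => rfl
    | some x y h =>
      exfalso
      obtain ⟨hy, _⟩ := zx ha hb h (one_lt_of_En le_rfl hP)
      obtain ⟨h', e⟩ := neg_some' h
      rw [two_nsmul] at h2
      have h3 := eq_neg_of_add_eq_zero_left h2
      rw [e] at h3
      injection h3 with _ h4
      have : (2 : K) * y = 0 := by linear_combination h4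
      rcases mul_eq_zero.1 this with h5 | h5
      · exact two_ne_zero h5
      · exact hy h5

end Pool.Agent.Lib.MP_8cb858_nt.PF
end

section
/-!
EFI: `E_n` has finite index (helper20)
-/
namespace Pool.Agent.Lib.MP_8cb858_nt.PF

open Polynomial NumberField IsDedekindDomain Pool.Agent.Lib.MP_8cb858_nt.SEL
open scoped Classical WithZero

namespace EFIM

variable {K : Type} [Field K] {w : Valuation K ℤᵐ⁰} {a b : K}

theorem mul_le {x y : K} {m k : ℤ} (hx : w x ≤ WithZero.exp m) (hy : w y ≤ WithZero.exp k) :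
    w (x * y) ≤ WithZero.exp (m + k) := by
  rw [map_mul, WithZero.exp_add]
  exact mul_le_mul' hx hy

theorem mono {x : K} {m k : ℤ} (hx : w x ≤ WithZero.exp m) (h : m ≤ k) : w x ≤ WithZero.exp k :=
  hx.trans (WithZero.exp_le_exp.2 h)

theorem one_le {x : K} (hx : w x ≤ 1) {m : ℤ} (h : 0 ≤ m) : w x ≤ WithZero.exp m :=
  hx.trans (by rw [← WithZero.exp_zero]; exact WithZero.exp_le_exp.2 h)

theorem natCast_le (m : ℕ) : w (m : K) ≤ 1 := by
  induction m with
  | zero => simp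
  | succ m ih =>
    push_cast
    exact Valuation.map_add_le _ ih (by simp)

/-- lower bound of a quotient -/
theorem lower {l d g : K} {A B : ℤ} (h : l * d = g) (hd : w d ≤ WithZero.exp A)
    (hg : WithZero.exp B ≤ w g) : WithZero.exp (B - A) ≤ w l := by
  have h1 : w l * w d = w g := by rw [← map_mul, h]
  have h2 : WithZero.exp B ≤ w l * WithZero.exp A := by
    rw [← h1] at hg
    exact hg.trans (mul_le_mul_right hd _)
  have h3 : WithZero.exp (B - A) * WithZero.exp A ≤ w l * WithZero.exp A := by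
    rw [← WithZero.exp_add, sub_add_cancel]
    exact h2
  exact le_of_mul_le_mul_right h3 WithZero.exp_pos

theorem succ_le {z : ℤᵐ⁰} {m : ℤ} (h : WithZero.exp m < z) : WithZero.exp (m + 1) ≤ z := by
  have hz : z ≠ 0 := by
    rintro rfl
    exact absurd h (not_lt.2 zero_le)
  rw [← WithZero.exp_log hz, WithZero.exp_lt_exp] at h
  rw [← WithZero.exp_log hz, WithZero.exp_le_exp]
  omega

theorem half {y : K} {m : ℤ} {e : ℕ} (he : w 2 = WithZero.exp (-(e : ℤ)))
    (h : w (2 * y) ≤ WithZero.exp m) : w y ≤ WithZero.exp (m + e) := by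
  rw [map_mul, he] at h
  have h3 : w y = WithZero.exp (e : ℤ) * (WithZero.exp (-(e : ℤ)) * w y) := by
    rw [← mul_assoc, ← WithZero.exp_add, add_neg_cancel, WithZero.exp_zero, one_mul]
  rw [h3, add_comm, WithZero.exp_add]
  exact mul_le_mul_right h _

/-- the derivative is not small where `f` is small -/
theorem der {n δ : ℕ} (ha : w a ≤ 1) (hδ : w (dsc a b) = WithZero.exp (-(δ : ℤ))) {x : K}
    (hx : w x ≤ WithZero.exp (2 * (n : ℤ)))
    (hF : w (x ^ 3 + a * x + b) ≤ WithZero.exp (-(6 * n + δ + 1 : ℤ))) :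
    WithZero.exp (-(6 * n + δ + 1 : ℤ)) ≤ w (3 * x ^ 2 + a) := by
  by_contra hcon
  have hG := (not_le.1 hcon).le
  set F := x ^ 3 + a * x + b with hFd
  set G := 3 * x ^ 2 + a with hGd
  have key : dsc a b = F * (27 * F + (-54) * (G * x) + 108 * (x * (x * x))) +
      G * (G * (4 * G + (-9) * (x * x))) := by
    unfold dsc
    rw [hFd, hGd]
    ring
  have c27 : w (27 : K) ≤ WithZero.exp 0 := by
    rw [WithZero.exp_zero]
    exact_mod_cast natCast_le (w := w) 27
  have c54 : w (-54 : K) ≤ WithZero.exp 0 := by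
    rw [WithZero.exp_zero, Valuation.map_neg]
    exact_mod_cast natCast_le (w := w) 54
  have c108 : w (108 : K) ≤ WithZero.exp 0 := by
    rw [WithZero.exp_zero]
    exact_mod_cast natCast_le (w := w) 108
  have c4 : w (4 : K) ≤ WithZero.exp 0 := by
    rw [WithZero.exp_zero]
    exact_mod_cast natCast_le (w := w) 4
  have c9 : w (-9 : K) ≤ WithZero.exp 0 := by
    rw [WithZero.exp_zero, Valuation.map_neg]
    exact_mod_cast natCast_le (w := w) 9
  have e1 : w (F * (27 * F + (-54) * (G * x) + 108 * (x * (x * x)))) ≤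
      WithZero.exp (-(δ + 1 : ℤ)) := by
    refine mono (mul_le hF (k := 6 * n) (Valuation.map_add_le _ (Valuation.map_add_le _
      (mono (mul_le c27 hF) ?_) (mono (mul_le c54 (mul_le hG hx)) ?_))
      (mono (mul_le c108 (mul_le hx (mul_le hx hx))) ?_))) ?_ <;> omega
  have e2 : w (G * (G * (4 * G + (-9) * (x * x)))) ≤ WithZero.exp (-(δ + 1 : ℤ)) := by
    refine mono (mul_le hG (mul_le (mono hG (k := 0) (by omega)) (k := 4 * n)
      (Valuation.map_add_le _ (mono (mul_le c4 hG) ?_) (mono (mul_le c9 (mul_le hx hx)) ?_)))) ?_ <;>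
      omega
  have e3 : w (dsc a b) ≤ WithZero.exp (-(δ + 1 : ℤ)) := by
    rw [key]
    exact Valuation.map_add_le _ e1 e2
  rw [hδ, WithZero.exp_le_exp] at e3
  omega

/-- close points -/
theorem close [CharZero K] {n δ e : ℕ} (ha : w a ≤ 1)
    (hδ : w (dsc a b) = WithZero.exp (-(δ : ℤ))) (he : w 2 = WithZero.exp (-(e : ℤ)))
    {x y x' y' : K} (h : ((curve a b).baseChange K).toAffine.Nonsingular x y)
    (h' : ((curve a b).baseChange K).toAffine.Nonsingular x' y')
    (hx : w x < WithZero.exp (2 * (n : ℤ))) (hx' : w x' < WithZero.exp (2 * (n : ℤ)))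
    (hxx : w (x - x') ≤ WithZero.exp (-(8 * n + δ + e + 2 : ℤ)))
    (hyy : w (y - y') ≤ WithZero.exp (-(8 * n + δ + e + 2 : ℤ))) :
    En w n ((WeierstrassCurve.Affine.Point.some x y h : Pt (curve a b) K) -
      WeierstrassCurve.Affine.Point.some x' y' h') := by
  obtain ⟨h₂', e'⟩ := ENGM.neg_some' h'
  by_cases hPQ : (WeierstrassCurve.Affine.Point.some x y h : Pt (curve a b) K) =
      WeierstrassCurve.Affine.Point.some x' y' h'
  · rw [hPQ, sub_self]
    trivial
  have hne : (WeierstrassCurve.Affine.Point.some x y h : Pt (curve a b) K) -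
      WeierstrassCurve.Affine.Point.some x' y' h' ≠ 0 := fun h => hPQ (sub_eq_zero.1 h)
  obtain ⟨R, hR⟩ : ∃ R, R = (WeierstrassCurve.Affine.Point.some x y h : Pt (curve a b) K) -
      WeierstrassCurve.Affine.Point.some x' y' h' := ⟨_, rfl⟩
  rw [← hR] at hne ⊢
  rw [sub_eq_add_neg, e'] at hR
  cases R with
  | zero => exact absurd rfl hne
  | some x₃ y₃ h₃ =>
    obtain ⟨hnn, l, hl, hl1, hl2⟩ := SUXM.add_facts h h₂' h₃ hR.symm
    have hy := SUXM.eqn h
    have hy' := SUXM.eqn h'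
    have hn0 : ¬ (x = x' ∧ y = y') := by
      rintro ⟨h1, h2⟩
      exact hnn ⟨h1, by rw [neg_neg]; exact h2⟩
    have hl0 : WithZero.exp ((n : ℤ) + 1) ≤ w l := by
      by_cases hxe : x = x'
      · obtain ⟨h1, h2⟩ := hl2 hxe
        have h3 : y - y' = 2 * y := by rw [h1]; ring
        rw [h3] at hyy
        have h4 := half he hyy
        have h5 : w (x ^ 3 + a * x + b) ≤ WithZero.exp (-(6 * n + δ + 1 : ℤ)) := by
          rw [← hy, pow_two]
          exact mono (mul_le h4 h4) (by omega)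
        have h6 := der ha hδ hx.le h5
        exact (WithZero.exp_le_exp.2 (by omega)).trans (lower h2 hyy h6)
      · have h1 := hl1 hxe
        rw [sub_neg_eq_add] at h1
        have hd : x - x' ≠ 0 := sub_ne_zero.2 hxe
        by_cases h2y : WithZero.exp ((n : ℤ) - (8 * n + δ + e + 2 : ℤ)) < w (2 * y)
        · have h3 : y + y' = 2 * y + -(y - y') := by ring
          have h4 : w (y + y') = w (2 * y) := by
            rw [h3]
            refine Valuation.map_add_eq_of_lt_left _ ?_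
            rw [Valuation.map_neg]
            refine lt_of_le_of_lt (hyy.trans (WithZero.exp_le_exp.2 ?_)) h2y
            omega
          have h5 := succ_le h2y
          rw [← h4] at h5
          exact (WithZero.exp_le_exp.2 (by omega)).trans (lower h1 hxx h5)
        · have h4 := half he (not_lt.1 h2y)
          have h5 : w (x ^ 3 + a * x + b) ≤ WithZero.exp (-(6 * n + δ + 1 : ℤ)) := by
            rw [← hy, pow_two]
            exact mono (mul_le h4 h4) (by omega)
          have h6 := der ha hδ hx.le h5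
          have h7 : x ^ 2 + x * x' + x' ^ 2 + a = (3 * x ^ 2 + a) + (-(x - x')) * (2 * x + x') := by
            ring
          have c2 : w (2 : K) ≤ WithZero.exp 0 := by
            rw [he, WithZero.exp_le_exp]
            omega
          have h8 : w ((-(x - x')) * (2 * x + x')) ≤ WithZero.exp (-(6 * n + δ + 2 : ℤ)) := by
            refine mono (mul_le (by rw [Valuation.map_neg]; exact hxx) (k := 2 * n)
              (Valuation.map_add_le _ (mono (mul_le c2 hx.le) (by omega)) hx'.le)) (by omega)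
          have h9 : w (x ^ 2 + x * x' + x' ^ 2 + a) = w (3 * x ^ 2 + a) := by
            rw [h7]
            refine Valuation.map_add_eq_of_lt_left _ (lt_of_le_of_lt h8 (lt_of_lt_of_le ?_ h6))
            rw [WithZero.exp_lt_exp]
            omega
          rw [← h9] at h6
          have h10 : l * (y - y') = x ^ 2 + x * x' + x' ^ 2 + a := by
            apply mul_right_cancel₀ hd
            linear_combination (y - y') * h1 + hy - hy'
          exact (WithZero.exp_le_exp.2 (by omega)).trans (lower h10 hyy h6)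
    show WithZero.exp (2 * (n : ℤ)) ≤ w x₃
    have hl2' : WithZero.exp (2 * (n : ℤ)) < w (l ^ 2) := by
      rw [pow_two, map_mul]
      refine lt_of_lt_of_le ?_ (mul_le_mul' hl0 hl0)
      rw [← WithZero.exp_add, WithZero.exp_lt_exp]
      omega
    have h12 : x₃ = l ^ 2 + (-(x + x')) := by rw [hl]; ring
    rw [h12, Valuation.map_add_eq_of_lt_left]
    · exact hl2'.le
    · rw [Valuation.map_neg]
      exact (Valuation.map_add_lt _ hx hx').trans hl2'

/-- covering by balls -/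
theorem cover (hLFB : SpecLFB) (hK : IsLF w) (m N : ℕ) : ∃ s : Finset K, ∀ x : K,
    w x ≤ WithZero.exp (m : ℤ) → ∃ c ∈ s, w (x - c) ≤ WithZero.exp (-(N : ℤ)) := by
  obtain ⟨ϖ, hϖ⟩ := hK.surj (WithZero.exp (-1 : ℤ))
  obtain ⟨s, hs⟩ := hLFB.fin hK (N + m)
  have hp : w (ϖ ^ m) = WithZero.exp (-(m : ℤ)) := by
    rw [map_pow, hϖ, ← WithZero.exp_nsmul]
    simp
  have hp0 : ϖ ^ m ≠ 0 := by
    intro h
    rw [h, map_zero] at hp
    exact WithZero.exp_ne_zero hp.symm
  refine ⟨s.image fun c => c / ϖ ^ m, fun x hx => ?_⟩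
  have h1 : w (ϖ ^ m * x) ≤ 1 := by
    rw [← WithZero.exp_zero]
    exact mono (mul_le hp.le hx) (by omega)
  obtain ⟨c, hc, h2⟩ := hs _ h1
  refine ⟨c / ϖ ^ m, Finset.mem_image_of_mem _ hc, ?_⟩
  have h3 : x - c / ϖ ^ m = (ϖ ^ m)⁻¹ * (ϖ ^ m * x - c) := by
    field_simp
  rw [h3]
  have h4 : w (ϖ ^ m)⁻¹ ≤ WithZero.exp (m : ℤ) := by
    rw [map_inv₀, hp, WithZero.exp_neg, inv_inv]
  exact mono (mul_le h4 h2) (by push_cast; omega)

theorem y_bd (ha : w a ≤ 1) (hb : w b ≤ 1) {n : ℕ} {x y : K} (hy : y ^ 2 = x ^ 3 + a * x + b)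
    (hx : w x ≤ WithZero.exp (2 * (n : ℤ))) : w y ≤ WithZero.exp ((3 * n : ℕ) : ℤ) := by
  have h1 : w (y ^ 2) ≤ WithZero.exp (6 * n : ℤ) := by
    rw [hy, pow_succ, pow_two]
    refine Valuation.map_add_le _ (Valuation.map_add_le _ (mono (mul_le (mul_le hx hx) hx) ?_)
      (mono (mul_le (one_le ha le_rfl) hx) ?_)) (one_le hb ?_) <;> omega
  have h2 : w y ^ 2 ≤ WithZero.exp ((3 * n : ℕ) : ℤ) ^ 2 := by
    rw [← map_pow, ← WithZero.exp_nsmul]
    refine h1.trans (WithZero.exp_le_exp.2 ?_)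
    push_cast
    simp only [nsmul_eq_mul]
    push_cast
    omega
  exact (pow_le_pow_iff_left₀ zero_le zero_le two_ne_zero).1 h2

theorem exists_exp {x : K} (hx : x ≠ 0) (h1 : w x ≤ 1) : ∃ δ : ℕ, w x = WithZero.exp (-(δ : ℤ)) := by
  have h0 : w x ≠ 0 := (Valuation.ne_zero_iff _).2 hx
  rw [← WithZero.exp_log h0, ← WithZero.exp_zero, WithZero.exp_le_exp] at h1
  refine ⟨(-WithZero.log (w x)).toNat, ?_⟩
  rw [Int.toNat_of_nonneg (by omega), neg_neg, WithZero.exp_log h0]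

end EFIM

open EFIM

theorem specEFI (hLFB : SpecLFB) : SpecEFI := by
  intro K _ _ w a b n hK ha hb hD hn
  have hD1 : w (dsc a b) ≤ 1 := by
    unfold dsc
    rw [← WithZero.exp_zero]
    have c4 : w (4 : K) ≤ WithZero.exp 0 := by
      rw [WithZero.exp_zero]
      exact_mod_cast natCast_le (w := w) 4
    have c27 : w (27 : K) ≤ WithZero.exp 0 := by
      rw [WithZero.exp_zero]
      exact_mod_cast natCast_le (w := w) 27
    have ha' := one_le ha (le_refl 0)
    have hb' := one_le hb (le_refl 0)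
    rw [pow_succ, pow_two, pow_two]
    exact Valuation.map_add_le _ (mono (mul_le c4 (mul_le (mul_le ha' ha') ha')) (by simp))
      (mono (mul_le c27 (mul_le hb' hb')) (by simp))
  obtain ⟨δ, hδ⟩ := exists_exp hD hD1
  obtain ⟨e, he⟩ := exists_exp (w := w) (x := (2 : K)) two_ne_zero (by
    exact_mod_cast natCast_le (w := w) 2)
  obtain ⟨s1, hs1⟩ := cover hLFB hK (2 * n) (8 * n + δ + e + 2)
  obtain ⟨s2, hs2⟩ := cover hLFB hK (3 * n) (8 * n + δ + e + 2)
  let B : K × K → Pt (curve a b) K → Prop := fun q P => ∃ x y h,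
    P = (WeierstrassCurve.Affine.Point.some x y h : Pt (curve a b) K) ∧
    w x < WithZero.exp (2 * (n : ℤ)) ∧ w (x - q.1) ≤ WithZero.exp (-((8 * n + δ + e + 2 : ℕ) : ℤ)) ∧
    w (y - q.2) ≤ WithZero.exp (-((8 * n + δ + e + 2 : ℕ) : ℤ))
  let Q : K × K → Pt (curve a b) K := fun q => if h : ∃ P, B q P then h.choose else 0
  refine ⟨insert 0 ((s1 ×ˢ s2).image Q), fun P => ?_⟩
  by_cases hP : En w n P
  · exact ⟨0, Finset.mem_insert_self _ _, by rwa [sub_zero]⟩
  cases P with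
  | zero => exact absurd trivial hP
  | some x y h =>
    have hx : w x < WithZero.exp (2 * (n : ℤ)) := not_le.1 hP
    obtain ⟨c, hc, hxc⟩ := hs1 x (by push_cast; exact hx.le)
    obtain ⟨d, hd, hyd⟩ := hs2 y (y_bd ha hb (SUXM.eqn h) hx.le)
    have hB : ∃ P, B (c, d) P := ⟨_, x, y, h, rfl, hx, hxc, hyd⟩
    refine ⟨Q (c, d), Finset.mem_insert_of_mem (Finset.mem_image_of_mem _
      (Finset.mem_product.2 ⟨hc, hd⟩)), ?_⟩
    have hQ : B (c, d) (Q (c, d)) := by
      show B (c, d) (if h : ∃ P, B (c, d) P then h.choose else 0)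
      rw [dif_pos hB]
      exact hB.choose_spec
    obtain ⟨x', y', h', e', hx', hxc', hyd'⟩ := hQ
    rw [e']
    have e1 : (-((8 * n + δ + e + 2 : ℕ) : ℤ)) = -(8 * n + δ + e + 2 : ℤ) := by push_cast; rfl
    rw [e1] at hxc hyd hxc' hyd'
    refine close ha hδ he h h' hx hx' ?_ ?_
    · have : x - x' = (x - c) - (x' - c) := by ring
      rw [this]
      exact (Valuation.map_sub _ _ _).trans (max_le hxc hxc')
    · have : y - y' = (y - d) - (y' - d) := by ring
      rw [this]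
      exact (Valuation.map_sub _ _ _).trans (max_le hyd hyd')

end Pool.Agent.Lib.MP_8cb858_nt.PF
end

section
/-!
# EVI: if `f` has no root modulo `m` then all classes are unit classes
-/
set_option autoImplicit false

namespace Pool.Agent.Lib.MP_8cb858_nt.PF

open Polynomial
open scoped WithZero

namespace EVIM

variable {K : Type} [Field K] {w : Valuation K ℤᵐ⁰}

/-- a square which is `ϖ^{3n}` times a unit has `n` even -/
theorem even_of (ϖ : K) (hϖ : w ϖ = WithZero.exp (-1 : ℤ)) (n : ℤ) (u : K) (hu : w u = 1)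
    (h : IsSquare ((ϖ ^ n) ^ 3 * u)) : Even n := by
  obtain ⟨y, hy⟩ := h
  have h1 := congrArg w hy
  rw [map_mul, map_mul, map_pow, map_zpow₀, hϖ, hu, mul_one, ← WithZero.exp_zsmul,
    ← WithZero.exp_nsmul] at h1
  have hy0 : w y ≠ 0 := by
    intro h0
    rw [h0, mul_zero] at h1
    exact WithZero.exp_ne_zero h1
  obtain ⟨m, hm⟩ : ∃ m : ℤ, w y = WithZero.exp m := ⟨_, (WithZero.exp_log hy0).symm⟩
  rw [hm, ← WithZero.exp_add] at h1
  have h2 := WithZero.exp_injective h1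
  simp only [smul_eq_mul, nsmul_eq_mul] at h2
  push_cast at h2
  exact ⟨-m - n, by omega⟩

end EVIM

theorem specEVI (hSCL : SpecSCL) (hNRM : SpecNRM) (hCOO : SpecCOO) (hLFB : SpecLFB) :
    SpecEVI := by
  intro K _ w a b α hw ha hb h3 hα
  obtain ⟨ϖ, hϖ⟩ := hw.surj (WithZero.exp (-1 : ℤ))
  have hϖ0 : ϖ ≠ 0 := by
    rintro rfl
    rw [map_zero] at hϖ
    exact WithZero.exp_ne_zero hϖ.symm
  have hα0 : α ≠ 0 := by
    rintro rfl
    have h1 : (0 : Lk a b) = 1 := (isUnit_zero_iff.1 hα.1)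
    have h2 := (hCOO.co (a := a) (b := b) (1 : K) 0 0).1
    rw [← hCOO.one, ← h1] at h2
    unfold cf at h2
    rw [map_zero, coeff_zero] at h2
    exact zero_ne_one h2
  obtain ⟨n, h, e, hi, -, hu⟩ := hSCL K w a b ϖ α hϖ ha hb hα0
  have hu := hu h3
  have hsq := hα.2
  rw [e, map_mul, hNRM.sc] at hsq
  obtain ⟨k, hk⟩ := EVIM.even_of ϖ hϖ n (Algebra.norm K h) hu hsq
  obtain ⟨h', hi', hh'⟩ := (hLFB.uni h ha hb hi).2 hu
  refine ⟨AdjoinRoot.of _ (ϖ ^ (-k)), h, h', ?_, hi, hi', hh', ?_⟩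
  · exact (IsUnit.mk0 _ (zpow_ne_zero _ hϖ0)).map _
  · rw [e]
    have h1 : AdjoinRoot.of (fpol a b) (ϖ ^ n) * AdjoinRoot.of _ (ϖ ^ (-k)) ^ 2 = 1 := by
      rw [← map_pow, ← map_mul, ← zpow_natCast, ← zpow_mul, ← zpow_add₀ hϖ0, hk]
      rw [show k + k + -k * ((2 : ℕ) : ℤ) = 0 by push_cast; ring, zpow_zero, map_one]
    calc _ = AdjoinRoot.of (fpol a b) (ϖ ^ n) * AdjoinRoot.of _ (ϖ ^ (-k)) ^ 2 * h := by ring
      _ = _ := by rw [h1, one_mul]

end Pool.Agent.Lib.MP_8cb858_nt.PF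
end

section
/-!
# Module LG1: Kummer classes are unit classes
-/
namespace Pool.Agent.Lib.MP_8cb858_nt.PF

open Polynomial
open scoped WithZero

namespace LG1M

variable {K : Type} [Field K] {w : Valuation K ℤᵐ⁰}

/-- `w (π ^ m) = exp (-m)` -/
theorem w_zpow {π : K} (hπ : w π = WithZero.exp (-1 : ℤ)) (m : ℤ) :
    w (π ^ m) = WithZero.exp (-m) := by
  rw [map_zpow₀, hπ, ← WithZero.exp_zsmul]
  congr 1
  simp

/-- a nonzero element whose square is `c z`, `w c = 1`: `z = π ^ (2 m) u` -/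
theorem even_pow (hVAL : SpecVAL) {π : K} (hπ : w π = WithZero.exp (-1 : ℤ)) {y c z : K}
    (hy : y ≠ 0) (hc : w c = 1) (h : y ^ 2 = c * z) :
    ∃ (m : ℤ) (u : K), w u = 1 ∧ z = π ^ (2 * m) * u := by
  obtain ⟨m, v, hv, e⟩ := hVAL.dec hπ y hy
  have hc0 : c ≠ 0 := by
    rintro rfl
    rw [map_zero] at hc
    exact zero_ne_one hc
  refine ⟨m, v ^ 2 / c, ?_, ?_⟩
  · rw [map_div₀, map_pow, hv, hc]
    simp
  · have h1 : z = y ^ 2 / c := by
      rw [h]; field_simp
    have hπ0 : π ≠ 0 := by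
      rintro rfl
      rw [map_zero] at hπ
      exact WithZero.exp_ne_zero hπ.symm
    rw [h1, e, two_mul, zpow_add₀ hπ0]
    ring

theorem w_add_eq {x y : K} (hx : w x = 1) (hy : w y < 1) : w (x + y) = 1 := by
  rw [Valuation.map_add_eq_of_lt_left w (hy.trans_eq hx.symm), hx]

end LG1M

open LG1M in
theorem specLG1 (hCOO : SpecCOO) (hNRM : SpecNRM) (hEVF : SpecEVF) (hLFB : SpecLFB)
    (hVAL : SpecVAL) (hRTS : SpecRTS) (hIDM : SpecIDM) : SpecLG1 := by
  intro K _ _ w a b D α hw h2 ha hb hdd hD hα ⟨x, y, hy0, hy, hsq⟩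
  obtain ⟨π, hπ⟩ := hVAL.uni hw
  have hπ0 : π ≠ 0 := by
    rintro rfl
    rw [map_zero] at hπ
    exact WithZero.exp_ne_zero hπ.symm
  have hD0 : D ≠ 0 := by
    rintro rfl
    rw [map_zero] at hD
    exact zero_ne_one hD
  obtain ⟨hring, -, hIθ, hIof, -⟩ := hLFB.ring ha hb
  set δ : Lk a b := AdjoinRoot.of _ D * (AdjoinRoot.of _ x - th a b) with hδ
  have hNδ : Algebra.norm K δ = D ^ 2 * y ^ 2 := by
    rw [hδ, hNRM.lin, hy]
    ring
  have hδu : IsUnit δ := by
    rw [hNRM.unt, hNδ]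
    exact isUnit_iff_ne_zero.2 (mul_ne_zero (pow_ne_zero _ hD0) (pow_ne_zero _ hy0))
  -- it suffices to treat `x - θ`
  suffices hx : Ev w (AdjoinRoot.of (fpol a b) x - th a b) by
    have h1 : Ev w (AdjoinRoot.of (fpol a b) D) := by
      refine (hLFB.evu _ ha hb (hIof D hD.le) ?_).2
      rw [hNRM.sc, map_pow, hD, one_pow]
    have h2 : Ev w δ := (hEVF K w a b _ _ ha hb).1 h1 hx
    obtain ⟨g, hg⟩ := hsq
    obtain ⟨δ', hδ'⟩ := hδu.exists_right_inv
    have hgu : IsUnit g := by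
      have : IsUnit (g * g) := hg ▸ hα.1.mul hδu
      exact isUnit_of_mul_isUnit_left this
    have hδ'u : IsUnit δ' := IsUnit.of_mul_eq_one δ (by rw [mul_comm]; exact hδ')
    have e : α = δ * (g * δ') ^ 2 := by
      calc α = α * (δ * δ') := by rw [hδ', mul_one]
        _ = (α * δ) * δ' := by ring
        _ = (g * g) * δ' * (δ * δ') := by rw [hg, hδ', mul_one]
        _ = δ * (g * δ') ^ 2 := by ring
    rw [e]
    exact ((hEVF K w a b δ (g * δ') ha hb).2.1 (hgu.mul hδ'u)).2 h2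
  by_cases hxn : w x ≤ 1
  · by_cases hfu : w (x ^ 3 + a * x + b) = 1
    · -- `x - θ` is a unit of the order
      refine (hLFB.evu _ ha hb ?_ ?_).2
      · rw [sub_eq_add_neg]
        exact (hring _ _ (hIof x hxn) (hring _ _ hIθ hIθ).2.2).1
      · have h3 := hNRM.lin (a := a) (b := b) 1 x
        rw [map_one, one_mul, one_pow, one_mul] at h3
        rw [h3, hfu]
    · have hfle : w (x ^ 3 + a * x + b) ≤ 1 := by
        refine w.map_add_le (w.map_add_le ?_ ?_) hb
        · rw [map_pow]; exact pow_le_one' hxn 3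
        · rw [map_mul]; exact mul_le_one' ha hxn
      have hflt : w (x ^ 3 + a * x + b) < 1 := lt_of_le_of_ne hfle hfu
      obtain ⟨m, u, hu, hz⟩ := even_pow hVAL hπ hy0 hD hy
      have hm : 0 < m := by
        rw [hz, map_mul, hu, mul_one, w_zpow hπ, ← WithZero.exp_zero, WithZero.exp_lt_exp] at hflt
        omega
      have hf2 : w (x ^ 3 + a * x + b) ≤ WithZero.exp (-2 : ℤ) := by
        rw [hz, map_mul, hu, mul_one, w_zpow hπ, WithZero.exp_le_exp]
        omega
      obtain ⟨hr1, hr2⟩ := hRTS K w a b hw ha hb hdd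
      obtain ⟨t, v, htn, ht, -, hv, hxv⟩ := hr1 x hxn hf2
      have hv0 : v ≠ 0 := by
        rintro rfl
        rw [map_zero] at hv
        exact zero_ne_one hv
      obtain ⟨k, rfl⟩ : ∃ k : ℕ, m = k := ⟨m.toNat, by omega⟩
      refine hIDM K w a b t x π (u / v) k hπ ha hb htn hxn ?_ ht (hr2 t ht).2 ?_ (by omega)
      · rw [map_div₀, hu, hv, div_one]
      · have h3 : (x - t) * v = π ^ (2 * k) * u := by
          rw [← hxv, hz]
          norm_cast
        field_simp
        linear_combination h3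
  · -- `x` is not integral
    push Not at hxn
    have hx0 : x ≠ 0 := by
      rintro rfl
      rw [map_zero] at hxn
      exact absurd hxn (not_lt.2 zero_le_one)
    have hxi : w (x⁻¹) < 1 := by
      rw [map_inv₀]
      exact inv_lt_one_of_one_lt₀ hxn
    have hc : w (1 + (a * x⁻¹ ^ 2 + b * x⁻¹ ^ 3)) = 1 := by
      refine w_add_eq (map_one w) (w.map_add_lt ?_ ?_)
      · rw [map_mul, map_pow]
        exact lt_of_le_of_lt (mul_le_of_le_one_left' ha) (pow_lt_one₀ zero_le hxi two_ne_zero)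
      · rw [map_mul, map_pow]
        exact lt_of_le_of_lt (mul_le_of_le_one_left' hb) (pow_lt_one₀ zero_le hxi three_ne_zero)
    have hY : (y * x⁻¹ ^ 2) ^ 2 = (D * (1 + (a * x⁻¹ ^ 2 + b * x⁻¹ ^ 3))) * x⁻¹ := by
      rw [mul_pow, hy]
      field_simp
      ring
    obtain ⟨m, u, hu, hz⟩ := even_pow hVAL hπ (mul_ne_zero hy0 (pow_ne_zero 2 (inv_ne_zero hx0)))
      (by rw [map_mul, hD, hc, one_mul]) hY
    have hm : 0 < m := by
      rw [hz, map_mul, hu, mul_one, w_zpow hπ, ← WithZero.exp_zero, WithZero.exp_lt_exp] at hxi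
      omega
    have hu0 : u ≠ 0 := by
      rintro rfl
      rw [map_zero] at hu
      exact zero_ne_one hu
    have hs0 : π ^ (2 * m) ≠ 0 := zpow_ne_zero _ hπ0
    have hxe : x * (π ^ m) ^ 2 = u⁻¹ := by
      have h3 : x = (π ^ (2 * m) * u)⁻¹ := by rw [← hz, inv_inv]
      rw [h3, ← zpow_natCast, ← zpow_mul, mul_comm m]
      push_cast
      field_simp
    have hsn : w (π ^ (2 * m)) < 1 := by
      rw [w_zpow hπ, ← WithZero.exp_zero, WithZero.exp_lt_exp]
      omega
    have h4 : (AdjoinRoot.of (fpol a b) x - th a b) * (AdjoinRoot.of (fpol a b) (π ^ m)) ^ 2 =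
        el a b u⁻¹ (-π ^ (2 * m)) 0 := by
      rw [← hxe]
      unfold el
      rw [map_mul, map_pow, map_neg, map_zero, zero_mul, add_zero]
      have h5 : π ^ (2 * m) = (π ^ m) ^ 2 := by
        rw [← zpow_natCast, ← zpow_mul, mul_comm m]
        rfl
      rw [h5, map_pow]
      ring
    have hev : Ev w (el a b u⁻¹ (-π ^ (2 * m)) 0) := by
      refine (hLFB.evu _ ha hb ?_ ?_).2
      · intro i
        obtain ⟨c0, c1, c2⟩ := hCOO.co (a := a) (b := b) u⁻¹ (-π ^ (2 * m)) 0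
        rcases i with _ | _ | _ | i
        · rw [c0, map_inv₀, hu, inv_one]
        · rw [c1, Valuation.map_neg]; exact hsn.le
        · rw [c2, map_zero]; exact zero_le
        · rw [hCOO.big _ _ (by omega), map_zero]; exact zero_le
      · rw [hNRM.frm]
        have e : u⁻¹ * ((u⁻¹ - a * 0) ^ 2 + -π ^ (2 * m) * (b * 0 + a * -π ^ (2 * m))) +
            b * 0 * (-π ^ (2 * m) * (u⁻¹ - a * 0) + 0 * (b * 0 + a * -π ^ (2 * m))) -
            b * -π ^ (2 * m) * ((-π ^ (2 * m)) ^ 2 - 0 * (u⁻¹ - a * 0)) =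
            u⁻¹ ^ 3 + π ^ (2 * m) * (π ^ (2 * m) * (a * u⁻¹ + b * π ^ (2 * m))) := by ring
        rw [e]
        refine w_add_eq (by rw [map_pow, map_inv₀, hu, inv_one, one_pow]) ?_
        rw [map_mul, map_mul]
        refine mul_lt_one_of_lt_of_le hsn (mul_le_one' hsn.le (w.map_add_le ?_ ?_))
        · rw [map_mul, map_inv₀, hu, inv_one, mul_one]; exact ha
        · rw [map_mul]; exact mul_le_one' hb hsn.le
    rw [← h4] at hev
    exact ((hEVF K w a b _ _ ha hb).2.1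
      ((isUnit_iff_ne_zero.2 (zpow_ne_zero m hπ0)).map (AdjoinRoot.of (fpol a b)))).1 hev

end Pool.Agent.Lib.MP_8cb858_nt.PF
end

section
/-!
# Module LGF: unit classes are Kummer classes (helper68)
-/
namespace Pool.Agent.Lib.MP_8cb858_nt.PF

open Polynomial NumberField IsDedekindDomain Pool.Agent.Lib.MP_8cb858_nt.SEL
open scoped Classical WithZero

namespace LGFM

theorem main1 (hAFI : SpecAFI) (hINV : SpecINV) (hKMC : SpecKMC) (hUNG : SpecUNG)
    (hTWT : SpecTWT) (hLFB : SpecLFB) (hLG1 : SpecLG1) {K : Type} [Field K] [CharZero K]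
    (w : Valuation K ℤᵐ⁰) (a b : K) (α : Lk a b) (hw : IsLF w) (h2 : w 2 = 1) (ha : w a ≤ 1)
    (hb : w b ≤ 1) (hd : WithZero.exp (-1 : ℤ) ≤ w (dsc a b)) (hα : InV α) :
    Ev w α ↔ Aff 1 α := by
  classical
  constructor
  swap
  · exact hLG1 K w a b 1 α hw h2 ha hb hd (map_one w) hα
  intro hE
  have hd0 : dsc a b ≠ 0 := by
    intro h
    rw [h, map_zero] at hd
    exact absurd hd (not_le.2 WithZero.exp_pos)
  have hm := fpol_monic a b
  obtain ⟨s, hs⟩ : ∃ s : Finset K, ∀ t : K, t ∈ s ↔ t ^ 3 + a * t + b = 0 := by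
    refine ⟨(fpol a b).roots.toFinset, fun t => ?_⟩
    rw [Multiset.mem_toFinset, mem_roots hm.ne_zero, IsRoot.def, ← eval₂_id, eval₂_fpol]
    rfl
  have hinj : Function.Injective (fun i : Fin s.card => ((s.equivFin.symm i : s) : K)) :=
    Subtype.val_injective.comp s.equivFin.symm.injective
  obtain ⟨β, hβ, hβn⟩ := hKMC K w a b s.card (fun i => ((s.equivFin.symm i : s) : K)) hw ha hb hd0
    hinj (fun i => (hs _).1 (s.equivFin.symm i).2)
  by_cases hex : ∃ i, IsSquare (α * β i)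
  · obtain ⟨i, hi⟩ := hex
    obtain ⟨γ, hγ, rfl⟩ := (hINV.quo α (β i) hα.1 (hβ i).1.1).1 hi
    exact ((hAFI.inv 1 (β i) γ hγ).1).2 (hβ i).2
  · exfalso
    push Not at hex
    obtain ⟨n, δ, hδi, hδ, hn⟩ := hUNG K w a b (two w * (s.card + 1) + 1) (Fin.cons α β) hw ha hb (by
      intro i
      refine Fin.cases ?_ (fun j => ?_) i
      · exact ⟨hα, hE⟩
      · exact ⟨(hβ j).1, hLG1 K w a b 1 (β j) hw h2 ha hb hd (map_one w) (hβ j).1 (hβ j).2⟩) (by
      intro i j
      refine Fin.cases ?_ (fun i' => ?_) i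
      · refine Fin.cases ?_ (fun j' => ?_) j
        · intro h
          exact absurd rfl h
        · intro _
          exact hex j'
      · refine Fin.cases ?_ (fun j' => ?_) j
        · intro _
          show ¬ IsSquare (β i' * α)
          rw [mul_comm]
          exact hex i'
        · intro h
          exact hβn i' j' fun e => h (by rw [e]))
    rw [(hLFB.two hw).2.1 h2] at hn
    obtain ⟨t, ht, htr⟩ := hTWT K a b hd0 n δ hδi hδ
    have hcard : n ≤ s.card := by
      have h3 : (Finset.univ.image t).card = n := by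
        rw [Finset.card_image_of_injective _ ht, Finset.card_univ, Fintype.card_fin]
      rw [← h3]
      apply Finset.card_le_card
      intro x hx
      obtain ⟨i, -, rfl⟩ := Finset.mem_image.1 hx
      exact (hs _).2 (htr i)
    omega

end LGFM

open LGFM in
theorem specLGF (hAFI : SpecAFI) (hINV : SpecINV) (hTWD : SpecTWD) (hKMC : SpecKMC)
    (hUNG : SpecUNG) (hTWT : SpecTWT) (hLFB : SpecLFB) (hLG1 : SpecLG1) : SpecLG := by
  intro K _ _ w a b D α hw h2 ha hb hd hwD hα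
  have hD : D ≠ 0 := by
    rintro rfl
    rw [map_zero] at hwD
    exact zero_ne_one hwD
  obtain ⟨κ, k1, k2, -, k3⟩ := hTWD.1 K a b D hD
  have hdsc := hTWD.2 K a b D
  rw [← (k3 w hwD α).2, ← k2]
  refine main1 hAFI hINV hKMC hUNG hTWT hLFB hLG1 w _ _ (κ α) hw h2 ?_ ?_ ?_ ((k1 α).2 hα)
  · rw [map_mul, map_pow, hwD, one_pow, mul_one]
    exact ha
  · rw [map_mul, map_pow, hwD, one_pow, mul_one]
    exact hb
  · rw [hdsc, map_mul, map_pow, hwD, one_pow, one_mul]
    exact hd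

end Pool.Agent.Lib.MP_8cb858_nt.PF
end

section
/-!
# Module LIF: the infinite places
-/
namespace Pool.Agent.Lib.MP_8cb858_nt.PF

open Polynomial NumberField IsDedekindDomain Pool.Agent.Lib.MP_8cb858_nt.SEL
open scoped Classical WithZero

namespace LIFM

open NumberField.InfinitePlace NumberField.InfinitePlace.Completion

theorem real_val {F : Type} [Field F] {v : InfinitePlace F} (hv : v.IsReal) (a : F) :
    ((ringEquivRealOfIsReal hv : v.Completion →+* ℝ) (algebraMap F v.Completion a)) =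
      (v.embedding a).re := by
  have h1 : (ringEquivRealOfIsReal hv : v.Completion →+* ℝ) (algebraMap F v.Completion a) =
      extensionEmbeddingOfIsReal hv (algebraMap F v.Completion a) := rfl
  rw [h1, ← Complex.ofReal_re (extensionEmbeddingOfIsReal hv (algebraMap F v.Completion a)),
    extensionEmbeddingOfIsReal_apply]
  have h2 : extensionEmbedding v (algebraMap F v.Completion a) = v.embedding a := by
    rw [NumberField.InfinitePlace.Completion.algebraMap_apply]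
    exact extensionEmbedding_coe v _
  rw [h2]

end LIFM

open LIFM in
theorem specLIF (hLIR : SpecLIR) (hLIC : SpecLIC) (hLIT : SpecLIT) : SpecLI := by
  intro F _ _ v a b D α hre hd hD hα
  have hD' : algebraMap F v.Completion D ≠ 0 := (_root_.map_ne_zero _).mpr hD
  rcases v.isReal_or_isComplex with hv | hv
  · obtain ⟨h1, h2, h3, h4⟩ := hLIT v.Completion ℝ
      (NumberField.InfinitePlace.Completion.ringEquivRealOfIsReal hv)
      (algebraMap F v.Completion a) (algebraMap F v.Completion b) (algebraMap F v.Completion D) α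
    have key := hLIR _ _ ((NumberField.InfinitePlace.Completion.ringEquivRealOfIsReal hv :
      v.Completion →+* ℝ) (algebraMap F v.Completion D)) _ (by
        rw [real_val hv a]
        exact hre hv) ((_root_.map_ne_zero _).mpr hD') (h1.mpr hα)
    exact ⟨h2.mp key.1, h3.mp key.2.1, h4.mp key.2.2⟩
  · obtain ⟨h1, h2, h3, h4⟩ := hLIT v.Completion ℂ
      (NumberField.InfinitePlace.Completion.ringEquivComplexOfIsComplex hv)
      (algebraMap F v.Completion a) (algebraMap F v.Completion b) (algebraMap F v.Completion D) α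
    have key := hLIC _ _ ((NumberField.InfinitePlace.Completion.ringEquivComplexOfIsComplex hv :
      v.Completion →+* ℂ) (algebraMap F v.Completion D)) _ (by
        have h5 : dsc ((NumberField.InfinitePlace.Completion.ringEquivComplexOfIsComplex hv :
            v.Completion →+* ℂ) (algebraMap F v.Completion a))
            ((NumberField.InfinitePlace.Completion.ringEquivComplexOfIsComplex hv :
              v.Completion →+* ℂ) (algebraMap F v.Completion b)) =
            (NumberField.InfinitePlace.Completion.ringEquivComplexOfIsComplex hv :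
              v.Completion →+* ℂ) (algebraMap F v.Completion (dsc a b)) := by
          unfold dsc
          simp only [map_add, map_mul, map_pow, map_ofNat]
        rw [h5]
        exact (_root_.map_ne_zero _).mpr ((_root_.map_ne_zero _).mpr hd)) ((_root_.map_ne_zero _).mpr hD') (h1.mpr hα)
    exact ⟨h2.mp key.1, h3.mp key.2.1, h4.mp key.2.2⟩

end Pool.Agent.Lib.MP_8cb858_nt.PF
end

section
/-!
# Module LIT: transport by an isomorphism of fields
-/
namespace Pool.Agent.Lib.MP_8cb858_nt.PF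

open Polynomial NumberField IsDedekindDomain Pool.Agent.Lib.MP_8cb858_nt.SEL
open scoped Classical WithZero

namespace LITM

theorem sq_iff {R S : Type} [CommRing R] [CommRing S] (f : R →+* S) (hf : Function.Bijective f)
    (x : R) : IsSquare (f x) ↔ IsSquare x := by
  constructor
  · rintro ⟨y, hy⟩
    obtain ⟨z, rfl⟩ := hf.2 y
    exact ⟨z, hf.1 (by rw [hy, map_mul])⟩
  · rintro ⟨z, rfl⟩
    exact ⟨f z, map_mul f z z⟩

theorem bij (hCOO : SpecCOO) {K K' : Type} [Field K] [Field K'] (ψ : K →+* K')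
    (hψ : Function.Bijective ψ) (a b : K) : Function.Bijective (upr ψ a b) := by
  refine ⟨hCOO.inj ψ hψ.1, fun β => ?_⟩
  obtain ⟨x, hx⟩ := hψ.2 (cf 0 β)
  obtain ⟨y, hy⟩ := hψ.2 (cf 1 β)
  obtain ⟨z, hz⟩ := hψ.2 (cf 2 β)
  refine ⟨el a b x y z, ?_⟩
  rw [hCOO.upv, hx, hy, hz]
  exact (hCOO.ext β).symm

theorem upr_of (hCOO : SpecCOO) {K K' : Type} [Field K] [Field K'] (ψ : K →+* K') (a b x : K) :
    upr ψ a b (AdjoinRoot.of (fpol a b) x) = AdjoinRoot.of (fpol (ψ a) (ψ b)) (ψ x) := by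
  rw [hCOO.ofv, hCOO.upv, hCOO.ofv, map_zero]

theorem upr_th (hCOO : SpecCOO) {K K' : Type} [Field K] [Field K'] (ψ : K →+* K') (a b : K) :
    upr ψ a b (th a b) = th (ψ a) (ψ b) := by
  rw [hCOO.thv, hCOO.upv, hCOO.thv, map_zero, map_one]

theorem main (hCOO : SpecCOO) (hNRM : SpecNRM) {K K' : Type} [Field K] [Field K'] (ψ : K →+* K')
    (hψ : Function.Bijective ψ) (a b D : K) (α : Lk a b) :
    (InV (upr ψ a b α) ↔ InV α) ∧ (IsSquare (upr ψ a b α) ↔ IsSquare α) ∧
    (Aff (ψ D) (upr ψ a b α) ↔ Aff D α) ∧ (Iso (upr ψ a b α) ↔ Iso α) := by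
  have hb := bij hCOO ψ hψ a b
  have hsq := sq_iff (upr ψ a b) hb
  refine ⟨?_, hsq α, ?_, ?_⟩
  · unfold InV
    rw [hNRM.unt, hNRM.unt, hNRM.bc, sq_iff ψ hψ, isUnit_iff_ne_zero, isUnit_iff_ne_zero,
      _root_.map_ne_zero]
  · have key : ∀ x : K, upr ψ a b α * (AdjoinRoot.of _ (ψ D) * (AdjoinRoot.of _ (ψ x) -
        th (ψ a) (ψ b))) = upr ψ a b (α * (AdjoinRoot.of _ D * (AdjoinRoot.of _ x - th a b))) := by
      intro x
      rw [map_mul, map_mul, map_sub, upr_of hCOO, upr_of hCOO, upr_th hCOO]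
    constructor
    · rintro ⟨x', y', hy, h1, h2⟩
      obtain ⟨x, rfl⟩ := hψ.2 x'
      obtain ⟨y, rfl⟩ := hψ.2 y'
      refine ⟨x, y, ?_, ?_, ?_⟩
      · intro h
        exact hy (by rw [h, map_zero])
      · apply hψ.1
        simp only [map_pow, map_mul, map_add]
        exact h1
      · rw [key, hsq] at h2
        exact h2
    · rintro ⟨x, y, hy, h1, h2⟩
      refine ⟨ψ x, ψ y, ?_, ?_, ?_⟩
      · exact (_root_.map_ne_zero ψ).mpr hy
      · rw [← map_pow, h1]
        simp only [map_pow, map_mul, map_add]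
      · rw [key, hsq]
        exact h2
  · constructor
    · rintro ⟨ξ', h0, h1⟩
      obtain ⟨ξ, rfl⟩ := hb.2 ξ'
      refine ⟨ξ, ?_, ?_⟩
      · intro h
        exact h0 (by rw [h, map_zero])
      · rw [← map_pow, ← map_mul, hCOO.cfu] at h1
        exact (map_eq_zero ψ).mp h1
    · rintro ⟨ξ, h0, h1⟩
      refine ⟨upr ψ a b ξ, ?_, ?_⟩
      · intro h
        exact h0 (hb.1 (by rw [h, map_zero]))
      · rw [← map_pow, ← map_mul, hCOO.cfu, h1, map_zero]

end LITM

theorem specLIT (hCOO : SpecCOO) (hNRM : SpecNRM) : SpecLIT := by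
  intro K K' _ _ φ a b D α
  exact LITM.main hCOO hNRM (φ : K →+* K') φ.bijective a b D α

end Pool.Agent.Lib.MP_8cb858_nt.PF
end

section
namespace Pool.Agent.Lib.MP_8cb858_nt.PF

open Polynomial NumberField IsDedekindDomain Pool.Agent.Lib.MP_8cb858_nt.SEL
open scoped Classical WithZero

theorem specLRF (hRTA : SpecRTA) (hRTC : SpecRTC) (hTWU : SpecTWU) : SpecLR := by
  intro K _ _ w a b hw h2 h3 ha hb _ hcase
  refine ⟨?_, fun h t α ht hα hE => ?_⟩
  · rcases hcase with h | h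
    · obtain ⟨h1, t, ht⟩ := hRTA K w a b hw h2 ha hb h
      have hu := h1 t ht
      exact ⟨t, hu.ti, ht, hu.un⟩
    · obtain ⟨t, hr⟩ := hRTC K w a b hw h2 h3 ha hb h
      exact ⟨t, hr.ti.le, hr.rt, hr.un⟩
  · have hu := (hRTA K w a b hw h2 ha hb h).1 t ht
    exact (hTWU K w a b t hw h2 ha hb hu).2 α hα hE

end Pool.Agent.Lib.MP_8cb858_nt.PF
end

section
namespace Pool.Agent.Lib.MP_8cb858_nt.PF

open Polynomial NumberField IsDedekindDomain Pool.Agent.Lib.MP_8cb858_nt.SEL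
open scoped Classical WithZero

theorem specLTF (hRTA : SpecRTA) (hLTN : SpecLTN) (hLTP : SpecLTP) (hLTQ : SpecLTQ)
    (hLS : SpecLS) (hLZ : SpecLZ) (hAFI : SpecAFI) (hINV : SpecINV) (hEVF : SpecEVF) :
    SpecLT := by
  intro K _ _ w a b D α hw h2 h3 ha hb hD hT hwD hα
  have hD0 : D ≠ 0 := by
    rintro rfl
    rw [map_zero] at hwD
    exact WithZero.exp_ne_zero hwD.symm
  obtain ⟨h1, t, ht⟩ := hRTA K w a b hw h2 ha hb hT
  have hu := h1 t ht
  constructor
  · intro hA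
    have hI := hAFI.iso D α hD0 hα.1 hA
    by_cases hE : Ev w α
    · left
      obtain ⟨x, y, hy, hxy, hsq⟩ := hA
      have hb' := (hAFI.pt D x y hD0 hy hxy).1
      obtain ⟨γ, hγ, hg⟩ := (hINV.quo _ α hb'.1 hα.1).1 (by rwa [mul_comm])
      have hEβ := ((hEVF K w a b α γ ha hb).2.1 hγ).2 hE
      rw [← hg] at hEβ
      have hx : 1 < w x := by
        by_contra hx
        exact hLTN K w a b t D x hw h2 ha hb hu hwD (not_lt.1 hx) hEβ
      have hs := hLTQ K w a b t D x y hw h2 ha hb hu.ti ht hu.un hD0 hy hxy hx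
      have := hINV.trs α _ 1 hb'.1 hsq (by rwa [mul_one])
      rwa [mul_one] at this
    · right
      exact ⟨hE, hI⟩
  · rintro (h | ⟨hE, hI⟩)
    · exact hLZ K w a b D α hw hD0 h
    · have hD1 : w D < 1 := by
        rw [hwD, ← WithZero.exp_zero, WithZero.exp_lt_exp]
        norm_num
      obtain ⟨x, y, hx, hy, hxy⟩ := hLTP K w a b t D hw h2 hu.ti ht hu.un hD0 hD1
      obtain ⟨hb', hA⟩ := hAFI.pt D x y hD0 hy hxy
      have hIβ := hAFI.iso D _ hD0 hb'.1 hA
      have hEβ := hLTN K w a b t D x hw h2 ha hb hu hwD hx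
      have hH := hLS K w a b hw h2 h3 ha hb hD (Or.inl hT)
      have hs := (hH.c4 α _ hα hb' hE hEβ).1 (iff_of_true hI hIβ)
      obtain ⟨γ, hγ, hg⟩ := (hINV.quo α _ hα.1 hb'.1).1 hs
      rw [hg]
      exact ((hAFI.inv D _ γ hγ).1).2 hA

end Pool.Agent.Lib.MP_8cb858_nt.PF
end

section
/-!
# NFB: integers and residues at a place
-/
set_option autoImplicit false

namespace Pool.Agent.Lib.MP_8cb858_nt.PF.NFBM

open NumberField IsDedekindDomain Filter Pool.Agent.Lib.MP_8cb858_nt.SEL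
open scoped Classical Topology WithZero

variable {F : Type} [Field F] [NumberField F]

theorem vv_alg (v : HeightOneSpectrum (𝓞 F)) (z : F) :
    vv v (algebraMap F (v.adicCompletion F) z) = v.valuation F z :=
  v.valuedAdicCompletion_eq_valuation' z

theorem vv_int (v : HeightOneSpectrum (𝓞 F)) (x : 𝓞 F) :
    vv v (algebraMap F (v.adicCompletion F) (x : F)) = v.intValuation x := by
  rw [vv_alg]
  exact v.valuation_of_algebraMap x

theorem vv_int_le (v : HeightOneSpectrum (𝓞 F)) (x : 𝓞 F) :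
    vv v (algebraMap F (v.adicCompletion F) (x : F)) ≤ 1 := by
  rw [vv_int]
  exact v.intValuation_le_one x

theorem vv_int_one (v : HeightOneSpectrum (𝓞 F)) (x : 𝓞 F) :
    vv v (algebraMap F (v.adicCompletion F) (x : F)) = 1 ↔ x ∉ v.asIdeal := by
  rw [vv_int, ← not_iff_not, not_not, ← v.intValuation_lt_one_iff_mem]
  exact ⟨fun h => lt_of_le_of_ne (v.intValuation_le_one x) h, fun h => h.ne⟩

/-- density of `F` -/
theorem near_F (v : HeightOneSpectrum (𝓞 F)) (x d : v.adicCompletion F) (hd : d ≠ 0) :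
    ∃ z : F, vv v (x - algebraMap F (v.adicCompletion F) z) ≤ vv v d := by
  obtain ⟨S, hS⟩ : ∃ S : Set (v.adicCompletion F), S = {y | vv v ((x - y) / d) ≤ 1} := ⟨_, rfl⟩
  have hO : IsOpen S := by
    have h1 := Valued.isOpen_valuationSubring (v.adicCompletion F) (Γ₀ := ℤᵐ⁰)
    have h2 : Continuous fun y : v.adicCompletion F => (x - y) / d := by
      simp only [div_eq_mul_inv]
      exact (continuous_const.sub continuous_id).mul continuous_const
    rw [hS]
    exact h1.preimage h2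
  have hne : S.Nonempty := by
    refine ⟨x, ?_⟩
    rw [hS]
    show vv v ((x - x) / d) ≤ 1
    rw [sub_self, zero_div, map_zero]
    exact zero_le
  obtain ⟨z, hz⟩ := (HeightOneSpectrum.denseRange_algebraMap F v).exists_mem_open hO hne
  refine ⟨z, ?_⟩
  rw [hS] at hz
  have h3 : vv v ((x - algebraMap F (v.adicCompletion F) z) / d) ≤ 1 := hz
  rw [map_div₀] at h3
  exact (div_le_one₀ (zero_lt_iff.2 ((Valuation.ne_zero_iff _).2 hd))).1 h3

theorem dense (v : HeightOneSpectrum (𝓞 F)) (x : v.adicCompletion F) (k : ℕ) (hx : vv v x ≤ 1) :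
    ∃ y : 𝓞 F, vv v (x - algebraMap F (v.adicCompletion F) (y : F)) ≤ WithZero.exp (-(k : ℤ)) := by
  obtain ⟨d, hd⟩ := HeightOneSpectrum.valuedAdicCompletion_surjective F v (WithZero.exp (-(k : ℤ)))
  have hd0 : d ≠ 0 := by
    rintro rfl
    rw [map_zero] at hd
    exact WithZero.exp_ne_zero hd.symm
  obtain ⟨z, hz⟩ := near_F v x d hd0
  have hd' : vv v d = WithZero.exp (-(k : ℤ)) := hd
  rw [hd'] at hz
  have hk : WithZero.exp (-(k : ℤ)) ≤ (1 : ℤᵐ⁰) := by
    rw [← WithZero.exp_zero, WithZero.exp_le_exp]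
    omega
  have hz1 : v.valuation F z ≤ 1 := by
    rw [← vv_alg]
    have h1 : algebraMap F (v.adicCompletion F) z =
        x - (x - algebraMap F (v.adicCompletion F) z) := by ring
    rw [h1]
    exact (Valuation.map_sub _ _ _).trans (max_le hx (hz.trans hk))
  obtain ⟨y, hy⟩ := v.exists_valuation_sub_lt_of_integer hz1
    (Units.mk0 (WithZero.exp (-(k : ℤ))) WithZero.exp_ne_zero)
  refine ⟨y, ?_⟩
  have h2 : x - algebraMap F (v.adicCompletion F) (y : F) =
      (x - algebraMap F (v.adicCompletion F) z) -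
        algebraMap F (v.adicCompletion F) ((y : F) - z) := by
    rw [map_sub]
    ring
  rw [h2]
  refine (Valuation.map_sub _ _ _).trans (max_le hz ?_)
  rw [vv_alg]
  exact hy.le

/-- elements congruent to a unit -/
theorem one_of_near {K : Type} [Field K] (w : Valuation K ℤᵐ⁰) {x y : K} (h : w (x - y) < 1)
    (hy : w y = 1) : w x = 1 := by
  have h1 : x = (x - y) + y := by ring
  rw [h1, Valuation.map_add_eq_of_lt_right _ (by rw [hy]; exact h), hy]

theorem exp_one_lt : WithZero.exp (-(1 : ℤ)) < (1 : ℤᵐ⁰) := by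
  rw [← WithZero.exp_zero, WithZero.exp_lt_exp]
  omega

end Pool.Agent.Lib.MP_8cb858_nt.PF.NFBM

namespace Pool.Agent.Lib.MP_8cb858_nt.PF

open NumberField IsDedekindDomain Pool.Agent.Lib.MP_8cb858_nt.SEL NFBM
open scoped Classical WithZero

theorem specNFB : SpecNFB where
  int := by
    intro F _ _ v x k
    refine ⟨vv_int_le v x, ?_⟩
    rw [vv_int, v.intValuation_le_pow_iff_mem]
  dense := fun F _ _ v x k hx => NFBM.dense v x k hx
  t3 := by
    intro F _ _ v a b
    have key : ∀ x : 𝓞 F, algebraMap F (v.adicCompletion F) ((x ^ 3 + a * x + b : 𝓞 F) : F) =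
        algebraMap F (v.adicCompletion F) (x : F) ^ 3 +
          algebraMap F (v.adicCompletion F) (a : F) * algebraMap F (v.adicCompletion F) (x : F) +
          algebraMap F (v.adicCompletion F) (b : F) := by
      intro x
      simp only [map_add, map_mul, map_pow]
    constructor
    · intro h x
      rw [← vv_int_one, key]
      exact h _ (vv_int_le v x)
    · intro h x hx
      obtain ⟨y, hy⟩ := NFBM.dense v x 1 hx
      have h1 := (vv_int_one v _).2 (h y)
      rw [key] at h1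
      have hy1 := vv_int_le v y
      have ha1 := vv_int_le v a
      generalize algebraMap F (v.adicCompletion F) (y : F) = Y at hy h1 hy1
      generalize algebraMap F (v.adicCompletion F) (a : F) = A at h1 ha1 ⊢
      generalize algebraMap F (v.adicCompletion F) (b : F) = B at h1 ⊢
      refine one_of_near (vv v) ?_ h1
      have h2 : x ^ 3 + A * x + B - (Y ^ 3 + A * Y + B) =
          (x - Y) * (x ^ 2 + x * Y + Y ^ 2 + A) := by ring
      rw [h2, map_mul]
      have h3 : vv v (x ^ 2 + x * Y + Y ^ 2 + A) ≤ 1 := by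
        refine Valuation.map_add_le _ (Valuation.map_add_le _ (Valuation.map_add_le _ ?_ ?_) ?_) ha1
        · rw [map_pow]
          exact pow_le_one' hx 2
        · rw [map_mul]
          exact mul_le_one' hx hy1
        · rw [map_pow]
          exact pow_le_one' hy1 2
      refine lt_of_le_of_lt (mul_le_mul' hy h3) ?_
      rw [mul_one]
      exact exp_one_lt
  t12 := by
    intro F _ _ v a b
    have key : ∀ x : 𝓞 F, algebraMap F (v.adicCompletion F) ((x ^ 2 + dsc a b : 𝓞 F) : F) =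
        algebraMap F (v.adicCompletion F) (x : F) ^ 2 +
          dsc (algebraMap F (v.adicCompletion F) (a : F)) (algebraMap F (v.adicCompletion F) (b : F)) := by
      intro x
      simp only [dsc, map_add, map_mul, map_pow, map_ofNat]
    constructor
    · intro h x
      rw [← vv_int_one, key]
      exact h _ (vv_int_le v x)
    · intro h x hx
      obtain ⟨y, hy⟩ := NFBM.dense v x 1 hx
      have h1 := (vv_int_one v _).2 (h y)
      rw [key] at h1
      have hy1 := vv_int_le v y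
      generalize algebraMap F (v.adicCompletion F) (y : F) = Y at hy h1 hy1
      generalize dsc (algebraMap F (v.adicCompletion F) (a : F))
        (algebraMap F (v.adicCompletion F) (b : F)) = B at h1 ⊢
      refine one_of_near (vv v) ?_ h1
      have h2 : x ^ 2 + B - (Y ^ 2 + B) = (x - Y) * (x + Y) := by ring
      rw [h2, map_mul]
      have h3 : vv v (x + Y) ≤ 1 := Valuation.map_add_le _ hx hy1
      refine lt_of_le_of_lt (mul_le_mul' hy h3) ?_
      rw [mul_one]
      exact exp_one_lt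

end Pool.Agent.Lib.MP_8cb858_nt.PF
end

section
/-!
# RTA: the unramified case
-/
set_option autoImplicit false

namespace Pool.Agent.Lib.MP_8cb858_nt.PF

open Polynomial NumberField IsDedekindDomain Pool.Agent.Lib.MP_8cb858_nt.SEL
open scoped Classical WithZero

namespace RTAM

variable {K : Type} [Field K] {w : Valuation K ℤᵐ⁰}

theorem add_le {x y : K} (hx : w x ≤ 1) (hy : w y ≤ 1) : w (x + y) ≤ 1 :=
  Valuation.map_add_le w hx hy

theorem sub_le {x y : K} (hx : w x ≤ 1) (hy : w y ≤ 1) : w (x - y) ≤ 1 :=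
  Valuation.map_sub_le w hx hy

theorem mul_le {x y : K} (hx : w x ≤ 1) (hy : w y ≤ 1) : w (x * y) ≤ 1 := by
  rw [map_mul]
  exact mul_le_one' hx hy

theorem pow_le {x : K} (hx : w x ≤ 1) (n : ℕ) : w (x ^ n) ≤ 1 := by
  rw [map_pow]
  exact pow_le_one' hx n

theorem nat_le (n : ℕ) : w (n : K) ≤ 1 := by
  induction n with
  | zero => rw [Nat.cast_zero, map_zero]; exact zero_le
  | succ n ih => rw [Nat.cast_succ]; exact add_le ih (map_one w).le

theorem mul_lt {x y : K} (hx : w x ≤ 1) (hy : w y < 1) : w (x * y) < 1 := by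
  rw [map_mul]
  exact (mul_le_of_le_one_left' hx).trans_lt hy

/-- a unit plus something small is a unit -/
theorem unit_add {x y : K} (hx : w x = 1) (hy : w y < 1) : w (x + y) = 1 := by
  rw [Valuation.map_add_eq_of_lt_left w (by rw [hx]; exact hy), hx]

/-- The discriminant in terms of a root. -/
theorem disc (a b t : K) (ht : t ^ 3 + a * t + b = 0) :
    -dsc a b = dq a t * (3 * t ^ 2 + a) ^ 2 := by
  have hb : b = -t ^ 3 - a * t := by linear_combination ht
  unfold dsc dq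
  rw [hb]
  ring

/-- a root is integral -/
theorem root_int {a b t : K} (ha : w a ≤ 1) (hb : w b ≤ 1) (ht : t ^ 3 + a * t + b = 0) :
    w t ≤ 1 := by
  by_contra h
  rw [not_le] at h
  have h0 : t ^ 3 = -(a * t + b) := by linear_combination ht
  have h1 : w (a * t + b) ≤ w t := by
    refine Valuation.map_add_le w ?_ (hb.trans h.le)
    rw [map_mul]
    calc w a * w t ≤ 1 * w t := mul_le_mul_left ha _
      _ = w t := one_mul _
  have h2 : w t ^ 3 ≤ w t := by
    rw [← map_pow, h0, Valuation.map_neg]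
    exact h1
  have h3 : w t < w t ^ 3 := by
    calc w t = w t ^ 1 := (pow_one _).symm
      _ < w t ^ 3 := pow_lt_pow_right₀ h (by norm_num)
  exact absurd h2 (not_le.2 h3)

theorem fp_le {a t : K} (ha : w a ≤ 1) (ht : w t ≤ 1) : w (3 * t ^ 2 + a) ≤ 1 := by
  have h3 : w (3 : K) ≤ 1 := by exact_mod_cast nat_le (w := w) 3
  exact add_le (mul_le h3 (pow_le ht 2)) ha

theorem dq_le {a t : K} (ha : w a ≤ 1) (ht : w t ≤ 1) : w (dq a t) ≤ 1 := by
  have h3 : w (3 : K) ≤ 1 := by exact_mod_cast nat_le (w := w) 3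
  have h4 : w (4 : K) ≤ 1 := by exact_mod_cast nat_le (w := w) 4
  unfold dq
  refine sub_le (mul_le ?_ (pow_le ht 2)) (mul_le h4 ha)
  rw [Valuation.map_neg]
  exact h3

/-- if a product of two integral elements is a unit then both are units -/
theorem both {x y : K} (hx : w x ≤ 1) (hy : w y ≤ 1) (h : w (x * y) = 1) : w x = 1 ∧ w y = 1 := by
  constructor
  · refine le_antisymm hx (not_lt.1 fun h1 => ?_)
    have h2 := mul_lt (w := w) hy h1
    rw [mul_comm, h] at h2
    exact lt_irrefl _ h2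
  · refine le_antisymm hy (not_lt.1 fun h1 => ?_)
    have h2 := mul_lt (w := w) hx h1
    rw [h] at h2
    exact lt_irrefl _ h2

end RTAM

open RTAM in
/-- **RTA.** -/
theorem specRTA (hRES : SpecRES) (hHNS : SpecHNS) : SpecRTA := by
  intro K _ _ w a b hw h2 ha hb hT
  have hD : w (dsc a b) = 1 := by
    have h := hT 0 (by rw [map_zero]; exact zero_le)
    rwa [zero_pow two_ne_zero, zero_add] at h
  constructor
  · intro t ht
    have hti := root_int ha hb ht
    have h3 := disc a b t ht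
    have h4 : w (dq a t * (3 * t ^ 2 + a) ^ 2) = 1 := by
      rw [← h3, Valuation.map_neg, hD]
    obtain ⟨h5, h6⟩ := both (dq_le ha hti) (pow_le (fp_le ha hti) 2) h4
    have h7 : w (3 * t ^ 2 + a) = 1 := by
      rw [map_pow] at h6
      exact (pow_eq_one_iff.1 h6).resolve_right two_ne_zero
    refine ⟨hti, ht, h7, fun x hx => ?_⟩
    have h8 := hT (x * (3 * t ^ 2 + a)) (mul_le hx h7.le)
    have h9 : (x * (3 * t ^ 2 + a)) ^ 2 + dsc a b = (x ^ 2 - dq a t) * (3 * t ^ 2 + a) ^ 2 := by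
      linear_combination (-1 : K) * h3
    rw [h9, map_mul, map_pow, h7, one_pow, mul_one] at h8
    exact h8
  · obtain ⟨x, hx, hfx⟩ := hRES.cub a b hw ha hb hT
    have h3 : w (3 * x ^ 2 + a) = 1 := by
      refine le_antisymm (fp_le ha hx) (not_lt.1 fun h1 => ?_)
      have e : dsc a b = (27 * (x ^ 3 + a * x + b) - 54 * (3 * x ^ 2 + a) * x + 108 * x ^ 3) *
          (x ^ 3 + a * x + b) +
          ((3 * x ^ 2 + a) * (4 * (3 * x ^ 2 + a) - 9 * x ^ 2)) * (3 * x ^ 2 + a) := by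
        unfold dsc
        ring
      have h27 : w (27 : K) ≤ 1 := by exact_mod_cast nat_le (w := w) 27
      have h54 : w (54 : K) ≤ 1 := by exact_mod_cast nat_le (w := w) 54
      have h108 : w (108 : K) ≤ 1 := by exact_mod_cast nat_le (w := w) 108
      have h4 : w (4 : K) ≤ 1 := by exact_mod_cast nat_le (w := w) 4
      have h9 : w (9 : K) ≤ 1 := by exact_mod_cast nat_le (w := w) 9
      have hf := fp_le ha hx
      have h5 : w (dsc a b) < 1 := by
        rw [e]
        refine Valuation.map_add_lt w (mul_lt ?_ hfx) (mul_lt ?_ h1)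
        · exact add_le (sub_le (mul_le h27 hfx.le) (mul_le (mul_le h54 hf) hx))
            (mul_le h108 (pow_le hx 3))
        · exact mul_le hf (sub_le (mul_le h4 hf) (mul_le h9 (pow_le hx 2)))
      rw [hD] at h5
      exact lt_irrefl _ h5
    obtain ⟨t, -, ht, -⟩ := hHNS.cub a b x hw ha hb hx hfx h3
    exact ⟨t, ht⟩

end Pool.Agent.Lib.MP_8cb858_nt.PF
end

section
/-!
# RTC: the ramified case
-/
set_option autoImplicit false

namespace Pool.Agent.Lib.MP_8cb858_nt.PF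

open Polynomial NumberField IsDedekindDomain Pool.Agent.Lib.MP_8cb858_nt.SEL
open scoped Classical WithZero

namespace RTCM

variable {K : Type} [Field K] {w : Valuation K ℤᵐ⁰}

theorem lt_exp {x : K} (h : w x < 1) : w x ≤ WithZero.exp (-1 : ℤ) := by
  by_cases h0 : w x = 0
  · rw [h0]
    exact zero_le
  · rw [← WithZero.exp_log h0, ← WithZero.exp_zero, WithZero.exp_lt_exp] at h
    rw [← WithZero.exp_log h0, WithZero.exp_le_exp]
    omega

theorem sq_ne {x : K} (h : w x ^ 2 = WithZero.exp (-1 : ℤ)) : False := by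
  have h0 : w x ≠ 0 := by
    intro h0
    rw [h0, zero_pow two_ne_zero] at h
    exact WithZero.exp_ne_zero h.symm
  rw [← WithZero.exp_log h0, pow_two, ← WithZero.exp_add, WithZero.exp_inj] at h
  omega

theorem exp_neg_lt : (WithZero.exp (-1 : ℤ) : ℤᵐ⁰) < 1 := by
  rw [← WithZero.exp_zero, WithZero.exp_lt_exp]
  norm_num

end RTCM

open RTAM RTCM in
/-- **RTC.** -/
theorem specRTC (hHNS : SpecHNS) : SpecRTC := by
  intro K _ _ w a b hw h2 h3 ha hb hD
  have hD1 : w (dsc a b) < 1 := by rw [hD]; exact exp_neg_lt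
  have h4 : w (4 : K) = 1 := by
    have : (4 : K) = 2 * 2 := by norm_num
    rw [this, map_mul, h2, one_mul]
  have h27 : w (27 : K) = 1 := by
    have : (27 : K) = 3 ^ 3 := by norm_num
    rw [this, map_pow, h3, one_pow]
  -- `a` is a unit
  have hau : w a = 1 := by
    refine le_antisymm ha (not_lt.1 fun hlt => ?_)
    have h5 : w (4 * a ^ 3) < WithZero.exp (-1 : ℤ) := by
      rw [map_mul, h4, one_mul, map_pow]
      calc w a ^ 3 ≤ (WithZero.exp (-1 : ℤ)) ^ 3 := pow_le_pow_left' (lt_exp hlt) 3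
        _ = WithZero.exp (-3 : ℤ) := by rw [← WithZero.exp_nsmul]; rfl
        _ < WithZero.exp (-1 : ℤ) := by rw [WithZero.exp_lt_exp]; norm_num
    have h6 : w (27 * b ^ 2) = WithZero.exp (-1 : ℤ) := by
      have e : 27 * b ^ 2 = dsc a b - 4 * a ^ 3 := by unfold dsc; ring
      rw [e, sub_eq_add_neg, Valuation.map_add_eq_of_lt_left w (by
        rw [Valuation.map_neg, hD]; exact h5), hD]
    rw [map_mul, h27, one_mul, map_pow] at h6
    exact sq_ne h6
  have ha0 : a ≠ 0 := by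
    rintro rfl
    rw [map_zero] at hau
    exact zero_ne_one hau
  set x : K := 3 * b / a with hx
  have hAx : a * x = 3 * b := by rw [hx]; field_simp
  have hxi : w x ≤ 1 := by
    rw [hx, map_div₀, hau, div_one]
    exact mul_le h3.le hb
  have hfx : w (x ^ 3 + a * x + b) < 1 := by
    have e : a ^ 3 * (x ^ 3 + a * x + b) = b * dsc a b := by
      unfold dsc
      linear_combination (a ^ 2 * x ^ 2 + a * x * (3 * b) + (3 * b) ^ 2 + a ^ 3) * hAx
    have h5 : w (a ^ 3 * (x ^ 3 + a * x + b)) < 1 := by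
      rw [e]
      exact mul_lt hb hD1
    rw [map_mul, map_pow, hau, one_pow, one_mul] at h5
    exact h5
  have hfx' : w (3 * x ^ 2 + a) = 1 := by
    have e : a ^ 2 * (3 * x ^ 2 + a) = -(3 * a ^ 3) + dsc a b := by
      unfold dsc
      linear_combination (3 * (a * x + 3 * b)) * hAx
    have h5 : w (a ^ 2 * (3 * x ^ 2 + a)) = 1 := by
      rw [e]
      refine unit_add ?_ hD1
      rw [Valuation.map_neg, map_mul, map_pow, h3, hau, one_pow, one_mul]
    rw [map_mul, map_pow, hau, one_pow, one_mul] at h5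
    exact h5
  obtain ⟨t, hti, ht, htx⟩ := hHNS.cub a b x hw ha hb hxi hfx hfx'
  have hft : w (3 * t ^ 2 + a) = 1 := by
    have e : 3 * t ^ 2 + a = (3 * x ^ 2 + a) + (3 * (t + x)) * (t - x) := by ring
    rw [e]
    exact unit_add hfx' (mul_lt (mul_le h3.le (add_le hti hxi)) htx)
  have hd : w (dq a t) = WithZero.exp (-1 : ℤ) := by
    have h5 := congrArg w (disc a b t ht)
    rw [Valuation.map_neg, map_mul, map_pow, hft, one_pow, mul_one, hD] at h5
    exact h5.symm
  refine ⟨t, ?_, ht, hft, hd⟩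
  refine le_antisymm hti (not_lt.1 fun hlt => ?_)
  have h5 : w (4 * a) < 1 := by
    have e : 4 * a = (-3 * t) * t + (-1) * dq a t := by unfold dq; ring
    rw [e]
    refine Valuation.map_add_lt w (mul_lt (mul_le ?_ hti) hlt) (mul_lt ?_ ?_)
    · rw [Valuation.map_neg]; exact h3.le
    · rw [Valuation.map_neg, map_one]
    · rw [hd]; exact exp_neg_lt
  rw [map_mul, h4, hau, one_mul] at h5
  exact lt_irrefl _ h5

end Pool.Agent.Lib.MP_8cb858_nt.PF
end

section
/-!
# STF: a cubic of nonsquare discriminant over a finite field has a root (helper73)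
-/
set_option autoImplicit false

namespace Pool.Agent.Lib.MP_8cb858_nt.PF

open Polynomial NumberField IsDedekindDomain Pool.Agent.Lib.MP_8cb858_nt.SEL
open scoped Classical WithZero

namespace STFM

/-- the discriminant identity -/
theorem disc_id {k : Type} [Field k] {a b x y z : k} (hx : x ^ 3 + a * x + b = 0)
    (hy : y ^ 3 + a * y + b = 0) (hz : z ^ 3 + a * z + b = 0) (hxy : x ≠ y) (hyz : y ≠ z)
    (hxz : x ≠ z) : ((x - y) * (y - z) * (z - x)) ^ 2 = -(4 * a ^ 3 + 27 * b ^ 2) := by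
  have h1 : x ^ 2 + x * y + y ^ 2 + a = 0 := by
    have : (x - y) * (x ^ 2 + x * y + y ^ 2 + a) = 0 := by linear_combination hx - hy
    exact (mul_eq_zero.1 this).resolve_left (sub_ne_zero.2 hxy)
  have h2 : x ^ 2 + x * z + z ^ 2 + a = 0 := by
    have : (x - z) * (x ^ 2 + x * z + z ^ 2 + a) = 0 := by linear_combination hx - hz
    exact (mul_eq_zero.1 this).resolve_left (sub_ne_zero.2 hxz)
  have h3 : x + y + z = 0 := by
    have : (y - z) * (x + y + z) = 0 := by linear_combination h1 - h2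
    exact (mul_eq_zero.1 this).resolve_left (sub_ne_zero.2 hyz)
  have hz' : z = -x - y := by linear_combination h3
  have ha : a = -(x ^ 2 + x * y + y ^ 2) := by linear_combination h1
  have hb : b = x * y * (x + y) := by
    rw [ha] at hx
    linear_combination hx
  rw [hz', ha, hb]
  ring

/-- the elements fixed by the Frobenius -/
theorem fixed {k M : Type} [Field k] [Fintype k] [Field M] (φ : k →+* M) (x : M)
    (hx : x ^ Fintype.card k = x) : ∃ c : k, φ c = x := by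
  have h1 : (X ^ Fintype.card k - X : k[X]).Monic := by
    apply monic_X_pow_sub
    rw [degree_X]
    exact_mod_cast Fintype.one_lt_card
  have h2 := FiniteField.roots_X_pow_card_sub_X k
  have h3 : Multiset.card (X ^ Fintype.card k - X : k[X]).roots =
      (X ^ Fintype.card k - X : k[X]).natDegree := by
    rw [h2, FiniteField.X_pow_card_sub_X_natDegree_eq k Fintype.one_lt_card]
    rfl
  have h4 := prod_multiset_X_sub_C_of_monic_of_roots_card_eq h1 h3
  rw [h2] at h4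
  have h5 : ∏ c : k, (X - C c : k[X]) = X ^ Fintype.card k - X := h4
  have h6 : ∏ c : k, (x - φ c) = 0 := by
    have h7 := congrArg (eval₂ φ x) h5
    rw [eval₂_finset_prod] at h7
    simpa [hx] using h7
  obtain ⟨c, -, hc⟩ := Finset.prod_eq_zero_iff.1 h6
  exact ⟨c, (sub_eq_zero.1 hc).symm⟩

end STFM

open STFM in
/-- **STF** -/
theorem specSTF : SpecSTF := by
  intro k _ _ a b hns
  by_contra hcon
  have h : ∀ x : k, x ^ 3 + a * x + b ≠ 0 := fun x hx => hcon ⟨x, hx⟩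
  apply hns
  have : Fintype k := Fintype.ofFinite k
  set f := fpol a b with hf
  have hev : ∀ x : k, f.eval x = x ^ 3 + a * x + b := fun x => by
    have := eval₂_fpol a b (RingHom.id k) x
    rwa [eval₂_id] at this
  have hmon : f.Monic := fpol_monic a b
  have hnd : f.natDegree = 3 := by
    rw [hf, fpol]
    compute_degree!
  have hirr : Irreducible f := by
    refine irreducible_of_degree_le_three_of_not_isRoot ?_ fun x hx => h x ?_
    · rw [hnd]; simp
    · rw [← hev]; exact hx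
  have : Fact (Irreducible f) := ⟨hirr⟩
  let M := AdjoinRoot f
  let φ : k →+* M := AdjoinRoot.of f
  have : Module.Finite k M := hmon.finite_adjoinRoot
  have : Finite M := Module.finite_of_finite k
  have : Fintype M := Fintype.ofFinite M
  have hcard : Fintype.card M = Fintype.card k ^ 3 := by
    have h1 : Module.finrank k M = 3 := by
      have := (AdjoinRoot.powerBasis hmon.ne_zero).finrank
      rw [AdjoinRoot.powerBasis_dim, hnd] at this
      exact this
    have h2 := Module.card_eq_pow_finrank (K := k) (V := M)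
    rw [h1] at h2
    exact h2
  let r : M := AdjoinRoot.root f
  have hr : r ^ 3 + φ a * r + φ b = 0 := by
    have h1 := AdjoinRoot.eval₂_root f
    rw [hf, eval₂_fpol] at h1
    exact h1
  let F : M →ₐ[k] M := FiniteField.frobeniusAlgHom k M
  have hF : ∀ x : M, F x = x ^ Fintype.card k := fun x => rfl
  have hFφ : ∀ c : k, F (φ c) = φ c := fun c => F.commutes c
  have hFinj : Function.Injective F := F.toRingHom.injective
  have hF3 : F (F (F r)) = r := by
    rw [hF, hF, hF, ← pow_mul, ← pow_mul]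
    have h1 := FiniteField.pow_card r
    rw [hcard] at h1
    rw [show Fintype.card k * (Fintype.card k * Fintype.card k) = Fintype.card k ^ 3 by ring]
    exact h1
  have hfix : ∀ x : M, F x = x → ∃ c : k, φ c = x := fun x hx => fixed φ x hx
  have hr1 : F r ^ 3 + φ a * F r + φ b = 0 := by
    have := congrArg F hr
    rw [map_add, map_add, map_mul, map_pow, hFφ, hFφ, map_zero] at this
    exact this
  have hr2 : F (F r) ^ 3 + φ a * F (F r) + φ b = 0 := by
    have := congrArg F hr1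
    rw [map_add, map_add, map_mul, map_pow, hFφ, hFφ, map_zero] at this
    exact this
  have hne : F r ≠ r := by
    intro h1
    obtain ⟨c, hc⟩ := hfix r h1
    refine h c (φ.injective ?_)
    rw [map_zero, ← hr, ← hc]
    simp
  have hne2 : F (F r) ≠ F r := fun h1 => hne (hFinj h1)
  have hne3 : r ≠ F (F r) := by
    intro h1
    have := congrArg F h1
    rw [hF3] at this
    exact hne this
  have hd := disc_id hr hr1 hr2 hne.symm hne2.symm hne3
  obtain ⟨c, hc⟩ := hfix ((r - F r) * (F r - F (F r)) * (F (F r) - r)) (by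
    rw [map_mul, map_mul, map_sub, map_sub, map_sub, hF3]
    ring)
  refine ⟨c, φ.injective ?_⟩
  rw [map_mul, hc, ← pow_two, hd]
  have h4 : φ 4 = 4 := map_ofNat φ 4
  have h27 : φ 27 = 27 := map_ofNat φ 27
  simp only [map_neg, map_add, map_mul, map_pow, h4, h27]

end Pool.Agent.Lib.MP_8cb858_nt.PF
end

section
/-!
# TOI: squares and isotropy in coordinates
-/
set_option autoImplicit false

namespace Pool.Agent.Lib.MP_8cb858_nt.PF

/-- **TOI.** -/
theorem specTOI (hTOC : SpecTOC) : SpecTOI := by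
  intro K _ a b t α r z s h2 ht hf hα
  constructor
  · constructor
    · rintro ⟨ξ, hξ⟩
      obtain ⟨ρ, x, y, hc⟩ := hTOC.all t ξ h2
      have h3 := hTOC.mul h2 ht hc hc
      rw [← hξ] at h3
      obtain ⟨e1, e2, e3⟩ := hTOC.uni h2 hα h3
      refine ⟨⟨ρ, e1⟩, x, y, ?_, ?_⟩
      · rw [e2]; ring
      · rw [e3]; ring
    · rintro ⟨⟨ρ, hr⟩, x, y, e2, e3⟩
      obtain ⟨ξ, hc⟩ := hTOC.ex (b := b) ρ x y hf
      have h3 := hTOC.mul h2 ht hc hc
      refine ⟨ξ, hTOC.inj h2 hf hα ?_⟩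
      have e1 : ρ * ρ = r := hr.symm
      have e2' : x * x + dq a t * (y * y) = z := by rw [e2]; ring
      have e3' : x * y + y * x = s := by rw [e3]; ring
      rw [e1, e2', e3'] at h3
      exact h3
  · have key : ∀ (ξ : Lk a b) (ρ x y : K), Co t ξ ρ x y →
        (3 * t ^ 2 + a) * cf 2 (α * ξ ^ 2) =
          r * ρ ^ 2 - ((z + 3 * t * s) * (x ^ 2 + dq a t * y ^ 2) +
            2 * (dq a t * s + 3 * t * z) * (x * y)) := by
      intro ξ ρ x y hc
      have h3 := hTOC.mul h2 ht hα (hTOC.mul h2 ht hc hc)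
      rw [← pow_two ξ] at h3
      rw [hTOC.lam h2 h3]
      ring
    have hzero : ∀ (ξ : Lk a b) (ρ x y : K), Co t ξ ρ x y →
        (ξ = 0 ↔ ρ = 0 ∧ x = 0 ∧ y = 0) := by
      intro ξ ρ x y hc
      have h0 : Co t (0 : Lk a b) 0 0 0 := by
        unfold Co
        simp [cf]
      constructor
      · rintro rfl
        exact hTOC.uni h2 hc h0
      · rintro ⟨rfl, rfl, rfl⟩
        exact hTOC.inj h2 hf hc h0
    constructor
    · rintro ⟨ξ, hξ, h0⟩
      obtain ⟨ρ, x, y, hc⟩ := hTOC.all t ξ h2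
      refine ⟨ρ, x, y, fun h => hξ ((hzero ξ ρ x y hc).2 h), ?_⟩
      have h3 := key ξ ρ x y hc
      rw [h0, mul_zero] at h3
      exact (sub_eq_zero.1 h3.symm)
    · rintro ⟨ρ, x, y, hne, he⟩
      obtain ⟨ξ, hc⟩ := hTOC.ex (b := b) ρ x y hf
      refine ⟨ξ, fun h => hne ((hzero ξ ρ x y hc).1 h), ?_⟩
      have h3 := key ξ ρ x y hc
      rw [he, sub_self] at h3
      exact (mul_eq_zero.1 h3).resolve_left hf

end Pool.Agent.Lib.MP_8cb858_nt.PF
end

section
/-!
# JNH: the junk lemma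
-/
set_option autoImplicit false

namespace Pool.Agent.Lib.MP_8cb858_nt.PT

open Polynomial NumberField IsDedekindDomain Pool.Agent.Lib.MP_8cb858_nt.SEL
open Pool.Agent.Lib.MP_8cb858_nt.PF
open scoped Classical WithZero

namespace JNHM

variable {F : Type} [Field F] [NumberField F]

lemma two_one (v : HeightOneSpectrum (𝓞 F)) (h : (6 : 𝓞 F) ∉ v.asIdeal) :
    vv v (2 : v.adicCompletion F) = 1 := by
  have h2 : (2 : 𝓞 F) ∉ v.asIdeal := by
    intro h2
    apply h
    rw [show (6 : 𝓞 F) = 2 * 3 by norm_num]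
    exact Ideal.mul_mem_right _ _ h2
  rw [← NFBM.vv_int_one] at h2
  rw [← h2]
  congr 1
  have e : (((2 : 𝓞 F)) : F) = 2 := by
    exact map_ofNat (algebraMap (𝓞 F) F) 2
  rw [e, map_ofNat]

lemma dsc_map (v : HeightOneSpectrum (𝓞 F)) (a b : 𝓞 F) :
    algebraMap F (v.adicCompletion F) ((dsc a b : 𝓞 F) : F) = dsc (lc v a) (lc v b) := by
  simp only [dsc, map_add, map_mul, map_pow, map_ofNat]

lemma dsc_ne (v : HeightOneSpectrum (𝓞 F)) {a b : 𝓞 F} (h : dsc a b ≠ 0) :
    dsc (lc v a) (lc v b) ≠ 0 := by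
  rw [← dsc_map]
  intro h0
  apply h
  have h1 := (map_eq_zero _).1 h0
  exact RingOfIntegers.coe_injective (h1.trans (map_zero _).symm)

lemma sf (v : HeightOneSpectrum (𝓞 F)) {a b : 𝓞 F} (h : dsc a b ∉ v.asIdeal ^ 2) :
    WithZero.exp (-1 : ℤ) ≤ vv v (dsc (lc v a) (lc v b)) := by
  rw [(specNFB.int F v (dsc a b) 2).2, dsc_map] at h
  generalize vv v (dsc (lc v a) (lc v b)) = k at h ⊢
  rcases eq_or_ne k 0 with rfl | hk
  · exact absurd zero_le h
  · obtain ⟨m, rfl⟩ : ∃ m : ℤ, k = WithZero.exp m := ⟨WithZero.log k, (WithZero.exp_log hk).symm⟩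
    rw [WithZero.exp_le_exp] at h ⊢
    push_cast at h
    omega

end JNHM

open JNHM in
theorem specJNH (hLJR : SpecLJR) (hNR3 : SpecNR3) (hINV : SpecINV) (hKMD : SpecKMD)
    (hFAH : SpecFAH) (hLIT : SpecLIT) (hLZ : SpecLZ) (hLV : SpecLV) (hLG : SpecLG)
    (hEVF : SpecEVF) (hBR : SpecBR) (hSFN : SpecSFN) (hNF : SpecNF) : SpecJNH := by
  intro F _ _ M P J a b D1 D2 hd0 h6 hsf hP hJ hD1 hD2 hM hot
  have hd : dsc (a : F) (b : F) ≠ 0 := by
    intro h0
    apply hd0
    apply RingOfIntegers.coe_injective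
    rw [map_zero, ← h0]
    simp only [dsc, map_add, map_mul, map_pow, map_ofNat]
  have hD1F : ((D1 : ℕ) : F) ≠ 0 := Nat.cast_ne_zero.2 hD1.ne'
  have hD2F : ((D2 : ℕ) : F) ≠ 0 := Nat.cast_ne_zero.2 hD2.ne'
  have hm : ∀ (v : HeightOneSpectrum (𝓞 F)) (α β : Lk (a : F) (b : F)),
      ul v (α * β) = ul v α * ul v β := fun v α β => by
    unfold ul up
    rw [map_mul]
  -- the colours
  have hcol : ∀ v : {v // v ∈ J}, ∃ c : Lk (lc v.1 a) (lc v.1 b) → Fin 4,
      ∀ α β : Lk (lc v.1 a) (lc v.1 b), InV α → InV β →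
        Aff (D1 : v.1.adicCompletion F) α → Aff (D1 : v.1.adicCompletion F) β → c α = c β →
        IsSquare (α * β) := by
    rintro ⟨v, hv⟩
    obtain ⟨hvM, hvd, hvD⟩ := hJ v hv
    have h1 : vv v (dsc (lc v a) (lc v b)) = 1 := by
      rw [← dsc_map, NFBM.vv_int_one]
      exact hvd
    obtain ⟨c, hc⟩ := hLJR (v.adicCompletion F) (vv v) (lc v a) (lc v b)
      (D1 : v.adicCompletion F) (hNF.lf F v) (two_one v fun h => hvM (h6 v h)) (hFAH.int v a)
      (hFAH.int v b) h1 hvD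
    have h4 : 1 + Nat.card {t : v.adicCompletion F // t ^ 3 + lc v a * t + lc v b = 0} ≤ 4 := by
      have := (hNR3 (v.adicCompletion F) (lc v a) (lc v b)).1
      omega
    refine ⟨fun α => Fin.castLE h4 (c α), fun α β hα hβ h1 h2 h3 => hc α β hα hβ h1 h2 ?_⟩
    exact Fin.castLE_injective h4 h3
  choose c hc using hcol
  -- representatives
  choose r hr using fun z : Sel 2 (cN a b D1) => hBR.surj hd hD1F z
  obtain ⟨χ, hχ⟩ : ∃ χ : Sel 2 (cN a b D1) → ({v // v ∈ J} → Fin 4),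
      χ = fun z v => c v (ul v.1 (r z)) := ⟨_, rfl⟩
  have key : ∀ z z' : Sel 2 (cN a b D1), χ z = χ z' →
      ∃ y : Sel 2 (cN a b D2), Rep (D2 : F) (r z * r z') y := by
    intro z z' hzz
    apply hBR.ex hd hD2F
    have s1 := hBR.sel hd hD1F _ z (hr z)
    have s2 := hBR.sel hd hD1F _ z' (hr z')
    have i1 : ∀ v : HeightOneSpectrum (𝓞 F), InV (ul v (r z)) := fun v => hINV.upv _ _ s1.1
    have i2 : ∀ v : HeightOneSpectrum (𝓞 F), InV (ul v (r z')) := fun v => hINV.upv _ _ s2.1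
    refine ⟨hINV.mul _ _ s1.1 s2.1, fun v => ?_, fun v => ?_⟩
    · have a1 : Aff (D1 : v.adicCompletion F) (ul v (r z)) := by
        have := s1.2.1 v
        rwa [map_natCast] at this
      have a2 : Aff (D1 : v.adicCompletion F) (ul v (r z')) := by
        have := s2.2.1 v
        rwa [map_natCast] at this
      have hD2v : (D2 : v.adicCompletion F) ≠ 0 := Nat.cast_ne_zero.2 hD2.ne'
      have hD1v : (D1 : v.adicCompletion F) ≠ 0 := Nat.cast_ne_zero.2 hD1.ne'
      rw [map_natCast]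
      change Aff (D2 : v.adicCompletion F) (ul v (r z * r z'))
      rw [hm]
      by_cases hvM : v ∈ M
      · refine (hFAH.dA v D1 D2 _ hD1 hD2 (hM v hvM)).1 ?_
        exact hKMD.grp (v.adicCompletion F) (vv v) _ _ _ _ _ (hNF.lf F v) (hFAH.int v a)
          (hFAH.int v b) (dsc_ne v hd0) (hFAH.nat v D1) hD1v (i1 v) (i2 v) a1 a2
      by_cases hvJ : v ∈ J
      · apply hLZ (v.adicCompletion F) (vv v) _ _ _ _ (hNF.lf F v) hD2v
        refine hc ⟨v, hvJ⟩ _ _ (i1 v) (i2 v) a1 a2 ?_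
        have := congrFun hzz ⟨v, hvJ⟩
        rw [hχ] at this
        exact this
      by_cases hvP : v ∈ P
      · apply hLZ (v.adicCompletion F) (vv v) _ _ _ _ (hNF.lf F v) hD2v
        refine hLV (v.adicCompletion F) (vv v) _ _ _ (hNF.lf F v)
          (two_one v fun h => hvM (h6 v h)) (hFAH.int v a) (hFAH.int v b)
          ((hNF.t3 F v a b).2 (hP v hvP).2) (hINV.mul _ _ (i1 v) (i2 v))
      · have h2 := two_one v fun h => hvM (h6 v h)
        have hs := sf v (hsf v hvM)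
        have hw := hot v hvM hvJ hvP
        have lg := fun (D : v.adicCompletion F) (α : Lk (lc v a) (lc v b)) (hw : vv v D = 1)
          (hα : InV α) => hLG (v.adicCompletion F) (vv v) _ _ D α (hNF.lf F v) h2 (hFAH.int v a)
          (hFAH.int v b) hs hw hα
        refine (lg _ _ hw.2 (hINV.mul _ _ (i1 v) (i2 v))).1 ?_
        exact (hEVF (v.adicCompletion F) (vv v) _ _ _ _ (hFAH.int v a) (hFAH.int v b)).1
          ((lg _ _ hw.1 (i1 v)).2 a1) ((lg _ _ hw.1 (i2 v)).2 a2)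
    · have b1 := s1.2.2 v
      have b2 := s2.2.2 v
      rw [map_natCast] at b1 b2 ⊢
      rw [hLIT.nat F v _ _ _ _ hD1] at b1 b2
      rw [hLIT.nat F v _ _ _ _ hD2]
      have e : up v.Completion (r z * r z') = up v.Completion (r z) * up v.Completion (r z') := by
        unfold up
        rw [map_mul]
      rw [e]
      exact hLIT.grp F v _ _ _ _ hd (hINV.upv _ _ s1.1) (hINV.upv _ _ s2.1) b1 b2
  -- base points
  obtain ⟨z0, hz0⟩ : ∃ z0 : ({v // v ∈ J} → Fin 4) → Sel 2 (cN a b D1),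
      ∀ z, χ (z0 (χ z)) = χ z := by
    refine ⟨fun x => if h : ∃ z, χ z = x then Classical.choose h else 0, fun z => ?_⟩
    have h : ∃ z', χ z' = χ z := ⟨z, rfl⟩
    dsimp only
    rw [dif_pos h]
    exact Classical.choose_spec h
  choose y hy using fun z : Sel 2 (cN a b D1) => key z (z0 (χ z)) (hz0 z).symm
  have hfin1 := (hSFN F a b D1 hd0 hD1).1
  have hfin2 := (hSFN F a b D2 hd0 hD2).1
  have hinj : Function.Injective (fun z : Sel 2 (cN a b D1) => (χ z, y z)) := by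
    intro z z' h
    have h1 : χ z = χ z' := congrArg Prod.fst h
    have h2 : y z = y z' := congrArg Prod.snd h
    have hy1 := hy z
    have hy2 := hy z'
    rw [← h2, ← h1] at hy2
    have hs := hBR.inj hd hD2F _ _ _ hy1 hy2
    have u0 := (hBR.sel hd hD1F _ _ (hr (z0 (χ z)))).1.1
    have u1 := (hBR.sel hd hD1F _ _ (hr z)).1.1
    have u2 := (hBR.sel hd hD1F _ _ (hr z')).1.1
    have hs2 : IsSquare (r z * r z' * (r (z0 (χ z))) ^ 2) := by
      have e : r z * r z' * (r (z0 (χ z))) ^ 2 =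
          r z * r (z0 (χ z)) * (r z' * r (z0 (χ z))) := by ring
      rw [e]
      exact hs
    have hs3 := hINV.trs _ _ 1 (u0.pow 2) hs2 (by rw [mul_one]; exact ⟨_, by ring⟩)
    rw [mul_one] at hs3
    obtain ⟨γ, hγ, hg⟩ := (hINV.quo _ _ u1 u2).1 hs3
    have hrep := hBR.sqr hd hD1F _ γ _ hγ (hr z')
    rw [← hg] at hrep
    exact hBR.uni hd hD1F _ _ _ (hr z) hrep
  have hcard := Nat.card_le_card_of_injective _ hinj
  rw [Nat.card_prod] at hcard
  have e1 : Nat.card ({v // v ∈ J} → Fin 4) = 4 ^ J.card := by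
    rw [Nat.card_fun, Nat.card_eq_fintype_card, Nat.card_eq_fintype_card, Fintype.card_fin,
      Fintype.card_coe]
  rwa [e1] at hcard

end Pool.Agent.Lib.MP_8cb858_nt.PT
end

section
/-!
# PLQ: the places of the field of rational numbers
-/
set_option autoImplicit false

namespace Pool.Agent.Lib.MP_8cb858_nt.PT.PLQM

open NumberField IsDedekindDomain Pool.Agent.Lib.MP_8cb858_nt.SEL
open Pool.Agent.Lib.MP_8cb858_nt.PF
open scoped Classical WithZero

theorem phi_int (n : ℤ) : Rat.ringOfIntegersEquiv (n : 𝓞 ℚ) = n := by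
  rw [map_intCast, Int.cast_id]

theorem phi_nat (n : ℕ) : Rat.ringOfIntegersEquiv (n : 𝓞 ℚ) = n := by
  rw [map_natCast]

theorem surj (x : 𝓞 ℚ) : ∃ m : ℤ, x = (m : 𝓞 ℚ) := by
  refine ⟨Rat.ringOfIntegersEquiv x, ?_⟩
  apply Rat.ringOfIntegersEquiv.injective
  rw [phi_int]

theorem dvd_iff (m n : ℤ) : ((m : 𝓞 ℚ) ∣ (n : 𝓞 ℚ)) ↔ m ∣ n := by
  rw [← map_dvd_iff Rat.ringOfIntegersEquiv, phi_int, phi_int]

theorem prime_p {p : ℕ} (hp : p.Prime) : Prime (p : 𝓞 ℚ) := by
  rw [← MulEquiv.prime_iff (Rat.ringOfIntegersEquiv : 𝓞 ℚ ≃+* ℤ), phi_nat]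
  exact Nat.prime_iff_prime_int.1 hp

theorem span_eq {p : ℕ} (hp : p.Prime) (v : HeightOneSpectrum (𝓞 ℚ))
    (h : (p : 𝓞 ℚ) ∈ v.asIdeal) : v.asIdeal = Ideal.span {(p : 𝓞 ℚ)} := by
  have h1 : (Ideal.span {(p : 𝓞 ℚ)}).IsPrime :=
    (Ideal.span_singleton_prime (prime_p hp).ne_zero).2 (prime_p hp)
  have h2 : (Ideal.span {(p : 𝓞 ℚ)}) ≠ ⊥ := by
    rw [Ne, Ideal.span_singleton_eq_bot]
    exact (prime_p hp).ne_zero
  have h3 : (Ideal.span {(p : 𝓞 ℚ)}).IsMaximal := h1.isMaximal h2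
  exact (h3.eq_of_le v.isPrime.ne_top ((Ideal.span_singleton_le_iff_mem _).2 h)).symm

theorem mem_iff {p : ℕ} (hp : p.Prime) (v : HeightOneSpectrum (𝓞 ℚ))
    (h : (p : 𝓞 ℚ) ∈ v.asIdeal) (n : ℤ) (k : ℕ) :
    (n : 𝓞 ℚ) ∈ v.asIdeal ^ k ↔ (p : ℤ) ^ k ∣ n := by
  rw [span_eq hp v h, Ideal.span_singleton_pow, Ideal.mem_span_singleton, ← dvd_iff]
  push_cast
  rfl

theorem mem_iff1 {p : ℕ} (hp : p.Prime) (v : HeightOneSpectrum (𝓞 ℚ))
    (h : (p : 𝓞 ℚ) ∈ v.asIdeal) (n : ℤ) :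
    (n : 𝓞 ℚ) ∈ v.asIdeal ↔ (p : ℤ) ∣ n := by
  have := mem_iff hp v h n 1
  rwa [pow_one, pow_one] at this

theorem exists_prime (v : HeightOneSpectrum (𝓞 ℚ)) (n : ℕ) (hn : n ≠ 0)
    (h : (n : 𝓞 ℚ) ∈ v.asIdeal) : ∃ p : ℕ, p.Prime ∧ (p : 𝓞 ℚ) ∈ v.asIdeal := by
  induction n using Nat.strong_induction_on with
  | _ n ih =>
    by_cases h1 : n = 1
    · exfalso
      rw [h1, Nat.cast_one] at h
      exact v.isPrime.ne_top ((Ideal.eq_top_iff_one _).2 h)
    · have hp := Nat.minFac_prime h1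
      obtain ⟨m, hm⟩ := Nat.minFac_dvd n
      have hm0 : m ≠ 0 := by
        rintro rfl
        rw [mul_zero] at hm
        exact hn hm
      have h2 : ((n.minFac : ℕ) : 𝓞 ℚ) * (m : 𝓞 ℚ) ∈ v.asIdeal := by
        rw [← Nat.cast_mul, ← hm]
        exact h
      rcases v.isPrime.mem_or_mem h2 with h3 | h3
      · exact ⟨_, hp, h3⟩
      · refine ih m ?_ hm0 h3
        rw [hm]
        exact lt_mul_of_one_lt_left (Nat.pos_of_ne_zero hm0) hp.one_lt

theorem zmod_iff {p : ℕ} (n : ℤ) : ((n : ℤ) : ZMod p) = 0 ↔ (p : ℤ) ∣ n :=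
  ZMod.intCast_zmod_eq_zero_iff_dvd n p

theorem nat_coe {F : Type} [Field F] [NumberField F] (v : HeightOneSpectrum (𝓞 F)) (n : ℕ) :
    (n : v.adicCompletion F) =
      algebraMap F (v.adicCompletion F) (((n : ℤ) : 𝓞 F) : F) := by
  have h : (((n : ℤ) : 𝓞 F) : F) = (n : F) := by
    rw [Int.cast_natCast]
    exact map_natCast (algebraMap (𝓞 F) F) n
  rw [h, map_natCast]

theorem one_iff (x : ℤᵐ⁰) (h1 : x ≤ 1) : x = 1 ↔ ¬ x ≤ WithZero.exp (-1 : ℤ) := by
  constructor
  · rintro rfl h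
    exact absurd h (not_le.2 NFBM.exp_one_lt)
  · intro h
    rcases eq_or_ne x 0 with rfl | hx
    · exact absurd zero_le h
    · obtain ⟨k, rfl⟩ : ∃ k : ℤ, x = WithZero.exp k := ⟨WithZero.log x, (WithZero.exp_log hx).symm⟩
      rw [← WithZero.exp_zero, WithZero.exp_le_exp] at h1
      rw [WithZero.exp_le_exp] at h
      rw [show k = 0 by omega, WithZero.exp_zero]

theorem exp_iff (x : ℤᵐ⁰) : x = WithZero.exp (-1 : ℤ) ↔
    x ≤ WithZero.exp (-1 : ℤ) ∧ ¬ x ≤ WithZero.exp (-2 : ℤ) := by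
  constructor
  · rintro rfl
    refine ⟨le_rfl, ?_⟩
    rw [WithZero.exp_le_exp]
    omega
  · rintro ⟨h1, h2⟩
    rcases eq_or_ne x 0 with rfl | hx
    · exact absurd zero_le h2
    · obtain ⟨k, rfl⟩ : ∃ k : ℤ, x = WithZero.exp k := ⟨WithZero.log x, (WithZero.exp_log hx).symm⟩
      rw [WithZero.exp_le_exp] at h1 h2
      rw [show k = -1 by omega]

end Pool.Agent.Lib.MP_8cb858_nt.PT.PLQM

namespace Pool.Agent.Lib.MP_8cb858_nt.PT

open NumberField IsDedekindDomain Pool.Agent.Lib.MP_8cb858_nt.SEL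
open Pool.Agent.Lib.MP_8cb858_nt.PF PLQM
open scoped Classical WithZero

theorem specPLQ : SpecPLQ where
  ex := by
    intro p hp
    refine ⟨⟨Ideal.span {(p : 𝓞 ℚ)}, (Ideal.span_singleton_prime (prime_p hp).ne_zero).2 (prime_p hp),
      ?_⟩, Ideal.mem_span_singleton_self _⟩
    rw [Ne, Ideal.span_singleton_eq_bot]
    exact (prime_p hp).ne_zero
  pr := by
    intro v
    obtain ⟨x, hx, hx0⟩ := Submodule.exists_mem_ne_zero_of_ne_bot v.ne_bot
    obtain ⟨m, rfl⟩ := surj x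
    have hm : m ≠ 0 := by
      rintro rfl
      exact hx0 Int.cast_zero
    refine exists_prime v m.natAbs (Int.natAbs_ne_zero.2 hm) ?_
    rcases Int.natAbs_eq m with h | h
    · rw [h, Int.cast_natCast] at hx
      exact hx
    · rw [h, Int.cast_neg, Int.cast_natCast] at hx
      exact neg_mem_iff.1 hx
  uni := by
    intro p v v' hp h h'
    apply HeightOneSpectrum.ext
    rw [span_eq hp v h, span_eq hp v' h']
  mem := fun p v n k hp h => mem_iff hp v h n k
  nat := by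
    intro p v n hp h
    have e1 := (specNFB.int ℚ v ((n : ℤ) : 𝓞 ℚ) 1)
    have e2 := (specNFB.int ℚ v ((n : ℤ) : 𝓞 ℚ) 2)
    rw [← nat_coe, mem_iff hp v h] at e1 e2
    have d1 : ((p : ℤ) ^ 1 ∣ (n : ℤ)) ↔ p ∣ n := by
      rw [pow_one]
      exact Int.natCast_dvd_natCast
    have d2 : ((p : ℤ) ^ 2 ∣ (n : ℤ)) ↔ p ^ 2 ∣ n := by
      rw [← Nat.cast_pow]
      exact Int.natCast_dvd_natCast
    rw [d1] at e1
    rw [d2] at e2
    refine ⟨?_, ?_⟩
    · rw [one_iff _ e1.1, e1.2]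
      rfl
    · rw [exp_iff, e1.2, e2.2]
      rfl
  y12 := by
    intro p v a b hp h
    have : Fact p.Prime := ⟨hp⟩
    have hd : ∀ m : ℤ, ((m : 𝓞 ℚ) ^ 2 + dsc (a : 𝓞 ℚ) (b : 𝓞 ℚ)) = ((m ^ 2 + dz a b : ℤ) : 𝓞 ℚ) := by
      intro m
      simp only [dsc, dz]
      push_cast
      ring
    constructor
    · intro hY x hx
      obtain ⟨m, rfl⟩ := surj x
      rw [hd, mem_iff1 hp v h, ← zmod_iff] at hx
      apply hY
      refine ⟨(m : ZMod p), ?_⟩
      push_cast at hx ⊢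
      linear_combination -hx
    · rintro hx ⟨y, hy⟩
      obtain ⟨m, rfl⟩ := ZMod.intCast_surjective y
      apply hx (m : 𝓞 ℚ)
      rw [hd, mem_iff1 hp v h, ← zmod_iff]
      push_cast at hy ⊢
      linear_combination -hy
  y3 := by
    intro p v a b hp h
    have hd : ∀ m : ℤ, ((m : 𝓞 ℚ) ^ 3 + (a : 𝓞 ℚ) * (m : 𝓞 ℚ) + (b : 𝓞 ℚ)) =
        ((m ^ 3 + a * m + b : ℤ) : 𝓞 ℚ) := by
      intro m
      push_cast
      ring
    constructor
    · intro hY x hx
      obtain ⟨m, rfl⟩ := surj x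
      rw [hd, mem_iff1 hp v h, ← zmod_iff] at hx
      apply hY (m : ZMod p)
      push_cast at hx ⊢
      exact hx
    · intro hx y hy
      obtain ⟨m, rfl⟩ := ZMod.intCast_surjective y
      apply hx (m : 𝓞 ℚ)
      rw [hd, mem_iff1 hp v h, ← zmod_iff]
      push_cast at hy ⊢
      exact hy

end Pool.Agent.Lib.MP_8cb858_nt.PT
end
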