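import Pool.Agent.Lib.MP_8cb858_nt.PT.SpecC

/-!
# BAS: the base bound
-/

namespace Pool.Agent.Lib.MP_8cb858_nt.PT

open Polynomial NumberField IsDedekindDomain Pool.Agent.Lib.MP_8cb858_nt.SEL
open Pool.Agent.Lib.MP_8cb858_nt.PF
open scoped Classical WithZero

namespace BASM

/-- The pairs (curve, nonzero class). -/
def W (X : ℝ) (D : ℕ) : Set (Σ q : ℤ × ℤ, Sl q.1 q.2 D) := {z | z.1 ∈ Hz X ∧ z.2 ≠ 0}

lemma count (X : ℝ) (D : ℕ) (hD : 0 < D) (hGEN : SpecGEN) (hH : (Hz X).Finite)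
    (hW : (W X D).Finite) (t : ℝ) :
    ({E ∈ Hz X | t < (sc E.1 E.2 D : ℝ)}.ncard : ℝ) * (t - 1) ≤ ((W X D).ncard : ℝ) := by
  classical
  set Hf := hH.toFinset with hHf
  set Wf := hW.toFinset with hWf
  have hmem : ∀ w ∈ Wf, w.1 ∈ Hf := by
    intro w hw
    rw [hWf, Set.Finite.mem_toFinset] at hw
    rw [hHf, Set.Finite.mem_toFinset]
    exact hw.1
  have h1 : Wf.card = ∑ E ∈ Hf, (Wf.filter (fun w => w.1 = E)).card :=
    Finset.card_eq_sum_card_fiberwise hmem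
  have hfib : ∀ E ∈ Hf, sc E.1 E.2 D ≤ (Wf.filter (fun w => w.1 = E)).card + 1 := by
    intro E hE
    rw [hHf, Set.Finite.mem_toFinset] at hE
    obtain ⟨hfin, -, -⟩ := hGEN.fin E.1 E.2 D hE.2.2 hD
    have := hfin
    have : Fintype (Sl E.1 E.2 D) := Fintype.ofFinite _
    have h2 : sc E.1 E.2 D = (Finset.univ : Finset (Sl E.1 E.2 D)).card := by
      rw [sc, Nat.card_eq_fintype_card, Finset.card_univ]
    have h3 : ((Finset.univ : Finset (Sl E.1 E.2 D)).erase 0).card + 1 =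
        (Finset.univ : Finset (Sl E.1 E.2 D)).card :=
      Finset.card_erase_add_one (Finset.mem_univ _)
    have h4 : ((Finset.univ : Finset (Sl E.1 E.2 D)).erase 0).card ≤
        (Wf.filter (fun w => w.1 = E)).card := by
      refine Finset.card_le_card_of_injOn
        (fun z => (⟨E, z⟩ : Σ q : ℤ × ℤ, Sl q.1 q.2 D)) ?_ ?_
      · intro z hz
        have hz0 : z ≠ 0 := Finset.ne_of_mem_erase hz
        simp only [Finset.coe_filter, Set.mem_setOf_eq, and_true]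
        rw [hWf, Set.Finite.mem_toFinset]
        exact ⟨hE, hz0⟩
      · intro z _ z' _ h
        simpa using h
    omega
  have h5 : ({E ∈ Hz X | t < (sc E.1 E.2 D : ℝ)}.ncard) =
      (Hf.filter (fun E => t < (sc E.1 E.2 D : ℝ))).card := by
    rw [← Set.ncard_coe_finset]
    congr 1
    ext E
    simp [hHf]
  rw [h5, Set.ncard_eq_toFinset_card _ hW, ← hWf, h1]
  push_cast
  calc ((Hf.filter (fun E => t < (sc E.1 E.2 D : ℝ))).card : ℝ) * (t - 1)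
      = ∑ E ∈ Hf.filter (fun E => t < (sc E.1 E.2 D : ℝ)), (t - 1) := by
        rw [Finset.sum_const, nsmul_eq_mul]
    _ ≤ ∑ E ∈ Hf.filter (fun E => t < (sc E.1 E.2 D : ℝ)),
          ((Wf.filter (fun w => w.1 = E)).card : ℝ) := by
        apply Finset.sum_le_sum
        intro E hE
        obtain ⟨hE1, hE2⟩ := Finset.mem_filter.1 hE
        have h6 := hfib E hE1
        have h7 : (sc E.1 E.2 D : ℝ) ≤ ((Wf.filter (fun w => w.1 = E)).card : ℝ) + 1 := by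
          exact_mod_cast h6
        linarith
    _ ≤ ∑ E ∈ Hf, ((Wf.filter (fun w => w.1 = E)).card : ℝ) := by
        apply Finset.sum_le_sum_of_subset_of_nonneg (Finset.filter_subset _ _)
        intro E _ _
        positivity

lemma fmz (hFMZ : SpecFMZ) : ∃ (C K1 : ℝ), 1 ≤ C ∧ 1 ≤ K1 ∧ ∀ D : ℕ, Squarefree D →
    ∃ X0 : ℝ, ∀ X : ℝ, X0 ≤ X → (W X D).Finite ∧
      ((W X D).ncard : ℝ) ≤ C * K1 ^ D.primeFactors.card * ((Hz X).ncard : ℝ) := by
  obtain ⟨C, K1, P0, hC, hK, h⟩ := hFMZ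
  refine ⟨C, K1, hC, hK, fun D hD => ?_⟩
  obtain ⟨X0, hX0⟩ := h ∅ D {∅} hD (by simp) (by simp)
  refine ⟨X0, fun X hX => ?_⟩
  obtain ⟨h1, h2⟩ := hX0 X hX
  have hset : {z : (Σ q : ℤ × ℤ, Sl q.1 q.2 D) | z.1 ∈ Hz X ∧
      (∀ p ∈ (∅ : Finset ℕ), Y12 p z.1.1 z.1.2) ∧ z.2 ≠ 0 ∧
        (∅ : Finset ℕ).filter (fun p => ¬ Tz p z.2) ∈ ({∅} : Finset (Finset ℕ))} = W X D := by
    ext z
    simp [W]
  rw [hset] at h1 h2
  refine ⟨h1, ?_⟩
  simpa using h2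

lemma evt (δ ε C K1 : ℝ) (hδ : 0 < δ) (hε : 0 < ε) (hC : 1 ≤ C) (hK : 1 ≤ K1) :
    ∃ r0 : ℕ, 5 ≤ r0 ∧ K1 ≤ ((2 : ℝ) ^ (δ / 2)) ^ r0 ∧ ∀ r : ℕ, r0 ≤ r →
      2 * (7 / 10 : ℝ) ^ (r ^ 2) ≤ ε / 2 ∧ 2 ≤ ((2 : ℝ) ^ (δ / 2)) ^ r * ((2 : ℝ) ^ (δ / 2)) ^ r ∧
      (r : ℝ) ^ 2 * (C * K1) * 4 ≤ ε * ((2 : ℝ) ^ (δ / 2)) ^ r := by
  set q : ℝ := (2 : ℝ) ^ (δ / 2) with hq
  have hq1 : 1 < q := Real.one_lt_rpow (by norm_num) (by positivity)
  have hq0 : 0 < q := by linarith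
  have e1 : ∀ᶠ r : ℕ in Filter.atTop, (7 / 10 : ℝ) ^ r < ε / 4 :=
    (tendsto_pow_atTop_nhds_zero_of_lt_one (by norm_num) (by norm_num)).eventually_lt_const
      (by positivity)
  have e2 : ∀ᶠ r : ℕ in Filter.atTop, max 2 K1 < q ^ r :=
    (tendsto_pow_atTop_atTop_of_one_lt hq1).eventually_gt_atTop _
  have e3 : ∀ᶠ r : ℕ in Filter.atTop, (r : ℝ) ^ 2 / q ^ r < ε / (4 * (C * K1)) :=
    (tendsto_pow_const_div_const_pow_of_one_lt 2 hq1).eventually_lt_const (by positivity)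
  obtain ⟨r0, hr0⟩ := Filter.eventually_atTop.1 (e1.and (e2.and (e3.and
    (Filter.eventually_ge_atTop 5))))
  refine ⟨r0, (hr0 r0 le_rfl).2.2.2, ?_, fun r hr => ?_⟩
  · exact ((le_max_right _ _).trans_lt (hr0 r0 le_rfl).2.1).le
  · obtain ⟨a1, a2, a3, a4⟩ := hr0 r hr
    refine ⟨?_, ?_, ?_⟩
    · have : (7 / 10 : ℝ) ^ (r ^ 2) ≤ (7 / 10 : ℝ) ^ r := by
        apply pow_le_pow_of_le_one (by norm_num) (by norm_num)
        nlinarith
      linarith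
    · have h2 : 2 < q ^ r := (le_max_left _ _).trans_lt a2
      nlinarith
    · have hp : 0 < q ^ r := by positivity
      have hc : 0 < 4 * (C * K1) := by positivity
      rw [div_lt_div_iff₀ hp hc] at a3
      linarith

end BASM

open BASM in
theorem specBAS (hFMZ : SpecFMZ) (hAXP : SpecAXP) (hGEN : SpecGEN) (hEQZ : SpecEQZ) : SpecBAS := by
  classical
  intro δ ε hδ hε
  obtain ⟨C, K1, hC, hK, hF⟩ := fmz hFMZ
  obtain ⟨r0, hr5, hrK, hr⟩ := evt δ ε C K1 hδ hε hC hK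
  refine ⟨r0, ?_⟩
  intro r D1 mm hrr hD1 hω hinj hmm
  obtain ⟨b1, b2, b3⟩ := hr r hrr
  set q : ℝ := (2 : ℝ) ^ (δ / 2) with hq
  have hq1 : 1 < q := Real.one_lt_rpow (by norm_num) (by positivity)
  have hq0 : 0 < q := by linarith
  have hD1pos : 0 < D1 := Nat.pos_of_ne_zero hD1.ne_zero
  obtain ⟨XA, hXA⟩ := hAXP (r ^ 2) mm hinj (fun j => ⟨(hmm j).1, hr5.trans (hmm j).2.1⟩)
  have hsq : ∀ j, Squarefree (D1 * mm j) := by
    intro j
    rw [Nat.squarefree_mul_iff]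
    exact ⟨((hmm j).1.coprime_iff_not_dvd.2 (hmm j).2.2).symm, hD1, (hmm j).1.squarefree⟩
  choose XF hXF using fun j => hF (D1 * mm j) (hsq j)
  have hcard : ∀ j, (D1 * mm j).primeFactors.card = D1.primeFactors.card + 1 := by
    intro j
    rw [Nat.primeFactors_mul hD1pos.ne' (hmm j).1.ne_zero, (hmm j).1.primeFactors,
      Finset.card_union_of_disjoint, Finset.card_singleton]
    rw [Finset.disjoint_singleton_right]
    intro h
    exact (hmm j).2.2 (Nat.dvd_of_mem_primeFactors h)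
  -- the bound for `K1 ^ ω`
  have hKω : K1 ^ D1.primeFactors.card ≤ q ^ r := by
    calc K1 ^ D1.primeFactors.card ≤ (q ^ r0) ^ D1.primeFactors.card :=
          pow_le_pow_left₀ (by linarith) hrK _
      _ = q ^ (r0 * D1.primeFactors.card) := by rw [← pow_mul]
      _ ≤ q ^ r := pow_le_pow_right₀ hq1.le hω
  have hq2 : (2 : ℝ) ^ (δ * r) = q ^ r * q ^ r := by
    rw [hq, ← Real.rpow_natCast, ← Real.rpow_mul (by norm_num), ← Real.rpow_add (by norm_num)]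
    congr 1
    ring
  set X0 : ℝ := |XA| + ∑ j ∈ Finset.range (r ^ 2), |XF j| with hX0
  refine ⟨X0, fun X hX => ?_⟩
  have hXA' : XA ≤ X := by
    have : 0 ≤ ∑ j ∈ Finset.range (r ^ 2), |XF j| := Finset.sum_nonneg fun _ _ => abs_nonneg _
    linarith [le_abs_self XA]
  have hXF' : ∀ j ∈ Finset.range (r ^ 2), XF j ≤ X := by
    intro j hj
    have h9 : |XF j| ≤ ∑ j ∈ Finset.range (r ^ 2), |XF j| :=
      Finset.single_le_sum (f := fun j => |XF j|) (fun _ _ => abs_nonneg _) hj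
    have h0 : 0 ≤ |XA| := abs_nonneg _
    linarith [le_abs_self (XF j)]
  have hfinH : (Hz X).Finite := hEQZ.1 X
  set A : Set (ℤ × ℤ) := {E ∈ Hz X | ¬ (jx mm E < r ^ 2 ∧ Y3 (mx mm E) E.1 E.2)} with hA
  set B : ℕ → Set (ℤ × ℤ) := fun j => {E ∈ Hz X | (2 : ℝ) ^ (δ * r) < (sc E.1 E.2 (D1 * mm j) : ℝ)}
    with hB
  have hsub : {E ∈ Hz X | ¬ (jx mm E < r ^ 2 ∧ Y3 (mx mm E) E.1 E.2 ∧
        (sc E.1 E.2 (D1 * mx mm E) : ℝ) ≤ 2 ^ (δ * r))} ⊆
      A ∪ ⋃ j ∈ Finset.range (r ^ 2), B j := by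
    rintro E ⟨hE, hn⟩
    by_cases h : jx mm E < r ^ 2 ∧ Y3 (mx mm E) E.1 E.2
    · right
      rw [Set.mem_iUnion₂]
      refine ⟨jx mm E, Finset.mem_range.2 h.1, hE, ?_⟩
      by_contra hc
      exact hn ⟨h.1, h.2, not_lt.1 hc⟩
    · left
      exact ⟨hE, h⟩
  have hfinA : A.Finite := hfinH.subset (Set.sep_subset _ _)
  have hfinB : ∀ j, (B j).Finite := fun j => hfinH.subset (Set.sep_subset _ _)
  have hfinU : (⋃ j ∈ Finset.range (r ^ 2), B j).Finite :=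
    (Finset.range (r ^ 2)).finite_toSet.biUnion fun j _ => hfinB j
  have hUcard : ((⋃ j ∈ Finset.range (r ^ 2), B j).ncard : ℝ) ≤
      ∑ j ∈ Finset.range (r ^ 2), ((B j).ncard : ℝ) := by
    have h1 : ∀ s : Finset ℕ, (⋃ j ∈ s, B j).ncard ≤ ∑ j ∈ s, (B j).ncard := by
      intro s
      induction s using Finset.induction_on with
      | empty => simp
      | insert a s ha ih =>
        rw [Finset.sum_insert ha, Finset.set_biUnion_insert]
        exact (Set.ncard_union_le _ _).trans (Nat.add_le_add_left ih _)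
    exact_mod_cast h1 _
  have hBj : ∀ j ∈ Finset.range (r ^ 2), ((B j).ncard : ℝ) * (q ^ r * q ^ r) ≤
      2 * (C * (q ^ r * K1)) * ((Hz X).ncard : ℝ) := by
    intro j hj
    obtain ⟨w1, w2⟩ := hXF j X (hXF' j hj)
    have hpos : 0 < D1 * mm j := Nat.mul_pos hD1pos (hmm j).1.pos
    have hcnt := count X (D1 * mm j) hpos hGEN hfinH w1 ((2 : ℝ) ^ (δ * r))
    have h0 : (0 : ℝ) ≤ ((B j).ncard : ℝ) := by positivity
    have h0H : (0 : ℝ) ≤ ((Hz X).ncard : ℝ) := by positivity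
    rw [hq2] at hcnt
    have hcnt' : ((B j).ncard : ℝ) * (q ^ r * q ^ r - 1) ≤ ((W X (D1 * mm j)).ncard : ℝ) := by
      simp only [hB, hq2]
      exact hcnt
    have h3 : ((B j).ncard : ℝ) * (q ^ r * q ^ r) ≤
        2 * (((B j).ncard : ℝ) * (q ^ r * q ^ r - 1)) := by
      nlinarith
    have h4 : ((W X (D1 * mm j)).ncard : ℝ) ≤ C * (q ^ r * K1) * ((Hz X).ncard : ℝ) := by
      refine w2.trans ?_
      rw [hcard, pow_succ]
      gcongr
    linarith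
  have hp : 0 < q ^ r := by positivity
  have hBj2 : ∀ j ∈ Finset.range (r ^ 2), ((B j).ncard : ℝ) * q ^ r ≤
      2 * (C * K1) * ((Hz X).ncard : ℝ) := by
    intro j hj
    have h := hBj j hj
    have h' : (((B j).ncard : ℝ) * q ^ r) * q ^ r ≤
        (2 * (C * K1) * ((Hz X).ncard : ℝ)) * q ^ r := by
      calc (((B j).ncard : ℝ) * q ^ r) * q ^ r = ((B j).ncard : ℝ) * (q ^ r * q ^ r) := by ring
        _ ≤ _ := h
        _ = _ := by ring
    exact le_of_mul_le_mul_right h' hp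
  have hsum : (∑ j ∈ Finset.range (r ^ 2), ((B j).ncard : ℝ)) * q ^ r ≤
      ((r : ℝ) ^ 2) * (2 * (C * K1) * ((Hz X).ncard : ℝ)) := by
    rw [Finset.sum_mul]
    calc ∑ j ∈ Finset.range (r ^ 2), ((B j).ncard : ℝ) * q ^ r
        ≤ ∑ j ∈ Finset.range (r ^ 2), 2 * (C * K1) * ((Hz X).ncard : ℝ) :=
          Finset.sum_le_sum hBj2
      _ = _ := by rw [Finset.sum_const, Finset.card_range, nsmul_eq_mul]; push_cast; ring
  have h0H : (0 : ℝ) ≤ ((Hz X).ncard : ℝ) := by positivity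
  have hsum2 : ∑ j ∈ Finset.range (r ^ 2), ((B j).ncard : ℝ) ≤ ε / 2 * ((Hz X).ncard : ℝ) := by
    have h6 : (∑ j ∈ Finset.range (r ^ 2), ((B j).ncard : ℝ)) * q ^ r ≤
        (ε / 2 * ((Hz X).ncard : ℝ)) * q ^ r := by
      refine hsum.trans ?_
      have h7 := mul_le_mul_of_nonneg_right b3 h0H
      nlinarith
    exact le_of_mul_le_mul_right h6 hp
  have hAc : (A.ncard : ℝ) ≤ ε / 2 * ((Hz X).ncard : ℝ) := by
    refine (hXA X hXA').trans ?_
    exact mul_le_mul_of_nonneg_right b1 h0H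
  calc ({E ∈ Hz X | ¬ (jx mm E < r ^ 2 ∧ Y3 (mx mm E) E.1 E.2 ∧
        (sc E.1 E.2 (D1 * mx mm E) : ℝ) ≤ 2 ^ (δ * r))}.ncard : ℝ)
      ≤ ((A ∪ ⋃ j ∈ Finset.range (r ^ 2), B j).ncard : ℝ) := by
        exact_mod_cast Set.ncard_le_ncard hsub (hfinA.union hfinU)
    _ ≤ (A.ncard : ℝ) + ((⋃ j ∈ Finset.range (r ^ 2), B j).ncard : ℝ) := by
        exact_mod_cast Set.ncard_union_le _ _
    _ ≤ ε / 2 * ((Hz X).ncard : ℝ) + ε / 2 * ((Hz X).ncard : ℝ) :=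
        add_le_add hAc (hUcard.trans hsum2)
    _ = ε * ((Hz X).ncard : ℝ) := by ring

end Pool.Agent.Lib.MP_8cb858_nt.PT
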