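import Pool.Agent.Lib.MP_8cb858_nt.PT.Defs
import Pool.Agent.Lib.MP_8cb858_nt.PR.LAW

section
/-!
# Interface of the blocks: the Poonen-Rains law for almost all quadratic twists

Block owners: E (STEP, JNK, TRZ, GEN, SQZ) helper18; FM, DN (FMZ, EQZ, TLZ, TYZ) helper36; probability (STAR)
helper64; TD helper70; FIN helper18.
-/
namespace Pool.Agent.Lib.MP_8cb858_nt.PT

open Polynomial NumberField IsDedekindDomain Pool.Agent.Lib.MP_8cb858_nt.SEL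
open Pool.Agent.Lib.MP_8cb858_nt.PF
open scoped Classical WithZero

/-! ## Block E -/

/-- **STEP.** The step theorem. `Ds` fixes the classes at the primes dividing `K`; the hypothesis says that
some `∅`-admissible `D0` is good: no nonzero class of `Sel_2(E^D0)` is trivial at all primes of `Q`. -/
def SpecSTEP : Prop :=
  ∀ (K Ds : ℕ) (Q P : Finset ℕ) (a b : ℤ), Cfz K Q P a b → 0 < Ds →
    (∃ D0 : ℕ, Adm K Ds P ∅ D0 ∧ ∀ z : Sl a b D0, (∀ p ∈ Q, Tz p z) → z = 0) →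
    (∀ T ⊆ Q, ∀ D D' : ℕ, Adm K Ds P T D → Adm K Ds P T D' → sc a b D = sc a b D') ∧
    ∀ T ⊆ Q, ∀ v ∈ Q, v ∉ T → ∀ D D' : ℕ, Adm K Ds P T D → Adm K Ds P (insert v T) D' →
      ((∀ z : Sl a b D, Tz v z) → sc a b D' = 2 * sc a b D) ∧
      (¬ (∀ z : Sl a b D, Tz v z) → 2 * sc a b D' = sc a b D)

/-- **JNK.** Good primes `p ∈ J` dividing `D1` exactly once change the order of the Selmer group by a
factor at most 4 each. -/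
def SpecJNK : Prop :=
  ∀ (K : ℕ) (P J : Finset ℕ) (a b : ℤ) (D1 D2 : ℕ), 0 < K → 6 ∣ K → Sf K a b → dz a b ≠ 0 →
    (∀ p ∈ P, p.Prime ∧ ¬ p ∣ K ∧ Y3 p a b) →
    (∀ p ∈ J, p.Prime ∧ ¬ p ∣ K ∧ ¬ (p : ℤ) ∣ dz a b ∧ p ∣ D1 ∧ ¬ p ^ 2 ∣ D1 ∧ ¬ p ∣ D2) →
    0 < D1 → 0 < D2 → Sq K D1 D2 →
    (∀ p : ℕ, p.Prime → ¬ p ∣ K → p ∉ J → p ∉ P → ¬ p ∣ D1 ∧ ¬ p ∣ D2) →
    sc a b D1 ≤ 4 ^ J.card * sc a b D2

/-- **TRZ.** At a prime of type (1,2) the triviality of the localisation is given by a character. -/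
def SpecTRZ : Prop :=
  ∀ (a b : ℤ) (D p : ℕ), p.Prime → 5 ≤ p → 0 < D → ¬ p ∣ D → Y12 p a b →
    ∀ z w : Sl a b D, Tz p (z + w) ↔ (Tz p z ↔ Tz p w)

/-- **GEN.** General facts. -/
structure SpecGEN : Prop where
  fin : ∀ (a b : ℤ) (D : ℕ), dz a b ≠ 0 → 0 < D →
    Finite (Sl a b D) ∧ (∀ z : Sl a b D, z + z = 0) ∧ ∃ s : ℕ, sc a b D = 2 ^ s
  sqt : ∀ (a b : ℤ) (D t : ℕ), dz a b ≠ 0 → 0 < D → 0 < t → sc a b (D * t ^ 2) = sc a b D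

/-- **SQZ.** Classes modulo squares. -/
structure SpecSQZ : Prop where
  sym : ∀ K m n : ℕ, Sq K m n → Sq K n m
  trs : ∀ K l m n : ℕ, 0 < m → Sq K l m → Sq K m n → Sq K l n
  mul : ∀ K g m n : ℕ, Sq K m n → Sq K (g * m) (g * n)
  mon : ∀ K K' m n : ℕ, K' ∣ K → Sq K m n → Sq K' m n
  cls : ∀ K m n : ℕ, 0 < K → 2 ∣ K → m.Coprime K → n.Coprime K → m % 8 = n % 8 →
    (∀ p : ℕ, p.Prime → p ∣ K → (IsSquare (m : ZMod p) ↔ IsSquare (n : ZMod p))) → Sq K m n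

/-! ## Blocks FM, DN -/

/-- **FMZ.** First moment with patterns, uniform in the twist. `ω(D)` = number of prime factors. -/
def SpecFMZ : Prop :=
  ∃ (C K1 : ℝ) (P0 : ℕ), 1 ≤ C ∧ 1 ≤ K1 ∧ ∀ (Q : Finset ℕ) (D : ℕ) (Z : Finset (Finset ℕ)),
    Squarefree D → (∀ p ∈ Q, p.Prime ∧ P0 < p ∧ ¬ p ∣ D) → (∀ z ∈ Z, z ⊆ Q) →
    ∃ X0 : ℝ, ∀ X : ℝ, X0 ≤ X →
      {z : (Σ q : ℤ × ℤ, Sl q.1 q.2 D) | z.1 ∈ Hz X ∧ (∀ p ∈ Q, Y12 p z.1.1 z.1.2) ∧ z.2 ≠ 0 ∧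
        Q.filter (fun p => ¬ Tz p z.2) ∈ Z}.Finite ∧
      ({z : (Σ q : ℤ × ℤ, Sl q.1 q.2 D) | z.1 ∈ Hz X ∧ (∀ p ∈ Q, Y12 p z.1.1 z.1.2) ∧ z.2 ≠ 0 ∧
        Q.filter (fun p => ¬ Tz p z.2) ∈ Z}.ncard : ℝ) ≤
        C * K1 ^ D.primeFactors.card * ((Z.card : ℝ) / 2 ^ Q.card) *
          (∏ p ∈ Q, (1 + 1 / (p : ℝ)) ^ 2 / 2) * ((Hz X).ncard : ℝ)

/-- **EQZ.** Equidistribution in residue classes. -/
def SpecEQZ : Prop :=
  (∀ X : ℝ, (Hz X).Finite) ∧ (∀ X : ℝ, 1 ≤ X → 0 < (Hz X).ncard) ∧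
  ∀ (N : ℕ) (R : Set (ZMod N × ZMod N)) (ε : ℝ), 0 < N → 0 < ε → ∃ X0 : ℝ, ∀ X : ℝ, X0 ≤ X →
    |({q ∈ Hz X | ((q.1 : ZMod N), (q.2 : ZMod N)) ∈ R}.ncard : ℝ) -
      (R.ncard : ℝ) / (N : ℝ) ^ 2 * ((Hz X).ncard : ℝ)| ≤ ε * ((Hz X).ncard : ℝ)

/-- **TLZ.** The tail: few pairs have `4a^3+27b^2` divisible by the square of a large prime. -/
def SpecTLZ : Prop :=
  ∀ ε : ℝ, 0 < ε → ∃ (M : ℕ) (X0 : ℝ), ∀ X : ℝ, X0 ≤ X →
    ({q ∈ Hz X | ∃ p : ℕ, p.Prime ∧ M < p ∧ (p : ℤ) ^ 2 ∣ dz q.1 q.2}.ncard : ℝ) ≤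
      ε * ((Hz X).ncard : ℝ)

/-- **TYZ.** The numbers of residue classes of the types modulo `p`. -/
def SpecTYZ : Prop :=
  ∀ p : ℕ, p.Prime → 5 ≤ p →
    2 * {q : ZMod p × ZMod p | ¬ IsSquare (-(4 * q.1 ^ 3 + 27 * q.2 ^ 2))}.ncard = p * (p - 1) ∧
    3 * {q : ZMod p × ZMod p | ∀ x : ZMod p, x ^ 3 + q.1 * x + q.2 ≠ 0}.ncard + 1 = p ^ 2 ∧
    {q : ZMod p × ZMod p | 4 * q.1 ^ 3 + 27 * q.2 ^ 2 = 0}.ncard = p ∧
    ∀ q : ZMod p × ZMod p, (∀ x : ZMod p, x ^ 3 + q.1 * x + q.2 ≠ 0) →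
      IsSquare (-(4 * q.1 ^ 3 + 27 * q.2 ^ 2)) ∧ 4 * q.1 ^ 3 + 27 * q.2 ^ 2 ≠ 0

/-! ## Probability -/

/-- **STAR** (Theorem S*). -/
def SpecSTAR : Prop :=
  ∀ ε : ℝ, 0 < ε → ∃ r0 : ℕ, ∀ (r D1 : ℕ) (L : Fin r → Finset ℕ), r0 ≤ r → Squarefree D1 →
    r0 * D1.primeFactors.card ≤ r →
    (∀ i, ∀ p ∈ L i, p.Prime ∧ Real.exp (r0 * r) ≤ p ∧ ¬ p ∣ D1) →
    (∀ i, Real.exp (r0 * r) ≤ ((L i).card : ℝ)) → (∀ i j, i ≠ j → Disjoint (L i) (L j)) →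
    ∃ X0 : ℝ, ∀ X : ℝ, X0 ≤ X →
      (((Fintype.piFinset L).filter
        (fun p => ∃ d : ℕ, ε < |prop X (D1 * ∏ i, p i) d - PR.law d|)).card : ℝ) ≤
        ε * ∏ i, ((L i).card : ℝ)

/-- **TD.** Typical `D`: almost all `D ≤ Y` are of the form `D1 t^2 ∏ p_i` with `p` in a product of lists
as in STAR. -/
def SpecTD : Prop :=
  ∀ (ε : ℝ) (r0 : ℕ), 0 < ε → ∃ Y0 : ℕ, ∀ Y : ℕ, Y0 ≤ Y →
    ∃ (n : ℕ) (r D1 t : Fin n → ℕ) (L : ∀ i : Fin n, Fin (r i) → Finset ℕ),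
      (∀ i, r0 ≤ r i ∧ Squarefree (D1 i) ∧ 0 < t i ∧ r0 * (D1 i).primeFactors.card ≤ r i ∧
        (∀ j, ∀ p ∈ L i j, p.Prime ∧ Real.exp (r0 * r i) ≤ p ∧ ¬ p ∣ D1 i) ∧
        (∀ j, Real.exp (r0 * r i) ≤ ((L i j).card : ℝ)) ∧
        ∀ j k, j ≠ k → Disjoint (L i j) (L i k)) ∧
      (∑ i, ∏ j, ((L i j).card : ℝ) ≤ Y) ∧
      (((Finset.Icc 1 Y).filter (fun D => ∀ i, ∀ p ∈ Fintype.piFinset (L i),
        D ≠ D1 i * (t i) ^ 2 * ∏ j, p j)).card : ℝ) ≤ ε * Y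

/-- **FIN.** The final theorem. -/
def SpecFIN : Prop :=
  ∀ ε : ℝ, 0 < ε → ∃ Y0 : ℕ, ∀ Y : ℕ, Y0 ≤ Y → ∃ X0 : ℝ, ∀ X : ℝ, X0 ≤ X →
    (((Finset.Icc 1 Y).filter (fun D => ∃ d : ℕ, ε < |prop X D d - PR.law d|)).card : ℝ) ≤ ε * Y

end Pool.Agent.Lib.MP_8cb858_nt.PT
end

section
/-!
# FIN: the final theorem from STAR and TD
-/
namespace Pool.Agent.Lib.MP_8cb858_nt.PT

open Finset

namespace FINM

/-- `prop` only depends on the class of `D` modulo squares. -/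
lemma prop_sq (hGEN : SpecGEN) (X : ℝ) {D t : ℕ} (hD : 0 < D) (ht : 0 < t) (d : ℕ) :
    prop X (D * t ^ 2) d = prop X D d := by
  unfold prop
  have h : {q ∈ Hz X | sc q.1 q.2 (D * t ^ 2) = 2 ^ d} = {q ∈ Hz X | sc q.1 q.2 D = 2 ^ d} := by
    ext q
    simp only [Set.mem_ofPred_eq]
    constructor
    · rintro ⟨h1, h2⟩
      rw [hGEN.sqt q.1 q.2 D t h1.2.2 hD ht] at h2
      exact ⟨h1, h2⟩
    · rintro ⟨h1, h2⟩
      rw [← hGEN.sqt q.1 q.2 D t h1.2.2 hD ht] at h2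
      exact ⟨h1, h2⟩
  rw [h]

lemma law_nonneg (d : ℕ) : 0 ≤ PR.law d := by
  have h : PR.law = PR.C2 := PR.specLAW
  rw [h]; exact (PR.MKM.C2_pos d).le

lemma law_le_one (d : ℕ) : PR.law d ≤ 1 := by
  have h : PR.law = PR.C2 := PR.specLAW
  rw [h]
  exact le_hasSum PR.C2_sum d fun j _ => (PR.MKM.C2_pos j).le

lemma prop_nonneg (X : ℝ) (D d : ℕ) : 0 ≤ prop X D d :=
  div_nonneg (Nat.cast_nonneg _) (Nat.cast_nonneg _)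

lemma prop_le_one (X : ℝ) (D d : ℕ) : prop X D d ≤ 1 := by
  unfold prop
  rcases (Set.finite_or_infinite (Hz X)) with hf | hi
  · refine div_le_one_of_le₀ ?_ (Nat.cast_nonneg _)
    exact_mod_cast Set.ncard_le_ncard (Set.sep_subset _ _) hf
  · rw [hi.ncard]; simp

lemma abs_le_one (X : ℝ) (D d : ℕ) : |prop X D d - PR.law d| ≤ 1 := by
  rw [abs_le]
  have h1 := prop_nonneg X D d
  have h2 := prop_le_one X D d
  have h3 := law_nonneg d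
  have h4 := law_le_one d
  constructor <;> linarith

end FINM

open FINM

open Classical in
theorem specFIN (hSTAR : SpecSTAR) (hTD : SpecTD) (hGEN : SpecGEN) : SpecFIN := by
  intro ε hε
  obtain ⟨r0, hr0⟩ := hSTAR (ε / 2) (half_pos hε)
  obtain ⟨Y0, hY0⟩ := hTD (ε / 2) r0 (half_pos hε)
  refine ⟨Y0, fun Y hY => ?_⟩
  obtain ⟨n, r, D1, t, L, hL, hsum, hunc⟩ := hY0 Y hY
  have hstar : ∀ i : Fin n, ∃ X0 : ℝ, ∀ X : ℝ, X0 ≤ X →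
      (((Fintype.piFinset (L i)).filter
        (fun p => ∃ d : ℕ, ε / 2 < |prop X (D1 i * ∏ j, p j) d - PR.law d|)).card : ℝ) ≤
        (ε / 2) * ∏ j, ((L i j).card : ℝ) := by
    intro i
    obtain ⟨h1, h2, _, h4, h5, h6, h7⟩ := hL i
    obtain ⟨X0, hX0⟩ := hr0 (r i) (D1 i) (L i) h1 h2 h4 h5 h6 h7
    refine ⟨X0, fun X hX => ?_⟩
    convert hX0 X hX
  choose X0 hX0 using hstar
  obtain ⟨X1, hX1⟩ : ∃ X1 : ℝ, ∀ i, X0 i ≤ X1 :=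
    ⟨∑ i, |X0 i|, fun i => (le_abs_self _).trans
      (Finset.single_le_sum (f := fun i => |X0 i|) (fun j _ => abs_nonneg _) (mem_univ i))⟩
  refine ⟨X1, fun X hX => ?_⟩
  have hcov : (Icc 1 Y).filter (fun D => ∃ d : ℕ, ε < |prop X D d - PR.law d|) ⊆
      (Icc 1 Y).filter (fun D => ∀ i, ∀ p ∈ Fintype.piFinset (L i),
        D ≠ D1 i * (t i) ^ 2 * ∏ j, p j) ∪
      univ.biUnion (fun i : Fin n => ((Fintype.piFinset (L i)).filter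
        (fun p => ∃ d : ℕ, ε / 2 < |prop X (D1 i * ∏ j, p j) d - PR.law d|)).image
          (fun p => D1 i * (t i) ^ 2 * ∏ j, p j)) := by
    intro D hD
    rw [mem_filter] at hD
    obtain ⟨hDI, d, hd⟩ := hD
    rw [mem_union]
    by_cases hc : ∀ i, ∀ p ∈ Fintype.piFinset (L i), D ≠ D1 i * (t i) ^ 2 * ∏ j, p j
    · exact Or.inl ((@mem_filter _ _ (_) _ _).2 ⟨hDI, hc⟩)
    · push Not at hc
      obtain ⟨i, p, hp, hDp⟩ := hc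
      refine Or.inr (mem_biUnion.2 ⟨i, mem_univ _, mem_image.2 ⟨p, mem_filter.2 ⟨hp, d, ?_⟩,
        hDp.symm⟩⟩)
      have hD1 : 0 < D1 i := Nat.pos_of_ne_zero (hL i).2.1.ne_zero
      have hpp : 0 < ∏ j, p j := by
        refine Finset.prod_pos fun j _ => ?_
        exact ((hL i).2.2.2.2.1 j (p j) (Fintype.mem_piFinset.1 hp j)).1.pos
      have h1 : D = (D1 i * ∏ j, p j) * (t i) ^ 2 := by rw [hDp]; ring
      rw [h1, prop_sq hGEN X (Nat.mul_pos hD1 hpp) (hL i).2.2.1] at hd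
      linarith
  have hunc' : (((Icc 1 Y).filter (fun D => ∀ i, ∀ p ∈ Fintype.piFinset (L i),
        D ≠ D1 i * (t i) ^ 2 * ∏ j, p j)).card : ℝ) ≤ ε / 2 * Y := by
    convert hunc
  have hcard : (((Icc 1 Y).filter (fun D => ∃ d : ℕ, ε < |prop X D d - PR.law d|)).card : ℝ) ≤
      ε / 2 * Y + ∑ i : Fin n, (ε / 2) * ∏ j, ((L i j).card : ℝ) := by
    refine le_trans (Nat.cast_le.2 (card_le_card hcov)) ?_
    refine le_trans (Nat.cast_le.2 (card_union_le _ _)) ?_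
    rw [Nat.cast_add]
    refine add_le_add hunc' ?_
    refine le_trans (Nat.cast_le.2 card_biUnion_le) ?_
    rw [Nat.cast_sum]
    refine Finset.sum_le_sum fun i _ => ?_
    refine le_trans (Nat.cast_le.2 card_image_le) ?_
    exact hX0 i X ((hX1 i).trans hX)
  rw [← Finset.mul_sum] at hcard
  have h2 : ε / 2 * ∑ i : Fin n, ∏ j, ((L i j).card : ℝ) ≤ ε / 2 * Y :=
    mul_le_mul_of_nonneg_left hsum (by linarith)
  have h3 : (((Icc 1 Y).filter (fun D => ∃ d : ℕ, ε < |prop X D d - PR.law d|)).card : ℝ) ≤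
      ε * Y := by linarith
  convert h3

/-- The final theorem in the mean. -/
theorem specFINM (hFIN : SpecFIN) : ∀ ε : ℝ, 0 < ε → ∃ Y0 : ℕ, ∀ Y : ℕ, Y0 ≤ Y → ∃ X0 : ℝ,
    ∀ X : ℝ, X0 ≤ X → ∀ f : ℕ → ℕ,
      ∑ D ∈ Icc 1 Y, |prop X D (f D) - PR.law (f D)| ≤ ε * Y := by
  classical
  intro ε hε
  obtain ⟨Y0, hY0⟩ := hFIN (ε / 2) (half_pos hε)
  refine ⟨Y0, fun Y hY => ?_⟩
  obtain ⟨X0, hX0⟩ := hY0 Y hY
  refine ⟨X0, fun X hX f => ?_⟩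
  have h := hX0 X hX
  have h1 : ∀ D ∈ Icc 1 Y, |prop X D (f D) - PR.law (f D)| ≤
      ε / 2 + (if ∃ d : ℕ, ε / 2 < |prop X D d - PR.law d| then 1 else 0) := by
    intro D _
    split_ifs with hb
    · have := abs_le_one X D (f D); linarith
    · push Not at hb
      have := hb (f D); linarith
  refine (Finset.sum_le_sum h1).trans ?_
  rw [Finset.sum_add_distrib, Finset.sum_const, Finset.sum_boole, nsmul_eq_mul, Nat.card_Icc]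
  have h2 : (((Icc 1 Y).filter (fun D => ∃ d : ℕ, ε / 2 < |prop X D d - PR.law d|)).card : ℝ) ≤
      ε / 2 * Y := by convert h
  rw [Nat.add_sub_cancel]
  linarith

end Pool.Agent.Lib.MP_8cb858_nt.PT
end
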