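import Pool.Agent.Lib.MP_8cb858_nt.PT.SpecE
import Pool.Agent.Lib.MP_8cb858_nt.PF.TOC
import Pool.Agent.Lib.MP_8cb858_nt.PT.PLQ
import Pool.Agent.Lib.MP_8cb858_nt.PF.SUI

section
/-!
# CRH: the Selmer group of the twist is counted by vectors
-/
namespace Pool.Agent.Lib.MP_8cb858_nt.PT

open Polynomial NumberField IsDedekindDomain Pool.Agent.Lib.MP_8cb858_nt.SEL
open Pool.Agent.Lib.MP_8cb858_nt.PF
open scoped Classical WithZero

namespace CRHM

variable {F : Type} [Field F] [NumberField F]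
  {M Q P : Finset (HeightOneSpectrum (𝓞 F))} {Ds D0 : ℕ} {a b : 𝓞 F}

/-- The vector of the coordinates of a class. -/
noncomputable def vec (Q : Finset (HeightOneSpectrum (𝓞 F))) (a b : 𝓞 F) (α : Lk (a : F) (b : F)) :
    {v // v ∈ Q} → ZMod 2 × ZMod 2 := fun v => (ee v.1 α, ss v.1 α)

theorem vec_mul (hHAQ : SpecHAQ) (hC : Cf M Q P a b)
    {α β : Lk (a : F) (b : F)} (ha : InV α) (hb : InV β) :
    vec Q a b (α * β) = vec Q a b α + vec Q a b β := by
  funext v
  have h := hHAQ F M Q P a b hC v.1 v.2 α β ha hb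
  exact Prod.ext h.1 h.2.1

theorem add_self (x : ZMod 2 × ZMod 2) : x + x = 0 := by
  revert x; decide

theorem vadd_self {ι : Type} (w : ι → ZMod 2 × ZMod 2) : w + w = 0 := by
  funext v
  exact add_self (w v)

/-- Two classes with the same vector have a square as product. -/
theorem sq_of_vec (hELH : SpecELH) (hHAQ : SpecHAQ) (hKRH : SpecKRH)
    (hC : Cf M Q P a b) (hDs : 0 < Ds) (hA : Ad M P ∅ Ds D0)
    (hg : ∀ z : Sel 2 (cN a b D0), (∀ v ∈ Q, TrN D0 v z) → z = 0)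
    {α β : Lk (a : F) (b : F)} (ha : α ∈ Wh M Q Ds a b) (hb : β ∈ Wh M Q Ds a b)
    (h : vec Q a b α = vec Q a b β) : IsSquare (α * β) := by
  have h0 : vec Q a b (α * β) = 0 := by
    rw [vec_mul hHAQ hC ha.1 hb.1, h, vadd_self]
  refine hKRH F M Q P Ds D0 a b hC hDs hA hg _ ((hELH F M Q P Ds a b hC hDs).2 α ha β hb)
    fun v hv => ?_
  have h1 := congrFun h0 ⟨v, hv⟩
  exact ⟨congrArg Prod.fst h1, congrArg Prod.snd h1⟩

end CRHM

theorem specCRH (hBR : SpecBR) (hSLH : SpecSLH) (hELH : SpecELH) (hHAQ : SpecHAQ)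
    (hKRH : SpecKRH) (hRPH : SpecRPH) (hSFN : SpecSFN) (hFAH : SpecFAH) :
    SpecCRH := by
  intro F _ _ M Q P Ds D0 a b _ hC hDs hA hg T D hT hD'
  have hd : dsc (a : F) (b : F) ≠ 0 := (hFAH.ne0 hC).2.1
  have hd0 : dsc a b ≠ 0 := (hFAH.ne0 hC).1
  have hpos : 0 < D := hD'.pos
  have hD : ((D : ℕ) : F) ≠ 0 := Nat.cast_ne_zero.2 hpos.ne'
  have hself := (hSFN F a b D hd0 hpos).2
  -- choice of a representative
  choose r hr using fun z : Sel 2 (cN a b D) => hBR.surj hd hD z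
  have hmem : ∀ (α : Lk (a : F) (b : F)) (z : Sel 2 (cN a b D)),
      Rep ((D : ℕ) : F) α z → α ∈ Wh M Q Ds a b ∧ Cnd Q T α := fun α z h =>
    (hSLH F M Q P T Ds D a b hC hDs hD' hT α).1 (hBR.sel hd hD α z h)
  -- two representatives have the same vector
  have hwd : ∀ (α β : Lk (a : F) (b : F)), α ∈ Wh M Q Ds a b → β ∈ Wh M Q Ds a b →
      IsSquare (α * β) → CRHM.vec Q a b α = CRHM.vec Q a b β := by
    intro α β ha hb hs
    have h0 : CRHM.vec Q a b (α * β) = 0 := by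
      funext v
      have hab := (hELH F M Q P Ds a b hC hDs).2 α ha β hb
      have h := hHAQ F M Q P a b hC v.1 v.2 (α * β) (α * β) hab.1 hab.1
      have h1 := h.2.2.2.1.2 (hs.map (upr (algebraMap F (v.1.adicCompletion F)) (a : F) (b : F)))
      exact Prod.ext h1.1 h1.2
    rw [CRHM.vec_mul hHAQ hC ha.1 hb.1] at h0
    have h1 := CRHM.vadd_self (CRHM.vec Q a b β)
    exact add_right_cancel (h0.trans h1.symm)
  rw [← Nat.card_coe_set_eq]
  refine Nat.card_congr (Equiv.ofBijective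
    (fun z => ⟨CRHM.vec Q a b (r z), ⟨r z, (hmem _ z (hr z)).1, fun v => rfl⟩,
      fun v hv => ((hmem _ z (hr z)).2 v.1 v.2).2 hv,
      fun v hv => ((hmem _ z (hr z)).2 v.1 v.2).1 hv⟩) ⟨?_, ?_⟩)
  · intro z w hzw
    have h1 : CRHM.vec Q a b (r z) = CRHM.vec Q a b (r w) := congrArg Subtype.val hzw
    have h2 := CRHM.sq_of_vec hELH hHAQ hKRH hC hDs hA hg (hmem _ z (hr z)).1
      (hmem _ w (hr w)).1 h1
    have h3 := hBR.mul hd hD _ _ z w (hr z) (hr w)
    have h4 := ((hRPH F (a : F) (b : F) D hd hpos).2 _ _ h3).2 h2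
    exact add_right_cancel (h4.trans (hself w).symm)
  · rintro ⟨w, ⟨α, ha, hw⟩, h1, h2⟩
    have hc : Cnd Q T α := by
      intro v hv
      have hv' := hw ⟨v, hv⟩
      refine ⟨fun hs => ?_, fun hs => ?_⟩
      · have := h2 ⟨v, hv⟩ hs
        rw [hv'] at this
        exact this
      · have := h1 ⟨v, hv⟩ hs
        rw [hv'] at this
        exact this
    obtain ⟨z, hz⟩ := hBR.ex hd hD α
      ((hSLH F M Q P T Ds D a b hC hDs hD' hT α).2 ⟨ha, hc⟩)
    refine ⟨z, Subtype.ext ?_⟩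
    have h3 := hwd _ _ (hmem _ z (hr z)).1 ha (hBR.inj hd hD _ _ z (hr z) hz)
    exact h3.trans (funext fun v => (hw v).symm)

end Pool.Agent.Lib.MP_8cb858_nt.PT
end

section
/-!
# ELH: `Wh` is a group (port of `PF/ELF.lean`)
-/
namespace Pool.Agent.Lib.MP_8cb858_nt.PT

open Polynomial NumberField IsDedekindDomain Pool.Agent.Lib.MP_8cb858_nt.SEL
open Pool.Agent.Lib.MP_8cb858_nt.PF
open scoped Classical WithZero

theorem specELH (hINV : PF.SpecINV) (hEVF : PF.SpecEVF) (hLZ : PF.SpecLZ) (hNF : PF.SpecNF)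
    (hKMD : SpecKMD) (hLIT : SpecLIT) (hFAH : SpecFAH) : SpecELH := by
  intro F _ _ M Q P Ds a b hC hDs
  have hd := (hFAH.ne0 hC).2.2
  have hdF := (hFAH.ne0 hC).2.1
  have hDv : ∀ v : HeightOneSpectrum (𝓞 F), (Ds : v.adicCompletion F) ≠ 0 := fun v =>
    Nat.cast_ne_zero.2 hDs.ne'
  have h1 : ∀ v : HeightOneSpectrum (𝓞 F), ul v (1 : Lk (a : F) (b : F)) = 1 := fun v => by
    unfold ul up
    rw [map_one]
  have h1i : ∀ v : InfinitePlace F, up v.Completion (1 : Lk (a : F) (b : F)) = 1 := fun v => by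
    unfold up
    rw [map_one]
  have hm : ∀ (v : HeightOneSpectrum (𝓞 F)) (α β : Lk (a : F) (b : F)),
      ul v (α * β) = ul v α * ul v β := fun v α β => by
    unfold ul up
    rw [map_mul]
  have hmi : ∀ (v : InfinitePlace F) (α β : Lk (a : F) (b : F)),
      up v.Completion (α * β) = up v.Completion α * up v.Completion β := fun v α β => by
    unfold up
    rw [map_mul]
  have hup : ∀ (v : HeightOneSpectrum (𝓞 F)) (α : Lk (a : F) (b : F)), InV α → InV (ul v α) :=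
    fun v α h => hINV.upv _ α h
  have hupi : ∀ (v : InfinitePlace F) (α : Lk (a : F) (b : F)), InV α →
      InV (up v.Completion α) := fun v α h => hINV.upv _ α h
  have hI1 : InV (1 : Lk (a : F) (b : F)) := ⟨isUnit_one, by rw [map_one]; exact IsSquare.one⟩
  refine ⟨⟨hI1, fun v _ => ?_, fun v => ?_, fun v _ _ => ?_⟩, fun α hα β hβ =>
    ⟨hINV.mul α β hα.1 hβ.1, fun v hv => ?_, fun v => ?_, fun v hv hvQ => ?_⟩⟩
  · rw [h1]
    exact hLZ (v.adicCompletion F) (vv v) _ _ _ 1 (hNF.lf F v) (hDv v) ⟨1, (mul_one 1).symm⟩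
  · refine hLIT.sqa F v _ _ _ hdF (hupi v 1 hI1) ?_
    rw [h1i]
    exact IsSquare.one
  · rw [h1]
    exact (hEVF (v.adicCompletion F) (vv v) _ _ 1 1 (hFAH.int v a) (hFAH.int v b)).2.2
      isUnit_one ⟨1, (mul_one 1).symm⟩
  · rw [hm]
    exact hKMD.grp (v.adicCompletion F) (vv v) _ _ _ _ _ (hNF.lf F v) (hFAH.int v a)
      (hFAH.int v b) (hd v) (hFAH.nat v Ds) (hDv v)
      (hup v α hα.1) (hup v β hβ.1) (hα.2.1 v hv) (hβ.2.1 v hv)
  · rw [hmi]
    exact hLIT.grp F v _ _ _ _ hdF (hupi v α hα.1) (hupi v β hβ.1) (hα.2.2.1 v) (hβ.2.2.1 v)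
  · rw [hm]
    exact (hEVF (v.adicCompletion F) (vv v) _ _ _ _ (hFAH.int v a) (hFAH.int v b)).1
      (hα.2.2.2 v hv hvQ) (hβ.2.2.2 v hv hvQ)

end Pool.Agent.Lib.MP_8cb858_nt.PT
end

section
/-!
# GEN: general facts on the Selmer groups over `ℚ`
-/
set_option autoImplicit false

namespace Pool.Agent.Lib.MP_8cb858_nt.PT

open Polynomial NumberField IsDedekindDomain Pool.Agent.Lib.MP_8cb858_nt.SEL
open Pool.Agent.Lib.MP_8cb858_nt.PF
open scoped Classical WithZero

namespace GENM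

theorem coe_int (a : ℤ) : (((a : ℤ) : 𝓞 ℚ) : ℚ) = (a : ℚ) := map_intCast (algebraMap (𝓞 ℚ) ℚ) a

theorem dsc_int (a b : ℤ) (h : dz a b ≠ 0) : dsc (a : 𝓞 ℚ) (b : 𝓞 ℚ) ≠ 0 := by
  have h1 : dsc (a : 𝓞 ℚ) (b : 𝓞 ℚ) = ((dz a b : ℤ) : 𝓞 ℚ) := by
    unfold dsc dz
    push_cast
    ring
  rw [h1]
  exact Int.cast_ne_zero.2 h

theorem card_two_pow {G : Type} [AddCommGroup G] [Finite G] (h : ∀ z : G, z + z = 0) :
    ∃ s : ℕ, Nat.card G = 2 ^ s := by
  have h1 : IsPGroup 2 (Multiplicative G) := by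
    intro g
    refine ⟨1, ?_⟩
    rw [pow_one, pow_two]
    exact h g.toAdd
  haveI : Fact (Nat.Prime 2) := ⟨Nat.prime_two⟩
  obtain ⟨n, hn⟩ := IsPGroup.iff_card.1 h1
  exact ⟨n, hn⟩

theorem selSet_sq (hAFI : SpecAFI) {F : Type} [Field F] [NumberField F] (a b : F) (D t : ℕ)
    (hD : 0 < D) (ht : 0 < t) :
    SelSet a b ((D * t ^ 2 : ℕ) : F) = SelSet a b (D : F) := by
  have key : ∀ (K : Type) [Field K] [Algebra F K] (α : Lk (algebraMap F K a) (algebraMap F K b)),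
      Aff (algebraMap F K ((D * t ^ 2 : ℕ) : F)) α ↔ Aff (algebraMap F K (D : F)) α := by
    intro K _ _ α
    haveI : CharZero K := charZero_of_injective_algebraMap (algebraMap F K).injective
    rw [map_natCast, map_natCast]
    refine hAFI.dd _ _ α ?_ ?_ ?_
    · exact Nat.cast_ne_zero.2 (by positivity)
    · exact Nat.cast_ne_zero.2 hD.ne'
    · refine ⟨(D * t : ℕ), ?_⟩
      push_cast
      ring
  ext α
  unfold SelSet
  simp only [Set.mem_setOf_eq]
  constructor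
  · rintro ⟨h1, h2, h3⟩
    exact ⟨h1, fun v => (key _ _).1 (h2 v), fun v => (key _ _).1 (h3 v)⟩
  · rintro ⟨h1, h2, h3⟩
    exact ⟨h1, fun v => (key _ _).2 (h2 v), fun v => (key _ _).2 (h3 v)⟩

end GENM

open GENM in
theorem specGEN (hSFN : PF.SpecSFN) (hSEQ : SpecSEQ) (hAFI : SpecAFI) : SpecGEN where
  fin := by
    intro a b D hd hD
    have h := hSFN ℚ (a : 𝓞 ℚ) (b : 𝓞 ℚ) D (dsc_int a b hd) hD
    unfold cN at h
    rw [coe_int, coe_int] at h
    obtain ⟨h1, h2⟩ := h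
    refine ⟨h1, h2, ?_⟩
    haveI : Finite (Sl a b D) := h1
    exact card_two_pow h2
  sqt := by
    intro a b D t hd hD ht
    have hDt : 0 < D * t ^ 2 := by positivity
    have e := selSet_sq hAFI (((a : ℤ) : 𝓞 ℚ) : ℚ) (((b : ℤ) : 𝓞 ℚ) : ℚ) D t hD ht
    have h1 := hSEQ ℚ (a : 𝓞 ℚ) (b : 𝓞 ℚ) (D * t ^ 2) D (dsc_int a b hd) hDt hD e.le
    have h2 := hSEQ ℚ (a : 𝓞 ℚ) (b : 𝓞 ℚ) D (D * t ^ 2) (dsc_int a b hd) hD hDt e.ge
    unfold cN at h1 h2
    rw [coe_int, coe_int] at h1 h2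
    exact le_antisymm h1 h2

end Pool.Agent.Lib.MP_8cb858_nt.PT
end

section
/-!
# Module HAQ: the planes at the places of `Q`
-/
namespace Pool.Agent.Lib.MP_8cb858_nt.PT

open Polynomial NumberField IsDedekindDomain Pool.Agent.Lib.MP_8cb858_nt.SEL
open Pool.Agent.Lib.MP_8cb858_nt.PF
open scoped Classical WithZero

namespace HAQM

theorem hyp (hLS : SpecLS) (hNF : SpecNF) (hFAH : SpecFAH) {F : Type} [Field F]
    [NumberField F] {M Q P : Finset (HeightOneSpectrum (𝓞 F))}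
    {a b : 𝓞 F} (hC : Cf M Q P a b)
    (v : HeightOneSpectrum (𝓞 F)) (hv : v ∈ Q) :
    PR.Hyp (M := Lk (lc v a) (lc v b)) InV (Ev (vv v)) Iso := by
  have h1 := hFAH.tw hC v (hC.qm v hv)
  exact hLS _ (vv v) (lc v a) (lc v b) (hNF.lf F v) h1.1 h1.2.1 (hFAH.int v a) (hFAH.int v b)
    ((hFAH.ne0 hC).2.2 v) (Or.inl (hFAH.t12 hC v hv))

end HAQM

theorem specHAQ (hHYP : PR.SpecHYP) (hLS : SpecLS) (hINV : SpecINV) (hNF : SpecNF)
    (hFAH : SpecFAH) : SpecHAQ := by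
  intro F _ _ M Q P a b hC v hv α β hα hβ
  have h := HAQM.hyp hLS hNF hFAH hC v hv
  have hα' : InV (ul v α) := hINV.upv _ α hα
  have hβ' : InV (ul v β) := hINV.upv _ β hβ
  obtain ⟨k1, k2, k3, k4, k5, k6⟩ := hHYP InV (Ev (vv v)) Iso h (fun γ hγ => hγ.1)
    (fun γ δ hγ hδ => hINV.mul γ δ hγ hδ) (ul v α) (ul v β) hα' hβ'
  have e : ul v (α * β) = ul v α * ul v β := map_mul _ _ _
  unfold ee ss
  rw [e]
  exact ⟨k1, k2, k3, k4, k5, k6⟩

end Pool.Agent.Lib.MP_8cb858_nt.PT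
end

section
/-!
# JNZ: the junk lemma over `ℚ` (`SpecJNK`)
-/
set_option autoImplicit false

namespace Pool.Agent.Lib.MP_8cb858_nt.PT

open Polynomial NumberField IsDedekindDomain Pool.Agent.Lib.MP_8cb858_nt.SEL
open Pool.Agent.Lib.MP_8cb858_nt.PF
open scoped Classical WithZero

namespace JNZM

theorem coe_int (a : ℤ) : (((a : ℤ) : 𝓞 ℚ) : ℚ) = (a : ℚ) := map_intCast (algebraMap (𝓞 ℚ) ℚ) a

theorem dsc_cast (a b : ℤ) : dsc (a : 𝓞 ℚ) (b : 𝓞 ℚ) = ((dz a b : ℤ) : 𝓞 ℚ) := by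
  unfold dsc dz
  push_cast
  ring

/-- a place over `p` -/
noncomputable def pl (h : SpecPLQ) (p : ℕ) : HeightOneSpectrum (𝓞 ℚ) :=
  if hp : p.Prime then (h.ex p hp).choose else (h.ex 2 Nat.prime_two).choose

theorem pl_mem (h : SpecPLQ) {p : ℕ} (hp : p.Prime) : (p : 𝓞 ℚ) ∈ (pl h p).asIdeal := by
  unfold pl
  rw [dif_pos hp]
  exact (h.ex p hp).choose_spec

theorem pl_eq (h : SpecPLQ) {p : ℕ} (hp : p.Prime) {v : HeightOneSpectrum (𝓞 ℚ)}
    (hv : (p : 𝓞 ℚ) ∈ v.asIdeal) : pl h p = v :=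
  h.uni p _ _ hp (pl_mem h hp) hv

theorem mem_one (h : SpecPLQ) {p : ℕ} (hp : p.Prime) {v : HeightOneSpectrum (𝓞 ℚ)}
    (hv : (p : 𝓞 ℚ) ∈ v.asIdeal) (n : ℤ) : (n : 𝓞 ℚ) ∈ v.asIdeal ↔ (p : ℤ) ∣ n := by
  have := h.mem p v n 1 hp hv
  rwa [pow_one, pow_one] at this

theorem mem_nat (h : SpecPLQ) {p : ℕ} (hp : p.Prime) {v : HeightOneSpectrum (𝓞 ℚ)}
    (hv : (p : 𝓞 ℚ) ∈ v.asIdeal) (n : ℕ) : (n : 𝓞 ℚ) ∈ v.asIdeal ↔ p ∣ n := by
  have := mem_one h hp hv (n : ℤ)
  rw [Int.cast_natCast] at this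
  rw [this, Int.natCast_dvd_natCast]

/-- the places dividing `K` -/
noncomputable def MK (h : SpecPLQ) (K : ℕ) : Finset (HeightOneSpectrum (𝓞 ℚ)) :=
  K.primeFactors.image (pl h)

theorem mem_MK (h : SpecPLQ) {K : ℕ} (hK : 0 < K) {p : ℕ} (hp : p.Prime)
    {v : HeightOneSpectrum (𝓞 ℚ)} (hv : (p : 𝓞 ℚ) ∈ v.asIdeal) : v ∈ MK h K ↔ p ∣ K := by
  unfold MK
  rw [Finset.mem_image]
  constructor
  · rintro ⟨q, hq, hqv⟩
    have hq' := Nat.prime_of_mem_primeFactors hq
    have h1 : (q : 𝓞 ℚ) ∈ v.asIdeal := hqv ▸ pl_mem h hq'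
    have h2 := (mem_nat h hp hv q).1 h1
    have h3 : p = q := (Nat.prime_dvd_prime_iff_eq hp hq').1 h2
    rw [h3]
    exact Nat.dvd_of_mem_primeFactors hq
  · intro h1
    exact ⟨p, Nat.mem_primeFactors.2 ⟨hp, h1, hK.ne'⟩, pl_eq h hp hv⟩

end JNZM

open JNZM in
theorem specJNK (hJNH : SpecJNH) (hPLQ : SpecPLQ) : SpecJNK := by
  intro K P J a b D1 D2 hK h6 hSf hd hP hJ hD1 hD2 hSq hU
  have key := hJNH ℚ (MK hPLQ K) (P.image (pl hPLQ)) (J.image (pl hPLQ)) (a : 𝓞 ℚ) (b : 𝓞 ℚ) D1 D2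
    (by rw [dsc_cast]; exact Int.cast_ne_zero.2 hd)
    (by
      intro v hv
      obtain ⟨p, hp, hpv⟩ := hPLQ.pr v
      rw [mem_MK hPLQ hK hp hpv]
      have h1 : ((6 : ℕ) : 𝓞 ℚ) ∈ v.asIdeal := by exact_mod_cast hv
      exact ((mem_nat hPLQ hp hpv 6).1 h1).trans h6)
    (by
      intro v hv
      obtain ⟨p, hp, hpv⟩ := hPLQ.pr v
      rw [mem_MK hPLQ hK hp hpv] at hv
      rw [dsc_cast, hPLQ.mem p v _ 2 hp hpv]
      exact hSf p hp hv)
    (by
      intro v hv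
      obtain ⟨p, hpP, rfl⟩ := Finset.mem_image.1 hv
      obtain ⟨hp, hpK, hY⟩ := hP p hpP
      have hpv := pl_mem hPLQ hp
      rw [mem_MK hPLQ hK hp hpv]
      exact ⟨hpK, (hPLQ.y3 p _ a b hp hpv).1 hY⟩)
    (by
      intro v hv
      obtain ⟨p, hpJ, rfl⟩ := Finset.mem_image.1 hv
      obtain ⟨hp, hpK, hpd, hD, hD', -⟩ := hJ p hpJ
      have hpv := pl_mem hPLQ hp
      rw [mem_MK hPLQ hK hp hpv, dsc_cast, mem_one hPLQ hp hpv]
      exact ⟨hpK, hpd, (hPLQ.nat p _ D1 hp hpv).2.1 ⟨hD, hD'⟩⟩)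
    hD1 hD2
    (by
      intro v hv
      obtain ⟨p, hp, hpv⟩ := hPLQ.pr v
      rw [mem_MK hPLQ hK hp hpv] at hv
      exact hSq v ((mem_nat hPLQ hp hpv K).2 hv))
    (by
      intro v hvM hvJ hvP
      obtain ⟨p, hp, hpv⟩ := hPLQ.pr v
      rw [mem_MK hPLQ hK hp hpv] at hvM
      have h1 : p ∉ J := fun h => hvJ (Finset.mem_image.2 ⟨p, h, pl_eq hPLQ hp hpv⟩)
      have h2 : p ∉ P := fun h => hvP (Finset.mem_image.2 ⟨p, h, pl_eq hPLQ hp hpv⟩)
      obtain ⟨h3, h4⟩ := hU p hp hvM h1 h2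
      exact ⟨(hPLQ.nat p v D1 hp hpv).1.1 h3, (hPLQ.nat p v D2 hp hpv).1.1 h4⟩)
  unfold cN at key
  rw [coe_int, coe_int] at key
  refine key.trans (Nat.mul_le_mul_right _ (Nat.pow_le_pow_right (by norm_num) ?_))
  exact Finset.card_image_le

end Pool.Agent.Lib.MP_8cb858_nt.PT
end

section
/-!
# KMD: the Kummer classes of a twist, at an arbitrary finite place
-/
namespace Pool.Agent.Lib.MP_8cb858_nt.PT

open Polynomial NumberField IsDedekindDomain Pool.Agent.Lib.MP_8cb858_nt.SEL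
open Pool.Agent.Lib.MP_8cb858_nt.PF
open scoped Classical WithZero

namespace KMDM

theorem int {K : Type} [Field K] (w : Valuation K ℤᵐ⁰) {a D : K} (ha : w a ≤ 1) (hD : w D ≤ 1)
    (n : ℕ) : w (a * D ^ n) ≤ 1 := by
  rw [map_mul, map_pow]
  exact mul_le_one' ha (pow_le_one' hD n)

theorem card {K : Type} [Field K] (a b D : K) (hD : D ≠ 0) :
    Nat.card {t : K // t ^ 3 + a * D ^ 2 * t + b * D ^ 3 = 0} =
      Nat.card {t : K // t ^ 3 + a * t + b = 0} := by
  refine Nat.card_congr ⟨fun t => ⟨t.1 / D, ?_⟩, fun t => ⟨t.1 * D, ?_⟩, fun t => ?_, fun t => ?_⟩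
  · have h := t.2
    have h2 : D ^ 3 * ((t.1 / D) ^ 3 + a * (t.1 / D) + b) =
        t.1 ^ 3 + a * D ^ 2 * t.1 + b * D ^ 3 := by
      field_simp
    rcases mul_eq_zero.1 (h2.trans h) with h3 | h3
    · exact absurd h3 (pow_ne_zero 3 hD)
    · exact h3
  · have h := t.2
    have h2 : (t.1 * D) ^ 3 + a * D ^ 2 * (t.1 * D) + b * D ^ 3 =
        D ^ 3 * (t.1 ^ 3 + a * t.1 + b) := by ring
    rw [h2, h, mul_zero]
  · apply Subtype.ext
    simp only
    field_simp
  · apply Subtype.ext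
    simp only
    field_simp

end KMDM

open KMDM in
theorem specKMD (hTWD : PF.SpecTWD) (hKML : PF.SpecKML) (hIX : PF.SpecIX) : SpecKMD := by
  constructor
  · intro K _ _ w a b D α β hL ha hb hd hw hD hα hβ hA hB
    obtain ⟨κ, h1, h2, -, -⟩ := hTWD.1 K a b D hD
    have hd' : dsc (a * D ^ 2) (b * D ^ 3) ≠ 0 := by
      rw [hTWD.2 K a b D]
      exact mul_ne_zero (pow_ne_zero 6 hD) hd
    rw [← h2, map_mul]
    exact hKML K w _ _ (κ α) (κ β) hL (int w ha hw 2) (int w hb hw 3) hd' ((h1 α).2 hα)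
      ((h1 β).2 hβ) ((h2 α).2 hA) ((h2 β).2 hB)
  · intro K _ _ w a b D hL ha hb hd hw hD
    obtain ⟨κ, h1, h2, -, -⟩ := hTWD.1 K a b D hD
    have hd' : dsc (a * D ^ 2) (b * D ^ 3) ≠ 0 := by
      rw [hTWD.2 K a b D]
      exact mul_ne_zero (pow_ne_zero 6 hD) hd
    obtain ⟨c, hc⟩ := hIX K w _ _ hL (int w ha hw 2) (int w hb hw 3) hd'
    have hcard := card a b D hD
    refine ⟨fun α => Fin.cast (by rw [hcard]) (c (κ α)), fun α β hα hβ h => ?_⟩
    have h' : c (κ α) = c (κ β) := by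
      have := congrArg Fin.val h
      simp only [Fin.val_cast] at this
      exact Fin.ext this
    rw [← h2, map_mul]
    exact hc (κ α) (κ β) ((h1 α).2 hα) ((h1 β).2 hβ) h'

end Pool.Agent.Lib.MP_8cb858_nt.PT
end

section
/-!
# Module SRT: three real embeddings of the cubic algebra
-/
namespace Pool.Agent.Lib.MP_8cb858_nt.PT

open Polynomial NumberField IsDedekindDomain Pool.Agent.Lib.MP_8cb858_nt.SEL
open Pool.Agent.Lib.MP_8cb858_nt.PF

namespace SRTM

/-- The critical point `s` of a real cubic with three real roots. -/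
theorem crit (A B : ℝ) (h : dsc A B < 0) :
    ∃ s : ℝ, 0 < s ∧ A = -3 * s ^ 2 ∧ B < 2 * s ^ 3 ∧ -(2 * s ^ 3) < B := by
  have h1 : 4 * A ^ 3 + 27 * B ^ 2 < 0 := h
  have hA : A < 0 := by
    by_contra hA
    have h2 : 0 ≤ A := not_lt.mp hA
    have h3 : 0 ≤ A ^ 3 := by positivity
    nlinarith [sq_nonneg B]
  have hs0 : 0 < -A / 3 := by linarith
  have hs : 0 < Real.sqrt (-A / 3) := Real.sqrt_pos.mpr hs0
  have hs2 : Real.sqrt (-A / 3) ^ 2 = -A / 3 := Real.sq_sqrt hs0.le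
  generalize Real.sqrt (-A / 3) = s at hs hs2
  have hA3 : A = -3 * s ^ 2 := by rw [hs2]; ring
  have h3 : B ^ 2 < (2 * s ^ 3) ^ 2 := by
    rw [hA3] at h1
    nlinarith
  have h4 := abs_lt_of_sq_lt_sq' h3 (by positivity)
  exact ⟨s, hs, hA3, h4.2, h4.1⟩

/-- Intermediate value theorem for the cubic. -/
theorem ivt (A B x y : ℝ) (hxy : x < y) (hf : (x ^ 3 + A * x + B) * (y ^ 3 + A * y + B) < 0) :
    ∃ t : ℝ, x < t ∧ t < y ∧ t ^ 3 + A * t + B = 0 := by
  have hc : ContinuousOn (fun t : ℝ => t ^ 3 + A * t + B) (Set.Icc x y) := by fun_prop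
  rcases mul_neg_iff.mp hf with ⟨h1, h2⟩ | ⟨h1, h2⟩
  · obtain ⟨t, ht, hft⟩ := intermediate_value_Ioo' hxy.le hc (show (0 : ℝ) ∈ Set.Ioo
      ((fun t : ℝ => t ^ 3 + A * t + B) y) ((fun t : ℝ => t ^ 3 + A * t + B) x) from ⟨h2, h1⟩)
    exact ⟨t, ht.1, ht.2, hft⟩
  · obtain ⟨t, ht, hft⟩ := intermediate_value_Ioo hxy.le hc (show (0 : ℝ) ∈ Set.Ioo
      ((fun t : ℝ => t ^ 3 + A * t + B) x) ((fun t : ℝ => t ^ 3 + A * t + B) y) from ⟨h1, h2⟩)
    exact ⟨t, ht.1, ht.2, hft⟩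

/-- The three roots. -/
theorem three (A B : ℝ) (h : dsc A B < 0) : ∃ (s : ℝ) (t : Fin 3 → ℝ), 0 < s ∧ A = -3 * s ^ 2 ∧
    (∀ i, t i ^ 3 + A * t i + B = 0) ∧ -(2 * s) < t 0 ∧ t 0 < -s ∧ -s < t 1 ∧ t 1 < s ∧
    s < t 2 := by
  obtain ⟨s, hs, hA, hB1, hB2⟩ := crit A B h
  have e1 : (-(2 * s)) ^ 3 + A * (-(2 * s)) + B = B - 2 * s ^ 3 := by rw [hA]; ring
  have e2 : (-s) ^ 3 + A * (-s) + B = B + 2 * s ^ 3 := by rw [hA]; ring
  have e3 : s ^ 3 + A * s + B = B - 2 * s ^ 3 := by rw [hA]; ring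
  have e4 : (2 * s) ^ 3 + A * (2 * s) + B = B + 2 * s ^ 3 := by rw [hA]; ring
  have n1 : B - 2 * s ^ 3 < 0 := by linarith
  have n2 : 0 < B + 2 * s ^ 3 := by linarith
  obtain ⟨t1, a1, b1, c1⟩ := ivt A B (-(2 * s)) (-s) (by linarith)
    (by rw [e1, e2]; exact mul_neg_of_neg_of_pos n1 n2)
  obtain ⟨t2, a2, b2, c2⟩ := ivt A B (-s) s (by linarith)
    (by rw [e2, e3]; exact mul_neg_of_pos_of_neg n2 n1)
  obtain ⟨t3, a3, b3, c3⟩ := ivt A B s (2 * s) (by linarith)
    (by rw [e3, e4]; exact mul_neg_of_neg_of_pos n1 n2)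
  refine ⟨s, ![t1, t2, t3], hs, hA, ?_, a1, b1, a2, b2, a3⟩
  intro i
  fin_cases i
  · exact c1
  · exact c2
  · exact c3

end SRTM

theorem specSRT : SpecSRT := by
  intro F _ a b φ h
  have h' : dsc (φ a) (φ b) < 0 := by
    have : dsc (φ a) (φ b) = φ (dsc a b) := by
      unfold dsc
      simp only [map_add, map_mul, map_pow, map_ofNat]
    rw [this]
    exact h
  obtain ⟨s, t, hs, -, ht, h0, h1, h2, h3, h4⟩ := SRTM.three _ _ h'
  have hinj : Function.Injective t := by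
    intro i j hij
    fin_cases i <;> fin_cases j
    all_goals first
      | rfl
      | (exfalso
         have e0 : t 0 < t 1 := by linarith
         have e1 : t 1 < t 2 := by linarith
         change t _ = t _ at hij
         simp only [Fin.zero_eta, Fin.mk_one, Fin.reduceFinMk] at hij
         linarith)
  refine ⟨fun i => AdjoinRoot.lift φ (t i) (by rw [eval₂_fpol]; exact ht i), ?_, ?_⟩
  · intro i j hij
    apply hinj
    have h5 := congrArg (fun ψ : Lk a b →+* ℝ => ψ (AdjoinRoot.root (fpol a b))) hij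
    simpa only [AdjoinRoot.lift_root] using h5
  · intro i x
    exact AdjoinRoot.lift_of _

end Pool.Agent.Lib.MP_8cb858_nt.PT
end

section
/-!
# Module LIT: the infinite places, without any sign condition
-/
namespace Pool.Agent.Lib.MP_8cb858_nt.PT

open Polynomial NumberField IsDedekindDomain Pool.Agent.Lib.MP_8cb858_nt.SEL
open Pool.Agent.Lib.MP_8cb858_nt.PF
open scoped Classical WithZero

namespace LITM

/-! ## One real root -/

/-- Elements of positive norm are squares if `4 a^3 + 27 b^2 > 0`. -/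
theorem sq_of_pos (hTOC : SpecTOC) (hTOI : SpecTOI) (a b : ℝ) (β : Lk a b) (hd : 0 < dsc a b)
    (hN : 0 < Algebra.norm ℝ β) : IsSquare β := by
  obtain ⟨t, ht⟩ := SRRM.root a b
  have h2 : (2 : ℝ) ≠ 0 := two_ne_zero
  have hid : dq a t * (3 * t ^ 2 + a) ^ 2 = - dsc a b := by
    have hb : b = -(t ^ 3 + a * t) := by linear_combination ht
    rw [hb]
    unfold dq dsc
    ring
  have hf : 3 * t ^ 2 + a ≠ 0 := by
    intro h
    rw [h] at hid
    linarith
  have hd' : dq a t < 0 := by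
    by_contra h
    have h3 : 0 ≤ dq a t * (3 * t ^ 2 + a) ^ 2 := mul_nonneg (not_lt.mp h) (sq_nonneg _)
    linarith
  obtain ⟨r, z, w, hco⟩ := hTOC.all (a := a) (b := b) t β h2
  have hn := hTOC.nrm h2 ht hco
  rw [hn] at hN
  have hnn : 0 ≤ z ^ 2 - dq a t * w ^ 2 := by nlinarith [sq_nonneg z, sq_nonneg w]
  have ha : 0 < r := by
    by_contra h
    have : r * (z ^ 2 - dq a t * w ^ 2) ≤ 0 :=
      mul_nonpos_of_nonpos_of_nonneg (not_lt.mp h) hnn
    linarith
  rw [(hTOI ℝ a b t β r z w h2 ht hf hco).1]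
  exact ⟨⟨Real.sqrt r, (Real.mul_self_sqrt ha.le).symm⟩, LIRM.pos_root hd'⟩

/-- The cubic takes a positive value. -/
theorem pos_val (A B : ℝ) : ∃ x : ℝ, 0 < x ^ 3 + A * x + B := by
  refine ⟨1 + |A| + |B|, ?_⟩
  have hA1 := neg_abs_le A
  have hB1 := neg_abs_le B
  have hA0 := abs_nonneg A
  have hB0 := abs_nonneg B
  obtain ⟨M, hM⟩ : ∃ M : ℝ, M = 1 + |A| + |B| := ⟨_, rfl⟩
  rw [← hM]
  have hM1 : 1 ≤ M := by linarith
  have hM0 : 0 < M := by linarith
  have h6 : -(|A| * M) ≤ A * M := by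
    have := mul_le_mul_of_nonneg_right hA1 hM0.le
    linarith
  have h7 : |B| ≤ |B| * M := le_mul_of_one_le_right hB0 hM1
  have h8 : M ^ 3 - (|A| * M + |B| * M) = M * (M * (M - 1) + 1) := by
    have : |A| + |B| = M - 1 := by linarith
    have h9 : |A| * M + |B| * M = (M - 1) * M := by rw [← this]; ring
    rw [h9]
    ring
  have h9 : 0 < M * (M * (M - 1) + 1) := by
    have : 0 ≤ M * (M - 1) := mul_nonneg hM0.le (by linarith)
    positivity
  linarith

/-- All classes are Kummer classes if `4 a^3 + 27 b^2 > 0`. -/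
theorem aff_pos (hTOC : SpecTOC) (hTOI : SpecTOI) (hNRM : SpecNRM) (a b : ℝ) (hd : 0 < dsc a b)
    (α : Lk a b) (hα : InV α) : Aff 1 α := by
  obtain ⟨r, hr⟩ := hα.2
  have hr0 : Algebra.norm ℝ α ≠ 0 := ((hNRM.unt α).mp hα.1).ne_zero
  have hp : 0 < Algebra.norm ℝ α := by
    refine lt_of_le_of_ne ?_ (Ne.symm hr0)
    rw [hr]
    exact mul_self_nonneg r
  obtain ⟨x, hx⟩ := pos_val a b
  refine ⟨x, Real.sqrt (x ^ 3 + a * x + b), (Real.sqrt_pos.mpr hx).ne', ?_, ?_⟩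
  · rw [one_mul]
    exact Real.sq_sqrt hx.le
  · refine sq_of_pos hTOC hTOI a b _ hd ?_
    rw [map_mul, hNRM.lin]
    have h1 : (1 : ℝ) ^ 3 * (x ^ 3 + a * x + b) = x ^ 3 + a * x + b := by ring
    rw [h1]
    positivity

/-! ## Three real roots -/

/-- The least root. -/
theorem least (a b : ℝ) (hd : dsc a b < 0) :
    ∃ t e : ℝ, t ^ 3 + a * t + b = 0 ∧ 0 < e ∧ e ^ 2 = dq a t ∧ 3 * t < -e := by
  obtain ⟨s, t, hs, hA, ht, h0, h1, -, -, -⟩ := SRTM.three a b hd
  have h2 : s ^ 2 < t 0 ^ 2 := by nlinarith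
  have h3 : t 0 ^ 2 < 4 * s ^ 2 := by nlinarith
  have hdq : dq a (t 0) = 12 * s ^ 2 - 3 * t 0 ^ 2 := by
    unfold dq
    rw [hA]
    ring
  have h4 : 0 < dq a (t 0) := by rw [hdq]; linarith
  have h5 : dq a (t 0) < (3 * s) ^ 2 := by rw [hdq]; nlinarith
  refine ⟨t 0, Real.sqrt (dq a (t 0)), ht 0, Real.sqrt_pos.mpr h4, Real.sq_sqrt h4.le, ?_⟩
  have h6 : Real.sqrt (dq a (t 0)) < 3 * s := (Real.sqrt_lt' (by positivity)).mpr h5
  linarith

/-- Squares in coordinates. -/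
theorem sqc (hTOI : SpecTOI) (a b t e : ℝ) (ht : t ^ 3 + a * t + b = 0) (he : 0 < e)
    (hed : e ^ 2 = dq a t) (hf : 3 * t ^ 2 + a ≠ 0) (β : Lk a b) (r z s : ℝ)
    (hco : Co t β r z s) :
    IsSquare β ↔ 0 ≤ r ∧ 0 ≤ z + e * s ∧ 0 ≤ z - e * s := by
  rw [(hTOI ℝ a b t β r z s two_ne_zero ht hf hco).1, ← hed]
  constructor
  · rintro ⟨⟨p, hp⟩, x, y, hz, hs⟩
    refine ⟨by rw [hp]; exact mul_self_nonneg p, ?_, ?_⟩
    · have : z + e * s = (x + e * y) ^ 2 := by rw [hz, hs]; ring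
      rw [this]
      exact sq_nonneg _
    · have : z - e * s = (x - e * y) ^ 2 := by rw [hz, hs]; ring
      rw [this]
      exact sq_nonneg _
  · rintro ⟨h1, h2, h3⟩
    refine ⟨⟨Real.sqrt r, (Real.mul_self_sqrt h1).symm⟩, ?_⟩
    have hp := Real.sq_sqrt h2
    have hq := Real.sq_sqrt h3
    generalize Real.sqrt (z + e * s) = p at hp
    generalize Real.sqrt (z - e * s) = q at hq
    refine ⟨(p + q) / 2, (p - q) / (2 * e), ?_, ?_⟩
    · field_simp
      linear_combination -2 * hp - 2 * hq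
    · field_simp
      linear_combination - hp + hq

/-- The Kummer classes for a cubic with three real roots. -/
theorem aff_neg (hTOC : SpecTOC) (hTOI : SpecTOI) (a b : ℝ) (hd : dsc a b < 0) :
    ∃ t : ℝ, t ^ 3 + a * t + b = 0 ∧
      ∀ α : Lk a b, InV α → (Aff 1 α ↔ 0 < ev (RingHom.id ℝ) t α) := by
  obtain ⟨t, e, ht, he, hed, h3t⟩ := least a b hd
  have h2 : (2 : ℝ) ≠ 0 := two_ne_zero
  have hid : dq a t * (3 * t ^ 2 + a) ^ 2 = - dsc a b := by
    have hb : b = -(t ^ 3 + a * t) := by linear_combination ht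
    rw [hb]
    unfold dq dsc
    ring
  have hf : 3 * t ^ 2 + a ≠ 0 := by
    intro h
    rw [h] at hid
    linarith
  have hfx : ∀ x : ℝ, x ^ 3 + a * x + b = (x - t) * ((2 * x + t - e) * (2 * x + t + e)) / 4 := by
    intro x
    have hb : b = -(t ^ 3 + a * t) := by linear_combination ht
    have hee : e ^ 2 = -3 * t ^ 2 - 4 * a := hed
    rw [hb]
    linear_combination ((x - t) / 4) * hee
  refine ⟨t, ht, fun α hα => ?_⟩
  obtain ⟨r, z, s, hco⟩ := hTOC.all (a := a) (b := b) t α h2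
  rw [hTOC.evv hco]
  obtain ⟨hr0, hn0⟩ := (hTOC.unt h2 ht hco).mp hα.1
  have hprod : ∀ x : ℝ, Co t (α * (AdjoinRoot.of (fpol a b) 1 * (AdjoinRoot.of _ x - th a b)))
      (r * (1 * (x - t))) (z * (1 * (x + t / 2)) + dq a t * (s * (-1 / 2)))
      (z * (-1 / 2) + s * (1 * (x + t / 2))) := fun x =>
    hTOC.mul h2 ht hco (hTOC.pnt t 1 x h2)
  have hsqx : ∀ x : ℝ, IsSquare (α * (AdjoinRoot.of (fpol a b) 1 * (AdjoinRoot.of _ x - th a b))) ↔
      0 ≤ r * (x - t) ∧ 0 ≤ (z + e * s) * (2 * x + t - e) ∧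
        0 ≤ (z - e * s) * (2 * x + t + e) := by
    intro x
    rw [sqc hTOI a b t e ht he hed hf _ _ _ _ (hprod x), ← hed]
    have e1 : z * (1 * (x + t / 2)) + e ^ 2 * (s * (-1 / 2)) +
        e * (z * (-1 / 2) + s * (1 * (x + t / 2))) = (z + e * s) * (2 * x + t - e) / 2 := by ring
    have e2 : z * (1 * (x + t / 2)) + e ^ 2 * (s * (-1 / 2)) -
        e * (z * (-1 / 2) + s * (1 * (x + t / 2))) = (z - e * s) * (2 * x + t + e) / 2 := by ring
    rw [e1, e2, one_mul]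
    constructor
    · rintro ⟨g1, g2, g3⟩
      exact ⟨g1, by linarith, by linarith⟩
    · rintro ⟨g1, g2, g3⟩
      exact ⟨g1, by linarith, by linarith⟩
  constructor
  · rintro ⟨x, y, hy, hyx, hsq⟩
    obtain ⟨g1, -, -⟩ := (hsqx x).mp hsq
    have hpos : 0 < x ^ 3 + a * x + b := by
      have : 0 < y ^ 2 := by positivity
      rw [hyx, one_mul] at this
      exact this
    have hxt : 0 < x - t := by
      by_contra h
      have h5 : x ≤ t := by linarith
      have h6 : 0 < (2 * x + t - e) * (2 * x + t + e) :=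
        mul_pos_of_neg_of_neg (by linarith) (by linarith)
      have h7 : (x - t) * ((2 * x + t - e) * (2 * x + t + e)) ≤ 0 :=
        mul_nonpos_of_nonpos_of_nonneg (by linarith) h6.le
      rw [hfx x] at hpos
      linarith
    have h8 : 0 ≤ r := by
      by_contra h
      have : r * (x - t) < 0 := mul_neg_of_neg_of_pos (not_le.mp h) hxt
      linarith
    exact lt_of_le_of_ne h8 (Ne.symm hr0)
  · intro hr
    have hnrm : 0 < (z + e * s) * (z - e * s) := by
      have h5 := hTOC.nrm h2 ht hco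
      obtain ⟨p, hp⟩ := hα.2
      have h6 : 0 ≤ r * (z ^ 2 - dq a t * s ^ 2) := by
        rw [← h5, hp]
        exact mul_self_nonneg p
      have h7 : 0 ≤ z ^ 2 - dq a t * s ^ 2 := by
        by_contra h
        have := mul_neg_of_pos_of_neg hr (not_le.mp h)
        linarith
      have h8 : 0 < z ^ 2 - dq a t * s ^ 2 := lt_of_le_of_ne h7 (Ne.symm hn0)
      rw [← hed] at h8
      nlinarith
    have fin : ∀ x : ℝ, 0 < x - t → 0 < (2 * x + t - e) * (2 * x + t + e) →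
        0 ≤ (z + e * s) * (2 * x + t - e) → 0 ≤ (z - e * s) * (2 * x + t + e) → Aff 1 α := by
      intro x g1 g2 g3 g4
      have hpos : 0 < x ^ 3 + a * x + b := by
        rw [hfx x]
        have := mul_pos g1 g2
        linarith
      refine ⟨x, Real.sqrt (x ^ 3 + a * x + b), (Real.sqrt_pos.mpr hpos).ne', ?_, ?_⟩
      · rw [one_mul]
        exact Real.sq_sqrt hpos.le
      · exact (hsqx x).mpr ⟨(mul_pos hr g1).le, g3, g4⟩
    rcases mul_pos_iff.mp hnrm with ⟨h5, h6⟩ | ⟨h5, h6⟩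
    · refine fin ((e - t) / 2 + 1) (by linarith) ?_ ?_ ?_
      · exact mul_pos (by linarith) (by linarith)
      · exact (mul_pos h5 (by linarith)).le
      · exact (mul_pos h6 (by linarith)).le
    · refine fin ((t - e) / 4) (by linarith) ?_ ?_ ?_
      · exact mul_pos_of_neg_of_neg (by linarith) (by linarith)
      · exact (mul_pos_of_neg_of_neg h5 (by linarith)).le
      · exact (mul_pos_of_neg_of_neg h6 (by linarith)).le

/-! ## The completions -/

theorem pos_mul_iff {x y : ℝ} (hx : x ≠ 0) (hy : y ≠ 0) : 0 < x * y ↔ (0 < x ↔ 0 < y) := by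
  rcases lt_or_gt_of_ne hx with h1 | h1 <;> rcases lt_or_gt_of_ne hy with h2 | h2
  · exact iff_of_true (mul_pos_of_neg_of_neg h1 h2) (iff_of_false (by linarith) (by linarith))
  · exact iff_of_false (by have := mul_neg_of_neg_of_pos h1 h2; linarith)
      (fun h => by have := h.mpr h2; linarith)
  · exact iff_of_false (by have := mul_neg_of_pos_of_neg h1 h2; linarith)
      (fun h => by have := h.mp h1; linarith)
  · exact iff_of_true (mul_pos h1 h2) (iff_of_true h1 h2)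

/-- A predicate describing the Kummer classes. -/
theorem main (hTOC : SpecTOC) (hTOI : SpecTOI) (hNRM : SpecNRM) (hEVA : SpecEVA)
    (hLIC : PF.SpecLIC) (hLIT : PF.SpecLIT) (F : Type) [Field F] [NumberField F]
    (v : InfinitePlace F) (a b : F) (hd : dsc a b ≠ 0) :
    ∃ P : Lk (algebraMap F v.Completion a) (algebraMap F v.Completion b) → Prop,
      (∀ α, InV α → (Aff 1 α ↔ P α)) ∧
      (∀ α β, InV α → InV β → (P (α * β) ↔ (P α ↔ P β))) ∧
      (∀ α, InV α → IsSquare α → P α) ∧ (¬ Thr v a b → ∀ α, P α) := by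
  have triv : (∀ α : Lk (algebraMap F v.Completion a) (algebraMap F v.Completion b),
      InV α → Aff 1 α) → ∃ P : Lk (algebraMap F v.Completion a) (algebraMap F v.Completion b) →
        Prop, (∀ α, InV α → (Aff 1 α ↔ P α)) ∧
      (∀ α β, InV α → InV β → (P (α * β) ↔ (P α ↔ P β))) ∧
      (∀ α, InV α → IsSquare α → P α) ∧ (¬ Thr v a b → ∀ α, P α) := by
    intro h
    exact ⟨fun _ => True, fun α hα => iff_of_true (h α hα) trivial, fun α β _ _ => by simp,
      fun α _ _ => trivial, fun _ _ => trivial⟩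
  rcases v.isReal_or_isComplex with hv | hv
  · obtain ⟨φ, hφ⟩ : ∃ φ : v.Completion ≃+* ℝ, ∀ x : F,
        (φ : v.Completion →+* ℝ) (algebraMap F v.Completion x) = (v.embedding x).re :=
      ⟨NumberField.InfinitePlace.Completion.ringEquivRealOfIsReal hv, fun x =>
        LIFM.real_val hv x⟩
    have hdsc : dsc ((φ : v.Completion →+* ℝ) (algebraMap F v.Completion a))
        ((φ : v.Completion →+* ℝ) (algebraMap F v.Completion b)) =
        (v.embedding (dsc a b)).re := by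
      rw [← hφ]
      unfold dsc
      simp only [map_add, map_mul, map_pow, map_ofNat]
    have hne : (v.embedding (dsc a b)).re ≠ 0 := by
      rw [← hφ]
      exact (_root_.map_ne_zero _).mpr ((_root_.map_ne_zero _).mpr hd)
    by_cases hT : (v.embedding (dsc a b)).re < 0
    · rw [← hdsc] at hT
      obtain ⟨t, ht, hP⟩ := aff_neg hTOC hTOI _ _ hT
      refine ⟨fun α => 0 < ev (RingHom.id ℝ) t (upr (φ : v.Completion →+* ℝ)
        (algebraMap F v.Completion a) (algebraMap F v.Completion b) α), ?_, ?_, ?_, ?_⟩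
      · intro α hα
        obtain ⟨h1, h2, h3, h4⟩ := hLIT v.Completion ℝ φ (algebraMap F v.Completion a)
          (algebraMap F v.Completion b) 1 α
        rw [map_one] at h3
        exact h3.symm.trans (hP _ (h1.mpr hα))
      · intro α β hα hβ
        show 0 < ev (RingHom.id ℝ) t (upr (φ : v.Completion →+* ℝ) _ _ (α * β)) ↔ _
        rw [map_mul, hEVA.mul (RingHom.id ℝ) t _ _ (by simpa using ht)]
        have hu : ∀ γ : Lk (algebraMap F v.Completion a) (algebraMap F v.Completion b), InV γ →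
            ev (RingHom.id ℝ) t (upr (φ : v.Completion →+* ℝ)
              (algebraMap F v.Completion a) (algebraMap F v.Completion b) γ) ≠ 0 := by
          intro γ hγ
          exact (hEVA.unit (RingHom.id ℝ) t _ (by simpa using ht) (hγ.1.map _)).ne_zero
        exact pos_mul_iff (hu α hα) (hu β hβ)
      · rintro α hα ⟨γ, hγ⟩
        have hu := (hEVA.unit (RingHom.id ℝ) t (upr (φ : v.Completion →+* ℝ)
              (algebraMap F v.Completion a) (algebraMap F v.Completion b) α)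
              (by simpa using ht) (hα.1.map _)).ne_zero
        refine lt_of_le_of_ne ?_ (Ne.symm hu)
        rw [hγ, map_mul, hEVA.mul (RingHom.id ℝ) t _ _ (by simpa using ht)]
        exact mul_self_nonneg _
      · intro hnT
        exact absurd ⟨hv, by rw [← hdsc]; exact hT⟩ hnT
    · apply triv
      intro α hα
      have hpos : 0 < dsc ((φ : v.Completion →+* ℝ) (algebraMap F v.Completion a))
          ((φ : v.Completion →+* ℝ) (algebraMap F v.Completion b)) := by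
        rw [hdsc]
        exact lt_of_le_of_ne (not_lt.mp hT) (Ne.symm hne)
      obtain ⟨h1, h2, h3, h4⟩ := hLIT v.Completion ℝ φ (algebraMap F v.Completion a)
        (algebraMap F v.Completion b) 1 α
      rw [← h3, map_one]
      exact aff_pos hTOC hTOI hNRM _ _ hpos _ (h1.mpr hα)
  · apply triv
    intro α hα
    obtain ⟨h1, h2, h3, h4⟩ := hLIT v.Completion ℂ
      (NumberField.InfinitePlace.Completion.ringEquivComplexOfIsComplex hv)
      (algebraMap F v.Completion a) (algebraMap F v.Completion b) 1 α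
    have key := hLIC _ _ 1 _ (by
        have h5 : dsc ((NumberField.InfinitePlace.Completion.ringEquivComplexOfIsComplex hv :
            v.Completion →+* ℂ) (algebraMap F v.Completion a))
            ((NumberField.InfinitePlace.Completion.ringEquivComplexOfIsComplex hv :
              v.Completion →+* ℂ) (algebraMap F v.Completion b)) =
            (NumberField.InfinitePlace.Completion.ringEquivComplexOfIsComplex hv :
              v.Completion →+* ℂ) (algebraMap F v.Completion (dsc a b)) := by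
          unfold dsc
          simp only [map_add, map_mul, map_pow, map_ofNat]
        rw [h5]
        exact (_root_.map_ne_zero _).mpr ((_root_.map_ne_zero _).mpr hd)) one_ne_zero (h1.mpr hα)
    rw [← h3, map_one]
    exact key.2.1

/-- Natural numbers are squares at the infinite places. -/
theorem nat_sq (F : Type) [Field F] [NumberField F] (v : InfinitePlace F) (D : ℕ) :
    IsSquare (D : v.Completion) := by
  rcases v.isReal_or_isComplex with hv | hv
  · refine ⟨(NumberField.InfinitePlace.Completion.ringEquivRealOfIsReal hv).symm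
      (Real.sqrt D), ?_⟩
    rw [← map_mul, Real.mul_self_sqrt (Nat.cast_nonneg D), map_natCast]
  · obtain ⟨x, hx⟩ := LICM.csq (D : ℂ)
    refine ⟨(NumberField.InfinitePlace.Completion.ringEquivComplexOfIsComplex hv).symm x, ?_⟩
    rw [← map_mul, ← sq, hx, map_natCast]

end LITM

open LITM in
theorem specLIT (hTOC : SpecTOC) (hTOI : SpecTOI) (hNRM : SpecNRM) (hEVA : SpecEVA)
    (hINV : SpecINV) (hAFI : SpecAFI) (hLIC : PF.SpecLIC) (hLIT : PF.SpecLIT) : SpecLIT where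
  grp := by
    intro F _ _ v a b α β hd hα hβ h1 h2
    obtain ⟨P, hP1, hP2, hP3, hP4⟩ := main hTOC hTOI hNRM hEVA hLIC hLIT F v a b hd
    rw [hP1 _ (hINV.mul α β hα hβ), hP2 α β hα hβ]
    exact iff_of_true ((hP1 α hα).mp h1) ((hP1 β hβ).mp h2)
  sqa := by
    intro F _ _ v a b α hd hα hs
    obtain ⟨P, hP1, hP2, hP3, hP4⟩ := main hTOC hTOI hNRM hEVA hLIC hLIT F v a b hd
    rw [hP1 α hα]
    exact hP3 α hα hs
  col := by
    intro F _ _ v a b hd
    obtain ⟨P, hP1, hP2, hP3, hP4⟩ := main hTOC hTOI hNRM hEVA hLIC hLIT F v a b hd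
    refine ⟨fun α => ⟨if P α then 0 else 1, ?_⟩, ?_⟩
    · by_cases hT : Thr v a b
      · rw [if_pos hT]
        split_ifs <;> norm_num
      · rw [if_neg hT, if_pos (hP4 hT α)]
        norm_num
    · intro α β hα hβ h
      rw [hP1 _ (hINV.mul α β hα hβ), hP2 α β hα hβ]
      have h1 := congrArg Fin.val h
      simp only at h1
      by_cases g1 : P α <;> by_cases g2 : P β
      · exact iff_of_true g1 g2
      · rw [if_pos g1, if_neg g2] at h1
        omega
      · rw [if_neg g1, if_pos g2] at h1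
        omega
      · exact iff_of_false g1 g2
  nat := by
    intro F _ _ v a b D α hD
    have hD0 : (D : v.Completion) ≠ 0 := by
      exact_mod_cast hD.ne'
    exact hAFI.dd (D : v.Completion) 1 α hD0 one_ne_zero (by rw [mul_one]; exact nat_sq F v D)

end Pool.Agent.Lib.MP_8cb858_nt.PT
end
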