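import Pool.Agent.Lib.MP_8cb858_nt.ZER.SpecG
import Pool.Agent.Lib.MP_8cb858_nt.PF.SpecF
import Pool.Agent.Lib.MP_8cb858_nt.PT.SpecF

section
/-!
# OMA (sharp form) and OMB

Pairs `(A, B)` of ternary forms over a finite field with a given characteristic polynomial, and
their common zeros.
-/
namespace Pool.Agent.Lib.MP_8cb858_nt.ZER

open NumberField IsDedekindDomain Pool.Agent.Lib.MP_8cb858_nt.SEL
open scoped Classical

universe u

namespace OMBM

open Matrix

section basics

variable {k : Type u} [Field k]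

/-- The normalized form. -/
def A0 (e : k) : Matrix (Fin 3) (Fin 3) k := !![0, 0, 1; 0, e, 0; 1, 0, 0]

/-- A symmetric matrix by its entries. -/
def Sy (p q r s t w : k) : Matrix (Fin 3) (Fin 3) k := !![p, q, r; q, s, t; r, t, w]

/-- The value of the quadratic form. -/
def q3 (A : Matrix (Fin 3) (Fin 3) k) (x : Fin 3 → k) : k := x ⬝ᵥ A.mulVec x

theorem q3_tr (A g : Matrix (Fin 3) (Fin 3) k) (x : Fin 3 → k) :
    q3 (g.transpose * A * g) x = q3 A (g.mulVec x) := by
  unfold q3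
  rw [← Matrix.mulVec_mulVec, ← Matrix.mulVec_mulVec, Matrix.dotProduct_mulVec,
    Matrix.vecMul_transpose]

theorem sy_of (B : Matrix (Fin 3) (Fin 3) k) (hB : B.IsSymm) :
    B = Sy (B 0 0) (B 0 1) (B 0 2) (B 1 1) (B 1 2) (B 2 2) := by
  ext i j
  fin_cases i <;> fin_cases j <;> simp [Sy]
  · exact hB.apply 0 1
  · exact hB.apply 0 2
  · exact hB.apply 1 2

theorem chr_tr (A B g : Matrix (Fin 3) (Fin 3) k) (a b : k) (hg : g.det ≠ 0) :
    Chr (g.transpose * A * g) (g.transpose * B * g) a b ↔ Chr A B a b := by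
  have key : ∀ P Q : Matrix (Fin 3) (Fin 3) k,
      ((g.transpose * P * g).adjugate * (g.transpose * Q * g)).trace =
        g.det ^ 2 * (P.adjugate * Q).trace := by
    intro P Q
    rw [Matrix.adjugate_mul_distrib, Matrix.adjugate_mul_distrib]
    have h1 : g.adjugate * (P.adjugate * g.transpose.adjugate) * (g.transpose * Q * g) =
        g.adjugate * (P.adjugate * ((g.transpose.adjugate * g.transpose) * Q)) * g := by
      simp only [Matrix.mul_assoc]
    rw [h1, Matrix.adjugate_mul, Matrix.det_transpose, Matrix.trace_mul_cycle,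
      Matrix.mul_adjugate]
    simp only [Matrix.smul_mul, Matrix.mul_smul, Matrix.one_mul, Matrix.trace_smul, smul_eq_mul]
    ring
  have hg2 : g.det ^ 2 ≠ 0 := pow_ne_zero 2 hg
  have hdA : (g.transpose * A * g).det = g.det ^ 2 * A.det := by
    rw [Matrix.det_mul, Matrix.det_mul, Matrix.det_transpose]; ring
  have hdB : (g.transpose * B * g).det = g.det ^ 2 * B.det := by
    rw [Matrix.det_mul, Matrix.det_mul, Matrix.det_transpose]; ring
  unfold Chr
  rw [key, key, hdA, hdB]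
  constructor
  · rintro ⟨h1, h2, h3⟩
    refine ⟨?_, ?_, ?_⟩
    · exact (mul_eq_zero.mp h1).resolve_left hg2
    · apply mul_left_cancel₀ hg2; linear_combination h2
    · apply mul_left_cancel₀ hg2; linear_combination h3
  · rintro ⟨h1, h2, h3⟩
    refine ⟨?_, ?_, ?_⟩
    · rw [h1, mul_zero]
    · rw [h2]; ring
    · linear_combination (g.det ^ 2) * h3

theorem chr_A0 (e a b p q r s t w : k) :
    Chr (A0 e) (Sy p q r s t w) a b ↔
      (s = -(2 * e * r) ∧ 2 * (q * t - s * r) + e * (p * w - r ^ 2) = -(e * a) ∧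
        p * (s * w - t ^ 2) - q * (q * w - t * r) + r * (q * t - s * r) = e * b) := by
  have h1 : ((A0 e).adjugate * Sy p q r s t w).trace = -(2 * e * r) - s := by
    simp [A0, Sy, Matrix.adjugate_fin_three, Matrix.trace_fin_three, Matrix.mul_apply,
      Fin.sum_univ_three]
    ring
  have h2 : ((Sy p q r s t w).adjugate * A0 e).trace =
      2 * (q * t - s * r) + e * (p * w - r ^ 2) := by
    simp [A0, Sy, Matrix.adjugate_fin_three, Matrix.trace_fin_three, Matrix.mul_apply,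
      Fin.sum_univ_three]
    ring
  have h3 : (A0 e).det = -e := by
    simp [A0, Matrix.det_fin_three]
  have h4 : (Sy p q r s t w).det =
      p * (s * w - t ^ 2) - q * (q * w - t * r) + r * (q * t - s * r) := by
    simp [Sy, Matrix.det_fin_three]
    ring
  unfold Chr
  rw [h1, h2, h3, h4]
  constructor
  · rintro ⟨h1, h2, h3⟩
    refine ⟨?_, ?_, ?_⟩
    · linear_combination -h1
    · linear_combination h2
    · linear_combination -h3
  · rintro ⟨h1, h2, h3⟩
    refine ⟨?_, ?_, ?_⟩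
    · linear_combination -h1
    · linear_combination h2
    · linear_combination -h3

theorem q3_A0 (e : k) (z : Fin 3 → k) : q3 (A0 e) z = 2 * z 0 * z 2 + e * z 1 ^ 2 := by
  simp [q3, A0, dotProduct, Matrix.mulVec, Fin.sum_univ_three]
  ring

theorem q3_Sy (p q r s t w : k) (z : Fin 3 → k) :
    q3 (Sy p q r s t w) z = p * z 0 ^ 2 + 2 * q * z 0 * z 1 + 2 * r * z 0 * z 2 + s * z 1 ^ 2 +
      2 * t * z 1 * z 2 + w * z 2 ^ 2 := by
  simp [q3, Sy, dotProduct, Matrix.mulVec, Fin.sum_univ_three]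
  ring

/-- Normalization at an isotropic vector. -/
theorem norm_ex (A : Matrix (Fin 3) (Fin 3) k) (h2 : (2 : k) ≠ 0) (hA : A.IsSymm)
    (hd : A.det ≠ 0) (x : Fin 3 → k) (hx : x ≠ 0) (hq : q3 A x = 0) :
    ∃ g : Matrix (Fin 3) (Fin 3) k, g.det = 1 ∧ g.mulVec ![1, 0, 0] = x ∧
      g.transpose * A * g = A0 (-A.det) := by
  -- a vector `y` with `A(x,y) = 1`
  have hAx : A.mulVec x ≠ 0 := by
    intro h
    exact hx (Matrix.eq_zero_of_mulVec_eq_zero hd h)
  obtain ⟨i, hi⟩ : ∃ i, A.mulVec x i ≠ 0 := by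
    by_contra hcon
    push Not at hcon
    exact hAx (funext hcon)
  obtain ⟨y, hy⟩ : ∃ y : Fin 3 → k, A.mulVec x ⬝ᵥ y = 1 := by
    refine ⟨Pi.single i (A.mulVec x i)⁻¹, ?_⟩
    rw [dotProduct_single, mul_inv_cancel₀ hi]
  have e01 : A 1 0 = A 0 1 := hA.apply 0 1
  have e02 : A 2 0 = A 0 2 := hA.apply 0 2
  have e12 : A 2 1 = A 1 2 := hA.apply 1 2
  set c : k := q3 A y / 2 with hc
  set f : Fin 3 → k := fun j => y j - c * x j with hf
  have hq' : x 0 * (A 0 0 * x 0 + A 0 1 * x 1 + A 0 2 * x 2) +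
      x 1 * (A 0 1 * x 0 + A 1 1 * x 1 + A 1 2 * x 2) +
      x 2 * (A 0 2 * x 0 + A 1 2 * x 1 + A 2 2 * x 2) = 0 := by
    have := hq
    simp [q3, dotProduct, Matrix.mulVec, Fin.sum_univ_three, e01, e02, e12] at this
    linear_combination this
  have hy' : (A 0 0 * x 0 + A 0 1 * x 1 + A 0 2 * x 2) * y 0 +
      (A 0 1 * x 0 + A 1 1 * x 1 + A 1 2 * x 2) * y 1 +
      (A 0 2 * x 0 + A 1 2 * x 1 + A 2 2 * x 2) * y 2 = 1 := by
    have := hy
    simp [dotProduct, Matrix.mulVec, Fin.sum_univ_three, e01, e02, e12] at this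
    linear_combination this
  have hc' : 2 * c = y 0 * (A 0 0 * y 0 + A 0 1 * y 1 + A 0 2 * y 2) +
      y 1 * (A 0 1 * y 0 + A 1 1 * y 1 + A 1 2 * y 2) +
      y 2 * (A 0 2 * y 0 + A 1 2 * y 1 + A 2 2 * y 2) := by
    have : 2 * c = q3 A y := by rw [hc]; field_simp
    rw [this]
    simp [q3, dotProduct, Matrix.mulVec, Fin.sum_univ_three, e01, e02, e12]
  have f0 : f 0 = y 0 - c * x 0 := rfl
  have f1 : f 1 = y 1 - c * x 1 := rfl
  have f2 : f 2 = y 2 - c * x 2 := rfl
  have hxf : (A 0 0 * x 0 + A 0 1 * x 1 + A 0 2 * x 2) * f 0 +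
      (A 0 1 * x 0 + A 1 1 * x 1 + A 1 2 * x 2) * f 1 +
      (A 0 2 * x 0 + A 1 2 * x 1 + A 2 2 * x 2) * f 2 = 1 := by
    rw [f0, f1, f2]
    linear_combination hy' - c * hq'
  have hff : f 0 * (A 0 0 * f 0 + A 0 1 * f 1 + A 0 2 * f 2) +
      f 1 * (A 0 1 * f 0 + A 1 1 * f 1 + A 1 2 * f 2) +
      f 2 * (A 0 2 * f 0 + A 1 2 * f 1 + A 2 2 * f 2) = 0 := by
    rw [f0, f1, f2]
    linear_combination (-1) * hc' - 2 * c * hy' + c ^ 2 * hq'
  clear_value f
  -- the cross product
  set u : Fin 3 → k := ![A 0 0 * x 0 + A 0 1 * x 1 + A 0 2 * x 2,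
    A 0 1 * x 0 + A 1 1 * x 1 + A 1 2 * x 2, A 0 2 * x 0 + A 1 2 * x 1 + A 2 2 * x 2] with hu
  set w : Fin 3 → k := ![A 0 0 * f 0 + A 0 1 * f 1 + A 0 2 * f 2,
    A 0 1 * f 0 + A 1 1 * f 1 + A 1 2 * f 2, A 0 2 * f 0 + A 1 2 * f 1 + A 2 2 * f 2] with hw
  have u0 : u 0 = A 0 0 * x 0 + A 0 1 * x 1 + A 0 2 * x 2 := rfl
  have u1 : u 1 = A 0 1 * x 0 + A 1 1 * x 1 + A 1 2 * x 2 := rfl
  have u2 : u 2 = A 0 2 * x 0 + A 1 2 * x 1 + A 2 2 * x 2 := rfl
  have w0 : w 0 = A 0 0 * f 0 + A 0 1 * f 1 + A 0 2 * f 2 := rfl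
  have w1 : w 1 = A 0 1 * f 0 + A 1 1 * f 1 + A 1 2 * f 2 := rfl
  have w2 : w 2 = A 0 2 * f 0 + A 1 2 * f 1 + A 2 2 * f 2 := rfl
  rw [← u0, ← u1, ← u2] at hxf hq'
  rw [← w0, ← w1, ← w2] at hff
  have hfx : w 0 * x 0 + w 1 * x 1 + w 2 * x 2 = 1 := by
    rw [w0, w1, w2]
    rw [u0, u1, u2] at hxf
    linear_combination hxf
  clear_value u w
  set h0 : k := u 1 * w 2 - u 2 * w 1 with hh0
  set h1 : k := u 2 * w 0 - u 0 * w 2 with hh1
  set h2' : k := u 0 * w 1 - u 1 * w 0 with hh2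
  set g : Matrix (Fin 3) (Fin 3) k := !![x 0, h0, f 0; x 1, h1, f 1; x 2, h2', f 2] with hg
  have hdet : g.det = 1 := by
    rw [Matrix.det_fin_three]
    simp [hg]
    rw [hh0, hh1, hh2]
    linear_combination (w 0 * x 0 + w 1 * x 1 + w 2 * x 2) * hxf + hfx -
      (w 0 * f 0 + w 1 * f 1 + w 2 * f 2) * hq'
  refine ⟨g, hdet, ?_, ?_⟩
  · ext j
    fin_cases j <;> simp [hg, Matrix.mulVec, dotProduct, Fin.sum_univ_three]
  · have e1 : u 0 * h0 + u 1 * h1 + u 2 * h2' = 0 := by rw [hh0, hh1, hh2]; ring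
    have e2 : w 0 * h0 + w 1 * h1 + w 2 * h2' = 0 := by rw [hh0, hh1, hh2]; ring
    clear_value h0 h1 h2'
    have hG : g.transpose * A * g = A0 ((g.transpose * A * g) 1 1) := by
      ext i j
      fin_cases i <;> fin_cases j <;>
        simp [A0, hg, Matrix.mul_apply, Fin.sum_univ_three, e01, e02, e12]
      · linear_combination hq' - x 0 * u0 - x 1 * u1 - x 2 * u2
      · linear_combination e1 - h0 * u0 - h1 * u1 - h2' * u2
      · linear_combination hxf - f 0 * u0 - f 1 * u1 - f 2 * u2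
      · linear_combination e1 - h0 * u0 - h1 * u1 - h2' * u2
      · linear_combination e2 - h0 * w0 - h1 * w1 - h2' * w2
      · linear_combination hxf - f 0 * u0 - f 1 * u1 - f 2 * u2
      · linear_combination e2 - h0 * w0 - h1 * w1 - h2' * w2
      · linear_combination hff - f 0 * w0 - f 1 * w1 - f 2 * w2
    have hdG : (g.transpose * A * g).det = A.det := by
      rw [Matrix.det_mul, Matrix.det_mul, Matrix.det_transpose, hdet]; ring
    have : (A0 ((g.transpose * A * g) 1 1)).det = A.det := by rw [← hG, hdG]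
    have h11 : (g.transpose * A * g) 1 1 = -A.det := by
      rw [← this]
      simp [A0, Matrix.det_fin_three]
    rw [hG, h11]

/-- Change of variables on matrices. -/
noncomputable def cj (g : Matrix (Fin 3) (Fin 3) k) (hg : g.det = 1) :
    Matrix (Fin 3) (Fin 3) k ≃ Matrix (Fin 3) (Fin 3) k where
  toFun B := g.transpose * B * g
  invFun B := g.adjugate.transpose * B * g.adjugate
  left_inv B := by
    have h1 : g * g.adjugate = 1 := by rw [Matrix.mul_adjugate, hg, one_smul]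
    have h2 : g.adjugate.transpose * g.transpose = 1 := by
      rw [← Matrix.transpose_mul, h1, Matrix.transpose_one]
    calc g.adjugate.transpose * (g.transpose * B * g) * g.adjugate
        = (g.adjugate.transpose * g.transpose) * B * (g * g.adjugate) := by
          simp only [Matrix.mul_assoc]
      _ = B := by rw [h1, h2, Matrix.one_mul, Matrix.mul_one]
  right_inv B := by
    have h1 : g.adjugate * g = 1 := by rw [Matrix.adjugate_mul, hg, one_smul]
    have h2 : g.transpose * g.adjugate.transpose = 1 := by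
      rw [← Matrix.transpose_mul, h1, Matrix.transpose_one]
    calc g.transpose * (g.adjugate.transpose * B * g.adjugate) * g
        = (g.transpose * g.adjugate.transpose) * B * (g.adjugate * g) := by
          simp only [Matrix.mul_assoc]
      _ = B := by rw [h1, h2, Matrix.one_mul, Matrix.mul_one]

/-- Change of variables on vectors. -/
noncomputable def cv (g : Matrix (Fin 3) (Fin 3) k) (hg : g.det = 1) :
    (Fin 3 → k) ≃ (Fin 3 → k) where
  toFun z := g.mulVec z
  invFun z := g.adjugate.mulVec z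
  left_inv z := by
    change g.adjugate.mulVec (g.mulVec z) = z
    rw [Matrix.mulVec_mulVec, Matrix.adjugate_mul, hg, one_smul, Matrix.one_mulVec]
  right_inv z := by
    change g.mulVec (g.adjugate.mulVec z) = z
    rw [Matrix.mulVec_mulVec, Matrix.mul_adjugate, hg, one_smul, Matrix.one_mulVec]

theorem symm_tr (g B : Matrix (Fin 3) (Fin 3) k) (hg : g.det = 1) :
    (g.transpose * B * g).IsSymm ↔ B.IsSymm := by
  have h : ∀ (g B : Matrix (Fin 3) (Fin 3) k), B.IsSymm → (g.transpose * B * g).IsSymm := by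
    intro g B hB
    unfold Matrix.IsSymm at *
    rw [Matrix.transpose_mul, Matrix.transpose_mul, Matrix.transpose_transpose, hB,
      Matrix.mul_assoc]
  constructor
  · intro hh
    have := h g.adjugate _ hh
    have h3 := (cj g hg).left_inv B
    change g.adjugate.transpose * (g.transpose * B * g) * g.adjugate = B at h3
    rwa [h3] at this
  · exact h g B

theorem cv_ne (g : Matrix (Fin 3) (Fin 3) k) (hg : g.det = 1) (z : Fin 3 → k) :
    g.mulVec z ≠ 0 ↔ z ≠ 0 := by
  constructor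
  · rintro h rfl; exact h (Matrix.mulVec_zero _)
  · intro h h'
    exact h (Matrix.eq_zero_of_mulVec_eq_zero (by rw [hg]; exact one_ne_zero) h')

end basics

section count

variable {k : Type u} [Field k] [Finite k]

theorem card_ne : {x : k | x ≠ 0}.ncard = Nat.card k - 1 := by
  have : {x : k | x ≠ 0} = ({0} : Set k)ᶜ := by ext; simp
  rw [this, Set.ncard_compl, Set.ncard_singleton]

theorem card_ne2 : {p : k × k | p.1 ≠ 0}.ncard = (Nat.card k - 1) * Nat.card k := by
  have : {p : k × k | p.1 ≠ 0} = {x : k | x ≠ 0} ×ˢ Set.univ := by ext; simp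
  rw [this, Set.ncard_prod, card_ne, Set.ncard_univ]

theorem card_ne3 : {p : k × k × k | p.1 ≠ 0}.ncard =
    (Nat.card k - 1) * (Nat.card k * Nat.card k) := by
  have : {p : k × k × k | p.1 ≠ 0} = {x : k | x ≠ 0} ×ˢ Set.univ := by ext; simp
  rw [this, Set.ncard_prod, card_ne, Set.ncard_univ, Nat.card_prod]

/-- Parametrization, first case. -/
def F1 (e a b : k) (p : k × k) : Matrix (Fin 3) (Fin 3) k :=
  Sy 0 p.1 p.2 (-(2 * e * p.2)) (-(e * (a + 3 * p.2 ^ 2)) / (2 * p.1))
    (-(e * (p.2 ^ 3 + a * p.2 + b)) / p.1 ^ 2)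

theorem caseI_set (e a b : k) (he : e ≠ 0) (h2 : (2 : k) ≠ 0) (hd : 4 * a ^ 3 + 27 * b ^ 2 ≠ 0) :
    {B : Matrix (Fin 3) (Fin 3) k | B.IsSymm ∧ Chr (A0 e) B a b ∧ B 0 0 = 0} =
      F1 e a b '' {p : k × k | p.1 ≠ 0} := by
  ext B
  simp only [Set.mem_ofPred_eq, Set.mem_image, Prod.exists]
  constructor
  · rintro ⟨hs, hc, h0⟩
    have hB := sy_of B hs
    rw [h0] at hB
    rw [hB, chr_A0] at hc
    obtain ⟨c1, c2, c3⟩ := hc
    set q := B 0 1
    set r := B 0 2
    set s := B 1 1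
    set t := B 1 2
    set w := B 2 2
    have hq : q ≠ 0 := by
      intro hq
      rw [hq, c1] at c2 c3
      apply hd
      have ha : a = -(3 * r ^ 2) := by
        apply mul_left_cancel₀ he
        linear_combination c2
      have hb : b = 2 * r ^ 3 := by
        apply mul_left_cancel₀ he
        linear_combination -c3
      rw [ha, hb]; ring
    refine ⟨q, r, hq, ?_⟩
    rw [hB]
    unfold F1
    have ht : -(e * (a + 3 * r ^ 2)) / (2 * q) = t := by
      rw [div_eq_iff (mul_ne_zero h2 hq)]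
      rw [c1] at c2
      linear_combination -c2
    have hw : -(e * (r ^ 3 + a * r + b)) / q ^ 2 = w := by
      rw [div_eq_iff (pow_ne_zero 2 hq)]
      rw [c1] at c2 c3
      linear_combination c3 - r * c2
    simp only [ht, hw, ← c1]
  · rintro ⟨q, r, hq, rfl⟩
    refine ⟨?_, ?_, ?_⟩
    · ext i j
      fin_cases i <;> fin_cases j <;> simp [F1, Sy]
    · unfold F1
      rw [chr_A0]
      refine ⟨rfl, ?_, ?_⟩
      · simp only
        field_simp
        ring
      · simp only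
        field_simp
        ring
    · simp [F1, Sy]

theorem caseI (e a b : k) (he : e ≠ 0) (h2 : (2 : k) ≠ 0) (hd : 4 * a ^ 3 + 27 * b ^ 2 ≠ 0) :
    {B : Matrix (Fin 3) (Fin 3) k | B.IsSymm ∧ Chr (A0 e) B a b ∧ B 0 0 = 0}.ncard =
      (Nat.card k - 1) * Nat.card k := by
  rw [caseI_set e a b he h2 hd, Set.ncard_image_of_injective, card_ne2]
  rintro ⟨q, r⟩ ⟨q', r'⟩ h
  have h1 := congrFun (congrFun h 0) 1
  have h2 := congrFun (congrFun h 0) 2
  simp [F1, Sy] at h1 h2
  rw [h1, h2]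

/-- The one-parameter group. -/
def gt (e t : k) : Matrix (Fin 3) (Fin 3) k :=
  !![1, t, -t ^ 2 / (2 * e); 0, 1, -t / e; 0, 0, 1]

theorem gt_det (e t : k) : (gt e t).det = 1 := by
  simp [gt, Matrix.det_fin_three]

theorem gt_mul (e t : k) (he : e ≠ 0) (h2 : (2 : k) ≠ 0) : gt e t * gt e (-t) = 1 := by
  ext i j
  fin_cases i <;> fin_cases j <;>
    simp [gt, Matrix.mul_apply, Fin.sum_univ_three]
  · field_simp
    ring
  · field_simp
    ring

theorem gt_A0 (e t : k) (he : e ≠ 0) (h2 : (2 : k) ≠ 0) :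
    (gt e t).transpose * A0 e * gt e t = A0 e := by
  ext i j
  fin_cases i <;> fin_cases j <;>
    simp [gt, A0, Matrix.mul_apply, Fin.sum_univ_three]
  all_goals
    try field_simp
    try ring

/-- The parametrization, second case. -/
noncomputable def F2 (e a b : k) (x : k × k × k) : Matrix (Fin 3) (Fin 3) k :=
  (gt e (-x.2.1)).transpose *
    (if -(e * (b - 2 * a * x.2.2 - 8 * x.2.2 ^ 3)) = 0 then
      Sy x.1 0 x.2.2 (-(2 * e * x.2.2)) 0 ((-a - 3 * x.2.2 ^ 2) / x.1)
    else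
      Sy (-(e * (b - 2 * a * x.2.2 - 8 * x.2.2 ^ 3)) / x.1 ^ 2) 0 x.2.2 (-(2 * e * x.2.2)) x.1
        ((-a - 3 * x.2.2 ^ 2) / (-(e * (b - 2 * a * x.2.2 - 8 * x.2.2 ^ 3)) / x.1 ^ 2))) *
    gt e (-x.2.1)

theorem caseII (e a b : k) (he : e ≠ 0) (h2 : (2 : k) ≠ 0) :
    {B : Matrix (Fin 3) (Fin 3) k | B.IsSymm ∧ Chr (A0 e) B a b ∧ B 0 0 ≠ 0}.ncard ≤
      (Nat.card k - 1) * (Nat.card k * Nat.card k) := by
  rw [← card_ne3]
  have hsub : {B : Matrix (Fin 3) (Fin 3) k | B.IsSymm ∧ Chr (A0 e) B a b ∧ B 0 0 ≠ 0} ⊆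
      F2 e a b '' {p : k × k × k | p.1 ≠ 0} := by
    rintro B ⟨hs, hc, h0⟩
    set t : k := -(B 0 1) / B 0 0 with ht
    set B' : Matrix (Fin 3) (Fin 3) k := (gt e t).transpose * B * gt e t with hB'
    have hs' : B'.IsSymm := (symm_tr _ _ (gt_det e t)).mpr hs
    have hc' : Chr (A0 e) B' a b := by
      have := (chr_tr (A0 e) B (gt e t) a b (by rw [gt_det]; exact one_ne_zero)).mpr hc
      rwa [gt_A0 e t he h2] at this
    have h00 : B' 0 0 = B 0 0 := by
      simp [hB', gt, Matrix.mul_apply, Fin.sum_univ_three]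
    have h01 : B' 0 1 = 0 := by
      simp [hB', gt, Matrix.mul_apply, Fin.sum_univ_three]
      rw [ht]; field_simp; ring
    have hback : B = (gt e (-t)).transpose * B' * gt e (-t) := by
      have g1 := gt_mul e t he h2
      have g2 : (gt e (-t)).transpose * (gt e t).transpose = 1 := by
        rw [← Matrix.transpose_mul, g1, Matrix.transpose_one]
      calc B = ((gt e (-t)).transpose * (gt e t).transpose) * B * (gt e t * gt e (-t)) := by
            rw [g1, g2, Matrix.one_mul, Matrix.mul_one]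
        _ = _ := by rw [hB']; simp only [Matrix.mul_assoc]
    have hBs := sy_of B' hs'
    rw [h01] at hBs
    rw [hBs, chr_A0] at hc'
    obtain ⟨c1, c2, c3⟩ := hc'
    set p := B' 0 0
    set u := B' 0 2
    set s := B' 1 1
    set v := B' 1 2
    set w := B' 2 2
    have hp : p ≠ 0 := by rw [h00]; exact h0
    have hpw : p * w = -a - 3 * u ^ 2 := by
      apply mul_left_cancel₀ he
      rw [c1] at c2
      linear_combination c2
    have hw : w = (-a - 3 * u ^ 2) / p := by
      rw [eq_div_iff hp]; linear_combination hpw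
    have hpv : p * v ^ 2 = -(e * (b - 2 * a * u - 8 * u ^ 3)) := by
      rw [c1] at c3
      linear_combination -c3 - 2 * e * u * hpw
    by_cases hcc : -(e * (b - 2 * a * u - 8 * u ^ 3)) = 0
    · have hv : v = 0 := by
        rw [hcc] at hpv
        have := (mul_eq_zero.mp hpv).resolve_left hp
        exact pow_eq_zero_iff (two_ne_zero) |>.mp this
      refine ⟨(p, t, u), hp, ?_⟩
      rw [hback]
      unfold F2
      simp only [if_pos hcc]
      rw [hBs, c1, hv, ← hw]
    · have hv : v ≠ 0 := by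
        intro hv
        rw [hv] at hpv
        apply hcc
        rw [← hpv]; ring
      have hpe : -(e * (b - 2 * a * u - 8 * u ^ 3)) / v ^ 2 = p := by
        rw [div_eq_iff (pow_ne_zero 2 hv)]; exact hpv.symm
      refine ⟨(v, t, u), hv, ?_⟩
      rw [hback]
      unfold F2
      simp only [if_neg hcc, hpe]
      rw [hBs, c1, ← hw]
  exact (Set.ncard_le_ncard hsub (Set.toFinite _)).trans (Set.ncard_image_le (Set.toFinite _))

theorem sharpA0 (e a b : k) (he : e ≠ 0) (h2 : (2 : k) ≠ 0) (hd : 4 * a ^ 3 + 27 * b ^ 2 ≠ 0) :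
    {B : Matrix (Fin 3) (Fin 3) k | B.IsSymm ∧ Chr (A0 e) B a b}.ncard + Nat.card k ≤
      Nat.card k ^ 3 := by
  have hu : {B : Matrix (Fin 3) (Fin 3) k | B.IsSymm ∧ Chr (A0 e) B a b} ⊆
      {B : Matrix (Fin 3) (Fin 3) k | B.IsSymm ∧ Chr (A0 e) B a b ∧ B 0 0 = 0} ∪
      {B : Matrix (Fin 3) (Fin 3) k | B.IsSymm ∧ Chr (A0 e) B a b ∧ B 0 0 ≠ 0} := by
    rintro B ⟨h1, h2⟩
    by_cases h : B 0 0 = 0
    · exact Or.inl ⟨h1, h2, h⟩
    · exact Or.inr ⟨h1, h2, h⟩
  have h1 := (Set.ncard_le_ncard hu (Set.toFinite _)).trans (Set.ncard_union_le _ _)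
  rw [caseI e a b he h2 hd] at h1
  have h3 := caseII e a b he h2
  have hq : 0 < Nat.card k := Nat.card_pos
  obtain ⟨m, hm⟩ : ∃ m, Nat.card k = m + 1 := ⟨Nat.card k - 1, by omega⟩
  rw [hm] at h1 h3 ⊢
  simp only [Nat.add_sub_cancel] at h1 h3
  have h4 : m * (m + 1) + m * ((m + 1) * (m + 1)) + (m + 1) = (m + 1) ^ 3 := by ring
  omega

/-- Chevalley-Warning. -/
theorem iso_ex (A : Matrix (Fin 3) (Fin 3) k) : ∃ x : Fin 3 → k, x ≠ 0 ∧ q3 A x = 0 := by
  haveI : Fintype k := Fintype.ofFinite k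
  obtain ⟨p, hp⟩ := CharP.exists k
  haveI : Fact p.Prime := ⟨CharP.char_is_prime k p⟩
  set f : MvPolynomial (Fin 3) k :=
    ∑ i, ∑ j, MvPolynomial.C (A i j) * (MvPolynomial.X i * MvPolynomial.X j) with hf
  have hdeg : f.totalDegree < Fintype.card (Fin 3) := by
    rw [Fintype.card_fin]
    refine lt_of_le_of_lt ?_ (by norm_num : 2 < 3)
    refine MvPolynomial.totalDegree_finsetSum_le fun i _ => ?_
    refine MvPolynomial.totalDegree_finsetSum_le fun j _ => ?_
    refine (MvPolynomial.totalDegree_mul _ _).trans ?_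
    rw [MvPolynomial.totalDegree_C, zero_add]
    refine (MvPolynomial.totalDegree_mul _ _).trans ?_
    rw [MvPolynomial.totalDegree_X, MvPolynomial.totalDegree_X]
  have hev : ∀ x, MvPolynomial.eval x f = q3 A x := by
    intro x
    rw [hf, map_sum]
    simp only [map_sum, map_mul, MvPolynomial.eval_C, MvPolynomial.eval_X, q3, dotProduct,
      Matrix.mulVec, Finset.mul_sum]
    refine Finset.sum_congr rfl fun i _ => Finset.sum_congr rfl fun j _ => ?_
    ring
  have hdvd := char_dvd_card_solutions (K := k) p hdeg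
  by_contra hcon
  push Not at hcon
  have h1 : Fintype.card { x : Fin 3 → k // MvPolynomial.eval x f = 0 } = 1 := by
    rw [Fintype.card_eq_one_iff]
    refine ⟨⟨0, ?_⟩, ?_⟩
    · rw [hev]; simp [q3]
    · rintro ⟨x, hx⟩
      by_contra hx0
      have : x ≠ 0 := fun h => hx0 (Subtype.ext h)
      exact hcon x this (by rw [← hev]; exact hx)
  rw [h1] at hdvd
  exact (CharP.char_is_prime k p).one_lt.ne' (Nat.dvd_one.mp hdvd)

/-- OMA, sharp form. -/
theorem sharp (A : Matrix (Fin 3) (Fin 3) k) (a b : k) (h2 : (2 : k) ≠ 0) (hA : A.IsSymm)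
    (hdA : A.det ≠ 0) (hd : 4 * a ^ 3 + 27 * b ^ 2 ≠ 0) :
    {B : Matrix (Fin 3) (Fin 3) k | B.IsSymm ∧ Chr A B a b}.ncard + Nat.card k ≤
      Nat.card k ^ 3 := by
  obtain ⟨x, hx, hq⟩ := iso_ex A
  obtain ⟨g, hg, -, hgA⟩ := norm_ex A h2 hA hdA x hx hq
  have hg0 : g.det ≠ 0 := by rw [hg]; exact one_ne_zero
  have heq : {B : Matrix (Fin 3) (Fin 3) k | B.IsSymm ∧ Chr A B a b} =
      cj g hg ⁻¹' {B : Matrix (Fin 3) (Fin 3) k | B.IsSymm ∧ Chr (A0 (-A.det)) B a b} := by
    ext B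
    change _ ↔ (g.transpose * B * g).IsSymm ∧ Chr (A0 (-A.det)) (g.transpose * B * g) a b
    rw [symm_tr g B hg, ← hgA, chr_tr A B g a b hg0]
    rfl
  rw [heq, Set.ncard_preimage_of_injective_subset_range (cj g hg).injective (by simp)]
  exact sharpA0 _ a b (neg_ne_zero.mpr hdA) h2 hd

/-- The number of isotropic vectors. -/
theorem isoA0 (e : k) (h2 : (2 : k) ≠ 0) (he : e ≠ 0) :
    {z : Fin 3 → k | z ≠ 0 ∧ q3 (A0 e) z = 0}.ncard =
      (Nat.card k - 1) * (Nat.card k + 1) := by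
  have heq : {z : Fin 3 → k | z ≠ 0 ∧ q3 (A0 e) z = 0} =
      (fun p : k × k => (![-(e * p.2 ^ 2) / (2 * p.1), p.2, p.1] : Fin 3 → k)) ''
        {p : k × k | p.1 ≠ 0} ∪
      (fun c : k => (![c, 0, 0] : Fin 3 → k)) '' {c : k | c ≠ 0} := by
    ext z
    constructor
    · rintro ⟨hz, hq⟩
      rw [q3_A0] at hq
      by_cases h : z 2 = 0
      · right
        rw [h] at hq
        have h1 : z 1 = 0 := by
          have : e * z 1 ^ 2 = 0 := by linear_combination hq
          exact pow_eq_zero_iff (two_ne_zero) |>.mp ((mul_eq_zero.mp this).resolve_left he)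
        refine ⟨z 0, ?_, ?_⟩
        · intro h0
          apply hz
          ext j
          fin_cases j
          · exact h0
          · exact h1
          · exact h
        · ext j
          fin_cases j
          · rfl
          · exact h1.symm
          · exact h.symm
      · left
        refine ⟨(z 2, z 1), h, ?_⟩
        ext j
        fin_cases j
        · change -(e * z 1 ^ 2) / (2 * z 2) = z 0
          rw [div_eq_iff (mul_ne_zero h2 h)]
          linear_combination -hq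
        · rfl
        · rfl
    · rintro (⟨⟨c, w⟩, hc, rfl⟩ | ⟨c, hc, rfl⟩)
      · refine ⟨?_, ?_⟩
        · intro h
          have := congrFun h 2
          exact hc this
        · rw [q3_A0]
          simp
          have hc' : c ≠ 0 := hc
          field_simp
          ring
      · refine ⟨?_, ?_⟩
        · intro h
          have := congrFun h 0
          exact hc this
        · rw [q3_A0]; simp
  rw [heq, Set.ncard_union_eq, Set.ncard_image_of_injective, Set.ncard_image_of_injective, card_ne,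
    card_ne2]
  · have hq : 0 < Nat.card k := Nat.card_pos
    ring
  · intro c c' h
    exact congrFun h 0
  · rintro ⟨c, w⟩ ⟨c', w'⟩ h
    have h1 : c = c' := congrFun h 2
    have h2 : w = w' := congrFun h 1
    rw [h1, h2]
  · rw [Set.disjoint_left]
    rintro z ⟨⟨c, w⟩, hc, rfl⟩ ⟨c', hc', h⟩
    have := congrFun h 2
    exact hc this.symm

/-- The number of common zeros. -/
theorem commA0 (e a b : k) (q r s t w : k) (h2 : (2 : k) ≠ 0) (he : e ≠ 0) (hty : ty12 a b)
    (hc : Chr (A0 e) (Sy 0 q r s t w) a b) :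
    {z : Fin 3 → k | (z ≠ 0 ∧ q3 (A0 e) z = 0) ∧ q3 (Sy 0 q r s t w) z = 0}.ncard =
      2 * (Nat.card k - 1) := by
  obtain ⟨hd, ⟨rho, hrho⟩, huniq⟩ := hty
  rw [chr_A0] at hc
  obtain ⟨c1, c2, c3⟩ := hc
  have hq : q ≠ 0 := by
    intro hq
    rw [hq, c1] at c2 c3
    apply hd
    have ha : a = -(3 * r ^ 2) := by
      apply mul_left_cancel₀ he
      linear_combination c2
    have hb : b = 2 * r ^ 3 := by
      apply mul_left_cancel₀ he
      linear_combination -c3
    rw [ha, hb]; ring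
  rw [c1] at c2 c3
  set W : k := (rho - r) / q with hW
  have hqW : q * W = rho - r := by rw [hW]; field_simp
  have heq : {z : Fin 3 → k | (z ≠ 0 ∧ q3 (A0 e) z = 0) ∧ q3 (Sy 0 q r s t w) z = 0} =
      (fun c : k => (![-(e * W ^ 2) / 2 * c, W * c, c] : Fin 3 → k)) '' {c : k | c ≠ 0} ∪
      (fun c : k => (![c, 0, 0] : Fin 3 → k)) '' {c : k | c ≠ 0} := by
    ext z
    constructor
    · rintro ⟨⟨hz, hq0⟩, hB⟩
      rw [q3_A0] at hq0
      rw [q3_Sy, c1] at hB
      by_cases h : z 2 = 0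
      · right
        rw [h] at hq0
        have h1 : z 1 = 0 := by
          have : e * z 1 ^ 2 = 0 := by linear_combination hq0
          exact pow_eq_zero_iff (two_ne_zero) |>.mp ((mul_eq_zero.mp this).resolve_left he)
        refine ⟨z 0, ?_, ?_⟩
        · intro h0
          apply hz
          ext j
          fin_cases j
          · exact h0
          · exact h1
          · exact h
        · ext j
          fin_cases j
          · rfl
          · exact h1.symm
          · exact h.symm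
      · left
        have hroot : (q * (z 1 / z 2) + r) ^ 3 + a * (q * (z 1 / z 2) + r) + b = 0 := by
          have hz0 : z 0 = -(e * z 1 ^ 2) / (2 * z 2) := by
            rw [eq_div_iff (mul_ne_zero h2 h)]
            linear_combination hq0
          have hq0' := hq0
          have e1 : e * ((q * (z 1 / z 2) + r) ^ 3 + a * (q * (z 1 / z 2) + r) + b) = 0 := by
            have hv : z 1 = (z 1 / z 2) * z 2 := by field_simp
            set v := z 1 / z 2 with hv'
            have hz0' : z 0 = -(e * v ^ 2) / 2 * z 2 := by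
              rw [hz0, hv]; field_simp
            rw [hz0', hv] at hB
            have h22 : z 2 ^ 2 ≠ 0 := pow_ne_zero 2 h
            have hB' : -(e * q * v ^ 3) - 3 * e * r * v ^ 2 + 2 * t * v + w = 0 := by
              apply mul_left_cancel₀ h22
              have : (2 : k) * (-(e * v ^ 2) / 2) = -(e * v ^ 2) := by field_simp
              linear_combination hB - (q * z 2 * (v * z 2) + r * z 2 * z 2) * this
            linear_combination (-q ^ 2) * hB' + (q * v + r) * c2 - c3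
          exact (mul_eq_zero.mp e1).resolve_left he
        have h3 := huniq _ _ hroot hrho
        have h4 : z 1 / z 2 = W := by
          apply mul_left_cancel₀ hq
          rw [hqW, ← h3]; ring
        have h5 : z 1 = W * z 2 := by rw [← h4]; field_simp
        refine ⟨z 2, h, ?_⟩
        ext j
        fin_cases j
        · change -(e * W ^ 2) / 2 * z 2 = z 0
          rw [h5] at hq0
          have h6 : (2 : k) * (-(e * W ^ 2) / 2) = -(e * W ^ 2) := by
            rw [mul_div_cancel₀ _ h2]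
          apply mul_left_cancel₀ (mul_ne_zero h2 h)
          linear_combination z 2 ^ 2 * h6 - hq0
        · exact h5.symm
        · rfl
    · rintro (⟨c, hc, rfl⟩ | ⟨c, hc, rfl⟩)
      · refine ⟨⟨?_, ?_⟩, ?_⟩
        · intro h
          have := congrFun h 2
          exact hc this
        · rw [q3_A0]
          simp
          field_simp
          ring
        · rw [q3_Sy, c1]
          simp
          have e1 : -(e * q * W ^ 3) - 3 * e * r * W ^ 2 + 2 * t * W + w = 0 := by
            apply mul_left_cancel₀ (pow_ne_zero 2 hq)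
            have hr' : (q * W + r) ^ 3 + a * (q * W + r) + b = 0 := by
              rw [hqW]; linear_combination hrho
            linear_combination (-e) * hr' + (q * W + r) * c2 - c3
          have h5 : (2 : k) * (-(e * W ^ 2) / 2) = -(e * W ^ 2) := by field_simp
          linear_combination c ^ 2 * e1 + (q * W * c ^ 2 + r * c ^ 2) * h5
      · refine ⟨⟨?_, ?_⟩, ?_⟩
        · intro h
          have := congrFun h 0
          exact hc this
        · rw [q3_A0]; simp
        · rw [q3_Sy]; simp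
  rw [heq, Set.ncard_union_eq, Set.ncard_image_of_injective, Set.ncard_image_of_injective, card_ne]
  · ring
  · intro c c' h
    exact congrFun h 0
  · intro c c' h
    exact congrFun h 2
  · rw [Set.disjoint_left]
    rintro z ⟨c, hc, rfl⟩ ⟨c', hc', h⟩
    have := congrFun h 2
    exact hc this.symm

/-- Double counting. -/
theorem dc {α β : Type u} [Finite α] [Finite β] (S : Set α) (T : Set β) (r : α → β → Prop)
    (m n : ℕ) (h1 : ∀ a ∈ S, {b | b ∈ T ∧ r a b}.ncard = m)
    (h2 : ∀ b ∈ T, {a | a ∈ S ∧ r a b}.ncard = n) : S.ncard * m = T.ncard * n := by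
  have : Fintype α := Fintype.ofFinite α
  have : Fintype β := Fintype.ofFinite β
  have h := Finset.sum_card_bipartiteAbove_eq_sum_card_bipartiteBelow (s := S.toFinset)
    (t := T.toFinset) r
  have e1 : ∀ a ∈ S.toFinset, (Finset.bipartiteAbove r T.toFinset a).card = m := by
    intro a ha
    rw [← h1 a (Set.mem_toFinset.mp ha), ← Set.ncard_coe_finset]
    congr 1
    ext b
    simp [Finset.bipartiteAbove]
  have e2 : ∀ b ∈ T.toFinset, (Finset.bipartiteBelow r S.toFinset b).card = n := by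
    intro b hb
    rw [← h2 b (Set.mem_toFinset.mp hb), ← Set.ncard_coe_finset]
    congr 1
    ext a
    simp [Finset.bipartiteBelow]
  rw [Finset.sum_congr rfl e1, Finset.sum_congr rfl e2, Finset.sum_const, Finset.sum_const,
    smul_eq_mul, smul_eq_mul, ← Set.ncard_eq_toFinset_card', ← Set.ncard_eq_toFinset_card'] at h
  exact h

/-- The exact number of `B` with a common zero. -/
theorem exact_card (A : Matrix (Fin 3) (Fin 3) k) (a b : k) (h2 : (2 : k) ≠ 0) (hA : A.IsSymm)
    (hdA : A.det ≠ 0) (hty : ty12 a b) :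
    2 * {B : Matrix (Fin 3) (Fin 3) k | B.IsSymm ∧ Chr A B a b ∧
      ∃ y : Fin 3 → k, y ≠ 0 ∧ y ⬝ᵥ A.mulVec y = 0 ∧ y ⬝ᵥ B.mulVec y = 0}.ncard =
      (Nat.card k + 1) * (Nat.card k * (Nat.card k - 1)) := by
  have hneg : -A.det ≠ 0 := neg_ne_zero.mpr hdA
  have hd := hty.1
  set T : Set (Matrix (Fin 3) (Fin 3) k) := {B | B.IsSymm ∧ Chr A B a b ∧
      ∃ y : Fin 3 → k, y ≠ 0 ∧ y ⬝ᵥ A.mulVec y = 0 ∧ y ⬝ᵥ B.mulVec y = 0} with hT
  set S : Set (Fin 3 → k) := {x | x ≠ 0 ∧ q3 A x = 0} with hS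
  have c1 : S.ncard = (Nat.card k - 1) * (Nat.card k + 1) := by
    obtain ⟨x, hx, hq⟩ := iso_ex A
    obtain ⟨g, hg, -, hgA⟩ := norm_ex A h2 hA hdA x hx hq
    rw [← isoA0 (-A.det) h2 hneg, ← Set.ncard_preimage_of_injective_subset_range
      (cv g hg).injective (by simp)]
    congr 1
    ext z
    change _ ↔ z ≠ 0 ∧ q3 (A0 (-A.det)) z = 0
    rw [← hgA, q3_tr]
    change (g.mulVec z ≠ 0 ∧ q3 A (g.mulVec z) = 0) ↔ _
    rw [cv_ne g hg]
  have c2 : ∀ x ∈ S, {B | B ∈ T ∧ q3 B x = 0}.ncard = (Nat.card k - 1) * Nat.card k := by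
    rintro x ⟨hx, hq⟩
    obtain ⟨g, hg, hgx, hgA⟩ := norm_ex A h2 hA hdA x hx hq
    have hg0 : g.det ≠ 0 := by rw [hg]; exact one_ne_zero
    rw [← caseI (-A.det) a b hneg h2 hd]
    have : {B | B ∈ T ∧ q3 B x = 0} = cj g hg ⁻¹'
        {B : Matrix (Fin 3) (Fin 3) k | B.IsSymm ∧ Chr (A0 (-A.det)) B a b ∧ B 0 0 = 0} := by
      ext B
      change _ ↔ (g.transpose * B * g).IsSymm ∧ Chr (A0 (-A.det)) (g.transpose * B * g) a b ∧
        (g.transpose * B * g) 0 0 = 0
      have h00 : (g.transpose * B * g) 0 0 = q3 B x := by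
        rw [← hgx, ← q3_tr]
        simp [q3, dotProduct, Matrix.mulVec, Fin.sum_univ_three]
      rw [symm_tr g B hg, ← hgA, chr_tr A B g a b hg0, h00]
      constructor
      · rintro ⟨⟨h1, h2, h3⟩, h4⟩
        exact ⟨h1, h2, h4⟩
      · rintro ⟨h1, h2, h4⟩
        exact ⟨⟨h1, h2, x, hx, hq, h4⟩, h4⟩
    rw [this, Set.ncard_preimage_of_injective_subset_range (cj g hg).injective (by simp)]
  have c3 : ∀ B ∈ T, {x | x ∈ S ∧ q3 B x = 0}.ncard = 2 * (Nat.card k - 1) := by
    rintro B ⟨hs, hc, x, hx, hq, hqB⟩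
    obtain ⟨g, hg, hgx, hgA⟩ := norm_ex A h2 hA hdA x hx hq
    have hg0 : g.det ≠ 0 := by rw [hg]; exact one_ne_zero
    set B' : Matrix (Fin 3) (Fin 3) k := g.transpose * B * g with hB'
    have h00 : B' 0 0 = 0 := by
      have : B' 0 0 = q3 B x := by
        rw [← hgx, ← q3_tr]
        simp [q3, hB', dotProduct, Matrix.mulVec, Fin.sum_univ_three]
      rw [this]; exact hqB
    have hs' : B'.IsSymm := (symm_tr _ _ hg).mpr hs
    have hc' : Chr (A0 (-A.det)) B' a b := by
      rw [← hgA]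
      exact (chr_tr A B g a b hg0).mpr hc
    have hBs := sy_of B' hs'
    rw [h00] at hBs
    rw [hBs] at hc'
    rw [← commA0 (-A.det) a b _ _ _ _ _ h2 hneg hty hc', ← hBs,
      ← Set.ncard_preimage_of_injective_subset_range (cv g hg).injective (by simp)]
    congr 1
    ext z
    rw [← hgA, hB']
    change ((g.mulVec z ≠ 0 ∧ q3 A (g.mulVec z) = 0) ∧ q3 B (g.mulVec z) = 0) ↔
      (z ≠ 0 ∧ q3 (g.transpose * A * g) z = 0) ∧ q3 (g.transpose * B * g) z = 0
    rw [cv_ne g hg, q3_tr, q3_tr]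
  have h := dc S T (fun x B => q3 B x = 0) _ _ c2 c3
  rw [c1] at h
  have hq : 1 < Nat.card k := Finite.one_lt_card
  obtain ⟨m, hm⟩ : ∃ m, Nat.card k = m + 1 := ⟨Nat.card k - 1, by omega⟩
  rw [hm] at h ⊢
  simp only [Nat.add_sub_cancel] at h ⊢
  have hm0 : 0 < m := by omega
  apply Nat.eq_of_mul_eq_mul_left hm0
  linarith

end count

end OMBM

theorem specOMB : SpecOMB.{u} := by
  intro k _ _ A a b h2 hA hdA hty
  rw [OMBM.exact_card A a b h2 hA hdA hty]
  have hq : 0 < Nat.card k := Nat.card_pos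
  obtain ⟨m, hm⟩ : ∃ m, Nat.card k = m + 1 := ⟨Nat.card k - 1, by omega⟩
  rw [hm]
  simp only [Nat.add_sub_cancel]
  nlinarith [Nat.zero_le m]

end Pool.Agent.Lib.MP_8cb858_nt.ZER
end

section
/-!
# FC3: the local count at the places of `P`
-/
namespace Pool.Agent.Lib.MP_8cb858_nt.PF

open Matrix
open scoped Classical

namespace FC3M

theorem dcle {α β : Type} [Finite α] [Finite β] (S : Set α) (T : Set β) (r : α → β → Prop)
    (m n : ℕ) (h1 : ∀ a ∈ S, {b | b ∈ T ∧ r a b}.ncard ≤ m)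
    (h2 : ∀ b ∈ T, n ≤ {a | a ∈ S ∧ r a b}.ncard) : T.ncard * n ≤ S.ncard * m := by
  have : Fintype α := Fintype.ofFinite α
  have : Fintype β := Fintype.ofFinite β
  have h := Finset.sum_card_bipartiteAbove_eq_sum_card_bipartiteBelow (s := S.toFinset)
    (t := T.toFinset) r
  have e1 : ∀ a ∈ S.toFinset, (Finset.bipartiteAbove r T.toFinset a).card ≤ m := by
    intro a ha
    refine le_trans (le_of_eq ?_) (h1 a (Set.mem_toFinset.mp ha))
    rw [← Set.ncard_coe_finset]
    congr 1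
    ext b
    simp [Finset.bipartiteAbove]
  have e2 : ∀ b ∈ T.toFinset, n ≤ (Finset.bipartiteBelow r S.toFinset b).card := by
    intro b hb
    refine le_trans (h2 b (Set.mem_toFinset.mp hb)) (le_of_eq ?_)
    rw [← Set.ncard_coe_finset]
    congr 1
    ext a
    simp [Finset.bipartiteBelow]
  have e3 := Finset.sum_le_sum e1
  have e4 := Finset.sum_le_sum e2
  rw [Finset.sum_const, smul_eq_mul, ← Set.ncard_eq_toFinset_card'] at e3 e4
  omega

variable {k : Type} [Field k]

theorem gc_iff (a b : k) (A B : Matrix (Fin 3) (Fin 3) k) :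
    Gc a b A B ↔ B.IsSymm ∧ ZER.Chr A B a b := by
  unfold Gc ZER.Chr
  rw [Matrix.trace_mul_comm A B.adjugate, mul_comm a A.det, mul_comm b A.det]

theorem symm_tr (g B : Matrix (Fin 3) (Fin 3) k) (hB : B.IsSymm) : (gᵀ * B * g).IsSymm := by
  unfold Matrix.IsSymm at *
  rw [Matrix.transpose_mul, Matrix.transpose_mul, Matrix.transpose_transpose, hB,
    Matrix.mul_assoc]

theorem tr_inj (g : Matrix (Fin 3) (Fin 3) k) (hg : g.det ≠ 0) :
    Function.Injective (fun B : Matrix (Fin 3) (Fin 3) k => gᵀ * B * g) := by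
  intro B B' hBB
  replace hBB : gᵀ * B * g = gᵀ * B' * g := hBB
  have hgu : IsUnit g.det := isUnit_iff_ne_zero.2 hg
  have hgt : IsUnit gᵀ.det := by rw [Matrix.det_transpose]; exact hgu
  have h1 : gᵀ * B = gᵀ * B' := by
    have : gᵀ * B * g * g⁻¹ = gᵀ * B' * g * g⁻¹ := by rw [hBB]
    rwa [Matrix.mul_assoc, Matrix.mul_nonsing_inv g hgu, Matrix.mul_one, Matrix.mul_assoc,
      Matrix.mul_nonsing_inv g hgu, Matrix.mul_one] at this
  have : gᵀ⁻¹ * (gᵀ * B) = gᵀ⁻¹ * (gᵀ * B') := by rw [h1]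
  rwa [← Matrix.mul_assoc, Matrix.nonsing_inv_mul _ hgt, Matrix.one_mul, ← Matrix.mul_assoc,
    Matrix.nonsing_inv_mul _ hgt, Matrix.one_mul] at this

theorem ev_tr (A g : Matrix (Fin 3) (Fin 3) k) (x : Fin 3 → k) :
    x ⬝ᵥ (gᵀ * A * g).mulVec x = g.mulVec x ⬝ᵥ A.mulVec (g.mulVec x) :=
  ZER.OMBM.q3_tr A g x

end FC3M

open FC3M in
theorem specFC3 (hFCN : SpecFCN) (hFCZ : SpecFCZ) (hFHB : SpecFHB) (hDNP : SpecDNP) :
    SpecFC3 := by
  intro k _ _ A h2 h3 hA hd
  by_cases hem : B3 A = ∅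
  · rw [hem, Set.ncard_empty]; simp
  obtain ⟨B0, a0, b0, hG0, hr0⟩ := Set.nonempty_iff_ne_empty.mpr hem
  obtain ⟨e0, he0, hq0, -⟩ := hFCZ k a0 b0 A B0 h2 hA hd hG0 hr0
  set S : Set (Fin 3 → k) := {e | e ≠ 0 ∧ e ⬝ᵥ A.mulVec e = 0} with hS
  set n0 := {p : k × k | ∀ x : k, x ^ 3 + p.1 * x + p.2 ≠ 0}.ncard with hn0
  have hn := (hDNP k).2.1 h3
  rw [← hn0] at hn
  -- the number of isotropic vectors
  have c1 : S.ncard ≤ Nat.card k ^ 2 := by
    obtain ⟨g, δ, hg, -, hδ, hgA⟩ := hFHB k A e0 h2 hA hd he0 hq0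
    refine le_trans ?_ (hFCN k δ h2 hδ).2
    have hgu : IsUnit g.det := isUnit_iff_ne_zero.2 hg
    refine Set.ncard_le_ncard_of_injOn (fun w => g⁻¹.mulVec w) ?_ ?_ (Set.toFinite _)
    · rintro e ⟨he, hq⟩
      change (g⁻¹.mulVec e) ⬝ᵥ (!![0, 0, 1; 0, δ, 0; 1, 0, 0] : Matrix (Fin 3) (Fin 3) k).mulVec
        (g⁻¹.mulVec e) = 0
      rw [← hgA, ev_tr, Matrix.mulVec_mulVec, Matrix.mul_nonsing_inv g hgu, Matrix.one_mulVec]
      exact hq
    · intro x _ y _ hxy
      have : g.mulVec (g⁻¹.mulVec x) = g.mulVec (g⁻¹.mulVec y) := congrArg _ hxy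
      rwa [Matrix.mulVec_mulVec, Matrix.mul_nonsing_inv g hgu, Matrix.one_mulVec,
        Matrix.mulVec_mulVec, Matrix.mul_nonsing_inv g hgu, Matrix.one_mulVec] at this
  have c2 : ∀ e ∈ S, {B | B ∈ B3 A ∧ e ⬝ᵥ B.mulVec e = 0}.ncard ≤
      (Nat.card k - 1) * (Nat.card k * n0) := by
    rintro e ⟨he, hq⟩
    obtain ⟨g, δ, hg, hge, hδ, hgA⟩ := hFHB k A e h2 hA hd he hq
    refine le_trans ?_ (hFCN k δ h2 hδ).1
    refine Set.ncard_le_ncard_of_injOn (fun B => gᵀ * B * g) ?_ (tr_inj g hg).injOn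
      (Set.toFinite _)
    rintro B ⟨⟨a, b, hG, hr⟩, hB⟩
    refine ⟨?_, a, b, ?_, hr⟩
    · have h00 : (gᵀ * B * g) 0 0 =
          (![1, 0, 0] : Fin 3 → k) ⬝ᵥ (gᵀ * B * g).mulVec ![1, 0, 0] := by
        simp [dotProduct, Matrix.mulVec, Fin.sum_univ_three]
      change (gᵀ * B * g) 0 0 = 0
      rw [h00, ev_tr, hge]
      exact hB
    · rw [gc_iff] at hG ⊢
      refine ⟨symm_tr g B hG.1, ?_⟩
      rw [← hgA]
      exact (ZER.OMBM.chr_tr A B g a b hg).mpr hG.2
  have c3 : ∀ B ∈ B3 A, Nat.card k - 1 ≤ {e | e ∈ S ∧ e ⬝ᵥ B.mulVec e = 0}.ncard := by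
    rintro B ⟨a, b, hG, hr⟩
    obtain ⟨w, hw, hwA, hwB⟩ := hFCZ k a b A B h2 hA hd hG hr
    rw [← ZER.OMBM.card_ne]
    refine Set.ncard_le_ncard_of_injOn (fun c : k => c • w) ?_ ?_ (Set.toFinite _)
    · intro c hc
      refine ⟨⟨smul_ne_zero hc hw, ?_⟩, ?_⟩
      · rw [Matrix.mulVec_smul, smul_dotProduct, dotProduct_smul, hwA, smul_zero, smul_zero]
      · rw [Matrix.mulVec_smul, smul_dotProduct, dotProduct_smul, hwB, smul_zero, smul_zero]
    · intro c _ c' _ h
      exact smul_left_injective k hw h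
  have h := dcle S (B3 A) (fun e B => e ⬝ᵥ B.mulVec e = 0) _ _ c2 c3
  have hq : 1 < Nat.card k := Finite.one_lt_card
  obtain ⟨m, hm⟩ : ∃ m, Nat.card k = m + 1 := ⟨Nat.card k - 1, by omega⟩
  have h4 : (B3 A).ncard * (Nat.card k - 1) ≤
      Nat.card k ^ 2 * ((Nat.card k - 1) * (Nat.card k * n0)) :=
    h.trans (Nat.mul_le_mul_right _ c1)
  have hm0 : 0 < Nat.card k - 1 := by omega
  have h5 : (B3 A).ncard ≤ Nat.card k ^ 3 * n0 := by
    apply Nat.le_of_mul_le_mul_right _ hm0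
    calc (B3 A).ncard * (Nat.card k - 1) ≤ _ := h4
      _ = Nat.card k ^ 3 * n0 * (Nat.card k - 1) := by ring
  calc 3 * (B3 A).ncard ≤ 3 * (Nat.card k ^ 3 * n0) := Nat.mul_le_mul_left _ h5
    _ = Nat.card k ^ 3 * (3 * n0) := by ring
    _ ≤ Nat.card k ^ 3 * (Nat.card k ^ 2) := Nat.mul_le_mul_left _ (by omega)
    _ = Nat.card k ^ 5 := by ring

end Pool.Agent.Lib.MP_8cb858_nt.PF
end

section
/-!
# FCN: the count in normal form
-/
namespace Pool.Agent.Lib.MP_8cb858_nt.PF

open Matrix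
open scoped Classical

namespace FCNM

variable {k : Type} [Field k]

theorem gc_iff (a b : k) (A B : Matrix (Fin 3) (Fin 3) k) :
    Gc a b A B ↔ B.IsSymm ∧ ZER.Chr A B a b := by
  unfold Gc ZER.Chr
  rw [Matrix.trace_mul_comm A B.adjugate, mul_comm a A.det, mul_comm b A.det]

end FCNM

open FCNM ZER.OMBM in
theorem specFCN : SpecFCN := by
  intro k _ _ δ h2 hδ
  constructor
  · set N : Set (k × k) := {p : k × k | ∀ x : k, x ^ 3 + p.1 * x + p.2 ≠ 0} with hN
    set U : Set (k × (k × (k × k))) := {x : k | x ≠ 0} ×ˢ ((Set.univ : Set k) ×ˢ N) with hU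
    have hUc : U.ncard = (Nat.card k - 1) * (Nat.card k * N.ncard) := by
      rw [hU, Set.ncard_prod, Set.ncard_prod, card_ne, Set.ncard_univ]
    rw [← hUc]
    have hsub : {B : Matrix (Fin 3) (Fin 3) k | B 0 0 = 0 ∧
        B ∈ B3 !![0, 0, 1; 0, δ, 0; 1, 0, 0]} ⊆
        (fun p : k × (k × (k × k)) => F1 δ p.2.2.1 p.2.2.2 (p.1, p.2.1)) '' U := by
      rintro B ⟨h0, a, b, hG, hroot⟩
      rw [gc_iff] at hG
      obtain ⟨hs, hc⟩ := hG
      change ZER.Chr (A0 δ) B a b at hc
      have hB := sy_of B hs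
      rw [h0] at hB
      rw [hB, chr_A0] at hc
      obtain ⟨c1, c2, c3⟩ := hc
      set q := B 0 1
      set r := B 0 2
      set s := B 1 1
      set t := B 1 2
      set w := B 2 2
      have hq : q ≠ 0 := by
        intro hq
        rw [hq, c1] at c2 c3
        have ha : a = -(3 * r ^ 2) := by
          apply mul_left_cancel₀ hδ
          linear_combination c2
        have hb : b = 2 * r ^ 3 := by
          apply mul_left_cancel₀ hδ
          linear_combination -c3
        apply hroot r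
        rw [ha, hb]; ring
      refine ⟨(q, r, (a, b)), ⟨hq, trivial, hroot⟩, ?_⟩
      rw [hB]
      unfold F1
      have ht : -(δ * (a + 3 * r ^ 2)) / (2 * q) = t := by
        rw [div_eq_iff (mul_ne_zero h2 hq)]
        rw [c1] at c2
        linear_combination -c2
      have hw : -(δ * (r ^ 3 + a * r + b)) / q ^ 2 = w := by
        rw [div_eq_iff (pow_ne_zero 2 hq)]
        rw [c1] at c2 c3
        linear_combination c3 - r * c2
      simp only [ht, hw, ← c1]
    exact (Set.ncard_le_ncard hsub (Set.toFinite _)).trans (Set.ncard_image_le (Set.toFinite _))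
  · have hc : Nat.card k ^ 2 = (Set.univ : Set (k × k)).ncard := by
      rw [Set.ncard_univ, Nat.card_prod, sq]
    rw [hc]
    refine Set.ncard_le_ncard_of_injOn
      (fun w : Fin 3 → k => if w 2 = 0 then (w 0, 0) else (w 1, w 2)) (fun _ _ => trivial) ?_
      (Set.toFinite _)
    intro x hx y hy hxy
    have hx' : 2 * x 0 * x 2 + δ * x 1 ^ 2 = 0 := by rw [← q3_A0]; exact hx
    have hy' : 2 * y 0 * y 2 + δ * y 1 ^ 2 = 0 := by rw [← q3_A0]; exact hy
    simp only at hxy
    by_cases h : x 2 = 0 <;> by_cases h' : y 2 = 0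
    · rw [if_pos h, if_pos h'] at hxy
      have e0 : x 0 = y 0 := (Prod.mk.inj hxy).1
      rw [h] at hx'
      rw [h'] at hy'
      have e1 : x 1 = 0 := by
        have : δ * x 1 ^ 2 = 0 := by linear_combination hx'
        exact pow_eq_zero_iff (two_ne_zero) |>.mp ((mul_eq_zero.mp this).resolve_left hδ)
      have e2 : y 1 = 0 := by
        have : δ * y 1 ^ 2 = 0 := by linear_combination hy'
        exact pow_eq_zero_iff (two_ne_zero) |>.mp ((mul_eq_zero.mp this).resolve_left hδ)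
      ext j
      fin_cases j
      · exact e0
      · exact e1.trans e2.symm
      · exact h.trans h'.symm
    · rw [if_pos h, if_neg h'] at hxy
      exact absurd (Prod.mk.inj hxy).2.symm h'
    · rw [if_neg h, if_pos h'] at hxy
      exact absurd (Prod.mk.inj hxy).2 h
    · rw [if_neg h, if_neg h'] at hxy
      obtain ⟨e1, e2⟩ := Prod.mk.inj hxy
      have e0 : x 0 = y 0 := by
        apply mul_left_cancel₀ (mul_ne_zero h2 h)
        rw [← e1, ← e2] at hy'
        linear_combination hx' - hy'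
      ext j
      fin_cases j
      · exact e0
      · exact e1
      · exact e2

end Pool.Agent.Lib.MP_8cb858_nt.PF
end

section
/-!
# FHB: a hyperbolic basis containing a given isotropic vector
-/
namespace Pool.Agent.Lib.MP_8cb858_nt.PF

open Matrix

theorem specFHB : SpecFHB := by
  intro k _ A e h2 hA hd he hq
  obtain ⟨g, hg, hge, hgA⟩ := ZER.OMBM.norm_ex A h2 hA hd e he hq
  exact ⟨g, -A.det, by rw [hg]; exact one_ne_zero, hge, neg_ne_zero.mpr hd, hgA⟩

end Pool.Agent.Lib.MP_8cb858_nt.PF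
end

section
/-!
# MIV: the number of isotropic vectors of a ternary form over a finite field
-/
namespace Pool.Agent.Lib.MP_8cb858_nt.PT

open Matrix
open Pool.Agent.Lib.MP_8cb858_nt.PF
open scoped Classical

open FC3M in
theorem specMIV (hFHB : PF.SpecFHB) (hFCN : PF.SpecFCN) : SpecMIV := by
  intro k _ _ A h2 hA hd
  have hq : 1 ≤ Nat.card k ^ 2 := Nat.one_le_pow _ _ Nat.card_pos
  by_cases hem : ∃ e : Fin 3 → k, e ≠ 0 ∧ e ⬝ᵥ A.mulVec e = 0
  · obtain ⟨e0, he0, hq0⟩ := hem
    obtain ⟨g, δ, hg, -, hδ, hgA⟩ := hFHB k A e0 h2 hA hd he0 hq0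
    refine le_trans ?_ (hFCN k δ h2 hδ).2
    have hgu : IsUnit g.det := isUnit_iff_ne_zero.2 hg
    refine Set.ncard_le_ncard_of_injOn (fun w => g⁻¹.mulVec w) ?_ ?_ (Set.toFinite _)
    · intro e hq
      change (g⁻¹.mulVec e) ⬝ᵥ (!![0, 0, 1; 0, δ, 0; 1, 0, 0] : Matrix (Fin 3) (Fin 3) k).mulVec
        (g⁻¹.mulVec e) = 0
      rw [← hgA, ev_tr, Matrix.mulVec_mulVec, Matrix.mul_nonsing_inv g hgu, Matrix.one_mulVec]
      exact hq
    · intro x _ y _ hxy
      have : g.mulVec (g⁻¹.mulVec x) = g.mulVec (g⁻¹.mulVec y) := congrArg _ hxy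
      rwa [Matrix.mulVec_mulVec, Matrix.mul_nonsing_inv g hgu, Matrix.one_mulVec,
        Matrix.mulVec_mulVec, Matrix.mul_nonsing_inv g hgu, Matrix.one_mulVec] at this
  · refine le_trans ?_ hq
    have hs : {e : Fin 3 → k | e ⬝ᵥ A.mulVec e = 0} ⊆ {0} := by
      intro e he
      by_contra h0
      exact hem ⟨e, h0, he⟩
    calc _ ≤ ({0} : Set (Fin 3 → k)).ncard := Set.ncard_le_ncard hs (Set.toFinite _)
      _ = 1 := Set.ncard_singleton _

end Pool.Agent.Lib.MP_8cb858_nt.PT
end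

section
/-!
# MLC: the local count
-/
set_option autoImplicit false

namespace Pool.Agent.Lib.MP_8cb858_nt.PT

open Polynomial NumberField IsDedekindDomain Pool.Agent.Lib.MP_8cb858_nt.SEL Matrix
open Pool.Agent.Lib.MP_8cb858_nt.PF
open scoped Classical WithZero

namespace MLCM

variable {R k : Type} [CommRing R] [Field k]

theorem symm_tr (g B : Matrix (Fin 3) (Fin 3) R) (hB : B.IsSymm) : (gᵀ * B * g).IsSymm := by
  unfold Matrix.IsSymm at *
  rw [Matrix.transpose_mul, Matrix.transpose_mul, Matrix.transpose_transpose, hB,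
    Matrix.mul_assoc]

theorem tr_inj (g : Matrix (Fin 3) (Fin 3) R) (hg : g.det = 1) :
    Function.Injective (fun B : Matrix (Fin 3) (Fin 3) R => gᵀ * B * g) := by
  intro B B' hBB
  replace hBB : gᵀ * B * g = gᵀ * B' * g := hBB
  have hgu : IsUnit g.det := by rw [hg]; exact isUnit_one
  have hgt : IsUnit gᵀ.det := by rw [Matrix.det_transpose]; exact hgu
  have h1 : gᵀ * B = gᵀ * B' := by
    have : gᵀ * B * g * g⁻¹ = gᵀ * B' * g * g⁻¹ := by rw [hBB]
    rwa [Matrix.mul_assoc, Matrix.mul_nonsing_inv g hgu, Matrix.mul_one, Matrix.mul_assoc,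
      Matrix.mul_nonsing_inv g hgu, Matrix.mul_one] at this
  have : gᵀ⁻¹ * (gᵀ * B) = gᵀ⁻¹ * (gᵀ * B') := by rw [h1]
  rwa [← Matrix.mul_assoc, Matrix.nonsing_inv_mul _ hgt, Matrix.one_mul, ← Matrix.mul_assoc,
    Matrix.nonsing_inv_mul _ hgt, Matrix.one_mul] at this

theorem map_tr (π : R →+* k) (g B : Matrix (Fin 3) (Fin 3) R) :
    (gᵀ * B * g).map π = (g.map π)ᵀ * B.map π * g.map π := by
  rw [Matrix.map_mul, Matrix.map_mul, Matrix.transpose_map]

theorem map_adj (π : R →+* k) (B : Matrix (Fin 3) (Fin 3) R) :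
    B.adjugate.map π = (B.map π).adjugate := by
  have := RingHom.map_adjugate π B
  exact this

theorem map_trace (π : R →+* k) (B : Matrix (Fin 3) (Fin 3) R) :
    π B.trace = (B.map π).trace := by
  simp [Matrix.trace, map_sum]

theorem map_det (π : R →+* k) (B : Matrix (Fin 3) (Fin 3) R) : π B.det = (B.map π).det :=
  RingHom.map_det π B

end MLCM

open MLCM in
theorem specMLC (hMLI : SpecMLI) (hMNC : SpecMNC) (hMZC : SpecMZC) (hMKV : SpecMKV)
    (hMIV : SpecMIV) (hFID : PR.SpecFID) : SpecMLC := by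
  intro R k _ _ _ π N A hC h2 h3 hA hd
  have hfin : Finite R := hC.fin
  set q := Nat.card k with hq
  have hq1 : 1 < q := Finite.one_lt_card
  set S0 : Set (Matrix (Fin 3) (Fin 3) R) :=
    {B | B.IsSymm ∧ (A.adjugate * B).trace = 0 ∧ B.map π = 0} with hS0
  set T : Set (Matrix (Fin 3) (Fin 3) R) := {B | B ∈ NS N A ∧ B.map π ≠ 0} with hT
  set S : Set (Fin 3 → k) := {e | e ≠ 0 ∧ e ⬝ᵥ (A.map π).mulVec e = 0} with hS
  have hsub : NS N A ⊆ S0 ∪ T := by
    intro B hB
    by_cases h : B.map π = 0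
    · left; exact ⟨hB.1, hB.2.1, h⟩
    · right; exact ⟨hB, h⟩
  have c0 : S0.ncard ≤ q ^ 10 := hMZC R k π N A hC h3 hA hd
  have hAs : (A.map π).IsSymm := hA.map π
  have c1 : S.ncard ≤ q ^ 2 - 1 := by
    have h4 := hMIV k (A.map π) h2 hAs hd
    have h5 : S = {e : Fin 3 → k | e ⬝ᵥ (A.map π).mulVec e = 0} \ {0} := by
      ext e
      simp only [hS, Set.mem_ofPred_eq, Set.mem_sdiff, Set.mem_singleton_iff]
      tauto
    rw [h5, Set.ncard_sdiff_singleton_of_mem (by simp)]
    exact Nat.sub_le_sub_right h4 1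
  have c2 : ∀ e ∈ S, {B | B ∈ T ∧ (B.map π).mulVec e = 0}.ncard ≤ 2 * q ^ 9 := by
    rintro e ⟨he, hqe⟩
    obtain ⟨g, hg, hge, hgA⟩ := hMLI R k π N A e hC h2 hA hd he hqe
    have hδ : π (-A.det) ≠ 0 := by
      rw [map_neg, neg_ne_zero, map_det]
      exact hd
    refine le_trans ?_ (hMNC R k π N (-A.det) hC h2 hδ)
    refine Set.ncard_le_ncard_of_injOn (fun B => gᵀ * B * g) ?_ (tr_inj g hg).injOn
      (Set.toFinite _)
    rintro B ⟨⟨⟨b1, b2, b3, b4⟩, b5⟩, b6⟩
    refine ⟨⟨symm_tr g B b1, ?_, ?_, ?_⟩, ?_, ?_⟩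
    · rw [← hgA, hFID.cg, b2, mul_zero]
    · rw [← hgA, Matrix.trace_mul_comm, hFID.cg, hg, one_pow, one_mul, Matrix.trace_mul_comm]
      exact b3
    · rw [Matrix.det_mul, Matrix.det_mul, b4, mul_zero, zero_mul]
    · rw [map_tr, ← Matrix.mulVec_mulVec, hge, ← Matrix.mulVec_mulVec, b6, Matrix.mulVec_zero]
    · intro h0
      apply b5
      have hgk : (g.map π).det ≠ 0 := by
        rw [← map_det, hg, map_one]
        exact one_ne_zero
      apply FC3M.tr_inj (g.map π) hgk
      change (g.map π)ᵀ * B.map π * g.map π = (g.map π)ᵀ * 0 * g.map π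
      rw [← map_tr, Matrix.mul_zero, Matrix.zero_mul]
      exact h0
  have c3 : ∀ B ∈ T, q - 1 ≤ {e | e ∈ S ∧ (B.map π).mulVec e = 0}.ncard := by
    rintro B ⟨⟨b1, b2, b3, b4⟩, b5⟩
    obtain ⟨w, hw, hwA, hwB⟩ := hMKV k (A.map π) (B.map π) hAs hd (b1.map π)
      (by rw [← map_adj, ← Matrix.map_mul, ← map_trace, b2, map_zero])
      (by rw [← map_adj, ← Matrix.map_mul, ← map_trace]; exact hC.le _ b3)
      (by rw [← map_det, b4, map_zero]) b5
    rw [hq, ← ZER.OMBM.card_ne]
    refine Set.ncard_le_ncard_of_injOn (fun c : k => c • w) ?_ ?_ (Set.toFinite _)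
    · intro c hc
      refine ⟨⟨smul_ne_zero hc hw, ?_⟩, ?_⟩
      · rw [Matrix.mulVec_smul, smul_dotProduct, dotProduct_smul, hwA, smul_zero, smul_zero]
      · rw [Matrix.mulVec_smul, hwB, smul_zero]
    · intro c _ c' _ h
      exact smul_left_injective k hw h
  have h := FC3M.dcle S T (fun e B => (B.map π).mulVec e = 0) _ _ c2 c3
  obtain ⟨m, hm⟩ : ∃ m, q = m + 1 := ⟨q - 1, by omega⟩
  have hT3 : T.ncard ≤ 3 * q ^ 10 := by
    have hm0 : 0 < q - 1 := by omega
    apply Nat.le_of_mul_le_mul_right _ hm0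
    have e1 : q ^ 2 - 1 = (q + 1) * (q - 1) := by
      rw [hm]
      simp only [Nat.add_sub_cancel]
      have : (m + 1) ^ 2 = (m + 1 + 1) * m + 1 := by ring
      omega
    calc T.ncard * (q - 1) ≤ S.ncard * (2 * q ^ 9) := h
      _ ≤ (q ^ 2 - 1) * (2 * q ^ 9) := Nat.mul_le_mul_right _ c1
      _ = (2 * (q + 1)) * q ^ 9 * (q - 1) := by rw [e1]; ring
      _ ≤ (3 * q) * q ^ 9 * (q - 1) := by
          apply Nat.mul_le_mul_right
          apply Nat.mul_le_mul_right
          omega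
      _ = 3 * q ^ 10 * (q - 1) := by ring
  calc (NS N A).ncard ≤ (S0 ∪ T).ncard := Set.ncard_le_ncard hsub (Set.toFinite _)
    _ ≤ S0.ncard + T.ncard := Set.ncard_union_le _ _
    _ ≤ q ^ 10 + 3 * q ^ 10 := Nat.add_le_add c0 hT3
    _ = 4 * q ^ 10 := by ring

end Pool.Agent.Lib.MP_8cb858_nt.PT
end
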