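import Pool.Agent.Lib.MP_8cb858_nt.PT.SpecF
import Pool.Agent.Lib.MP_8cb858_nt.PR.SpecDN

section
/-!
# EQZ: equidistribution of the pairs in residue classes
-/
namespace Pool.Agent.Lib.MP_8cb858_nt.PT

open scoped Classical

theorem specEQZ (hDNH : PR.SpecDNH) (hHZA : SpecHZA) (hHZB : SpecHZB) : SpecEQZ := by
  refine ⟨hHZB.1, hHZB.2.1, ?_⟩
  intro N R ε hN hε
  obtain ⟨e, he, he1, he2⟩ : ∃ e : ℝ, 0 < e ∧ e ≤ 1 ∧ e ≤ ε :=
    ⟨min 1 ε, lt_min one_pos hε, min_le_left _ _, min_le_right _ _⟩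
  obtain ⟨X1, hX1⟩ := hHZA.1 N R e hN he
  obtain ⟨X2, hX2⟩ := hHZA.2 e he
  obtain ⟨X3, hX3⟩ := hHZB.2.2 e he
  refine ⟨max (max X1 X2) (max X3 1), fun X hX => ?_⟩
  have h1 := hX1 X ((le_max_left _ _).trans ((le_max_left _ _).trans hX))
  have h2 := hX2 X ((le_max_right _ _).trans ((le_max_left _ _).trans hX))
  have h3 := hX3 X ((le_max_left _ _).trans ((le_max_right _ _).trans hX))
  have hX0 : (0 : ℝ) ≤ X := zero_le_one.trans ((le_max_right _ _).trans ((le_max_right _ _).trans hX))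
  have hη : 0 ≤ X ^ (5 / 6 : ℝ) := Real.rpow_nonneg hX0 _
  generalize X ^ (5 / 6 : ℝ) = η at h1 h2 h3 hη
  have hfin : (PR.Ht X).Finite := hDNH.1 X
  obtain ⟨A, hA⟩ : ∃ A : Set (ℤ × ℤ), A = {q ∈ PR.Ht X | ((q.1 : ZMod N), (q.2 : ZMod N)) ∈ R} := ⟨_, rfl⟩
  obtain ⟨A', hA'⟩ : ∃ A' : Set (ℤ × ℤ), A' = {q ∈ Hz X | ((q.1 : ZMod N), (q.2 : ZMod N)) ∈ R} := ⟨_, rfl⟩
  obtain ⟨Z, hZ⟩ : ∃ Z : Set (ℤ × ℤ), Z = {q ∈ PR.Ht X | dz q.1 q.2 = 0} := ⟨_, rfl⟩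
  rw [← hA] at h1
  rw [← hZ] at h2
  rw [← hA']
  have hAf : A.Finite := by
    rw [hA]
    exact hfin.subset fun q hq => hq.1
  have hZf : Z.Finite := by
    rw [hZ]
    exact hfin.subset fun q hq => hq.1
  have s1 : A' ⊆ A := by
    rw [hA, hA']
    rintro q ⟨hq1, hq2⟩
    exact ⟨⟨hq1.1, hq1.2.1⟩, hq2⟩
  have s2 : A ⊆ A' ∪ Z := by
    rw [hA, hA', hZ]
    rintro q ⟨hq1, hq2⟩
    by_cases h0 : dz q.1 q.2 = 0
    · exact Or.inr ⟨hq1, h0⟩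
    · exact Or.inl ⟨⟨hq1.1, hq1.2, h0⟩, hq2⟩
  have c1 : (A'.ncard : ℝ) ≤ (A.ncard : ℝ) := by exact_mod_cast Set.ncard_le_ncard s1 hAf
  have c2 : (A.ncard : ℝ) ≤ (A'.ncard : ℝ) + (Z.ncard : ℝ) := by
    exact_mod_cast (Set.ncard_le_ncard s2 ((hAf.subset s1).union hZf)).trans (Set.ncard_union_le _ _)
  have hNR : (0 : ℝ) < N := by exact_mod_cast hN
  obtain ⟨c, hc⟩ : ∃ c : ℝ, c = (R.ncard : ℝ) / (N : ℝ) ^ 2 := ⟨_, rfl⟩
  have hc0 : 0 ≤ c := by rw [hc]; positivity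
  have hc1 : c ≤ 1 := by
    rw [hc, div_le_one (by positivity)]
    have hNe : NeZero N := ⟨hN.ne'⟩
    have h5 : R.ncard ≤ (Set.univ : Set (ZMod N × ZMod N)).ncard :=
      Set.ncard_le_ncard (Set.subset_univ _) (Set.toFinite _)
    rw [Set.ncard_univ, Nat.card_prod, Nat.card_zmod] at h5
    have h6 : (R.ncard : ℝ) ≤ (N : ℝ) * N := by exact_mod_cast h5
    linarith [sq (N : ℝ)]
  have h4 : 4 * (R.ncard : ℝ) / (N : ℝ) ^ 2 * η = c * (4 * η) := by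
    rw [hc]
    ring
  rw [h4] at h1
  rw [← hc]
  have g1 := abs_le.1 h1
  have g3 := abs_le.1 h3
  obtain ⟨H, hH⟩ : ∃ H : ℝ, H = ((Hz X).ncard : ℝ) := ⟨_, rfl⟩
  rw [← hH] at g3 ⊢
  have k1 : c * H ≤ c * (4 * η) + e * η := by
    have : c * (H - 4 * η) ≤ 1 * (e * η) := by
      by_cases hs : 0 ≤ H - 4 * η
      · exact mul_le_mul hc1 g3.2 hs zero_le_one
      · have : c * (H - 4 * η) ≤ 0 := mul_nonpos_of_nonneg_of_nonpos hc0 (not_le.1 hs).le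
        have : 0 ≤ e * η := mul_nonneg he.le hη
        linarith
    linarith
  have k2 : c * (4 * η) - e * η ≤ c * H := by
    have : c * (4 * η - H) ≤ 1 * (e * η) := by
      by_cases hs : 0 ≤ 4 * η - H
      · exact mul_le_mul hc1 (by linarith) hs zero_le_one
      · have : c * (4 * η - H) ≤ 0 := mul_nonpos_of_nonneg_of_nonpos hc0 (not_le.1 hs).le
        have : 0 ≤ e * η := mul_nonneg he.le hη
        linarith
    linarith
  have k3 : e * η ≤ η := by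
    have := mul_le_mul_of_nonneg_right he1 hη
    linarith
  have k4 : 3 * η ≤ H := by linarith
  have k5 : 3 * (e * η) ≤ ε * H := by
    have : e * (3 * η) ≤ ε * H := mul_le_mul he2 k4 (by linarith) (by linarith)
    linarith
  rw [abs_le]
  constructor <;> linarith

end Pool.Agent.Lib.MP_8cb858_nt.PT
end

section
/-!
# FMP: the first moment over the rationals, in terms of prime numbers
-/
namespace Pool.Agent.Lib.MP_8cb858_nt.PT

open Polynomial NumberField IsDedekindDomain Pool.Agent.Lib.MP_8cb858_nt.SEL Matrix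
open Pool.Agent.Lib.MP_8cb858_nt.PF
open scoped Classical

namespace FMPM

theorem mem_iff (hPLQ : SpecPLQ) {p : ℕ} (hp : p.Prime) {v : HeightOneSpectrum (𝓞 ℚ)}
    (hv : (p : 𝓞 ℚ) ∈ v.asIdeal) (n : ℕ) : (n : 𝓞 ℚ) ∈ v.asIdeal ↔ p ∣ n := by
  have h := hPLQ.mem p v (n : ℤ) 1 hp hv
  rw [pow_one, pow_one] at h
  rw [Int.cast_natCast] at h
  rw [h]
  exact Int.natCast_dvd_natCast

theorem nv_eq (hPLQ : SpecPLQ) {p : ℕ} (hp : p.Prime) {v : HeightOneSpectrum (𝓞 ℚ)}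
    (hv : (p : 𝓞 ℚ) ∈ v.asIdeal) : nv v = p := by
  have h1 : p ∣ nv v := (mem_iff hPLQ hp hv (nv v)).1 (Ideal.absNorm_mem v.asIdeal)
  have h2 : ((nv v : ℕ) : ℤ) ∣ Algebra.norm ℤ (p : 𝓞 ℚ) := Ideal.absNorm_dvd_norm_of_mem hv
  have e : (p : 𝓞 ℚ) = algebraMap ℤ (𝓞 ℚ) (p : ℤ) := by simp
  rw [e, Algebra.norm_algebraMap, RingOfIntegers.rank, Module.finrank_self, pow_one] at h2
  exact Nat.dvd_antisymm (Int.natCast_dvd_natCast.1 h2) h1

theorem tz_iff (hPLQ : SpecPLQ) {a b : ℤ} {D p : ℕ} (hp : p.Prime) {v : HeightOneSpectrum (𝓞 ℚ)}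
    (hv : (p : 𝓞 ℚ) ∈ v.asIdeal) (z : Sl a b D) :
    Tz p z ↔ TrN (a := (a : 𝓞 ℚ)) (b := (b : 𝓞 ℚ)) D v z := by
  constructor
  · rintro ⟨v', hv', h⟩
    rw [hPLQ.uni p v v' hp hv hv']
    exact h
  · intro h
    exact ⟨v, hv, h⟩

/-- The map to the pairs over `𝓞 ℚ`. -/
noncomputable def Phi (D : ℕ) (z : Σ q : ℤ × ℤ, Sl q.1 q.2 D) :
    Σ q : 𝓞 ℚ × 𝓞 ℚ, Sel 2 (cN q.1 q.2 D) :=
  ⟨((z.1.1 : 𝓞 ℚ), (z.1.2 : 𝓞 ℚ)), z.2⟩

theorem Phi_inj (D : ℕ) : Function.Injective (Phi D) := by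
  rintro ⟨⟨a, b⟩, z⟩ ⟨⟨a', b'⟩, z'⟩ h
  have h1 := congrArg (fun t : (Σ q : 𝓞 ℚ × 𝓞 ℚ, Sel 2 (cN q.1 q.2 D)) => t.1) h
  have h2 : ((a : 𝓞 ℚ), (b : 𝓞 ℚ)) = ((a' : 𝓞 ℚ), (b' : 𝓞 ℚ)) := h1
  have ha : a = a' := Int.cast_injective (congrArg Prod.fst h2)
  have hb : b = b' := Int.cast_injective (congrArg Prod.snd h2)
  subst ha hb
  have h3 := (Sigma.mk.inj_iff.1 h).2
  have h4 : z = z' := eq_of_heq h3
  rw [h4]

/-- the numerical estimate for the primes dividing `D` -/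
theorem num (P0 : ℕ) (D : ℕ) (hD : Squarefree D) :
    (D : ℝ) ^ 5 * ∏ p ∈ D.primeFactors.filter (fun p => P0 < p), 4 / (p : ℝ) ^ 5 ≤
      ((∏ p ∈ (Finset.range (P0 + 1)).filter Nat.Prime, p : ℕ) : ℝ) ^ 5 *
        4 ^ D.primeFactors.card := by
  obtain ⟨A, hA⟩ : ∃ A : ℕ, A = ∏ p ∈ D.primeFactors.filter (fun p => ¬ P0 < p), p := ⟨_, rfl⟩
  obtain ⟨B, hB⟩ : ∃ B : ℕ, B = ∏ p ∈ D.primeFactors.filter (fun p => P0 < p), p := ⟨_, rfl⟩
  have hDAB : D = B * A := by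
    rw [hA, hB, Finset.prod_filter_mul_prod_filter_not]
    exact (Nat.prod_primeFactors_of_squarefree hD).symm
  have hA1 : A ≤ ∏ p ∈ (Finset.range (P0 + 1)).filter Nat.Prime, p := by
    rw [hA]
    refine Finset.prod_le_prod_of_subset_of_one_le' ?_ ?_
    · intro p hp
      rw [Finset.mem_filter] at hp
      rw [Finset.mem_filter, Finset.mem_range]
      exact ⟨by omega, Nat.prime_of_mem_primeFactors hp.1⟩
    · intro p hp _
      exact (Finset.mem_filter.1 hp).2.one_lt.le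
  have hBpos : 0 < B := by
    rw [hB]
    exact Finset.prod_pos fun p hp =>
      (Nat.prime_of_mem_primeFactors (Finset.mem_filter.1 hp).1).pos
  have hBR : (0 : ℝ) < B := by exact_mod_cast hBpos
  have e1 : ∏ p ∈ D.primeFactors.filter (fun p => P0 < p), 4 / (p : ℝ) ^ 5 =
      4 ^ (D.primeFactors.filter (fun p => P0 < p)).card / (B : ℝ) ^ 5 := by
    rw [Finset.prod_div_distrib, Finset.prod_const, Finset.prod_pow, hB]
    push_cast
    rfl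
  have e2 : (D : ℝ) = B * A := by rw [hDAB]; push_cast; rfl
  rw [e1, e2]
  have e3 : ((B : ℝ) * A) ^ 5 * (4 ^ (D.primeFactors.filter (fun p => P0 < p)).card /
      (B : ℝ) ^ 5) = (A : ℝ) ^ 5 * 4 ^ (D.primeFactors.filter (fun p => P0 < p)).card := by
    field_simp
  rw [e3]
  refine mul_le_mul ?_ ?_ (by positivity) (by positivity)
  · exact pow_le_pow_left₀ (by positivity) (by exact_mod_cast hA1) 5
  · exact pow_le_pow_right₀ (by norm_num) (Finset.card_filter_le _ _)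

end FMPM

open FMPM in
theorem specFMP (hMMA : SpecMMA) (hHQB : SpecHQB) (hPLQ : SpecPLQ) (hHZB : SpecHZB) : SpecFMP := by
  obtain ⟨C1, P0, hC1, hM⟩ := hMMA ℚ
  obtain ⟨C0, hC0⟩ : ∃ C0 : ℕ, C0 = ∏ p ∈ (Finset.range (P0 + 1)).filter Nat.Prime, p := ⟨_, rfl⟩
  refine ⟨C1 * (C0 : ℝ) ^ 5 + 1, 4, P0, by
    have : 0 ≤ C1 * (C0 : ℝ) ^ 5 := by positivity
    linarith, by norm_num, ?_⟩
  intro Q D Z hD hQ hZ
  have hD0 : 0 < D := Nat.pos_of_ne_zero hD.ne_zero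
  -- the places
  obtain ⟨pl, hpl⟩ : ∃ pl : ℕ → HeightOneSpectrum (𝓞 ℚ), ∀ p : ℕ, p.Prime →
      (p : 𝓞 ℚ) ∈ (pl p).asIdeal := by
    have h : ∀ p : ℕ, ∃ v : HeightOneSpectrum (𝓞 ℚ), p.Prime → (p : 𝓞 ℚ) ∈ v.asIdeal := by
      intro p
      by_cases hp : p.Prime
      · obtain ⟨v, hv⟩ := hPLQ.ex p hp
        exact ⟨v, fun _ => hv⟩
      · obtain ⟨v, hv⟩ := hPLQ.ex 2 Nat.prime_two
        exact ⟨v, fun h => absurd h hp⟩
    choose pl hpl using h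
    exact ⟨pl, hpl⟩
  have hnv : ∀ p : ℕ, p.Prime → nv (pl p) = p := fun p hp => nv_eq hPLQ hp (hpl p hp)
  have hinj : ∀ p q : ℕ, p.Prime → q.Prime → pl p = pl q → p = q := by
    intro p q hp hq h
    rw [← hnv p hp, ← hnv q hq, h]
  obtain ⟨Q', hQ'⟩ : ∃ Q' : Finset (HeightOneSpectrum (𝓞 ℚ)), Q' = Q.image pl := ⟨_, rfl⟩
  obtain ⟨Z', hZ'⟩ : ∃ Z' : Finset (Finset (HeightOneSpectrum (𝓞 ℚ))),
    Z' = Z.image (fun z => z.image pl) := ⟨_, rfl⟩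
  obtain ⟨W, hW⟩ : ∃ W : Finset (HeightOneSpectrum (𝓞 ℚ)),
    W = (D.primeFactors.filter (fun p => P0 < p)).image pl := ⟨_, rfl⟩
  have hinjQ : Set.InjOn pl (Q : Set ℕ) := fun p hp q hq h =>
    hinj p q (hQ p hp).1 (hQ q hq).1 h
  have hpf : ∀ p ∈ D.primeFactors.filter (fun p => P0 < p), p.Prime ∧ p ∣ D ∧ P0 < p := by
    intro p hp
    rw [Finset.mem_filter] at hp
    exact ⟨Nat.prime_of_mem_primeFactors hp.1, Nat.dvd_of_mem_primeFactors hp.1, hp.2⟩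
  have hinjW : Set.InjOn pl ((D.primeFactors.filter (fun p => P0 < p) : Finset ℕ) : Set ℕ) :=
    fun p hp q hq h => hinj p q (hpf p hp).1 (hpf q hq).1 h
  obtain ⟨R0, hR0⟩ := hM Q' ∅ W D Z' hD0 (fun v _ => Finset.notMem_empty v) (by
      intro v hv
      rw [Finset.union_empty, hQ', Finset.mem_image] at hv
      obtain ⟨p, hp, rfl⟩ := hv
      obtain ⟨h1, h2, h3⟩ := hQ p hp
      rw [hnv p h1]
      exact ⟨h2, fun h => h3 ((mem_iff hPLQ h1 (hpl p h1) D).1 h)⟩) (by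
      intro v hv
      rw [hW, Finset.mem_image] at hv
      obtain ⟨p, hp, rfl⟩ := hv
      obtain ⟨h1, h2, h3⟩ := hpf p hp
      rw [hnv p h1]
      exact ⟨h3, (mem_iff hPLQ h1 (hpl p h1) D).2 h2⟩) (by
      intro z hz
      rw [hZ', Finset.mem_image] at hz
      obtain ⟨y, hy, rfl⟩ := hz
      rw [hQ']
      exact Finset.image_subset_image (hZ y hy))
  obtain ⟨X1, hX1⟩ := hHZB.2.2 3 (by norm_num)
  refine ⟨max (max 1 ((max R0 0) ^ 6)) X1, fun X hX => ?_⟩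
  have hXa : 1 ≤ X := (le_max_left _ _).trans ((le_max_left _ _).trans hX)
  have hXb : (max R0 0) ^ 6 ≤ X := (le_max_right _ _).trans ((le_max_left _ _).trans hX)
  have hXc : X1 ≤ X := (le_max_right _ _).trans hX
  have hρ : R0 ≤ X ^ (1 / 6 : ℝ) := by
    refine (le_max_left R0 0).trans ?_
    have h6 : ((max R0 0) ^ 6) ^ (1 / 6 : ℝ) = max R0 0 := by
      rw [← Real.rpow_natCast, ← Real.rpow_mul (le_max_right _ _)]
      norm_num
    rw [← h6]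
    exact Real.rpow_le_rpow (by positivity) hXb (by norm_num)
  obtain ⟨hfin, hcard⟩ := hR0 (fun _ => X ^ (1 / 6 : ℝ)) (fun _ => hρ)
  obtain ⟨hvol, hbox⟩ := hHQB X hXa
  obtain ⟨S, hS⟩ : ∃ S : Set (Σ q : ℤ × ℤ, Sl q.1 q.2 D), S =
      {z : (Σ q : ℤ × ℤ, Sl q.1 q.2 D) | z.1 ∈ Hz X ∧ (∀ p ∈ Q, Y12 p z.1.1 z.1.2) ∧ z.2 ≠ 0 ∧
        Q.filter (fun p => ¬ Tz p z.2) ∈ Z} := ⟨_, rfl⟩
  rw [← hS]
  have hmaps : ∀ z ∈ S, Phi D z ∈ FS Q' Q' ∅ D Z' (fun _ => X ^ (1 / 6 : ℝ)) := by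
    rintro ⟨⟨a, b⟩, z⟩ hz
    rw [hS] at hz
    obtain ⟨h1, h2, h3, h4⟩ := hz
    refine ⟨(hbox a b).1 h1, fun w hw => absurd hw (Finset.notMem_empty w), ?_, h3, ?_⟩
    · intro v hv
      rw [hQ', Finset.mem_image] at hv
      obtain ⟨p, hp, rfl⟩ := hv
      exact (hPLQ.y12 p (pl p) a b (hQ p hp).1 (hpl p (hQ p hp).1)).1 (h2 p hp)
    · rw [hZ', Finset.mem_image]
      refine ⟨_, h4, ?_⟩
      ext v
      simp only [hQ', Finset.mem_image, Finset.mem_filter]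
      constructor
      · rintro ⟨p, ⟨hp, hpz⟩, rfl⟩
        exact ⟨⟨p, hp, rfl⟩, fun h => hpz ((tz_iff hPLQ (hQ p hp).1 (hpl p (hQ p hp).1) z).2 h)⟩
      · rintro ⟨⟨p, hp, rfl⟩, h⟩
        exact ⟨p, ⟨hp, fun h' => h ((tz_iff hPLQ (hQ p hp).1 (hpl p (hQ p hp).1) z).1 h')⟩, rfl⟩
  have hSfin : S.Finite := Set.Finite.of_injOn hmaps (Phi_inj D).injOn hfin
  refine ⟨hSfin, ?_⟩
  have hle : S.ncard ≤ (FS Q' Q' ∅ D Z' (fun _ => X ^ (1 / 6 : ℝ))).ncard :=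
    Set.ncard_le_ncard_of_injOn (Phi D) hmaps (Phi_inj D).injOn hfin
  have hle' : (S.ncard : ℝ) ≤ ((FS Q' Q' ∅ D Z' (fun _ => X ^ (1 / 6 : ℝ))).ncard : ℝ) := by
    exact_mod_cast hle
  refine hle'.trans (hcard.trans ?_)
  rw [hvol, Module.finrank_self, mul_one]
  -- the density
  have hH : X ^ (5 / 6 : ℝ) ≤ ((Hz X).ncard : ℝ) := by
    have := abs_le.1 (hX1 X hXc)
    linarith [this.1]
  obtain ⟨q, hq⟩ : ∃ q : ℝ, q = ((Z.card : ℝ) / 2 ^ Q.card) *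
    (∏ p ∈ Q, (1 + 1 / (p : ℝ)) ^ 2 / 2) := ⟨_, rfl⟩
  have hq0 : 0 ≤ q := by rw [hq]; positivity
  have hdn : dnW Q' ∅ W Z' ≤ q *
      ∏ p ∈ D.primeFactors.filter (fun p => P0 < p), 4 / (p : ℝ) ^ 5 := by
    rw [dnW, dns, Finset.prod_empty, mul_one, hW, Finset.prod_image hinjW, hQ',
      Finset.prod_image hinjQ, Finset.card_image_of_injOn hinjQ, hq]
    have e1 : ∏ p ∈ Q, (1 + 1 / (nv (pl p) : ℝ)) ^ 2 / 2 = ∏ p ∈ Q, (1 + 1 / (p : ℝ)) ^ 2 / 2 :=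
      Finset.prod_congr rfl fun p hp => by rw [hnv p (hQ p hp).1]
    have e2 : ∏ p ∈ D.primeFactors.filter (fun p => P0 < p), 4 / (nv (pl p) : ℝ) ^ 5 =
        ∏ p ∈ D.primeFactors.filter (fun p => P0 < p), 4 / (p : ℝ) ^ 5 :=
      Finset.prod_congr rfl fun p hp => by rw [hnv p (hpf p hp).1]
    rw [e1, e2]
    refine mul_le_mul_of_nonneg_right ?_ (Finset.prod_nonneg fun p _ => by positivity)
    refine mul_le_mul_of_nonneg_right ?_ (Finset.prod_nonneg fun p _ => by positivity)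
    refine div_le_div_of_nonneg_right ?_ (by positivity)
    rw [hZ']
    exact_mod_cast Finset.card_image_le
  have hnum := num P0 D hD
  rw [← hC0] at hnum
  have hW0 : (0 : ℝ) ≤ 4 ^ D.primeFactors.card := by positivity
  have hX0 : (0 : ℝ) ≤ X ^ (5 / 6 : ℝ) := by positivity
  calc C1 * (D : ℝ) ^ 5 * dnW Q' ∅ W Z' * X ^ (5 / 6 : ℝ)
      ≤ C1 * (D : ℝ) ^ 5 * (q *
        ∏ p ∈ D.primeFactors.filter (fun p => P0 < p), 4 / (p : ℝ) ^ 5) * X ^ (5 / 6 : ℝ) := by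
        gcongr
    _ = C1 * ((D : ℝ) ^ 5 * ∏ p ∈ D.primeFactors.filter (fun p => P0 < p), 4 / (p : ℝ) ^ 5) *
        q * X ^ (5 / 6 : ℝ) := by ring
    _ ≤ C1 * ((C0 : ℝ) ^ 5 * 4 ^ D.primeFactors.card) * q * X ^ (5 / 6 : ℝ) := by gcongr
    _ ≤ (C1 * (C0 : ℝ) ^ 5 + 1) * 4 ^ D.primeFactors.card * q * ((Hz X).ncard : ℝ) := by
        have h1 : C1 * ((C0 : ℝ) ^ 5 * 4 ^ D.primeFactors.card) ≤
            (C1 * (C0 : ℝ) ^ 5 + 1) * 4 ^ D.primeFactors.card := by nlinarith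
        have h2 : 0 ≤ C1 * ((C0 : ℝ) ^ 5 * 4 ^ D.primeFactors.card) := by positivity
        gcongr
    _ = (C1 * (C0 : ℝ) ^ 5 + 1) * 4 ^ D.primeFactors.card * ((Z.card : ℝ) / 2 ^ Q.card) *
        (∏ p ∈ Q, (1 + 1 / (p : ℝ)) ^ 2 / 2) * ((Hz X).ncard : ℝ) := by
        rw [hq]; ring

end Pool.Agent.Lib.MP_8cb858_nt.PT
end

section
/-!
# Module HQB: the box of `ℚ`
-/
namespace Pool.Agent.Lib.MP_8cb858_nt.PT

open NumberField Pool.Agent.Lib.MP_8cb858_nt.SEL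
open Pool.Agent.Lib.MP_8cb858_nt.PF

theorem specHQB : SpecHQB := by
  intro X hX
  have hX0 : 0 ≤ X := by linarith
  obtain ⟨y, hy⟩ : ∃ y : ℝ, y = X ^ (1 / 6 : ℝ) := ⟨_, rfl⟩
  have hy0 : 0 ≤ y := by rw [hy]; exact Real.rpow_nonneg hX0 _
  have hy6 : y ^ 6 = X := by
    rw [hy, ← Real.rpow_natCast, ← Real.rpow_mul hX0]
    norm_num
  have hy5 : y ^ 5 = X ^ (5 / 6 : ℝ) := by
    rw [hy, ← Real.rpow_natCast, ← Real.rpow_mul hX0]
    norm_num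
  rw [← hy]
  refine ⟨?_, ?_⟩
  · rw [← hy5]
    congr 1
    unfold vol
    have h1 : ∀ v : InfinitePlace ℚ, y ^ v.mult = y := by
      intro v
      rw [Subsingleton.elim v Rat.infinitePlace]
      have h2 : (Rat.infinitePlace).mult = 1 := by
        unfold InfinitePlace.mult
        rw [if_pos Rat.isReal_infinitePlace]
      rw [h2, pow_one]
    rw [Finset.prod_congr rfl (fun v _ => h1 v), Finset.prod_const]
    have h3 : (Finset.univ : Finset (InfinitePlace ℚ)).card = 1 := by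
      rw [Finset.card_univ]
      exact Fintype.card_eq_one_iff.mpr ⟨Rat.infinitePlace, fun v => Subsingleton.elim _ _⟩
    rw [h3, pow_one]
  · intro a b
    have h1 : dz a b ≠ 0 ↔ 4 * (a : 𝓞 ℚ) ^ 3 + 27 * (b : 𝓞 ℚ) ^ 2 ≠ 0 := by
      have h2 : 4 * (a : 𝓞 ℚ) ^ 3 + 27 * (b : 𝓞 ℚ) ^ 2 = ((dz a b : ℤ) : 𝓞 ℚ) := by
        unfold dz
        push_cast
        rfl
      rw [h2]
      exact Int.cast_ne_zero.symm
    have h3 : ∀ (v : InfinitePlace ℚ) (n : ℤ), v (((n : 𝓞 ℚ)) : ℚ) = |(n : ℝ)| := by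
      intro v n
      have h6 : (((n : 𝓞 ℚ)) : ℚ) = (n : ℚ) := map_intCast (algebraMap (𝓞 ℚ) ℚ) n
      rw [Rat.infinitePlace_apply, h6]
      push_cast
      rfl
    have h4 : ∀ x : ℝ, |x| ^ 3 ≤ X ↔ |x| ≤ y ^ 2 := by
      intro x
      rw [← hy6, show y ^ 6 = (y ^ 2) ^ 3 by ring]
      exact pow_le_pow_iff_left₀ (abs_nonneg x) (by positivity) (by norm_num)
    have h5 : ∀ x : ℝ, x ^ 2 ≤ X ↔ |x| ≤ y ^ 3 := by
      intro x
      rw [← hy6, show y ^ 6 = (y ^ 3) ^ 2 by ring, ← sq_abs]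
      exact pow_le_pow_iff_left₀ (abs_nonneg x) (by positivity) (by norm_num)
    show (|(a : ℝ)| ^ 3 ≤ X ∧ (b : ℝ) ^ 2 ≤ X ∧ dz a b ≠ 0) ↔
      (4 * (a : 𝓞 ℚ) ^ 3 + 27 * (b : 𝓞 ℚ) ^ 2 ≠ 0 ∧ ∀ v : InfinitePlace ℚ,
        v (((a : 𝓞 ℚ)) : ℚ) ≤ y ^ 2 ∧ v (((b : 𝓞 ℚ)) : ℚ) ≤ y ^ 3)
    rw [← h1, h4, h5]
    constructor
    · rintro ⟨g1, g2, g3⟩
      exact ⟨g3, fun v => by rw [h3, h3]; exact ⟨g1, g2⟩⟩
    · rintro ⟨g3, g⟩
      have := g Rat.infinitePlace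
      rw [h3, h3] at this
      exact ⟨this.1, this.2, g3⟩

end Pool.Agent.Lib.MP_8cb858_nt.PT
end

section
/-!
# MHB: a hyperbolic basis with given isotropic first vector
-/
namespace Pool.Agent.Lib.MP_8cb858_nt.PT

open Matrix

namespace MHBM

/-- the bilinear form, written out -/
theorem bil {R : Type} [CommRing R] (A : Matrix (Fin 3) (Fin 3) R) (x y : Fin 3 → R) :
    x ⬝ᵥ A.mulVec y = x 0 * (A 0 0 * y 0 + A 0 1 * y 1 + A 0 2 * y 2) +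
      x 1 * (A 1 0 * y 0 + A 1 1 * y 1 + A 1 2 * y 2) +
      x 2 * (A 2 0 * y 0 + A 2 1 * y 1 + A 2 2 * y 2) := by
  simp only [dotProduct, Matrix.mulVec, Fin.sum_univ_three]

theorem core {R : Type} [CommRing R] (A : Matrix (Fin 3) (Fin 3) R) (e w : Fin 3 → R)
    (hA : A.IsSymm) (h1 : e ⬝ᵥ A.mulVec e = 0) (h2 : e ⬝ᵥ A.mulVec w = 1)
    (h3 : w ⬝ᵥ A.mulVec w = 0) :
    ∃ g : Matrix (Fin 3) (Fin 3) R, g.det = 1 ∧ g.mulVec ![1, 0, 0] = e ∧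
      gᵀ * A * g = hy (-A.det) := by
  have s10 : A 1 0 = A 0 1 := hA.apply 0 1
  have s20 : A 2 0 = A 0 2 := hA.apply 0 2
  have s21 : A 2 1 = A 1 2 := hA.apply 1 2
  rw [bil, s10, s20, s21] at h1 h2 h3
  generalize hEa : A 0 0 = a at *
  generalize hEb : A 0 1 = b at *
  generalize hEc : A 0 2 = c at *
  generalize hEd : A 1 1 = d at *
  generalize hEf : A 1 2 = f at *
  generalize hEh : A 2 2 = h at *
  have hA' : A = !![a, b, c; b, d, f; c, f, h] := by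
    ext i j
    fin_cases i <;> fin_cases j <;> simp [*]
  generalize hEe0 : e 0 = e0 at *
  generalize hEe1 : e 1 = e1 at *
  generalize hEe2 : e 2 = e2 at *
  generalize hEw0 : w 0 = w0 at *
  generalize hEw1 : w 1 = w1 at *
  generalize hEw2 : w 2 = w2 at *
  obtain ⟨x0, hx0⟩ : ∃ x0, x0 = e1 * w2 - e2 * w1 := ⟨_, rfl⟩
  obtain ⟨x1, hx1⟩ : ∃ x1, x1 = e2 * w0 - e0 * w2 := ⟨_, rfl⟩
  obtain ⟨x2, hx2⟩ : ∃ x2, x2 = e0 * w1 - e1 * w0 := ⟨_, rfl⟩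
  obtain ⟨u0, hu0⟩ : ∃ u0, u0 = (d * h - f * f) * x0 + (c * f - b * h) * x1 + (b * f - c * d) * x2 :=
    ⟨_, rfl⟩
  obtain ⟨u1, hu1⟩ : ∃ u1, u1 = (c * f - b * h) * x0 + (a * h - c * c) * x1 + (b * c - a * f) * x2 :=
    ⟨_, rfl⟩
  obtain ⟨u2, hu2⟩ : ∃ u2, u2 = (b * f - c * d) * x0 + (b * c - a * f) * x1 + (a * d - b * b) * x2 :=
    ⟨_, rfl⟩
  have hdet : A.det = a * (d * h - f * f) + b * (c * f - b * h) + c * (b * f - c * d) := by
    rw [hA', Matrix.det_fin_three]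
    simp
    ring
  -- the Gram identity
  have hG : u0 * x0 + u1 * x1 + u2 * x2 = -1 := by
    have e1' : u0 * x0 + u1 * x1 + u2 * x2 =
        (e0 * (a * e0 + b * e1 + c * e2) + e1 * (b * e0 + d * e1 + f * e2) +
          e2 * (c * e0 + f * e1 + h * e2)) *
        (w0 * (a * w0 + b * w1 + c * w2) + w1 * (b * w0 + d * w1 + f * w2) +
          w2 * (c * w0 + f * w1 + h * w2)) -
        (e0 * (a * w0 + b * w1 + c * w2) + e1 * (b * w0 + d * w1 + f * w2) +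
          e2 * (c * w0 + f * w1 + h * w2)) ^ 2 := by
      rw [hu0, hu1, hu2, hx0, hx1, hx2]
      ring
    rw [e1', h1, h2]
    ring
  have ha0 : a * u0 + b * u1 + c * u2 = A.det * x0 := by rw [hdet, hu0, hu1, hu2]; ring
  have ha1 : b * u0 + d * u1 + f * u2 = A.det * x1 := by rw [hdet, hu0, hu1, hu2]; ring
  have ha2 : c * u0 + f * u1 + h * u2 = A.det * x2 := by rw [hdet, hu0, hu1, hu2]; ring
  have hex : e0 * x0 + e1 * x1 + e2 * x2 = 0 := by rw [hx0, hx1, hx2]; ring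
  have hwx : w0 * x0 + w1 * x1 + w2 * x2 = 0 := by rw [hx0, hx1, hx2]; ring
  refine ⟨!![e0, u0, w0; e1, u1, w1; e2, u2, w2], ?_, ?_, ?_⟩
  · rw [Matrix.det_fin_three]
    simp
    rw [hx0, hx1, hx2] at hG
    linear_combination -hG
  · ext i
    fin_cases i <;> simp [Matrix.mulVec, dotProduct, Fin.sum_univ_three, *]
  · generalize A.det = D at *
    rw [hA']
    ext i j
    fin_cases i <;> fin_cases j <;>
      simp [hy, Matrix.mul_apply, Fin.sum_univ_three, Matrix.transpose_apply]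
    · linear_combination h1
    · linear_combination e0 * ha0 + e1 * ha1 + e2 * ha2 + D * hex
    · linear_combination h2
    · linear_combination e0 * ha0 + e1 * ha1 + e2 * ha2 + D * hex
    · linear_combination u0 * ha0 + u1 * ha1 + u2 * ha2 + D * hG
    · linear_combination w0 * ha0 + w1 * ha1 + w2 * ha2 + D * hwx
    · linear_combination h2
    · linear_combination w0 * ha0 + w1 * ha1 + w2 * ha2 + D * hwx
    · linear_combination h3

end MHBM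

open MHBM in
theorem specMHB : SpecMHB := by
  intro R _ A e w h2 hA he hw
  obtain ⟨c, hc⟩ := hw.exists_right_inv
  obtain ⟨t, ht⟩ := h2.exists_right_inv
  have hsym : ∀ x y : Fin 3 → R, x ⬝ᵥ A.mulVec y = y ⬝ᵥ A.mulVec x := by
    intro x y
    rw [bil, bil, show A 1 0 = A 0 1 from hA.apply 0 1, show A 2 0 = A 0 2 from hA.apply 0 2,
      show A 2 1 = A 1 2 from hA.apply 1 2]
    ring
  obtain ⟨w1, hw1⟩ : ∃ w1 : Fin 3 → R, w1 = c • w := ⟨_, rfl⟩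
  have e1 : e ⬝ᵥ A.mulVec w1 = 1 := by
    rw [hw1, Matrix.mulVec_smul, dotProduct_smul, smul_eq_mul, mul_comm]
    exact hc
  obtain ⟨s, hs⟩ : ∃ s, s = w1 ⬝ᵥ A.mulVec w1 := ⟨_, rfl⟩
  refine core A e (w1 - (t * s) • e) hA he ?_ ?_
  · rw [Matrix.mulVec_sub, Matrix.mulVec_smul, dotProduct_sub, dotProduct_smul, e1, he]
    simp
  · rw [Matrix.mulVec_sub, Matrix.mulVec_smul, dotProduct_sub, dotProduct_smul, sub_dotProduct,
      sub_dotProduct, smul_dotProduct, smul_dotProduct, he, hsym w1 e, e1, ← hs]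
    simp only [smul_eq_mul, mul_one, mul_zero, sub_zero]
    linear_combination (-s) * ht

end Pool.Agent.Lib.MP_8cb858_nt.PT
end

section
/-!
# MLI: lifting an isotropic vector of the residue form
-/
namespace Pool.Agent.Lib.MP_8cb858_nt.PT

open Matrix

namespace MLIM

theorem map_bil {R k : Type} [CommRing R] [Field k] (π : R →+* k) (A : Matrix (Fin 3) (Fin 3) R)
    (x y : Fin 3 → R) : π (x ⬝ᵥ A.mulVec y) =
      (fun i => π (x i)) ⬝ᵥ (A.map π).mulVec (fun i => π (y i)) := by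
  simp only [dotProduct, Matrix.mulVec, Fin.sum_univ_three, map_add, map_mul, Matrix.map_apply]

end MLIM

open MLIM in
theorem specMLI (hMHB : SpecMHB) : SpecMLI := by
  intro R k _ _ π N A e hR h2 hA hd he hq
  -- a vector pairing nontrivially with `e`
  have hne : (A.map π).mulVec e ≠ 0 := by
    intro h0
    apply hd
    exact Matrix.exists_mulVec_eq_zero_iff.1 ⟨e, he, h0⟩
  obtain ⟨j, hj⟩ : ∃ j, (A.map π).mulVec e j ≠ 0 := by
    by_contra hcon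
    push Not at hcon
    exact hne (funext hcon)
  choose l hl using hR.surj
  obtain ⟨e0, he0⟩ : ∃ e0 : Fin 3 → R, e0 = fun i => l (e i) := ⟨_, rfl⟩
  have hπe : (fun i => π (e0 i)) = e := by
    rw [he0]
    funext i
    exact hl (e i)
  have hsA : ∀ x y : Fin 3 → R, x ⬝ᵥ A.mulVec y = y ⬝ᵥ A.mulVec x := by
    intro x y
    have h10 : A 1 0 = A 0 1 := hA.apply 0 1
    have h20 : A 2 0 = A 0 2 := hA.apply 0 2
    have h21 : A 2 1 = A 1 2 := hA.apply 1 2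
    simp only [dotProduct, Matrix.mulVec, Fin.sum_univ_three, h10, h20, h21]
    ring
  -- the pairing with the coordinate vector is a unit
  have hpu : π (Pi.single j 1 ⬝ᵥ A.mulVec e0) ≠ 0 := by
    rw [map_bil, hπe]
    have : (fun i => π ((Pi.single j (1 : R) : Fin 3 → R) i)) = (Pi.single j 1 : Fin 3 → k) := by
      funext i
      by_cases h : i = j
      · subst h; simp
      · simp [h]
    rw [this, single_one_dotProduct]
    exact hj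
  obtain ⟨c, hc⟩ := (hR.unit _ hpu).exists_right_inv
  obtain ⟨w0, hw0⟩ : ∃ w0 : Fin 3 → R, w0 = c • Pi.single j 1 := ⟨_, rfl⟩
  have hew : e0 ⬝ᵥ A.mulVec w0 = 1 := by
    rw [hsA, hw0, smul_dotProduct, smul_eq_mul, mul_comm]
    exact hc
  have hu2 : IsUnit (2 : R) := hR.unit 2 (by rw [map_ofNat]; exact h2)
  obtain ⟨h, hh⟩ := hu2.exists_right_inv
  obtain ⟨γ, hγ⟩ : ∃ γ, γ = e0 ⬝ᵥ A.mulVec e0 := ⟨_, rfl⟩
  obtain ⟨d, hdd⟩ : ∃ d, d = w0 ⬝ᵥ A.mulVec w0 := ⟨_, rfl⟩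
  have hπγ : π γ = 0 := by
    rw [hγ, map_bil, hπe]
    exact hq
  have hγ3 : γ * (γ * γ) = 0 := hR.mul3 γ (γ * γ) hπγ (hR.mul γ γ hπγ hπγ)
  obtain ⟨x, hx⟩ : ∃ x, x = -(h * γ) - h ^ 3 * d * γ ^ 2 := ⟨_, rfl⟩
  have hπx : π x = 0 := by
    rw [hx, map_sub, map_neg, map_mul, map_mul, map_pow, hπγ]
    ring
  obtain ⟨e1, he1⟩ : ∃ e1 : Fin 3 → R, e1 = e0 + x • w0 := ⟨_, rfl⟩
  have hπe1 : (fun i => π (e1 i)) = e := by
    rw [← hπe, he1]
    funext i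
    simp [hπx]
  have q1 : e1 ⬝ᵥ A.mulVec e1 = 0 := by
    rw [he1, Matrix.mulVec_add, Matrix.mulVec_smul, dotProduct_add, add_dotProduct, add_dotProduct,
      dotProduct_smul, dotProduct_smul, smul_dotProduct, smul_dotProduct, hsA w0 e0, hew, ← hγ,
      ← hdd]
    simp only [smul_eq_mul]
    rw [hx]
    linear_combination (-γ - h ^ 2 * d * γ ^ 2) * hh +
      (2 * h ^ 4 * d ^ 2 + h ^ 6 * d ^ 3 * γ) * hγ3
  have q2 : π (e1 ⬝ᵥ A.mulVec w0) ≠ 0 := by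
    have : e1 ⬝ᵥ A.mulVec w0 = 1 + x * d := by
      rw [he1, add_dotProduct, smul_dotProduct, hew, ← hdd, smul_eq_mul]
    rw [this, map_add, map_one, map_mul, hπx, zero_mul, add_zero]
    exact one_ne_zero
  obtain ⟨g, g1, g2, g3⟩ := hMHB R A e1 w0 hu2 hA q1 (hR.unit _ q2)
  refine ⟨g, g1, ?_, g3⟩
  rw [← hπe1, ← g2]
  funext i
  simp [Matrix.mulVec, dotProduct, Fin.sum_univ_three]

end Pool.Agent.Lib.MP_8cb858_nt.PT
end

section
/-!
# MNC: the count in normal form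
-/
set_option autoImplicit false

namespace Pool.Agent.Lib.MP_8cb858_nt.PT

open Polynomial NumberField IsDedekindDomain Pool.Agent.Lib.MP_8cb858_nt.SEL Matrix
open Pool.Agent.Lib.MP_8cb858_nt.PF
open scoped Classical WithZero

namespace MNCM

variable {R k : Type} [CommRing R] [Field k]

theorem adj_tr (δ : R) (B : Matrix (Fin 3) (Fin 3) R) :
    ((hy δ).adjugate * B).trace = -(δ * B 2 0) - B 1 1 - δ * B 0 2 := by
  rw [Matrix.adjugate_fin_three]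
  simp [hy, Matrix.trace, Fin.sum_univ_three, Matrix.vecMul, dotProduct]
  ring

theorem tr_adj (δ : R) (B : Matrix (Fin 3) (Fin 3) R) :
    (hy δ * B.adjugate).trace = (B 1 0 * B 2 1 - B 1 1 * B 2 0) +
      δ * (B 0 0 * B 2 2 - B 0 2 * B 2 0) + (B 0 1 * B 1 2 - B 0 2 * B 1 1) := by
  rw [Matrix.adjugate_fin_three]
  simp [hy, Matrix.trace, Fin.sum_univ_three]

/-- what is known about an element of the set -/
theorem facts {π : R →+* k} {N : Ideal R} {δ : R} (B : Matrix (Fin 3) (Fin 3) R)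
    (hB : B ∈ NS N (hy δ)) (h1 : (B.map π).mulVec ![1, 0, 0] = 0) :
    B 1 0 = B 0 1 ∧ B 2 0 = B 0 2 ∧ B 2 1 = B 1 2 ∧ B 1 1 = -(2 * δ * B 0 2) ∧
    π (B 0 0) = 0 ∧ π (B 0 1) = 0 ∧ π (B 0 2) = 0 ∧
    2 * B 0 1 * B 1 2 + δ * (B 0 0 * B 2 2) + 3 * δ * B 0 2 ^ 2 ∈ N ∧
    B 0 0 * (2 * δ * B 0 2 * B 2 2 + B 1 2 ^ 2) + B 0 1 ^ 2 * B 2 2 - 2 * (B 0 1 * B 0 2) * B 1 2 -
      2 * δ * (B 0 2 * B 0 2 ^ 2) = 0 := by
  obtain ⟨hs, ht, hn, hd⟩ := hB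
  have s1 : B 1 0 = B 0 1 := hs.apply 0 1
  have s2 : B 2 0 = B 0 2 := hs.apply 0 2
  have s3 : B 2 1 = B 1 2 := hs.apply 1 2
  have t1 : B 1 1 = -(2 * δ * B 0 2) := by
    rw [adj_tr, s2] at ht
    linear_combination -ht
  have c : ∀ i, π (B i 0) = 0 := by
    intro i
    have := congrFun h1 i
    simpa [Matrix.mulVec, dotProduct, Fin.sum_univ_three, Matrix.map_apply] using this
  refine ⟨s1, s2, s3, t1, c 0, s1 ▸ c 1, s2 ▸ c 2, ?_, ?_⟩
  · rw [tr_adj, s1, s2, s3, t1] at hn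
    convert hn using 1
    ring
  · rw [Matrix.det_fin_three, s1, s2, s3, t1] at hd
    linear_combination -hd

theorem case_a {π : R →+* k} {N : Ideal R} {δ α β γ ε ζ : R} (hC : Ch3 π N) (h2 : (2 : k) ≠ 0)
    (hβ : π β = 0) (hγ : π γ = 0)
    (h1 : 2 * β * ε + δ * (α * ζ) + 3 * δ * γ ^ 2 ∈ N)
    (hd : α * (2 * δ * γ * ζ + ε ^ 2) + β ^ 2 * ζ - 2 * (β * γ) * ε - 2 * δ * (γ * γ ^ 2) = 0)
    (hε : π ε ≠ 0) : α = 0 ∧ β ∈ N := by
  have g2 : γ ^ 2 ∈ N := by rw [sq]; exact hC.mul γ γ hγ hγ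
  have g3 : γ * γ ^ 2 = 0 := hC.mul3 γ _ hγ g2
  have bb : β ^ 2 ∈ N := by rw [sq]; exact hC.mul β β hβ hβ
  have bg : β * γ ∈ N := hC.mul β γ hβ hγ
  have u : IsUnit (2 * δ * γ * ζ + ε ^ 2) := by
    apply hC.unit
    rw [map_add, map_mul, map_mul, map_mul, map_pow, hγ, mul_zero, zero_mul, zero_add]
    exact pow_ne_zero 2 hε
  obtain ⟨w, hw⟩ := u
  have e1 : α * (w : R) = 2 * (β * γ) * ε - β ^ 2 * ζ := by
    rw [hw]
    linear_combination hd + 2 * δ * g3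
  have aN : α ∈ N := by
    have : α * (w : R) ∈ N := by
      rw [e1]
      apply N.sub_mem
      · exact N.mul_mem_right _ (N.mul_mem_left _ bg)
      · exact N.mul_mem_right _ bb
    have h3 : α * (w : R) * ((w⁻¹ : Rˣ) : R) ∈ N := N.mul_mem_right _ this
    rwa [mul_assoc, Units.mul_inv, mul_one] at h3
  have bN : β ∈ N := by
    have h4 : 2 * β * ε ∈ N := by
      have h5 : δ * (α * ζ) + 3 * δ * γ ^ 2 ∈ N :=
        N.add_mem (N.mul_mem_left _ (N.mul_mem_right _ aN)) (N.mul_mem_left _ g2)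
      have h6 := N.sub_mem h1 h5
      convert h6 using 1
      ring
    have u2 : IsUnit (2 * ε) := by
      apply hC.unit
      rw [map_mul, map_ofNat]
      exact mul_ne_zero h2 hε
    obtain ⟨w2, hw2⟩ := u2
    have h7 : β * (w2 : R) ∈ N := by
      rw [hw2]
      convert h4 using 1
      ring
    have h8 : β * (w2 : R) * ((w2⁻¹ : Rˣ) : R) ∈ N := N.mul_mem_right _ h7
    rwa [mul_assoc, Units.mul_inv, mul_one] at h8
  refine ⟨?_, bN⟩
  have z1 : β * β = 0 := hC.mul3 β β hβ bN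
  have z2 : γ * β = 0 := hC.mul3 γ β hγ bN
  have e2 : α * (w : R) = 0 := by
    rw [e1]
    linear_combination 2 * ε * z2 - ζ * z1
  calc α = α * (w : R) * ((w⁻¹ : Rˣ) : R) := by rw [mul_assoc, Units.mul_inv, mul_one]
    _ = 0 := by rw [e2, zero_mul]

theorem case_b {π : R →+* k} {N : Ideal R} {δ α β γ ε ζ : R} (hC : Ch3 π N) (hδ : π δ ≠ 0)
    (hβ : π β = 0) (hγ : π γ = 0)
    (h1 : 2 * β * ε + δ * (α * ζ) + 3 * δ * γ ^ 2 ∈ N)
    (hd : α * (2 * δ * γ * ζ + ε ^ 2) + β ^ 2 * ζ - 2 * (β * γ) * ε - 2 * δ * (γ * γ ^ 2) = 0)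
    (hε : π ε = 0) (hζ : π ζ ≠ 0) : α ∈ N ∧ β ∈ N := by
  have g2 : γ ^ 2 ∈ N := by rw [sq]; exact hC.mul γ γ hγ hγ
  have g3 : γ * γ ^ 2 = 0 := hC.mul3 γ _ hγ g2
  have bg : β * γ ∈ N := hC.mul β γ hβ hγ
  have be : β * ε ∈ N := hC.mul β ε hβ hε
  have aN : α ∈ N := by
    have h5 : 2 * (β * ε) + 3 * δ * γ ^ 2 ∈ N :=
      N.add_mem (N.mul_mem_left _ be) (N.mul_mem_left _ g2)
    have h6 := N.sub_mem h1 h5
    have u : IsUnit (δ * ζ) := by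
      apply hC.unit
      rw [map_mul]
      exact mul_ne_zero hδ hζ
    obtain ⟨w, hw⟩ := u
    have h7 : α * (w : R) ∈ N := by
      rw [hw]
      convert h6 using 1
      ring
    have h8 : α * (w : R) * ((w⁻¹ : Rˣ) : R) ∈ N := N.mul_mem_right _ h7
    rwa [mul_assoc, Units.mul_inv, mul_one] at h8
  refine ⟨aN, ?_⟩
  have z1 : (2 * δ * γ * ζ + ε ^ 2) * α = 0 := by
    apply hC.mul3 _ _ _ aN
    rw [map_add, map_mul, map_mul, map_mul, map_pow, hγ, hε]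
    ring
  have z2 : ε * (β * γ) = 0 := hC.mul3 ε _ hε bg
  obtain ⟨w, hw⟩ := hC.unit ζ hζ
  have e1 : β ^ 2 * (w : R) = 0 := by
    rw [hw]
    linear_combination hd - z1 + 2 * z2 + 2 * δ * g3
  apply hC.sq
  calc β ^ 2 = β ^ 2 * (w : R) * ((w⁻¹ : Rˣ) : R) := by rw [mul_assoc, Units.mul_inv, mul_one]
    _ = 0 := by rw [e1, zero_mul]

end MNCM

open MNCM in
theorem specMNC : SpecMNC := by
  intro R k _ _ _ π N δ hC h2 hδ
  have hfin : Finite R := hC.fin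
  set q := Nat.card k with hq
  set m : Set R := {x : R | π x = 0} with hm
  set Sa : Set (R × R × R × R × R) :=
    ({0} : Set R) ×ˢ ((N : Set R) ×ˢ (m ×ˢ ((Set.univ : Set R) ×ˢ (Set.univ : Set R)))) with hSa
  set Sb : Set (R × R × R × R × R) :=
    (N : Set R) ×ˢ ((N : Set R) ×ˢ (m ×ˢ (m ×ˢ (Set.univ : Set R)))) with hSb
  set φ : Matrix (Fin 3) (Fin 3) R → R × R × R × R × R :=
    fun B => (B 0 0, B 0 1, B 0 2, B 1 2, B 2 2) with hφ
  have hu : (Set.univ : Set R).ncard ≤ q ^ 3 := by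
    rw [Set.ncard_univ]; exact hC.c3
  have hcm : m.ncard ≤ q ^ 2 := hC.c1
  have hcN : (N : Set R).ncard ≤ q := hC.c2
  have hca : Sa.ncard ≤ q ^ 9 := by
    rw [hSa, Set.ncard_prod, Set.ncard_prod, Set.ncard_prod, Set.ncard_prod, Set.ncard_singleton]
    calc 1 * ((N : Set R).ncard * (m.ncard * ((Set.univ : Set R).ncard * (Set.univ : Set R).ncard)))
        ≤ 1 * (q * (q ^ 2 * (q ^ 3 * q ^ 3))) := by gcongr
      _ = q ^ 9 := by ring
  have hcb : Sb.ncard ≤ q ^ 9 := by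
    rw [hSb, Set.ncard_prod, Set.ncard_prod, Set.ncard_prod, Set.ncard_prod]
    calc (N : Set R).ncard * ((N : Set R).ncard * (m.ncard * (m.ncard * (Set.univ : Set R).ncard)))
        ≤ q * (q * (q ^ 2 * (q ^ 2 * q ^ 3))) := by gcongr
      _ = q ^ 9 := by ring
  have hmem : ∀ B ∈ {B ∈ NS N (hy δ) | (B.map π).mulVec ![1, 0, 0] = 0 ∧ B.map π ≠ 0},
      φ B ∈ Sa ∪ Sb := by
    rintro B ⟨hB, h1, h0⟩
    obtain ⟨s1, s2, s3, t1, p1, p2, p3, i1, i2⟩ := facts B hB h1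
    by_cases hε : π (B 1 2) = 0
    · right
      have hζ : π (B 2 2) ≠ 0 := by
        intro hζ
        apply h0
        ext i j
        rw [Matrix.map_apply, Matrix.zero_apply]
        fin_cases i <;> fin_cases j
        · exact p1
        · exact p2
        · exact p3
        · show π (B 1 0) = 0
          rw [s1]; exact p2
        · show π (B 1 1) = 0
          rw [t1, map_neg, map_mul, p3, mul_zero, neg_zero]
        · exact hε
        · show π (B 2 0) = 0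
          rw [s2]; exact p3
        · show π (B 2 1) = 0
          rw [s3]; exact hε
        · exact hζ
      obtain ⟨a1, a2⟩ := case_b hC hδ p2 p3 i1 i2 hε hζ
      exact ⟨a1, a2, p3, hε, Set.mem_univ _⟩
    · left
      obtain ⟨a1, a2⟩ := case_a hC h2 p2 p3 i1 i2 hε
      exact ⟨a1, a2, p3, Set.mem_univ _, Set.mem_univ _⟩
  have hinj : Set.InjOn φ {B ∈ NS N (hy δ) | (B.map π).mulVec ![1, 0, 0] = 0 ∧ B.map π ≠ 0} := by
    rintro B ⟨hB, h1, -⟩ B' ⟨hB', h1', -⟩ h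
    obtain ⟨s1, s2, s3, t1, -⟩ := facts B hB h1
    obtain ⟨s1', s2', s3', t1', -⟩ := facts B' hB' h1'
    simp only [hφ, Prod.mk.injEq] at h
    obtain ⟨e1, e2, e3, e4, e5⟩ := h
    ext i j
    fin_cases i <;> fin_cases j
    · exact e1
    · exact e2
    · exact e3
    · show B 1 0 = B' 1 0
      rw [s1, s1', e2]
    · show B 1 1 = B' 1 1
      rw [t1, t1', e3]
    · exact e4
    · show B 2 0 = B' 2 0
      rw [s2, s2', e3]
    · show B 2 1 = B' 2 1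
      rw [s3, s3', e4]
    · exact e5
  calc _ ≤ (Sa ∪ Sb).ncard := Set.ncard_le_ncard_of_injOn φ hmem hinj (Set.toFinite _)
    _ ≤ Sa.ncard + Sb.ncard := Set.ncard_union_le _ _
    _ ≤ q ^ 9 + q ^ 9 := Nat.add_le_add hca hcb
    _ = 2 * q ^ 9 := by ring

end Pool.Agent.Lib.MP_8cb858_nt.PT
end
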