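import Pool.Agent.Lib.MP_8cb858_nt.PT.SpecN

/-!
# Specs: tightness, mixing, bad events, assembly (Theorem S*)

Notation of `SpecN.lean`; design: /team-store/MP_8cb858_STAR_design.txt. `n` = number of mixing blocks for each of the two curves
`E`, `E'`; the blocks `bk n k`, `k < 2n`, are sets of `r / (2n)` consecutive indices. `al E E' p i`: `p i` is of type (1,2) or (3) for
`E` and of type (3) for `E'` (neutral for `E'`). `As n E E' p lo hi` = the first such indices of the blocks `lo ≤ k < hi`.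
The curve `E` is mixed in the blocks `lo ≤ k < lo + n`, `E'` in the blocks `lo' ≤ k < lo' + n`; `(lo, lo')` is `(0, n)` or `(n, 0)`.
`Uk k` = the (1,2)-indices of `E` outside `A = Ax`, and the first `k` mixing indices of type (1,2).
Module XXX = file `PT/XXX.lean`, `theorem specXXX (hYYY : SpecYYY) .. : SpecXXX`, own lemmas in the namespace
`Pool.Agent.Lib.MP_8cb858_nt.PT.XXXM`. Every Spec is a closed proposition with a complete proof in its doc string.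
-/

namespace Pool.Agent.Lib.MP_8cb858_nt.PT

open Polynomial NumberField IsDedekindDomain Pool.Agent.Lib.MP_8cb858_nt.SEL
open Pool.Agent.Lib.MP_8cb858_nt.PF
open scoped Classical WithZero

namespace Dat

variable (S : Dat)

/-- The blocks of indices. -/
noncomputable def bk (n k : ℕ) : Finset (Fin S.r) :=
  Finset.univ.filter (fun i => i.val / (S.r / (2 * n)) = k)

/-- `i` is a mixing index for `E`, neutral for `E'`. -/
def al (E E' : ℤ × ℤ) (p : Fin S.r → ℕ) (i : Fin S.r) : Prop := ty (p i) E ≤ 1 ∧ ty (p i) E' = 1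

/-- The first mixing index of the block `k` (a set with at most one element). -/
noncomputable def fs (n : ℕ) (E E' : ℤ × ℤ) (p : Fin S.r → ℕ) (k : ℕ) : Finset (Fin S.r) :=
  (S.bk n k).filter (fun i => S.al E E' p i ∧ ∀ j ∈ S.bk n k, j < i → ¬ S.al E E' p j)

/-- The first mixing indices of the blocks `lo ≤ k < hi`. -/
noncomputable def As (n : ℕ) (E E' : ℤ × ℤ) (p : Fin S.r → ℕ) (lo hi : ℕ) : Finset (Fin S.r) :=
  (Finset.Ico lo hi).biUnion (S.fs n E E' p)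

/-- The set `A`. -/
noncomputable def Ax (n : ℕ) (E E' : ℤ × ℤ) (p : Fin S.r → ℕ) (lo lo' : ℕ) : Finset (Fin S.r) :=
  S.As n E E' p lo (lo + n) ∪ S.As n E' E p lo' (lo' + n)

/-- The sets `U_k`. -/
noncomputable def Uk (n : ℕ) (E E' : ℤ × ℤ) (p : Fin S.r → ℕ) (lo lo' k : ℕ) : Finset (Fin S.r) :=
  (S.Ux E p).filter (fun i => i ∉ S.Ax n E E' p lo lo' ∨ i ∈ S.As n E E' p lo (lo + k))

/-- The good event for `E` (blocks `lo ≤ k < lo + n`). -/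
structure Gh (n : ℕ) (η κ : ℝ) (lo : ℕ) (E E' : ℤ × ℤ) (p : Fin S.r → ℕ) : Prop where
  bad : ∀ i, ty (p i) E ≠ 3
  t12 : 48 * S.r ≤ 100 * (S.Ux E p).card
  t111 : 100 * (S.Jx E p).card ≤ 17 * S.r
  aux : Y3 (mx (S.mm S.K0 (cl S.K0 (∏ j, p j))) E) E.1 E.2
  base : (sc E.1 E.2 (S.D1 * mx (S.mm S.K0 (cl S.K0 (∏ j, p j))) E) : ℝ) ≤
    2 ^ ((1 / 20 : ℝ) * S.r)
  blk : ∀ k, lo ≤ k → k < lo + n → ∃ i ∈ S.bk n k, S.al E E' p i
  nod : S.Nal η κ E E' p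

/-- The equivalence relation for tightness (index `i`). -/
def Rt (E E' : ℤ × ℤ) (i : ℕ) (p p' : Fin S.r → ℕ) : Prop :=
  p = p' ∨ ∃ h : i < S.r, (∀ j, j ≠ ⟨i, h⟩ → p j = p' j) ∧ ty (p ⟨i, h⟩) E = ty (p' ⟨i, h⟩) E ∧
    ty (p ⟨i, h⟩) E' = ty (p' ⟨i, h⟩) E' ∧ ty (p ⟨i, h⟩) E ≠ 2 ∧
    cl (S.Kx E p) (p ⟨i, h⟩) = cl (S.Kx E p) (p' ⟨i, h⟩)

/-- The equivalence relation for mixing (block `k`). -/
def Rm (n : ℕ) (E E' : ℤ × ℤ) (k : ℕ) (p p' : Fin S.r → ℕ) : Prop :=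
  p = p' ∨ ∃ a, a ∈ S.fs n E E' p k ∧ a ∈ S.fs n E E' p' k ∧ (∀ j, j ≠ a → p j = p' j) ∧
    cl (S.K2 E E' p) (p a) = cl (S.K2 E E' p) (p' a)

end Dat

/-- **EQR** (120 lines). Combinatorics of blocks and relations.
Proof. `rt`: the types of all coordinates are the same for `p` and `p'`, so `Jx` is the same and (if `p ≠ p'`) `i ∉ Jx`, so `Kx` is the
same. `bd`: the blocks `k < 2n` are disjoint. `fs`: two first elements of the same block coincide. `rm`: `fs` is `{a}` for both,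
`Jx E`, `Jx E'` do not contain `a` (types `≤ 1`), so they and `K2` are the same for `p` and `p'`. `ax`: the sets `fs` of the other
blocks do not change; in the block `k` they are `{a}` for both. `k` is an `E`-block, so it is not in `[lo', lo'+n)`. `cardA`. `uk`:
`Ux E ∩ As n E' E = ∅` (type 1 for `E`). -/
structure SpecEQR : Prop where
  rt : ∀ (S : Dat) (E E' : ℤ × ℤ) (i : ℕ), Equivalence (S.Rt E E' i)
  rm : ∀ (S : Dat) (n : ℕ) (E E' : ℤ × ℤ) (k : ℕ), Equivalence (S.Rm n E E' k)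
  rtv : ∀ (S : Dat) (E E' : ℤ × ℤ) (i : ℕ) (p p' : Fin S.r → ℕ), S.Rt E E' i p p' →
    (∀ j, ty (p j) E = ty (p' j) E ∧ ty (p j) E' = ty (p' j) E') ∧ S.Jx E p = S.Jx E p' ∧
    S.Ux E p = S.Ux E p' ∧ S.Kx E p = S.Kx E p' ∧
    ∀ (n lo lo' : ℕ), S.Ax n E E' p lo lo' = S.Ax n E E' p' lo lo'
  rmv : ∀ (S : Dat) (n : ℕ) (E E' : ℤ × ℤ) (k : ℕ) (p p' : Fin S.r → ℕ), S.Rm n E E' k p p' →
    S.Jx E p = S.Jx E p' ∧ S.Jx E' p = S.Jx E' p' ∧ S.Ux E' p = S.Ux E' p' ∧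
    S.K2 E E' p = S.K2 E E' p' ∧
    ∀ (lo lo' : ℕ), (lo = 0 ∧ lo' = n ∨ lo = n ∧ lo' = 0) → lo ≤ k → k < lo + n →
      S.Ax n E E' p lo lo' = S.Ax n E E' p' lo lo' ∧
      S.Uk n E E' p lo lo' (k - lo) = S.Uk n E E' p' lo lo' (k - lo) ∧
      (p ≠ p' → ∀ a ∈ S.fs n E E' p k, a ∉ S.Uk n E E' p lo lo' (k - lo))
  fs1 : ∀ (S : Dat) (n : ℕ) (E E' : ℤ × ℤ) (k : ℕ) (p : Fin S.r → ℕ), (S.fs n E E' p k).card ≤ 1 ∧
    ((∃ i ∈ S.bk n k, S.al E E' p i) → (S.fs n E E' p k).card = 1)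
  cardA : ∀ (S : Dat) (n : ℕ) (E E' : ℤ × ℤ) (p : Fin S.r → ℕ) (lo lo' : ℕ),
    (S.Ax n E E' p lo lo').card ≤ 2 * n
  uk : ∀ (S : Dat) (n : ℕ) (E E' : ℤ × ℤ) (p : Fin S.r → ℕ) (lo lo' : ℕ),
    S.Uk n E E' p lo lo' n = S.Ux E p
  uks : ∀ (S : Dat) (n : ℕ) (E E' : ℤ × ℤ) (p : Fin S.r → ℕ) (lo lo' k : ℕ),
    (lo = 0 ∧ lo' = n ∨ lo = n ∧ lo' = 0) → k < n →
    S.Uk n E E' p lo lo' (k + 1) = S.Uk n E E' p lo lo' k ∪
      (S.fs n E E' p (lo + k)).filter (fun i => ty (p i) E = 0) ∧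
    ∀ a ∈ S.fs n E E' p (lo + k), a ∉ S.Uk n E E' p lo lo' k
  bkc : ∀ (S : Dat) (n k : ℕ), 0 < n → 2 * n ≤ S.r → k < 2 * n → S.r / (2 * n) ≤ (S.bk n k).card

/-- **TGS** (250 lines; from IVT, NST, CNT, GEN, CLM, EQR `rtv`). The tightness step.
Proof. `K = Kx E p`, `Λ = {q ∈ Ls E' K p i : Y12 q}`. The class of `p` in `Om` is `{update p i q : q ∈ Λ}` (`ty (p i) E = 0`, so
`ty q E = 0` means `Y12`; `p i ∈ Λ`). For `p' = update p i q`: by IVT `Mx`, `Aok` are the same, `Dx ∅`, `Dx U` too, and `Nd .. p' K i V =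
Nd .. p K i V` for `V = U, ∅` (the list depends only on the class and the `E'`-type of `p i`). NST for `p'` (`i0 = i`, `K' = K`):
`sc (Dx p' (insert i U))` is `2 sc (Dx p U)` if all `z` are trivial at `q`, half of it otherwise. With `sc (Dx p U) = 2^s`
(GEN `fin`), `sx = s`: `2^(sx p' (insert i U))` is `2 · 2^s` for the `a` primes of CNT, `2^s/2` for the other `N - a`,
`N = #Λ`, `a ≤ (2^-s + 2η) N`: the sum is `2^s (N/2 + 3a/2) ≤ N ((1/2 + 3η) 2^s + 3/2)`. (CNT: the primes `q ∈ L i` do not divide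
`Dx U`: they are not in the other lists, not `mx`, do not divide `K0`; `q ≥ 5` because `q ∤ 6`.) -/
def SpecTGS : Prop :=
  ∀ (S : Dat) (η κ : ℝ) (E E' : ℤ × ℤ) (p : Fin S.r → ℕ) (i : Fin S.r) (U : Finset (Fin S.r)),
    S.Ok → p ∈ S.Om → 0 ≤ η → η < 1 / 2 → κ < 1 / 2 → Sf S.K0 E.1 E.2 → dz E.1 E.2 ≠ 0 →
    (∀ j, ty (p j) E ≠ 3) → U ⊆ S.Ux E p → i ∈ S.Ux E p → i ∉ U →
    S.Nd η κ E E' p (S.Kx E p) i U → S.Nd η κ E E' p (S.Kx E p) i ∅ → S.Aok E p (insert i U) →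
    ∑ p' ∈ S.Om.filter (S.Rt E E' i p), (2 : ℝ) ^ S.sx E p' (insert i U) ≤
      ((1 / 2 + 3 * η) * 2 ^ S.sx E p U + 3 / 2) * ((S.Om.filter (S.Rt E E' i p)).card : ℝ)

/-- **TGP** (300 lines; from TGT, TGS, JST, IVT, EQR). Tightness.
Proof. TGT with `X = Fin S.r → ℕ`, `Ω = Om`, `R i = Rt E E' i`, `A = Ax`, `U_i = {j ∈ Ux : j < i, j ∉ A}`, `s i p = sx E p U_i`,
`act i p`: `i < r`, `i ∈ Ux \ A`, `ρ = 1/2 + 3η`, and `G i p`: `bad`, `t12`, `t111`, `aux`, `base` of `Gh`, `Aok E p ∅`, and for all `j ≤ i`, `j < r`,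
`j ∉ Jx E p`: `Nd η κ E E' p (Kx E p) j U_j`, `Nd .. j ∅`, `Aok E p (insert j U_j)`. `Gh → G i` for all `i` (`Nal` with
`I = J = Jx`, `V = Jx ∪ U`, `W = univ \ (Jx ∪ U)`; `Aok` is `Nok.aux`, take `V = ∅`, `I = ∅`). Invariance of `G i` under `Rt i` : types,
`Jx, Ux, Kx, A` are the same (EQR `rtv`), `aux`, `base`: `cl K0 (∏ p)` is the same (IVT); for `j ≤ i`: `i ∉ U_j`, and (if `p ≠ p'`)
`i ∉ Jx`, so `D1 ∏_(Jx ∪ U_j)` is the same, `Mx` and `Aok` are the same (IVT), the list `Ls E' Kx p j` is the same (for `j = i` it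
depends only on the class and type of `p i`). Not active: `U_(i+1) = U_i`. Active: `U_(i+1) = insert i U_i`, TGS. Start:
`2^(sx ∅) ≤ sc (Dx ∅) ≤ 4^(#Jx) 2^(r/20)` (JST; `Nat.pow_log_le_self`, `sc > 0`) `≤ 2^(39 r/100)`, the number of active indices is `N ≥
48 r/100 - 2n`, `ρ ≤ 52/100`: `(2^(s_0) ρ^N)^100 ≤ (2^39 ρ^48)^r ρ^(-200 n) ≤ 1` for `r ≥ 40 n` (`2^39 (52/100)^48 ≤ 13/1000`).
`U_r = Uk 0`. -/
def SpecTGP : Prop :=
  ∀ (S : Dat) (n : ℕ) (η κ : ℝ) (E E' : ℤ × ℤ) (lo lo' : ℕ), S.Ok → 0 < n → 40 * n ≤ S.r →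
    0 ≤ η → η ≤ 1 / 150 → κ < 1 / 2 → Sf S.K0 E.1 E.2 → dz E.1 E.2 ≠ 0 →
    (lo = 0 ∧ lo' = n ∨ lo = n ∧ lo' = 0) →
    ∑ p ∈ S.Om.filter (S.Gh n η κ lo E E'), (2 : ℝ) ^ S.sx E p (S.Uk n E E' p lo lo' 0) ≤
      7 * (S.Om.card : ℝ)

/-- **MXS** (300 lines; from IVT, NST, CNT, GEN, CLM, EQR, TYZ). The mixing step.
Proof. (`ty q E = 1` iff `Y3`, for primes `q ≥ 5`: `Y3` and `Y12` exclude each other, TYZ.) Let `fs (lo + k) = {a}` (`Gh.blk`, EQR `fs1`), `K = K2 E E' p`, `Λ = Ls E' K p a` (`ty (p a) E' = 1`), `n12, n3` the numbers of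
`q ∈ Λ` of type 0, 1 for `E`, `N = n12 + n3`. The class of `p` in `Om` is `{update p a q : q ∈ Λ, ty q E ≤ 1}` (for such `p'`:
`fs` of `p'` is `{a}` again). For these `p'` (EQR `rmv`, IVT; `Kx E p ∣ K2`, CLM `mon`): `U = Uk k` is the same, `Dx U` the same,
`Uk (k+1)` is `insert a U` if `Y12 q`, `U` otherwise (EQR `uks`). `q` of type 1: `sx p' (Uk (k+1)) = s := sx p U`. `q` of type 0: NST for
`p'` (`i0 = a`, `K' = K2`; nodes from `Gh.nod` for `p`: `I = Jx E ∪ Jx E'`, `J = Jx E`, `V = Jx E ∪ U` or `Jx E`; the nodes of `p'` are the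
same propositions; `Aok` of `insert a U`: `Nok.aux` with `V = I = ∅`): `s + 1` for the `c` primes of CNT, `s - 1` for the others (`s ≥ 1`
then). With `|c - 2^-s n12| ≤ 2 η n12` (CNT), `|n12 - #Λ/2|, |n3 - #Λ/3| ≤ κ #Λ`: `|n12 - (3/5) N| ≤ κ #Λ ≤ 2 κ N`, and
`|c f(s+1) + (n12 - c) f(s-1) + n3 f(s) - N Pop f s| ≤ 4 η n12 + 2 |n12 - (3/5) N| ≤ (4η + 4κ) N`. -/
def SpecMXS : Prop :=
  ∀ (S : Dat) (n : ℕ) (η κ : ℝ) (E E' : ℤ × ℤ) (lo lo' k : ℕ) (p : Fin S.r → ℕ), S.Ok → 0 < n →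
    2 * n ≤ S.r → 0 ≤ η → η < 1 / 2 → 0 ≤ κ → κ ≤ 1 / 10 → Sf S.K0 E.1 E.2 → dz E.1 E.2 ≠ 0 →
    (lo = 0 ∧ lo' = n ∨ lo = n ∧ lo' = 0) → k < n → p ∈ S.Om → S.Gh n η κ lo E E' p →
    ∀ f : ℕ → ℝ, (∀ m, |f m| ≤ 1) →
      |∑ p' ∈ S.Om.filter (S.Rm n E E' (lo + k) p), f (S.sx E p' (S.Uk n E E' p' lo lo' (k + 1))) -
        Pop f (S.sx E p (S.Uk n E E' p lo lo' k)) *
          ((S.Om.filter (S.Rm n E E' (lo + k) p)).card : ℝ)| ≤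
        (4 * η + 4 * κ) * ((S.Om.filter (S.Rm n E E' (lo + k) p)).card : ℝ)

/-- **MXP** (150 lines; from MIX, MXS, EQR, IVT, CLM). Mixing for one curve.
Proof. MIX with `Ω = Om`, `B` = the `p ∈ Om` without `Gh n η κ lo E E' p`, `R k = Rm n E E' (lo + k)`, `s k p = sx E p (Uk k)`,
`err = 4η + 4κ`. `s k` is constant on the classes (EQR `rmv`, IVT: types `≤ 1` at `a`; `a ∉ Uk k`). `s n p = sx E p (Ux E p)` (EQR `uk`). -/
def SpecMXP : Prop :=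
  ∀ (S : Dat) (n : ℕ) (η κ : ℝ) (E E' : ℤ × ℤ) (lo lo' : ℕ) (g : (Fin S.r → ℕ) → ℝ), S.Ok →
    0 < n → 2 * n ≤ S.r → 0 ≤ η → η < 1 / 2 → 0 ≤ κ → κ ≤ 1 / 10 → Sf S.K0 E.1 E.2 →
    dz E.1 E.2 ≠ 0 → (lo = 0 ∧ lo' = n ∨ lo = n ∧ lo' = 0) → (∀ p ∈ S.Om, |g p| ≤ 1) →
    (∀ k < n, ∀ p ∈ S.Om, ∀ p' ∈ S.Om, S.Rm n E E' (lo + k) p p' → g p = g p') →
    ∀ f : ℕ → ℝ, (∀ m, |f m| ≤ 1) →
      |∑ p ∈ S.Om, f (S.sx E p (S.Ux E p)) * g p -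
        ∑ p ∈ S.Om, (Pop^[n] f) (S.sx E p (S.Uk n E E' p lo lo' 0)) * g p| ≤
        n * (4 * η + 4 * κ) * (S.Om.card : ℝ) +
          2 * n * ((S.Om.filter (fun p => ¬ S.Gh n η κ lo E E' p)).card : ℝ)

/-- **GIV** (100 lines; from EQR, IVT, CLM). The second curve does not change.
Proof. `a` = the index where `p, p'` differ, `a ∈ fs`, so `ty (p a) E' = ty (p' a) E' = 1`. (1) `Ux E'` is the same (EQR `rmv`) and does not
contain `a`; IVT for `E'` (`Kx E' p ∣ K2 E E' p`). (2) is the statement for the curve `E'` with its set `Uk`: here `A` is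
`Ax n E' E p lo' lo = Ax n E E' p lo lo'` (union), the same for `p` and `p'` (EQR `rmv`), `a ∉ Ux E'`; IVT for `E'`. -/
def SpecGIV : Prop :=
  ∀ (S : Dat) (n : ℕ) (E E' : ℤ × ℤ) (lo lo' k : ℕ) (p p' : Fin S.r → ℕ), S.Ok →
    (lo = 0 ∧ lo' = n ∨ lo = n ∧ lo' = 0) → k < n → p ∈ S.Om → p' ∈ S.Om →
    S.Rm n E E' (lo + k) p p' →
    S.sx E' p (S.Ux E' p) = S.sx E' p' (S.Ux E' p') ∧
    S.sx E' p (S.Uk n E' E p lo' lo 0) = S.sx E' p' (S.Uk n E' E p' lo' lo 0)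

/-- **PAI** (250 lines; from KPM, NST, TGP, MXP, GIV). The pair theorem.
Proof. `H` with `14 / 2^H ≤ ε/8`, `n` with `25 (7/10)^n 2^H ≤ ε/16`, `η = κ = min(1/1000, ε/(64 n))`, `C = 4n + 6`.
`B` = the bad set. For `p ∉ B`: `sc (D1 ∏ p) = sc (Dx Ux)` for both curves (NST `fin`; the node from `Nal`, `i0` any index not in `Jx`, it
exists by `t12`), so `∑ f g` changes by at most `2 #B` if `log_2 sc(D1 ∏ p)` is replaced by `sx (Ux)`. MXP for `(E, E', 0, n)` and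
`g p = g(sx E' p (Ux E' p))` (GIV (1)); then MXP for `(E', E, n, 0)` and `(Pop^[n] f)(sx E p (Uk n E E' p 0 n 0))` (GIV (2) with the
roles exchanged; KPM `bdd`). So `∑ f g = ∑ (Pop^[n] f)(s0) (Pop^[n] g)(s0') + O(2n(4η+4κ) #Om + 4n #B)`. TGP for both: the number of `p ∉ B` with
`s0 > H` or `s0' > H` is at most `14 #Om/2^H`; for the others KPM `mix`: both factors are within `ε/16` of `Lm f`, `Lm g`
(absolute values `≤ 1`): total `≤ (2n · 8η + 28/2^H + ε/8) #Om + (4n + 4) #B`. -/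
def SpecPAI : Prop :=
  ∀ ε : ℝ, 0 < ε → ∃ (n : ℕ) (η κ C : ℝ), 0 < n ∧ 0 < η ∧ 0 < κ ∧ κ ≤ 1 / 1000 ∧ 0 < C ∧
    ∀ (S : Dat) (E E' : ℤ × ℤ), S.Ok → 40 * n ≤ S.r → Sf S.K0 E.1 E.2 → dz E.1 E.2 ≠ 0 →
      Sf S.K0 E'.1 E'.2 → dz E'.1 E'.2 ≠ 0 → ∀ f g : ℕ → ℝ, (∀ m, |f m| ≤ 1) → (∀ m, |g m| ≤ 1) →
      |∑ p ∈ S.Om, f (Nat.log 2 (sc E.1 E.2 (S.D1 * ∏ i, p i))) *
          g (Nat.log 2 (sc E'.1 E'.2 (S.D1 * ∏ i, p i))) - Lm f * Lm g * (S.Om.card : ℝ)| ≤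
        ε * (S.Om.card : ℝ) +
          C * ((S.Om.filter (fun p => ¬ (S.Gh n η κ 0 E E' p ∧ S.Gh n η κ n E' E p))).card : ℝ)

/-! ## Bad events -/

/-- The size conditions of Theorem S*. -/
structure Big (S : Dat) (r0 : ℕ) : Prop where
  ok : S.Ok
  r : r0 ≤ S.r
  d1 : r0 * S.D1.primeFactors.card ≤ S.r
  k0 : r0 * S.K0.primeFactors.card ≤ S.r
  pr : ∀ i, ∀ q ∈ S.L i, Real.exp (r0 * S.r) ≤ (q : ℝ)
  card : ∀ i, Real.exp (r0 * S.r) ≤ ((S.L i).card : ℝ)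
  aux : ∀ K n j : ℕ, 0 < K → 6 ∣ K → n.Coprime K → r0 ≤ S.mm K (cl K n) j

/-- **BAB** (100 lines; from EQZ, TYZ). Bad types: for fixed `p`.
Proof. `ty (p i) E = 3` implies `p_i ∣ dz`, density `p_i/p_i^2` (EQZ with `N = p_i`, TYZ third part; `p_i ≥ 5`). Sum over `i`:
`≤ r (exp(-r0 r) + small) ≤ ε`. -/
def SpecBAB : Prop :=
  ∀ ε : ℝ, 0 < ε → ∃ r0 : ℕ, ∀ S : Dat, Big S r0 → ∃ X0 : ℝ, ∀ X : ℝ, X0 ≤ X → ∀ p ∈ S.Om,
    ({E ∈ Hz X | ∃ i, ty (p i) E = 3}.ncard : ℝ) ≤ ε * ((Hz X).ncard : ℝ)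

/-- The types are well distributed in the list `L`. -/
structure Tok (κ : ℝ) (L : Finset ℕ) (E : ℤ × ℤ) : Prop where
  t12 : |((L.filter (fun q => Y12 q E.1 E.2)).card : ℝ) - (L.card : ℝ) / 2| ≤ κ * L.card
  t3 : |((L.filter (fun q => Y3 q E.1 E.2)).card : ℝ) - (L.card : ℝ) / 3| ≤ κ * L.card

/-- **TYE** (100 lines; from NOD, TYZ). The types are well distributed in all lists and in the sublists of the primes of type (3) for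
`E'` (for most `E`, given `E'`).
Proof. `Nok` implies `Tok`. NOD with `D0 = 1`, `mm = S.mm K0 (cl K0 1)`, `B = 1`, `L = L i`, and `L = {q ∈ L i : ty q E' = 1}` if it has
at least `exp(r1 r)` elements (`r1` from NOD; `r0 ≥ r1 + 2`; it has at least `(1/3 - κ) #L i ≥ #L i/4` elements if `Tok κ (L i) E'`); `2 r exp(-r) ≤ ε`. (For
fixed `E'` there are finitely many possible sublists, all subsets of `L i`, so `X0` does not depend on `E'`.) `r0 ≥ r1`. -/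
def SpecTYE : Prop :=
  ∀ κ ε : ℝ, 0 < κ → κ ≤ 1 / 1000 → 0 < ε → ∃ r0 : ℕ, ∀ S : Dat, Big S r0 →
    ∃ X0 : ℝ, ∀ X : ℝ, X0 ≤ X →
    ({E ∈ Hz X | ∃ i, ¬ Tok κ (S.L i) E}.ncard : ℝ) ≤ ε * ((Hz X).ncard : ℝ) ∧
    ∀ E' : ℤ × ℤ, (∀ i, Tok κ (S.L i) E') →
      ({E ∈ Hz X | ∃ i, ¬ Tok κ ((S.L i).filter (fun q => ty q E' = 1)) E}.ncard : ℝ) ≤
        ε * ((Hz X).ncard : ℝ)

/-- **TYP** (150 lines; from CHB, TYZ). Typical numbers of types (deterministic in `E`).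
Proof. CHB with `T i q`: `ty q E = 0`; the means are in `1/2 ± κ` (`ty q E = 0` iff `Y12`), so outside a proportion `(r/4)/(r/100)^2` of `Om`
the number of (1,2)-indices is `≥ (1/2 - κ - 1/100) r ≥ 48 r/100`. CHB with `T i q`: `ty q E ≠ 0, 1`: means `≤ 1/6 + 2κ`
(`ty q E = 1` iff `Y3`, as `Y12` and `Y3` exclude each other, TYZ; if not, `ty = 1` is `Y3` without `Y12`: use TYZ last part),
`t = r/1000`: `#Jx ≤ (1/6 + 2κ + 1/1000) r ≤ 17 r/100`. -/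
def SpecTYP : Prop :=
  ∀ ε : ℝ, 0 < ε → ∃ r0 : ℕ, ∀ (S : Dat) (κ : ℝ) (E : ℤ × ℤ), Big S r0 → 0 < κ → κ ≤ 1 / 1000 →
    (∀ i, Tok κ (S.L i) E) →
    ((S.Om.filter (fun p => ¬ (48 * S.r ≤ 100 * (S.Ux E p).card ∧
      100 * (S.Jx E p).card ≤ 17 * S.r))).card : ℝ) ≤ ε * (S.Om.card : ℝ)

/-- **BLB** (120 lines; from BLK, EQR `bkc`, TYZ). Blocks without mixing index (deterministic in `E, E'`).
Proof. The proportion of `q ∈ L i` with `ty q E' = 1` is `≥ 1/3 - κ` and among these the proportion with `ty q E ≤ 1` is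
`≥ 5/6 - 2κ`, product `≥ 1/5`. BLK with `θ = 4/5`, `I` = the block: `≤ (4/5)^(r/(2n))`, `n` blocks. -/
def SpecBLB : Prop :=
  ∀ (n : ℕ) (ε : ℝ), 0 < n → 0 < ε → ∃ r0 : ℕ, ∀ (S : Dat) (κ : ℝ) (E E' : ℤ × ℤ) (lo : ℕ),
    Big S r0 → 0 < κ → κ ≤ 1 / 1000 → lo ≤ n → (∀ i, Tok κ (S.L i) E') →
    (∀ i, Tok κ ((S.L i).filter (fun q => ty q E' = 1)) E) →
    ((S.Om.filter (fun p => ¬ ∀ k, lo ≤ k → k < lo + n → ∃ i ∈ S.bk n k, S.al E E' p i)).card : ℝ) ≤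
      ε * (S.Om.card : ℝ)

/-- **BSB** (60 lines; from BAS). The base bound fails (fixed `p`). Proof: BAS with `δ = 1/20` and
`mm = S.mm K0 (cl K0 (∏ p))` (`∏ p` is prime to `K0`); finitely many `p`. -/
def SpecBSB : Prop :=
  ∀ ε : ℝ, 0 < ε → ∃ r0 : ℕ, ∀ S : Dat, Big S r0 → ∃ X0 : ℝ, ∀ X : ℝ, X0 ≤ X → ∀ p ∈ S.Om,
    ({E ∈ Hz X | ¬ (Y3 (mx (S.mm S.K0 (cl S.K0 (∏ j, p j))) E) E.1 E.2 ∧
      (sc E.1 E.2 (S.D1 * mx (S.mm S.K0 (cl S.K0 (∏ j, p j))) E) : ℝ) ≤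
        2 ^ ((1 / 20 : ℝ) * S.r))}.ncard : ℝ) ≤ ε * ((Hz X).ncard : ℝ)

/-- **SML** (200 lines; from ONE, CLM `num`). Small lists (deterministic in `E'`).
Proof. For `i`, `I` with `i ∉ I`: ONE for the coordinate `i`: `K = K0 ∏_(j ∈ I) p_j` does not change. `L i` is divided into the cells
`{q : ty q E' = t, cl K q = c}`, at most `4 · 8 · 2^(ω(K))` of them (`ty ≤ 3`, CLM `num`), `ω(K) ≤ ω(K0) + r ≤ 2 r`; the `q` in cells with less than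
`exp(r1 r)` elements are at most `32 · 4^r exp(r1 r) ≤ exp(-3 r) #L i` if `r0 ≥ r1 + 10` (`r ≥ r0`). Sum over the `r 2^r` pairs `(i, I)`:
`≤ r 2^r exp(-3r) ≤ ε`. -/
def SpecSML : Prop :=
  ∀ (r1 : ℕ) (ε : ℝ), 0 < ε → ∃ r0 : ℕ, ∀ (S : Dat) (E' : ℤ × ℤ), Big S r0 →
    ((S.Om.filter (fun p => ∃ (i : Fin S.r) (I : Finset (Fin S.r)), i ∉ I ∧
      ((S.Ls E' (S.K0 * ∏ j ∈ I, p j) p i).card : ℝ) < Real.exp (r1 * S.r))).card : ℝ) ≤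
      ε * (S.Om.card : ℝ)

/-- **NDB** (200 lines; from NOD). Bad nodes (fixed `E'`, `p` with large lists).
Proof. `B = 8`, `r1` from NOD. For given `p`, `i, I, V, J, W` the data `D0 = D1 ∏_V p`, `L' = Ls E' (K0 ∏_I p) p i ⊆ L i`,
`mm = S.mm (K0 ∏_J p) (cl ..)` satisfy the hypotheses of NOD: `D0` squarefree (`D1` squarefree, the `p_j` different primes not
dividing `K0`, so not `D1`), `ω(D0) ≤ r + r`, `q ∈ L'`: `q ∤ D0` (`i ∉ V`), `q ≥ exp(r0 r) ≥ r1`; `∏_W p` is prime to `K0 ∏_J p`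
(`J, W` disjoint), so `S.Ok.inj`, `S.Ok.aux` and `Big.aux` give the conditions on `mm` (an auxiliary prime is not in the lists and does not divide `K0`, so
it does not divide `D0`). The number of `(i, I, V, J, W)` is `r 16^r`, `r 16^r exp(-8 r) ≤ ε`. `X0`: the maximum over the finitely many `p` and
subsets `L'` of the `L i` (so it does not depend on `E'`). -/
def SpecNDB : Prop :=
  ∀ η κ ε : ℝ, 0 < η → 0 < κ → 0 < ε → ∃ r1 r0 : ℕ, ∀ S : Dat, Big S r0 →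
    ∃ X0 : ℝ, ∀ X : ℝ, X0 ≤ X → ∀ p ∈ S.Om, ∀ E' : ℤ × ℤ,
      (∀ (i : Fin S.r) (I : Finset (Fin S.r)), i ∉ I →
        Real.exp (r1 * S.r) ≤ ((S.Ls E' (S.K0 * ∏ j ∈ I, p j) p i).card : ℝ)) →
      ({E ∈ Hz X | ¬ S.Nal η κ E E' p}.ncard : ℝ) ≤ ε * ((Hz X).ncard : ℝ)

/-- **BDM** (250 lines; from BAB, TYE, TYP, BLB, BSB, SML, NDB). The measure of the bad event.
Proof. `ε1 = ε/20`, `r0` the maximum. The triples `(E, E', p)` with `¬ Gh n η κ lo E E' p` (and the same with `E, E'` exchanged): `bad`: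
BAB; `t12`, `t111`: TYE (first part) and TYP; `aux`, `base`: BSB; `blk`: TYE (both parts) and BLB; `nod`: SML (`r1` from NDB) and NDB. Each is
`≤ 2 ε1 #Hz^2 #Om`. (Counting triples: sum over two of the three variables of the bound for the third; the exchange of `E`
and `E'` is a bijection of triples.) -/
def SpecBDM : Prop :=
  ∀ (n : ℕ) (η κ ε : ℝ), 0 < n → 0 < η → 0 < κ → κ ≤ 1 / 1000 → 0 < ε → ∃ r0 : ℕ, ∀ S : Dat,
    Big S r0 → ∃ X0 : ℝ, ∀ X : ℝ, X0 ≤ X →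
      ({t : (ℤ × ℤ) × (ℤ × ℤ) × (Fin S.r → ℕ) | t.1 ∈ Hz X ∧ t.2.1 ∈ Hz X ∧ t.2.2 ∈ S.Om ∧
        ¬ (S.Gh n η κ 0 t.1 t.2.1 t.2.2 ∧ S.Gh n η κ n t.2.1 t.1 t.2.2)}.ncard : ℝ) ≤
        ε * ((Hz X).ncard : ℝ) ^ 2 * (S.Om.card : ℝ)

-- **STR** (300 lines): `theorem specSTAR (hPAI : SpecPAI) (hBDM : SpecBDM) (hSMM : SpecSMM) (hTLZ : SpecTLZ) (hEQZ : SpecEQZ)
-- (hGEN : SpecGEN) (hAUX : SpecAUX) (hKPM : SpecKPM) : SpecSTAR` (file PT/STR.lean).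
-- Proof. `δ` from SMM for `ε`; PAI for `δ/4`: `n, η, κ, C`; BDM for `δ/(4C)`: `r0'`; TLZ for `δ/16`: `M`. `N = 6 M!`, `r0` large:
-- `r0 ≥ 40 n`, `r0 ≥ 2 r0' (ω(N) + 1)`, `exp(r0) > N`. Given `r, D1, L`: `K0 = N D1`, `mm` from AUX (`B0 = r0'`, `N := K0`, `bad = ∪ L i`),
-- `S = ⟨r, K0, D1, L, mm⟩`: `Big S r0'` (`S.Ok`: primes `q ∈ L i` are `≥ exp(r0) > N`, so `q ∤ N`, `q ∤ D1`; `ω(K0) ≤ ω(N) + ω(D1)`,
-- `r0' ω(K0) ≤ r/2 + r/2`). `Ex = Hz X` (finite, EQZ), `s E p = Nat.log 2 (sc E (D1 ∏ p))`. For `E ∈ Hz X` with `¬ Sf K0 E` there is a prime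
-- `p ∤ K0`, so `p > M`, with `p^2 ∣ dz`: at most `(δ/16) #Hz` (TLZ). Sum PAI over the pairs `(E, E')` with `Sf K0` for both:
-- `∑_E ∑_E' |..| ≤ (δ/4) #Om #Hz^2 + C (δ/(4C)) #Hz^2 #Om`, the other pairs contribute at most `2 · 2 (δ/16) #Hz^2 #Om`. So SMM applies
-- (exchange the order of summation), and `#{E : s E p = d}/#Hz = prop X (D1 ∏ p) d` because `sc = 2^s` (GEN `fin`, `D1 ∏ p > 0`).

end Pool.Agent.Lib.MP_8cb858_nt.PT
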