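import Pool.Agent.Lib.MP_8cb858_nt.PT.SpecN
import Pool.Agent.Lib.MP_8cb858_nt.PT.SpecQ

section
/-!
# Module AUX: existence of the auxiliary primes
-/
set_option autoImplicit false

namespace Pool.Agent.Lib.MP_8cb858_nt.PT.AUXM

open Finset
open scoped Classical

/-- the admissible primes -/
def good (B0 N : ℕ) (bad : Finset ℕ) (K : ℕ) (c : Finset ℕ × ℕ) : Set ℕ :=
  {q | q.Prime ∧ cl K q = c ∧ ¬ q ∣ K ∧ q ∉ bad ∧ B0 ≤ q ∧ (0 < N → ¬ q ∣ N)}

lemma good_inf (B0 N : ℕ) (bad : Finset ℕ) (K n : ℕ) (hK : 0 < K) (h6 : 6 ∣ K)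
    (hn : n.Coprime K) : (good B0 N bad K (cl K n)).Infinite := by
  have h2K : 2 ∣ K := dvd_trans (by norm_num) h6
  have hn2 : n.Coprime 2 := Nat.Coprime.coprime_dvd_right h2K hn
  have hn8 : n.Coprime (8 * K) := by
    apply Nat.Coprime.mul_right _ hn
    exact Nat.Coprime.pow_right 3 hn2
  have : NeZero (8 * K) := ⟨by omega⟩
  have hu : IsUnit ((n : ℕ) : ZMod (8 * K)) := (ZMod.isUnit_iff_coprime n (8 * K)).2 hn8
  have hinf := Nat.infinite_setOfPred_prime_and_eq_mod hu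
  have hfin : ({q : ℕ | q ≤ B0 + K + N + bad.sup id}).Finite := Set.finite_le_nat _
  have h1 := hinf.sdiff hfin
  refine h1.mono ?_
  rintro q ⟨⟨hq, hqn⟩, hbig⟩
  simp only [Set.mem_ofPred_eq, not_le] at hbig
  have hmod : q ≡ n [MOD 8 * K] := (ZMod.natCast_eq_natCast_iff q n (8 * K)).1 hqn
  refine ⟨hq, ?_, ?_, ?_, by omega, ?_⟩
  · unfold cl
    have h8 : q % 8 = n % 8 := hmod.of_mul_right K
    have hf : K.primeFactors.filter (fun p => IsSquare (q : ZMod p)) =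
        K.primeFactors.filter (fun p => IsSquare (n : ZMod p)) := by
      apply filter_congr
      intro p hp
      have hpK := Nat.dvd_of_mem_primeFactors hp
      have h3 : q ≡ n [MOD p] := hmod.of_dvd (hpK.trans (Dvd.intro_left 8 rfl))
      rw [(ZMod.natCast_eq_natCast_iff q n p).2 h3]
    rw [h8, hf]
  · intro h3
    have := Nat.le_of_dvd hK h3
    omega
  · intro h3
    have : q ≤ bad.sup id := Finset.le_sup (f := id) h3
    omega
  · intro hN h3
    have := Nat.le_of_dvd hN h3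
    omega

end Pool.Agent.Lib.MP_8cb858_nt.PT.AUXM

namespace Pool.Agent.Lib.MP_8cb858_nt.PT

open Finset AUXM
open scoped Classical

theorem specAUX : SpecAUX := by
  intro B0 N bad
  refine ⟨fun K c => if h : (good B0 N bad K c).Infinite then
    fun j => ((h.natEmbedding _ j : good B0 N bad K c) : ℕ) else fun _ => 0, ?_⟩
  intro K n hK h6 hn
  have h := good_inf B0 N bad K n hK h6 hn
  simp only [dif_pos h]
  refine ⟨?_, ?_⟩
  · intro i j hij
    exact (h.natEmbedding _).injective (Subtype.ext hij)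
  · intro j
    obtain ⟨h1, h2, h3, h4, h5, h6⟩ := (h.natEmbedding _ j).2
    exact ⟨h1, h2, h3, h4, h5, h6⟩

end Pool.Agent.Lib.MP_8cb858_nt.PT
end

section
/-!
# BAB: bad types, for fixed `p`
-/
namespace Pool.Agent.Lib.MP_8cb858_nt.PT

open scoped Classical

namespace BABM

lemma one (hEQZ : SpecEQZ) (hTYZ : SpecTYZ) (q : ℕ) (hq : q.Prime) (h5 : 5 ≤ q) (δ : ℝ)
    (hδ : 0 < δ) : ∃ X0 : ℝ, ∀ X : ℝ, X0 ≤ X →
      ({E ∈ Hz X | (q : ℤ) ∣ dz E.1 E.2}.ncard : ℝ) ≤ (1 / q + δ) * ((Hz X).ncard : ℝ) := by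
  obtain ⟨X0, hX0⟩ := hEQZ.2.2 q {x : ZMod q × ZMod q | 4 * x.1 ^ 3 + 27 * x.2 ^ 2 = 0} δ hq.pos hδ
  refine ⟨X0, fun X hX => ?_⟩
  have h := hX0 X hX
  have hR : ({x : ZMod q × ZMod q | 4 * x.1 ^ 3 + 27 * x.2 ^ 2 = 0}.ncard : ℝ) = q := by
    exact_mod_cast (hTYZ q hq h5).2.2.1
  rw [hR] at h
  have hs : {E ∈ Hz X | (q : ℤ) ∣ dz E.1 E.2} = {E ∈ Hz X | ((E.1 : ZMod q), (E.2 : ZMod q)) ∈
      {x : ZMod q × ZMod q | 4 * x.1 ^ 3 + 27 * x.2 ^ 2 = 0}} := by
    ext E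
    have e : ((q : ℤ) ∣ dz E.1 E.2) ↔ 4 * (E.1 : ZMod q) ^ 3 + 27 * (E.2 : ZMod q) ^ 2 = 0 := by
      rw [← ZMod.intCast_zmod_eq_zero_iff_dvd (dz E.1 E.2) q]
      unfold dz
      push_cast
      exact Iff.rfl
    constructor
    · rintro ⟨h1, h2⟩
      exact ⟨h1, e.1 h2⟩
    · rintro ⟨h1, h2⟩
      exact ⟨h1, e.2 h2⟩
  rw [hs]
  have h2 := (abs_le.1 h).2
  have h3 : (q : ℝ) / (q : ℝ) ^ 2 = 1 / q := by
    have : (q : ℝ) ≠ 0 := by exact_mod_cast hq.ne_zero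
    field_simp
  rw [h3] at h2
  linarith

end BABM

open BABM in
/-- **BAB**: bad types. -/
theorem specBAB (hEQZ : SpecEQZ) (hTYZ : SpecTYZ) : SpecBAB := by
  intro ε hε
  obtain ⟨r0, hr0⟩ := exists_nat_gt (2 / ε)
  have hr0p : (0 : ℝ) < r0 := lt_trans (by positivity) hr0
  refine ⟨r0, fun S hB => ?_⟩
  have hr : 0 < S.r := hB.ok.rp
  have hrr : (0 : ℝ) < S.r := by exact_mod_cast hr
  have h5 : ∀ i, ∀ q ∈ S.L i, q.Prime ∧ 5 ≤ q := by
    intro i q hq
    obtain ⟨h1, h2⟩ := hB.ok.lpr i q hq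
    refine ⟨h1, ?_⟩
    by_contra h
    have h6 := hB.ok.six
    have h3 : q = 0 ∨ q = 1 ∨ q = 2 ∨ q = 3 ∨ q = 4 := by omega
    rcases h3 with h3 | h3 | h3 | h3 | h3
    · exact h1.ne_zero h3
    · exact h1.ne_one h3
    · exact h2 (h3 ▸ (Dvd.dvd.trans (by norm_num) h6))
    · exact h2 (h3 ▸ (Dvd.dvd.trans (by norm_num) h6))
    · rw [h3] at h1
      exact absurd h1 (by norm_num)
  have hg : ∀ q : ℕ, ∃ X0 : ℝ, q.Prime → 5 ≤ q → ∀ X : ℝ, X0 ≤ X →
      ({E ∈ Hz X | (q : ℤ) ∣ dz E.1 E.2}.ncard : ℝ) ≤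
        (1 / q + ε / (2 * S.r)) * ((Hz X).ncard : ℝ) := by
    intro q
    by_cases hq : q.Prime ∧ 5 ≤ q
    · obtain ⟨X0, h⟩ := one hEQZ hTYZ q hq.1 hq.2 (ε / (2 * S.r)) (by positivity)
      exact ⟨X0, fun _ _ => h⟩
    · exact ⟨0, fun h1 h2 => absurd ⟨h1, h2⟩ hq⟩
  choose g hg using hg
  obtain ⟨M, hM⟩ := ((Finset.univ.biUnion S.L).image g).exists_le
  refine ⟨M, fun X hX p hp => ?_⟩
  have hpi : ∀ i, p i ∈ S.L i := fun i => Fintype.mem_piFinset.1 hp i
  have hle : ∀ i, ({E ∈ Hz X | ((p i : ℕ) : ℤ) ∣ dz E.1 E.2}.ncard : ℝ) ≤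
      (1 / (p i : ℝ) + ε / (2 * S.r)) * ((Hz X).ncard : ℝ) := by
    intro i
    obtain ⟨h1, h2⟩ := h5 i (p i) (hpi i)
    apply hg (p i) h1 h2 X
    exact (hM _ (Finset.mem_image_of_mem g
      (Finset.mem_biUnion.2 ⟨i, Finset.mem_univ i, hpi i⟩))).trans hX
  have hsub : {E ∈ Hz X | ∃ i, ty (p i) E = 3} ⊆
      ⋃ i ∈ (Finset.univ : Finset (Fin S.r)), {E ∈ Hz X | ((p i : ℕ) : ℤ) ∣ dz E.1 E.2} := by
    rintro E ⟨hE, i, hi⟩
    simp only [Finset.mem_univ, Set.iUnion_true, Set.mem_iUnion]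
    refine ⟨i, hE, ?_⟩
    unfold ty at hi
    by_contra hc
    rw [if_neg hc] at hi
    split_ifs at hi <;> omega
  have hfin : ∀ i, {E ∈ Hz X | ((p i : ℕ) : ℤ) ∣ dz E.1 E.2}.Finite := fun i =>
    (hEQZ.1 X).subset fun E hE => hE.1
  have hU : (⋃ i ∈ (Finset.univ : Finset (Fin S.r)),
      {E ∈ Hz X | ((p i : ℕ) : ℤ) ∣ dz E.1 E.2}).Finite :=
    Set.Finite.biUnion (Finset.finite_toSet _) fun i _ => hfin i
  have h1 : ({E ∈ Hz X | ∃ i, ty (p i) E = 3}.ncard : ℝ) ≤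
      ∑ i, ({E ∈ Hz X | ((p i : ℕ) : ℤ) ∣ dz E.1 E.2}.ncard : ℝ) := by
    have h2 := Set.ncard_le_ncard hsub hU
    have h3 := Finset.set_ncard_biUnion_le (Finset.univ : Finset (Fin S.r))
      (fun i => {E ∈ Hz X | ((p i : ℕ) : ℤ) ∣ dz E.1 E.2})
    exact_mod_cast h2.trans h3
  have hp1 : ∀ i, 1 / (p i : ℝ) ≤ 1 / (r0 * S.r) := by
    intro i
    have h2 := hB.pr i (p i) (hpi i)
    have h3 := Real.add_one_le_exp ((r0 : ℝ) * S.r)
    apply one_div_le_one_div_of_le (by positivity)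
    linarith
  have hN : (0 : ℝ) ≤ ((Hz X).ncard : ℝ) := Nat.cast_nonneg _
  calc ({E ∈ Hz X | ∃ i, ty (p i) E = 3}.ncard : ℝ)
      ≤ ∑ i, ({E ∈ Hz X | ((p i : ℕ) : ℤ) ∣ dz E.1 E.2}.ncard : ℝ) := h1
    _ ≤ ∑ _i : Fin S.r, (1 / (r0 * S.r) + ε / (2 * S.r)) * ((Hz X).ncard : ℝ) := by
        apply Finset.sum_le_sum
        intro i _
        refine (hle i).trans (mul_le_mul_of_nonneg_right ?_ hN)
        linarith [hp1 i]
    _ = (1 / r0 + ε / 2) * ((Hz X).ncard : ℝ) := by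
        rw [Finset.sum_const, Finset.card_univ, Fintype.card_fin, nsmul_eq_mul]
        field_simp
    _ ≤ ε * ((Hz X).ncard : ℝ) := by
        apply mul_le_mul_of_nonneg_right _ hN
        have h6 : 1 / (r0 : ℝ) ≤ ε / 2 := by
          rw [div_le_div_iff₀ hr0p (by norm_num)]
          rw [div_lt_iff₀ hε] at hr0
          linarith
        linarith

end Pool.Agent.Lib.MP_8cb858_nt.PT
end

section
/-!
# BDM: the measure of the bad event
-/
namespace Pool.Agent.Lib.MP_8cb858_nt.PT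

open Polynomial NumberField IsDedekindDomain Pool.Agent.Lib.MP_8cb858_nt.SEL
open Pool.Agent.Lib.MP_8cb858_nt.PF
open scoped Classical WithZero

namespace BDMM

section Counting

variable {α β : Type*}

/-- the number of elements of `s` with `Q`. -/
noncomputable def fc (s : Finset β) (Q : β → Prop) : ℝ :=
  ((@Finset.filter β Q (fun _ => Classical.propDecidable _) s).card : ℝ)

lemma fc_eq (s : Finset β) (Q : β → Prop) [DecidablePred Q] :
    ((s.filter Q).card : ℝ) = fc s Q := by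
  unfold fc
  congr!

lemma fc_nil {s : Finset β} {Q : β → Prop} (h : ∀ x ∈ s, ¬ Q x) : fc s Q = 0 := by
  unfold fc
  rw [Nat.cast_eq_zero, Finset.card_eq_zero, Finset.filter_eq_empty_iff]
  intro x hx
  exact h x hx

lemma fc_mono {s : Finset β} {Q Q' : β → Prop} (h : ∀ x ∈ s, Q x → Q' x) : fc s Q ≤ fc s Q' := by
  unfold fc
  have : (@Finset.filter β Q (fun _ => Classical.propDecidable _) s).card ≤
      (@Finset.filter β Q' (fun _ => Classical.propDecidable _) s).card := by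
    refine Finset.card_le_card ?_
    intro p hp
    rw [Finset.mem_filter] at hp ⊢
    exact ⟨hp.1, h p hp.1 hp.2⟩
  exact (Nat.cast_le (α := ℝ)).2 this

lemma fc_sum (s : Finset β) (Q : β → Prop) :
    fc s Q = ∑ p ∈ s, if Q p then (1 : ℝ) else 0 := by
  rw [← Finset.sum_filter, Finset.sum_const, nsmul_eq_mul, mul_one, fc_eq]

lemma fc_or (s : Finset β) (Q Q' : β → Prop) :
    fc s (fun x => Q x ∨ Q' x) ≤ fc s Q + fc s Q' := by
  rw [fc_sum, fc_sum, fc_sum, ← Finset.sum_add_distrib]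
  refine Finset.sum_le_sum (fun x _ => ?_)
  by_cases h1 : Q x
  · by_cases h2 : Q' x
    · simp [h1, h2]
    · simp [h1, h2]
  · by_cases h2 : Q' x
    · simp [h1, h2]
    · simp [h1, h2]

/-- the number of triples with `P`. -/
noncomputable def cnt (H : Finset α) (O : Finset β) (P : α → α → β → Prop) : ℝ :=
  ∑ E ∈ H, ∑ E' ∈ H, fc O (fun p => P E E' p)

variable {H : Finset α} {O : Finset β}

lemma cnt_mono {P Q : α → α → β → Prop} (h : ∀ E ∈ H, ∀ E' ∈ H, ∀ p ∈ O, P E E' p → Q E E' p) :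
    cnt H O P ≤ cnt H O Q := by
  unfold cnt
  exact Finset.sum_le_sum (fun E hE => Finset.sum_le_sum (fun E' hE' =>
    fc_mono (fun p hp => h E hE E' hE' p hp)))

lemma cnt_or (P Q : α → α → β → Prop) :
    cnt H O (fun E E' p => P E E' p ∨ Q E E' p) ≤ cnt H O P + cnt H O Q := by
  unfold cnt
  rw [← Finset.sum_add_distrib]
  refine Finset.sum_le_sum (fun E _ => ?_)
  rw [← Finset.sum_add_distrib]
  exact Finset.sum_le_sum (fun E' _ => fc_or O _ _)

lemma cnt_swap (P : α → α → β → Prop) :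
    cnt H O (fun E E' p => P E' E p) = cnt H O P := by
  unfold cnt
  rw [Finset.sum_comm]

lemma cnt_p {P : α → α → β → Prop} {δ : ℝ}
    (h : ∀ E ∈ H, ∀ E' ∈ H, fc O (fun p => P E E' p) ≤ δ * (O.card : ℝ)) :
    cnt H O P ≤ δ * (H.card : ℝ) ^ 2 * (O.card : ℝ) := by
  unfold cnt
  refine (Finset.sum_le_sum (fun E hE => Finset.sum_le_sum (fun E' hE' => h E hE E' hE'))).trans ?_
  rw [Finset.sum_const, Finset.sum_const, nsmul_eq_mul, nsmul_eq_mul]
  apply le_of_eq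
  ring

lemma cnt_E' {P : α → α → β → Prop} {δ : ℝ}
    (h : ∀ E ∈ H, ∀ p ∈ O, fc H (fun E' => P E E' p) ≤ δ * (H.card : ℝ)) :
    cnt H O P ≤ δ * (H.card : ℝ) ^ 2 * (O.card : ℝ) := by
  have e : cnt H O P = ∑ E ∈ H, ∑ p ∈ O, fc H (fun E' => P E E' p) := by
    unfold cnt
    refine Finset.sum_congr rfl (fun E _ => ?_)
    have e1 : ∀ E' ∈ H, fc O (fun p => P E E' p) =
        ∑ p ∈ O, if P E E' p then (1 : ℝ) else 0 := fun E' _ => fc_sum O _
    have e2 : ∀ p ∈ O, fc H (fun E' => P E E' p) =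
        ∑ E' ∈ H, if P E E' p then (1 : ℝ) else 0 := fun p _ => fc_sum H _
    rw [Finset.sum_congr rfl e1, Finset.sum_congr rfl e2, Finset.sum_comm]
  rw [e]
  refine (Finset.sum_le_sum (fun E hE => Finset.sum_le_sum (fun p hp => h E hE p hp))).trans ?_
  rw [Finset.sum_const, Finset.sum_const, nsmul_eq_mul, nsmul_eq_mul]
  apply le_of_eq
  ring

lemma cnt_E {P : α → α → β → Prop} {δ : ℝ}
    (h : ∀ E' ∈ H, ∀ p ∈ O, fc H (fun E => P E E' p) ≤ δ * (H.card : ℝ)) :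
    cnt H O P ≤ δ * (H.card : ℝ) ^ 2 * (O.card : ℝ) := by
  rw [← cnt_swap]
  exact cnt_E' (P := fun E E' p => P E' E p) h

end Counting

lemma big_mono {S : Dat} {r0 r1 : ℕ} (h : Big S r1) (h0 : r0 ≤ r1) : Big S r0 where
  ok := h.ok
  r := h0.trans h.r
  d1 := (Nat.mul_le_mul_right _ h0).trans h.d1
  k0 := (Nat.mul_le_mul_right _ h0).trans h.k0
  pr i q hq := by
    refine (Real.exp_le_exp.2 ?_).trans (h.pr i q hq)
    exact mul_le_mul_of_nonneg_right (by exact_mod_cast h0) (Nat.cast_nonneg _)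
  card i := by
    refine (Real.exp_le_exp.2 ?_).trans (h.card i)
    exact mul_le_mul_of_nonneg_right (by exact_mod_cast h0) (Nat.cast_nonneg _)
  aux K n j h1 h2 h3 := h0.trans (h.aux K n j h1 h2 h3)

lemma ncard_filter {X : ℝ} (hf : (Hz X).Finite) (Q : ℤ × ℤ → Prop) :
    ({E ∈ Hz X | Q E}.ncard) = (hf.toFinset.filter Q).card := by
  rw [← Set.ncard_coe_finset]
  congr 1
  ext E
  simp

/-- `¬ Gh` for a fixed position. -/
lemma one (S : Dat) (n : ℕ) (η κ δ : ℝ) (lo : ℕ) (hlo : lo ≤ n) (X : ℝ) (hf : (Hz X).Finite)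
    (r1 : ℕ)
    (h1 : ∀ p ∈ S.Om, ({E ∈ Hz X | ∃ i, ty (p i) E = 3}.ncard : ℝ) ≤ δ * ((Hz X).ncard : ℝ))
    (h2 : ({E ∈ Hz X | ∃ i, ¬ Tok κ (S.L i) E}.ncard : ℝ) ≤ δ * ((Hz X).ncard : ℝ))
    (h3 : ∀ E' : ℤ × ℤ, (∀ i, Tok κ (S.L i) E') →
      ({E ∈ Hz X | ∃ i, ¬ Tok κ ((S.L i).filter (fun q => ty q E' = 1)) E}.ncard : ℝ) ≤
        δ * ((Hz X).ncard : ℝ))
    (h4 : ∀ E : ℤ × ℤ, (∀ i, Tok κ (S.L i) E) →
      ((S.Om.filter (fun p => ¬ (48 * S.r ≤ 100 * (S.Ux E p).card ∧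
        100 * (S.Jx E p).card ≤ 17 * S.r))).card : ℝ) ≤ δ * (S.Om.card : ℝ))
    (h5 : ∀ E E' : ℤ × ℤ, (∀ i, Tok κ (S.L i) E') →
      (∀ i, Tok κ ((S.L i).filter (fun q => ty q E' = 1)) E) →
      ((S.Om.filter (fun p => ¬ ∀ k, lo ≤ k → k < lo + n →
        ∃ i ∈ S.bk n k, S.al E E' p i)).card : ℝ) ≤ δ * (S.Om.card : ℝ))
    (h6 : ∀ p ∈ S.Om,
      ({E ∈ Hz X | ¬ (Y3 (mx (S.mm S.K0 (cl S.K0 (∏ j, p j))) E) E.1 E.2 ∧
        (sc E.1 E.2 (S.D1 * mx (S.mm S.K0 (cl S.K0 (∏ j, p j))) E) : ℝ) ≤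
          2 ^ ((1 / 20 : ℝ) * S.r))}.ncard : ℝ) ≤ δ * ((Hz X).ncard : ℝ))
    (h7 : ∀ E' : ℤ × ℤ, ((S.Om.filter (fun p => ∃ (i : Fin S.r) (I : Finset (Fin S.r)), i ∉ I ∧
      ((S.Ls E' (S.K0 * ∏ j ∈ I, p j) p i).card : ℝ) < Real.exp (r1 * S.r))).card : ℝ) ≤
      δ * (S.Om.card : ℝ))
    (h8 : ∀ p ∈ S.Om, ∀ E' : ℤ × ℤ,
      (∀ (i : Fin S.r) (I : Finset (Fin S.r)), i ∉ I →
        Real.exp (r1 * S.r) ≤ ((S.Ls E' (S.K0 * ∏ j ∈ I, p j) p i).card : ℝ)) →
      ({E ∈ Hz X | ¬ S.Nal η κ E E' p}.ncard : ℝ) ≤ δ * ((Hz X).ncard : ℝ)) (hδ : 0 ≤ δ) :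
    cnt hf.toFinset S.Om (fun E E' p => ¬ S.Gh n η κ lo E E' p) ≤
      9 * (δ * (hf.toFinset.card : ℝ) ^ 2 * (S.Om.card : ℝ)) := by
  have hN : ((Hz X).ncard : ℝ) = (hf.toFinset.card : ℝ) := by
    rw [Set.ncard_eq_toFinset_card _ hf]
  rw [hN] at h2
  simp only [hN, ncard_filter hf, fc_eq] at h1 h2 h3 h6 h8
  simp only [fc_eq] at h4 h5 h7
  -- the nine events
  have c1 : cnt hf.toFinset S.Om (fun E _ p => ∃ i, ty (p i) E = 3) ≤
      δ * (hf.toFinset.card : ℝ) ^ 2 * (S.Om.card : ℝ) := by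
    apply cnt_E
    intro E' _ p hp
    exact h1 p hp
  have c2 : cnt hf.toFinset S.Om (fun E _ _ => ∃ i, ¬ Tok κ (S.L i) E) ≤
      δ * (hf.toFinset.card : ℝ) ^ 2 * (S.Om.card : ℝ) := by
    apply cnt_E
    intro E' _ p hp
    exact h2
  have c3 : cnt hf.toFinset S.Om (fun _ E' _ => ∃ i, ¬ Tok κ (S.L i) E') ≤
      δ * (hf.toFinset.card : ℝ) ^ 2 * (S.Om.card : ℝ) := by
    apply cnt_E'
    intro E' _ p hp
    exact h2
  have c4 : cnt hf.toFinset S.Om (fun E E' _ => (∀ i, Tok κ (S.L i) E') ∧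
      ∃ i, ¬ Tok κ ((S.L i).filter (fun q => ty q E' = 1)) E) ≤
      δ * (hf.toFinset.card : ℝ) ^ 2 * (S.Om.card : ℝ) := by
    apply cnt_E
    intro E' _ p hp
    by_cases hT : ∀ i, Tok κ (S.L i) E'
    · exact (fc_mono (fun x _ hh => hh.2)).trans (h3 E' hT)
    · rw [fc_nil (fun x _ hh => hT hh.1)]
      positivity
  have c5 : cnt hf.toFinset S.Om (fun E _ p => (∀ i, Tok κ (S.L i) E) ∧
      ¬ (48 * S.r ≤ 100 * (S.Ux E p).card ∧ 100 * (S.Jx E p).card ≤ 17 * S.r)) ≤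
      δ * (hf.toFinset.card : ℝ) ^ 2 * (S.Om.card : ℝ) := by
    apply cnt_p
    intro E _ E' _
    by_cases hT : ∀ i, Tok κ (S.L i) E
    · exact (fc_mono (fun x _ hh => hh.2)).trans (h4 E hT)
    · rw [fc_nil (fun x _ hh => hT hh.1)]
      positivity
  have c6 : cnt hf.toFinset S.Om (fun E E' p => ((∀ i, Tok κ (S.L i) E') ∧
      (∀ i, Tok κ ((S.L i).filter (fun q => ty q E' = 1)) E)) ∧
      ¬ ∀ k, lo ≤ k → k < lo + n → ∃ i ∈ S.bk n k, S.al E E' p i) ≤
      δ * (hf.toFinset.card : ℝ) ^ 2 * (S.Om.card : ℝ) := by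
    apply cnt_p
    intro E _ E' _
    by_cases hT : (∀ i, Tok κ (S.L i) E') ∧
      (∀ i, Tok κ ((S.L i).filter (fun q => ty q E' = 1)) E)
    · exact (fc_mono (fun x _ hh => hh.2)).trans (h5 E E' hT.1 hT.2)
    · rw [fc_nil (fun x _ hh => hT hh.1)]
      positivity
  have c7 : cnt hf.toFinset S.Om (fun E _ p =>
      ¬ (Y3 (mx (S.mm S.K0 (cl S.K0 (∏ j, p j))) E) E.1 E.2 ∧
        (sc E.1 E.2 (S.D1 * mx (S.mm S.K0 (cl S.K0 (∏ j, p j))) E) : ℝ) ≤
          2 ^ ((1 / 20 : ℝ) * S.r))) ≤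
      δ * (hf.toFinset.card : ℝ) ^ 2 * (S.Om.card : ℝ) := by
    apply cnt_E
    intro E' _ p hp
    exact h6 p hp
  have c8 : cnt hf.toFinset S.Om (fun _ E' p => ∃ (i : Fin S.r) (I : Finset (Fin S.r)), i ∉ I ∧
      ((S.Ls E' (S.K0 * ∏ j ∈ I, p j) p i).card : ℝ) < Real.exp (r1 * S.r)) ≤
      δ * (hf.toFinset.card : ℝ) ^ 2 * (S.Om.card : ℝ) := by
    apply cnt_p
    intro E _ E' _
    exact h7 E'
  have c9 : cnt hf.toFinset S.Om (fun E E' p => (∀ (i : Fin S.r) (I : Finset (Fin S.r)), i ∉ I →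
        Real.exp (r1 * S.r) ≤ ((S.Ls E' (S.K0 * ∏ j ∈ I, p j) p i).card : ℝ)) ∧
      ¬ S.Nal η κ E E' p) ≤
      δ * (hf.toFinset.card : ℝ) ^ 2 * (S.Om.card : ℝ) := by
    apply cnt_E
    intro E' _ p hp
    by_cases hT : ∀ (i : Fin S.r) (I : Finset (Fin S.r)), i ∉ I →
        Real.exp (r1 * S.r) ≤ ((S.Ls E' (S.K0 * ∏ j ∈ I, p j) p i).card : ℝ)
    · exact (fc_mono (fun x _ hh => hh.2)).trans (h8 p hp E' hT)
    · rw [fc_nil (fun x _ hh => hT hh.1)]
      positivity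
  refine (cnt_mono (Q := fun E E' p =>
    (∃ i, ty (p i) E = 3) ∨ (∃ i, ¬ Tok κ (S.L i) E) ∨ (∃ i, ¬ Tok κ (S.L i) E') ∨
    ((∀ i, Tok κ (S.L i) E') ∧ ∃ i, ¬ Tok κ ((S.L i).filter (fun q => ty q E' = 1)) E) ∨
    ((∀ i, Tok κ (S.L i) E) ∧
      ¬ (48 * S.r ≤ 100 * (S.Ux E p).card ∧ 100 * (S.Jx E p).card ≤ 17 * S.r)) ∨
    (((∀ i, Tok κ (S.L i) E') ∧ (∀ i, Tok κ ((S.L i).filter (fun q => ty q E' = 1)) E)) ∧
      ¬ ∀ k, lo ≤ k → k < lo + n → ∃ i ∈ S.bk n k, S.al E E' p i) ∨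
    (¬ (Y3 (mx (S.mm S.K0 (cl S.K0 (∏ j, p j))) E) E.1 E.2 ∧
        (sc E.1 E.2 (S.D1 * mx (S.mm S.K0 (cl S.K0 (∏ j, p j))) E) : ℝ) ≤
          2 ^ ((1 / 20 : ℝ) * S.r))) ∨
    (∃ (i : Fin S.r) (I : Finset (Fin S.r)), i ∉ I ∧
      ((S.Ls E' (S.K0 * ∏ j ∈ I, p j) p i).card : ℝ) < Real.exp (r1 * S.r)) ∨
    ((∀ (i : Fin S.r) (I : Finset (Fin S.r)), i ∉ I →
        Real.exp (r1 * S.r) ≤ ((S.Ls E' (S.K0 * ∏ j ∈ I, p j) p i).card : ℝ)) ∧
      ¬ S.Nal η κ E E' p)) ?_).trans ?_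
  · intro E _ E' _ p _ hG
    by_contra hcon
    simp only [not_or] at hcon
    obtain ⟨g1, g2, g3, g4, g5, g6, g7, g8, g9⟩ := hcon
    have t1 : ∀ i, Tok κ (S.L i) E := by
      intro i; by_contra h; exact g2 ⟨i, h⟩
    have t2 : ∀ i, Tok κ (S.L i) E' := by
      intro i; by_contra h; exact g3 ⟨i, h⟩
    have t3 : ∀ i, Tok κ ((S.L i).filter (fun q => ty q E' = 1)) E := by
      intro i; by_contra h; exact g4 ⟨t2, i, h⟩
    have t4 : ∀ (i : Fin S.r) (I : Finset (Fin S.r)), i ∉ I →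
        Real.exp (r1 * S.r) ≤ ((S.Ls E' (S.K0 * ∏ j ∈ I, p j) p i).card : ℝ) := by
      intro i I hi; by_contra h; exact g8 ⟨i, I, hi, lt_of_not_ge h⟩
    have t5 := not_not.1 (fun h => g5 ⟨t1, h⟩)
    have t6 := not_not.1 (fun h => g6 ⟨⟨t2, t3⟩, h⟩)
    have t7 := not_not.1 g7
    have t9 := not_not.1 (fun h => g9 ⟨t4, h⟩)
    exact hG ⟨fun i hi => g1 ⟨i, hi⟩, t5.1, t5.2, t7.1, t7.2, t6, t9⟩
  · refine (cnt_or _ _).trans ?_
    refine (add_le_add c1 ((cnt_or _ _).trans (add_le_add c2 ((cnt_or _ _).trans (add_le_add c3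
      ((cnt_or _ _).trans (add_le_add c4 ((cnt_or _ _).trans (add_le_add c5
      ((cnt_or _ _).trans (add_le_add c6 ((cnt_or _ _).trans (add_le_add c7
      ((cnt_or _ _).trans (add_le_add c8 c9))))))))))))))).trans ?_
    apply le_of_eq
    ring

end BDMM

theorem specBDM (hBAB : SpecBAB) (hTYE : SpecTYE) (hTYP : SpecTYP) (hBLB : SpecBLB)
    (hBSB : SpecBSB) (hSML : SpecSML) (hNDB : SpecNDB) (hEQZ : SpecEQZ) : SpecBDM := by
  intro n η κ ε hn hη hκ hκ1 hε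
  have hδ : 0 < ε / 18 := by positivity
  obtain ⟨ra, ha⟩ := hBAB (ε / 18) hδ
  obtain ⟨rb, hb⟩ := hTYE κ (ε / 18) hκ hκ1 hδ
  obtain ⟨rc, hc⟩ := hTYP (ε / 18) hδ
  obtain ⟨rd, hd⟩ := hBLB n (ε / 18) hn hδ
  obtain ⟨re, he⟩ := hBSB (ε / 18) hδ
  obtain ⟨r1, rf, hf⟩ := hNDB η κ (ε / 18) hη hκ hδ
  obtain ⟨rg, hg⟩ := hSML r1 (ε / 18) hδ
  refine ⟨ra + rb + rc + rd + re + rf + rg, ?_⟩
  intro S hS
  have Ba := BDMM.big_mono hS (show ra ≤ _ by omega)
  have Bb := BDMM.big_mono hS (show rb ≤ _ by omega)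
  have Bc := BDMM.big_mono hS (show rc ≤ _ by omega)
  have Bd := BDMM.big_mono hS (show rd ≤ _ by omega)
  have Be := BDMM.big_mono hS (show re ≤ _ by omega)
  have Bf := BDMM.big_mono hS (show rf ≤ _ by omega)
  have Bg := BDMM.big_mono hS (show rg ≤ _ by omega)
  obtain ⟨Xa, ha⟩ := ha S Ba
  obtain ⟨Xb, hb⟩ := hb S Bb
  obtain ⟨Xe, he⟩ := he S Be
  obtain ⟨Xf, hf⟩ := hf S Bf
  refine ⟨max (max Xa Xb) (max Xe Xf), ?_⟩
  intro X hX
  have hXa : Xa ≤ X := le_trans (le_trans (le_max_left _ _) (le_max_left _ _)) hX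
  have hXb : Xb ≤ X := le_trans (le_trans (le_max_right _ _) (le_max_left _ _)) hX
  have hXe : Xe ≤ X := le_trans (le_trans (le_max_left _ _) (le_max_right _ _)) hX
  have hXf : Xf ≤ X := le_trans (le_trans (le_max_right _ _) (le_max_right _ _)) hX
  have hfin := hEQZ.1 X
  have key : ∀ lo ≤ n, BDMM.cnt hfin.toFinset S.Om (fun E E' p => ¬ S.Gh n η κ lo E E' p) ≤
      9 * (ε / 18 * (hfin.toFinset.card : ℝ) ^ 2 * (S.Om.card : ℝ)) := by
    intro lo hlo
    exact BDMM.one S n η κ (ε / 18) lo hlo X hfin r1 (ha X hXa) (hb X hXb).1 (hb X hXb).2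
      (fun E hT => hc S κ E Bc hκ hκ1 hT)
      (fun E E' hT hT' => hd S κ E E' lo Bd hκ hκ1 hlo hT hT')
      (he X hXe) (fun E' => hg S E' Bg) (hf X hXf) hδ.le
  have k0 := key 0 (Nat.zero_le _)
  have k1 := key n le_rfl
  rw [← BDMM.cnt_swap] at k1
  have hN : ((Hz X).ncard : ℝ) = (hfin.toFinset.card : ℝ) := by
    rw [Set.ncard_eq_toFinset_card _ hfin]
  have hT : (({t : (ℤ × ℤ) × (ℤ × ℤ) × (Fin S.r → ℕ) | t.1 ∈ Hz X ∧ t.2.1 ∈ Hz X ∧ t.2.2 ∈ S.Om ∧
        ¬ (S.Gh n η κ 0 t.1 t.2.1 t.2.2 ∧ S.Gh n η κ n t.2.1 t.1 t.2.2)}.ncard : ℕ) : ℝ) =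
      BDMM.cnt hfin.toFinset S.Om
        (fun E E' p => ¬ (S.Gh n η κ 0 E E' p ∧ S.Gh n η κ n E' E p)) := by
    have e1 : {t : (ℤ × ℤ) × (ℤ × ℤ) × (Fin S.r → ℕ) | t.1 ∈ Hz X ∧ t.2.1 ∈ Hz X ∧
        t.2.2 ∈ S.Om ∧ ¬ (S.Gh n η κ 0 t.1 t.2.1 t.2.2 ∧ S.Gh n η κ n t.2.1 t.1 t.2.2)} =
        (((hfin.toFinset ×ˢ (hfin.toFinset ×ˢ S.Om)).filter (fun t =>
          ¬ (S.Gh n η κ 0 t.1 t.2.1 t.2.2 ∧ S.Gh n η κ n t.2.1 t.1 t.2.2)) :
            Finset ((ℤ × ℤ) × (ℤ × ℤ) × (Fin S.r → ℕ))) : Set _) := by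
      ext t
      simp only [Set.mem_ofPred_eq, Finset.coe_filter, Finset.mem_product,
        Set.Finite.mem_toFinset]
      tauto
    rw [e1, Set.ncard_coe_finset, BDMM.fc_eq, BDMM.fc_sum, Finset.sum_product]
    unfold BDMM.cnt
    refine Finset.sum_congr rfl (fun E _ => ?_)
    rw [Finset.sum_product]
    refine Finset.sum_congr rfl (fun E' _ => ?_)
    rw [BDMM.fc_sum]
  rw [hT, hN]
  refine (BDMM.cnt_mono (Q := fun E E' p => (¬ S.Gh n η κ 0 E E' p) ∨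
    (¬ S.Gh n η κ n E' E p)) ?_).trans ((BDMM.cnt_or _ _).trans ((add_le_add k0 k1).trans ?_))
  · intro E _ E' _ p _ h
    by_contra hcon
    rw [not_or, not_not, not_not] at hcon
    exact h hcon
  · apply le_of_eq
    ring

end Pool.Agent.Lib.MP_8cb858_nt.PT
end

section
/-! Module TYE: the types are well distributed in all lists. -/
set_option autoImplicit false

namespace Pool.Agent.Lib.MP_8cb858_nt.PT

open Polynomial NumberField IsDedekindDomain Pool.Agent.Lib.MP_8cb858_nt.SEL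
open Pool.Agent.Lib.MP_8cb858_nt.PF
open scoped Classical WithZero

namespace TYEM

/-- type (3) excludes type (1,2) -/
theorem y3_not_y12 (hTYZ : SpecTYZ) {q : ℕ} (hq : q.Prime) (h5 : 5 ≤ q) {a b : ℤ}
    (h3 : Y3 q a b) : ¬ Y12 q a b := by
  have h := ((hTYZ q hq h5).2.2.2 ((a : ZMod q), (b : ZMod q)) h3).1
  unfold Y12
  rw [not_not]
  have h2 : ((-dz a b : ℤ) : ZMod q) = -(4 * (a : ZMod q) ^ 3 + 27 * (b : ZMod q) ^ 2) := by
    unfold dz
    push_cast
    ring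
  rw [h2]
  exact h

theorem ty_zero {q : ℕ} {E : ℤ × ℤ} : ty q E = 0 ↔ Y12 q E.1 E.2 := by
  unfold ty
  constructor
  · intro h
    by_contra hc
    rw [if_neg hc] at h
    split_ifs at h <;> omega
  · intro h
    rw [if_pos h]

theorem ty_one (hTYZ : SpecTYZ) {q : ℕ} (hq : q.Prime) (h5 : 5 ≤ q) {E : ℤ × ℤ} :
    ty q E = 1 ↔ Y3 q E.1 E.2 := by
  unfold ty
  constructor
  · intro h
    by_contra hc
    rw [if_neg hc] at h
    split_ifs at h <;> omega
  · intro h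
    rw [if_neg (y3_not_y12 hTYZ hq h5 h), if_pos h]

theorem five_le (S : Dat) (hS : S.Ok) {i : Fin S.r} {q : ℕ} (hq : q ∈ S.L i) : 5 ≤ q := by
  have h := hS.lpr i q hq
  have h2 : q ≠ 2 := by
    rintro rfl
    exact h.2 (dvd_trans (by norm_num) hS.six)
  have h3 : q ≠ 3 := by
    rintro rfl
    exact h.2 (dvd_trans (by norm_num) hS.six)
  have h4 : q ≠ 4 := by
    rintro rfl
    exact absurd h.1 (by norm_num)
  have := h.1.two_le
  omega

/-- the sublist of the primes of type (3) for `E'` -/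
theorem filter_eq (hTYZ : SpecTYZ) (S : Dat) (hS : S.Ok) (i : Fin S.r) (E' : ℤ × ℤ) :
    (S.L i).filter (fun q => ty q E' = 1) = (S.L i).filter (fun q => Y3 q E'.1 E'.2) := by
  refine Finset.filter_congr fun q hq => ?_
  exact ty_one hTYZ (hS.lpr i q hq).1 (five_le S hS hq)

theorem card_sub (hTYZ : SpecTYZ) (S : Dat) (hS : S.Ok) (i : Fin S.r) (E' : ℤ × ℤ) {κ : ℝ}
    (h : Tok κ (S.L i) E') :
    (1 / 3 - κ) * ((S.L i).card : ℝ) ≤
      (((S.L i).filter (fun q => ty q E' = 1)).card : ℝ) := by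
  rw [filter_eq hTYZ S hS i E']
  have := (abs_le.1 h.t3).1
  linarith

theorem unif {α : Type} (s : Finset α) (P : α → ℝ → Prop)
    (h : ∀ a ∈ s, ∃ X0 : ℝ, ∀ X : ℝ, X0 ≤ X → P a X) :
    ∃ X0 : ℝ, ∀ X : ℝ, X0 ≤ X → ∀ a ∈ s, P a X := by
  induction s using Finset.induction_on with
  | empty => exact ⟨0, fun X _ a ha => absurd ha (Finset.notMem_empty a)⟩
  | insert b t hb ih =>
    obtain ⟨X1, h1⟩ := ih fun a ha => h a (Finset.mem_insert_of_mem ha)
    obtain ⟨X2, h2⟩ := h b (Finset.mem_insert_self b t)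
    refine ⟨max X1 X2, fun X hX a ha => ?_⟩
    rcases Finset.mem_insert.1 ha with rfl | ha
    · exact h2 X (le_trans (le_max_right _ _) hX)
    · exact h1 X (le_trans (le_max_left _ _) hX) a ha

/-- a union of `r` sets of small measure -/
theorem union_bound {r : ℕ} (X : ℝ) (_hX : (Hz X).Finite) (P : Fin r → ℤ × ℤ → Prop)
    (c : ℝ) (h : ∀ i, ({E ∈ Hz X | P i E}.ncard : ℝ) ≤ c) :
    ({E ∈ Hz X | ∃ i, P i E}.ncard : ℝ) ≤ r * c := by
  have h1 : {E ∈ Hz X | ∃ i, P i E} = ⋃ i ∈ (Finset.univ : Finset (Fin r)), {E ∈ Hz X | P i E} := by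
    ext E
    simp only [Set.mem_sep_iff, Finset.mem_univ, Set.iUnion_true, Set.mem_iUnion]
    constructor
    · rintro ⟨h1, i, h2⟩
      exact ⟨i, h1, h2⟩
    · rintro ⟨i, h1, h2⟩
      exact ⟨h1, i, h2⟩
  have hgen : ∀ s : Finset (Fin r),
      (((⋃ i ∈ s, {E ∈ Hz X | P i E}) : Set (ℤ × ℤ)).ncard : ℝ) ≤ s.card * c := by
    intro s
    induction s using Finset.induction_on with
    | empty => simp
    | insert b t hb ih =>
      rw [Finset.set_biUnion_insert, Finset.card_insert_of_notMem hb]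
      have h2 := Set.ncard_union_le {E ∈ Hz X | P b E} (⋃ i ∈ t, {E ∈ Hz X | P i E})
      have h3 : ((({E ∈ Hz X | P b E} ∪ ⋃ i ∈ t, {E ∈ Hz X | P i E}) : Set (ℤ × ℤ)).ncard : ℝ) ≤
          ({E ∈ Hz X | P b E}.ncard : ℝ) + ((⋃ i ∈ t, {E ∈ Hz X | P i E} : Set (ℤ × ℤ)).ncard : ℝ) := by
        exact_mod_cast h2
      have h4 := h b
      push_cast
      linarith
  rw [h1]
  have := hgen Finset.univ
  simpa using this

theorem exists_large (ε : ℝ) (hε : 0 < ε) : ∃ r2 : ℕ, ∀ r : ℕ, r2 ≤ r →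
    (r : ℝ) * Real.exp (-(1 * (r : ℝ))) ≤ ε := by
  have h := Real.tendsto_pow_mul_exp_neg_atTop_nhds_zero 1
  have h2 := (h.comp tendsto_natCast_atTop_atTop).eventually (gt_mem_nhds hε)
  obtain ⟨r2, h3⟩ := Filter.eventually_atTop.1 h2
  refine ⟨r2, fun r hr => ?_⟩
  have h4 := h3 r hr
  simp only [Function.comp, pow_one] at h4
  rw [one_mul]
  exact h4.le

end TYEM

/-- **TYE.** -/
theorem specTYE (hNOD : SpecNOD) (hTYZ : SpecTYZ) (hEQZ : SpecEQZ) : SpecTYE := by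
  intro κ ε hκ hκ1 hε
  obtain ⟨r1, h1⟩ := hNOD 1 κ 1 one_pos hκ one_pos
  obtain ⟨r2, h2⟩ := TYEM.exists_large ε hε
  refine ⟨max (r1 + 2) r2, fun S hB => ?_⟩
  have hS := hB.ok
  have hr0 : (1 : ℝ) ≤ S.r := by exact_mod_cast hS.rp
  have hr1 : r1 ≤ S.r := le_trans (le_trans (by omega) (le_max_left _ _)) hB.r
  have hr2 : r2 ≤ S.r := le_trans (le_max_right _ _) hB.r
  have hle : ((r1 : ℝ) + 2) ≤ ((max (r1 + 2) r2 : ℕ) : ℝ) := by
    have : r1 + 2 ≤ max (r1 + 2) r2 := le_max_left _ _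
    exact_mod_cast this
  have hexp : Real.exp (r1 * S.r) * 4 ≤ Real.exp ((max (r1 + 2) r2 : ℕ) * S.r) := by
    have h3 : (4 : ℝ) ≤ Real.exp (2 * S.r) := by
      have h4 : (2 : ℝ) * 1 ≤ 2 * S.r := by linarith
      have h5 : Real.exp (2 * 1) ≤ Real.exp (2 * S.r) := Real.exp_le_exp.2 h4
      have h6 : (4 : ℝ) ≤ Real.exp (2 * 1) := by
        have h7 : Real.exp (2 * 1) = Real.exp 1 ^ 2 := by
          rw [← Real.exp_nat_mul]
          norm_num
        have h8 : (2 : ℝ) ≤ Real.exp 1 := by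
          have := Real.add_one_le_exp 1
          linarith
        rw [h7]
        nlinarith
      linarith
    calc Real.exp (r1 * S.r) * 4 ≤ Real.exp (r1 * S.r) * Real.exp (2 * S.r) :=
          mul_le_mul_of_nonneg_left h3 (Real.exp_pos _).le
      _ = Real.exp ((r1 + 2) * S.r) := by rw [← Real.exp_add]; ring_nf
      _ ≤ Real.exp ((max (r1 + 2) r2 : ℕ) * S.r) := by
          apply Real.exp_le_exp.2
          exact mul_le_mul_of_nonneg_right hle (by linarith)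
  have hc : (1 : ℕ).Coprime S.K0 := Nat.coprime_one_left _
  have hinj := hS.inj S.K0 1 hS.k0 hS.six hc
  -- one sublist
  have hone : ∀ (i : Fin S.r) (T : Finset ℕ), T ⊆ S.L i →
      Real.exp (r1 * S.r) ≤ (T.card : ℝ) →
      ∃ X0 : ℝ, ∀ X : ℝ, X0 ≤ X → ({E ∈ Hz X | ¬ Tok κ T E}.ncard : ℝ) ≤
        Real.exp (-(1 * (S.r : ℝ))) * ((Hz X).ncard : ℝ) := by
    intro i T hT hcard
    obtain ⟨X0, h3⟩ := h1 S.r 1 T (S.mm S.K0 (cl S.K0 1)) hr1 squarefree_one (by simp)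
      (fun q hq => by
        have hq' := hT hq
        have h4 := hS.lpr i q hq'
        refine ⟨h4.1, ?_, fun h5 => h4.1.one_lt.ne' (Nat.dvd_one.1 h5)⟩
        have h5 := hB.pr i q hq'
        have h6 : ((max (r1 + 2) r2 : ℕ) : ℝ) * S.r + 1 ≤ Real.exp ((max (r1 + 2) r2 : ℕ) * S.r) :=
          Real.add_one_le_exp _
        have h7 : ((r1 : ℝ) + 2) * 1 ≤ ((max (r1 + 2) r2 : ℕ) : ℝ) * S.r :=
          mul_le_mul hle hr0 zero_le_one (by positivity)
        have h8 : (r1 : ℝ) ≤ q := by linarith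
        exact_mod_cast h8) hcard hinj
      (fun j => by
        have h4 := hS.aux S.K0 1 j hS.k0 hS.six hc
        refine ⟨h4.1, le_trans ?_ (hB.aux S.K0 1 j hS.k0 hS.six hc),
          fun h5 => h4.1.one_lt.ne' (Nat.dvd_one.1 h5), fun h5 => h4.2.2.2.2 i (hT h5)⟩
        exact le_trans (by omega) (le_max_left _ _))
    refine ⟨X0, fun X hX => le_trans ?_ (h3 X hX)⟩
    refine Nat.cast_le.2 (Set.ncard_le_ncard ?_ ((hEQZ.1 X).subset (Set.sep_subset _ _)))
    rintro E ⟨hE, hn⟩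
    exact ⟨hE, fun h => hn ⟨h.t12, h.t3⟩⟩
  -- all sublists
  have hall : ∃ X0 : ℝ, ∀ X : ℝ, X0 ≤ X → ∀ a ∈ (Finset.univ : Finset (Fin S.r)),
      ∀ T ∈ (S.L a).powerset, Real.exp (r1 * S.r) ≤ (T.card : ℝ) →
        ({E ∈ Hz X | ¬ Tok κ T E}.ncard : ℝ) ≤
          Real.exp (-(1 * (S.r : ℝ))) * ((Hz X).ncard : ℝ) := by
    refine TYEM.unif _ _ fun i _ => ?_
    refine TYEM.unif _ _ fun T hT => ?_
    by_cases hcard : Real.exp (r1 * S.r) ≤ (T.card : ℝ)
    · obtain ⟨X0, h3⟩ := hone i T (Finset.mem_powerset.1 hT) hcard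
      exact ⟨X0, fun X hX _ => h3 X hX⟩
    · exact ⟨0, fun X _ h => absurd h hcard⟩
  obtain ⟨X0, h3⟩ := hall
  refine ⟨X0, fun X hX => ?_⟩
  have h4 := h2 S.r hr2
  have hH : (0 : ℝ) ≤ ((Hz X).ncard : ℝ) := Nat.cast_nonneg _
  have hfin : ∀ T : Fin S.r → Finset ℕ, (∀ i, T i ⊆ S.L i) →
      (∀ i, Real.exp (r1 * S.r) ≤ ((T i).card : ℝ)) →
      ({E ∈ Hz X | ∃ i, ¬ Tok κ (T i) E}.ncard : ℝ) ≤ ε * ((Hz X).ncard : ℝ) := by
    intro T hT hcard
    have h5 := TYEM.union_bound X (hEQZ.1 X) (fun i E => ¬ Tok κ (T i) E) _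
      (fun i => h3 X hX i (Finset.mem_univ _) (T i) (Finset.mem_powerset.2 (hT i)) (hcard i))
    calc ({E ∈ Hz X | ∃ i, ¬ Tok κ (T i) E}.ncard : ℝ) ≤
          S.r * (Real.exp (-(1 * (S.r : ℝ))) * ((Hz X).ncard : ℝ)) := h5
      _ = (S.r * Real.exp (-(1 * (S.r : ℝ)))) * ((Hz X).ncard : ℝ) := by ring
      _ ≤ ε * ((Hz X).ncard : ℝ) := mul_le_mul_of_nonneg_right h4 hH
  have hpos := Real.exp_pos (r1 * S.r)
  constructor
  · refine hfin (fun i => S.L i) (fun i => subset_rfl) (fun i => ?_)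
    have h6 := hB.card i
    linarith
  · intro E' hE'
    refine hfin (fun i => (S.L i).filter (fun q => ty q E' = 1)) (fun i => Finset.filter_subset _ _)
      (fun i => ?_)
    have h6 := hB.card i
    have h7 := TYEM.card_sub hTYZ S hS i E' (hE' i)
    have h8 : (1 / 4 : ℝ) * ((S.L i).card : ℝ) ≤ (1 / 3 - κ) * ((S.L i).card : ℝ) :=
      mul_le_mul_of_nonneg_right (by linarith) (Nat.cast_nonneg _)
    linarith

end Pool.Agent.Lib.MP_8cb858_nt.PT
end

section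
/-! Module BLB: blocks without mixing index. -/
set_option autoImplicit false

namespace Pool.Agent.Lib.MP_8cb858_nt.PT

open Polynomial NumberField IsDedekindDomain Pool.Agent.Lib.MP_8cb858_nt.SEL
open Pool.Agent.Lib.MP_8cb858_nt.PF
open scoped Classical WithZero

namespace BLBM

/-- the proportion of mixing primes -/
theorem prop_mix (hTYZ : SpecTYZ) (S : Dat) (hS : S.Ok) (i : Fin S.r) (E E' : ℤ × ℤ) {κ : ℝ}
    (hκ1 : κ ≤ 1 / 1000) (h : Tok κ (S.L i) E')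
    (h2 : Tok κ ((S.L i).filter (fun q => ty q E' = 1)) E) :
    (((S.L i).filter (fun q => ¬ (ty q E ≤ 1 ∧ ty q E' = 1))).card : ℝ) ≤
      4 / 5 * ((S.L i).card : ℝ) := by
  have h3 := TYEM.card_sub hTYZ S hS i E' h
  have hn : (0 : ℝ) ≤ ((S.L i).card : ℝ) := Nat.cast_nonneg _
  set F := (S.L i).filter (fun q => ty q E' = 1) with hF
  have hFn : (0 : ℝ) ≤ (F.card : ℝ) := Nat.cast_nonneg _
  have h4 := (abs_le.1 h2.t12).1
  have h5 := (abs_le.1 h2.t3).1
  have hdis : Disjoint (F.filter (fun q => Y12 q E.1 E.2)) (F.filter (fun q => Y3 q E.1 E.2)) := by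
    rw [Finset.disjoint_left]
    intro q hq hq'
    have hqL : q ∈ S.L i := Finset.filter_subset _ _ (Finset.mem_filter.1 hq).1
    exact TYEM.y3_not_y12 hTYZ (hS.lpr i q hqL).1 (TYEM.five_le S hS hqL)
      (Finset.mem_filter.1 hq').2 (Finset.mem_filter.1 hq).2
  have hsub : F.filter (fun q => Y12 q E.1 E.2) ∪ F.filter (fun q => Y3 q E.1 E.2) ⊆
      (S.L i).filter (fun q => ty q E ≤ 1 ∧ ty q E' = 1) := by
    intro q hq
    rcases Finset.mem_union.1 hq with hq | hq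
    · have hq1 := (Finset.mem_filter.1 hq).1
      have hq2 := Finset.mem_filter.1 hq1
      refine Finset.mem_filter.2 ⟨hq2.1, ?_, hq2.2⟩
      rw [TYEM.ty_zero.2 (Finset.mem_filter.1 hq).2]
      exact Nat.zero_le _
    · have hq1 := (Finset.mem_filter.1 hq).1
      have hq2 := Finset.mem_filter.1 hq1
      refine Finset.mem_filter.2 ⟨hq2.1, ?_, hq2.2⟩
      rw [(TYEM.ty_one hTYZ (hS.lpr i q hq2.1).1 (TYEM.five_le S hS hq2.1)).2
        (Finset.mem_filter.1 hq).2]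
  have h6 : ((F.filter (fun q => Y12 q E.1 E.2)).card : ℝ) +
      ((F.filter (fun q => Y3 q E.1 E.2)).card : ℝ) ≤
      (((S.L i).filter (fun q => ty q E ≤ 1 ∧ ty q E' = 1)).card : ℝ) := by
    have h7 := Finset.card_le_card hsub
    rw [Finset.card_union_of_disjoint hdis] at h7
    exact_mod_cast h7
  have h8 := Finset.card_filter_add_card_filter_not (s := S.L i)
    (fun q => ty q E ≤ 1 ∧ ty q E' = 1)
  have h9 : (((S.L i).filter (fun q => ty q E ≤ 1 ∧ ty q E' = 1)).card : ℝ) +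
      (((S.L i).filter (fun q => ¬ (ty q E ≤ 1 ∧ ty q E' = 1))).card : ℝ) =
      ((S.L i).card : ℝ) := by
    exact_mod_cast h8
  have h10 : (1 / 3 - 1 / 1000) * ((S.L i).card : ℝ) ≤ (F.card : ℝ) := by
    have h11 : (1 / 3 - 1 / 1000) * ((S.L i).card : ℝ) ≤ (1 / 3 - κ) * ((S.L i).card : ℝ) :=
      mul_le_mul_of_nonneg_right (by linarith) hn
    linarith
  have h11 : κ * (F.card : ℝ) ≤ 1 / 1000 * (F.card : ℝ) := mul_le_mul_of_nonneg_right hκ1 hFn
  linarith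

theorem exists_large (n : ℕ) (hn : 0 < n) (ε : ℝ) (hε : 0 < ε) : ∃ m : ℕ,
    (n : ℝ) * (4 / 5) ^ m ≤ ε := by
  have hn' : (0 : ℝ) < n := by exact_mod_cast hn
  obtain ⟨m, hm⟩ := exists_pow_lt_of_lt_one (show (0 : ℝ) < ε / n by positivity)
    (show (4 / 5 : ℝ) < 1 by norm_num)
  refine ⟨m, ?_⟩
  rw [lt_div_iff₀ hn'] at hm
  linarith

end BLBM

/-- **BLB.** -/
theorem specBLB (hBLK : SpecBLK) (hEQR : SpecEQR) (hTYZ : SpecTYZ) : SpecBLB := by
  intro n ε hn hε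
  obtain ⟨m, hm⟩ := BLBM.exists_large n hn ε hε
  refine ⟨2 * n * (m + 1), fun S κ E E' lo hB hκ hκ1 hlo hE' hE => ?_⟩
  have hS := hB.ok
  have hr := hB.r
  have h2n : 2 * n ≤ S.r := by
    have h1 : 2 * n * 1 ≤ 2 * n * (m + 1) := Nat.mul_le_mul_left _ (by omega)
    omega
  have hdiv : m ≤ S.r / (2 * n) := by
    rw [Nat.le_div_iff_mul_le (by omega)]
    have h1 : 2 * n * (m + 1) = m * (2 * n) + 2 * n := by ring
    omega
  have hone : ∀ k ∈ Finset.Ico lo (lo + n),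
      ((S.Om.filter (fun p => ∀ i ∈ S.bk n k, ¬ S.al E E' p i)).card : ℝ) ≤
        (4 / 5) ^ m * (S.Om.card : ℝ) := by
    intro k hk
    rw [Finset.mem_Ico] at hk
    have h1 := hBLK S.r S.L (fun _ q => ty q E ≤ 1 ∧ ty q E' = 1) (S.bk n k) (4 / 5) (by norm_num)
      (fun i _ => by
        have h := BLBM.prop_mix hTYZ S hS i E E' hκ1 (hE' i) (hE i)
        convert h)
    have h2 := hEQR.bkc S n k hn h2n (by omega)
    have h3 : ((4 / 5 : ℝ)) ^ (S.bk n k).card ≤ (4 / 5) ^ m :=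
      pow_le_pow_of_le_one (by norm_num) (by norm_num) (le_trans hdiv h2)
    exact le_trans h1 (mul_le_mul_of_nonneg_right h3 (Nat.cast_nonneg _))
  have hsub : S.Om.filter (fun p => ¬ ∀ k, lo ≤ k → k < lo + n → ∃ i ∈ S.bk n k, S.al E E' p i) ⊆
      (Finset.Ico lo (lo + n)).biUnion
        (fun k => S.Om.filter (fun p => ∀ i ∈ S.bk n k, ¬ S.al E E' p i)) := by
    intro p hp
    rw [Finset.mem_filter] at hp
    obtain ⟨hp1, hp2⟩ := hp
    push Not at hp2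
    obtain ⟨k, hk1, hk2, hk3⟩ := hp2
    rw [Finset.mem_biUnion]
    exact ⟨k, Finset.mem_Ico.2 ⟨hk1, hk2⟩, Finset.mem_filter.2 ⟨hp1, hk3⟩⟩
  have h4 := le_trans (Finset.card_le_card hsub) Finset.card_biUnion_le
  have h5 : ((S.Om.filter
      (fun p => ¬ ∀ k, lo ≤ k → k < lo + n → ∃ i ∈ S.bk n k, S.al E E' p i)).card : ℝ) ≤
      ∑ k ∈ Finset.Ico lo (lo + n),
        ((S.Om.filter (fun p => ∀ i ∈ S.bk n k, ¬ S.al E E' p i)).card : ℝ) := by
    exact_mod_cast h4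
  have h6 := Finset.sum_le_sum hone
  rw [Finset.sum_const, Nat.card_Ico, nsmul_eq_mul] at h6
  have h7 : (((lo + n - lo : ℕ)) : ℝ) = n := by
    congr 1
    omega
  rw [h7] at h6
  have h8 : (n : ℝ) * ((4 / 5) ^ m * (S.Om.card : ℝ)) ≤ ε * (S.Om.card : ℝ) := by
    rw [← mul_assoc]
    exact mul_le_mul_of_nonneg_right hm (Nat.cast_nonneg _)
  linarith

end Pool.Agent.Lib.MP_8cb858_nt.PT
end

section
/-! Module BSB: the base bound fails (fixed `p`). -/
set_option autoImplicit false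

namespace Pool.Agent.Lib.MP_8cb858_nt.PT

open Polynomial NumberField IsDedekindDomain Pool.Agent.Lib.MP_8cb858_nt.SEL
open Pool.Agent.Lib.MP_8cb858_nt.PF
open scoped Classical WithZero

namespace BSBM

theorem coprime_prod (S : Dat) (hS : S.Ok) (p : Fin S.r → ℕ) (hp : p ∈ S.Om) :
    (∏ j, p j).Coprime S.K0 := by
  refine Nat.Coprime.prod_left fun j _ => ?_
  have h := hS.lpr j (p j) (Fintype.mem_piFinset.1 hp j)
  exact (Nat.Prime.coprime_iff_not_dvd h.1).2 h.2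

/-- finitely many thresholds -/
theorem unif {α : Type} (s : Finset α) (P : α → ℝ → Prop)
    (h : ∀ a ∈ s, ∃ X0 : ℝ, ∀ X : ℝ, X0 ≤ X → P a X) :
    ∃ X0 : ℝ, ∀ X : ℝ, X0 ≤ X → ∀ a ∈ s, P a X := by
  induction s using Finset.induction_on with
  | empty => exact ⟨0, fun X _ a ha => absurd ha (Finset.notMem_empty a)⟩
  | insert b t hb ih =>
    obtain ⟨X1, h1⟩ := ih fun a ha => h a (Finset.mem_insert_of_mem ha)
    obtain ⟨X2, h2⟩ := h b (Finset.mem_insert_self b t)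
    refine ⟨max X1 X2, fun X hX a ha => ?_⟩
    rcases Finset.mem_insert.1 ha with rfl | ha
    · exact h2 X (le_trans (le_max_right _ _) hX)
    · exact h1 X (le_trans (le_max_left _ _) hX) a ha

end BSBM

/-- **BSB.** -/
theorem specBSB (hBAS : SpecBAS) (hEQZ : SpecEQZ) : SpecBSB := by
  intro ε hε
  obtain ⟨r1, h1⟩ := hBAS (1 / 20) ε (by norm_num) hε
  refine ⟨r1, fun S hB => ?_⟩
  have hS := hB.ok
  refine BSBM.unif S.Om _ fun p hp => ?_
  have hc := BSBM.coprime_prod S hS p hp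
  have hinj := hS.inj S.K0 (∏ j, p j) hS.k0 hS.six hc
  obtain ⟨X0, h2⟩ := h1 S.r S.D1 (S.mm S.K0 (cl S.K0 (∏ j, p j))) hB.r hS.sqf hB.d1 hinj
    (fun j => by
      have h3 := hS.aux S.K0 (∏ j, p j) j hS.k0 hS.six hc
      exact ⟨h3.1, hB.aux S.K0 (∏ j, p j) j hS.k0 hS.six hc,
        fun h4 => h3.2.2.1 (dvd_trans h4 hS.d1)⟩)
  refine ⟨X0, fun X hX => le_trans ?_ (h2 X hX)⟩
  refine Nat.cast_le.2 (Set.ncard_le_ncard ?_ ((hEQZ.1 X).subset (Set.sep_subset _ _)))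
  rintro E ⟨hE, hn⟩
  exact ⟨hE, fun h => hn h.2⟩

end Pool.Agent.Lib.MP_8cb858_nt.PT
end

section
/-!
# Module CLM: the classes
-/
set_option autoImplicit false

namespace Pool.Agent.Lib.MP_8cb858_nt.PT.CLMM

open Finset
open scoped Classical

lemma isSq_mul (p : ℕ) (hp : p.Prime) (a b : ZMod p) (ha : a ≠ 0) (hb : b ≠ 0) :
    IsSquare (a * b) ↔ (IsSquare a ↔ IsSquare b) := by
  have : Fact p.Prime := ⟨hp⟩
  by_cases h2 : ringChar (ZMod p) = 2
  · have h3 : ∀ x : ZMod p, IsSquare x := FiniteField.isSquare_of_char_two h2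
    simp [h3]
  · have hab : a * b ≠ 0 := mul_ne_zero ha hb
    rw [← quadraticChar_one_iff_isSquare ha, ← quadraticChar_one_iff_isSquare hb,
      ← quadraticChar_one_iff_isSquare hab, map_mul]
    rcases quadraticChar_dichotomy ha with h | h <;> rcases quadraticChar_dichotomy hb with h' | h' <;>
      rw [h, h'] <;> norm_num

lemma cast_ne (K n p : ℕ) (hp : p ∈ K.primeFactors) (h : n.Coprime K) : (n : ZMod p) ≠ 0 := by
  have hp' := Nat.prime_of_mem_primeFactors hp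
  have hpK := Nat.dvd_of_mem_primeFactors hp
  rw [Ne, ZMod.natCast_eq_zero_iff]
  intro hpn
  exact Nat.not_coprime_of_dvd_of_dvd hp'.one_lt hpn hpK h

lemma cl_iff (K n n' : ℕ) : cl K n = cl K n' ↔
    (∀ p ∈ K.primeFactors, (IsSquare (n : ZMod p) ↔ IsSquare (n' : ZMod p))) ∧ n % 8 = n' % 8 := by
  unfold cl
  rw [Prod.mk.injEq]
  apply and_congr _ Iff.rfl
  constructor
  · intro h p hp
    have h2 := Finset.ext_iff.1 h p
    rw [mem_filter, mem_filter] at h2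
    constructor
    · intro h3
      exact (h2.1 ⟨hp, h3⟩).2
    · intro h3
      exact (h2.2 ⟨hp, h3⟩).2
  · intro h
    ext p
    rw [mem_filter, mem_filter]
    constructor
    · rintro ⟨h2, h3⟩
      exact ⟨h2, (h p h2).1 h3⟩
    · rintro ⟨h2, h3⟩
      exact ⟨h2, (h p h2).2 h3⟩

lemma mul' (K n n' m m' : ℕ) (hn : n.Coprime K) (hn' : n'.Coprime K)
    (hm : m.Coprime K) (hm' : m'.Coprime K) (h1 : cl K n = cl K n') (h2 : cl K m = cl K m') :
    cl K (n * m) = cl K (n' * m') := by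
  rw [cl_iff] at h1 h2 ⊢
  refine ⟨fun p hp => ?_, ?_⟩
  · push_cast
    have hpp := Nat.prime_of_mem_primeFactors hp
    rw [isSq_mul p hpp _ _ (cast_ne K n p hp hn) (cast_ne K m p hp hm),
      isSq_mul p hpp _ _ (cast_ne K n' p hp hn') (cast_ne K m' p hp hm'), h1.1 p hp, h2.1 p hp]
  · rw [Nat.mul_mod, h1.2, h2.2, ← Nat.mul_mod]

end Pool.Agent.Lib.MP_8cb858_nt.PT.CLMM

namespace Pool.Agent.Lib.MP_8cb858_nt.PT

open Finset CLMM
open scoped Classical

theorem specCLM (hSQZ : SpecSQZ) : SpecCLM where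
  mul := fun K n n' m m' _ h1 h2 h3 h4 h5 h6 => mul' K n n' m m' h1 h2 h3 h4 h5 h6
  prd := by
    intro K ι s f g _ h
    induction s using Finset.induction_on with
    | empty => simp
    | insert a s ha ih =>
      rw [prod_insert ha, prod_insert ha]
      have h1 := h a (mem_insert_self a s)
      have h2 : ∀ i ∈ s, (f i).Coprime K ∧ (g i).Coprime K ∧ cl K (f i) = cl K (g i) :=
        fun i hi => h i (mem_insert_of_mem hi)
      exact mul' K _ _ _ _ h1.1 h1.2.1 (Nat.Coprime.prod_left fun i hi => (h2 i hi).1)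
        (Nat.Coprime.prod_left fun i hi => (h2 i hi).2.1) h1.2.2 (ih h2)
  mon := by
    intro K K' n n' hK hKK h
    rw [cl_iff] at h ⊢
    exact ⟨fun p hp => h.1 p (Nat.primeFactors_mono hKK hK.ne' hp), h.2⟩
  sq := by
    intro K n n' hK h2 hn hn' h
    rw [cl_iff] at h
    exact hSQZ.cls K n n' hK h2 hn hn' h.2 (fun p hp hpK =>
      h.1 p (Nat.mem_primeFactors.2 ⟨hp, hpK, hK.ne'⟩))
  num := by
    intro K T
    have h1 : T.image (cl K) ⊆ K.primeFactors.powerset ×ˢ range 8 := by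
      intro x hx
      rw [mem_image] at hx
      obtain ⟨n, _, rfl⟩ := hx
      unfold cl
      rw [mem_product, mem_powerset, mem_range]
      exact ⟨filter_subset _ _, Nat.mod_lt _ (by norm_num)⟩
    refine (card_le_card h1).trans (le_of_eq ?_)
    rw [card_product, card_powerset, card_range, mul_comm]

end Pool.Agent.Lib.MP_8cb858_nt.PT
end

section
/-!
# CNT: counting the primes where all classes are trivial
-/
namespace Pool.Agent.Lib.MP_8cb858_nt.PT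

open Polynomial NumberField IsDedekindDomain Pool.Agent.Lib.MP_8cb858_nt.SEL
open Pool.Agent.Lib.MP_8cb858_nt.PF
open scoped Classical WithZero

namespace CNTM

variable {G : Type*} [AddCommGroup G]

/-- the sign character of `P q`. -/
noncomputable def chi (P : G → Prop) (z : G) : ℝ := if P z then 1 else -1

lemma chi_add {P : G → Prop} (h : ∀ z w, P (z + w) ↔ (P z ↔ P w)) (z w : G) :
    chi P (z + w) = chi P z * chi P w := by
  unfold chi
  have := h z w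
  by_cases h1 : P z
  · by_cases h2 : P w
    · rw [if_pos (this.2 (by simp [h1, h2])), if_pos h1, if_pos h2]; norm_num
    · rw [if_neg (fun hh => h2 ((this.1 hh).1 h1)), if_pos h1, if_neg h2]; norm_num
  · by_cases h2 : P w
    · rw [if_neg (fun hh => h1 ((this.1 hh).2 h2)), if_neg h1, if_pos h2]; norm_num
    · rw [if_pos (this.2 (by simp [h1, h2])), if_neg h1, if_neg h2]; norm_num

lemma sum_chi [Fintype G] {P : G → Prop} (h : ∀ z w, P (z + w) ↔ (P z ↔ P w)) :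
    ∑ z : G, chi P z = if ∀ z, P z then (Fintype.card G : ℝ) else 0 := by
  by_cases hall : ∀ z, P z
  · rw [if_pos hall]
    have : ∀ z ∈ (Finset.univ : Finset G), chi P z = 1 := by
      intro z _
      unfold chi
      rw [if_pos (hall z)]
    rw [Finset.sum_congr rfl this]
    simp
  · rw [if_neg hall]
    rw [not_forall] at hall
    obtain ⟨w, hw⟩ := hall
    have e1 : ∑ z : G, chi P z = ∑ z : G, chi P (z + w) :=
      (Equiv.sum_comp (Equiv.addRight w) (fun z => chi P z)).symm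
    have e2 : ∑ z : G, chi P (z + w) = - ∑ z : G, chi P z := by
      rw [← Finset.sum_neg_distrib]
      refine Finset.sum_congr rfl (fun z _ => ?_)
      rw [chi_add h, show chi P w = -1 from if_neg hw]
      ring
    linarith

lemma count [Fintype G] (T : Finset ℕ) (P : ℕ → G → Prop)
    (hP : ∀ q ∈ T, ∀ z w, P q (z + w) ↔ (P q z ↔ P q w)) (η : ℝ) (hη : 0 ≤ η)
    (huni : ∀ z : G, z ≠ 0 →
      |((T.filter (fun q => P q z)).card : ℝ) - (T.card : ℝ) / 2| ≤ η * T.card) :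
    |((T.filter (fun q => ∀ z, P q z)).card : ℝ) - (T.card : ℝ) / Fintype.card G| ≤
      2 * η * T.card := by
  have hG : (1 : ℝ) ≤ Fintype.card G := by
    exact_mod_cast Fintype.card_pos
  have hG0 : (0 : ℝ) < Fintype.card G := by linarith
  have e1 : ∑ q ∈ T, ∑ z : G, chi (P q) z =
      (Fintype.card G : ℝ) * ((T.filter (fun q => ∀ z, P q z)).card : ℝ) := by
    rw [Finset.sum_congr rfl (fun q hq => sum_chi (hP q hq)), ← Finset.sum_filter,
      Finset.sum_const, nsmul_eq_mul]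
    ring
  have e2 : ∑ q ∈ T, ∑ z : G, chi (P q) z =
      ∑ z : G, (2 * ((T.filter (fun q => P q z)).card : ℝ) - T.card) := by
    rw [Finset.sum_comm]
    refine Finset.sum_congr rfl (fun z _ => ?_)
    have : ∀ q ∈ T, chi (P q) z = 2 * (if P q z then (1 : ℝ) else 0) - 1 := by
      intro q _
      unfold chi
      by_cases h : P q z
      · rw [if_pos h, if_pos h]; norm_num
      · rw [if_neg h, if_neg h]; norm_num
    rw [Finset.sum_congr rfl this, Finset.sum_sub_distrib, ← Finset.mul_sum, ← Finset.sum_filter]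
    simp
  have e3 : ∑ z : G, (2 * ((T.filter (fun q => P q z)).card : ℝ) - T.card) =
      (T.card : ℝ) + ∑ z ∈ Finset.univ.erase (0 : G),
        (2 * ((T.filter (fun q => P q z)).card : ℝ) - T.card) := by
    rw [← Finset.add_sum_erase Finset.univ _ (Finset.mem_univ (0 : G))]
    congr 1
    have h0 : T.filter (fun q => P q 0) = T := by
      refine Finset.filter_true_of_mem (fun q hq => ?_)
      have := hP q hq 0 0
      rw [add_zero] at this
      exact this.2 Iff.rfl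
    rw [h0]
    ring
  have e4 : |∑ z ∈ Finset.univ.erase (0 : G),
      (2 * ((T.filter (fun q => P q z)).card : ℝ) - T.card)| ≤
      (Fintype.card G : ℝ) * (2 * η * T.card) := by
    refine (Finset.abs_sum_le_sum_abs _ _).trans ?_
    have h1 : ∀ z ∈ Finset.univ.erase (0 : G),
        |2 * ((T.filter (fun q => P q z)).card : ℝ) - T.card| ≤ 2 * η * T.card := by
      intro z hz
      have h2 := huni z (Finset.ne_of_mem_erase hz)
      have h3 : 2 * ((T.filter (fun q => P q z)).card : ℝ) - T.card =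
        2 * (((T.filter (fun q => P q z)).card : ℝ) - (T.card : ℝ) / 2) := by ring
      rw [h3, abs_mul, abs_two]
      linarith
    refine (Finset.sum_le_sum h1).trans ?_
    rw [Finset.sum_const, nsmul_eq_mul]
    refine mul_le_mul_of_nonneg_right ?_ (by positivity)
    exact_mod_cast (Finset.card_le_card (Finset.erase_subset _ _)).trans (by simp)
  have e5 : ((T.filter (fun q => ∀ z, P q z)).card : ℝ) - (T.card : ℝ) / Fintype.card G =
      (∑ z ∈ Finset.univ.erase (0 : G),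
        (2 * ((T.filter (fun q => P q z)).card : ℝ) - T.card)) / Fintype.card G := by
    rw [e2, e3] at e1
    field_simp
    linarith
  rw [e5, abs_div, abs_of_pos hG0, div_le_iff₀ hG0]
  linarith

end CNTM

theorem specCNT (hTRZ : SpecTRZ) (hGEN : SpecGEN) : SpecCNT := by
  intro η κ R D0 mm L E s hη hN hdz hD hL hs
  obtain ⟨hfin, -, -⟩ := hGEN.fin E.1 E.2 (D0 * mx mm E) hdz hD
  have := Fintype.ofFinite (Sl E.1 E.2 (D0 * mx mm E))
  have h := CNTM.count (G := Sl E.1 E.2 (D0 * mx mm E))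
    (L.filter (fun q => Y12 q E.1 E.2)) (fun q z => Tz q z) ?_ η hη ?_
  · rw [Finset.filter_filter] at h
    have e : (((L.filter (fun q => Y12 q E.1 E.2)).card : ℝ)) /
        Fintype.card (Sl E.1 E.2 (D0 * mx mm E)) =
        (1 / 2) ^ s * (((L.filter (fun q => Y12 q E.1 E.2)).card : ℝ)) := by
      have : Fintype.card (Sl E.1 E.2 (D0 * mx mm E)) = 2 ^ s := by
        rw [← hs]
        unfold sc
        rw [Nat.card_eq_fintype_card]
      rw [this]
      push_cast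
      rw [one_div, inv_pow]
      ring
    rw [e] at h
    convert h
  · intro q hq z w
    rw [Finset.mem_filter] at hq
    obtain ⟨h1, h2, h3⟩ := hL q hq.1
    exact hTRZ E.1 E.2 (D0 * mx mm E) q h1 h2 hD h3 hq.2 z w
  · intro z hz
    rw [Finset.filter_filter]
    exact hN.uni z hz

end Pool.Agent.Lib.MP_8cb858_nt.PT
end

section
/-!
# Module EQR: combinatorics of blocks and relations
-/
namespace Pool.Agent.Lib.MP_8cb858_nt.PT

open scoped Classical

namespace EQRM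

variable (S : Dat)

theorem mem_bk {n k : ℕ} {i : Fin S.r} : i ∈ S.bk n k ↔ i.val / (S.r / (2 * n)) = k := by
  simp [Dat.bk]

theorem mem_fs {n : ℕ} {E E' : ℤ × ℤ} {p : Fin S.r → ℕ} {k : ℕ} {i : Fin S.r} :
    i ∈ S.fs n E E' p k ↔ i ∈ S.bk n k ∧ S.al E E' p i ∧
      ∀ j ∈ S.bk n k, j < i → ¬ S.al E E' p j := by
  simp [Dat.fs]

theorem mem_As {n : ℕ} {E E' : ℤ × ℤ} {p : Fin S.r → ℕ} {lo hi : ℕ} {i : Fin S.r} :
    i ∈ S.As n E E' p lo hi ↔ ∃ k, lo ≤ k ∧ k < hi ∧ i ∈ S.fs n E E' p k := by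
  simp [Dat.As, and_assoc]

theorem mem_Ux {E : ℤ × ℤ} {p : Fin S.r → ℕ} {i : Fin S.r} :
    i ∈ S.Ux E p ↔ ty (p i) E = 0 := by
  simp [Dat.Ux]

theorem mem_Jx {E : ℤ × ℤ} {p : Fin S.r → ℕ} {i : Fin S.r} :
    i ∈ S.Jx E p ↔ ty (p i) E = 2 := by
  simp [Dat.Jx]

theorem mem_Uk {n : ℕ} {E E' : ℤ × ℤ} {p : Fin S.r → ℕ} {lo lo' k : ℕ} {i : Fin S.r} :
    i ∈ S.Uk n E E' p lo lo' k ↔ ty (p i) E = 0 ∧
      (i ∉ S.Ax n E E' p lo lo' ∨ i ∈ S.As n E E' p lo (lo + k)) := by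
  simp only [Dat.Uk, Finset.mem_filter, mem_Ux]

theorem fs_uniq {n : ℕ} {E E' : ℤ × ℤ} {p : Fin S.r → ℕ} {k : ℕ} {i j : Fin S.r}
    (hi : i ∈ S.fs n E E' p k) (hj : j ∈ S.fs n E E' p k) : i = j := by
  rw [mem_fs] at hi hj
  rcases lt_trichotomy i j with h | h | h
  · exact absurd hi.2.1 (hj.2.2 i hi.1 h)
  · exact h
  · exact absurd hj.2.1 (hi.2.2 j hj.1 h)

theorem fs_blk {n : ℕ} {E E' F F' : ℤ × ℤ} {p q : Fin S.r → ℕ} {k k' : ℕ} {i : Fin S.r}
    (hi : i ∈ S.fs n E E' p k) (hj : i ∈ S.fs n F F' q k') : k = k' := by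
  rw [mem_fs, mem_bk] at hi hj
  rw [← hi.1, ← hj.1]

/-- `fs` depends only on `al` on the block -/
theorem fs_congr {n : ℕ} {E E' : ℤ × ℤ} {p p' : Fin S.r → ℕ} {k : ℕ}
    (h : ∀ i ∈ S.bk n k, S.al E E' p i ↔ S.al E E' p' i) :
    S.fs n E E' p k = S.fs n E E' p' k := by
  ext i
  rw [mem_fs, mem_fs]
  constructor
  · rintro ⟨h1, h2, h3⟩
    exact ⟨h1, (h i h1).1 h2, fun j hj hji hal => h3 j hj hji ((h j hj).2 hal)⟩
  · rintro ⟨h1, h2, h3⟩
    exact ⟨h1, (h i h1).2 h2, fun j hj hji hal => h3 j hj hji ((h j hj).1 hal)⟩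

theorem As_congr {n : ℕ} {E E' : ℤ × ℤ} {p p' : Fin S.r → ℕ} {lo hi : ℕ}
    (h : ∀ k, lo ≤ k → k < hi → S.fs n E E' p k = S.fs n E E' p' k) :
    S.As n E E' p lo hi = S.As n E E' p' lo hi := by
  ext i
  rw [mem_As, mem_As]
  constructor
  · rintro ⟨k, h1, h2, h3⟩
    exact ⟨k, h1, h2, by rw [← h k h1 h2]; exact h3⟩
  · rintro ⟨k, h1, h2, h3⟩
    exact ⟨k, h1, h2, by rw [h k h1 h2]; exact h3⟩

/-- what depends only on the types -/
theorem of_types {E E' : ℤ × ℤ} {p p' : Fin S.r → ℕ}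
    (h : ∀ j, ty (p j) E = ty (p' j) E ∧ ty (p j) E' = ty (p' j) E') :
    S.Jx E p = S.Jx E p' ∧ S.Ux E p = S.Ux E p' ∧
    ∀ (n lo lo' : ℕ), S.Ax n E E' p lo lo' = S.Ax n E E' p' lo lo' := by
  refine ⟨?_, ?_, ?_⟩
  · ext i; rw [mem_Jx, mem_Jx, (h i).1]
  · ext i; rw [mem_Ux, mem_Ux, (h i).1]
  · intro n lo lo'
    rw [Dat.Ax, Dat.Ax]
    congr 1
    · apply As_congr
      intro k _ _
      apply fs_congr
      intro i _
      rw [Dat.al, Dat.al, (h i).1, (h i).2]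
    · apply As_congr
      intro k _ _
      apply fs_congr
      intro i _
      rw [Dat.al, Dat.al, (h i).1, (h i).2]

theorem rt_types {E E' : ℤ × ℤ} {i : ℕ} {p p' : Fin S.r → ℕ} (h : S.Rt E E' i p p') :
    ∀ j, ty (p j) E = ty (p' j) E ∧ ty (p j) E' = ty (p' j) E' := by
  rcases h with rfl | ⟨hi, h1, h2, h3, _, _⟩
  · intro j; exact ⟨rfl, rfl⟩
  · intro j
    by_cases hj : j = ⟨i, hi⟩
    · rw [hj]; exact ⟨h2, h3⟩
    · rw [h1 j hj]; exact ⟨rfl, rfl⟩

theorem rt_Kx {E E' : ℤ × ℤ} {i : ℕ} {p p' : Fin S.r → ℕ} (h : S.Rt E E' i p p') :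
    S.Kx E p = S.Kx E p' := by
  have hJ := (of_types S (rt_types S h)).1
  rcases h with rfl | ⟨hi, h1, h2, h3, h4, _⟩
  · rfl
  · rw [Dat.Kx, Dat.Kx, hJ]
    congr 1
    apply Finset.prod_congr rfl
    intro j hj
    apply h1
    rintro rfl
    rw [← hJ, mem_Jx] at hj
    exact h4 hj

theorem rm_data {n : ℕ} {E E' : ℤ × ℤ} {k : ℕ} {p p' : Fin S.r → ℕ} {a : Fin S.r}
    (ha : a ∈ S.fs n E E' p k) (ha' : a ∈ S.fs n E E' p' k) (h : ∀ j, j ≠ a → p j = p' j) :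
    S.Jx E p = S.Jx E p' ∧ S.Jx E' p = S.Jx E' p' ∧ S.Ux E' p = S.Ux E' p' ∧
    S.K2 E E' p = S.K2 E E' p' := by
  have h1 := ((mem_fs S).1 ha).2.1
  have h2 := ((mem_fs S).1 ha').2.1
  rw [Dat.al] at h1 h2
  have hJ : S.Jx E p = S.Jx E p' := by
    ext j
    rw [mem_Jx, mem_Jx]
    by_cases hj : j = a
    · rw [hj]; omega
    · rw [h j hj]
  have hJ' : S.Jx E' p = S.Jx E' p' := by
    ext j
    rw [mem_Jx, mem_Jx]
    by_cases hj : j = a
    · rw [hj]; omega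
    · rw [h j hj]
  have hU' : S.Ux E' p = S.Ux E' p' := by
    ext j
    rw [mem_Ux, mem_Ux]
    by_cases hj : j = a
    · rw [hj]; omega
    · rw [h j hj]
  refine ⟨hJ, hJ', hU', ?_⟩
  rw [Dat.K2, Dat.K2, hJ, hJ']
  congr 1
  apply Finset.prod_congr rfl
  intro j hj
  apply h
  rintro rfl
  rw [← hJ, ← hJ', Finset.mem_union, mem_Jx, mem_Jx] at hj
  omega

theorem notin {n : ℕ} {E E' : ℤ × ℤ} {p : Fin S.r → ℕ} {lo lo' k : ℕ} {a : Fin S.r}
    (hlo : lo ≤ k) (hk : k < lo + n) (ha : a ∈ S.fs n E E' p k) :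
    a ∉ S.Uk n E E' p lo lo' (k - lo) := by
  rw [mem_Uk]
  rintro ⟨_, h | h⟩
  · apply h
    rw [Dat.Ax, Finset.mem_union]
    left
    rw [mem_As]
    exact ⟨k, hlo, hk, ha⟩
  · rw [mem_As] at h
    obtain ⟨k', h1, h2, h3⟩ := h
    have := fs_blk S ha h3
    omega

theorem rm_fs {n : ℕ} {E E' : ℤ × ℤ} {k : ℕ} {p p' : Fin S.r → ℕ} {a : Fin S.r}
    (ha : a ∈ S.fs n E E' p k) (ha' : a ∈ S.fs n E E' p' k) (h : ∀ j, j ≠ a → p j = p' j)
    (k' : ℕ) : S.fs n E E' p k' = S.fs n E E' p' k' := by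
  by_cases hk : k' = k
  · rw [hk]
    ext i
    constructor
    · intro hi; rw [fs_uniq S hi ha]; exact ha'
    · intro hi; rw [fs_uniq S hi ha']; exact ha
  · apply fs_congr
    intro i hi
    have hia : i ≠ a := by
      rintro rfl
      apply hk
      rw [mem_fs, mem_bk] at ha
      rw [mem_bk] at hi
      rw [← hi, ← ha.1]
    rw [Dat.al, Dat.al, h i hia]

theorem rm_fs' {n : ℕ} {E E' : ℤ × ℤ} {k : ℕ} {p p' : Fin S.r → ℕ} {a : Fin S.r}
    (ha : a ∈ S.fs n E E' p k) (h : ∀ j, j ≠ a → p j = p' j)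
    (k' : ℕ) (hk : k' ≠ k) : S.fs n E' E p k' = S.fs n E' E p' k' := by
  apply fs_congr
  intro i hi
  have hia : i ≠ a := by
    rintro rfl
    apply hk
    rw [mem_fs, mem_bk] at ha
    rw [mem_bk] at hi
    rw [← hi, ← ha.1]
  rw [Dat.al, Dat.al, h i hia]

end EQRM

open EQRM in
theorem specEQR : SpecEQR where
  rt := by
    intro S E E' i
    refine ⟨fun p => Or.inl rfl, ?_, ?_⟩
    · intro p p' h
      have hK := rt_Kx S h
      rcases h with rfl | ⟨hi, h1, h2, h3, h4, h5⟩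
      · exact Or.inl rfl
      · refine Or.inr ⟨hi, fun j hj => (h1 j hj).symm, h2.symm, h3.symm, by rw [← h2]; exact h4, ?_⟩
        rw [← hK]
        exact h5.symm
    · intro p p' p'' h h'
      have hK := rt_Kx S h
      rcases h with rfl | ⟨hi, h1, h2, h3, h4, h5⟩
      · exact h'
      rcases h' with rfl | ⟨hi', g1, g2, g3, g4, g5⟩
      · exact Or.inr ⟨hi, h1, h2, h3, h4, h5⟩
      refine Or.inr ⟨hi, fun j hj => (h1 j hj).trans (g1 j hj), h2.trans g2, h3.trans g3, h4, ?_⟩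
      rw [← hK] at g5
      exact h5.trans g5
  rm := by
    intro S n E E' k
    refine ⟨fun p => Or.inl rfl, ?_, ?_⟩
    · intro p p' h
      rcases h with rfl | ⟨a, h1, h2, h3, h4⟩
      · exact Or.inl rfl
      · have hK := (rm_data S h1 h2 h3).2.2.2
        refine Or.inr ⟨a, h2, h1, fun j hj => (h3 j hj).symm, ?_⟩
        rw [← hK]
        exact h4.symm
    · intro p p' p'' h h'
      rcases h with rfl | ⟨a, h1, h2, h3, h4⟩
      · exact h'
      rcases h' with rfl | ⟨b, g1, g2, g3, g4⟩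
      · exact Or.inr ⟨a, h1, h2, h3, h4⟩
      have hab : b = a := fs_uniq S g1 h2
      subst hab
      have hK := (rm_data S h1 h2 h3).2.2.2
      refine Or.inr ⟨b, h1, g2, fun j hj => (h3 j hj).trans (g3 j hj), ?_⟩
      rw [← hK] at g4
      exact h4.trans g4
  rtv := by
    intro S E E' i p p' h
    have ht := rt_types S h
    obtain ⟨hJ, hU, hA⟩ := of_types S ht
    exact ⟨ht, hJ, hU, rt_Kx S h, hA⟩
  rmv := by
    intro S n E E' k p p' h
    rcases h with rfl | ⟨a, h1, h2, h3, h4⟩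
    · exact ⟨rfl, rfl, rfl, rfl, fun lo lo' _ hlo hk =>
        ⟨rfl, rfl, fun hne => absurd rfl hne⟩⟩
    · obtain ⟨hJ, hJ', hU', hK⟩ := rm_data S h1 h2 h3
      refine ⟨hJ, hJ', hU', hK, ?_⟩
      intro lo lo' hll hlo hk
      have hA : S.Ax n E E' p lo lo' = S.Ax n E E' p' lo lo' := by
        rw [Dat.Ax, Dat.Ax]
        congr 1
        · exact As_congr S fun k' _ _ => rm_fs S h1 h2 h3 k'
        · apply As_congr S
          intro k' hk1 hk2
          apply rm_fs' S h1 h3 k'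
          omega
      have hAs : S.As n E E' p lo (lo + (k - lo)) = S.As n E E' p' lo (lo + (k - lo)) :=
        As_congr S fun k' _ _ => rm_fs S h1 h2 h3 k'
      have n1 : a ∉ S.Uk n E E' p lo lo' (k - lo) := notin S hlo hk h1
      have n2 : a ∉ S.Uk n E E' p' lo lo' (k - lo) := notin S hlo hk h2
      refine ⟨hA, ?_, ?_⟩
      · ext i
        by_cases hi : i = a
        · rw [hi]
          exact ⟨fun h => absurd h n1, fun h => absurd h n2⟩
        · rw [mem_Uk, mem_Uk, hA, hAs, h3 i hi]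
      · intro _ b hb
        exact notin S hlo hk hb
  fs1 := by
    intro S n E E' k p
    have h1 : (S.fs n E E' p k).card ≤ 1 :=
      Finset.card_le_one.2 fun i hi j hj => fs_uniq S hi hj
    refine ⟨h1, ?_⟩
    rintro ⟨i, hi, hal⟩
    have hne : ((S.bk n k).filter (fun i => S.al E E' p i)).Nonempty :=
      ⟨i, Finset.mem_filter.2 ⟨hi, hal⟩⟩
    obtain ⟨m, hm, hmin⟩ := Finset.exists_min_image _ (fun i => i) hne
    rw [Finset.mem_filter] at hm
    have hmem : m ∈ S.fs n E E' p k := by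
      rw [mem_fs]
      refine ⟨hm.1, hm.2, ?_⟩
      intro j hj hjm halj
      exact absurd (hmin j (Finset.mem_filter.2 ⟨hj, halj⟩)) (not_le.2 hjm)
    have : 0 < (S.fs n E E' p k).card := Finset.card_pos.2 ⟨m, hmem⟩
    omega
  cardA := by
    intro S n E E' p lo lo'
    have key : ∀ (F F' : ℤ × ℤ) (l : ℕ), (S.As n F F' p l (l + n)).card ≤ n := by
      intro F F' l
      rw [Dat.As]
      have h := Finset.card_biUnion_le_card_mul (Finset.Ico l (l + n)) (S.fs n F F' p) 1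
        (fun k _ => Finset.card_le_one.2 fun i hi j hj => fs_uniq S hi hj)
      simpa using h
    rw [Dat.Ax]
    have h := Finset.card_union_le (S.As n E E' p lo (lo + n)) (S.As n E' E p lo' (lo' + n))
    have h1 := key E E' lo
    have h2 := key E' E lo'
    omega
  uk := by
    intro S n E E' p lo lo'
    ext i
    rw [mem_Uk, mem_Ux]
    constructor
    · exact fun h => h.1
    · intro h
      refine ⟨h, ?_⟩
      by_cases hA : i ∈ S.Ax n E E' p lo lo'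
      · right
        rw [Dat.Ax, Finset.mem_union] at hA
        rcases hA with hA | hA
        · exact hA
        · rw [mem_As] at hA
          obtain ⟨k, _, _, hk⟩ := hA
          have := ((mem_fs S).1 hk).2.1.2
          omega
      · left; exact hA
  uks := by
    intro S n E E' p lo lo' k hll hk
    have hnot : ∀ a ∈ S.fs n E E' p (lo + k), a ∉ S.Uk n E E' p lo lo' k := by
      intro a ha
      have h := notin S (lo' := lo') (by omega : lo ≤ lo + k) (by omega : lo + k < lo + n) ha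
      rwa [Nat.add_sub_cancel_left] at h
    refine ⟨?_, hnot⟩
    ext i
    rw [Finset.mem_union, Finset.mem_filter, mem_Uk, mem_Uk]
    constructor
    · rintro ⟨h0, h | h⟩
      · exact Or.inl ⟨h0, Or.inl h⟩
      · rw [mem_As] at h
        obtain ⟨k', h1, h2, h3⟩ := h
        by_cases hk' : k' = lo + k
        · right
          rw [← hk']
          exact ⟨h3, h0⟩
        · left
          refine ⟨h0, Or.inr ?_⟩
          rw [mem_As]
          exact ⟨k', h1, by omega, h3⟩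
    · rintro (⟨h0, h | h⟩ | ⟨h, h0⟩)
      · exact ⟨h0, Or.inl h⟩
      · refine ⟨h0, Or.inr ?_⟩
        rw [mem_As] at h ⊢
        obtain ⟨k', h1, h2, h3⟩ := h
        exact ⟨k', h1, by omega, h3⟩
      · refine ⟨h0, Or.inr ?_⟩
        rw [mem_As]
        exact ⟨lo + k, by omega, by omega, h⟩
  bkc := by
    intro S n k hn hr hk
    set b := S.r / (2 * n) with hb
    have hb0 : 0 < b := Nat.div_pos hr (by omega)
    have hbr : 2 * n * b ≤ S.r := Nat.mul_div_le S.r (2 * n)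
    have hkb : (k + 1) * b ≤ S.r := le_trans (Nat.mul_le_mul_right b (by omega)) hbr
    have hlt : ∀ t, t < b → k * b + t < S.r := by
      intro t ht
      have : k * b + b ≤ S.r := by rw [Nat.add_mul, one_mul] at hkb; exact hkb
      omega
    have h := Finset.card_le_card_of_injOn (s := (Finset.univ : Finset (Fin b))) (t := S.bk n k)
      (fun t : Fin b => (⟨k * b + t.val, hlt t.val t.isLt⟩ : Fin S.r)) ?_ ?_
    · simpa using h
    · intro t _
      rw [Finset.mem_coe, mem_bk]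
      simp only []
      rw [← hb, Nat.add_comm, Nat.add_mul_div_right _ _ hb0, Nat.div_eq_of_lt t.isLt, Nat.zero_add]
    · intro t _ t' _ htt
      simp only [Fin.mk.injEq] at htt
      ext
      omega

end Pool.Agent.Lib.MP_8cb858_nt.PT
end

section
/-!
# Module GIV: the second curve does not change
-/
namespace Pool.Agent.Lib.MP_8cb858_nt.PT

open scoped Classical

namespace GIVM

variable (S : Dat)

theorem pos_of_mem (hS : S.Ok) {p : Fin S.r → ℕ} (hp : p ∈ S.Om) (i : Fin S.r) : 0 < p i := by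
  rw [Dat.Om, Fintype.mem_piFinset] at hp
  exact (hS.lpr i _ (hp i)).1.pos

theorem K2_pos (hS : S.Ok) {p : Fin S.r → ℕ} (hp : p ∈ S.Om) (E E' : ℤ × ℤ) :
    0 < S.K2 E E' p := by
  rw [Dat.K2]
  exact Nat.mul_pos hS.k0 (Finset.prod_pos fun i _ => pos_of_mem S hS hp i)

theorem Kx_dvd {p : Fin S.r → ℕ} (E E' : ℤ × ℤ) : S.Kx E p ∣ S.K2 E E' p := by
  rw [Dat.K2, Dat.Kx]
  exact Nat.mul_dvd_mul_left _ (Finset.prod_dvd_prod_of_subset _ _ _ Finset.subset_union_left)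

theorem Kx_dvd' {p : Fin S.r → ℕ} (E E' : ℤ × ℤ) : S.Kx E' p ∣ S.K2 E E' p := by
  rw [Dat.K2, Dat.Kx]
  exact Nat.mul_dvd_mul_left _ (Finset.prod_dvd_prod_of_subset _ _ _ Finset.subset_union_right)

/-- types of the element of `fs` -/
theorem fs_ty {n : ℕ} {E E' : ℤ × ℤ} {p : Fin S.r → ℕ} {k : ℕ} {a : Fin S.r}
    (ha : a ∈ S.fs n E E' p k) : ty (p a) E ≤ 1 ∧ ty (p a) E' = 1 := by
  rw [Dat.fs, Finset.mem_filter] at ha
  exact ha.2.1

end GIVM

open GIVM in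
theorem specGIV (hEQR : SpecEQR) (hIVT : SpecIVT) (hCLM : SpecCLM) : SpecGIV := by
  intro S n E E' lo lo' k p p' hS hll hk hp hp' hR
  obtain ⟨hJ, hJ', hU', hK, hrest⟩ := hEQR.rmv S n E E' (lo + k) p p' hR
  obtain ⟨hA, -, -⟩ := hrest lo lo' hll (by omega) (by omega)
  have hUk : S.Uk n E' E p lo' lo 0 = S.Uk n E' E p' lo' lo 0 := by
    have e1 : ∀ q : Fin S.r → ℕ, S.Ax n E' E q lo' lo = S.Ax n E E' q lo lo' := by
      intro q
      rw [Dat.Ax, Dat.Ax, Finset.union_comm]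
    have e2 : ∀ q : Fin S.r → ℕ, S.As n E' E q lo' (lo' + 0) = ∅ := by
      intro q
      rw [Dat.As]
      simp
    rw [Dat.Uk, Dat.Uk, e1, e1, e2, e2, hA, hU']
  rcases hR with rfl | ⟨a, ha, ha', hj, hcl⟩
  · exact ⟨rfl, rfl⟩
  · have t1 := fs_ty S ha
    have t2 := fs_ty S ha'
    have hcl' : cl (S.Kx E' p) (p a) = cl (S.Kx E' p) (p' a) :=
      hCLM.mon _ _ _ _ (K2_pos S hS hp E E') (Kx_dvd' S E E') hcl
    obtain ⟨-, -, -, h4, -⟩ := hIVT S E' p p' a hS hp hp' hj (by omega) (by omega) hcl'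
    have na : a ∉ S.Ux E' p := by
      rw [Dat.Ux, Finset.mem_filter]
      rintro ⟨-, h⟩
      omega
    have na2 : a ∉ S.Uk n E' E p lo' lo 0 := by
      rw [Dat.Uk, Finset.mem_filter]
      exact fun h => na h.1
    refine ⟨?_, ?_⟩
    · rw [← hU']
      exact (h4 _ na).2
    · rw [← hUk]
      exact (h4 _ na2).2

end Pool.Agent.Lib.MP_8cb858_nt.PT
end

section
/-!
# IVT: invariance under resampling
-/
namespace Pool.Agent.Lib.MP_8cb858_nt.PT

open Polynomial NumberField IsDedekindDomain Pool.Agent.Lib.MP_8cb858_nt.SEL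
open Pool.Agent.Lib.MP_8cb858_nt.PF
open scoped Classical WithZero

namespace IVTM

theorem mem_L {S : Dat} {p : Fin S.r → ℕ} (hp : p ∈ S.Om) (j : Fin S.r) : p j ∈ S.L j := by
  unfold Dat.Om at hp
  rw [Fintype.mem_piFinset] at hp
  exact hp j

theorem prime_L {S : Dat} (hS : S.Ok) {p : Fin S.r → ℕ} (hp : p ∈ S.Om) (j : Fin S.r) :
    (p j).Prime := (hS.lpr j (p j) (mem_L hp j)).1

theorem ndvd_L {S : Dat} (hS : S.Ok) {p : Fin S.r → ℕ} (hp : p ∈ S.Om) (j : Fin S.r) :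
    ¬ p j ∣ S.K0 := (hS.lpr j (p j) (mem_L hp j)).2

theorem cop_K0 {S : Dat} (hS : S.Ok) {p : Fin S.r → ℕ} (hp : p ∈ S.Om) (j : Fin S.r) :
    (p j).Coprime S.K0 := ((prime_L hS hp j).coprime_iff_not_dvd).2 (ndvd_L hS hp j)

theorem cop_pp {S : Dat} (hS : S.Ok) {p p' : Fin S.r → ℕ} (hp : p ∈ S.Om) (hp' : p' ∈ S.Om)
    {j k : Fin S.r} (h : j ≠ k) : (p j).Coprime (p' k) := by
  rw [Nat.coprime_primes (prime_L hS hp j) (prime_L hS hp' k)]
  intro he
  have h1 := mem_L hp j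
  have h2 := mem_L hp' k
  rw [he] at h1
  exact (Finset.disjoint_left.1 (hS.dis j k h)) h1 h2

/-- A coordinate of `p'` outside the junk set of `p` is prime to `Kx E p`. -/
theorem cop_Kx {S : Dat} (hS : S.Ok) {E : ℤ × ℤ} {p p' : Fin S.r → ℕ} (hp : p ∈ S.Om)
    (hp' : p' ∈ S.Om) {j : Fin S.r} (h : j ∉ S.Jx E p) : (p' j).Coprime (S.Kx E p) := by
  unfold Dat.Kx
  apply Nat.Coprime.mul_right (cop_K0 hS hp' j)
  apply Nat.Coprime.prod_right
  intro k hk
  exact cop_pp hS hp' hp (fun h' => h (h' ▸ hk))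

theorem Kx_pos {S : Dat} (hS : S.Ok) {E : ℤ × ℤ} {p : Fin S.r → ℕ} (hp : p ∈ S.Om) :
    0 < S.Kx E p := by
  unfold Dat.Kx
  exact Nat.mul_pos hS.k0 (Finset.prod_pos (fun i _ => (prime_L hS hp i).pos))

end IVTM

open IVTM in
theorem specIVT (hCLM : SpecCLM) : SpecIVT := by
  intro S E p p' i hS hp hp' hpp h2 h2' hcl
  have hiJ : i ∉ S.Jx E p := by
    unfold Dat.Jx
    simp only [Finset.mem_filter, Finset.mem_univ, true_and]
    exact h2
  have hJ : S.Jx E p = S.Jx E p' := by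
    unfold Dat.Jx
    apply Finset.filter_congr
    intro j _
    by_cases hj : j = i
    · subst hj
      exact ⟨fun h => absurd h h2, fun h => absurd h h2'⟩
    · rw [hpp j hj]
  have hK : S.Kx E p = S.Kx E p' := by
    unfold Dat.Kx
    rw [← hJ]
    congr 1
    apply Finset.prod_congr rfl
    intro j hj
    exact hpp j (fun h => hiJ (h ▸ hj))
  have hM : ∀ U : Finset (Fin S.r), S.Mx E p U = S.Mx E p' U := by
    intro U
    unfold Dat.Mx
    rw [← hK, ← hJ]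
    congr 1
    apply hCLM.prd (S.Kx E p) (Fin S.r) _ p p' (Kx_pos hS hp)
    intro j hj
    rw [Finset.mem_sdiff, Finset.mem_union, not_or] at hj
    refine ⟨cop_Kx hS hp hp hj.2.1, cop_Kx hS hp hp' hj.2.1, ?_⟩
    by_cases hji : j = i
    · subst hji; exact hcl
    · rw [hpp j hji]
  have hD : ∀ U : Finset (Fin S.r), i ∉ U → S.Dx E p U = S.Dx E p' U := by
    intro U hU
    unfold Dat.Dx
    rw [← hM U, ← hJ]
    congr 2
    apply Finset.prod_congr rfl
    intro j hj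
    apply hpp j
    rintro rfl
    rw [Finset.mem_union] at hj
    rcases hj with h | h
    · exact hiJ h
    · exact hU h
  refine ⟨hJ, hK, ?_, ?_, ?_⟩
  · intro U
    refine ⟨hM U, ?_⟩
    unfold Dat.Aok
    rw [hM U]
  · intro U hU
    refine ⟨hD U hU, ?_⟩
    unfold Dat.sx
    rw [hD U hU]
  · apply hCLM.prd S.K0 (Fin S.r) _ p p' hS.k0
    intro j _
    refine ⟨cop_K0 hS hp j, cop_K0 hS hp' j, ?_⟩
    by_cases hji : j = i
    · subst hji
      exact hCLM.mon (S.Kx E p) S.K0 _ _ (Kx_pos hS hp) (Dvd.intro _ rfl) hcl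
    · rw [hpp j hji]

end Pool.Agent.Lib.MP_8cb858_nt.PT
end

section
/-!
# JST: the start (junk primes)
-/
namespace Pool.Agent.Lib.MP_8cb858_nt.PT

open Polynomial NumberField IsDedekindDomain Pool.Agent.Lib.MP_8cb858_nt.SEL
open Pool.Agent.Lib.MP_8cb858_nt.PF
open scoped Classical WithZero

namespace JSTM

theorem ty2 {q : ℕ} {E : ℤ × ℤ} (h : ty q E = 2) : ¬ (q : ℤ) ∣ dz E.1 E.2 := by
  unfold ty at h
  split_ifs at h <;> first | assumption | omega

end JSTM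

open IVTM JSTM in
theorem specJST (hJNK : SpecJNK) (hCLM : SpecCLM) (hSQZ : SpecSQZ) : SpecJST := by
  intro S E p hS hp hSf hdz hA hY
  have h2K : 2 ∣ S.K0 := (by norm_num : 2 ∣ 6).trans hS.six
  -- the auxiliary primes
  have copall : ∀ s : Finset (Fin S.r), (∏ j ∈ s, p j).Coprime S.K0 := fun s =>
    Nat.Coprime.prod_left (fun j _ => cop_K0 hS hp j)
  have copn : (∏ i ∈ Finset.univ \ (S.Jx E p ∪ ∅), p i).Coprime (S.Kx E p) := by
    apply Nat.Coprime.prod_left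
    intro j hj
    rw [Finset.mem_sdiff, Finset.mem_union, not_or] at hj
    exact cop_Kx hS hp hp hj.2.1
  have h6K : 6 ∣ S.Kx E p := hS.six.trans (Dvd.intro _ rfl)
  obtain ⟨a1, a2, a3, a4, a5⟩ := hS.aux (S.Kx E p) _ (jx (S.Mx E p ∅) E) (Kx_pos hS hp) h6K copn
  obtain ⟨b1, b2, b3, b4, b5⟩ := hS.aux S.K0 (∏ j, p j)
    (jx (S.mm S.K0 (cl S.K0 (∏ j, p j))) E) hS.k0 hS.six (copall Finset.univ)
  have hm1 : S.mm (S.Kx E p) (cl (S.Kx E p) (∏ i ∈ Finset.univ \ (S.Jx E p ∪ ∅), p i))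
      (jx (S.Mx E p ∅) E) = mx (S.Mx E p ∅) E := rfl
  have hm0 : S.mm S.K0 (cl S.K0 (∏ j, p j)) (jx (S.mm S.K0 (cl S.K0 (∏ j, p j))) E) =
      mx (S.mm S.K0 (cl S.K0 (∏ j, p j))) E := rfl
  rw [hm1] at a1 a2 a3 a4 a5
  rw [hm0] at b1 b2 b3 b4 b5
  have hDx : S.Dx E p ∅ = S.D1 * ((∏ i ∈ S.Jx E p, p i) * mx (S.Mx E p ∅) E) := by
    unfold Dat.Dx
    rw [Finset.union_empty, mul_assoc]
  have hd1 : 0 < S.D1 := Nat.pos_of_dvd_of_pos hS.d1 hS.k0
  have hprodpos : 0 < ∏ i ∈ S.Jx E p, p i := Finset.prod_pos (fun i _ => (prime_L hS hp i).pos)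
  -- the class
  have hcl : cl S.K0 ((∏ i ∈ S.Jx E p, p i) * mx (S.Mx E p ∅) E) =
      cl S.K0 (mx (S.mm S.K0 (cl S.K0 (∏ j, p j))) E) := by
    rw [b2]
    have c1 : cl S.K0 (mx (S.Mx E p ∅) E) =
        cl S.K0 (∏ i ∈ Finset.univ \ (S.Jx E p ∪ ∅), p i) :=
      hCLM.mon (S.Kx E p) S.K0 _ _ (Kx_pos hS hp) (Dvd.intro _ rfl) a2
    rw [hCLM.mul S.K0 _ _ _ _ hS.k0 (copall _) (copall _)
      ((a1.coprime_iff_not_dvd).2 a4) (copall _) rfl c1, Finset.union_empty,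
      mul_comm, Finset.prod_sdiff (Finset.subset_univ _)]
  have hSq : Sq S.K0 (S.Dx E p ∅) (S.D1 * mx (S.mm S.K0 (cl S.K0 (∏ j, p j))) E) := by
    rw [hDx]
    apply hSQZ.mul
    exact hCLM.sq S.K0 _ _ hS.k0 h2K
      (Nat.Coprime.mul_left (copall _) ((a1.coprime_iff_not_dvd).2 a4))
      ((b1.coprime_iff_not_dvd).2 b4) hcl
  have key := hJNK S.K0 {mx (S.Mx E p ∅) E, mx (S.mm S.K0 (cl S.K0 (∏ j, p j))) E}
    ((S.Jx E p).image p) E.1 E.2 (S.Dx E p ∅)
    (S.D1 * mx (S.mm S.K0 (cl S.K0 (∏ j, p j))) E) hS.k0 hS.six hSf hdz ?_ ?_ ?_ ?_ hSq ?_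
  · refine key.trans ?_
    exact Nat.mul_le_mul_right _ (Nat.pow_le_pow_right (by norm_num) Finset.card_image_le)
  · intro q hq
    rw [Finset.mem_insert, Finset.mem_singleton] at hq
    rcases hq with rfl | rfl
    · exact ⟨a1, a4, hA.2⟩
    · exact ⟨b1, b4, hY⟩
  · intro q hq
    rw [Finset.mem_image] at hq
    obtain ⟨i, hi, rfl⟩ := hq
    have hpi := prime_L hS hp i
    have hty : ty (p i) E = 2 := by
      unfold Dat.Jx at hi
      rw [Finset.mem_filter] at hi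
      exact hi.2
    have hnD1 : ¬ p i ∣ S.D1 := fun h => ndvd_L hS hp i (h.trans hS.d1)
    have hnm1 : ¬ p i ∣ mx (S.Mx E p ∅) E := by
      rw [Nat.prime_dvd_prime_iff_eq hpi a1]
      intro h
      exact a5 i (h ▸ mem_L hp i)
    have hnm0 : ¬ p i ∣ mx (S.mm S.K0 (cl S.K0 (∏ j, p j))) E := by
      rw [Nat.prime_dvd_prime_iff_eq hpi b1]
      intro h
      exact b5 i (h ▸ mem_L hp i)
    have hrest : ¬ p i ∣ ∏ k ∈ (S.Jx E p).erase i, p k := by
      rw [Prime.dvd_finset_prod_iff hpi.prime]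
      rintro ⟨k, hk, hd⟩
      rw [Finset.mem_erase] at hk
      have := cop_pp hS hp hp (Ne.symm hk.1)
      exact (hpi.coprime_iff_not_dvd.1 this) hd
    refine ⟨hpi, ndvd_L hS hp i, ty2 hty, ?_, ?_, ?_⟩
    · rw [hDx]
      exact ((Finset.dvd_prod_of_mem p hi).mul_right _).mul_left _
    · intro h
      rw [hDx, ← Finset.mul_prod_erase _ _ hi] at h
      have h1 : p i * p i ∣ p i * (S.D1 * ((∏ k ∈ (S.Jx E p).erase i, p k) *
          mx (S.Mx E p ∅) E)) := by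
        have e : p i * (S.D1 * ((∏ k ∈ (S.Jx E p).erase i, p k) * mx (S.Mx E p ∅) E)) =
          S.D1 * (p i * (∏ k ∈ (S.Jx E p).erase i, p k) * mx (S.Mx E p ∅) E) := by ring
        rw [e, ← sq]
        exact h
      have h2 := Nat.dvd_of_mul_dvd_mul_left hpi.pos h1
      rcases (hpi.dvd_mul.1 h2) with h3 | h3
      · exact hnD1 h3
      · rcases (hpi.dvd_mul.1 h3) with h4 | h4
        · exact hrest h4
        · exact hnm1 h4
    · intro h
      rcases (hpi.dvd_mul.1 h) with h3 | h3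
      · exact hnD1 h3
      · exact hnm0 h3
  · rw [hDx]
    exact Nat.mul_pos hd1 (Nat.mul_pos hprodpos a1.pos)
  · exact Nat.mul_pos hd1 b1.pos
  · intro q hq hqK hqJ hqP
    rw [Finset.mem_insert, Finset.mem_singleton, not_or] at hqP
    have hqD : ¬ q ∣ S.D1 := fun h => hqK (h.trans hS.d1)
    constructor
    · rw [hDx]
      intro h
      rcases (hq.dvd_mul.1 h) with h3 | h3
      · exact hqD h3
      · rcases (hq.dvd_mul.1 h3) with h4 | h4
        · rw [Prime.dvd_finset_prod_iff hq.prime] at h4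
          obtain ⟨i, hi, hd⟩ := h4
          rw [Nat.prime_dvd_prime_iff_eq hq (prime_L hS hp i)] at hd
          exact hqJ (Finset.mem_image.2 ⟨i, hi, hd.symm⟩)
        · rw [Nat.prime_dvd_prime_iff_eq hq a1] at h4
          exact hqP.1 h4
    · intro h
      rcases (hq.dvd_mul.1 h) with h3 | h3
      · exact hqD h3
      · rw [Nat.prime_dvd_prime_iff_eq hq b1] at h3
        exact hqP.2 h3

end Pool.Agent.Lib.MP_8cb858_nt.PT
end

section
/-!
# Module MXP: mixing for one curve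
-/
namespace Pool.Agent.Lib.MP_8cb858_nt.PT

open scoped Classical

namespace MXPM

variable (S : Dat)

theorem pos_of_mem (hS : S.Ok) {p : Fin S.r → ℕ} (hp : p ∈ S.Om) (i : Fin S.r) : 0 < p i := by
  rw [Dat.Om, Fintype.mem_piFinset] at hp
  exact (hS.lpr i _ (hp i)).1.pos

theorem K2_pos (hS : S.Ok) {p : Fin S.r → ℕ} (hp : p ∈ S.Om) (E E' : ℤ × ℤ) :
    0 < S.K2 E E' p := by
  rw [Dat.K2]
  exact Nat.mul_pos hS.k0 (Finset.prod_pos fun i _ => pos_of_mem S hS hp i)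

theorem Kx_dvd {p : Fin S.r → ℕ} (E E' : ℤ × ℤ) : S.Kx E p ∣ S.K2 E E' p := by
  rw [Dat.K2, Dat.Kx]
  exact Nat.mul_dvd_mul_left _ (Finset.prod_dvd_prod_of_subset _ _ _ Finset.subset_union_left)

/-- types of the element of `fs` -/
theorem fs_ty {n : ℕ} {E E' : ℤ × ℤ} {p : Fin S.r → ℕ} {k : ℕ} {a : Fin S.r}
    (ha : a ∈ S.fs n E E' p k) : ty (p a) E ≤ 1 ∧ ty (p a) E' = 1 := by
  rw [Dat.fs, Finset.mem_filter] at ha
  exact ha.2.1

/-- `sx E p U_k` is constant on the classes -/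
theorem const (hEQR : SpecEQR) (hIVT : SpecIVT) (hCLM : SpecCLM) (hS : S.Ok) (n : ℕ)
    (E E' : ℤ × ℤ) (lo lo' k : ℕ) (hll : lo = 0 ∧ lo' = n ∨ lo = n ∧ lo' = 0) (hk : k < n)
    (p p' : Fin S.r → ℕ) (hp : p ∈ S.Om) (hp' : p' ∈ S.Om) (hR : S.Rm n E E' (lo + k) p p') :
    S.sx E p (S.Uk n E E' p lo lo' k) = S.sx E p' (S.Uk n E E' p' lo lo' k) := by
  by_cases hpp : p = p'
  · rw [hpp]
  obtain ⟨-, -, -, -, hrest⟩ := hEQR.rmv S n E E' (lo + k) p p' hR
  obtain ⟨-, hU, hnot⟩ := hrest lo lo' hll (by omega) (by omega)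
  rw [Nat.add_sub_cancel_left] at hU hnot
  rcases hR with h | ⟨a, ha, ha', hj, hcl⟩
  · exact absurd h hpp
  have t1 := fs_ty S ha
  have t2 := fs_ty S ha'
  have hcl' : cl (S.Kx E p) (p a) = cl (S.Kx E p) (p' a) :=
    hCLM.mon _ _ _ _ (K2_pos S hS hp E E') (Kx_dvd S E E') hcl
  obtain ⟨-, -, -, h4, -⟩ := hIVT S E p p' a hS hp hp' hj (by omega) (by omega) hcl'
  rw [← hU]
  exact (h4 _ (hnot hpp a ha)).2

end MXPM

open MXPM in
theorem specMXP (hMIX : SpecMIX) (hMXS : SpecMXS) (hEQR : SpecEQR) (hIVT : SpecIVT)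
    (hCLM : SpecCLM) : SpecMXP := by
  intro S n η κ E E' lo lo' g hS hn hr hη hη2 hκ hκ2 hSf hdz hll hg hgc f hf
  have h := hMIX (Fin S.r → ℕ) S.Om (S.Om.filter (fun p => ¬ S.Gh n η κ lo E E' p)) n
    (fun k => S.Rm n E E' (lo + k)) (fun k p => S.sx E p (S.Uk n E E' p lo lo' k)) g
    (4 * η + 4 * κ) (by positivity) (fun k => hEQR.rm S n E E' (lo + k)) hg
    (fun k hk p hp p' hp' hR =>
      ⟨const S hEQR hIVT hCLM hS n E E' lo lo' k hll hk p p' hp hp' hR,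
        hgc k hk p hp p' hp' hR⟩)
    (fun k hk p hp hpB f' hf' => by
      have hG : S.Gh n η κ lo E E' p := by
        by_contra hG
        exact hpB (Finset.mem_filter.2 ⟨hp, hG⟩)
      exact hMXS S n η κ E E' lo lo' k p hS hn hr hη hη2 hκ hκ2 hSf hdz hll hk hp hG f' hf')
    f hf
  have e : ∀ p : Fin S.r → ℕ, S.Uk n E E' p lo lo' n = S.Ux E p :=
    fun p => hEQR.uk S n E E' p lo lo'
  simp only [e] at h
  exact h

end Pool.Agent.Lib.MP_8cb858_nt.PT
end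

section
/-!
# Module MXS: the mixing step
-/
namespace Pool.Agent.Lib.MP_8cb858_nt.PT

open Polynomial NumberField IsDedekindDomain Pool.Agent.Lib.MP_8cb858_nt.SEL
open Pool.Agent.Lib.MP_8cb858_nt.PF
open scoped Classical WithZero

namespace MXSM

/-! ## Types -/

theorem ty_zero {q : ℕ} {E : ℤ × ℤ} : ty q E = 0 ↔ Y12 q E.1 E.2 := by
  unfold ty
  constructor
  · intro h
    by_contra hn
    rw [if_neg hn] at h
    split_ifs at h
  · intro h
    rw [if_pos h]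

theorem excl (hTYZ : SpecTYZ) {q : ℕ} (hq : q.Prime) (h5 : 5 ≤ q) {a b : ℤ} (h3 : Y3 q a b) :
    ¬ Y12 q a b := by
  intro h12
  obtain ⟨-, -, -, h4⟩ := hTYZ q hq h5
  have h := (h4 ((a : ZMod q), (b : ZMod q)) (fun x => h3 x)).1
  apply h12
  have e : ((-dz a b : ℤ) : ZMod q) = -(4 * (a : ZMod q) ^ 3 + 27 * (b : ZMod q) ^ 2) := by
    unfold dz
    push_cast
    ring
  rw [e]
  exact h

theorem ty_one (hTYZ : SpecTYZ) {q : ℕ} (hq : q.Prime) (h5 : 5 ≤ q) {E : ℤ × ℤ} :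
    ty q E = 1 ↔ Y3 q E.1 E.2 := by
  unfold ty
  constructor
  · intro h
    by_contra hn
    rw [if_neg hn] at h
    split_ifs at h <;> omega
  · intro h
    rw [if_neg (excl hTYZ hq h5 h), if_pos h]

theorem ty_le_one (hTYZ : SpecTYZ) {q : ℕ} (hq : q.Prime) (h5 : 5 ≤ q) {E : ℤ × ℤ} :
    ty q E ≤ 1 ↔ (Y12 q E.1 E.2 ∨ Y3 q E.1 E.2) := by
  rw [← ty_zero, ← ty_one hTYZ hq h5]
  omega

/-! ## Arithmetic of the data -/

section dat

variable {S : Dat}

theorem five_le (hS : S.Ok) {i : Fin S.r} {q : ℕ} (hq : q ∈ S.L i) : 5 ≤ q := by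
  obtain ⟨h1, h2⟩ := hS.lpr i q hq
  have h6 := hS.six
  by_contra h
  have h3 : q < 5 := by omega
  have h4 := h1.two_le
  interval_cases q
  · exact h2 ((by norm_num : 2 ∣ 6).trans h6)
  · exact h2 ((by norm_num : 3 ∣ 6).trans h6)
  · exact absurd h1 (by norm_num)

theorem mem_L {p : Fin S.r → ℕ} (hp : p ∈ S.Om) (i : Fin S.r) : p i ∈ S.L i :=
  Fintype.mem_piFinset.mp hp i

theorem cop (hS : S.Ok) {p : Fin S.r → ℕ} (hp : p ∈ S.Om) {J W : Finset (Fin S.r)}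
    (hJW : Disjoint J W) : (∏ j ∈ W, p j).Coprime (S.K0 * ∏ j ∈ J, p j) := by
  refine Nat.Coprime.prod_left fun j hj => ?_
  have h1 := hS.lpr j (p j) (mem_L hp j)
  refine Nat.Coprime.mul_right ((Nat.Prime.coprime_iff_not_dvd h1.1).mpr h1.2) ?_
  refine Nat.Coprime.prod_right fun l hl => ?_
  have h2 := hS.lpr l (p l) (mem_L hp l)
  rw [Nat.coprime_primes h1.1 h2.1]
  intro h
  have hjl : j ≠ l := by
    rintro rfl
    exact (Finset.disjoint_left.mp hJW) hl hj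
  have h3 := mem_L hp j
  rw [h] at h3
  exact (Finset.disjoint_left.mp (hS.dis j l hjl)) h3 (mem_L hp l)

theorem kpos (hS : S.Ok) {p : Fin S.r → ℕ} (hp : p ∈ S.Om) (J : Finset (Fin S.r)) :
    0 < S.K0 * ∏ j ∈ J, p j :=
  Nat.mul_pos hS.k0 (Finset.prod_pos fun j _ => (hS.lpr j (p j) (mem_L hp j)).1.pos)

theorem six (hS : S.Ok) {p : Fin S.r → ℕ} (J : Finset (Fin S.r)) : 6 ∣ S.K0 * ∏ j ∈ J, p j :=
  hS.six.trans (Nat.dvd_mul_right _ _)

/-- The auxiliary prime. -/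
theorem mx_prime (hS : S.Ok) {p : Fin S.r → ℕ} (hp : p ∈ S.Om) (E : ℤ × ℤ)
    (U : Finset (Fin S.r)) : (mx (S.Mx E p U) E).Prime ∧ ∀ i, mx (S.Mx E p U) E ∉ S.L i := by
  have hd : Disjoint (S.Jx E p) (Finset.univ \ (S.Jx E p ∪ U)) := by
    rw [Finset.disjoint_left]
    intro x hx hx2
    exact (Finset.mem_sdiff.mp hx2).2 (Finset.mem_union_left _ hx)
  have h := hS.aux (S.K0 * ∏ j ∈ S.Jx E p, p j) (∏ j ∈ Finset.univ \ (S.Jx E p ∪ U), p j)
    (jx (S.Mx E p U) E) (kpos hS hp _) (six hS _) (cop hS hp hd)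
  exact ⟨h.1, h.2.2.2.2⟩

theorem dx_pos (hS : S.Ok) {p : Fin S.r → ℕ} (hp : p ∈ S.Om) (E : ℤ × ℤ)
    (U : Finset (Fin S.r)) : 0 < S.Dx E p U := by
  unfold Dat.Dx
  have h1 : 0 < S.D1 := Nat.pos_of_dvd_of_pos hS.d1 hS.k0
  have h2 : 0 < ∏ i ∈ S.Jx E p ∪ U, p i :=
    Finset.prod_pos fun j _ => (hS.lpr j (p j) (mem_L hp j)).1.pos
  exact Nat.mul_pos (Nat.mul_pos h1 h2) (mx_prime hS hp E U).1.pos

theorem not_dvd_dx (hS : S.Ok) {p : Fin S.r → ℕ} (hp : p ∈ S.Om) (E : ℤ × ℤ)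
    (U : Finset (Fin S.r)) {a : Fin S.r} (haJ : a ∉ S.Jx E p) (haU : a ∉ U) {q : ℕ}
    (hq : q ∈ S.L a) : ¬ q ∣ S.Dx E p U := by
  obtain ⟨hqp, hqK⟩ := hS.lpr a q hq
  obtain ⟨hm1, hm2⟩ := mx_prime hS hp E U
  unfold Dat.Dx
  rw [hqp.dvd_mul, hqp.dvd_mul]
  rintro ((h | h) | h)
  · exact hqK (h.trans hS.d1)
  · obtain ⟨j, hj, hqj⟩ := (Prime.dvd_finsetProd_iff hqp.prime _).mp h
    have h2 := hS.lpr j (p j) (mem_L hp j)
    have h3 : q = p j := (Nat.prime_dvd_prime_iff_eq hqp h2.1).mp hqj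
    have hja : a ≠ j := by
      rintro rfl
      rcases Finset.mem_union.mp hj with h4 | h4
      · exact haJ h4
      · exact haU h4
    rw [h3] at hq
    exact (Finset.disjoint_left.mp (hS.dis a j hja)) hq (mem_L hp j)
  · have h3 : q = mx (S.Mx E p U) E := (Nat.prime_dvd_prime_iff_eq hqp hm1).mp h
    exact hm2 a (h3 ▸ hq)

end dat

/-! ## The estimate -/

theorem final_est {P η κ M n12 n3 c f0 f1 f2 : ℝ} (hP0 : 0 ≤ P) (hP1 : P ≤ 1) (hκ : 0 ≤ κ)
    (hκ1 : κ ≤ 1 / 10) (hη : 0 ≤ η) (hM : 0 ≤ M) (hn3 : 0 ≤ n3)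
    (h12 : |n12 - M / 2| ≤ κ * M) (h3 : |n3 - M / 3| ≤ κ * M)
    (hc : |c - P * n12| ≤ 2 * η * n12) (hf0 : |f0| ≤ 1) (hf1 : |f1| ≤ 1) (hf2 : |f2| ≤ 1) :
    |c * f2 + (n12 - c) * f0 + n3 * f1 -
      (3 / 5 * (P * f2 + (1 - P) * f0) + 2 / 5 * f1) * (n12 + n3)| ≤
      (4 * η + 4 * κ) * (n12 + n3) := by
  obtain ⟨e1, he1⟩ : ∃ e1, e1 = c - P * n12 := ⟨_, rfl⟩
  obtain ⟨e2, he2⟩ : ∃ e2, e2 = 2 / 5 * n12 - 3 / 5 * n3 := ⟨_, rfl⟩
  rw [← he1] at hc
  have hid : c * f2 + (n12 - c) * f0 + n3 * f1 -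
      (3 / 5 * (P * f2 + (1 - P) * f0) + 2 / 5 * f1) * (n12 + n3) =
      (P * e2 + e1) * f2 + ((1 - P) * e2 - e1) * f0 - e2 * f1 := by
    rw [he1, he2]
    ring
  rw [hid]
  have h2 : |e2| ≤ κ * M := by
    have : e2 = 2 / 5 * (n12 - M / 2) - 3 / 5 * (n3 - M / 3) := by rw [he2]; ring
    rw [this]
    refine (abs_sub _ _).trans ?_
    rw [abs_mul, abs_mul, abs_of_pos (by norm_num : (0 : ℝ) < 2 / 5),
      abs_of_pos (by norm_num : (0 : ℝ) < 3 / 5)]
    linarith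
  have hN : M ≤ 2 * (n12 + n3) := by
    have g1 := (abs_le.mp h12).1
    have g2 := (abs_le.mp h3).1
    have g3 : κ * M ≤ 1 / 10 * M := mul_le_mul_of_nonneg_right hκ1 hM
    linarith
  have hkM : κ * M ≤ κ * (2 * (n12 + n3)) := mul_le_mul_of_nonneg_left hN hκ
  have he : 2 * η * n12 ≤ 2 * η * (n12 + n3) :=
    mul_le_mul_of_nonneg_left (by linarith) (by linarith)
  have a1 : |(P * e2 + e1) * f2| ≤ P * |e2| + |e1| := by
    rw [abs_mul]
    have : |P * e2 + e1| ≤ P * |e2| + |e1| := by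
      refine (abs_add_le _ _).trans ?_
      rw [abs_mul, abs_of_nonneg hP0]
    calc |P * e2 + e1| * |f2| ≤ |P * e2 + e1| * 1 :=
          mul_le_mul_of_nonneg_left hf2 (abs_nonneg _)
      _ ≤ _ := by rw [mul_one]; exact this
  have a2 : |((1 - P) * e2 - e1) * f0| ≤ (1 - P) * |e2| + |e1| := by
    rw [abs_mul]
    have : |(1 - P) * e2 - e1| ≤ (1 - P) * |e2| + |e1| := by
      refine (abs_sub _ _).trans ?_
      rw [abs_mul, abs_of_nonneg (by linarith : 0 ≤ 1 - P)]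
    calc |(1 - P) * e2 - e1| * |f0| ≤ |(1 - P) * e2 - e1| * 1 :=
          mul_le_mul_of_nonneg_left hf0 (abs_nonneg _)
      _ ≤ _ := by rw [mul_one]; exact this
  have a3 : |e2 * f1| ≤ |e2| := by
    rw [abs_mul]
    calc |e2| * |f1| ≤ |e2| * 1 := mul_le_mul_of_nonneg_left hf1 (abs_nonneg _)
      _ = |e2| := mul_one _
  have a4 : |(P * e2 + e1) * f2 + ((1 - P) * e2 - e1) * f0 - e2 * f1| ≤
      |(P * e2 + e1) * f2| + |((1 - P) * e2 - e1) * f0| + |e2 * f1| :=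
    (abs_sub _ _).trans (add_le_add (abs_add_le _ _) le_rfl)
  linarith

/-- The sum over the class. -/
theorem sum_split (Λ : Finset ℕ) (A B C : ℕ → Prop) [DecidablePred C] (F : ℕ → ℝ) (x y z : ℝ)
    (hexcl : ∀ q ∈ Λ, A q → ¬ B q) (hC : ∀ q ∈ Λ, C q ↔ (A q ∨ B q)) (T : ℕ → Prop)
    (hx : ∀ q ∈ Λ, A q → T q → F q = x) (hy : ∀ q ∈ Λ, A q → ¬ T q → F q = y)
    (hz : ∀ q ∈ Λ, B q → F q = z) :
    ∑ q ∈ Λ.filter C, F q = ((Λ.filter (fun q => A q ∧ T q)).card : ℝ) * x +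
      (((Λ.filter A).card : ℝ) - ((Λ.filter (fun q => A q ∧ T q)).card : ℝ)) * y +
      ((Λ.filter B).card : ℝ) * z ∧
    ((Λ.filter C).card : ℝ) = ((Λ.filter A).card : ℝ) + ((Λ.filter B).card : ℝ) := by
  have e1 : Λ.filter C = Λ.filter A ∪ Λ.filter B := by
    ext q
    simp only [Finset.mem_union, Finset.mem_filter]
    constructor
    · rintro ⟨h1, h2⟩
      rcases (hC q h1).mp h2 with h3 | h3
      · exact Or.inl ⟨h1, h3⟩
      · exact Or.inr ⟨h1, h3⟩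
    · rintro (⟨h1, h2⟩ | ⟨h1, h2⟩)
      · exact ⟨h1, (hC q h1).mpr (Or.inl h2)⟩
      · exact ⟨h1, (hC q h1).mpr (Or.inr h2)⟩
  have e2 : Disjoint (Λ.filter A) (Λ.filter B) := by
    rw [Finset.disjoint_left]
    intro q h1 h2
    rw [Finset.mem_filter] at h1 h2
    exact hexcl q h1.1 h1.2 h2.2
  have e3 : ∑ q ∈ Λ.filter A, F q = ((Λ.filter (fun q => A q ∧ T q)).card : ℝ) * x +
      (((Λ.filter A).card : ℝ) - ((Λ.filter (fun q => A q ∧ T q)).card : ℝ)) * y := by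
    rw [← Finset.sum_filter_add_sum_filter_not (Λ.filter A) T, Finset.filter_filter,
      Finset.filter_filter]
    have g1 : ∑ q ∈ Λ.filter (fun q => A q ∧ T q), F q =
        ((Λ.filter (fun q => A q ∧ T q)).card : ℝ) * x := by
      rw [Finset.sum_congr rfl (g := fun _ => x), Finset.sum_const, nsmul_eq_mul]
      intro q hq
      rw [Finset.mem_filter] at hq
      exact hx q hq.1 hq.2.1 hq.2.2
    have g2 : ∑ q ∈ Λ.filter (fun q => A q ∧ ¬ T q), F q =
        ((Λ.filter (fun q => A q ∧ ¬ T q)).card : ℝ) * y := by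
      rw [Finset.sum_congr rfl (g := fun _ => y), Finset.sum_const, nsmul_eq_mul]
      intro q hq
      rw [Finset.mem_filter] at hq
      exact hy q hq.1 hq.2.1 hq.2.2
    have g3 : ((Λ.filter A).card : ℝ) = ((Λ.filter (fun q => A q ∧ T q)).card : ℝ) +
        ((Λ.filter (fun q => A q ∧ ¬ T q)).card : ℝ) := by
      have := Finset.card_filter_add_card_filter_not (s := Λ.filter A) T
      rw [Finset.filter_filter, Finset.filter_filter] at this
      exact_mod_cast this.symm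
    rw [g1, g2, g3]
    ring
  have e4 : ∑ q ∈ Λ.filter B, F q = ((Λ.filter B).card : ℝ) * z := by
    rw [Finset.sum_congr rfl (g := fun _ => z), Finset.sum_const, nsmul_eq_mul]
    intro q hq
    rw [Finset.mem_filter] at hq
    exact hz q hq.1 hq.2
  refine ⟨?_, ?_⟩
  · rw [e1, Finset.sum_union e2, e3, e4]
  · rw [e1, Finset.card_union_of_disjoint e2]
    push_cast
    ring

/-! ## The class of `p` -/

section cls

variable {S : Dat} {n : ℕ} {E E' : ℤ × ℤ} {p : Fin S.r → ℕ} {k : ℕ} {a : Fin S.r}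

theorem upd_mem (hp : p ∈ S.Om) {q : ℕ} (hq : q ∈ S.L a) : Function.update p a q ∈ S.Om := by
  refine Fintype.mem_piFinset.mpr fun j => ?_
  by_cases h : j = a
  · subst h
    rw [Function.update_self]
    exact hq
  · rw [Function.update_of_ne h]
    exact mem_L hp j

theorem upd_rm (hfs : S.fs n E E' p k = {a}) {q : ℕ}
    (hq : q ∈ S.Ls E' (S.K2 E E' p) p a) (hq1 : ty q E ≤ 1) :
    a ∈ S.fs n E E' (Function.update p a q) k ∧ S.Rm n E E' k p (Function.update p a q) := by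
  have ha : a ∈ S.fs n E E' p k := by rw [hfs]; exact Finset.mem_singleton_self a
  have hq' := Finset.mem_filter.mp hq
  have ha' := Finset.mem_filter.mp ha
  have h1 : a ∈ S.fs n E E' (Function.update p a q) k := by
    refine Finset.mem_filter.mpr ⟨ha'.1, ?_, ?_⟩
    · show ty (Function.update p a q a) E ≤ 1 ∧ ty (Function.update p a q a) E' = 1
      rw [Function.update_self]
      exact ⟨hq1, hq'.2.1.trans ha'.2.1.2⟩
    · intro j hj hja hal
      apply ha'.2.2 j hj hja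
      have : Function.update p a q j = p j := Function.update_of_ne hja.ne _ _
      unfold Dat.al at hal ⊢
      rw [this] at hal
      exact hal
  refine ⟨h1, Or.inr ⟨a, ha, h1, fun j hj => (Function.update_of_ne hj _ _).symm, ?_⟩⟩
  rw [Function.update_self]
  exact hq'.2.2.symm

theorem cls_eq (hp : p ∈ S.Om) (hfs : S.fs n E E' p k = {a}) :
    S.Om.filter (S.Rm n E E' k p) =
      ((S.Ls E' (S.K2 E E' p) p a).filter (fun q => ty q E ≤ 1)).image
        (fun q => Function.update p a q) := by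
  have ha : a ∈ S.fs n E E' p k := by rw [hfs]; exact Finset.mem_singleton_self a
  have ha' := Finset.mem_filter.mp ha
  ext p'
  rw [Finset.mem_image, Finset.mem_filter]
  constructor
  · rintro ⟨hp', h | ⟨b, hb, hb', hj, hcl⟩⟩
    · refine ⟨p a, Finset.mem_filter.mpr ⟨Finset.mem_filter.mpr ⟨mem_L hp a, rfl, rfl⟩,
        ha'.2.1.1⟩, ?_⟩
      rw [← h]
      exact Function.update_eq_self a p
    · rw [hfs, Finset.mem_singleton] at hb
      subst hb
      have hb'' := Finset.mem_filter.mp hb'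
      refine ⟨p' b, Finset.mem_filter.mpr ⟨Finset.mem_filter.mpr ⟨mem_L hp' b, ?_, hcl.symm⟩,
        hb''.2.1.1⟩, ?_⟩
      · rw [hb''.2.1.2, ha'.2.1.2]
      · funext j
        by_cases h : j = b
        · subst h
          rw [Function.update_self]
        · rw [Function.update_of_ne h]
          exact hj j h
  · rintro ⟨q, hq, rfl⟩
    obtain ⟨hq1, hq2⟩ := Finset.mem_filter.mp hq
    exact ⟨upd_mem hp (Finset.mem_filter.mp hq1).1, (upd_rm hfs hq1 hq2).2⟩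

theorem upd_inj : Function.Injective (fun q : ℕ => Function.update p a q) := by
  intro q q' h
  have := congrFun h a
  simpa using this

end cls

end MXSM

open MXSM in
theorem specMXS (hEQR : SpecEQR) (hIVT : SpecIVT) (hNST : SpecNST) (hCNT : SpecCNT)
    (hGEN : SpecGEN) (hCLM : SpecCLM) (hTYZ : SpecTYZ) : SpecMXS := by
  intro S n η κ E E' lo lo' k p hS hn h2n hη0 hη1 hκ0 hκ1 hSf hdz hlo hk hp hG f hf
  -- the mixing index
  obtain ⟨a, hfs⟩ : ∃ a, S.fs n E E' p (lo + k) = {a} :=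
    Finset.card_eq_one.mp ((hEQR.fs1 S n E E' (lo + k) p).2
      (hG.blk (lo + k) (Nat.le_add_right _ _) (Nat.add_lt_add_left hk lo)))
  have ha : a ∈ S.fs n E E' p (lo + k) := by rw [hfs]; exact Finset.mem_singleton_self a
  have ha' := Finset.mem_filter.mp ha
  have haE : ty (p a) E ≤ 1 := ha'.2.1.1
  have haE' : ty (p a) E' = 1 := ha'.2.1.2
  obtain ⟨hUk, haU⟩ := hEQR.uks S n E E' p lo lo' k hlo hk
  have haU := haU a ha
  obtain ⟨U, hU⟩ : ∃ U, U = S.Uk n E E' p lo lo' k := ⟨_, rfl⟩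
  rw [← hU] at hUk haU ⊢
  have haJ : a ∉ S.Jx E p := by
    intro h
    have := (Finset.mem_filter.mp h).2
    omega
  have haJ' : a ∉ S.Jx E' p := by
    intro h
    have := (Finset.mem_filter.mp h).2
    omega
  have haI : a ∉ S.Jx E p ∪ S.Jx E' p := by
    rw [Finset.mem_union]
    rintro (h | h)
    · exact haJ h
    · exact haJ' h
  have haV : a ∉ S.Jx E p ∪ U := by
    rw [Finset.mem_union]
    rintro (h | h)
    · exact haJ h
    · exact haU h
  have hdisj : ∀ V : Finset (Fin S.r), Disjoint (S.Jx E p) (Finset.univ \ (S.Jx E p ∪ V)) := by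
    intro V
    rw [Finset.disjoint_left]
    intro x hx hx2
    exact (Finset.mem_sdiff.mp hx2).2 (Finset.mem_union_left _ hx)
  -- the nodes
  have hnod : Nok η κ (S.r ^ 2) (S.D1 * ∏ j ∈ S.Jx E p ∪ U, p j) (S.Mx E p U)
      (S.Ls E' (S.K2 E E' p) p a) E :=
    hG.nod a (S.Jx E p ∪ S.Jx E' p) (S.Jx E p ∪ U) (S.Jx E p) (Finset.univ \ (S.Jx E p ∪ U))
      haI haV (hdisj U)
  have hnod0 : Nok η κ (S.r ^ 2) (S.D1 * ∏ j ∈ S.Jx E p ∪ ∅, p j) (S.Mx E p ∅)
      (S.Ls E' (S.K2 E E' p) p a) E :=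
    hG.nod a (S.Jx E p ∪ S.Jx E' p) (S.Jx E p ∪ ∅) (S.Jx E p) (Finset.univ \ (S.Jx E p ∪ ∅))
      haI (by rw [Finset.union_empty]; exact haJ) (hdisj ∅)
  have haok : ∀ V : Finset (Fin S.r), S.Aok E p V := fun V =>
    (hG.nod a ∅ ∅ (S.Jx E p) (Finset.univ \ (S.Jx E p ∪ V)) (Finset.notMem_empty a)
      (Finset.notMem_empty a) (hdisj V)).aux
  -- the Selmer group at `U`
  have hDpos := dx_pos hS hp E U
  obtain ⟨-, -, s, hs⟩ := hGEN.fin E.1 E.2 (S.Dx E p U) hdz hDpos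
  have hsx : S.sx E p U = s := by
    unfold Dat.sx
    rw [hs, Nat.log_pow (by norm_num)]
  -- facts on the updated points
  have hΛ : ∀ q ∈ S.Ls E' (S.K2 E E' p) p a, q ∈ S.L a ∧ ty q E' = ty (p a) E' ∧
      cl (S.K2 E E' p) q = cl (S.K2 E E' p) (p a) := fun q hq => Finset.mem_filter.mp hq
  have hK2pos : 0 < S.K2 E E' p := kpos hS hp _
  have hKdvd : S.Kx E p ∣ S.K2 E E' p := by
    unfold Dat.Kx Dat.K2
    exact Nat.mul_dvd_mul_left _ (Finset.prod_dvd_prod_of_subset _ _ _ Finset.subset_union_left)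
  have hfact : ∀ q ∈ S.Ls E' (S.K2 E E' p) p a, ty q E ≤ 1 →
      S.Jx E (Function.update p a q) = S.Jx E p ∧
      S.Ux E (Function.update p a q) = S.Ux E (Function.update p a q) ∧
      S.K2 E E' (Function.update p a q) = S.K2 E E' p ∧
      (∀ V : Finset (Fin S.r), S.Mx E (Function.update p a q) V = S.Mx E p V ∧
        S.Aok E (Function.update p a q) V) ∧
      S.Dx E (Function.update p a q) U = S.Dx E p U ∧
      S.sx E (Function.update p a q) U = s ∧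
      S.Uk n E E' (Function.update p a q) lo lo' k = U ∧
      S.Uk n E E' (Function.update p a q) lo lo' (k + 1) =
        U ∪ ({a} : Finset (Fin S.r)).filter (fun i => ty (Function.update p a q i) E = 0) := by
    intro q hq hq1
    obtain ⟨hqL, hqt, hqc⟩ := hΛ q hq
    obtain ⟨hfa, hRm⟩ := upd_rm hfs hq hq1
    obtain ⟨r1, r2, r3, r4, r5⟩ := hEQR.rmv S n E E' (lo + k) p _ hRm
    obtain ⟨r6, r7, r8⟩ := r5 lo lo' hlo (Nat.le_add_right _ _) (Nat.add_lt_add_left hk lo)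
    rw [Nat.add_sub_cancel_left, ← hU] at r7
    have hfs' : S.fs n E E' (Function.update p a q) (lo + k) = {a} := by
      have h1 := (hEQR.fs1 S n E E' (lo + k) (Function.update p a q)).1
      exact Finset.eq_singleton_iff_unique_mem.mpr ⟨hfa, fun b hb =>
        Finset.card_le_one.mp h1 b hb a hfa⟩
    obtain ⟨i1, i2, i3, i4, i5⟩ := hIVT S E p (Function.update p a q) a hS hp (upd_mem hp hqL)
      (fun j hj => (Function.update_of_ne hj _ _).symm) (by omega)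
      (by rw [Function.update_self]; omega)
      (by
        rw [Function.update_self]
        exact hCLM.mon _ _ _ _ hK2pos hKdvd hqc.symm)
    have hu := (hEQR.uks S n E E' (Function.update p a q) lo lo' k hlo hk).1
    refine ⟨i1.symm, rfl, r4.symm, fun V => ⟨(i3 V).1.symm, (i3 V).2.mp (haok V)⟩,
      (i4 U haU).1.symm, ?_, r7.symm, ?_⟩
    · rw [← (i4 U haU).2]
      exact hsx
    · rw [hu, ← r7, hfs']
  -- primes of type (3)
  have hB : ∀ q ∈ S.Ls E' (S.K2 E E' p) p a, Y3 q E.1 E.2 →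
      S.sx E (Function.update p a q)
        (S.Uk n E E' (Function.update p a q) lo lo' (k + 1)) = s := by
    intro q hq h3
    have hqL := (hΛ q hq).1
    have hqp := (hS.lpr a q hqL).1
    have hq5 := five_le hS hqL
    have hty : ty q E = 1 := (ty_one hTYZ hqp hq5).mpr h3
    obtain ⟨g1, g2, g3, g4, g5, g6, g7, g8⟩ := hfact q hq (by omega)
    have e : ({a} : Finset (Fin S.r)).filter (fun i => ty (Function.update p a q i) E = 0) = ∅ := by
      rw [Finset.filter_singleton, if_neg]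
      rw [Function.update_self, hty]
      norm_num
    rw [g8, e, Finset.union_empty]
    exact g6
  -- primes of type (1,2)
  have hA : ∀ q ∈ S.Ls E' (S.K2 E E' p) p a, Y12 q E.1 E.2 →
      ((∀ z : Sl E.1 E.2 (S.Dx E p U), Tz q z) → S.sx E (Function.update p a q)
        (S.Uk n E E' (Function.update p a q) lo lo' (k + 1)) = s + 1) ∧
      (¬ (∀ z : Sl E.1 E.2 (S.Dx E p U), Tz q z) → S.sx E (Function.update p a q)
        (S.Uk n E E' (Function.update p a q) lo lo' (k + 1)) = s - 1) := by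
    intro q hq h12
    obtain ⟨hqL, hqt, hqc⟩ := hΛ q hq
    have hty : ty q E = 0 := ty_zero.mpr h12
    obtain ⟨g1, g2, g3, g4, g5, g6, g7, g8⟩ := hfact q hq (by omega)
    have e : ({a} : Finset (Fin S.r)).filter (fun i => ty (Function.update p a q i) E = 0) =
        {a} := by
      rw [Finset.filter_singleton, if_pos]
      rw [Function.update_self]
      exact hty
    have hUk' : S.Uk n E E' (Function.update p a q) lo lo' (k + 1) = insert a U := by
      rw [g8, e, Finset.union_comm]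
      rfl
    have hUsub : U ⊆ S.Ux E (Function.update p a q) := by
      rw [← g7]
      exact Finset.filter_subset _ _
    have haUx : a ∈ S.Ux E (Function.update p a q) := by
      refine Finset.mem_filter.mpr ⟨Finset.mem_univ a, ?_⟩
      rw [Function.update_self]
      exact hty
    have hLs : S.Ls E' (S.K2 E E' p) (Function.update p a q) a = S.Ls E' (S.K2 E E' p) p a := by
      unfold Dat.Ls
      rw [Function.update_self, hqt, hqc]
    have hprod : ∏ j ∈ S.Jx E p ∪ ∅, Function.update p a q j = ∏ j ∈ S.Jx E p ∪ ∅, p j := by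
      refine Finset.prod_congr rfl fun j hj => ?_
      rw [Finset.union_empty] at hj
      exact Function.update_of_ne (by rintro rfl; exact haJ hj) _ _
    have hNd : S.Nd η κ E E' (Function.update p a q) (S.K2 E E' p) a ∅ := by
      unfold Dat.Nd
      rw [g1, (g4 ∅).1, hLs, hprod]
      exact hnod0
    have hst := (hNST S η κ E E' (Function.update p a q) (S.K2 E E' p) a hS (upd_mem hp hqL) hη0
      hη1 (by linarith) hSf hdz (by
        intro j
        by_cases hj : j = a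
        · subst hj
          rw [Function.update_self, hty]
          norm_num
        · rw [Function.update_of_ne hj]
          exact hG.bad j) (by rw [g1]; exact haJ) hNd).1 U a hUsub haUx haU (g4 U).2
        (g4 (insert a U)).2
    rw [g5, Function.update_self, hs] at hst
    rw [hUk']
    unfold Dat.sx
    refine ⟨fun hz => ?_, fun hz => ?_⟩
    · rw [hst.1 hz, ← pow_succ', Nat.log_pow (by norm_num)]
    · have h3 := hst.2 hz
      cases s with
      | zero => rw [pow_zero] at h3; omega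
      | succ s =>
        have h4 : sc E.1 E.2 (S.Dx E (Function.update p a q) (insert a U)) = 2 ^ s := by
          rw [pow_succ] at h3
          omega
        rw [h4, Nat.log_pow (by norm_num)]
        rfl
  -- the sum
  obtain ⟨k1, k2⟩ := sum_split (S.Ls E' (S.K2 E E' p) p a) (fun q => Y12 q E.1 E.2)
    (fun q => Y3 q E.1 E.2) (fun q => ty q E ≤ 1)
    (fun q => f (S.sx E (Function.update p a q)
      (S.Uk n E E' (Function.update p a q) lo lo' (k + 1)))) (f (s + 1)) (f (s - 1)) (f s)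
    (fun q hq h12 h3 => excl hTYZ (hS.lpr a q (hΛ q hq).1).1 (five_le hS (hΛ q hq).1) h3 h12)
    (fun q hq => ty_le_one hTYZ (hS.lpr a q (hΛ q hq).1).1 (five_le hS (hΛ q hq).1))
    (fun q => ∀ z : Sl E.1 E.2 (S.Dx E p U), Tz q z)
    (fun q hq h12 hT => by
      show f _ = _
      rw [(hA q hq h12).1 hT])
    (fun q hq h12 hT => by
      show f _ = _
      rw [(hA q hq h12).2 hT])
    (fun q hq h3 => by
      show f _ = _
      rw [hB q hq h3])
  have hcls := cls_eq (n := n) (E := E) (E' := E') (k := lo + k) hp hfs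
  have hsum : ∑ p' ∈ S.Om.filter (S.Rm n E E' (lo + k) p),
      f (S.sx E p' (S.Uk n E E' p' lo lo' (k + 1))) =
      ∑ q ∈ (S.Ls E' (S.K2 E E' p) p a).filter (fun q => ty q E ≤ 1),
        f (S.sx E (Function.update p a q)
          (S.Uk n E E' (Function.update p a q) lo lo' (k + 1))) := by
    rw [hcls, Finset.sum_image (fun x _ y _ h => upd_inj h)]
  have hcard : (S.Om.filter (S.Rm n E E' (lo + k) p)).card =
      ((S.Ls E' (S.K2 E E' p) p a).filter (fun q => ty q E ≤ 1)).card := by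
    rw [hcls, Finset.card_image_of_injective _ upd_inj]
  rw [hsum, hcard, k1, k2, hsx]
  have hcnt := hCNT η κ (S.r ^ 2) (S.D1 * ∏ j ∈ S.Jx E p ∪ U, p j) (S.Mx E p U)
    (S.Ls E' (S.K2 E E' p) p a) E s hη0 hnod hdz hDpos
    (fun q hq => ⟨(hS.lpr a q (hΛ q hq).1).1, five_le hS (hΛ q hq).1,
      not_dvd_dx hS hp E U haJ haU (hΛ q hq).1⟩) hs
  have hest := final_est (P := (1 / 2 : ℝ) ^ s) (η := η) (κ := κ)
    (M := ((S.Ls E' (S.K2 E E' p) p a).card : ℝ))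
    (n12 := (((S.Ls E' (S.K2 E E' p) p a).filter (fun q => Y12 q E.1 E.2)).card : ℝ))
    (n3 := (((S.Ls E' (S.K2 E E' p) p a).filter (fun q => Y3 q E.1 E.2)).card : ℝ))
    (c := (((S.Ls E' (S.K2 E E' p) p a).filter (fun q => Y12 q E.1 E.2 ∧
      ∀ z : Sl E.1 E.2 (S.Dx E p U), Tz q z)).card : ℝ))
    (f0 := f (s - 1)) (f1 := f s) (f2 := f (s + 1))
    (by positivity) (pow_le_one₀ (by norm_num) (by norm_num)) hκ0 hκ1 hη0 (Nat.cast_nonneg _)
    (Nat.cast_nonneg _) hnod.t12 hnod.t3 hcnt (hf _) (hf _) (hf _)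
  exact hest

end Pool.Agent.Lib.MP_8cb858_nt.PT
end
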