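import Pool.Agent.Lib.MP_8cb858_nt.PT.SpecE

/-!
# STZ: the step theorem over the rational numbers
-/

namespace Pool.Agent.Lib.MP_8cb858_nt.PT

open Polynomial NumberField IsDedekindDomain Pool.Agent.Lib.MP_8cb858_nt.SEL
open Pool.Agent.Lib.MP_8cb858_nt.PF
open scoped Classical WithZero

namespace STZM

abbrev Plc := HeightOneSpectrum (𝓞 ℚ)

/-- `D0` is good for `Q`. -/
def Gd (A B : ℚ) (D0 : ℕ) (Q : Finset Plc) : Prop :=
  ∀ z : Sel 2 (cur A B (D0 : ℚ)), (∀ v ∈ Q, Triv (a := A) (b := B) (D0 : ℚ) v z) → z = 0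

/-- All classes are trivial at `v`. -/
def Al (A B : ℚ) (D : ℕ) (v : Plc) : Prop :=
  ∀ z : Sel 2 (cur A B (D : ℚ)), Triv (a := A) (b := B) (D : ℚ) v z

/-- The order of the Selmer group. -/
noncomputable def Cd (A B : ℚ) (D : ℕ) : ℕ := Nat.card (Sel 2 (cur A B (D : ℚ)))

theorem cast_coe (a : ℤ) : (((a : 𝓞 ℚ) : 𝓞 ℚ) : ℚ) = (a : ℚ) := by
  exact map_intCast (algebraMap (𝓞 ℚ) ℚ) a

theorem dsc_cast (a b : ℤ) : dsc (a : 𝓞 ℚ) (b : 𝓞 ℚ) = ((dz a b : ℤ) : 𝓞 ℚ) := by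
  simp only [dsc, dz]
  push_cast
  ring

/-- the place of a prime number -/
noncomputable def pl (h : SpecPLQ) (p : ℕ) : Plc :=
  if hp : p.Prime then (h.ex p hp).choose else (h.ex 2 Nat.prime_two).choose

theorem pl_mem (h : SpecPLQ) {p : ℕ} (hp : p.Prime) : (p : 𝓞 ℚ) ∈ (pl h p).asIdeal := by
  rw [pl, dif_pos hp]
  exact (h.ex p hp).choose_spec

theorem pl_uni (h : SpecPLQ) {p : ℕ} (hp : p.Prime) {v : Plc} (hv : (p : 𝓞 ℚ) ∈ v.asIdeal) :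
    v = pl h p := h.uni p v (pl h p) hp hv (pl_mem h hp)

theorem mem1 (h : SpecPLQ) {p : ℕ} (hp : p.Prime) {v : Plc} (hv : (p : 𝓞 ℚ) ∈ v.asIdeal) (n : ℕ) :
    (n : 𝓞 ℚ) ∈ v.asIdeal ↔ p ∣ n := by
  have h1 := h.mem p v (n : ℤ) 1 hp hv
  rw [pow_one, pow_one, Int.natCast_dvd_natCast] at h1
  rw [← h1]
  simp

theorem pr_inj (h : SpecPLQ) {p q : ℕ} (hp : p.Prime) (hq : q.Prime) {v : Plc}
    (hv : (p : 𝓞 ℚ) ∈ v.asIdeal) (hv' : (q : 𝓞 ℚ) ∈ v.asIdeal) : p = q :=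
  (Nat.prime_dvd_prime_iff_eq hp hq).1 ((mem1 h hp hv q).1 hv')

theorem pl_inj (h : SpecPLQ) {p q : ℕ} (hp : p.Prime) (hq : q.Prime) (he : pl h p = pl h q) :
    p = q := pr_inj h hp hq (pl_mem h hp) (he ▸ pl_mem h hq)

theorem tz_iff (h : SpecPLQ) {a b : ℤ} {D p : ℕ} (hp : p.Prime) (z : Sl a b D) :
    Tz p z ↔ Triv (a := (a : ℚ)) (b := (b : ℚ)) (D : ℚ) (pl h p) z := by
  constructor
  · rintro ⟨v, hv, ht⟩
    rwa [pl_uni h hp hv] at ht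
  · intro ht
    exact ⟨_, pl_mem h hp, ht⟩

variable (h : SpecPLQ) {K Ds : ℕ} {Q P : Finset ℕ} {a b : ℤ}

theorem mem_M (hK : 0 < K) (v : Plc) {p : ℕ} (hp : p.Prime) (hv : (p : 𝓞 ℚ) ∈ v.asIdeal) :
    v ∈ K.primeFactors.image (pl h) ↔ p ∣ K := by
  rw [Finset.mem_image]
  constructor
  · rintro ⟨q, hq, rfl⟩
    have hq' := Nat.mem_primeFactors.1 hq
    rw [pr_inj h hp hq'.1 hv (pl_mem h hq'.1)]
    exact hq'.2.1
  · intro hd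
    exact ⟨p, Nat.mem_primeFactors.2 ⟨hp, hd, hK.ne'⟩, (pl_uni h hp hv).symm⟩

theorem cf (hT : SpecTYZ) (hc : Cfz K Q P a b) :
    Cf (K.primeFactors.image (pl h)) (Q.image (pl h)) (P.image (pl h)) (a : 𝓞 ℚ) (b : 𝓞 ℚ) := by
  have hK := hc.pos
  refine ⟨?_, ?_, ?_, ?_, ?_, ?_, ?_, ?_⟩
  · intro v h6
    obtain ⟨p, hp, hv⟩ := h.pr v
    rw [mem_M h hK v hp hv]
    have h6' : ((6 : ℕ) : 𝓞 ℚ) ∈ v.asIdeal := by exact_mod_cast h6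
    exact ((mem1 h hp hv 6).1 h6').trans hc.six
  · intro v hv hM
    obtain ⟨q, hq, rfl⟩ := Finset.mem_image.1 hv
    obtain ⟨hq1, hq2, -⟩ := hc.qp q hq
    exact hq2 ((mem_M h hK _ hq1 (pl_mem h hq1)).1 hM)
  · intro v hv hM
    obtain ⟨q, hq, rfl⟩ := Finset.mem_image.1 hv
    obtain ⟨hq1, hq2, -⟩ := hc.pp q hq
    exact hq2 ((mem_M h hK _ hq1 (pl_mem h hq1)).1 hM)
  · intro v hv hv'
    obtain ⟨q, hq, rfl⟩ := Finset.mem_image.1 hv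
    obtain ⟨p, hp, he⟩ := Finset.mem_image.1 hv'
    obtain ⟨hq1, hq2, hq3⟩ := hc.qp q hq
    obtain ⟨hp1, hp2, hp3⟩ := hc.pp p hp
    have hpq : p = q := pl_inj h hp1 hq1 he
    subst hpq
    have h5 : 5 ≤ p := by
      by_contra hlt
      push Not at hlt
      have h2 := hp1.two_le
      have : p = 2 ∨ p = 3 ∨ p = 4 := by omega
      rcases this with rfl | rfl | rfl
      · exact hq2 ((by norm_num : (2:ℕ) ∣ 6).trans hc.six)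
      · exact hq2 ((by norm_num : (3:ℕ) ∣ 6).trans hc.six)
      · exact absurd hp1 (by norm_num)
    have h1 := ((hT p hp1 h5).2.2.2 ((a : ZMod p), (b : ZMod p)) hp3).1
    apply hq3
    have : ((-dz a b : ℤ) : ZMod p) = -(4 * (a : ZMod p) ^ 3 + 27 * (b : ZMod p) ^ 2) := by
      simp only [dz]
      push_cast
      ring
    rw [this]
    exact h1
  · obtain ⟨p, hp⟩ := hc.ne
    exact ⟨_, Finset.mem_image_of_mem _ hp⟩
  · intro v hv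
    obtain ⟨q, hq, rfl⟩ := Finset.mem_image.1 hv
    obtain ⟨hq1, hq2, hq3⟩ := hc.qp q hq
    exact (h.y12 q _ a b hq1 (pl_mem h hq1)).1 hq3
  · intro v hv
    obtain ⟨q, hq, rfl⟩ := Finset.mem_image.1 hv
    obtain ⟨hq1, hq2, hq3⟩ := hc.pp q hq
    exact (h.y3 q _ a b hq1 (pl_mem h hq1)).1 hq3
  · intro v hv hd
    obtain ⟨p, hp, hpv⟩ := h.pr v
    rw [mem_M h hK v hp hpv] at hv
    rw [dsc_cast] at hd
    exact hc.sf p hp hv ((h.mem p v (dz a b) 2 hp hpv).1 hd)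

theorem ad (hc : Cfz K Q P a b) {T : Finset ℕ} (hTQ : T ⊆ Q) {D : ℕ} (hA : Adm K Ds P T D) :
    Ad (K.primeFactors.image (pl h)) (P.image (pl h)) (T.image (pl h)) Ds D := by
  have hK := hc.pos
  refine ⟨hA.pos, ?_, ?_, ?_⟩
  · intro v hv
    obtain ⟨p, hp, hpv⟩ := h.pr v
    rw [mem_M h hK v hp hpv] at hv
    exact hA.sq v ((mem1 h hp hpv K).2 hv)
  · intro v hv
    obtain ⟨p, hp, rfl⟩ := Finset.mem_image.1 hv
    have hp1 := (hc.qp p (hTQ hp)).1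
    exact ((h.nat p _ D hp1 (pl_mem h hp1)).2).1 (hA.ex p hp)
  · intro v h1 h2 h3
    obtain ⟨p, hp, hpv⟩ := h.pr v
    rw [mem_M h hK v hp hpv] at h1
    refine ((h.nat p _ D hp hpv).1).1 (hA.un p hp h1 (fun h4 => h2 ?_) fun h4 => h3 ?_)
    · rw [pl_uni h hp hpv]
      exact Finset.mem_image_of_mem _ h4
    · rw [pl_uni h hp hpv]
      exact Finset.mem_image_of_mem _ h4

theorem gd_iff (hq : ∀ p ∈ Q, p.Prime) (D : ℕ) :
    (∀ z : Sl a b D, (∀ p ∈ Q, Tz p z) → z = 0) ↔ Gd (a : ℚ) (b : ℚ) D (Q.image (pl h)) := by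
  refine forall_congr' fun z => imp_congr_left ?_
  constructor
  · intro h1 v hv
    obtain ⟨p, hp, rfl⟩ := Finset.mem_image.1 hv
    exact (tz_iff h (hq p hp) z).1 (h1 p hp)
  · intro h1 p hp
    exact (tz_iff h (hq p hp) z).2 (h1 _ (Finset.mem_image_of_mem _ hp))

theorem al_iff {p : ℕ} (hp : p.Prime) (D : ℕ) :
    (∀ z : Sl a b D, Tz p z) ↔ Al (a : ℚ) (b : ℚ) D (pl h p) :=
  forall_congr' fun z => tz_iff h hp z

end STZM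

open STZM in
theorem specSTEP (hSTH : SpecSTH) (hPLQ : SpecPLQ) (hRCQ : SpecRCQ) (hTYZ : SpecTYZ) :
    SpecSTEP := by
  intro K Ds Q P a b hc hDs hgood
  obtain ⟨D0, hA0, hg⟩ := hgood
  have hQp : ∀ p ∈ Q, p.Prime := fun p hp => (hc.qp p hp).1
  have hg' := (gd_iff hPLQ hQp D0).1 hg
  have hg2 : Gd (((a : 𝓞 ℚ) : 𝓞 ℚ) : ℚ) (((b : 𝓞 ℚ) : 𝓞 ℚ) : ℚ) D0 (Q.image (pl hPLQ)) := by
    rw [cast_coe, cast_coe]
    exact hg'
  have hA0' := ad hPLQ hc (Finset.empty_subset Q) hA0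
  rw [Finset.image_empty] at hA0'
  obtain ⟨h1, h2⟩ := hSTH ℚ (K.primeFactors.image (pl hPLQ)) (Q.image (pl hPLQ))
    (P.image (pl hPLQ)) Ds D0 (a : 𝓞 ℚ) (b : 𝓞 ℚ) (hRCQ _) (cf hPLQ hTYZ hc) hDs hA0' hg2
  have hcd : ∀ D : ℕ, Nat.card (Sel 2 (cN (a : 𝓞 ℚ) (b : 𝓞 ℚ) D)) = sc a b D := by
    intro D
    change Cd (((a : 𝓞 ℚ) : 𝓞 ℚ) : ℚ) (((b : 𝓞 ℚ) : 𝓞 ℚ) : ℚ) D = Cd (a : ℚ) (b : ℚ) D
    rw [cast_coe, cast_coe]
  refine ⟨?_, ?_⟩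
  · intro T hT D D' hD hD'
    have h3 := h1 (T.image (pl hPLQ)) (Finset.image_subset_image hT) D D' (ad hPLQ hc hT hD)
      (ad hPLQ hc hT hD')
    rwa [hcd, hcd] at h3
  · intro T hT v hv hvT D D' hD hD'
    have hvT' : pl hPLQ v ∉ T.image (pl hPLQ) := by
      intro h3
      obtain ⟨q, hq, he⟩ := Finset.mem_image.1 h3
      rw [pl_inj hPLQ (hQp q (hT hq)) (hQp v hv) he] at hq
      exact hvT hq
    have hD2 := ad hPLQ hc (Finset.insert_subset hv hT) hD'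
    rw [Finset.image_insert] at hD2
    have h3 := h2 (T.image (pl hPLQ)) (Finset.image_subset_image hT) (pl hPLQ v)
      (Finset.mem_image_of_mem _ hv) hvT' D D' (ad hPLQ hc hT hD) hD2
    have hal : (∀ z : Sel 2 (cN (a : 𝓞 ℚ) (b : 𝓞 ℚ) D), TrN D (pl hPLQ v) z) ↔
        ∀ z : Sl a b D, Tz v z := by
      rw [al_iff hPLQ (hQp v hv) D]
      change Al (((a : 𝓞 ℚ) : 𝓞 ℚ) : ℚ) (((b : 𝓞 ℚ) : 𝓞 ℚ) : ℚ) D (pl hPLQ v) ↔
        Al (a : ℚ) (b : ℚ) D (pl hPLQ v)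
      rw [cast_coe, cast_coe]
    rw [hcd, hcd] at h3
    exact ⟨fun h4 => h3.1 (hal.2 h4), fun h4 => h3.2 fun h5 => h4 (hal.1 h5)⟩

end Pool.Agent.Lib.MP_8cb858_nt.PT
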