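import Pool.Agent.Lib.MP_8cb858_nt.PT.SpecQ

/-!
# TGP: tightness (Theorem S*)

From TGT (the abstract inequality), TGS (the step), JST (the start), IVT and EQR (invariance).
-/

namespace Pool.Agent.Lib.MP_8cb858_nt.PT

open Polynomial NumberField IsDedekindDomain Pool.Agent.Lib.MP_8cb858_nt.SEL
open Pool.Agent.Lib.MP_8cb858_nt.PF
open scoped Classical WithZero

namespace TGPM

/-- The set `U_i`. -/
noncomputable def Ui (S : Dat) (n : ℕ) (E E' : ℤ × ℤ) (lo lo' : ℕ) (i : ℕ) (p : Fin S.r → ℕ) :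
    Finset (Fin S.r) :=
  (S.Ux E p).filter (fun j => j.val < i ∧ j ∉ S.Ax n E E' p lo lo')

/-- The index `i` is active. -/
def act (S : Dat) (n : ℕ) (E E' : ℤ × ℤ) (lo lo' : ℕ) (i : ℕ) (p : Fin S.r → ℕ) : Prop :=
  ∃ h : i < S.r, (⟨i, h⟩ : Fin S.r) ∈ S.Ux E p ∧ (⟨i, h⟩ : Fin S.r) ∉ S.Ax n E E' p lo lo'

/-- The good event up to `i`. -/
structure Gd (S : Dat) (n : ℕ) (η κ : ℝ) (E E' : ℤ × ℤ) (lo lo' : ℕ) (i : ℕ)
    (p : Fin S.r → ℕ) : Prop where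
  bad : ∀ j, ty (p j) E ≠ 3
  t12 : 48 * S.r ≤ 100 * (S.Ux E p).card
  t111 : 100 * (S.Jx E p).card ≤ 17 * S.r
  aux : Y3 (mx (S.mm S.K0 (cl S.K0 (∏ j, p j))) E) E.1 E.2
  base : (sc E.1 E.2 (S.D1 * mx (S.mm S.K0 (cl S.K0 (∏ j, p j))) E) : ℝ) ≤
    2 ^ ((1 / 20 : ℝ) * S.r)
  aok : S.Aok E p ∅
  nd : ∀ j : Fin S.r, j.val ≤ i → j ∉ S.Jx E p →
    S.Nd η κ E E' p (S.Kx E p) j (Ui S n E E' lo lo' j.val p) ∧
    S.Nd η κ E E' p (S.Kx E p) j ∅ ∧ S.Aok E p (insert j (Ui S n E E' lo lo' j.val p))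

/-- `Nal` gives the nodes. -/
lemma nd_of_Nal {S : Dat} {η κ : ℝ} {E E' : ℤ × ℤ} {p : Fin S.r → ℕ} (h : S.Nal η κ E E' p)
    (j : Fin S.r) (U : Finset (Fin S.r)) (hj : j ∉ S.Jx E p) (hU : j ∉ U) :
    S.Nd η κ E E' p (S.Kx E p) j U := by
  have h1 : j ∉ S.Jx E p ∪ U := by
    rw [Finset.mem_union]; tauto
  have h2 : Disjoint (S.Jx E p) (Finset.univ \ (S.Jx E p ∪ U)) := by
    rw [Finset.disjoint_left]
    intro a ha hb
    rw [Finset.mem_sdiff, Finset.mem_union] at hb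
    tauto
  exact h j (S.Jx E p) (S.Jx E p ∪ U) (S.Jx E p) (Finset.univ \ (S.Jx E p ∪ U)) hj h1 h2

/-- `Nal` gives the auxiliary primes. -/
lemma aok_of_Nal {S : Dat} {η κ : ℝ} {E E' : ℤ × ℤ} {p : Fin S.r → ℕ} (h : S.Nal η κ E E' p)
    (hr : 0 < S.r) (U : Finset (Fin S.r)) : S.Aok E p U := by
  have h2 : Disjoint (S.Jx E p) (Finset.univ \ (S.Jx E p ∪ U)) := by
    rw [Finset.disjoint_left]
    intro a ha hb
    rw [Finset.mem_sdiff, Finset.mem_union] at hb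
    tauto
  exact (h ⟨0, hr⟩ ∅ ∅ (S.Jx E p) (Finset.univ \ (S.Jx E p ∪ U)) (Finset.notMem_empty _)
    (Finset.notMem_empty _) h2).aux

lemma Gd_of_Gh {S : Dat} {n : ℕ} {η κ : ℝ} {E E' : ℤ × ℤ} {lo : ℕ} {p : Fin S.r → ℕ}
    (h : S.Gh n η κ lo E E' p) (hr : 0 < S.r) (lo' i : ℕ) :
    Gd S n η κ E E' lo lo' i p := by
  refine ⟨h.bad, h.t12, h.t111, h.aux, h.base, aok_of_Nal h.nod hr ∅, ?_⟩
  intro j _ hj
  refine ⟨nd_of_Nal h.nod j _ hj ?_, nd_of_Nal h.nod j ∅ hj (Finset.notMem_empty _),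
    aok_of_Nal h.nod hr _⟩
  unfold Ui
  rw [Finset.mem_filter]
  rintro ⟨_, h1, _⟩
  exact lt_irrefl _ h1

lemma Gd_mono {S : Dat} {n : ℕ} {η κ : ℝ} {E E' : ℤ × ℤ} {lo lo' i : ℕ} {p : Fin S.r → ℕ}
    (h : Gd S n η κ E E' lo lo' (i + 1) p) : Gd S n η κ E E' lo lo' i p :=
  ⟨h.bad, h.t12, h.t111, h.aux, h.base, h.aok, fun j hj => h.nd j (by omega)⟩

/-- The sets `U_j` are the same. -/
lemma Ui_congr {S : Dat} {n : ℕ} {E E' : ℤ × ℤ} {lo lo' : ℕ} {p p' : Fin S.r → ℕ}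
    (hU : S.Ux E p = S.Ux E p') (hA : S.Ax n E E' p lo lo' = S.Ax n E E' p' lo lo') (j : ℕ) :
    Ui S n E E' lo lo' j p = Ui S n E E' lo lo' j p' := by
  unfold Ui
  rw [hU, hA]

lemma act_congr {S : Dat} {n : ℕ} {E E' : ℤ × ℤ} {lo lo' : ℕ} {p p' : Fin S.r → ℕ}
    (hU : S.Ux E p = S.Ux E p') (hA : S.Ax n E E' p lo lo' = S.Ax n E E' p' lo lo') (j : ℕ) :
    act S n E E' lo lo' j p ↔ act S n E E' lo lo' j p' := by
  unfold act
  rw [hU, hA]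

/-- The nodes are the same. -/
lemma Nd_congr {S : Dat} {η κ : ℝ} {E E' : ℤ × ℤ} {p p' : Fin S.r → ℕ} {i : Fin S.r}
    (hp : ∀ j, j ≠ i → p j = p' j) (hJ : S.Jx E p = S.Jx E p') (hK : S.Kx E p = S.Kx E p')
    (hi : i ∉ S.Jx E p) (hty : ty (p i) E' = ty (p' i) E')
    (hcl : cl (S.Kx E p) (p i) = cl (S.Kx E p) (p' i)) (U : Finset (Fin S.r))
    (hM : S.Mx E p U = S.Mx E p' U) (hU : i ∉ U) (j : Fin S.r)
    (h : S.Nd η κ E E' p (S.Kx E p) j U) : S.Nd η κ E E' p' (S.Kx E p') j U := by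
  unfold Dat.Nd at h ⊢
  have h1 : ∏ l ∈ S.Jx E p ∪ U, p l = ∏ l ∈ S.Jx E p' ∪ U, p' l := by
    rw [← hJ]
    refine Finset.prod_congr rfl (fun l hl => hp l ?_)
    rintro rfl
    rw [Finset.mem_union] at hl
    tauto
  have h2 : S.Ls E' (S.Kx E p) p j = S.Ls E' (S.Kx E p') p' j := by
    unfold Dat.Ls
    rw [← hK]
    by_cases hj : j = i
    · rw [hj, hty, hcl]
    · rw [hp j hj]
  rw [h1, hM, h2] at h
  exact h

/-- Invariance of the good event. -/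
lemma Gd_inv (hIVT : SpecIVT) (hEQR : SpecEQR) {S : Dat} {n : ℕ} {η κ : ℝ} {E E' : ℤ × ℤ}
    {lo lo' i : ℕ} {p p' : Fin S.r → ℕ} (hS : S.Ok) (hp : p ∈ S.Om) (hp' : p' ∈ S.Om)
    (hR : S.Rt E E' i p p') (h : Gd S n η κ E E' lo lo' i p) :
    Gd S n η κ E E' lo lo' i p' := by
  obtain ⟨hty, hJ, hU, hK, hA⟩ := hEQR.rtv S E E' i p p' hR
  rcases hR with rfl | ⟨hi, h1, h2, h3, h4, h5⟩
  · exact h
  have h6 : ty (p' ⟨i, hi⟩) E ≠ 2 := by rw [← h2]; exact h4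
  obtain ⟨-, -, hM, -, hc⟩ := hIVT S E p p' ⟨i, hi⟩ hS hp hp' h1 h4 h6 h5
  have hiJ : (⟨i, hi⟩ : Fin S.r) ∉ S.Jx E p := by
    unfold Dat.Jx
    rw [Finset.mem_filter]
    rintro ⟨_, h7⟩
    exact h4 h7
  refine ⟨fun j => ?_, ?_, ?_, ?_, ?_, ?_, ?_⟩
  · rw [← (hty j).1]; exact h.bad j
  · rw [← hU]; exact h.t12
  · rw [← hJ]; exact h.t111
  · rw [← hc]; exact h.aux
  · rw [← hc]; exact h.base
  · exact (hM ∅).2.1 h.aok
  · intro j hj hjJ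
    rw [← hJ] at hjJ
    obtain ⟨g1, g2, g3⟩ := h.nd j hj hjJ
    rw [← Ui_congr hU (hA n lo lo') j.val]
    have hiU : (⟨i, hi⟩ : Fin S.r) ∉ Ui S n E E' lo lo' j.val p := by
      unfold Ui
      rw [Finset.mem_filter]
      rintro ⟨_, h7, _⟩
      exact absurd h7 (not_lt.mpr hj)
    exact ⟨Nd_congr h1 hJ hK hiJ h3 h5 _ (hM _).1 hiU j g1,
      Nd_congr h1 hJ hK hiJ h3 h5 ∅ (hM _).1 (Finset.notMem_empty _) j g2, (hM _).2.1 g3⟩

/-- Invariance of the dimensions. -/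
lemma sx_inv (hIVT : SpecIVT) (hEQR : SpecEQR) {S : Dat} {n : ℕ} {E E' : ℤ × ℤ}
    {lo lo' i : ℕ} {p p' : Fin S.r → ℕ} (hS : S.Ok) (hp : p ∈ S.Om) (hp' : p' ∈ S.Om)
    (hR : S.Rt E E' i p p') (j : ℕ) (hj : j ≤ i) :
    S.sx E p (Ui S n E E' lo lo' j p) = S.sx E p' (Ui S n E E' lo lo' j p') := by
  obtain ⟨hty, hJ, hU, hK, hA⟩ := hEQR.rtv S E E' i p p' hR
  rw [← Ui_congr hU (hA n lo lo') j]
  rcases hR with rfl | ⟨hi, h1, h2, h3, h4, h5⟩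
  · rfl
  have h6 : ty (p' ⟨i, hi⟩) E ≠ 2 := by rw [← h2]; exact h4
  obtain ⟨-, -, -, hD, -⟩ := hIVT S E p p' ⟨i, hi⟩ hS hp hp' h1 h4 h6 h5
  refine (hD _ ?_).2
  unfold Ui
  rw [Finset.mem_filter]
  rintro ⟨_, h7, _⟩
  exact absurd h7 (not_lt.mpr hj)

/-- Not active: the set does not change. -/
lemma Ui_not_act {S : Dat} {n : ℕ} {E E' : ℤ × ℤ} {lo lo' i : ℕ} {p : Fin S.r → ℕ}
    (h : ¬ act S n E E' lo lo' i p) : Ui S n E E' lo lo' (i + 1) p = Ui S n E E' lo lo' i p := by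
  unfold Ui
  ext j
  rw [Finset.mem_filter, Finset.mem_filter]
  constructor
  · rintro ⟨h1, h2, h3⟩
    refine ⟨h1, ?_, h3⟩
    by_contra h4
    apply h
    have h5 : j.val = i := by omega
    subst h5
    exact ⟨j.isLt, h1, h3⟩
  · rintro ⟨h1, h2, h3⟩
    exact ⟨h1, by omega, h3⟩

/-- Active: the new set. -/
lemma Ui_act {S : Dat} {n : ℕ} {E E' : ℤ × ℤ} {lo lo' i : ℕ} {p : Fin S.r → ℕ} (hi : i < S.r)
    (h : act S n E E' lo lo' i p) :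
    Ui S n E E' lo lo' (i + 1) p = insert ⟨i, hi⟩ (Ui S n E E' lo lo' i p) := by
  obtain ⟨_, h1, h2⟩ := h
  unfold Ui
  ext j
  rw [Finset.mem_insert, Finset.mem_filter, Finset.mem_filter]
  constructor
  · rintro ⟨g1, g2, g3⟩
    by_cases h4 : j.val = i
    · left
      exact Fin.ext h4
    · right
      exact ⟨g1, by omega, g3⟩
  · rintro (rfl | ⟨g1, g2, g3⟩)
    · exact ⟨h1, Nat.lt_succ_self _, h2⟩
    · exact ⟨g1, by omega, g3⟩

lemma Ui_zero (S : Dat) (n : ℕ) (E E' : ℤ × ℤ) (lo lo' : ℕ) (p : Fin S.r → ℕ) :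
    Ui S n E E' lo lo' 0 p = ∅ := by
  unfold Ui
  rw [Finset.filter_eq_empty_iff]
  rintro j _ ⟨h1, _⟩
  exact absurd h1 (Nat.not_lt_zero _)

lemma Ui_last (S : Dat) (n : ℕ) (E E' : ℤ × ℤ) (lo lo' : ℕ) (p : Fin S.r → ℕ) :
    Ui S n E E' lo lo' S.r p = S.Uk n E E' p lo lo' 0 := by
  unfold Ui Dat.Uk Dat.As
  ext j
  rw [Finset.mem_filter, Finset.mem_filter]
  simp

/-- The numerical inequality. -/
lemma num (s N J r n : ℕ) (ρ : ℝ) (hρ : 0 ≤ ρ) (hρ2 : ρ ≤ 52 / 100)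
    (hs : (2 : ℝ) ^ s ≤ 4 ^ J * 2 ^ ((1 / 20 : ℝ) * r)) (hJ : 100 * J ≤ 17 * r)
    (hN : 48 * r ≤ 100 * (N + 2 * n)) (hn : 40 * n ≤ r) : (2 : ℝ) ^ s * ρ ^ N ≤ 1 := by
  have h1 : 100 * s ≤ 39 * r := by
    have h2 : (2 : ℝ) ^ (s : ℝ) ≤ (2 : ℝ) ^ (2 * (J : ℝ) + (1 / 20 : ℝ) * r) := by
      rw [Real.rpow_natCast, Real.rpow_add (by norm_num), Real.rpow_mul (by norm_num),
        Real.rpow_natCast]
      have h3 : (2 : ℝ) ^ (2 : ℝ) = 4 := by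
        rw [show (2 : ℝ) ^ (2 : ℝ) = (2 : ℝ) ^ (2 : ℕ) by exact_mod_cast Real.rpow_natCast 2 2]
        norm_num
      rw [h3]
      exact hs
    have h4 : (s : ℝ) ≤ 2 * (J : ℝ) + (1 / 20 : ℝ) * r :=
      (Real.rpow_le_rpow_left_iff (by norm_num)).mp h2
    have h5 : (100 : ℝ) * J ≤ 17 * r := by exact_mod_cast hJ
    have h6 : (100 : ℝ) * s ≤ 39 * r := by linarith only [h4, h5]
    exact_mod_cast h6
  have h2 : 43 * r ≤ 100 * N := by omega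
  have h3 : ((2 : ℝ) ^ s * ρ ^ N) ^ 100 ≤ 1 := by
    have h4 : ((2 : ℝ) ^ s * ρ ^ N) ^ 100 = 2 ^ (100 * s) * ρ ^ (100 * N) := by
      rw [mul_pow, ← pow_mul, ← pow_mul, mul_comm s, mul_comm N]
    rw [h4]
    have h5 : (2 : ℝ) ^ (100 * s) ≤ 2 ^ (39 * r) := pow_le_pow_right₀ (by norm_num) h1
    have h6 : ρ ^ (100 * N) ≤ (52 / 100 : ℝ) ^ (43 * r) :=
      calc ρ ^ (100 * N) ≤ (52 / 100 : ℝ) ^ (100 * N) := pow_le_pow_left₀ hρ hρ2 _
        _ ≤ (52 / 100 : ℝ) ^ (43 * r) := pow_le_pow_of_le_one (by norm_num) (by norm_num) h2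
    calc (2 : ℝ) ^ (100 * s) * ρ ^ (100 * N) ≤ 2 ^ (39 * r) * (52 / 100 : ℝ) ^ (43 * r) :=
          mul_le_mul h5 h6 (pow_nonneg hρ _) (by positivity)
      _ = (2 ^ 39 * (52 / 100 : ℝ) ^ 43) ^ r := by
          rw [mul_pow, ← pow_mul, ← pow_mul]
      _ ≤ 1 := pow_le_one₀ (by positivity) (by norm_num)
  have h7 : 0 ≤ (2 : ℝ) ^ s * ρ ^ N := mul_nonneg (by positivity) (pow_nonneg hρ _)
  exact (pow_le_one_iff_of_nonneg h7 (by norm_num)).mp h3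

/-- The number of active indices. -/
lemma card_act (hEQR : SpecEQR) (S : Dat) (n : ℕ) (E E' : ℤ × ℤ) (lo lo' : ℕ)
    (p : Fin S.r → ℕ) : (S.Ux E p).card ≤
      ((Finset.range S.r).filter (fun j => act S n E E' lo lo' j p)).card + 2 * n := by
  have h1 : (S.Ux E p).card ≤ (S.Ux E p \ S.Ax n E E' p lo lo').card +
      (S.Ax n E E' p lo lo').card := by
    have := Finset.card_le_card_sdiff_add_card (s := S.Ux E p) (t := S.Ax n E E' p lo lo')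
    exact this
  have h2 : (S.Ux E p \ S.Ax n E E' p lo lo').card ≤
      ((Finset.range S.r).filter (fun j => act S n E E' lo lo' j p)).card := by
    rw [← Finset.card_image_of_injective (S.Ux E p \ S.Ax n E E' p lo lo') Fin.val_injective]
    apply Finset.card_le_card
    intro j hj
    rw [Finset.mem_image] at hj
    obtain ⟨a, ha, rfl⟩ := hj
    rw [Finset.mem_sdiff] at ha
    rw [Finset.mem_filter, Finset.mem_range]
    exact ⟨a.isLt, a.isLt, ha.1, ha.2⟩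
  have h3 := hEQR.cardA S n E E' p lo lo'
  omega

end TGPM

open TGPM in
theorem specTGP (hTGT : SpecTGT) (hTGS : SpecTGS) (hJST : SpecJST) (hIVT : SpecIVT)
    (hEQR : SpecEQR) : SpecTGP := by
  intro S n η κ E E' lo lo' hS hn hr hη hη2 hκ hSf hdz hlo
  have hη3 : η < 1 / 2 := by linarith only [hη2]
  have key := hTGT (Fin S.r → ℕ) S.Om S.r (fun i => S.Rt E E' i)
    (fun i p => S.sx E p (Ui S n E E' lo lo' i p)) (fun i p => act S n E E' lo lo' i p)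
    (fun i p => Gd S n η κ E E' lo lo' i p) (1 / 2 + 3 * η) (by linarith only [hη])
    (by linarith only [hη2]) (fun i => hEQR.rt S E E' i) ?_ ?_ ?_ ?_ ?_
  · refine le_trans ?_ key
    have h1 : S.Om.filter (S.Gh n η κ lo E E') ⊆
        S.Om.filter (fun p => Gd S n η κ E E' lo lo' S.r p) := by
      intro p hp
      rw [Finset.mem_filter] at hp ⊢
      exact ⟨hp.1, Gd_of_Gh hp.2 hS.rp lo' S.r⟩
    refine le_trans (le_of_eq ?_) (Finset.sum_le_sum_of_subset_of_nonneg h1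
      (fun p _ _ => by positivity))
    refine Finset.sum_congr rfl (fun p _ => ?_)
    simp only [Ui_last]
  · intro i hi p hp p' hp' hR
    obtain ⟨hty, hJ, hU, hK, hA⟩ := hEQR.rtv S E E' i p p' hR
    refine ⟨fun j _ => act_congr hU (hA n lo lo') j,
      fun j hj => sx_inv hIVT hEQR hS hp hp' hR j hj, ?_, ?_⟩
    · exact Gd_inv hIVT hEQR hS hp hp' hR
    · exact Gd_inv hIVT hEQR hS hp' hp ((hEQR.rt S E E' i).symm hR)
  · intro i hi p hp _ hact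
    simp only [Ui_not_act hact]
  · intro i hi p hp hG hact
    have hact' := hact
    obtain ⟨_, hiU, hiA⟩ := hact'
    have hiJ : (⟨i, hi⟩ : Fin S.r) ∉ S.Jx E p := by
      unfold Dat.Jx
      unfold Dat.Ux at hiU
      rw [Finset.mem_filter] at hiU ⊢
      rintro ⟨_, h7⟩
      rw [hiU.2] at h7
      exact absurd h7 (by norm_num)
    obtain ⟨g1, g2, g3⟩ := hG.nd ⟨i, hi⟩ (le_refl _) hiJ
    have hiN : (⟨i, hi⟩ : Fin S.r) ∉ Ui S n E E' lo lo' i p := by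
      unfold Ui
      rw [Finset.mem_filter]
      rintro ⟨_, h7, _⟩
      exact lt_irrefl _ h7
    have h1 := hTGS S η κ E E' p ⟨i, hi⟩ (Ui S n E E' lo lo' i p) hS hp hη hη3 hκ hSf hdz hG.bad
      (Finset.filter_subset _ _) hiU hiN g1 g2 g3
    refine le_trans (le_of_eq ?_) h1
    refine Finset.sum_congr rfl (fun p' hp' => ?_)
    rw [Finset.mem_filter] at hp'
    obtain ⟨hty, hJ, hU, hK, hA⟩ := hEQR.rtv S E E' i p p' hp'.2
    have h2 : Ui S n E E' lo lo' (i + 1) p' = insert ⟨i, hi⟩ (Ui S n E E' lo lo' i p) := by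
      rw [← Ui_congr hU (hA n lo lo') (i + 1)]
      exact Ui_act hi hact
    simp only [h2]
  · intro i hi p hp hG
    exact Gd_mono hG
  · intro p hp hG
    simp only [Ui_zero]
    have h1 := hJST S E p hS hp hSf hdz hG.aok hG.aux
    have h2 : (2 : ℝ) ^ S.sx E p ∅ ≤ 4 ^ (S.Jx E p).card * 2 ^ ((1 / 20 : ℝ) * S.r) := by
      by_cases h3 : sc E.1 E.2 (S.Dx E p ∅) = 0
      · have h4 : S.sx E p ∅ = 0 := by
          unfold Dat.sx
          rw [h3, Nat.log_zero_right]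
        rw [h4, pow_zero]
        have h5 : (1 : ℝ) ≤ 4 ^ (S.Jx E p).card := one_le_pow₀ (by norm_num)
        have h6 : (1 : ℝ) ≤ 2 ^ ((1 / 20 : ℝ) * S.r) :=
          Real.one_le_rpow (by norm_num) (by positivity)
        nlinarith only [h5, h6]
      · have h4 : 2 ^ S.sx E p ∅ ≤ sc E.1 E.2 (S.Dx E p ∅) := Nat.pow_log_le_self 2 h3
        have h5 : ((2 ^ S.sx E p ∅ : ℕ) : ℝ) ≤ ((4 ^ (S.Jx E p).card *
            sc E.1 E.2 (S.D1 * mx (S.mm S.K0 (cl S.K0 (∏ j, p j))) E) : ℕ) : ℝ) := by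
          exact_mod_cast le_trans h4 h1
        push_cast at h5
        refine le_trans h5 ?_
        exact mul_le_mul_of_nonneg_left hG.base (by positivity)
    have h3 := card_act hEQR S n E E' lo lo' p
    have h4 := hG.t12
    exact num _ _ _ S.r n _ (by linarith only [hη]) (by linarith only [hη2]) h2 hG.t111
      (by omega) hr

end Pool.Agent.Lib.MP_8cb858_nt.PT
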