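import Pool.Agent.Lib.MP_8cb858_nt.PR.SpecDN
import Pool.Agent.Lib.MP_8cb858_nt.PT.SpecF

section
namespace Pool.Agent.Lib.MP_8cb858_nt.PR

open scoped Classical

namespace DNBM

theorem gen (M : ℕ) (hM : 0 < M) (r c d : ℤ) :
    ((fun x : ℤ => r + M * x) '' ((Finset.Ioc c d : Finset ℤ) : Set ℤ)).ncard = (d - c).toNat := by
  have hinj : Function.Injective (fun x : ℤ => r + M * x) := by
    intro x y h
    have h1 : r + M * x = r + M * y := h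
    have h2 : (M : ℤ) * x = M * y := by linarith
    exact mul_left_cancel₀ (by exact_mod_cast hM.ne') h2
  rw [Set.ncard_image_of_injective _ hinj, Set.ncard_coe_finset, Int.card_Ioc]

theorem cls (M : ℕ) (r : ZMod M) : ∃ r' : ℤ, (r' : ZMod M) = r :=
  ZMod.intCast_surjective r

theorem img (M : ℕ) (r' : ℤ) (P : ℤ → Prop) (c d : ℤ)
    (h : ∀ x : ℤ, P (r' + M * x) ↔ c < x ∧ x ≤ d) :
    {a : ℤ | P a ∧ (a : ZMod M) = (r' : ZMod M)} =
      (fun x : ℤ => r' + M * x) '' ((Finset.Ioc c d : Finset ℤ) : Set ℤ) := by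
  ext a
  simp only [Set.mem_ofPred_eq, Set.mem_image, Finset.coe_Ioc, Set.mem_Ioc]
  constructor
  · rintro ⟨hP, ha⟩
    have h1 : ((a - r' : ℤ) : ZMod M) = 0 := by push_cast; rw [ha, sub_self]
    rw [ZMod.intCast_zmod_eq_zero_iff_dvd] at h1
    obtain ⟨x, hx⟩ := h1
    have h2 : r' + M * x = a := by linarith
    exact ⟨x, (h x).1 (by rw [h2]; exact hP), h2⟩
  · rintro ⟨x, hx, rfl⟩
    refine ⟨(h x).2 hx, ?_⟩
    push_cast
    simp

theorem cA (M : ℕ) (hM : 0 < M) (r : ZMod M) (U : ℝ) (hU : 0 ≤ U) :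
    {a : ℤ | (0 < a ∧ (a : ℝ) ≤ U) ∧ (a : ZMod M) = r}.Finite ∧
    U / M - 1 ≤ ({a : ℤ | (0 < a ∧ (a : ℝ) ≤ U) ∧ (a : ZMod M) = r}.ncard : ℝ) ∧
    ({a : ℤ | (0 < a ∧ (a : ℝ) ≤ U) ∧ (a : ZMod M) = r}.ncard : ℝ) ≤ U / M + 1 := by
  obtain ⟨r', rfl⟩ := cls M r
  have hM' : (0 : ℝ) < M := by exact_mod_cast hM
  rw [img M r' (fun a => 0 < a ∧ (a : ℝ) ≤ U) ⌊(-(r' : ℝ)) / M⌋ ⌊(U - r') / M⌋]
  · refine ⟨Set.Finite.image _ (Finset.finite_toSet _), ?_, ?_⟩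
    · rw [gen M hM]
      have h1 := Int.self_le_toNat (⌊(U - (r' : ℝ)) / M⌋ - ⌊(-(r' : ℝ)) / M⌋)
      have h2 : ((⌊(U - (r' : ℝ)) / M⌋ - ⌊(-(r' : ℝ)) / M⌋ : ℤ) : ℝ) ≤
          (((⌊(U - (r' : ℝ)) / M⌋ - ⌊(-(r' : ℝ)) / M⌋ : ℤ).toNat : ℕ) : ℝ) := by
        exact_mod_cast h1
      refine le_trans ?_ h2
      push_cast
      have h3 := Int.sub_one_lt_floor ((U - (r' : ℝ)) / M)
      have h4 := Int.floor_le ((-(r' : ℝ)) / M)
      have h5 : (U - (r' : ℝ)) / M = U / M + (-(r' : ℝ)) / M := by ring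
      linarith
    · rw [gen M hM]
      have h3 := Int.floor_le ((U - (r' : ℝ)) / M)
      have h4 := Int.sub_one_lt_floor ((-(r' : ℝ)) / M)
      have h5 : (U - (r' : ℝ)) / M = U / M + (-(r' : ℝ)) / M := by ring
      have h6 : 0 ≤ U / M := div_nonneg hU hM'.le
      rcases le_total 0 (⌊(U - (r' : ℝ)) / M⌋ - ⌊(-(r' : ℝ)) / M⌋) with h | h
      · have h7 : ((((⌊(U - (r' : ℝ)) / M⌋ - ⌊(-(r' : ℝ)) / M⌋ : ℤ).toNat : ℕ) : ℤ) : ℝ) =
            ((⌊(U - (r' : ℝ)) / M⌋ - ⌊(-(r' : ℝ)) / M⌋ : ℤ) : ℝ) := by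
          rw [Int.toNat_of_nonneg h]
        have h8 : (((⌊(U - (r' : ℝ)) / M⌋ - ⌊(-(r' : ℝ)) / M⌋ : ℤ).toNat : ℕ) : ℝ) =
            (⌊(U - (r' : ℝ)) / M⌋ : ℝ) - (⌊(-(r' : ℝ)) / M⌋ : ℝ) := by
          have := h7
          push_cast at this
          exact_mod_cast this
        rw [h8]
        linarith
      · rw [Int.toNat_of_nonpos h]
        push_cast
        linarith
  · intro x
    rw [Int.floor_lt, Int.le_floor, div_lt_iff₀ hM', le_div_iff₀ hM']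
    constructor
    · rintro ⟨h1, h2⟩
      have h1' : (0 : ℝ) < ((r' + M * x : ℤ) : ℝ) := by exact_mod_cast h1
      push_cast at h1' h2
      constructor <;> linarith
    · rintro ⟨h1, h2⟩
      constructor
      · have : (0 : ℝ) < ((r' + M * x : ℤ) : ℝ) := by push_cast; linarith
        exact_mod_cast this
      · push_cast; linarith

theorem cB (M : ℕ) (hM : 0 < M) (r : ZMod M) (V : ℝ) (hV : 0 ≤ V) :
    {a : ℤ | |(a : ℝ)| ≤ V ∧ (a : ZMod M) = r}.Finite ∧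
    2 * V / M - 1 ≤ ({a : ℤ | |(a : ℝ)| ≤ V ∧ (a : ZMod M) = r}.ncard : ℝ) ∧
    ({a : ℤ | |(a : ℝ)| ≤ V ∧ (a : ZMod M) = r}.ncard : ℝ) ≤ 2 * V / M + 1 := by
  obtain ⟨r', rfl⟩ := cls M r
  have hM' : (0 : ℝ) < M := by exact_mod_cast hM
  rw [img M r' (fun a => |(a : ℝ)| ≤ V) (⌈(-V - (r' : ℝ)) / M⌉ - 1) ⌊(V - r') / M⌋]
  · have h5 : (V - (r' : ℝ)) / M = 2 * V / M + (-V - (r' : ℝ)) / M := by ring
    have e1 : (⌊(V - (r' : ℝ)) / M⌋ : ℝ) ≤ (V - (r' : ℝ)) / M := Int.floor_le _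
    have e2 : (V - (r' : ℝ)) / M - 1 < (⌊(V - (r' : ℝ)) / M⌋ : ℝ) := Int.sub_one_lt_floor _
    have e3 : (-V - (r' : ℝ)) / M ≤ (⌈(-V - (r' : ℝ)) / M⌉ : ℝ) := Int.le_ceil _
    have e4 : (⌈(-V - (r' : ℝ)) / M⌉ : ℝ) < (-V - (r' : ℝ)) / M + 1 := Int.ceil_lt_add_one _
    have h6 : 0 ≤ 2 * V / M := div_nonneg (by linarith) hM'.le
    refine ⟨Set.Finite.image _ (Finset.finite_toSet _), ?_, ?_⟩
    · rw [gen M hM]
      have h1 := Int.self_le_toNat (⌊(V - (r' : ℝ)) / M⌋ - (⌈(-V - (r' : ℝ)) / M⌉ - 1))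
      have h2 : ((⌊(V - (r' : ℝ)) / M⌋ - (⌈(-V - (r' : ℝ)) / M⌉ - 1) : ℤ) : ℝ) ≤
          (((⌊(V - (r' : ℝ)) / M⌋ - (⌈(-V - (r' : ℝ)) / M⌉ - 1) : ℤ).toNat : ℕ) : ℝ) := by
        exact_mod_cast h1
      refine le_trans ?_ h2
      push_cast
      linarith
    · rw [gen M hM]
      rcases le_total 0 (⌊(V - (r' : ℝ)) / M⌋ - (⌈(-V - (r' : ℝ)) / M⌉ - 1)) with h | h
      · have h7 : ((((⌊(V - (r' : ℝ)) / M⌋ - (⌈(-V - (r' : ℝ)) / M⌉ - 1) : ℤ).toNat : ℕ) : ℤ) : ℝ) =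
            ((⌊(V - (r' : ℝ)) / M⌋ - (⌈(-V - (r' : ℝ)) / M⌉ - 1) : ℤ) : ℝ) := by
          rw [Int.toNat_of_nonneg h]
        have h8 : (((⌊(V - (r' : ℝ)) / M⌋ - (⌈(-V - (r' : ℝ)) / M⌉ - 1) : ℤ).toNat : ℕ) : ℝ) =
            (⌊(V - (r' : ℝ)) / M⌋ : ℝ) - ((⌈(-V - (r' : ℝ)) / M⌉ : ℝ) - 1) := by
          have := h7
          push_cast at this
          exact_mod_cast this
        rw [h8]
        linarith
      · rw [Int.toNat_of_nonpos h]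
        push_cast
        linarith
  · intro x
    rw [Int.sub_one_lt_iff, Int.ceil_le, Int.le_floor, div_le_iff₀ hM', le_div_iff₀ hM', abs_le]
    push_cast
    constructor
    · rintro ⟨h1, h2⟩
      constructor <;> linarith
    · rintro ⟨h1, h2⟩
      constructor <;> linarith

theorem decomp (M : ℕ) (R : Set (ZMod M × ZMod M)) (U V : ℝ) :
    Bxx M R U V = ⋃ q ∈ R, ({a : ℤ | (0 < a ∧ (a : ℝ) ≤ U) ∧ (a : ZMod M) = q.1} ×ˢ
      {a : ℤ | |(a : ℝ)| ≤ V ∧ (a : ZMod M) = q.2}) := by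
  ext q
  simp only [Bxx, Set.mem_ofPred_eq, Set.mem_iUnion, Set.mem_prod]
  constructor
  · rintro ⟨h1, h2, h3, h4⟩
    exact ⟨_, h4, ⟨⟨h1, h2⟩, rfl⟩, h3, rfl⟩
  · rintro ⟨r, hr, ⟨⟨h1, h2⟩, h5⟩, h3, h4⟩
    refine ⟨h1, h2, h3, ?_⟩
    rw [h5, h4]
    exact hr

theorem card (M : ℕ) (hM : 0 < M) (R : Set (ZMod M × ZMod M)) (hR : R.Finite) (U V : ℝ)
    (hU : 0 ≤ U) (hV : 0 ≤ V) :
    (Bxx M R U V).Finite ∧ (Bxx M R U V).ncard = ∑ q ∈ hR.toFinset,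
      {a : ℤ | (0 < a ∧ (a : ℝ) ≤ U) ∧ (a : ZMod M) = q.1}.ncard *
      {a : ℤ | |(a : ℝ)| ≤ V ∧ (a : ZMod M) = q.2}.ncard := by
  have hfin : (Bxx M R U V).Finite := by
    rw [decomp]
    refine Set.Finite.biUnion hR fun q _ => ?_
    exact (cA M hM q.1 U hU).1.prod (cB M hM q.2 V hV).1
  refine ⟨hfin, ?_⟩
  rw [Set.ncard_eq_toFinset_card _ hfin]
  rw [Finset.card_eq_sum_card_fiberwise (f := fun q : ℤ × ℤ => ((q.1 : ZMod M), (q.2 : ZMod M)))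
    (t := hR.toFinset)]
  · refine Finset.sum_congr rfl fun r hr => ?_
    rw [← Set.ncard_prod, ← Set.ncard_coe_finset]
    congr 1
    ext q
    simp only [Finset.coe_filter, Set.Finite.mem_toFinset, Set.mem_ofPred_eq, Set.mem_prod]
    have hr' : r ∈ R := hR.mem_toFinset.1 hr
    constructor
    · rintro ⟨⟨h1, h2, h3, h4⟩, h5⟩
      refine ⟨⟨⟨h1, h2⟩, ?_⟩, h3, ?_⟩
      · rw [← h5]
      · rw [← h5]
    · rintro ⟨⟨⟨h1, h2⟩, h5⟩, h3, h4⟩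
      have h6 : ((q.1 : ZMod M), (q.2 : ZMod M)) = r := Prod.ext h5 h4
      refine ⟨⟨h1, h2, h3, ?_⟩, h6⟩
      rw [h6]
      exact hr'
  · intro q hq
    have hq' : q ∈ Bxx M R U V := hfin.mem_toFinset.1 hq
    exact hR.mem_toFinset.2 hq'.2.2.2

end DNBM

theorem specDNB : SpecDNB := by
  intro M R U V hM hU hV
  have : NeZero M := ⟨hM.ne'⟩
  have hR : R.Finite := Set.toFinite R
  obtain ⟨hfin, hcard⟩ := DNBM.card M hM R hR U V hU hV
  have hM' : (0 : ℝ) < M := by exact_mod_cast hM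
  refine ⟨hfin, ?_, ?_⟩
  · rw [hcard]
    push_cast
    have h1 : ∀ q ∈ hR.toFinset, ({a : ℤ | (0 < a ∧ (a : ℝ) ≤ U) ∧ (a : ZMod M) = q.1}.ncard : ℝ) *
        ({a : ℤ | |(a : ℝ)| ≤ V ∧ (a : ZMod M) = q.2}.ncard : ℝ) ≤
        (U / M + 1) * (2 * V / M + 1) := by
      intro q _
      have := (DNBM.cA M hM q.1 U hU).2.2
      have := (DNBM.cB M hM q.2 V hV).2.2
      have h6 : 0 ≤ U / M := div_nonneg hU hM'.le
      gcongr
    refine (Finset.sum_le_card_nsmul _ _ _ h1).trans ?_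
    rw [nsmul_eq_mul, Set.ncard_eq_toFinset_card _ hR]
  · intro hMU hMV
    rw [hcard]
    push_cast
    have h1 : ∀ q ∈ hR.toFinset, (U / M - 1) * (2 * V / M - 1) ≤
        ({a : ℤ | (0 < a ∧ (a : ℝ) ≤ U) ∧ (a : ZMod M) = q.1}.ncard : ℝ) *
        ({a : ℤ | |(a : ℝ)| ≤ V ∧ (a : ZMod M) = q.2}.ncard : ℝ) := by
      intro q _
      have e1 := (DNBM.cA M hM q.1 U hU).2.1
      have e2 := (DNBM.cB M hM q.2 V hV).2.1
      have h6 : 0 ≤ U / M - 1 := by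
        rw [sub_nonneg, one_le_div hM']
        exact hMU
      have h7 : 0 ≤ 2 * V / M - 1 := by
        rw [sub_nonneg, one_le_div hM']
        linarith
      exact mul_le_mul e1 e2 h7 (h6.trans e1)
    refine le_trans ?_ (Finset.card_nsmul_le_sum _ _ _ h1)
    rw [nsmul_eq_mul, Set.ncard_eq_toFinset_card _ hR]

end Pool.Agent.Lib.MP_8cb858_nt.PR
end

section
/-! Module DNH (helper14): the box `Ht X`. -/
namespace Pool.Agent.Lib.MP_8cb858_nt.PR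

namespace DNHM

theorem cube {X : ℝ} (hX : 0 ≤ X) : (X ^ (1 / 3 : ℝ)) ^ 3 = X := by
  rw [← Real.rpow_natCast, ← Real.rpow_mul hX]
  norm_num

theorem sq {X : ℝ} (hX : 0 ≤ X) : (X ^ (1 / 2 : ℝ)) ^ 2 = X := by
  rw [← Real.rpow_natCast, ← Real.rpow_mul hX]
  norm_num

theorem mem_iff (X : ℝ) (q : ℤ × ℤ) (hX : 0 ≤ X) : q ∈ Ht X ↔ |(q.1 : ℝ)| ≤ X ^ (1 / 3 : ℝ) ∧
    |(q.2 : ℝ)| ≤ X ^ (1 / 2 : ℝ) := by
  unfold Ht
  rw [Set.mem_ofPred_eq]
  refine and_congr ?_ ?_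
  · conv_lhs => rw [← cube hX]
    exact pow_le_pow_iff_left₀ (abs_nonneg _) (Real.rpow_nonneg hX _) (by norm_num)
  · conv_lhs => rw [← sq hX, ← sq_abs]
    exact pow_le_pow_iff_left₀ (abs_nonneg _) (Real.rpow_nonneg hX _) (by norm_num)

theorem empty {X : ℝ} (hX : X < 0) : Ht X = ∅ := by
  ext q
  simp only [Ht, Set.mem_ofPred_eq, Set.mem_empty_iff_false, iff_false, not_and]
  intro h
  have : (0 : ℝ) ≤ |(q.1 : ℝ)| ^ 3 := by positivity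
  linarith

/-- the integer box -/
noncomputable def bx (U V : ℝ) : Finset (ℤ × ℤ) := Finset.Icc (-⌊U⌋) ⌊U⌋ ×ˢ Finset.Icc (-⌊V⌋) ⌊V⌋

theorem mem_Icc {a : ℤ} {U : ℝ} (h : |(a : ℝ)| ≤ U) : a ∈ Finset.Icc (-⌊U⌋) ⌊U⌋ := by
  rw [abs_le] at h
  rw [Finset.mem_Icc]
  have h1 : a ≤ ⌊U⌋ := Int.le_floor.2 h.2
  have h2 : -a ≤ ⌊U⌋ := Int.le_floor.2 (by push_cast; linarith [h.1])
  exact ⟨by linarith, h1⟩

theorem sub {X : ℝ} (hX : 0 ≤ X) : Ht X ⊆ (bx (X ^ (1 / 3 : ℝ)) (X ^ (1 / 2 : ℝ)) : Set (ℤ × ℤ)) := by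
  intro q hq
  have h := (mem_iff X q hX).1 hq
  rw [Finset.mem_coe, bx, Finset.mem_product]
  exact ⟨mem_Icc h.1, mem_Icc h.2⟩

theorem card_Icc {U : ℝ} (hU : 1 ≤ U) : ((Finset.Icc (-⌊U⌋) ⌊U⌋).card : ℝ) ≤ 3 * U := by
  rw [Int.card_Icc]
  have h0 : 0 ≤ ⌊U⌋ := Int.floor_nonneg.2 (by linarith)
  have h1 : ((⌊U⌋ + 1 - -⌊U⌋).toNat : ℤ) = ⌊U⌋ + 1 - -⌊U⌋ := Int.toNat_of_nonneg (by linarith)
  have h2 : ((⌊U⌋ + 1 - -⌊U⌋).toNat : ℝ) = (⌊U⌋ : ℝ) + 1 - -⌊U⌋ := by exact_mod_cast h1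
  rw [h2]
  have := Int.floor_le U
  linarith

theorem prod {X : ℝ} (hX : 0 ≤ X) : X ^ (1 / 3 : ℝ) * X ^ (1 / 2 : ℝ) = X ^ (5 / 6 : ℝ) := by
  rcases hX.eq_or_lt with h | h
  · rw [← h, Real.zero_rpow (by norm_num), Real.zero_rpow (by norm_num), Real.zero_rpow (by norm_num), zero_mul]
  · rw [← Real.rpow_add h]
    norm_num

theorem fin (X : ℝ) : (Ht X).Finite := by
  rcases lt_or_ge X 0 with h | h
  · rw [empty h]; exact Set.finite_empty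
  · exact (Finset.finite_toSet _).subset (sub h)

end DNHM

theorem specDNH : SpecDNH := by
  refine ⟨DNHM.fin, fun X hX => ?_, DNHM.mem_iff, fun X hX => DNHM.prod hX⟩
  have h0 : 0 ≤ X := by linarith
  have h1 : (Ht X).ncard ≤ (DNHM.bx (X ^ (1 / 3 : ℝ)) (X ^ (1 / 2 : ℝ))).card := by
    rw [← Set.ncard_coe_finset]
    exact Set.ncard_le_ncard (DNHM.sub h0) (Finset.finite_toSet _)
  have h2 : ((DNHM.bx (X ^ (1 / 3 : ℝ)) (X ^ (1 / 2 : ℝ))).card : ℝ) ≤ 9 * X ^ (5 / 6 : ℝ) := by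
    rw [DNHM.bx, Finset.card_product, Nat.cast_mul, ← DNHM.prod h0]
    have hU : (1 : ℝ) ≤ X ^ (1 / 3 : ℝ) := Real.one_le_rpow hX (by norm_num)
    have hV : (1 : ℝ) ≤ X ^ (1 / 2 : ℝ) := Real.one_le_rpow hX (by norm_num)
    calc _ ≤ (3 * X ^ (1 / 3 : ℝ)) * (3 * X ^ (1 / 2 : ℝ)) :=
          mul_le_mul (DNHM.card_Icc hU) (DNHM.card_Icc hV) (Nat.cast_nonneg _) (by positivity)
      _ = _ := by ring
  exact le_trans (by exact_mod_cast h1) h2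

end Pool.Agent.Lib.MP_8cb858_nt.PR
end

section
/-!
# DNL: lower bound for the size of the family
-/
namespace Pool.Agent.Lib.MP_8cb858_nt.PR

open scoped Classical

namespace DNLM

theorem dl_pos {p : ℕ} (hp : 5 ≤ p) : 0 < dl p := by
  unfold dl
  have h : (5 : ℝ) ≤ p := by exact_mod_cast hp
  have h1 : 1 / (p : ℝ) ≤ 1 / 5 := one_div_le_one_div_of_le (by norm_num) h
  have : 0 < 1 - 1 / (p : ℝ) := by linarith
  positivity

theorem prod_dl_pos (Q : Finset ℕ) (hQ : ∀ p ∈ Q, p.Prime ∧ 5 ≤ p) : 0 < ∏ p ∈ Q, dl p :=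
  Finset.prod_pos fun p hp => dl_pos (hQ p hp).2

/-- powers of `X` are large -/
theorem exists_large (c e : ℝ) (he : 0 < e) : ∃ X0 : ℝ, 1 ≤ X0 ∧ ∀ X : ℝ, X0 ≤ X → c ≤ X ^ e := by
  have h := (tendsto_rpow_atTop he).eventually_ge_atTop c
  obtain ⟨a, ha⟩ := Filter.eventually_atTop.1 h
  exact ⟨max a 1, le_max_right _ _, fun X hX => ha X (le_trans (le_max_left _ _) hX)⟩

end DNLM

open DNLM

theorem specDNL (hDNB : SpecDNB) (hDNR : SpecDNR) (hDNT : SpecDNT) (hDNH : SpecDNH) : SpecDNL := by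
  refine ⟨1 / 2880, by norm_num, fun Q hQ => ?_⟩
  have hP := prod_dl_pos Q hQ
  obtain ⟨P, hPe⟩ : ∃ P, P = ∏ p ∈ Q, dl p := ⟨_, rfl⟩
  rw [← hPe] at hP
  obtain ⟨δ, hδ⟩ : ∃ δ, δ = (1 / 360 : ℝ) * P := ⟨_, rfl⟩
  have hδ0 : 0 < δ := by rw [hδ]; positivity
  obtain ⟨z, hz5, hz⟩ : ∃ z : ℕ, 5 ≤ z ∧ 6 / (z : ℝ) ≤ δ / 16 := by
    refine ⟨max 5 ⌈96 / δ⌉₊, le_max_left _ _, ?_⟩
    have h1 : 96 / δ ≤ ((max 5 ⌈96 / δ⌉₊ : ℕ) : ℝ) :=
      (Nat.le_ceil _).trans (by exact_mod_cast le_max_right _ _)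
    have h2 : (0 : ℝ) < ((max 5 ⌈96 / δ⌉₊ : ℕ) : ℝ) := by
      have : 0 < max 5 ⌈96 / δ⌉₊ := lt_of_lt_of_le (by norm_num) (le_max_left _ _)
      exact_mod_cast this
    rw [div_le_iff₀ h2]
    rw [div_le_iff₀ hδ0] at h1
    linarith
  obtain ⟨M, R, hM, hR, hRm⟩ := hDNR Q z hQ
  rw [← hPe, ← hδ] at hR
  obtain ⟨X1, hX1⟩ := hDNT z (δ / 16) hz5 (by positivity)
  obtain ⟨X2, hX2a, hX2⟩ := exists_large (2 * M) (1 / 3) (by norm_num)
  obtain ⟨X3, hX3a, hX3⟩ := exists_large (2 * M) (1 / 2) (by norm_num)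
  refine ⟨max X1 (max X2 X3), fun X hX => ?_⟩
  have hXa : X1 ≤ X := (le_max_left _ _).trans hX
  have hXb : X2 ≤ X := (le_max_left _ _).trans ((le_max_right _ _).trans hX)
  have hXc : X3 ≤ X := (le_max_right _ _).trans ((le_max_right _ _).trans hX)
  have hX0 : 0 ≤ X := by linarith
  obtain ⟨hH1, hH2, hH3, hH4⟩ := hDNH
  have hU := hX2 X hXb
  have hV := hX3 X hXc
  have hUV := hH4 X hX0
  obtain ⟨U, hUe⟩ : ∃ U, U = X ^ (1 / 3 : ℝ) := ⟨_, rfl⟩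
  obtain ⟨V, hVe⟩ : ∃ V, V = X ^ (1 / 2 : ℝ) := ⟨_, rfl⟩
  rw [← hUe] at hU hUV
  rw [← hVe] at hV hUV
  have hMR : (0 : ℝ) < M := by exact_mod_cast hM
  obtain ⟨hB1, hB2, hB3⟩ := hDNB M R U V hM (by linarith) (by linarith)
  have hB := hB3 (by linarith) (by linarith)
  -- the tail
  obtain ⟨T, hT⟩ : ∃ T : Set (ℤ × ℤ), T = {q : ℤ × ℤ | 0 < q.1 ∧ q ∈ Ht X ∧ ∃ p : ℕ, p.Prime ∧
      z < p ∧ (p : ℤ) ^ 2 ∣ dsc q.1 q.2} := ⟨_, rfl⟩
  have hTb := hX1 X hXa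
  rw [← hT, ← hUV] at hTb
  have hTfin : T.Finite := by
    rw [hT]
    exact (hH1 X).subset fun q hq => hq.2.1
  have hFfin : (Fam Q ∩ Ht X).Finite := (hH1 X).subset fun q hq => hq.2
  have hsub : Bxx M R U V ⊆ (Fam Q ∩ Ht X) ∪ T := by
    rintro ⟨a, b⟩ ⟨h1, h2, h3, h4⟩
    have h2' : (a : ℝ) ≤ U := h2
    have h3' : |(b : ℝ)| ≤ V := h3
    have h1' : 0 < a := h1
    have hHt : (a, b) ∈ Ht X := by
      rw [hH3 X _ hX0, ← hUe, ← hVe]
      refine ⟨?_, h3'⟩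
      rw [abs_of_pos (by exact_mod_cast h1')]
      exact h2'
    obtain ⟨g1, g2, g3, g4, g5, g6⟩ := hRm a b h4
    by_cases hq : (a, b) ∈ T
    · exact Or.inr hq
    · refine Or.inl ⟨⟨h1', g1, g2, g3, g4, ?_, fun p hp => (g6 p hp).1⟩, hHt⟩
      intro p hp hp5 hdvd
      by_cases hpz : p ≤ z
      · exact g5 p hp hp5 hpz hdvd
      · apply hq
        rw [hT]
        exact ⟨h1', hHt, p, hp, not_le.1 hpz, hdvd⟩
  have hcount : ((Bxx M R U V).ncard : ℝ) ≤ ((Fam Q ∩ Ht X).ncard : ℝ) + (T.ncard : ℝ) := by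
    have h1 := Set.ncard_le_ncard hsub (hFfin.union hTfin)
    have h2 := Set.ncard_union_le (Fam Q ∩ Ht X) T
    exact_mod_cast h1.trans h2
  have hmain : δ / 2 * (U * V) ≤ ((Bxx M R U V).ncard : ℝ) := by
    refine le_trans ?_ hB
    have h1 : U / (2 * M) ≤ U / M - 1 := by
      rw [div_le_iff₀ (by positivity)]
      have : (U / M - 1) * (2 * M) = 2 * U - 2 * M := by field_simp
      rw [this]
      linarith
    have h2 : V / M ≤ 2 * V / M - 1 := by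
      rw [div_le_iff₀ hMR]
      have : (2 * V / M - 1) * M = 2 * V - M := by field_simp
      rw [this]
      linarith
    have hU0 : 0 ≤ U / (2 * M) := by
      have : 0 ≤ U := by linarith
      positivity
    have hV0 : 0 ≤ V / M := by
      have : 0 ≤ V := by linarith
      positivity
    calc δ / 2 * (U * V) = (δ * M ^ 2) * (U / (2 * M) * (V / M)) := by field_simp
      _ ≤ R.ncard * ((U / M - 1) * (2 * V / M - 1)) := by
        refine mul_le_mul hR ?_ (by positivity) (by positivity)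
        exact mul_le_mul h1 h2 hV0 (hU0.trans h1)
  rw [← hPe, ← hUV]
  have hUV0 : 0 ≤ U * V := by
    have h1 : 0 ≤ U := by linarith
    have h2 : 0 ≤ V := by linarith
    positivity
  have h6 : (T.ncard : ℝ) ≤ δ / 8 * (U * V) := by
    refine hTb.trans (mul_le_mul_of_nonneg_right ?_ hUV0)
    linarith
  have h7 : 1 / 2880 * P * (U * V) = δ / 8 * (U * V) := by
    rw [hδ]
    ring
  rw [h7]
  nlinarith [mul_nonneg hδ0.le hUV0]

end Pool.Agent.Lib.MP_8cb858_nt.PR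
end

section
/-! Module HZA (helper60): the number of pairs of `Ht X` in residue classes. -/
namespace Pool.Agent.Lib.MP_8cb858_nt.PT

open scoped Classical

namespace HZAM

theorem decomp (M : ℕ) (R : Set (ZMod M × ZMod M)) (U V : ℝ) :
    {q : ℤ × ℤ | (|(q.1 : ℝ)| ≤ U ∧ |(q.2 : ℝ)| ≤ V) ∧ ((q.1 : ZMod M), (q.2 : ZMod M)) ∈ R} =
      ⋃ q ∈ R, ({a : ℤ | |(a : ℝ)| ≤ U ∧ (a : ZMod M) = q.1} ×ˢ
      {a : ℤ | |(a : ℝ)| ≤ V ∧ (a : ZMod M) = q.2}) := by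
  ext q
  simp only [Set.mem_ofPred_eq, Set.mem_iUnion, Set.mem_prod]
  constructor
  · rintro ⟨⟨h1, h2⟩, h4⟩
    exact ⟨_, h4, ⟨h1, rfl⟩, h2, rfl⟩
  · rintro ⟨r, hr, ⟨h1, h5⟩, h3, h4⟩
    refine ⟨⟨h1, h3⟩, ?_⟩
    rw [h5, h4]
    exact hr

theorem card (M : ℕ) (hM : 0 < M) (R : Set (ZMod M × ZMod M)) (hR : R.Finite) (U V : ℝ)
    (hU : 0 ≤ U) (hV : 0 ≤ V) :
    {q : ℤ × ℤ | (|(q.1 : ℝ)| ≤ U ∧ |(q.2 : ℝ)| ≤ V) ∧
      ((q.1 : ZMod M), (q.2 : ZMod M)) ∈ R}.ncard = ∑ q ∈ hR.toFinset,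
      {a : ℤ | |(a : ℝ)| ≤ U ∧ (a : ZMod M) = q.1}.ncard *
      {a : ℤ | |(a : ℝ)| ≤ V ∧ (a : ZMod M) = q.2}.ncard := by
  have hfin : {q : ℤ × ℤ | (|(q.1 : ℝ)| ≤ U ∧ |(q.2 : ℝ)| ≤ V) ∧
      ((q.1 : ZMod M), (q.2 : ZMod M)) ∈ R}.Finite := by
    rw [decomp]
    refine Set.Finite.biUnion hR fun q _ => ?_
    exact (PR.DNBM.cB M hM q.1 U hU).1.prod (PR.DNBM.cB M hM q.2 V hV).1
  rw [Set.ncard_eq_toFinset_card _ hfin]
  rw [Finset.card_eq_sum_card_fiberwise (f := fun q : ℤ × ℤ => ((q.1 : ZMod M), (q.2 : ZMod M)))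
    (t := hR.toFinset)]
  · refine Finset.sum_congr rfl fun r hr => ?_
    rw [← Set.ncard_prod, ← Set.ncard_coe_finset]
    congr 1
    ext q
    simp only [Finset.coe_filter, Set.Finite.mem_toFinset, Set.mem_ofPred_eq, Set.mem_prod]
    have hr' : r ∈ R := hR.mem_toFinset.1 hr
    constructor
    · rintro ⟨⟨⟨h1, h2⟩, h4⟩, h5⟩
      refine ⟨⟨h1, ?_⟩, h2, ?_⟩
      · rw [← h5]
      · rw [← h5]
    · rintro ⟨⟨h1, h5⟩, h3, h4⟩
      have h6 : ((q.1 : ZMod M), (q.2 : ZMod M)) = r := Prod.ext h5 h4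
      refine ⟨⟨⟨h1, h3⟩, ?_⟩, h6⟩
      rw [h6]
      exact hr'
  · intro q hq
    have hq' := hfin.mem_toFinset.1 hq
    exact hR.mem_toFinset.2 hq'.2

theorem prod_near {x y a b : ℝ} (hx : |x - a| ≤ 1) (hy : |y - b| ≤ 1) (ha : 0 ≤ a) (hb : 0 ≤ b) :
    |x * y - a * b| ≤ a + b + 1 := by
  have h1 : x * y - a * b = (x - a) * (y - b) + (x - a) * b + a * (y - b) := by ring
  rw [h1]
  have h2 : |(x - a) * (y - b)| ≤ 1 := by
    rw [abs_mul]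
    exact mul_le_one₀ hx (abs_nonneg _) hy
  have h3 : |(x - a) * b| ≤ b := by
    rw [abs_mul, abs_of_nonneg hb]
    exact mul_le_of_le_one_left hb hx
  have h4 : |a * (y - b)| ≤ a := by
    rw [abs_mul, abs_of_nonneg ha]
    exact mul_le_of_le_one_right ha hy
  have h5 := abs_add_le ((x - a) * (y - b) + (x - a) * b) (a * (y - b))
  have h6 := abs_add_le ((x - a) * (y - b)) ((x - a) * b)
  linarith

theorem cube_root_ge {c X : ℝ} (hc : 0 ≤ c) (h : c ^ 3 ≤ X) : c ≤ X ^ (1 / 3 : ℝ) := by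
  have hX : 0 ≤ X := le_trans (by positivity) h
  refine le_of_pow_le_pow_left₀ (n := 3) (by norm_num) (Real.rpow_nonneg hX _) ?_
  rw [PR.DNHM.cube hX]
  exact h

theorem cube_le_sqrt {X : ℝ} (hX : 1 ≤ X) : X ^ (1 / 3 : ℝ) ≤ X ^ (1 / 2 : ℝ) :=
  Real.rpow_le_rpow_of_exponent_le hX (by norm_num)

end HZAM

theorem specHZA : SpecHZA := by
  refine ⟨fun N R ε hN hε => ?_, fun ε hε => ?_⟩
  · have : NeZero N := ⟨hN.ne'⟩
    have hR : R.Finite := Set.toFinite R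
    refine ⟨max 1 ((5 * (R.ncard : ℝ) / ε) ^ 3), fun X hX => ?_⟩
    have hX1 : 1 ≤ X := le_trans (le_max_left _ _) hX
    have hX0 : 0 ≤ X := by linarith
    have hX2 : (5 * (R.ncard : ℝ) / ε) ^ 3 ≤ X := le_trans (le_max_right _ _) hX
    have hU1 : 5 * (R.ncard : ℝ) / ε ≤ X ^ (1 / 3 : ℝ) := HZAM.cube_root_ge (by positivity) hX2
    have hUV := HZAM.cube_le_sqrt hX1
    have hUp : (1 : ℝ) ≤ X ^ (1 / 3 : ℝ) := Real.one_le_rpow hX1 (by norm_num)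
    have hprod := PR.DNHM.prod hX0
    have hset : {q ∈ PR.Ht X | ((q.1 : ZMod N), (q.2 : ZMod N)) ∈ R} =
        {q : ℤ × ℤ | (|(q.1 : ℝ)| ≤ X ^ (1 / 3 : ℝ) ∧ |(q.2 : ℝ)| ≤ X ^ (1 / 2 : ℝ)) ∧
          ((q.1 : ZMod N), (q.2 : ZMod N)) ∈ R} := by
      ext q
      simp only [Set.mem_ofPred_eq]
      rw [PR.DNHM.mem_iff X q hX0]
    rw [hset, ← hprod]
    generalize X ^ (1 / 3 : ℝ) = U at *
    generalize X ^ (1 / 2 : ℝ) = V at *
    have hU0 : 0 ≤ U := by linarith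
    have hV0 : 0 ≤ V := by linarith
    have hN' : (1 : ℝ) ≤ N := by exact_mod_cast hN
    have hNp : (0 : ℝ) < N := by linarith
    rw [HZAM.card N hN R hR U V hU0 hV0]
    have hcard : (R.ncard : ℝ) = (hR.toFinset.card : ℝ) := by
      rw [Set.ncard_eq_toFinset_card _ hR]
    have hUN : 2 * U / N ≤ 2 * U := div_le_self (by linarith) hN'
    have hVN : 2 * V / N ≤ 2 * V := div_le_self (by linarith) hN'
    have hUN0 : 0 ≤ 2 * U / N := by positivity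
    have hVN0 : 0 ≤ 2 * V / N := by positivity
    have h1 : ∀ q ∈ hR.toFinset, |(({a : ℤ | |(a : ℝ)| ≤ U ∧ (a : ZMod N) = q.1}.ncard *
        {a : ℤ | |(a : ℝ)| ≤ V ∧ (a : ZMod N) = q.2}.ncard : ℕ) : ℝ) -
        2 * U / N * (2 * V / N)| ≤ 5 * V := by
      intro q _
      have e1 := PR.DNBM.cB N hN q.1 U hU0
      have e2 := PR.DNBM.cB N hN q.2 V hV0
      push_cast
      refine (HZAM.prod_near ?_ ?_ hUN0 hVN0).trans ?_
      · rw [abs_le]; constructor <;> linarith [e1.2.1, e1.2.2]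
      · rw [abs_le]; constructor <;> linarith [e2.2.1, e2.2.2]
      · linarith
    have h2 : ((∑ q ∈ hR.toFinset, {a : ℤ | |(a : ℝ)| ≤ U ∧ (a : ZMod N) = q.1}.ncard *
        {a : ℤ | |(a : ℝ)| ≤ V ∧ (a : ZMod N) = q.2}.ncard : ℕ) : ℝ) -
        4 * (R.ncard : ℝ) / (N : ℝ) ^ 2 * (U * V) =
        ∑ q ∈ hR.toFinset, ((({a : ℤ | |(a : ℝ)| ≤ U ∧ (a : ZMod N) = q.1}.ncard *
        {a : ℤ | |(a : ℝ)| ≤ V ∧ (a : ZMod N) = q.2}.ncard : ℕ) : ℝ) -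
        2 * U / N * (2 * V / N)) := by
      rw [Finset.sum_sub_distrib, Finset.sum_const, nsmul_eq_mul, hcard]
      push_cast
      congr 1
      field_simp
      ring
    rw [h2]
    refine (Finset.abs_sum_le_sum_abs _ _).trans ((Finset.sum_le_card_nsmul _ _ _ h1).trans ?_)
    rw [nsmul_eq_mul, ← hcard]
    have h3 : 5 * (R.ncard : ℝ) ≤ ε * U := by
      rw [div_le_iff₀ hε] at hU1
      linarith
    nlinarith [mul_le_mul_of_nonneg_right h3 hV0]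
  · refine ⟨max 1 ((3 / ε) ^ 3), fun X hX => ?_⟩
    have hX1 : 1 ≤ X := le_trans (le_max_left _ _) hX
    have hX0 : 0 ≤ X := by linarith
    have hX2 : (3 / ε) ^ 3 ≤ X := le_trans (le_max_right _ _) hX
    have hU1 : 3 / ε ≤ X ^ (1 / 3 : ℝ) := HZAM.cube_root_ge (by positivity) hX2
    have hUV := HZAM.cube_le_sqrt hX1
    have hUp : (1 : ℝ) ≤ X ^ (1 / 3 : ℝ) := Real.one_le_rpow hX1 (by norm_num)
    have hprod := PR.DNHM.prod hX0
    have hV0 : 0 ≤ X ^ (1 / 2 : ℝ) := by linarith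
    have e2 := PR.DNBM.cB 1 one_pos 0 (X ^ (1 / 2 : ℝ)) hV0
    have h1 : {q ∈ PR.Ht X | dz q.1 q.2 = 0}.ncard ≤
        {a : ℤ | |(a : ℝ)| ≤ X ^ (1 / 2 : ℝ) ∧ (a : ZMod 1) = 0}.ncard := by
      refine Set.ncard_le_ncard_of_injOn (fun q : ℤ × ℤ => q.2) ?_ ?_ e2.1
      · intro q hq
        exact ⟨((PR.DNHM.mem_iff X q hX0).1 hq.1).2, Subsingleton.elim _ _⟩
      · intro q hq q' hq' h
        have h3 : q.2 = q'.2 := h
        have h4 : 4 * q.1 ^ 3 + 27 * q.2 ^ 2 = 0 := hq.2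
        have h5 : 4 * q'.1 ^ 3 + 27 * q'.2 ^ 2 = 0 := hq'.2
        have h6 : q.1 ^ 3 = q'.1 ^ 3 := by
          rw [h3] at h4
          linarith
        have h7 : q.1 = q'.1 := (Odd.strictMono_pow (by decide : Odd 3)).injective h6
        exact Prod.ext h7 h3
    have h2 : (({q ∈ PR.Ht X | dz q.1 q.2 = 0}.ncard : ℕ) : ℝ) ≤ 2 * X ^ (1 / 2 : ℝ) + 1 := by
      refine le_trans (by exact_mod_cast h1) (e2.2.2.trans ?_)
      simp
    rw [← hprod]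
    rw [div_le_iff₀ hε] at hU1
    nlinarith [mul_le_mul_of_nonneg_right hU1 hV0]

end Pool.Agent.Lib.MP_8cb858_nt.PT
end

section
/-! Module HZB (helper60): the number of elements of `Hz X`. -/
namespace Pool.Agent.Lib.MP_8cb858_nt.PT

open scoped Classical

namespace HZBM

theorem mem_Hz (X : ℝ) (q : ℤ × ℤ) : q ∈ Hz X ↔ q ∈ PR.Ht X ∧ dz q.1 q.2 ≠ 0 := by
  unfold Hz PR.Ht
  simp only [Set.mem_ofPred_eq]
  tauto

theorem ncard_add (X : ℝ) :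
    (Hz X).ncard + {q ∈ PR.Ht X | dz q.1 q.2 = 0}.ncard = (PR.Ht X).ncard := by
  have h1 : PR.Ht X = Hz X ∪ {q ∈ PR.Ht X | dz q.1 q.2 = 0} := by
    ext q
    rw [Set.mem_union, mem_Hz]
    simp only [Set.mem_ofPred_eq]
    tauto
  have hf := PR.DNHM.fin X
  conv_rhs => rw [h1]
  refine (Set.ncard_union_eq ?_ ?_ ?_).symm
  · rw [Set.disjoint_left]
    intro q hq hq'
    exact ((mem_Hz X q).1 hq).2 hq'.2
  · exact hf.subset fun q hq => ((mem_Hz X q).1 hq).1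
  · exact hf.subset fun q hq => hq.1

end HZBM

theorem specHZB (hHZA : SpecHZA) : SpecHZB := by
  have hfin : ∀ X : ℝ, (Hz X).Finite := fun X =>
    (PR.DNHM.fin X).subset fun q hq => ((HZBM.mem_Hz X q).1 hq).1
  refine ⟨hfin, fun X hX => ?_, fun ε hε => ?_⟩
  · rw [Set.ncard_pos (hfin X)]
    refine ⟨(1, 0), ?_, ?_, ?_⟩
    · simpa using hX
    · simp
      linarith
    · simp [dz]
  · obtain ⟨X1, h1⟩ := hHZA.1 1 Set.univ (ε / 2) one_pos (by positivity)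
    obtain ⟨X2, h2⟩ := hHZA.2 (ε / 2) (by positivity)
    refine ⟨max X1 X2, fun X hX => ?_⟩
    have h3 := h1 X ((le_max_left _ _).trans hX)
    have h4 := h2 X ((le_max_right _ _).trans hX)
    have h5 : {q ∈ PR.Ht X | ((q.1 : ZMod 1), (q.2 : ZMod 1)) ∈ (Set.univ : Set (ZMod 1 × ZMod 1))} =
        PR.Ht X := by
      ext q
      simp
    rw [h5] at h3
    have h6 : ((Set.univ : Set (ZMod 1 × ZMod 1)).ncard : ℝ) = 1 := by
      rw [Set.ncard_univ, Nat.card_prod, Nat.card_eq_fintype_card]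
      simp
    rw [h6] at h3
    have h7 := HZBM.ncard_add X
    have h8 : ((Hz X).ncard : ℝ) + (({q ∈ PR.Ht X | dz q.1 q.2 = 0}.ncard : ℕ) : ℝ) =
        ((PR.Ht X).ncard : ℝ) := by exact_mod_cast h7
    have h9 : (0 : ℝ) ≤ (({q ∈ PR.Ht X | dz q.1 q.2 = 0}.ncard : ℕ) : ℝ) := Nat.cast_nonneg _
    rw [abs_le] at h3 ⊢
    push_cast at h3
    constructor <;> linarith [h3.1, h3.2]

end Pool.Agent.Lib.MP_8cb858_nt.PT
end

section
/-!
# Row 205, module MPT: the condition at a place dividing `D`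
-/
set_option autoImplicit false

namespace Pool.Agent.Lib.MP_8cb858_nt.PT

open Polynomial NumberField IsDedekindDomain Pool.Agent.Lib.MP_8cb858_nt.SEL Matrix
open Pool.Agent.Lib.MP_8cb858_nt.PF
open scoped Classical WithZero

theorem specMPT : SpecMPT := by
  intro F _ _ v a b D A B hD hG
  obtain ⟨h1, h2, h3, h4⟩ := hG
  refine ⟨md_symm _ _ h1, ?_, ?_, ?_⟩
  · rw [md_adj, md_mul, md_trace, h2, map_zero]
  · rw [md_adj, md_mul, md_trace, h3]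
    apply Ideal.mem_map_of_mem
    have h5 : (D : 𝓞 F) ^ 2 ∈ v.asIdeal ^ 2 := Ideal.pow_mem_pow hD 2
    have h6 : a * (D : 𝓞 F) ^ 2 * A.det = (a * A.det) * (D : 𝓞 F) ^ 2 := by ring
    rw [h6]
    exact Ideal.mul_mem_left _ _ h5
  · rw [md_det, Ideal.Quotient.eq_zero_iff_mem]
    have h5 : (D : 𝓞 F) ^ 3 ∈ v.asIdeal ^ 3 := Ideal.pow_mem_pow hD 3
    have h6 : B.det = (-(b * A.det)) * (D : 𝓞 F) ^ 3 := by
      linear_combination -h4
    rw [h6]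
    exact Ideal.mul_mem_left _ _ h5

end Pool.Agent.Lib.MP_8cb858_nt.PT
end

section
/-!
# MZC: the number of matrices which vanish in the residue field
-/
namespace Pool.Agent.Lib.MP_8cb858_nt.PT

open Matrix
open Pool.Agent.Lib.MP_8cb858_nt.PF
open scoped Classical

namespace MZCM

/-- the six entries of a symmetric matrix -/
def ent {R : Type} (B : Matrix (Fin 3) (Fin 3) R) : Fin 6 → R :=
  ![B 0 0, B 0 1, B 0 2, B 1 1, B 1 2, B 2 2]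

theorem ent_inj {R : Type} {B B' : Matrix (Fin 3) (Fin 3) R} (h : B.IsSymm) (h' : B'.IsSymm)
    (he : ent B = ent B') : B = B' := by
  have e0 : B 0 0 = B' 0 0 := congrFun he 0
  have e1 : B 0 1 = B' 0 1 := congrFun he 1
  have e2 : B 0 2 = B' 0 2 := congrFun he 2
  have e3 : B 1 1 = B' 1 1 := congrFun he 3
  have e4 : B 1 2 = B' 1 2 := congrFun he 4
  have e5 : B 2 2 = B' 2 2 := congrFun he 5
  have s1 : B 1 0 = B' 1 0 := by rw [← h.apply 0 1, ← h'.apply 0 1] at *; exact e1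
  have s2 : B 2 0 = B' 2 0 := by rw [← h.apply 0 2, ← h'.apply 0 2] at *; exact e2
  have s3 : B 2 1 = B' 2 1 := by rw [← h.apply 1 2, ← h'.apply 1 2] at *; exact e4
  ext i j
  fin_cases i <;> fin_cases j <;> assumption

end MZCM

open MZCM in
theorem specMZC : SpecMZC := by
  intro R k _ _ _ π N A hC h3 hA hd
  have := hC.fin
  have hu : IsUnit (3 * A.det) := by
    apply hC.unit
    rw [map_mul, RingHom.map_det]
    refine mul_ne_zero ?_ hd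
    rw [map_ofNat]
    exact h3
  obtain ⟨u, hu⟩ := hu.exists_left_inv
  have htr : (A.adjugate * A).trace = 3 * A.det := by
    rw [Matrix.adjugate_mul, Matrix.trace_smul, Matrix.trace_one, Fintype.card_fin, smul_eq_mul]
    push_cast
    ring
  set S : Set (Matrix (Fin 3) (Fin 3) R) :=
    {B | B.IsSymm ∧ (A.adjugate * B).trace = 0 ∧ B.map π = 0} with hS
  set m : Set R := {x | π x = 0} with hm
  have hB0 : ∀ B ∈ S, ∀ i j, π (B i j) = 0 := by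
    intro B hB i j
    exact congrFun (congrFun hB.2.2 i) j
  let f : S × m → (Fin 6 → m) := fun z i =>
    ⟨ent (z.1.1 + (z.2.1 * u) • A) i, by
      have h1 : ∀ i j, π ((z.1.1 + (z.2.1 * u) • A) i j) = 0 := by
        intro i j
        have hz : π z.2.1 = 0 := z.2.2
        rw [Matrix.add_apply, Matrix.smul_apply, smul_eq_mul, map_add, map_mul, map_mul,
          hB0 z.1.1 z.1.2 i j, hz, zero_mul, zero_mul, add_zero]
      show π _ = 0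
      fin_cases i <;> exact h1 _ _⟩
  have hf : Function.Injective f := by
    rintro ⟨⟨B, hB⟩, ⟨x, hx⟩⟩ ⟨⟨B', hB'⟩, ⟨x', hx'⟩⟩ h
    have h1 : ent (B + (x * u) • A) = ent (B' + (x' * u) • A) := by
      funext i
      have := congrArg Subtype.val (congrFun h i)
      exact this
    have h2 : B + (x * u) • A = B' + (x' * u) • A :=
      ent_inj (hB.1.add (hA.smul _)) (hB'.1.add (hA.smul _)) h1
    have h4 : ∀ (C : Matrix (Fin 3) (Fin 3) R) (y : R), C ∈ S →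
        (A.adjugate * (C + (y * u) • A)).trace = y := by
      intro C y hC
      rw [mul_add, Matrix.trace_add, hC.2.1, zero_add, mul_smul_comm, Matrix.trace_smul, htr,
        smul_eq_mul, mul_assoc, hu, mul_one]
    have h5 : x = x' := by rw [← h4 B x hB, h2, h4 B' x' hB']
    subst h5
    have h6 : B = B' := add_right_cancel h2
    subst h6
    rfl
  have hcard := Nat.card_le_card_of_injective f hf
  rw [Nat.card_prod, Nat.card_fun, Nat.card_eq_fintype_card (α := Fin 6), Fintype.card_fin,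
    Nat.card_coe_set_eq, Nat.card_coe_set_eq] at hcard
  have hm1 : 0 < m.ncard := (Set.ncard_pos (Set.toFinite _)).2 ⟨0, map_zero π⟩
  have h7 : S.ncard ≤ m.ncard ^ 5 := by
    apply Nat.le_of_mul_le_mul_right _ hm1
    rw [← pow_succ]
    exact hcard
  calc S.ncard ≤ m.ncard ^ 5 := h7
    _ ≤ (Nat.card k ^ 2) ^ 5 := Nat.pow_le_pow_left hC.c1 5
    _ = Nat.card k ^ 10 := by rw [← pow_mul]

end Pool.Agent.Lib.MP_8cb858_nt.PT
end

section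
/-!
# TLZ: few pairs have discriminant divisible by the square of a large prime
-/
namespace Pool.Agent.Lib.MP_8cb858_nt.PT

open scoped Classical

theorem specTLZ (hTLA : SpecTLA) (hHZB : SpecHZB) : SpecTLZ := by
  intro ε hε
  obtain ⟨n, hn⟩ := exists_nat_gt (12 / ε)
  obtain ⟨X1, hX1⟩ := hTLA (n + 5) ε (by omega) hε
  obtain ⟨X2, hX2⟩ := hHZB.2.2 1 one_pos
  refine ⟨n + 5, max (max X1 X2) 1, fun X hX => ?_⟩
  have h1 := hX1 X ((le_max_left _ _).trans ((le_max_left _ _).trans hX))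
  have h2 := hX2 X ((le_max_right _ _).trans ((le_max_left _ _).trans hX))
  have hX0 : (0 : ℝ) ≤ X := zero_le_one.trans ((le_max_right _ _).trans hX)
  have hη : 0 ≤ X ^ (5 / 6 : ℝ) := Real.rpow_nonneg hX0 _
  have h3 : (12 : ℝ) / ((n + 5 : ℕ) : ℝ) ≤ ε := by
    have h4 : (0 : ℝ) < ((n + 5 : ℕ) : ℝ) := by positivity
    rw [div_le_iff₀ h4]
    have h5 : 12 < (n : ℝ) * ε := by
      rwa [div_lt_iff₀ hε] at hn
    push_cast
    nlinarith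
  have h4 := (abs_le.1 h2).1
  refine h1.trans ?_
  have h5 : (12 / ((n + 5 : ℕ) : ℝ) + ε) * X ^ (5 / 6 : ℝ) ≤ (2 * ε) * X ^ (5 / 6 : ℝ) :=
    mul_le_mul_of_nonneg_right (by linarith) hη
  refine h5.trans ?_
  have h6 : 3 * X ^ (5 / 6 : ℝ) ≤ ((Hz X).ncard : ℝ) := by linarith
  have h7 : ε * (3 * X ^ (5 / 6 : ℝ)) ≤ ε * ((Hz X).ncard : ℝ) := mul_le_mul_of_nonneg_left h6 hε.le
  have h8 : 0 ≤ ε * X ^ (5 / 6 : ℝ) := mul_nonneg hε.le hη
  linarith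

end Pool.Agent.Lib.MP_8cb858_nt.PT
end
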