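import Pool.Agent.Lib.MP_8cb858_nt.PR.SpecDN
import Pool.Agent.Lib.MP_8cb858_nt.PR.SpecF
import Pool.Agent.Lib.MP_8cb858_nt.PT.TLZ
import Pool.Agent.Lib.MP_8cb858_nt.PT.SpecF

section
/-!
# DNQ: the number of pairs modulo `p` with nonsquare discriminant
-/
namespace Pool.Agent.Lib.MP_8cb858_nt.PR

open scoped Classical

namespace DNQM

theorem ns_card (p : ℕ) [Fact p.Prime] (hp : 5 ≤ p) :
    1 + 2 * {v : ZMod p | ¬ IsSquare v}.ncard = p := by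
  have h2 : ringChar (ZMod p) ≠ 2 := by
    rw [ZMod.ringChar_zmod_n]; omega
  have h0 : ∑ a : ZMod p, (quadraticChar (ZMod p) a : ℤ) = 0 := quadraticChar_sum_zero h2
  have h1 : ∑ a : ZMod p, (1 - (quadraticChar (ZMod p) a : ℤ)) = p := by
    rw [Finset.sum_sub_distrib, h0]
    simp [ZMod.card]
  have h3 : ∀ a : ZMod p, (1 - (quadraticChar (ZMod p) a : ℤ)) =
      (if a = 0 then 1 else 0) + 2 * (if ¬ IsSquare a then 1 else 0) := by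
    intro a
    rw [quadraticChar_apply, quadraticCharFun]
    by_cases ha : a = 0
    · subst ha
      simp
    · by_cases hs : IsSquare a
      · simp [ha, hs]
      · simp [ha, hs]
  rw [Finset.sum_congr rfl (fun a _ => h3 a), Finset.sum_add_distrib, ← Finset.mul_sum] at h1
  simp only [Finset.sum_ite_eq', Finset.mem_univ, if_true, Finset.sum_boole] at h1
  rw [Set.ncard_eq_toFinset_card']
  have h4 : ({v : ZMod p | ¬ IsSquare v} : Set (ZMod p)).toFinset =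
      Finset.univ.filter (fun v : ZMod p => ¬ IsSquare v) := by
    ext v; simp
  rw [h4]
  exact_mod_cast h1

theorem id1 {k : Type} [Field k] (t a b : k) (hb : t ^ 3 + a * t + b = 0) :
    -(4 * a ^ 3 + 27 * b ^ 2) = (3 * t ^ 2 + a) ^ 2 * (-(3 * t ^ 2 + 4 * a)) := by
  have : b = -t ^ 3 - a * t := by linear_combination hb
  rw [this]; ring

theorem sq_of {k : Type} [Field k] {c v : k} (hc : c ≠ 0) (h : IsSquare (c ^ 2 * v)) :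
    IsSquare v := by
  obtain ⟨r, hr⟩ := h
  refine ⟨r / c, ?_⟩
  field_simp
  linear_combination hr

end DNQM

theorem specDNQ (hFRT : SpecFRT) : SpecDNQ := by
  intro p _ hp
  have h4 : (4 : ZMod p) ≠ 0 := by
    have h : ((4 : ℕ) : ZMod p) ≠ 0 := by
      rw [Ne, ZMod.natCast_eq_zero_iff]
      intro h
      have := Nat.le_of_dvd (by norm_num) h
      omega
    exact_mod_cast h
  set f : ZMod p × ZMod p → ZMod p × ZMod p := fun x =>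
    (-(x.2 + 3 * x.1 ^ 2) / 4, -x.1 ^ 3 - (-(x.2 + 3 * x.1 ^ 2) / 4) * x.1) with hf
  have hroot : ∀ x : ZMod p × ZMod p, x.1 ^ 3 + (f x).1 * x.1 + (f x).2 = 0 := by
    intro x; simp only [hf]; ring
  have hv : ∀ x : ZMod p × ZMod p, -(3 * x.1 ^ 2 + 4 * (f x).1) = x.2 := by
    intro x; simp only [hf]; field_simp; ring
  have hmem : ∀ x : ZMod p × ZMod p, ¬ IsSquare x.2 →
      ¬ IsSquare (-(4 * (f x).1 ^ 3 + 27 * (f x).2 ^ 2)) := by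
    intro x hx h
    rw [DNQM.id1 x.1 _ _ (hroot x), hv x] at h
    refine hx (DNQM.sq_of ?_ h)
    intro h0
    refine hx ⟨3 * x.1, ?_⟩
    have h1 := hv x
    linear_combination (-4) * h0 - h1
  have himg : {q : ZMod p × ZMod p | ¬ IsSquare (-(4 * q.1 ^ 3 + 27 * q.2 ^ 2))} =
      f '' (Set.univ ×ˢ {v : ZMod p | ¬ IsSquare v}) := by
    ext q
    constructor
    · intro hq
      obtain ⟨⟨t, ht⟩, -, h3⟩ := hFRT p q.1 q.2 hp hq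
      refine ⟨(t, -(3 * t ^ 2 + 4 * q.1)), ⟨Set.mem_univ _, ?_⟩, ?_⟩
      · intro hs
        refine hq ?_
        rw [DNQM.id1 t _ _ ht]
        exact (IsSquare.sq _).mul hs
      · have ha : -(-(3 * t ^ 2 + 4 * q.1) + 3 * t ^ 2) / 4 = q.1 := by
          field_simp; ring
        apply Prod.ext
        · simp only [hf]; exact ha
        · simp only [hf]; rw [ha]; linear_combination -ht
    · rintro ⟨x, ⟨-, hx⟩, rfl⟩
      exact hmem x hx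
  have hinj : Set.InjOn f (Set.univ ×ˢ {v : ZMod p | ¬ IsSquare v}) := by
    rintro x ⟨-, hx⟩ y ⟨-, hy⟩ hxy
    have h1 := hroot x
    have h2 := hroot y
    rw [← hxy] at h2
    have ht := (hFRT p (f x).1 (f x).2 hp (hmem x hx)).2.1 _ _ h1 h2
    apply Prod.ext ht
    rw [← hv x, ← hv y, hxy, ht]
  rw [himg, Set.ncard_image_of_injOn hinj, Set.ncard_prod, Set.ncard_univ, Nat.card_zmod]
  have := DNQM.ns_card p hp
  have h5 : 2 * {v : ZMod p | ¬ IsSquare v}.ncard = p - 1 := by omega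
  calc 2 * (p * {v : ZMod p | ¬ IsSquare v}.ncard)
      = p * (2 * {v : ZMod p | ¬ IsSquare v}.ncard) := by ring
    _ = p * (p - 1) := by rw [h5]

end Pool.Agent.Lib.MP_8cb858_nt.PR
end

section
/-!
# FBX: integers in a class and an interval
-/
namespace Pool.Agent.Lib.MP_8cb858_nt.PR

theorem specFBX : SpecFBX := by
  intro N H r hN hH
  have hN' : (0 : ℝ) < N := by exact_mod_cast hN
  have hsub : {n : ℤ | |(n : ℝ)| ≤ H ∧ (n : ZMod N) = r} ⊆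
      ((Finset.Icc ⌈(-H - r) / N⌉ ⌊(H - r) / N⌋).image fun q : ℤ => r + N * q : Finset ℤ) := by
    rintro n ⟨h1, h2⟩
    have h3 : (N : ℤ) ∣ n - r := by
      have h4 : ((n - r : ℤ) : ZMod N) = 0 := by
        push_cast
        rw [h2]
        simp
      exact (ZMod.intCast_zmod_eq_zero_iff_dvd _ _).1 h4
    obtain ⟨q, hq⟩ := h3
    have hn : n = r + N * q := by linarith
    have hn' : (n : ℝ) = r + N * q := by rw [hn]; push_cast; ring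
    rw [abs_le] at h1
    rw [Finset.coe_image]
    refine ⟨q, ?_, hn.symm⟩
    rw [Finset.coe_Icc]
    refine ⟨Int.ceil_le.2 ?_, Int.le_floor.2 ?_⟩
    · rw [div_le_iff₀ hN']
      linarith [h1.1]
    · rw [le_div_iff₀ hN']
      linarith [h1.2]
  refine ⟨(Finset.finite_toSet _).subset hsub, ?_⟩
  have h1 : {n : ℤ | |(n : ℝ)| ≤ H ∧ (n : ZMod N) = r}.ncard ≤
      (⌊(H - r) / N⌋ + 1 - ⌈(-H - r) / N⌉).toNat := by
    refine (Set.ncard_le_ncard hsub (Finset.finite_toSet _)).trans ?_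
    rw [Set.ncard_coe_finset]
    refine Finset.card_image_le.trans ?_
    rw [Int.card_Icc]
  have h2 : ((⌊(H - r) / N⌋ + 1 - ⌈(-H - r) / N⌉).toNat : ℝ) ≤ 2 * H / N + 1 := by
    have h3 : 0 ≤ 2 * H / N + 1 := by positivity
    have h4 : ((⌊(H - r) / N⌋ + 1 - ⌈(-H - r) / N⌉ : ℤ) : ℝ) ≤ 2 * H / N + 1 := by
      push_cast
      have h5 := Int.floor_le ((H - r) / N : ℝ)
      have h6 := Int.le_ceil ((-H - r) / N : ℝ)
      have h7 : (H - r) / N - (-H - r) / N = 2 * H / (N : ℝ) := by ring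
      linarith
    rcases le_total 0 (⌊(H - r) / N⌋ + 1 - ⌈(-H - r) / N⌉) with h8 | h8
    · have h9 : (((⌊(H - r) / N⌋ + 1 - ⌈(-H - r) / N⌉).toNat : ℤ) : ℝ) =
          ((⌊(H - r) / N⌋ + 1 - ⌈(-H - r) / N⌉ : ℤ) : ℝ) := by rw [Int.toNat_of_nonneg h8]
      have h10 : (((⌊(H - r) / N⌋ + 1 - ⌈(-H - r) / N⌉).toNat : ℕ) : ℝ) =
          (((⌊(H - r) / N⌋ + 1 - ⌈(-H - r) / N⌉).toNat : ℤ) : ℝ) := by push_cast; rfl
      rw [h10, h9]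
      exact h4
    · rw [Int.toNat_of_nonpos h8]
      simpa using h3
  exact (Nat.cast_le.2 h1).trans h2

namespace FBXM

/-- a linear relation and a box: the general form of FI1 and FI2 -/
theorem count (N : ℕ) (hN : 0 < N) (h : Fin 6 → ℝ) (hh : ∀ k, 0 ≤ h k) (r c : Fin 6 → ℤ)
    (k0 : Fin 6) (hk0 : c k0 ≠ 0) (S : Set (Fin 6 → ℤ))
    (hS : ∀ f ∈ S, (∑ k, c k * f k = 0) ∧ ∀ k, |(f k : ℝ)| ≤ h k ∧ (f k : ZMod N) = r k) :
    S.Finite ∧ (S.ncard : ℝ) ≤ ∏ j : Fin 5, (2 * h (k0.succAbove j) / N + 1) := by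
  classical
  have hJ : ∀ k, {n : ℤ | |(n : ℝ)| ≤ h k ∧ (n : ZMod N) = r k}.Finite ∧
      ({n : ℤ | |(n : ℝ)| ≤ h k ∧ (n : ZMod N) = r k}.ncard : ℝ) ≤ 2 * h k / N + 1 :=
    fun k => specFBX N (h k) (r k) hN (hh k)
  let J : Fin 5 → Finset ℤ := fun j => (hJ (k0.succAbove j)).1.toFinset
  let g : (Fin 6 → ℤ) → (Fin 5 → ℤ) := fun f j => f (k0.succAbove j)
  have hinj : Set.InjOn g S := by
    intro f hf f' hf' he
    have h1 : ∀ j, f (k0.succAbove j) = f' (k0.succAbove j) := fun j => congrFun he j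
    have h2 := (hS f hf).1
    have h3 := (hS f' hf').1
    rw [Fin.sum_univ_succAbove _ k0] at h2 h3
    have h4 : c k0 * f k0 = c k0 * f' k0 := by
      have h5 : ∑ j : Fin 5, c (k0.succAbove j) * f (k0.succAbove j) =
          ∑ j : Fin 5, c (k0.succAbove j) * f' (k0.succAbove j) :=
        Finset.sum_congr rfl fun j _ => by rw [h1 j]
      linarith
    have h5 : f k0 = f' k0 := mul_left_cancel₀ hk0 h4
    funext k
    by_cases hk : k = k0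
    · rw [hk, h5]
    · obtain ⟨j, rfl⟩ := Fin.exists_succAbove_eq hk
      exact h1 j
  have hmaps : ∀ f ∈ S, g f ∈ (Fintype.piFinset J : Finset (Fin 5 → ℤ)) := by
    intro f hf
    rw [Fintype.mem_piFinset]
    intro j
    rw [Set.Finite.mem_toFinset]
    exact (hS f hf).2 _
  have hfin : S.Finite :=
    Set.Finite.of_finite_image ((Finset.finite_toSet (Fintype.piFinset J)).subset (by
      rintro _ ⟨f, hf, rfl⟩
      exact hmaps f hf)) hinj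
  refine ⟨hfin, ?_⟩
  have h1 : S.ncard ≤ (Fintype.piFinset J).card := by
    rw [← Set.ncard_coe_finset]
    exact Set.ncard_le_ncard_of_injOn g hmaps hinj (Finset.finite_toSet _)
  rw [Fintype.card_piFinset] at h1
  refine (Nat.cast_le.2 h1).trans ?_
  push_cast
  refine Finset.prod_le_prod (fun _ _ => Nat.cast_nonneg _) fun j _ => ?_
  have e := Set.ncard_eq_toFinset_card _ (hJ (k0.succAbove j)).1
  show (((hJ (k0.succAbove j)).1.toFinset.card : ℕ) : ℝ) ≤ _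
  rw [← e]
  exact (hJ (k0.succAbove j)).2

/-- the six entries of a symmetric matrix -/
def en (B : MZ) : Fin 6 → ℤ := ![B 0 0, B 0 1, B 0 2, B 1 2, B 2 2, B 1 1]

theorem en_inj {B B' : MZ} (h : B.IsSymm) (h' : B'.IsSymm) (he : en B = en B') : B = B' := by
  have e0 : B 0 0 = B' 0 0 := congrFun he 0
  have e1 : B 0 1 = B' 0 1 := congrFun he 1
  have e2 : B 0 2 = B' 0 2 := congrFun he 2
  have e3 : B 1 2 = B' 1 2 := congrFun he 3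
  have e4 : B 2 2 = B' 2 2 := congrFun he 4
  have e5 : B 1 1 = B' 1 1 := congrFun he 5
  have s1 := h.apply 0 1
  have s2 := h.apply 0 2
  have s3 := h.apply 1 2
  have s1' := h'.apply 0 1
  have s2' := h'.apply 0 2
  have s3' := h'.apply 1 2
  ext i j
  fin_cases i <;> fin_cases j <;> simp_all

theorem rel {A B : MZ} (hA : A.IsSymm) (hB : B.IsSymm) (h : (A.adjugate * B).trace = 0) :
    ∑ k, (![A.adjugate 0 0, 2 * A.adjugate 0 1, 2 * A.adjugate 0 2, 2 * A.adjugate 1 2,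
      A.adjugate 2 2, A.adjugate 1 1] : Fin 6 → ℤ) k * en B k = 0 := by
  have hA' : A.adjugate.IsSymm := by
    rw [Matrix.IsSymm, Matrix.adjugate_transpose, hA]
  have s1 := hA'.apply 0 1
  have s2 := hA'.apply 0 2
  have s3 := hA'.apply 1 2
  have t1 := hB.apply 0 1
  have t2 := hB.apply 0 2
  have t3 := hB.apply 1 2
  rw [Matrix.trace_fin_three] at h
  simp only [Matrix.mul_apply, Fin.sum_univ_three] at h
  rw [Fin.sum_univ_six]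
  simp only [en, Matrix.cons_val]
  rw [s1, s2, s3, t1, t2, t3] at h
  linarith

end FBXM

end Pool.Agent.Lib.MP_8cb858_nt.PR
end

section
/-!
# DNT: the tail of the squarefree sieve
-/
namespace Pool.Agent.Lib.MP_8cb858_nt.PR

open scoped Classical

namespace DNTM

theorem count_mod (m : ℕ) (hm : 0 < m) (V : ℝ) (hV : 0 ≤ V) (r : ℤ) :
    {b : ℤ | |(b : ℝ)| ≤ V ∧ (m : ℤ) ∣ b - r}.Finite ∧
    ({b : ℤ | |(b : ℝ)| ≤ V ∧ (m : ℤ) ∣ b - r}.ncard : ℝ) ≤ 2 * V / m + 1 := by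
  have h := specFBX m V r hm hV
  have e : {b : ℤ | |(b : ℝ)| ≤ V ∧ (m : ℤ) ∣ b - r} =
      {n : ℤ | |(n : ℝ)| ≤ V ∧ (n : ZMod m) = r} := by
    ext b
    have : (m : ℤ) ∣ b - r ↔ (b : ZMod m) = r := by
      rw [eq_comm, ZMod.intCast_eq_intCast_iff_dvd_sub]
    show |(b : ℝ)| ≤ V ∧ (m : ℤ) ∣ b - r ↔ |(b : ℝ)| ≤ V ∧ (b : ZMod m) = r
    rw [this]
  rw [e]
  exact h

theorem count_pos (p : ℕ) (hp : 0 < p) (U : ℝ) (hU : 0 ≤ U) :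
    {a : ℤ | 0 < a ∧ (a : ℝ) ≤ U ∧ (p : ℤ) ∣ a}.Finite ∧
    ({a : ℤ | 0 < a ∧ (a : ℝ) ≤ U ∧ (p : ℤ) ∣ a}.ncard : ℝ) ≤ U / p := by
  have hpR : (0 : ℝ) < p := by exact_mod_cast hp
  have hsub : {a : ℤ | 0 < a ∧ (a : ℝ) ≤ U ∧ (p : ℤ) ∣ a} ⊆
      (fun k : ℤ => (p : ℤ) * k) '' (Finset.Ioc (0 : ℤ) ⌊U / p⌋ : Finset ℤ) := by
    rintro a ⟨h1, h2, k, rfl⟩
    have hk : 0 < k := by
      by_contra hcon
      push Not at hcon
      have : (p : ℤ) * k ≤ 0 := mul_nonpos_of_nonneg_of_nonpos (by positivity) hcon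
      omega
    refine ⟨k, ?_, rfl⟩
    rw [Finset.coe_Ioc, Set.mem_Ioc]
    refine ⟨hk, Int.le_floor.2 ?_⟩
    rw [le_div_iff₀ hpR]
    push_cast at h2
    linarith
  have hfin : ((fun k : ℤ => (p : ℤ) * k) '' (Finset.Ioc (0 : ℤ) ⌊U / p⌋ : Finset ℤ)).Finite :=
    (Finset.finite_toSet _).image _
  refine ⟨hfin.subset hsub, ?_⟩
  have h1 := Set.ncard_le_ncard hsub hfin
  have h2 : ((fun k : ℤ => (p : ℤ) * k) '' (Finset.Ioc (0 : ℤ) ⌊U / p⌋ : Finset ℤ)).ncard ≤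
      (Finset.Ioc (0 : ℤ) ⌊U / p⌋).card := by
    rw [← Set.ncard_coe_finset]
    exact Set.ncard_image_le (Finset.finite_toSet _)
  rw [Int.card_Ioc, sub_zero] at h2
  have h3 : ((⌊U / p⌋.toNat : ℕ) : ℝ) ≤ U / p := by
    have h4 : (0 : ℤ) ≤ ⌊U / p⌋ := Int.floor_nonneg.2 (by positivity)
    have h5 : ((⌊U / p⌋.toNat : ℤ) : ℝ) = ((⌊U / p⌋ : ℤ) : ℝ) := by rw [Int.toNat_of_nonneg h4]
    have h6 : ((⌊U / p⌋.toNat : ℕ) : ℝ) = ((⌊U / p⌋ : ℤ) : ℝ) := by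
      rw [← h5]
      norm_cast
    rw [h6]
    exact Int.floor_le _
  calc ({a : ℤ | 0 < a ∧ (a : ℝ) ≤ U ∧ (p : ℤ) ∣ a}.ncard : ℝ)
      ≤ ((⌊U / p⌋.toNat : ℕ) : ℝ) := by exact_mod_cast h1.trans h2
    _ ≤ U / p := h3

/-- the pairs with `a` prime to `p` -/
def S1 (U V : ℝ) (p : ℕ) : Set (ℤ × ℤ) :=
  {q | 0 < q.1 ∧ (q.1 : ℝ) ≤ U ∧ |(q.2 : ℝ)| ≤ V ∧ ¬ (p : ℤ) ∣ q.1 ∧ (p : ℤ) ^ 2 ∣ dsc q.1 q.2}

/-- the pairs with `a` and `b` divisible by `p` -/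
def S2 (U V : ℝ) (p : ℕ) : Set (ℤ × ℤ) :=
  {q | 0 < q.1 ∧ (q.1 : ℝ) ≤ U ∧ |(q.2 : ℝ)| ≤ V ∧ (p : ℤ) ∣ q.1 ∧ (p : ℤ) ∣ q.2}

theorem count_S1 (hDNP : SpecDNP) (U V : ℝ) (hU : 0 ≤ U) (hV : 0 ≤ V) (p : ℕ) (hp : p.Prime)
    (hp5 : 5 ≤ p) : (S1 U V p).Finite ∧
    ((S1 U V p).ncard : ℝ) ≤ 4 * (U * V) * ((p : ℝ) ^ 2)⁻¹ + 2 * U := by
  have hfact : Fact p.Prime := ⟨hp⟩
  obtain ⟨_, h2, _⟩ := hDNP p hp5
  have hpR : (0 : ℝ) < p := by exact_mod_cast hp.pos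
  have hone : ∀ a : ℤ, ¬ (p : ℤ) ∣ a →
      {b : ℤ | |(b : ℝ)| ≤ V ∧ (p : ℤ) ^ 2 ∣ dsc a b}.Finite ∧
      ({b : ℤ | |(b : ℝ)| ≤ V ∧ (p : ℤ) ^ 2 ∣ dsc a b}.ncard : ℝ) ≤
        2 * (2 * V / ((p : ℝ) ^ 2) + 1) := by
    intro a ha
    obtain ⟨r, s, hrs⟩ := h2 a ha
    obtain ⟨f1, c1⟩ := count_mod (p ^ 2) (by positivity) V hV r
    obtain ⟨f2, c2⟩ := count_mod (p ^ 2) (by positivity) V hV s
    have hsub : {b : ℤ | |(b : ℝ)| ≤ V ∧ (p : ℤ) ^ 2 ∣ dsc a b} ⊆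
        {b : ℤ | |(b : ℝ)| ≤ V ∧ ((p ^ 2 : ℕ) : ℤ) ∣ b - r} ∪
        {b : ℤ | |(b : ℝ)| ≤ V ∧ ((p ^ 2 : ℕ) : ℤ) ∣ b - s} := by
      rintro b ⟨hb1, hb2⟩
      rcases hrs b hb2 with h | h
      · exact Or.inl ⟨hb1, by push_cast; exact h⟩
      · exact Or.inr ⟨hb1, by push_cast; exact h⟩
    refine ⟨(f1.union f2).subset hsub, ?_⟩
    have h3 := (Set.ncard_le_ncard hsub (f1.union f2)).trans (Set.ncard_union_le _ _)
    have h4 : ({b : ℤ | |(b : ℝ)| ≤ V ∧ (p : ℤ) ^ 2 ∣ dsc a b}.ncard : ℝ) ≤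
        ({b : ℤ | |(b : ℝ)| ≤ V ∧ ((p ^ 2 : ℕ) : ℤ) ∣ b - r}.ncard : ℝ) +
        ({b : ℤ | |(b : ℝ)| ≤ V ∧ ((p ^ 2 : ℕ) : ℤ) ∣ b - s}.ncard : ℝ) := by exact_mod_cast h3
    have e : (((p ^ 2 : ℕ) : ℕ) : ℝ) = (p : ℝ) ^ 2 := by push_cast; rfl
    rw [e] at c1 c2
    linarith
  obtain ⟨F, hFe⟩ : ∃ F : Finset ℤ, F = (Finset.Ioc (0 : ℤ) ⌊U⌋).filter (fun a => ¬ (p : ℤ) ∣ a) :=
    ⟨_, rfl⟩
  have hFm : ∀ a : ℤ, a ∈ F ↔ (0 < a ∧ a ≤ ⌊U⌋) ∧ ¬ (p : ℤ) ∣ a := by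
    intro a
    rw [hFe, Finset.mem_filter, Finset.mem_Ioc]
  have hsub : S1 U V p ⊆ ⋃ a ∈ F, (fun b : ℤ => (a, b)) ''
      {b : ℤ | |(b : ℝ)| ≤ V ∧ (p : ℤ) ^ 2 ∣ dsc a b} := by
    rintro ⟨a, b⟩ ⟨g1, g2, g3, g4, g5⟩
    exact Set.mem_iUnion₂.2 ⟨a, (hFm a).2 ⟨⟨g1, Int.le_floor.2 g2⟩, g4⟩, b, ⟨g3, g5⟩, rfl⟩
  have hfin : (⋃ a ∈ F, (fun b : ℤ => (a, b)) ''
      {b : ℤ | |(b : ℝ)| ≤ V ∧ (p : ℤ) ^ 2 ∣ dsc a b}).Finite := by
    refine Set.Finite.biUnion (Finset.finite_toSet F) fun a ha => ?_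
    exact (hone a ((hFm a).1 ha).2).1.image _
  refine ⟨hfin.subset hsub, ?_⟩
  have h3 := (Set.ncard_le_ncard hsub hfin).trans (Finset.set_ncard_biUnion_le F _)
  have h4 : ((∑ a ∈ F, ((fun b : ℤ => (a, b)) ''
      {b : ℤ | |(b : ℝ)| ≤ V ∧ (p : ℤ) ^ 2 ∣ dsc a b}).ncard : ℕ) : ℝ) ≤
      ∑ _a ∈ F, 2 * (2 * V / ((p : ℝ) ^ 2) + 1) := by
    push_cast
    refine Finset.sum_le_sum fun a ha => ?_
    rw [Set.ncard_image_of_injective _ (Prod.mk_right_injective a)]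
    exact (hone a ((hFm a).1 ha).2).2
  rw [Finset.sum_const, nsmul_eq_mul] at h4
  have h5 : (F.card : ℝ) ≤ U := by
    have h6 : F.card ≤ (Finset.Ioc (0 : ℤ) ⌊U⌋).card := by
      rw [hFe]
      exact Finset.card_filter_le _ _
    rw [Int.card_Ioc, sub_zero] at h6
    have h7 : ((⌊U⌋.toNat : ℕ) : ℝ) ≤ U := by
      have h8 : (0 : ℤ) ≤ ⌊U⌋ := Int.floor_nonneg.2 hU
      have h9 : ((⌊U⌋.toNat : ℤ) : ℝ) = ((⌊U⌋ : ℤ) : ℝ) := by rw [Int.toNat_of_nonneg h8]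
      have h10 : ((⌊U⌋.toNat : ℕ) : ℝ) = ((⌊U⌋ : ℤ) : ℝ) := by
        rw [← h9]
        norm_cast
      rw [h10]
      exact Int.floor_le _
    exact (by exact_mod_cast h6 : (F.card : ℝ) ≤ ((⌊U⌋.toNat : ℕ) : ℝ)).trans h7
  have h6 : ((S1 U V p).ncard : ℝ) ≤ (F.card : ℝ) * (2 * (2 * V / ((p : ℝ) ^ 2) + 1)) :=
    le_trans (by exact_mod_cast h3) h4
  refine h6.trans ((mul_le_mul_of_nonneg_right h5 (by positivity)).trans (le_of_eq ?_))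
  field_simp
  ring

theorem count_S2 (U V : ℝ) (hU : 0 ≤ U) (hV : 0 ≤ V) (p : ℕ) (hp : 0 < p) : (S2 U V p).Finite ∧
    ((S2 U V p).ncard : ℝ) ≤ 2 * (U * V) * ((p : ℝ) ^ 2)⁻¹ + (if (p : ℝ) ≤ U then U else 0) := by
  have hpR : (0 : ℝ) < p := by exact_mod_cast hp
  have hp1 : (1 : ℝ) ≤ p := by exact_mod_cast hp
  obtain ⟨f1, c1⟩ := count_pos p hp U hU
  obtain ⟨f2, c2⟩ := count_mod p hp V hV 0
  have hsub : S2 U V p ⊆ {a : ℤ | 0 < a ∧ (a : ℝ) ≤ U ∧ (p : ℤ) ∣ a} ×ˢ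
      {b : ℤ | |(b : ℝ)| ≤ V ∧ (p : ℤ) ∣ b - 0} := by
    rintro ⟨a, b⟩ ⟨g1, g2, g3, g4, g5⟩
    exact ⟨⟨g1, g2, g4⟩, g3, by rw [sub_zero]; exact g5⟩
  refine ⟨(f1.prod f2).subset hsub, ?_⟩
  have h3 := Set.ncard_le_ncard hsub (f1.prod f2)
  rw [Set.ncard_prod] at h3
  have h4 : ((S2 U V p).ncard : ℝ) ≤
      ({a : ℤ | 0 < a ∧ (a : ℝ) ≤ U ∧ (p : ℤ) ∣ a}.ncard : ℝ) *
      ({b : ℤ | |(b : ℝ)| ≤ V ∧ (p : ℤ) ∣ b - 0}.ncard : ℝ) := by exact_mod_cast h3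
  by_cases hpU : (p : ℝ) ≤ U
  · rw [if_pos hpU]
    have h5 : ((S2 U V p).ncard : ℝ) ≤ (U / p) * (2 * V / p + 1) :=
      h4.trans (mul_le_mul c1 c2 (by positivity) (by positivity))
    refine h5.trans ?_
    have h6 : U / p ≤ U := div_le_self hU hp1
    have e : (U / p) * (2 * V / p + 1) = 2 * (U * V) * ((p : ℝ) ^ 2)⁻¹ + U / p := by
      field_simp
    rw [e]
    linarith
  · rw [if_neg hpU]
    have h5 : {a : ℤ | 0 < a ∧ (a : ℝ) ≤ U ∧ (p : ℤ) ∣ a} = ∅ := by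
      ext a
      constructor
      · rintro ⟨g1, g2, g3⟩
        exfalso
        apply hpU
        have h6 : (p : ℤ) ≤ a := Int.le_of_dvd g1 g3
        have h7 : (p : ℝ) ≤ a := by exact_mod_cast h6
        linarith
      · intro h
        exact h.elim
    rw [h5, Set.ncard_empty] at h4
    have : (0 : ℝ) ≤ 2 * (U * V) * ((p : ℝ) ^ 2)⁻¹ := by positivity
    push_cast at h4
    linarith

/-- Chebyshev -/
theorem cheb (c : ℝ) (hc : 0 < c) : ∃ x0 : ℝ, ∀ x : ℝ, x0 ≤ x →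
    (Nat.primeCounting ⌊x⌋₊ : ℝ) ≤ c * x := by
  have h1 := Chebyshev.eventually_primeCounting_le (ε := 1) one_pos
  have h2 := Real.tendsto_log_atTop.eventually_ge_atTop ((Real.log 4 + 1) / c)
  have h3 := Filter.eventually_ge_atTop (2 : ℝ)
  obtain ⟨x0, hx0⟩ := Filter.eventually_atTop.1 (h1.and (h2.and h3))
  refine ⟨x0, fun x hx => ?_⟩
  obtain ⟨g1, g2, g3⟩ := hx0 x hx
  refine g1.trans ?_
  have hlog : 0 < Real.log x := Real.log_pos (by linarith)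
  rw [div_le_iff₀ hlog]
  rw [div_le_iff₀ hc] at g2
  have hx0' : 0 ≤ x := by linarith
  nlinarith [mul_le_mul_of_nonneg_right g2 hx0']

end DNTM

open DNLM DNTM

theorem specDNT (hDNP : SpecDNP) (hDNH : SpecDNH) : SpecDNT := by
  intro z ε hz hε
  obtain ⟨x0, hx0⟩ := cheb (ε / 24) (by positivity)
  obtain ⟨X2, hX2a, hX2⟩ := exists_large x0 (1 / 2) (by norm_num)
  obtain ⟨X3, hX3a, hX3⟩ := exists_large (2 / ε) (1 / 6) (by norm_num)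
  obtain ⟨hH1, hH2, hH3, hH4⟩ := hDNH
  refine ⟨max X2 X3, fun X hX => ?_⟩
  have hXb : X2 ≤ X := (le_max_left _ _).trans hX
  have hXc : X3 ≤ X := (le_max_right _ _).trans hX
  have hX1 : 1 ≤ X := hX2a.trans hXb
  have hX0 : 0 < X := by linarith
  have hUV := hH4 X hX0.le
  have hV1 := hX2 X hXb
  have h6 := hX3 X hXc
  have hU6 : X ^ (1 / 3 : ℝ) * X ^ (1 / 6 : ℝ) = X ^ (1 / 2 : ℝ) := by
    rw [← Real.rpow_add hX0]
    norm_num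
  have hV2 : X ^ (1 / 2 : ℝ) * X ^ (1 / 2 : ℝ) = X := by
    rw [← Real.rpow_add hX0]
    norm_num
  obtain ⟨U, hUe⟩ : ∃ U, U = X ^ (1 / 3 : ℝ) := ⟨_, rfl⟩
  obtain ⟨V, hVe⟩ : ∃ V, V = X ^ (1 / 2 : ℝ) := ⟨_, rfl⟩
  have hU0 : 0 < U := by rw [hUe]; positivity
  have hV0 : 0 < V := by rw [hVe]; positivity
  rw [← hUe, ← hVe] at hU6 hUV
  rw [← hVe] at hV1 hV2
  have hUV2 : U ≤ ε / 2 * V := by
    rw [← hU6]
    rw [div_le_iff₀ hε] at h6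
    nlinarith
  obtain ⟨K, hK⟩ : ∃ K : ℕ, K = ⌊6 * V⌋₊ := ⟨_, rfl⟩
  obtain ⟨W, hW⟩ : ∃ W : Finset ℕ, W = (Finset.Ioc z K).filter Nat.Prime := ⟨_, rfl⟩
  have hWm : ∀ p : ℕ, p ∈ W ↔ (z < p ∧ p ≤ K) ∧ p.Prime := by
    intro p
    rw [hW, Finset.mem_filter, Finset.mem_Ioc]
  have hsub : {q : ℤ × ℤ | 0 < q.1 ∧ q ∈ Ht X ∧ ∃ p : ℕ, p.Prime ∧ z < p ∧
      (p : ℤ) ^ 2 ∣ dsc q.1 q.2} ⊆ ⋃ p ∈ W, (S1 U V p ∪ S2 U V p) := by
    rintro ⟨a, b⟩ ⟨h1, h2, p, hp, hzp, hdvd⟩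
    have h1' : 0 < a := h1
    have haR : (0 : ℝ) < a := by exact_mod_cast h1'
    have h2' := (hH3 X (a, b) hX0.le).1 h2
    rw [← hUe, ← hVe] at h2'
    have h2a : |(a : ℝ)| ≤ U := h2'.1
    have h2b : |(b : ℝ)| ≤ V := h2'.2
    rw [abs_of_pos haR] at h2a
    have h3a : |(a : ℝ)| ^ 3 ≤ X := h2.1
    have h3b : (b : ℝ) ^ 2 ≤ X := h2.2
    rw [abs_of_pos haR] at h3a
    have hfact : Fact p.Prime := ⟨hp⟩
    have hpos : 0 < dsc a b := by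
      unfold dsc
      have : 0 < a ^ 3 := by positivity
      nlinarith [sq_nonneg b]
    have hle : (p : ℤ) ^ 2 ≤ dsc a b := Int.le_of_dvd hpos hdvd
    have hle' : (p : ℝ) ^ 2 ≤ 31 * X := by
      have h4 : ((p : ℤ) : ℝ) ^ 2 ≤ (dsc a b : ℝ) := by exact_mod_cast hle
      have h5 : (dsc a b : ℝ) = 4 * (a : ℝ) ^ 3 + 27 * (b : ℝ) ^ 2 := by
        unfold dsc
        push_cast
        ring
      rw [h5] at h4
      push_cast at h4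
      linarith
    have hpK : p ≤ K := by
      rw [hK]
      refine Nat.le_floor ?_
      have h4 : (p : ℝ) ^ 2 ≤ (6 * V) ^ 2 := by nlinarith
      exact le_of_sq_le_sq h4 (by positivity)
    refine Set.mem_iUnion₂.2 ⟨p, (hWm p).2 ⟨⟨hzp, hpK⟩, hp⟩, ?_⟩
    by_cases hpa : (p : ℤ) ∣ a
    · exact Or.inr ⟨h1', h2a, h2b, hpa, (hDNP p (by omega)).1 a b hpa hdvd⟩
    · exact Or.inl ⟨h1', h2a, h2b, hpa, hdvd⟩
  have hfin : (⋃ p ∈ W, (S1 U V p ∪ S2 U V p)).Finite := by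
    refine Set.Finite.biUnion (Finset.finite_toSet W) fun p hp => ?_
    have hp' := (hWm p).1 hp
    exact (count_S1 hDNP U V hU0.le hV0.le p hp'.2 (by omega)).1.union
      (count_S2 U V hU0.le hV0.le p hp'.2.pos).1
  have h3 := (Set.ncard_le_ncard hsub hfin).trans (Finset.set_ncard_biUnion_le W _)
  have h4 : ((∑ p ∈ W, (S1 U V p ∪ S2 U V p).ncard : ℕ) : ℝ) ≤
      ∑ p ∈ W, (6 * (U * V) * ((p : ℝ) ^ 2)⁻¹ + 2 * U + (if (p : ℝ) ≤ U then U else 0)) := by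
    push_cast
    refine Finset.sum_le_sum fun p hp => ?_
    have hp' := (hWm p).1 hp
    have h5 := (count_S1 hDNP U V hU0.le hV0.le p hp'.2 (by omega)).2
    have h6 := (count_S2 U V hU0.le hV0.le p hp'.2.pos).2
    have h7 : ((S1 U V p ∪ S2 U V p).ncard : ℝ) ≤ ((S1 U V p).ncard : ℝ) + ((S2 U V p).ncard : ℝ) := by
      exact_mod_cast Set.ncard_union_le _ _
    linarith
  rw [Finset.sum_add_distrib, Finset.sum_add_distrib, ← Finset.mul_sum, Finset.sum_const,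
    nsmul_eq_mul, ← Finset.sum_filter, Finset.sum_const, nsmul_eq_mul] at h4
  have h5 : ∑ p ∈ W, ((p : ℝ) ^ 2)⁻¹ ≤ (z : ℝ)⁻¹ := by
    have h6 : ∑ p ∈ W, ((p : ℝ) ^ 2)⁻¹ ≤ ∑ p ∈ Finset.Ioc z K, ((p : ℝ) ^ 2)⁻¹ := by
      rw [hW]
      exact Finset.sum_le_sum_of_subset_of_nonneg (Finset.filter_subset _ _)
        (fun _ _ _ => by positivity)
    by_cases hzK : z ≤ K
    · have h7 := sum_Ioc_inv_sq_le_sub (α := ℝ) (k := z) (n := K) (by omega) hzK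
      have h8 : (0 : ℝ) ≤ (K : ℝ)⁻¹ := by positivity
      linarith
    · rw [Finset.Ioc_eq_empty (by omega)] at h6
      simp only [Finset.sum_empty] at h6
      exact h6.trans (by positivity)
  have h7 : (W.card : ℝ) ≤ ε / 4 * V := by
    have h8 : W.card ≤ Nat.primeCounting K := by
      rw [Nat.primeCounting, Nat.primeCounting', Nat.count_eq_card_filter_range, hW]
      refine Finset.card_le_card ?_
      intro p hp
      rw [Finset.mem_filter, Finset.mem_Ioc] at hp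
      rw [Finset.mem_filter, Finset.mem_range]
      exact ⟨by omega, hp.2⟩
    have h9 := hx0 (6 * V) (by linarith)
    rw [← hK] at h9
    have h10 : (W.card : ℝ) ≤ (Nat.primeCounting K : ℝ) := by exact_mod_cast h8
    linarith
  have h8 : ((W.filter fun p : ℕ => (p : ℝ) ≤ U).card : ℝ) ≤ U := by
    have h9 : (W.filter fun p : ℕ => (p : ℝ) ≤ U).card ≤ (Finset.Ioc 0 ⌊U⌋₊).card := by
      refine Finset.card_le_card ?_
      intro p hp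
      rw [Finset.mem_filter] at hp
      rw [Finset.mem_Ioc]
      exact ⟨((hWm p).1 hp.1).2.pos, Nat.le_floor hp.2⟩
    rw [Nat.card_Ioc, Nat.sub_zero] at h9
    have h10 : ((⌊U⌋₊ : ℕ) : ℝ) ≤ U := Nat.floor_le hU0.le
    exact (by exact_mod_cast h9 : ((W.filter fun p : ℕ => (p : ℝ) ≤ U).card : ℝ) ≤
      ((⌊U⌋₊ : ℕ) : ℝ)).trans h10
  have hUV0 : 0 < U * V := mul_pos hU0 hV0
  rw [← hUV]
  have h9 : (({q : ℤ × ℤ | 0 < q.1 ∧ q ∈ Ht X ∧ ∃ p : ℕ, p.Prime ∧ z < p ∧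
      (p : ℤ) ^ 2 ∣ dsc q.1 q.2}.ncard : ℕ) : ℝ) ≤ _ := le_trans (by exact_mod_cast h3) h4
  refine h9.trans ?_
  have g1 : 6 * (U * V) * ∑ p ∈ W, ((p : ℝ) ^ 2)⁻¹ ≤ 6 * (U * V) * (z : ℝ)⁻¹ :=
    mul_le_mul_of_nonneg_left h5 (by positivity)
  have g2 : (W.card : ℝ) * (2 * U) ≤ ε / 2 * (U * V) := by nlinarith
  have g3 : ((W.filter fun p : ℕ => (p : ℝ) ≤ U).card : ℝ) * U ≤ ε / 2 * (U * V) := by nlinarith
  have e : (6 / (z : ℝ) + ε) * (U * V) = 6 * (U * V) * (z : ℝ)⁻¹ + ε / 2 * (U * V) +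
      ε / 2 * (U * V) := by
    rw [div_eq_mul_inv]
    ring
  rw [e]
  linarith

end Pool.Agent.Lib.MP_8cb858_nt.PR
end

section
/-!
# TLA: the tail of the squarefree sieve, all pairs of integers
-/
namespace Pool.Agent.Lib.MP_8cb858_nt.PT

open scoped Classical

namespace TLAM

theorem dz_eq (a b : ℤ) : PR.dsc a b = dz a b := rfl

/-- the nonzero integers of absolute value at most `U` -/
theorem count_ne (U : ℝ) (hU : 0 ≤ U) (F : Finset ℤ)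
    (hF : ∀ a ∈ F, a ≠ 0 ∧ |(a : ℝ)| ≤ U) : (F.card : ℝ) ≤ 2 * U := by
  obtain ⟨n, hn⟩ : ∃ n : ℕ, n = ⌊U⌋₊ := ⟨_, rfl⟩
  have hsub : F ⊆ (Finset.Icc (-(n : ℤ)) n).erase 0 := by
    intro a ha
    obtain ⟨h1, h2⟩ := hF a ha
    have h3 : a.natAbs ≤ n := by
      rw [hn]
      apply Nat.le_floor
      rw [Nat.cast_natAbs]
      push_cast
      exact h2
    rw [Finset.mem_erase, Finset.mem_Icc]
    refine ⟨h1, ?_, ?_⟩ <;> omega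
  have h1 := Finset.card_le_card hsub
  rw [Finset.card_erase_of_mem (by rw [Finset.mem_Icc]; constructor <;> omega), Int.card_Icc] at h1
  have h2 : F.card ≤ 2 * n := by omega
  have h3 : (n : ℝ) ≤ U := by
    rw [hn]
    exact Nat.floor_le hU
  have h4 : (F.card : ℝ) ≤ 2 * (n : ℝ) := by exact_mod_cast h2
  linarith

theorem count_mul (p : ℕ) (hp : 0 < p) (U : ℝ) (hU : 0 ≤ U) :
    {a : ℤ | a ≠ 0 ∧ |(a : ℝ)| ≤ U ∧ (p : ℤ) ∣ a}.Finite ∧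
    ({a : ℤ | a ≠ 0 ∧ |(a : ℝ)| ≤ U ∧ (p : ℤ) ∣ a}.ncard : ℝ) ≤ 2 * (U / p) := by
  have hpR : (0 : ℝ) < p := by exact_mod_cast hp
  obtain ⟨n, hn⟩ : ∃ n : ℕ, n = ⌊U / p⌋₊ := ⟨_, rfl⟩
  obtain ⟨F, hFe⟩ : ∃ F : Finset ℤ, F = (Finset.Icc (-(n : ℤ)) n).erase 0 := ⟨_, rfl⟩
  have hsub : {a : ℤ | a ≠ 0 ∧ |(a : ℝ)| ≤ U ∧ (p : ℤ) ∣ a} ⊆ (fun k : ℤ => (p : ℤ) * k) '' (F : Set ℤ) := by
    rintro a ⟨h1, h2, k, rfl⟩
    refine ⟨k, ?_, rfl⟩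
    have hk : k ≠ 0 := by
      rintro rfl
      exact h1 (mul_zero _)
    have h3 : k.natAbs ≤ n := by
      rw [hn]
      apply Nat.le_floor
      rw [Nat.cast_natAbs]
      push_cast
      rw [le_div_iff₀ hpR]
      push_cast at h2
      rw [abs_mul, abs_of_pos hpR] at h2
      linarith
    rw [hFe, Finset.mem_coe, Finset.mem_erase, Finset.mem_Icc]
    refine ⟨hk, ?_, ?_⟩ <;> omega
  have hfin : ((fun k : ℤ => (p : ℤ) * k) '' (F : Set ℤ)).Finite := (Finset.finite_toSet _).image _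
  refine ⟨hfin.subset hsub, ?_⟩
  have h1 := Set.ncard_le_ncard hsub hfin
  have h2 : ((fun k : ℤ => (p : ℤ) * k) '' (F : Set ℤ)).ncard ≤ F.card := by
    rw [← Set.ncard_coe_finset]
    exact Set.ncard_image_le (Finset.finite_toSet _)
  have h3 : F.card ≤ 2 * n := by
    rw [hFe, Finset.card_erase_of_mem (by rw [Finset.mem_Icc]; constructor <;> omega), Int.card_Icc]
    omega
  have h4 : (n : ℝ) ≤ U / p := by
    rw [hn]
    exact Nat.floor_le (by positivity)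
  have h5 : ({a : ℤ | a ≠ 0 ∧ |(a : ℝ)| ≤ U ∧ (p : ℤ) ∣ a}.ncard : ℝ) ≤ 2 * (n : ℝ) := by
    exact_mod_cast h1.trans (h2.trans h3)
  linarith

/-- the pairs with `a` prime to `p` -/
def S1 (U V : ℝ) (p : ℕ) : Set (ℤ × ℤ) :=
  {q | q.1 ≠ 0 ∧ |(q.1 : ℝ)| ≤ U ∧ |(q.2 : ℝ)| ≤ V ∧ ¬ (p : ℤ) ∣ q.1 ∧ (p : ℤ) ^ 2 ∣ PR.dsc q.1 q.2}

/-- the pairs with `a` and `b` divisible by `p` -/
def S2 (U V : ℝ) (p : ℕ) : Set (ℤ × ℤ) :=
  {q | q.1 ≠ 0 ∧ |(q.1 : ℝ)| ≤ U ∧ |(q.2 : ℝ)| ≤ V ∧ (p : ℤ) ∣ q.1 ∧ (p : ℤ) ∣ q.2}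

/-- the pairs with `a = 0` -/
def S0 (V : ℝ) : Set (ℤ × ℤ) := {q | q.1 = 0 ∧ |(q.2 : ℝ)| ≤ V}

theorem count_S0 (V : ℝ) (hV : 0 ≤ V) : (S0 V).Finite ∧ ((S0 V).ncard : ℝ) ≤ 2 * V + 1 := by
  obtain ⟨f1, c1⟩ := PR.DNTM.count_mod 1 one_pos V hV 0
  have hsub : S0 V ⊆ (fun b : ℤ => ((0 : ℤ), b)) '' {b : ℤ | |(b : ℝ)| ≤ V ∧ ((1 : ℕ) : ℤ) ∣ b - 0} := by
    rintro ⟨a, b⟩ ⟨h1, h2⟩
    refine ⟨b, ⟨h2, by simp⟩, ?_⟩
    simp only at h1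
    simp [h1]
  refine ⟨(f1.image _).subset hsub, ?_⟩
  have h1 := (Set.ncard_le_ncard hsub (f1.image _)).trans (Set.ncard_image_le f1)
  have h2 : ((S0 V).ncard : ℝ) ≤ ({b : ℤ | |(b : ℝ)| ≤ V ∧ ((1 : ℕ) : ℤ) ∣ b - 0}.ncard : ℝ) := by
    exact_mod_cast h1
  have h3 : 2 * V / ((1 : ℕ) : ℝ) = 2 * V := by simp
  rw [h3] at c1
  linarith

theorem count_S1 (hDNP : PR.SpecDNP) (U V : ℝ) (hU : 0 ≤ U) (hV : 0 ≤ V) (p : ℕ) (hp : p.Prime)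
    (hp5 : 5 ≤ p) : (S1 U V p).Finite ∧
    ((S1 U V p).ncard : ℝ) ≤ 8 * (U * V) * ((p : ℝ) ^ 2)⁻¹ + 4 * U := by
  have hfact : Fact p.Prime := ⟨hp⟩
  obtain ⟨_, h2, _⟩ := hDNP p hp5
  have hpR : (0 : ℝ) < p := by exact_mod_cast hp.pos
  have hone : ∀ a : ℤ, ¬ (p : ℤ) ∣ a →
      {b : ℤ | |(b : ℝ)| ≤ V ∧ (p : ℤ) ^ 2 ∣ PR.dsc a b}.Finite ∧
      ({b : ℤ | |(b : ℝ)| ≤ V ∧ (p : ℤ) ^ 2 ∣ PR.dsc a b}.ncard : ℝ) ≤
        2 * (2 * V / ((p : ℝ) ^ 2) + 1) := by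
    intro a ha
    obtain ⟨r, s, hrs⟩ := h2 a ha
    obtain ⟨f1, c1⟩ := PR.DNTM.count_mod (p ^ 2) (by positivity) V hV r
    obtain ⟨f2, c2⟩ := PR.DNTM.count_mod (p ^ 2) (by positivity) V hV s
    have hsub : {b : ℤ | |(b : ℝ)| ≤ V ∧ (p : ℤ) ^ 2 ∣ PR.dsc a b} ⊆
        {b : ℤ | |(b : ℝ)| ≤ V ∧ ((p ^ 2 : ℕ) : ℤ) ∣ b - r} ∪
        {b : ℤ | |(b : ℝ)| ≤ V ∧ ((p ^ 2 : ℕ) : ℤ) ∣ b - s} := by
      rintro b ⟨hb1, hb2⟩
      rcases hrs b hb2 with h | h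
      · exact Or.inl ⟨hb1, by push_cast; exact h⟩
      · exact Or.inr ⟨hb1, by push_cast; exact h⟩
    refine ⟨(f1.union f2).subset hsub, ?_⟩
    have h3 := (Set.ncard_le_ncard hsub (f1.union f2)).trans (Set.ncard_union_le _ _)
    have h4 : ({b : ℤ | |(b : ℝ)| ≤ V ∧ (p : ℤ) ^ 2 ∣ PR.dsc a b}.ncard : ℝ) ≤
        ({b : ℤ | |(b : ℝ)| ≤ V ∧ ((p ^ 2 : ℕ) : ℤ) ∣ b - r}.ncard : ℝ) +
        ({b : ℤ | |(b : ℝ)| ≤ V ∧ ((p ^ 2 : ℕ) : ℤ) ∣ b - s}.ncard : ℝ) := by exact_mod_cast h3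
    have e : (((p ^ 2 : ℕ) : ℕ) : ℝ) = (p : ℝ) ^ 2 := by push_cast; rfl
    rw [e] at c1 c2
    linarith
  obtain ⟨F, hFe⟩ : ∃ F : Finset ℤ, F = (Finset.Icc (-⌊U⌋) ⌊U⌋).filter
    (fun a => a ≠ 0 ∧ ¬ (p : ℤ) ∣ a) := ⟨_, rfl⟩
  have hFm : ∀ a : ℤ, a ∈ F ↔ (|(a : ℝ)| ≤ U) ∧ a ≠ 0 ∧ ¬ (p : ℤ) ∣ a := by
    intro a
    rw [hFe, Finset.mem_filter, Finset.mem_Icc, Int.le_floor, abs_le]
    constructor
    · rintro ⟨⟨g1, g2⟩, g3⟩
      refine ⟨⟨?_, g2⟩, g3⟩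
      have g4 : -a ≤ ⌊U⌋ := by omega
      have g5 := Int.le_floor.1 g4
      push_cast at g5
      linarith
    · rintro ⟨⟨g1, g2⟩, g3⟩
      refine ⟨⟨?_, g2⟩, g3⟩
      have g4 : -a ≤ ⌊U⌋ := Int.le_floor.2 (by push_cast; linarith)
      omega
  have hsub : S1 U V p ⊆ ⋃ a ∈ F, (fun b : ℤ => (a, b)) ''
      {b : ℤ | |(b : ℝ)| ≤ V ∧ (p : ℤ) ^ 2 ∣ PR.dsc a b} := by
    rintro ⟨a, b⟩ ⟨g1, g2, g3, g4, g5⟩
    exact Set.mem_iUnion₂.2 ⟨a, (hFm a).2 ⟨g2, g1, g4⟩, b, ⟨g3, g5⟩, rfl⟩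
  have hfin : (⋃ a ∈ F, (fun b : ℤ => (a, b)) ''
      {b : ℤ | |(b : ℝ)| ≤ V ∧ (p : ℤ) ^ 2 ∣ PR.dsc a b}).Finite := by
    refine Set.Finite.biUnion (Finset.finite_toSet F) fun a ha => ?_
    exact (hone a ((hFm a).1 ha).2.2).1.image _
  refine ⟨hfin.subset hsub, ?_⟩
  have h3 := (Set.ncard_le_ncard hsub hfin).trans (Finset.set_ncard_biUnion_le F _)
  have h4 : ((∑ a ∈ F, ((fun b : ℤ => (a, b)) ''
      {b : ℤ | |(b : ℝ)| ≤ V ∧ (p : ℤ) ^ 2 ∣ PR.dsc a b}).ncard : ℕ) : ℝ) ≤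
      ∑ _a ∈ F, 2 * (2 * V / ((p : ℝ) ^ 2) + 1) := by
    push_cast
    refine Finset.sum_le_sum fun a ha => ?_
    rw [Set.ncard_image_of_injective _ (Prod.mk_right_injective a)]
    exact (hone a ((hFm a).1 ha).2.2).2
  rw [Finset.sum_const, nsmul_eq_mul] at h4
  have h5 : (F.card : ℝ) ≤ 2 * U :=
    count_ne U hU F fun a ha => ⟨((hFm a).1 ha).2.1, ((hFm a).1 ha).1⟩
  have h6 : ((S1 U V p).ncard : ℝ) ≤ (F.card : ℝ) * (2 * (2 * V / ((p : ℝ) ^ 2) + 1)) :=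
    le_trans (by exact_mod_cast h3) h4
  refine h6.trans ((mul_le_mul_of_nonneg_right h5 (by positivity)).trans (le_of_eq ?_))
  field_simp
  ring

theorem count_S2 (U V : ℝ) (hU : 0 ≤ U) (hV : 0 ≤ V) (p : ℕ) (hp : 0 < p) : (S2 U V p).Finite ∧
    ((S2 U V p).ncard : ℝ) ≤ 4 * (U * V) * ((p : ℝ) ^ 2)⁻¹ +
      (if (p : ℝ) ≤ U then 2 * U else 0) := by
  have hpR : (0 : ℝ) < p := by exact_mod_cast hp
  have hp1 : (1 : ℝ) ≤ p := by exact_mod_cast hp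
  obtain ⟨f1, c1⟩ := count_mul p hp U hU
  obtain ⟨f2, c2⟩ := PR.DNTM.count_mod p hp V hV 0
  have hsub : S2 U V p ⊆ {a : ℤ | a ≠ 0 ∧ |(a : ℝ)| ≤ U ∧ (p : ℤ) ∣ a} ×ˢ
      {b : ℤ | |(b : ℝ)| ≤ V ∧ (p : ℤ) ∣ b - 0} := by
    rintro ⟨a, b⟩ ⟨g1, g2, g3, g4, g5⟩
    exact ⟨⟨g1, g2, g4⟩, g3, by rw [sub_zero]; exact g5⟩
  refine ⟨(f1.prod f2).subset hsub, ?_⟩
  have h3 := Set.ncard_le_ncard hsub (f1.prod f2)
  rw [Set.ncard_prod] at h3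
  have h4 : ((S2 U V p).ncard : ℝ) ≤
      ({a : ℤ | a ≠ 0 ∧ |(a : ℝ)| ≤ U ∧ (p : ℤ) ∣ a}.ncard : ℝ) *
      ({b : ℤ | |(b : ℝ)| ≤ V ∧ (p : ℤ) ∣ b - 0}.ncard : ℝ) := by exact_mod_cast h3
  by_cases hpU : (p : ℝ) ≤ U
  · rw [if_pos hpU]
    have h5 : ((S2 U V p).ncard : ℝ) ≤ (2 * (U / p)) * (2 * V / p + 1) :=
      h4.trans (mul_le_mul c1 c2 (by positivity) (by positivity))
    refine h5.trans ?_
    have h6 : U / p ≤ U := div_le_self hU hp1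
    have e : (2 * (U / p)) * (2 * V / p + 1) = 4 * (U * V) * ((p : ℝ) ^ 2)⁻¹ + 2 * (U / p) := by
      field_simp
      ring
    rw [e]
    linarith
  · rw [if_neg hpU]
    have h5 : {a : ℤ | a ≠ 0 ∧ |(a : ℝ)| ≤ U ∧ (p : ℤ) ∣ a} = ∅ := by
      ext a
      constructor
      · rintro ⟨g1, g2, g3⟩
        exfalso
        apply hpU
        have h6 : p ≤ a.natAbs := Nat.le_of_dvd (Int.natAbs_pos.2 g1) (Int.natCast_dvd.1 g3)
        have h7 : (p : ℝ) ≤ (a.natAbs : ℝ) := by exact_mod_cast h6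
        rw [Nat.cast_natAbs] at h7
        push_cast at h7
        linarith
      · intro h
        exact h.elim
    rw [h5, Set.ncard_empty] at h4
    have : (0 : ℝ) ≤ 4 * (U * V) * ((p : ℝ) ^ 2)⁻¹ := by positivity
    push_cast at h4
    linarith

end TLAM

open TLAM PR.DNLM

theorem specTLA (hDNP : PR.SpecDNP) (hDNH : PR.SpecDNH) : SpecTLA := by
  intro z ε hz hε
  obtain ⟨x0, hx0⟩ := PR.DNTM.cheb (ε / 72) (by positivity)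
  obtain ⟨X2, hX2a, hX2⟩ := exists_large x0 (1 / 2) (by norm_num)
  obtain ⟨X3, hX3a, hX3⟩ := exists_large (6 / ε) (1 / 6) (by norm_num)
  obtain ⟨X4, hX4a, hX4⟩ := exists_large (9 / ε) (1 / 3) (by norm_num)
  obtain ⟨hH1, hH2, hH3, hH4⟩ := hDNH
  refine ⟨max X2 (max X3 X4), fun X hX => ?_⟩
  have hXb : X2 ≤ X := (le_max_left _ _).trans hX
  have hXc : X3 ≤ X := (le_max_left _ _).trans ((le_max_right _ _).trans hX)
  have hXd : X4 ≤ X := (le_max_right _ _).trans ((le_max_right _ _).trans hX)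
  have hX1 : 1 ≤ X := hX2a.trans hXb
  have hX0 : 0 < X := by linarith
  have hUV := hH4 X hX0.le
  have hV1 := hX2 X hXb
  have h6 := hX3 X hXc
  have h7 := hX4 X hXd
  have hU6 : X ^ (1 / 3 : ℝ) * X ^ (1 / 6 : ℝ) = X ^ (1 / 2 : ℝ) := by
    rw [← Real.rpow_add hX0]
    norm_num
  have hV2 : X ^ (1 / 2 : ℝ) * X ^ (1 / 2 : ℝ) = X := by
    rw [← Real.rpow_add hX0]
    norm_num
  have hV3 : 1 ≤ X ^ (1 / 2 : ℝ) := Real.one_le_rpow hX1 (by norm_num)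
  obtain ⟨U, hUe⟩ : ∃ U, U = X ^ (1 / 3 : ℝ) := ⟨_, rfl⟩
  obtain ⟨V, hVe⟩ : ∃ V, V = X ^ (1 / 2 : ℝ) := ⟨_, rfl⟩
  have hU0 : 0 < U := by rw [hUe]; positivity
  have hV0 : 0 < V := by rw [hVe]; positivity
  rw [← hUe, ← hVe] at hU6 hUV
  rw [← hVe] at hV1 hV2 hV3
  rw [← hUe] at h7
  have hUV2 : U ≤ ε / 6 * V := by
    rw [← hU6]
    rw [div_le_iff₀ hε] at h6
    nlinarith
  obtain ⟨K, hK⟩ : ∃ K : ℕ, K = ⌊6 * V⌋₊ := ⟨_, rfl⟩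
  obtain ⟨W, hW⟩ : ∃ W : Finset ℕ, W = (Finset.Ioc z K).filter Nat.Prime := ⟨_, rfl⟩
  have hWm : ∀ p : ℕ, p ∈ W ↔ (z < p ∧ p ≤ K) ∧ p.Prime := by
    intro p
    rw [hW, Finset.mem_filter, Finset.mem_Ioc]
  have hsub : {q ∈ Hz X | ∃ p : ℕ, p.Prime ∧ z < p ∧ (p : ℤ) ^ 2 ∣ dz q.1 q.2} ⊆
      S0 V ∪ ⋃ p ∈ W, (S1 U V p ∪ S2 U V p) := by
    rintro ⟨a, b⟩ ⟨h2, p, hp, hzp, hdvd⟩
    have h2' := (hH3 X (a, b) hX0.le).1 ⟨h2.1, h2.2.1⟩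
    rw [← hUe, ← hVe] at h2'
    have h2a : |(a : ℝ)| ≤ U := h2'.1
    have h2b : |(b : ℝ)| ≤ V := h2'.2
    by_cases ha0 : a = 0
    · exact Or.inl ⟨ha0, h2b⟩
    right
    have h3a : |(a : ℝ)| ^ 3 ≤ X := h2.1
    have h3b : (b : ℝ) ^ 2 ≤ X := h2.2.1
    have h3c : dz a b ≠ 0 := h2.2.2
    have hfact : Fact p.Prime := ⟨hp⟩
    have hle : (p : ℤ) ^ 2 ≤ |dz a b| := by
      refine Int.le_of_dvd (abs_pos.2 h3c) ?_
      rw [dvd_abs]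
      exact hdvd
    have hle' : (p : ℝ) ^ 2 ≤ 31 * X := by
      have h4 : ((p : ℤ) : ℝ) ^ 2 ≤ |(dz a b : ℝ)| := by exact_mod_cast hle
      have h5 : (dz a b : ℝ) = 4 * (a : ℝ) ^ 3 + 27 * (b : ℝ) ^ 2 := by
        unfold dz
        push_cast
        ring
      have h6 : |(dz a b : ℝ)| ≤ 4 * |(a : ℝ)| ^ 3 + 27 * (b : ℝ) ^ 2 := by
        rw [h5]
        refine (abs_add_le _ _).trans ?_
        rw [abs_mul, abs_mul, abs_pow, abs_of_pos (by norm_num : (0 : ℝ) < 4),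
          abs_of_pos (by norm_num : (0 : ℝ) < 27), abs_of_nonneg (sq_nonneg (b : ℝ))]
      push_cast at h4
      linarith
    have hpK : p ≤ K := by
      rw [hK]
      refine Nat.le_floor ?_
      have h4 : (p : ℝ) ^ 2 ≤ (6 * V) ^ 2 := by nlinarith
      exact le_of_sq_le_sq h4 (by positivity)
    refine Set.mem_iUnion₂.2 ⟨p, (hWm p).2 ⟨⟨hzp, hpK⟩, hp⟩, ?_⟩
    by_cases hpa : (p : ℤ) ∣ a
    · exact Or.inr ⟨ha0, h2a, h2b, hpa, (hDNP p (by omega)).1 a b hpa hdvd⟩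
    · exact Or.inl ⟨ha0, h2a, h2b, hpa, hdvd⟩
  have hfin : (⋃ p ∈ W, (S1 U V p ∪ S2 U V p)).Finite := by
    refine Set.Finite.biUnion (Finset.finite_toSet W) fun p hp => ?_
    have hp' := (hWm p).1 hp
    exact (count_S1 hDNP U V hU0.le hV0.le p hp'.2 (by omega)).1.union
      (count_S2 U V hU0.le hV0.le p hp'.2.pos).1
  obtain ⟨fS0, cS0⟩ := count_S0 V hV0.le
  have h3a := (Set.ncard_le_ncard hsub (fS0.union hfin)).trans (Set.ncard_union_le _ _)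
  have h3 := Finset.set_ncard_biUnion_le W (fun p => S1 U V p ∪ S2 U V p)
  have h4 : ((∑ p ∈ W, (S1 U V p ∪ S2 U V p).ncard : ℕ) : ℝ) ≤
      ∑ p ∈ W, (12 * (U * V) * ((p : ℝ) ^ 2)⁻¹ + 4 * U + (if (p : ℝ) ≤ U then 2 * U else 0)) := by
    push_cast
    refine Finset.sum_le_sum fun p hp => ?_
    have hp' := (hWm p).1 hp
    have h5 := (count_S1 hDNP U V hU0.le hV0.le p hp'.2 (by omega)).2
    have h6 := (count_S2 U V hU0.le hV0.le p hp'.2.pos).2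
    have h7 : ((S1 U V p ∪ S2 U V p).ncard : ℝ) ≤ ((S1 U V p).ncard : ℝ) + ((S2 U V p).ncard : ℝ) := by
      exact_mod_cast Set.ncard_union_le _ _
    linarith
  rw [Finset.sum_add_distrib, Finset.sum_add_distrib, ← Finset.mul_sum, Finset.sum_const,
    nsmul_eq_mul, ← Finset.sum_filter, Finset.sum_const, nsmul_eq_mul] at h4
  have h5 : ∑ p ∈ W, ((p : ℝ) ^ 2)⁻¹ ≤ (z : ℝ)⁻¹ := by
    have h6 : ∑ p ∈ W, ((p : ℝ) ^ 2)⁻¹ ≤ ∑ p ∈ Finset.Ioc z K, ((p : ℝ) ^ 2)⁻¹ := by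
      rw [hW]
      exact Finset.sum_le_sum_of_subset_of_nonneg (Finset.filter_subset _ _)
        (fun _ _ _ => by positivity)
    by_cases hzK : z ≤ K
    · have h7 := sum_Ioc_inv_sq_le_sub (α := ℝ) (k := z) (n := K) (by omega) hzK
      have h8 : (0 : ℝ) ≤ (K : ℝ)⁻¹ := by positivity
      linarith
    · rw [Finset.Ioc_eq_empty (by omega)] at h6
      simp only [Finset.sum_empty] at h6
      exact h6.trans (by positivity)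
  have h7' : (W.card : ℝ) ≤ ε / 12 * V := by
    have h8 : W.card ≤ Nat.primeCounting K := by
      rw [Nat.primeCounting, Nat.primeCounting', Nat.count_eq_card_filter_range, hW]
      refine Finset.card_le_card ?_
      intro p hp
      rw [Finset.mem_filter, Finset.mem_Ioc] at hp
      rw [Finset.mem_filter, Finset.mem_range]
      exact ⟨by omega, hp.2⟩
    have h9 := hx0 (6 * V) (by linarith)
    rw [← hK] at h9
    have h10 : (W.card : ℝ) ≤ (Nat.primeCounting K : ℝ) := by exact_mod_cast h8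
    linarith
  have h8 : ((W.filter fun p : ℕ => (p : ℝ) ≤ U).card : ℝ) ≤ U := by
    have h9 : (W.filter fun p : ℕ => (p : ℝ) ≤ U).card ≤ (Finset.Ioc 0 ⌊U⌋₊).card := by
      refine Finset.card_le_card ?_
      intro p hp
      rw [Finset.mem_filter] at hp
      rw [Finset.mem_Ioc]
      exact ⟨((hWm p).1 hp.1).2.pos, Nat.le_floor hp.2⟩
    rw [Nat.card_Ioc, Nat.sub_zero] at h9
    have h10 : ((⌊U⌋₊ : ℕ) : ℝ) ≤ U := Nat.floor_le hU0.le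
    exact (by exact_mod_cast h9 : ((W.filter fun p : ℕ => (p : ℝ) ≤ U).card : ℝ) ≤
      ((⌊U⌋₊ : ℕ) : ℝ)).trans h10
  have hUV0 : 0 < U * V := mul_pos hU0 hV0
  rw [← hUV]
  have h9 : (({q ∈ Hz X | ∃ p : ℕ, p.Prime ∧ z < p ∧ (p : ℤ) ^ 2 ∣ dz q.1 q.2}.ncard : ℕ) : ℝ) ≤
      ((S0 V).ncard : ℝ) + ((∑ p ∈ W, (S1 U V p ∪ S2 U V p).ncard : ℕ) : ℝ) := by
    have h10 := h3a.trans (Nat.add_le_add_left h3 _)
    exact_mod_cast h10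
  refine h9.trans ?_
  have g0 : ((S0 V).ncard : ℝ) ≤ ε / 3 * (U * V) := by
    have g01 : 9 ≤ U * ε := by
      rw [div_le_iff₀ hε] at h7
      exact h7
    nlinarith
  have g1 : 12 * (U * V) * ∑ p ∈ W, ((p : ℝ) ^ 2)⁻¹ ≤ 12 * (U * V) * (z : ℝ)⁻¹ :=
    mul_le_mul_of_nonneg_left h5 (by positivity)
  have g2 : (W.card : ℝ) * (4 * U) ≤ ε / 3 * (U * V) := by nlinarith
  have g3 : ((W.filter fun p : ℕ => (p : ℝ) ≤ U).card : ℝ) * (2 * U) ≤ ε / 3 * (U * V) := by nlinarith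
  have e : (12 / (z : ℝ) + ε) * (U * V) = 12 * (U * V) * (z : ℝ)⁻¹ + ε / 3 * (U * V) +
      ε / 3 * (U * V) + ε / 3 * (U * V) := by
    rw [div_eq_mul_inv]
    ring
  rw [e]
  linarith

end Pool.Agent.Lib.MP_8cb858_nt.PT
end
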