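import Pool.Agent.Lib.MP_8cb858_nt.PT.SpecA

/-!
# Specs: the node structure (Theorem S*)

Design: /team-store/MP_8cb858_STAR_design.txt. `S : Dat` are the data of Theorem S*: `r` lists `S.L i` of primes, `K0`
(a multiple of 6, of `D1` and of all small primes), `D1`, and auxiliary primes `S.mm K c j` (the `j`-th auxiliary prime in the
class `c` at `K`). `p ∈ Ω = Fintype.piFinset S.L`. For a curve `E = (a, b)`:
`Jx` = indices of type (1,1,1) (junk), `Ux` = indices of type (1,2), `Kx = K0 ∏_J p_j`, `Dx U = D1 ∏_(J ∪ U) p_i m`, `m` = the first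
auxiliary prime of type (3) in the class at `Kx` of the product of the other `p_i`, `sx U = log_2 #Sel(E^(Dx U))`.
Module XXX = file `PT/XXX.lean`, `theorem specXXX (hYYY : SpecYYY) .. : SpecXXX`, own lemmas in the namespace
`Pool.Agent.Lib.MP_8cb858_nt.PT.XXXM`. Every Spec is a closed proposition with a complete proof in its doc string.
-/

namespace Pool.Agent.Lib.MP_8cb858_nt.PT

open Polynomial NumberField IsDedekindDomain Pool.Agent.Lib.MP_8cb858_nt.SEL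
open Pool.Agent.Lib.MP_8cb858_nt.PF
open scoped Classical WithZero

/-- The data. -/
structure Dat where
  r : ℕ
  K0 : ℕ
  D1 : ℕ
  L : Fin r → Finset ℕ
  mm : ℕ → (Finset ℕ × ℕ) → ℕ → ℕ

namespace Dat

/-- The conditions on the data. -/
structure Ok (S : Dat) : Prop where
  rp : 0 < S.r
  k0 : 0 < S.K0
  six : 6 ∣ S.K0
  d1 : S.D1 ∣ S.K0
  sqf : Squarefree S.D1
  lpr : ∀ i, ∀ q ∈ S.L i, q.Prime ∧ ¬ q ∣ S.K0
  dis : ∀ i j, i ≠ j → Disjoint (S.L i) (S.L j)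
  inj : ∀ K n : ℕ, 0 < K → 6 ∣ K → n.Coprime K → Function.Injective (S.mm K (cl K n))
  aux : ∀ K n j : ℕ, 0 < K → 6 ∣ K → n.Coprime K →
    (S.mm K (cl K n) j).Prime ∧ cl K (S.mm K (cl K n) j) = cl K n ∧ ¬ S.mm K (cl K n) j ∣ K ∧
    ¬ S.mm K (cl K n) j ∣ S.K0 ∧ ∀ i, S.mm K (cl K n) j ∉ S.L i

variable (S : Dat)

/-- The points of the probability space. -/
noncomputable def Om : Finset (Fin S.r → ℕ) := Fintype.piFinset S.L

/-- The junk indices. -/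
noncomputable def Jx (E : ℤ × ℤ) (p : Fin S.r → ℕ) : Finset (Fin S.r) :=
  Finset.univ.filter (fun i => ty (p i) E = 2)

/-- The indices of type (1,2). -/
noncomputable def Ux (E : ℤ × ℤ) (p : Fin S.r → ℕ) : Finset (Fin S.r) :=
  Finset.univ.filter (fun i => ty (p i) E = 0)

/-- `K` for one curve. -/
noncomputable def Kx (E : ℤ × ℤ) (p : Fin S.r → ℕ) : ℕ := S.K0 * ∏ i ∈ S.Jx E p, p i

/-- `K` for two curves. -/
noncomputable def K2 (E E' : ℤ × ℤ) (p : Fin S.r → ℕ) : ℕ :=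
  S.K0 * ∏ i ∈ S.Jx E p ∪ S.Jx E' p, p i

/-- The sequence of auxiliary primes for `J`, `U`. -/
noncomputable def Mx (E : ℤ × ℤ) (p : Fin S.r → ℕ) (U : Finset (Fin S.r)) : ℕ → ℕ :=
  S.mm (S.Kx E p) (cl (S.Kx E p) (∏ i ∈ Finset.univ \ (S.Jx E p ∪ U), p i))

/-- The auxiliary prime exists. -/
def Aok (E : ℤ × ℤ) (p : Fin S.r → ℕ) (U : Finset (Fin S.r)) : Prop :=
  jx (S.Mx E p U) E < S.r ^ 2 ∧ Y3 (mx (S.Mx E p U) E) E.1 E.2

/-- The twist. -/
noncomputable def Dx (E : ℤ × ℤ) (p : Fin S.r → ℕ) (U : Finset (Fin S.r)) : ℕ :=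
  S.D1 * (∏ i ∈ S.Jx E p ∪ U, p i) * mx (S.Mx E p U) E

/-- The dimension of its 2-Selmer group. -/
noncomputable def sx (E : ℤ × ℤ) (p : Fin S.r → ℕ) (U : Finset (Fin S.r)) : ℕ :=
  Nat.log 2 (sc E.1 E.2 (S.Dx E p U))

/-- The sublist of `L i` of the primes with the type of `p i` for `E'` and its class at `K`. -/
noncomputable def Ls (E' : ℤ × ℤ) (K : ℕ) (p : Fin S.r → ℕ) (i : Fin S.r) : Finset ℕ :=
  (S.L i).filter (fun q => ty q E' = ty (p i) E' ∧ cl K q = cl K (p i))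

/-- The node `(p, i, U)` for `E`, list `Ls E' K p i`. -/
def Nd (η κ : ℝ) (E E' : ℤ × ℤ) (p : Fin S.r → ℕ) (K : ℕ) (i : Fin S.r) (U : Finset (Fin S.r)) :
    Prop :=
  Nok η κ (S.r ^ 2) (S.D1 * ∏ j ∈ S.Jx E p ∪ U, p j) (S.Mx E p U) (S.Ls E' K p i) E

/-- All nodes over `p`. -/
def Nal (η κ : ℝ) (E E' : ℤ × ℤ) (p : Fin S.r → ℕ) : Prop :=
  ∀ (i : Fin S.r) (I V J W : Finset (Fin S.r)), i ∉ I → i ∉ V → Disjoint J W →
    Nok η κ (S.r ^ 2) (S.D1 * ∏ j ∈ V, p j)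
      (S.mm (S.K0 * ∏ j ∈ J, p j) (cl (S.K0 * ∏ j ∈ J, p j) (∏ j ∈ W, p j)))
      (S.Ls E' (S.K0 * ∏ j ∈ I, p j) p i) E

end Dat

/-- **CLM** (120 lines; from SQZ). The classes.
Proof. For a prime `p ∣ K` and `n` prime to `K`, `n` is a unit in `ZMod p` (a field), and for units `IsSquare (n m)` iff
(`IsSquare n` iff `IsSquare m`) (quadratic character; for `p = 2` everything is a square). `mul`: so the class of `n m` is determined by
the classes of `n` and `m`; the second component is multiplicative modulo 8. `prd`: induction. `mon`: a prime dividing `K'` divides `K`.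
`sq`: SQZ `cls`. `num`: the values are in `K.primeFactors.powerset ×ˢ range 8`. -/
structure SpecCLM : Prop where
  mul : ∀ K n n' m m' : ℕ, 0 < K → n.Coprime K → n'.Coprime K → m.Coprime K → m'.Coprime K →
    cl K n = cl K n' → cl K m = cl K m' → cl K (n * m) = cl K (n' * m')
  prd : ∀ (K : ℕ) (ι : Type) (s : Finset ι) (f g : ι → ℕ), 0 < K →
    (∀ i ∈ s, (f i).Coprime K ∧ (g i).Coprime K ∧ cl K (f i) = cl K (g i)) →
    cl K (∏ i ∈ s, f i) = cl K (∏ i ∈ s, g i)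
  mon : ∀ K K' n n' : ℕ, 0 < K → K' ∣ K → cl K n = cl K n' → cl K' n = cl K' n'
  sq : ∀ K n n' : ℕ, 0 < K → 2 ∣ K → n.Coprime K → n'.Coprime K → cl K n = cl K n' → Sq K n n'
  num : ∀ (K : ℕ) (T : Finset ℕ), (T.image (cl K)).card ≤ 8 * 2 ^ K.primeFactors.card

/-- **AUX** (100 lines). Existence of the auxiliary primes.
Proof. For `K > 0` and a class `c = cl K n`, `n` prime to `K`, `2 ∣ K`: `n` is prime to `8 K`, so there are infinitely many primes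
`q ≡ n mod 8 K` (`Nat.setOf_prime_and_eq_mod_infinite` or `Nat.infinite_setOf_prime_and_eq_mod`), and these have `cl K q = cl K n`
(`q ≡ n` modulo 8 and modulo all primes dividing `K`). Remove those `≤ B0 + K + N + ∑ bad`; enumerate (`Nat.nth` or
`Set.Infinite.natEmbedding`). Choose for every `(K, c)` (`n` by choice; other `(K, c)`: anything). -/
def SpecAUX : Prop :=
  ∀ (B0 N : ℕ) (bad : Finset ℕ), ∃ mm : ℕ → (Finset ℕ × ℕ) → ℕ → ℕ,
    ∀ K n : ℕ, 0 < K → 6 ∣ K → n.Coprime K → Function.Injective (mm K (cl K n)) ∧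
      ∀ j, (mm K (cl K n) j).Prime ∧ cl K (mm K (cl K n) j) = cl K n ∧ ¬ mm K (cl K n) j ∣ K ∧
        mm K (cl K n) j ∉ bad ∧ B0 ≤ mm K (cl K n) j ∧ (0 < N → ¬ mm K (cl K n) j ∣ N)

/-- **IVT** (200 lines; from CLM). Invariance under resampling of the coordinate `i`.
Proof. Types of the other coordinates do not change; `i` is not in `Jx E p`, `Jx E p'`. So `Jx` is the same, `Kx` too. `Mx`: all
factors `p_l`, `l ∉ Jx`, are prime to `Kx` (primes from different lists; `S.Ok`), and `prd` gives the equality of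
the classes. For `i ∉ U` the product over `Jx ∪ U` does not contain `i`, so `Dx` is the same. Last part: the class at `K0` (CLM `mon`,
`prd`; `K0 ∣ Kx`). -/
def SpecIVT : Prop :=
  ∀ (S : Dat) (E : ℤ × ℤ) (p p' : Fin S.r → ℕ) (i : Fin S.r), S.Ok → p ∈ S.Om → p' ∈ S.Om →
    (∀ j, j ≠ i → p j = p' j) → ty (p i) E ≠ 2 → ty (p' i) E ≠ 2 →
    cl (S.Kx E p) (p i) = cl (S.Kx E p) (p' i) →
    S.Jx E p = S.Jx E p' ∧ S.Kx E p = S.Kx E p' ∧
    (∀ U : Finset (Fin S.r), S.Mx E p U = S.Mx E p' U ∧ (S.Aok E p U ↔ S.Aok E p' U)) ∧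
    (∀ U : Finset (Fin S.r), i ∉ U → S.Dx E p U = S.Dx E p' U ∧ S.sx E p U = S.sx E p' U) ∧
    cl S.K0 (∏ j, p j) = cl S.K0 (∏ j, p' j)

/-- **CNT** (150 lines; from TRZ, GEN). Counting the primes where all classes are trivial.
Proof. `D = D0 m`. For `q` of type (1,2) in `L` put `χ_q(z) = 1` if `Tz q z`, `-1` otherwise; by TRZ `χ_q(z+w) = χ_q(z) χ_q(w)` (also
`χ_q(0) = 1`), so `∑_z χ_q(z)` is `2^s` if `χ_q = 1` and `0` otherwise. So `2^s #{q : all trivial} = ∑_q ∑_z χ_q(z) = #T12 +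
∑_(z ≠ 0) (2 #{q : Tz q z} - #T12)`, and every term of the last sum has absolute value `≤ 2 η #T12`. -/
def SpecCNT : Prop :=
  ∀ (η κ : ℝ) (R D0 : ℕ) (mm : ℕ → ℕ) (L : Finset ℕ) (E : ℤ × ℤ) (s : ℕ), 0 ≤ η →
    Nok η κ R D0 mm L E → dz E.1 E.2 ≠ 0 → 0 < D0 * mx mm E →
    (∀ q ∈ L, q.Prime ∧ 5 ≤ q ∧ ¬ q ∣ D0 * mx mm E) → sc E.1 E.2 (D0 * mx mm E) = 2 ^ s →
    |((L.filter (fun q => Y12 q E.1 E.2 ∧ ∀ z : Sl E.1 E.2 (D0 * mx mm E), Tz q z)).card : ℝ) -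
      (1 / 2) ^ s * ((L.filter (fun q => Y12 q E.1 E.2)).card : ℝ)| ≤
      2 * η * ((L.filter (fun q => Y12 q E.1 E.2)).card : ℝ)

/-- **NST** (300 lines; from STEP, SQZ, CLM). The step from `U` to `U ∪ {i}`.
Proof. `K = Kx E p`, `Ds = D1 ∏_i p_i`. For a subset `U` of `Ux` with `Aok`: `Dx U` is `T`-admissible, `T = {p_i : i ∈ U}`: `sq`: `Ds` is
`(D1 ∏_(J ∪ U) p) ∏_(other) p`, and the product of the others and `m` have the same class at `K` (`S.Ok.aux`), both prime to `K`: CLM `sq`,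
SQZ `mul`. `ex`: the `p_i` are different primes not dividing `D1`, `m` is not in the lists. `un`: a prime dividing `Dx U` divides `D1`
(so `K`), or is a `p_j`, `j ∈ J` (divides `K`), or is in `T`, or is `m ∈ P`. `P` = the primes `p_i` of type 1 and the auxiliary
primes `mx` for `U`, `U ∪ {i}`, `∅` (type (3), not dividing `K`: `S.Ok.aux`). `Q` = `{p_i : i ∈ Ux}` and the primes of type (1,2) in
`Ls E' K' p i0`. `Cfz`: `Sf` for `K` follows from `Sf` for `K0` (`K0 ∣ K`); the elements of `Q` are not in `J`-lists since `i0 ∉ J`.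
Goodness of `D0 = Dx ∅`: let `z ≠ 0` be trivial at all `q ∈ Q`, in particular at all primes of type (1,2) of `Ls E' K' p i0`; the list is
not empty (it contains `p i0`), so by `t12` (`κ < 1/2`) it contains primes of type (1,2), and `uni` with `η < 1/2` gives a
contradiction. Now STEP for `T = {p_j : j ∈ U}`, `v = p_i`. Second part (`fin`): `Ds` is `T`-admissible for `T = {p_i : i ∈ Ux}`
(the other prime factors are of type 1, in `P`, or divide `K`; no type 3), and so is `Dx Ux`. -/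
def SpecNST : Prop :=
  ∀ (S : Dat) (η κ : ℝ) (E E' : ℤ × ℤ) (p : Fin S.r → ℕ) (K' : ℕ) (i0 : Fin S.r), S.Ok →
    p ∈ S.Om → 0 ≤ η → η < 1 / 2 → κ < 1 / 2 → Sf S.K0 E.1 E.2 → dz E.1 E.2 ≠ 0 →
    (∀ j, ty (p j) E ≠ 3) → i0 ∉ S.Jx E p → S.Nd η κ E E' p K' i0 ∅ →
    (∀ (U : Finset (Fin S.r)) (i : Fin S.r), U ⊆ S.Ux E p → i ∈ S.Ux E p → i ∉ U →
      S.Aok E p U → S.Aok E p (insert i U) →
      ((∀ z : Sl E.1 E.2 (S.Dx E p U), Tz (p i) z) →
        sc E.1 E.2 (S.Dx E p (insert i U)) = 2 * sc E.1 E.2 (S.Dx E p U)) ∧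
      (¬ (∀ z : Sl E.1 E.2 (S.Dx E p U), Tz (p i) z) →
        2 * sc E.1 E.2 (S.Dx E p (insert i U)) = sc E.1 E.2 (S.Dx E p U))) ∧
    (S.Aok E p (S.Ux E p) → sc E.1 E.2 (S.D1 * ∏ i, p i) = sc E.1 E.2 (S.Dx E p (S.Ux E p)))

/-- **JST** (150 lines; from JNK, CLM, SQZ). The start: junk primes.
Proof. JNK with `K = K0`, `J = {p_i : i ∈ Jx}`, `P = {mx (Mx ∅), m0}`, `D1 := Dx ∅`, `D2 := D1 m0`. Classes at `K0`: `mx (Mx ∅)` has the
class of `∏_(i ∉ J) p_i` at `Kx`, hence at `K0` (CLM `mon`), so `∏_J p_j mx` has the class of `∏_i p_i` (CLM `mul`), the class of `m0`. -/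
def SpecJST : Prop :=
  ∀ (S : Dat) (E : ℤ × ℤ) (p : Fin S.r → ℕ), S.Ok → p ∈ S.Om → Sf S.K0 E.1 E.2 → dz E.1 E.2 ≠ 0 →
    S.Aok E p ∅ → Y3 (mx (S.mm S.K0 (cl S.K0 (∏ j, p j))) E) E.1 E.2 →
    sc E.1 E.2 (S.Dx E p ∅) ≤
      4 ^ (S.Jx E p).card * sc E.1 E.2 (S.D1 * mx (S.mm S.K0 (cl S.K0 (∏ j, p j))) E)

end Pool.Agent.Lib.MP_8cb858_nt.PT
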