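import Pool.Agent.Lib.MP_8cb858_nt.PT.SpecQ
import Pool.Agent.Lib.MP_8cb858_nt.PT.SpecN
import Pool.Agent.Lib.MP_8cb858_nt.PT.MXS

section
/-!
# NDB: bad nodes
-/
namespace Pool.Agent.Lib.MP_8cb858_nt.PT.NDBM

open Pool.Agent.Lib.MP_8cb858_nt.PT Pool.Agent.Lib.MP_8cb858_nt.PF
open scoped Classical

lemma hz_fin (X : ℝ) : (Hz X).Finite := by
  have h : Hz X ⊆ (Set.Icc (-⌈X⌉) ⌈X⌉) ×ˢ (Set.Icc (-⌈X⌉) ⌈X⌉) := by
    rintro ⟨a, b⟩ ⟨h1, h2, -⟩
    simp only at h1 h2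
    have ha : |(a : ℝ)| ≤ X := by
      rcases eq_or_ne a 0 with rfl | h0
      · simp at h1 ⊢; exact h1
      · have : (1 : ℝ) ≤ |(a : ℝ)| := by
          have : (1 : ℤ) ≤ |a| := Int.one_le_abs h0
          exact_mod_cast this
        nlinarith [mul_nonneg (by linarith : (0 : ℝ) ≤ |(a : ℝ)|) (by nlinarith : (0 : ℝ) ≤ |(a : ℝ)| ^ 2 - 1)]
    have hb : |(b : ℝ)| ≤ X := by
      rcases eq_or_ne b 0 with rfl | h0
      · simp at h2 ⊢; exact h2
      · have : (1 : ℝ) ≤ |(b : ℝ)| := by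
          have : (1 : ℤ) ≤ |b| := Int.one_le_abs h0
          exact_mod_cast this
        have h3 : |(b : ℝ)| ^ 2 = (b : ℝ) ^ 2 := sq_abs _
        nlinarith
    have hX := Int.le_ceil X
    rw [abs_le] at ha hb
    refine ⟨⟨?_, ?_⟩, ⟨?_, ?_⟩⟩
    · have : (-(⌈X⌉ : ℝ)) ≤ (a : ℝ) := by linarith
      exact_mod_cast this
    · have : (a : ℝ) ≤ (⌈X⌉ : ℝ) := by linarith
      exact_mod_cast this
    · have : (-(⌈X⌉ : ℝ)) ≤ (b : ℝ) := by linarith
      exact_mod_cast this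
    · have : (b : ℝ) ≤ (⌈X⌉ : ℝ) := by linarith
      exact_mod_cast this
  exact ((Set.finite_Icc _ _).prod (Set.finite_Icc _ _)).subset h

/-- Union bound. -/
lemma union_bd {ι : Type} (T : Finset ι) (X : ℝ) (Q : ι → ℤ × ℤ → Prop) (P : ℤ × ℤ → Prop) (c : ℝ)
    (hP : ∀ E ∈ Hz X, P E → ∃ t ∈ T, Q t E)
    (hQ : ∀ t ∈ T, ({E ∈ Hz X | Q t E}.ncard : ℝ) ≤ c) :
    ({E ∈ Hz X | P E}.ncard : ℝ) ≤ T.card * c := by
  have hf := hz_fin X
  have key : ∀ R : ℤ × ℤ → Prop, {E ∈ Hz X | R E}.ncard = (hf.toFinset.filter R).card := by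
    intro R
    rw [← Set.ncard_coe_finset]
    congr 1
    ext E
    simp
  have h1 : (hf.toFinset.filter P) ⊆ T.biUnion (fun t => hf.toFinset.filter (Q t)) := by
    intro E hE
    rw [Finset.mem_filter, Set.Finite.mem_toFinset] at hE
    obtain ⟨t, ht, hq⟩ := hP E hE.1 hE.2
    rw [Finset.mem_biUnion]
    exact ⟨t, ht, Finset.mem_filter.mpr ⟨(Set.Finite.mem_toFinset hf).mpr hE.1, hq⟩⟩
  have h2 : ((hf.toFinset.filter P).card : ℝ) ≤ ∑ t ∈ T, ((hf.toFinset.filter (Q t)).card : ℝ) := by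
    exact_mod_cast (Finset.card_le_card h1).trans Finset.card_biUnion_le
  rw [key P]
  refine h2.trans ?_
  calc ∑ t ∈ T, ((hf.toFinset.filter (Q t)).card : ℝ) ≤ ∑ t ∈ T, c := by
        refine Finset.sum_le_sum (fun t ht => ?_)
        rw [← key (Q t)]
        exact hQ t ht
    _ = T.card * c := by rw [Finset.sum_const, nsmul_eq_mul]

section

variable (S : Dat) (hok : S.Ok) {p : Fin S.r → ℕ} (hp : p ∈ S.Om)
include hok hp

omit hok in
lemma pmem (j : Fin S.r) : p j ∈ S.L j := (Fintype.mem_piFinset.mp hp) j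

lemma ppr (j : Fin S.r) : (p j).Prime := (hok.lpr j _ (pmem S hp j)).1

lemma pk0 (j : Fin S.r) : ¬ p j ∣ S.K0 := (hok.lpr j _ (pmem S hp j)).2

lemma pne {i j : Fin S.r} (hij : i ≠ j) {q : ℕ} (hq : q ∈ S.L i) : q ≠ p j := by
  intro h
  have h2 := pmem S hp j
  rw [← h] at h2
  exact (Finset.disjoint_left.mp (hok.dis i j hij)) hq h2

lemma pcop {i j : Fin S.r} (hij : i ≠ j) : (p i).Coprime (p j) :=
  (Nat.coprime_primes (ppr S hok hp i) (ppr S hok hp j)).mpr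
    (pne S hok hp hij (pmem S hp i))

lemma sqf_prod (V : Finset (Fin S.r)) : Squarefree (∏ j ∈ V, p j) := by
  apply Finset.squarefree_prod_of_pairwise_isCoprime
  · intro i _ j _ hij
    exact Nat.coprime_iff_isRelPrime.mp (pcop S hok hp hij)
  · intro i _
    exact (ppr S hok hp i).prime.squarefree

lemma cop_k0 (V : Finset (Fin S.r)) : (∏ j ∈ V, p j).Coprime S.K0 := by
  apply Nat.Coprime.prod_left
  intro j _
  exact (Nat.Prime.coprime_iff_not_dvd (ppr S hok hp j)).mpr (pk0 S hok hp j)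

lemma cop_JW {J W : Finset (Fin S.r)} (h : Disjoint J W) :
    (∏ j ∈ W, p j).Coprime (S.K0 * ∏ j ∈ J, p j) := by
  apply Nat.Coprime.mul_right (cop_k0 S hok hp W)
  apply Nat.Coprime.prod_left
  intro i hi
  apply Nat.Coprime.prod_right
  intro j hj
  apply pcop S hok hp
  rintro rfl
  exact (Finset.disjoint_left.mp h) hj hi

lemma sqf_D0 (V : Finset (Fin S.r)) : Squarefree (S.D1 * ∏ j ∈ V, p j) := by
  rw [Nat.squarefree_mul]
  · exact ⟨hok.sqf, sqf_prod S hok hp V⟩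
  · exact ((cop_k0 S hok hp V).coprime_dvd_right hok.d1).symm

lemma ndvd {q : ℕ} (hq : q.Prime) (V : Finset (Fin S.r)) (h0 : ¬ q ∣ S.K0)
    (h1 : ∀ j ∈ V, q ≠ p j) : ¬ q ∣ S.D1 * ∏ j ∈ V, p j := by
  intro h
  rcases (Nat.Prime.dvd_mul hq).mp h with h | h
  · exact h0 (h.trans hok.d1)
  · obtain ⟨j, hj, hd⟩ := (Prime.dvd_finsetProd_iff hq.prime _).mp h
    exact h1 j hj ((Nat.prime_dvd_prime_iff_eq hq (ppr S hok hp j)).mp hd)

lemma pf_card (V : Finset (Fin S.r)) :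
    (S.D1 * ∏ j ∈ V, p j).primeFactors.card ≤ S.D1.primeFactors.card + S.r := by
  have hD : S.D1 ≠ 0 := by
    rintro h
    have := hok.d1
    rw [h, zero_dvd_iff] at this
    have := hok.k0
    omega
  have h1 : (S.D1 * ∏ j ∈ V, p j).primeFactors ⊆ S.D1.primeFactors ∪ V.image p := by
    intro q hq
    have hq1 := Nat.prime_of_mem_primeFactors hq
    have hq2 := Nat.dvd_of_mem_primeFactors hq
    rw [Finset.mem_union]
    rcases (Nat.Prime.dvd_mul hq1).mp hq2 with h | h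
    · left; exact Nat.mem_primeFactors.mpr ⟨hq1, h, hD⟩
    · right
      obtain ⟨j, hj, hd⟩ := (Prime.dvd_finsetProd_iff hq1.prime _).mp h
      rw [Finset.mem_image]
      exact ⟨j, hj, ((Nat.prime_dvd_prime_iff_eq hq1 (ppr S hok hp j)).mp hd).symm⟩
  have h2 := Finset.card_le_card h1
  have h3 := Finset.card_union_le S.D1.primeFactors (V.image p)
  have h4 : (V.image p).card ≤ S.r := by
    refine Finset.card_image_le.trans ?_
    have := Finset.card_le_univ V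
    rwa [Fintype.card_fin] at this
  omega

end

theorem main (hNOD : SpecNOD) : SpecNDB := by
  intro η κ ε hη hκ hε
  obtain ⟨R, hR⟩ := hNOD η κ 8 hη hκ (by norm_num)
  obtain ⟨m, hm⟩ := exists_nat_ge (Real.log (1 / ε))
  have hm' : Real.exp (-(m : ℝ)) ≤ ε := by
    have h1 : Real.exp (-(m : ℝ)) ≤ Real.exp (-(Real.log (1 / ε))) :=
      Real.exp_le_exp.mpr (by linarith)
    rw [Real.exp_neg, Real.exp_neg, Real.exp_log (by positivity)] at h1
    rw [Real.exp_neg]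
    simpa using h1
  refine ⟨R, R + m + 1, ?_⟩
  intro S hS
  have hok := hS.ok
  have hr0 : 1 ≤ S.r := hok.rp
  have hrr : R + m + 1 ≤ S.r := hS.r
  -- the hypotheses of NOD
  have step : ∀ (p : Fin S.r → ℕ) (i : Fin S.r) (V J W : Finset (Fin S.r)) (L' : Finset ℕ),
      ∃ X0 : ℝ, p ∈ S.Om → i ∉ V → Disjoint J W → L' ⊆ S.L i →
        Real.exp (R * S.r) ≤ (L'.card : ℝ) → ∀ X : ℝ, X0 ≤ X →
        ({E ∈ Hz X | ¬ Nok η κ (S.r ^ 2) (S.D1 * ∏ j ∈ V, p j)
          (S.mm (S.K0 * ∏ j ∈ J, p j) (cl (S.K0 * ∏ j ∈ J, p j) (∏ j ∈ W, p j))) L' E}.ncard : ℝ) ≤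
        Real.exp (-(8 * S.r)) * ((Hz X).ncard : ℝ) := by
    intro p i V J W L'
    by_cases hyp : p ∈ S.Om ∧ i ∉ V ∧ Disjoint J W ∧ L' ⊆ S.L i ∧
        Real.exp (R * S.r) ≤ (L'.card : ℝ)
    · obtain ⟨hp, hiV, hJW, hL, hc⟩ := hyp
      set K := S.K0 * ∏ j ∈ J, p j with hK
      have hK0 : 0 < K := by
        rw [hK]
        exact Nat.mul_pos hok.k0 (Finset.prod_pos (fun j _ => (ppr S hok hp j).pos))
      have hK6 : 6 ∣ K := hok.six.mul_right _
      have hcop : (∏ j ∈ W, p j).Coprime K := cop_JW S hok hp hJW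
      have haux := fun j => hok.aux K (∏ j ∈ W, p j) j hK0 hK6 hcop
      obtain ⟨X0, hX0⟩ := hR S.r (S.D1 * ∏ j ∈ V, p j) L' (S.mm K (cl K (∏ j ∈ W, p j)))
        (by omega) (sqf_D0 S hok hp V)
        (by
          have h1 := pf_card S hok hp V
          have h2 := hS.d1
          have h3 : 1 * S.D1.primeFactors.card ≤ (R + m + 1) * S.D1.primeFactors.card :=
            Nat.mul_le_mul_right _ (by omega)
          omega)
        (by
          intro q hq
          have hq' := hL hq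
          have hqp := hok.lpr i q hq'
          refine ⟨hqp.1, ?_, ?_⟩
          · have h1 := hS.pr i q hq'
            have h2 : (R : ℝ) ≤ (q : ℝ) := by
              refine le_trans ?_ h1
              have h3 : (R : ℝ) ≤ ((R + m + 1 : ℕ) : ℝ) * S.r := by
                have h5 : (R + m + 1) * 1 ≤ (R + m + 1) * S.r := Nat.mul_le_mul_left _ hr0
                have h4 : R ≤ (R + m + 1) * S.r := by omega
                exact_mod_cast h4
              have h4 := Real.add_one_le_exp (((R + m + 1 : ℕ) : ℝ) * S.r)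
              linarith
            exact_mod_cast h2
          · apply ndvd S hok hp hqp.1 V hqp.2
            intro j hj
            exact pne S hok hp (by rintro rfl; exact hiV hj) hq')
        hc
        (hok.inj K _ hK0 hK6 hcop)
        (by
          intro j
          obtain ⟨a1, a2, a3, a4, a5⟩ := haux j
          refine ⟨a1, ?_, ?_, ?_⟩
          · have := hS.aux K (∏ j ∈ W, p j) j hK0 hK6 hcop
            omega
          · apply ndvd S hok hp a1 V a4
            intro l _ h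
            exact a5 l (h ▸ pmem S hp l)
          · intro h
            exact a5 i (hL h))
      exact ⟨X0, fun _ _ _ _ _ X hX => hX0 X hX⟩
    · exact ⟨0, fun a b c d e => absurd ⟨a, b, c, d, e⟩ hyp⟩
  choose f hf using step
  -- the maximum of the X0's
  let G : Finset ((Fin S.r → ℕ) × Fin S.r × Finset (Fin S.r) × Finset (Fin S.r) ×
      Finset (Fin S.r) × Finset ℕ) :=
    S.Om ×ˢ Finset.univ ×ˢ Finset.univ ×ˢ Finset.univ ×ˢ Finset.univ ×ˢ
      (Finset.univ.biUnion S.L).powerset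
  obtain ⟨X0, hX0⟩ := (G.image (fun t => f t.1 t.2.1 t.2.2.1 t.2.2.2.1 t.2.2.2.2.1
    t.2.2.2.2.2)).exists_le
  refine ⟨X0, ?_⟩
  intro X hX p hp E' hbig
  let T : Finset (Fin S.r × Finset (Fin S.r) × Finset (Fin S.r) × Finset (Fin S.r) ×
    Finset (Fin S.r)) := Finset.univ.filter (fun t => t.1 ∉ t.2.1 ∧ t.1 ∉ t.2.2.1 ∧
      Disjoint t.2.2.2.1 t.2.2.2.2)
  have h1 := union_bd T X (fun t E => ¬ Nok η κ (S.r ^ 2) (S.D1 * ∏ j ∈ t.2.2.1, p j)
      (S.mm (S.K0 * ∏ j ∈ t.2.2.2.1, p j) (cl (S.K0 * ∏ j ∈ t.2.2.2.1, p j)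
        (∏ j ∈ t.2.2.2.2, p j)))
      (S.Ls E' (S.K0 * ∏ j ∈ t.2.1, p j) p t.1) E) (fun E => ¬ S.Nal η κ E E' p)
    (Real.exp (-(8 * S.r)) * ((Hz X).ncard : ℝ))
    (by
      intro E _ hE
      unfold Dat.Nal at hE
      push Not at hE
      obtain ⟨i, I, V, J, W, hiI, hiV, hJW, hn⟩ := hE
      exact ⟨(i, I, V, J, W), Finset.mem_filter.mpr ⟨Finset.mem_univ _, hiI, hiV, hJW⟩, hn⟩)
    (by
      rintro ⟨i, I, V, J, W⟩ ht
      obtain ⟨-, hiI, hiV, hJW⟩ := Finset.mem_filter.mp ht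
      simp only at hiI hiV hJW ⊢
      have hsub : S.Ls E' (S.K0 * ∏ j ∈ I, p j) p i ⊆ S.L i := Finset.filter_subset _ _
      refine hf p i V J W (S.Ls E' (S.K0 * ∏ j ∈ I, p j) p i) hp hiV hJW hsub (hbig i I hiI) X ?_
      refine le_trans ?_ hX
      refine hX0 _ (Finset.mem_image.mpr ⟨(p, i, V, J, W, S.Ls E' (S.K0 * ∏ j ∈ I, p j) p i),
        ?_, rfl⟩)
      simp only [G, Finset.mem_product, Finset.mem_univ, true_and, Finset.mem_powerset]
      exact ⟨hp, hsub.trans (Finset.subset_biUnion_of_mem S.L (Finset.mem_univ i))⟩)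
  refine h1.trans ?_
  rw [← mul_assoc]
  refine mul_le_mul_of_nonneg_right ?_ (Nat.cast_nonneg _)
  have h9 : (T.card : ℝ) ≤ S.r * ((2 : ℝ) ^ S.r) ^ 4 := by
    have h10 : T.card ≤ S.r * (2 ^ S.r) ^ 4 := by
      refine (Finset.card_filter_le _ _).trans ?_
      rw [Finset.card_univ]
      simp only [Fintype.card_prod, Fintype.card_fin, Fintype.card_finset]
      apply le_of_eq
      ring
    exact_mod_cast h10
  have b1 : (S.r : ℝ) ≤ Real.exp S.r := by
    have := Real.add_one_le_exp (S.r : ℝ); linarith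
  have b2 : (2 : ℝ) ^ S.r ≤ Real.exp S.r := by
    have h : (2 : ℝ) ≤ Real.exp 1 := by
      have := Real.add_one_le_exp (1 : ℝ); linarith
    calc (2 : ℝ) ^ S.r ≤ (Real.exp 1) ^ S.r := pow_le_pow_left₀ (by norm_num) h _
      _ = Real.exp S.r := by rw [← Real.exp_nat_mul]; simp
  have b3 : (T.card : ℝ) ≤ Real.exp (5 * S.r) := by
    calc (T.card : ℝ) ≤ S.r * ((2 : ℝ) ^ S.r) ^ 4 := h9
      _ ≤ Real.exp S.r * (Real.exp S.r) ^ 4 := by
          apply mul_le_mul b1 (pow_le_pow_left₀ (by positivity) b2 4) (by positivity)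
            (Real.exp_pos _).le
      _ = Real.exp (5 * S.r) := by
          rw [← Real.exp_nat_mul, ← Real.exp_add]
          congr 1
          push_cast
          ring
  calc (T.card : ℝ) * Real.exp (-(8 * S.r)) ≤ Real.exp (5 * S.r) * Real.exp (-(8 * S.r)) :=
        mul_le_mul_of_nonneg_right b3 (Real.exp_pos _).le
    _ = Real.exp (-(3 * S.r)) := by rw [← Real.exp_add]; congr 1; ring
    _ ≤ Real.exp (-(m : ℝ)) := by
        apply Real.exp_le_exp.mpr
        have h11 : (m : ℝ) ≤ S.r := by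
          have : m ≤ S.r := by omega
          exact_mod_cast this
        have h12 : (0 : ℝ) ≤ S.r := Nat.cast_nonneg _
        linarith
    _ ≤ ε := hm'

end Pool.Agent.Lib.MP_8cb858_nt.PT.NDBM

namespace Pool.Agent.Lib.MP_8cb858_nt.PT

theorem specNDB (hNOD : SpecNOD) : SpecNDB := NDBM.main hNOD

end Pool.Agent.Lib.MP_8cb858_nt.PT
end

section
/-!
# Module NST: the step from `U` to `U ∪ {i}`
-/
namespace Pool.Agent.Lib.MP_8cb858_nt.PT

open Polynomial NumberField IsDedekindDomain Pool.Agent.Lib.MP_8cb858_nt.SEL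
open Pool.Agent.Lib.MP_8cb858_nt.PF
open scoped Classical WithZero

namespace NSTM

theorem ty0 {q : ℕ} {E : ℤ × ℤ} (h : ty q E = 0) : Y12 q E.1 E.2 := by
  unfold ty at h
  by_contra h1
  rw [if_neg h1] at h
  split_ifs at h

theorem ty1 {q : ℕ} {E : ℤ × ℤ} (h : ty q E = 1) : Y3 q E.1 E.2 := by
  by_contra h2
  unfold ty at h
  rw [if_neg h2] at h
  split_ifs at h <;> omega

theorem ty_cases (q : ℕ) (E : ℤ × ℤ) : ty q E = 0 ∨ ty q E = 1 ∨ ty q E = 2 ∨ ty q E = 3 := by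
  unfold ty
  split_ifs <;> simp

section

variable {S : Dat} {E : ℤ × ℤ} {p : Fin S.r → ℕ}

theorem mem_L (hp : p ∈ S.Om) (i : Fin S.r) : p i ∈ S.L i := Fintype.mem_piFinset.1 hp i

theorem prime (hS : S.Ok) (hp : p ∈ S.Om) (i : Fin S.r) : (p i).Prime :=
  (hS.lpr i _ (mem_L hp i)).1

theorem ne_of_mem (hS : S.Ok) (hp : p ∈ S.Om) {i j : Fin S.r} (h : i ≠ j) {q : ℕ}
    (hq : q ∈ S.L i) : q ≠ p j := by
  rintro rfl
  exact Finset.disjoint_left.1 (hS.dis i j h) hq (mem_L hp j)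

theorem K_pos (hS : S.Ok) (hp : p ∈ S.Om) : 0 < S.Kx E p :=
  Nat.mul_pos hS.k0 (Finset.prod_pos fun j _ => (prime hS hp j).pos)

theorem K_six (hS : S.Ok) : 6 ∣ S.Kx E p := hS.six.mul_right _

theorem K0_dvd : S.K0 ∣ S.Kx E p := dvd_mul_right _ _

theorem dvd_K (i : Fin S.r) (h : i ∈ S.Jx E p) : p i ∣ S.Kx E p :=
  (Finset.dvd_prod_of_mem p h).mul_left _

/-- A prime which divides a product of the `p j`. -/
theorem eq_of_dvd_prod (hS : S.Ok) (hp : p ∈ S.Om) {q : ℕ} (hq : q.Prime)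
    (s : Finset (Fin S.r)) (h : q ∣ ∏ j ∈ s, p j) : ∃ j ∈ s, q = p j := by
  obtain ⟨j, hj, hd⟩ := (Prime.dvd_finsetProd_iff hq.prime _).1 h
  exact ⟨j, hj, (Nat.prime_dvd_prime_iff_eq hq (prime hS hp j)).1 hd⟩

theorem not_dvd_K (hS : S.Ok) (hp : p ∈ S.Om) {q : ℕ} (hq : q.Prime) (h0 : ¬ q ∣ S.K0)
    (h : ∀ j ∈ S.Jx E p, q ≠ p j) : ¬ q ∣ S.Kx E p := by
  intro hd
  rcases (Nat.Prime.dvd_mul hq).1 hd with h1 | h1
  · exact h0 h1
  · obtain ⟨j, hj, he⟩ := eq_of_dvd_prod hS hp hq _ h1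
    exact h j hj he

theorem not_dvd_K' (hS : S.Ok) (hp : p ∈ S.Om) {i : Fin S.r} (hi : i ∉ S.Jx E p) {q : ℕ}
    (hq : q ∈ S.L i) : ¬ q ∣ S.Kx E p := by
  obtain ⟨h1, h2⟩ := hS.lpr i q hq
  refine not_dvd_K hS hp h1 h2 (fun j hj => ne_of_mem (i := i) hS hp ?_ hq)
  rintro rfl
  exact hi hj

/-- The product of the other primes. -/
noncomputable def oth (S : Dat) (E : ℤ × ℤ) (p : Fin S.r → ℕ) (U : Finset (Fin S.r)) : ℕ :=
  ∏ i ∈ Finset.univ \ (S.Jx E p ∪ U), p i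

theorem oth_cop (hS : S.Ok) (hp : p ∈ S.Om) (U : Finset (Fin S.r)) :
    (oth S E p U).Coprime (S.Kx E p) := by
  apply Nat.Coprime.prod_left
  intro i hi
  rw [(prime hS hp i).coprime_iff_not_dvd]
  apply not_dvd_K' hS hp _ (mem_L hp i)
  intro h
  rw [Finset.mem_sdiff] at hi
  exact hi.2 (Finset.mem_union_left _ h)

theorem aux (hS : S.Ok) (hp : p ∈ S.Om) (U : Finset (Fin S.r)) :
    (mx (S.Mx E p U) E).Prime ∧ cl (S.Kx E p) (mx (S.Mx E p U) E) = cl (S.Kx E p) (oth S E p U) ∧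
    ¬ mx (S.Mx E p U) E ∣ S.Kx E p ∧ ¬ mx (S.Mx E p U) E ∣ S.K0 ∧
    ∀ i, mx (S.Mx E p U) E ∉ S.L i :=
  hS.aux (S.Kx E p) (oth S E p U) (jx (S.Mx E p U) E) (K_pos hS hp) (K_six hS)
    (oth_cop hS hp U)

/-- `Ds`. -/
noncomputable def DS (S : Dat) (p : Fin S.r → ℕ) : ℕ := S.D1 * ∏ i, p i

theorem DS_eq (U : Finset (Fin S.r)) :
    DS S p = S.D1 * (∏ i ∈ S.Jx E p ∪ U, p i) * oth S E p U := by
  unfold DS oth
  rw [mul_assoc, mul_comm (∏ i ∈ S.Jx E p ∪ U, p i), Finset.prod_sdiff (Finset.subset_univ _)]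

theorem D1_pos (hS : S.Ok) : 0 < S.D1 := Nat.pos_of_dvd_of_pos hS.d1 hS.k0

theorem DS_pos (hS : S.Ok) (hp : p ∈ S.Om) : 0 < DS S p :=
  Nat.mul_pos (D1_pos hS) (Finset.prod_pos fun j _ => (prime hS hp j).pos)

theorem D_pos (hS : S.Ok) (hp : p ∈ S.Om) (U : Finset (Fin S.r)) : 0 < S.Dx E p U :=
  Nat.mul_pos (Nat.mul_pos (D1_pos hS) (Finset.prod_pos fun j _ => (prime hS hp j).pos))
    (aux hS hp U).1.pos

/-- The primes of the lists divide a product at most once. -/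
theorem not_sq_dvd (hS : S.Ok) (hp : p ∈ S.Om) (s : Finset (Fin S.r)) (i : Fin S.r)
    (hi : i ∈ s) (n : ℕ) (hn : ¬ p i ∣ n) : ¬ p i ^ 2 ∣ S.D1 * (∏ j ∈ s, p j) * n := by
  intro h
  have hpi := prime hS hp i
  rw [← Finset.mul_prod_erase s p hi] at h
  have e : S.D1 * (p i * ∏ j ∈ s.erase i, p j) * n =
      p i * (S.D1 * (∏ j ∈ s.erase i, p j) * n) := by ring
  rw [e, pow_two] at h
  have h1 := Nat.dvd_of_mul_dvd_mul_left hpi.pos h
  rcases (Nat.Prime.dvd_mul hpi).1 h1 with h2 | h2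
  · rcases (Nat.Prime.dvd_mul hpi).1 h2 with h3 | h3
    · exact (hS.lpr i _ (mem_L hp i)).2 (h3.trans hS.d1)
    · obtain ⟨j, hj, he⟩ := eq_of_dvd_prod hS hp hpi _ h3
      exact ne_of_mem hS hp (Finset.ne_of_mem_erase hj).symm (mem_L hp i) he
  · exact hn h2

/-- The set `P`. -/
noncomputable def PP (S : Dat) (E : ℤ × ℤ) (p : Fin S.r → ℕ) (A : Finset (Finset (Fin S.r))) :
    Finset ℕ :=
  (Finset.univ.filter (fun i => ty (p i) E = 1)).image p ∪ A.image (fun U => mx (S.Mx E p U) E)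

/-- The set `Q`. -/
noncomputable def QQ (S : Dat) (E E' : ℤ × ℤ) (p : Fin S.r → ℕ) (K' : ℕ) (i0 : Fin S.r) :
    Finset ℕ :=
  (S.Ux E p).image p ∪ (S.Ls E' K' p i0).filter (fun q => Y12 q E.1 E.2)

theorem notJ_of_ty {i : Fin S.r} {t : ℕ} (h : ty (p i) E = t) (ht : t ≠ 2) : i ∉ S.Jx E p := by
  intro hi
  have := (Finset.mem_filter.1 hi).2
  rw [h] at this
  exact ht this

theorem cfz (hS : S.Ok) (hp : p ∈ S.Om) (hsf : Sf S.K0 E.1 E.2) (E' : ℤ × ℤ) (K' : ℕ)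
    {i0 : Fin S.r} (hi0 : i0 ∉ S.Jx E p) (A : Finset (Finset (Fin S.r))) (hA : A.Nonempty)
    (hAok : ∀ U ∈ A, S.Aok E p U) :
    Cfz (S.Kx E p) (QQ S E E' p K' i0) (PP S E p A) E.1 E.2 where
  pos := K_pos hS hp
  six := K_six hS
  qp := by
    intro q hq
    rcases Finset.mem_union.1 hq with h | h
    · obtain ⟨i, hi, rfl⟩ := Finset.mem_image.1 h
      have ht := (Finset.mem_filter.1 hi).2
      exact ⟨prime hS hp i, not_dvd_K' hS hp (notJ_of_ty ht (by decide)) (mem_L hp i), ty0 ht⟩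
    · obtain ⟨h1, h2⟩ := Finset.mem_filter.1 h
      have h3 : q ∈ S.L i0 := (Finset.mem_filter.1 h1).1
      exact ⟨(hS.lpr i0 q h3).1, not_dvd_K' hS hp hi0 h3, h2⟩
  pp := by
    intro q hq
    rcases Finset.mem_union.1 hq with h | h
    · obtain ⟨i, hi, rfl⟩ := Finset.mem_image.1 h
      have ht := (Finset.mem_filter.1 hi).2
      exact ⟨prime hS hp i, not_dvd_K' hS hp (notJ_of_ty ht (by decide)) (mem_L hp i), ty1 ht⟩
    · obtain ⟨U, hU, rfl⟩ := Finset.mem_image.1 h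
      have h1 := aux (E := E) hS hp U
      exact ⟨h1.1, h1.2.2.1, (hAok U hU).2⟩
  ne := by
    obtain ⟨U, hU⟩ := hA
    exact ⟨_, Finset.mem_union_right _ (Finset.mem_image_of_mem _ hU)⟩
  sf := by
    intro q hq hqK
    exact hsf q hq (fun h => hqK (h.trans K0_dvd))

theorem adm (hCLM : SpecCLM) (hSQZ : SpecSQZ) (hS : S.Ok) (hp : p ∈ S.Om)
    (A : Finset (Finset (Fin S.r))) (U : Finset (Fin S.r)) (hU : U ∈ A) :
    Adm (S.Kx E p) (DS S p) (PP S E p A) (U.image p) (S.Dx E p U) where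
  pos := D_pos hS hp U
  sq := by
    have h1 := aux (E := E) hS hp U
    rw [DS_eq (E := E) U]
    apply hSQZ.mul
    apply hCLM.sq _ _ _ (K_pos hS hp) (Dvd.dvd.trans (by norm_num) (K_six hS)) _
      (oth_cop hS hp U) h1.2.1
    rw [h1.1.coprime_iff_not_dvd]
    exact h1.2.2.1
  ex := by
    intro q hq
    obtain ⟨i, hi, rfl⟩ := Finset.mem_image.1 hq
    have h1 := aux (E := E) hS hp U
    have hiU : i ∈ S.Jx E p ∪ U := Finset.mem_union_right _ hi
    constructor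
    · exact ((Finset.dvd_prod_of_mem p hiU).mul_left _).mul_right _
    · apply not_sq_dvd hS hp _ i hiU
      intro h
      have := (Nat.prime_dvd_prime_iff_eq (prime hS hp i) h1.1).1 h
      exact h1.2.2.2.2 i (this ▸ mem_L hp i)
  un := by
    intro q hq hqK hqP hqT hd
    have h1 := aux (E := E) hS hp U
    rcases (Nat.Prime.dvd_mul hq).1 hd with h2 | h2
    · rcases (Nat.Prime.dvd_mul hq).1 h2 with h3 | h3
      · exact hqK ((h3.trans hS.d1).trans K0_dvd)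
      · obtain ⟨j, hj, rfl⟩ := eq_of_dvd_prod hS hp hq _ h3
        rcases Finset.mem_union.1 hj with h | h
        · exact hqK (dvd_K j h)
        · exact hqT (Finset.mem_image_of_mem _ h)
    · have := (Nat.prime_dvd_prime_iff_eq hq h1.1).1 h2
      apply hqP
      rw [this]
      exact Finset.mem_union_right _ (Finset.mem_image_of_mem (fun U => mx (S.Mx E p U) E) hU)

theorem adm_DS (hS : S.Ok) (hp : p ∈ S.Om) (h3 : ∀ j, ty (p j) E ≠ 3)
    (A : Finset (Finset (Fin S.r))) :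
    Adm (S.Kx E p) (DS S p) (PP S E p A) ((S.Ux E p).image p) (DS S p) where
  pos := DS_pos hS hp
  sq := by
    intro v _
    exact ⟨(DS S p : ℕ), by push_cast; rfl⟩
  ex := by
    intro q hq
    obtain ⟨i, hi, rfl⟩ := Finset.mem_image.1 hq
    constructor
    · exact (Finset.dvd_prod_of_mem p (Finset.mem_univ i)).mul_left _
    · have := not_sq_dvd hS hp Finset.univ i (Finset.mem_univ i) 1
        (fun h => (prime hS hp i).one_lt.ne' (Nat.dvd_one.1 h))
      rw [mul_one] at this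
      exact this
  un := by
    intro q hq hqK hqP hqT hd
    rcases (Nat.Prime.dvd_mul hq).1 hd with h2 | h2
    · exact hqK ((h2.trans hS.d1).trans K0_dvd)
    · obtain ⟨j, -, rfl⟩ := eq_of_dvd_prod hS hp hq _ h2
      rcases ty_cases (p j) E with h | h | h | h
      · exact hqT (Finset.mem_image_of_mem _ (Finset.mem_filter.2 ⟨Finset.mem_univ _, h⟩))
      · exact hqP (Finset.mem_union_left _ (Finset.mem_image_of_mem _
          (Finset.mem_filter.2 ⟨Finset.mem_univ _, h⟩)))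
      · exact hqK (dvd_K j (Finset.mem_filter.2 ⟨Finset.mem_univ _, h⟩))
      · exact h3 j h

theorem good (hp : p ∈ S.Om) {η κ : ℝ} (hη : η < 1 / 2) (hκ : κ < 1 / 2)
    (E' : ℤ × ℤ) (K' : ℕ) (i0 : Fin S.r) (hN : S.Nd η κ E E' p K' i0 ∅)
    (z : Sl E.1 E.2 (S.Dx E p ∅)) (hz : ∀ q ∈ QQ S E E' p K' i0, Tz q z) : z = 0 := by
  by_contra hz0
  have hu := hN.uni z hz0
  have ht := hN.t12
  have e : (S.Ls E' K' p i0).filter (fun q => Y12 q E.1 E.2 ∧ Tz q z) =
      (S.Ls E' K' p i0).filter (fun q => Y12 q E.1 E.2) := by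
    apply Finset.filter_congr
    intro q hq
    constructor
    · exact fun h => h.1
    · intro h
      exact ⟨h, hz q (Finset.mem_union_right _ (Finset.mem_filter.2 ⟨hq, h⟩))⟩
  have hu' : |(((S.Ls E' K' p i0).filter (fun q => Y12 q E.1 E.2)).card : ℝ) -
      (((S.Ls E' K' p i0).filter (fun q => Y12 q E.1 E.2)).card : ℝ) / 2| ≤
      η * (((S.Ls E' K' p i0).filter (fun q => Y12 q E.1 E.2)).card : ℝ) := by
    have hu2 : |(((S.Ls E' K' p i0).filter (fun q => Y12 q E.1 E.2 ∧ Tz q z)).card : ℝ) -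
      (((S.Ls E' K' p i0).filter (fun q => Y12 q E.1 E.2)).card : ℝ) / 2| ≤
      η * (((S.Ls E' K' p i0).filter (fun q => Y12 q E.1 E.2)).card : ℝ) := hu
    rw [show ((S.Ls E' K' p i0).filter (fun q => Y12 q E.1 E.2 ∧ Tz q z)).card =
      ((S.Ls E' K' p i0).filter (fun q => Y12 q E.1 E.2)).card from congrArg Finset.card e] at hu2
    exact hu2
  have hL : 0 < (S.Ls E' K' p i0).card := by
    apply Finset.card_pos.2
    exact ⟨p i0, Finset.mem_filter.2 ⟨mem_L hp i0, rfl, rfl⟩⟩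
  have hL' : (0 : ℝ) < ((S.Ls E' K' p i0).card : ℝ) := by exact_mod_cast hL
  have hN0 : (0 : ℝ) ≤ (((S.Ls E' K' p i0).filter (fun q => Y12 q E.1 E.2)).card : ℝ) :=
    Nat.cast_nonneg _
  rw [abs_le] at hu' ht
  have h1 : (((S.Ls E' K' p i0).filter (fun q => Y12 q E.1 E.2)).card : ℝ) = 0 := by
    nlinarith [hu'.2]
  rw [h1] at ht
  nlinarith [ht.1]

end

end NSTM

open NSTM in
theorem specNST (hSTEP : SpecSTEP) (hSQZ : SpecSQZ) (hCLM : SpecCLM) : SpecNST := by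
  intro S η κ E E' p K' i0 hS hp _ hη hκ hsf _ h3 hi0 hN
  have hA0 : S.Aok E p ∅ := hN.aux
  have hgood := good (E := E) hp hη hκ E' K' i0 hN
  have key : ∀ A : Finset (Finset (Fin S.r)), ∅ ∈ A → (∀ U ∈ A, S.Aok E p U) →
      (∀ T ⊆ QQ S E E' p K' i0, ∀ D D' : ℕ, Adm (S.Kx E p) (DS S p) (PP S E p A) T D →
        Adm (S.Kx E p) (DS S p) (PP S E p A) T D' → sc E.1 E.2 D = sc E.1 E.2 D') ∧
      ∀ T ⊆ QQ S E E' p K' i0, ∀ v ∈ QQ S E E' p K' i0, v ∉ T → ∀ D D' : ℕ,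
        Adm (S.Kx E p) (DS S p) (PP S E p A) T D →
        Adm (S.Kx E p) (DS S p) (PP S E p A) (insert v T) D' →
      ((∀ z : Sl E.1 E.2 D, Tz v z) → sc E.1 E.2 D' = 2 * sc E.1 E.2 D) ∧
      (¬ (∀ z : Sl E.1 E.2 D, Tz v z) → 2 * sc E.1 E.2 D' = sc E.1 E.2 D) := by
    intro A hA hAok
    apply hSTEP (S.Kx E p) (DS S p) (QQ S E E' p K' i0) (PP S E p A) E.1 E.2
      (cfz hS hp hsf E' K' hi0 A ⟨_, hA⟩ hAok) (DS_pos hS hp)
    refine ⟨S.Dx E p ∅, ?_, hgood⟩
    have := adm (E := E) hCLM hSQZ hS hp A ∅ hA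
    rwa [Finset.image_empty] at this
  constructor
  · intro U i hU hi hiU hAU hAi
    have hk := (key {∅, U, insert i U} (by simp) (by
      intro V hV
      simp only [Finset.mem_insert, Finset.mem_singleton] at hV
      rcases hV with rfl | rfl | rfl
      · exact hA0
      · exact hAU
      · exact hAi)).2
    have hTQ : U.image p ⊆ QQ S E E' p K' i0 :=
      (Finset.image_subset_image hU).trans Finset.subset_union_left
    have hvQ : p i ∈ QQ S E E' p K' i0 :=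
      Finset.mem_union_left _ (Finset.mem_image_of_mem _ hi)
    have hvT : p i ∉ U.image p := by
      intro h
      obtain ⟨j, hj, he⟩ := Finset.mem_image.1 h
      have hij : i ≠ j := fun h => hiU (h ▸ hj)
      exact ne_of_mem hS hp hij (mem_L hp i) he.symm
    have h2 := adm (E := E) hCLM hSQZ hS hp {∅, U, insert i U} (insert i U) (by simp)
    rw [Finset.image_insert] at h2
    exact hk _ hTQ (p i) hvQ hvT _ _ (adm (E := E) hCLM hSQZ hS hp _ U (by simp)) h2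
  · intro hAU
    have hk := (key {∅, S.Ux E p} (by simp) (by
      intro V hV
      simp only [Finset.mem_insert, Finset.mem_singleton] at hV
      rcases hV with rfl | rfl
      · exact hA0
      · exact hAU)).1
    exact hk ((S.Ux E p).image p) Finset.subset_union_left _ _ (adm_DS hS hp h3 _)
      (adm (E := E) hCLM hSQZ hS hp _ (S.Ux E p) (by simp))

end Pool.Agent.Lib.MP_8cb858_nt.PT
end

section
/-!
# Module PAI: the pair theorem
-/
namespace Pool.Agent.Lib.MP_8cb858_nt.PT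

open Polynomial NumberField IsDedekindDomain Pool.Agent.Lib.MP_8cb858_nt.SEL
open Pool.Agent.Lib.MP_8cb858_nt.PF
open scoped Classical WithZero

namespace PAIM

open MXSM

/-- product of two numbers of absolute value at most one -/
theorem prod_diff {x y a b : ℝ} (hy : |y| ≤ 1) (ha : |a| ≤ 1) :
    |x * y - a * b| ≤ |x - a| + |y - b| := by
  have e : x * y - a * b = (x - a) * y + a * (y - b) := by ring
  rw [e]
  refine (abs_add_le _ _).trans (add_le_add ?_ ?_)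
  · rw [abs_mul]
    exact mul_le_of_le_one_right (abs_nonneg _) hy
  · rw [abs_mul]
    exact mul_le_of_le_one_left (abs_nonneg _) ha

theorem prod_two {x y a b : ℝ} (hx : |x| ≤ 1) (hy : |y| ≤ 1) (ha : |a| ≤ 1) (hb : |b| ≤ 1) :
    |x * y - a * b| ≤ 2 := by
  refine (abs_sub _ _).trans ?_
  rw [abs_mul, abs_mul]
  have h1 : |x| * |y| ≤ 1 := mul_le_one₀ hx (abs_nonneg _) hy
  have h2 : |a| * |b| ≤ 1 := mul_le_one₀ ha (abs_nonneg _) hb
  linarith

/-- The final comparison with the limit law. -/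
theorem core {X : Type} (Ω : Finset X) (B : X → Prop) (a b : X → ℕ) (u v : ℕ → ℝ)
    {lu lv δ : ℝ} (H : ℕ) (hu : ∀ k, |u k| ≤ 1) (hv : ∀ k, |v k| ≤ 1) (hlu : |lu| ≤ 1)
    (hlv : |lv| ≤ 1) (hδu : ∀ k ≤ H, |u k - lu| ≤ δ) (hδv : ∀ k ≤ H, |v k - lv| ≤ δ)
    (hδ : 0 ≤ δ)
    (ha : ∑ p ∈ Ω.filter (fun p => ¬ B p), (2 : ℝ) ^ a p ≤ 7 * (Ω.card : ℝ))
    (hb : ∑ p ∈ Ω.filter (fun p => ¬ B p), (2 : ℝ) ^ b p ≤ 7 * (Ω.card : ℝ)) :
    |∑ p ∈ Ω, u (a p) * v (b p) - lu * lv * (Ω.card : ℝ)| ≤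
      (2 * δ + 28 / 2 ^ H) * (Ω.card : ℝ) + 2 * ((Ω.filter B).card : ℝ) := by
  have e1 : ∑ p ∈ Ω, u (a p) * v (b p) - lu * lv * (Ω.card : ℝ) =
      ∑ p ∈ Ω, (u (a p) * v (b p) - lu * lv) := by
    rw [Finset.sum_sub_distrib, Finset.sum_const, nsmul_eq_mul]
    ring
  have hH : (0 : ℝ) < 2 ^ H := by positivity
  have hpt : ∀ p, |u (a p) * v (b p) - lu * lv| ≤
      2 * δ + 2 / 2 ^ H * 2 ^ a p + 2 / 2 ^ H * 2 ^ b p := by
    intro p
    have n1 : (0 : ℝ) ≤ 2 / 2 ^ H * 2 ^ a p := by positivity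
    have n2 : (0 : ℝ) ≤ 2 / 2 ^ H * 2 ^ b p := by positivity
    by_cases h1 : a p ≤ H
    · by_cases h2 : b p ≤ H
      · have := prod_diff (x := u (a p)) (b := lv) (hv (b p)) hlu
        have h3 := hδu _ h1
        have h4 := hδv _ h2
        linarith
      · have h3 := prod_two (hu (a p)) (hv (b p)) hlu hlv
        have h4 : (2 : ℝ) ≤ 2 / 2 ^ H * 2 ^ b p := by
          rw [div_mul_eq_mul_div, le_div_iff₀ hH]
          exact mul_le_mul_of_nonneg_left (pow_le_pow_right₀ (by norm_num) (by omega))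
            (by norm_num)
        linarith
    · have h3 := prod_two (hu (a p)) (hv (b p)) hlu hlv
      have h4 : (2 : ℝ) ≤ 2 / 2 ^ H * 2 ^ a p := by
        rw [div_mul_eq_mul_div, le_div_iff₀ hH]
        exact mul_le_mul_of_nonneg_left (pow_le_pow_right₀ (by norm_num) (by omega))
          (by norm_num)
      linarith
  rw [e1]
  refine (Finset.abs_sum_le_sum_abs _ _).trans ?_
  rw [← Finset.sum_filter_add_sum_filter_not Ω B]
  have g1 : ∑ p ∈ Ω.filter B, |u (a p) * v (b p) - lu * lv| ≤ 2 * ((Ω.filter B).card : ℝ) := by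
    refine (Finset.sum_le_card_nsmul _ _ 2 fun p _ =>
      prod_two (hu (a p)) (hv (b p)) hlu hlv).trans ?_
    rw [nsmul_eq_mul]
    linarith
  have g2 : ∑ p ∈ Ω.filter (fun p => ¬ B p), |u (a p) * v (b p) - lu * lv| ≤
      (2 * δ + 28 / 2 ^ H) * (Ω.card : ℝ) := by
    refine (Finset.sum_le_sum fun p _ => hpt p).trans ?_
    rw [Finset.sum_add_distrib, Finset.sum_add_distrib, Finset.sum_const, nsmul_eq_mul,
      ← Finset.mul_sum, ← Finset.mul_sum]
    have h1 : ((Ω.filter (fun p => ¬ B p)).card : ℝ) ≤ (Ω.card : ℝ) := by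
      exact_mod_cast Finset.card_filter_le _ _
    have h2 : ((Ω.filter (fun p => ¬ B p)).card : ℝ) * (2 * δ) ≤ (Ω.card : ℝ) * (2 * δ) :=
      mul_le_mul_of_nonneg_right h1 (by linarith)
    have h3 := mul_le_mul_of_nonneg_left ha (by positivity : (0 : ℝ) ≤ 2 / 2 ^ H)
    have h4 := mul_le_mul_of_nonneg_left hb (by positivity : (0 : ℝ) ≤ 2 / 2 ^ H)
    have h5 : (2 * δ + 28 / 2 ^ H) * (Ω.card : ℝ) = (Ω.card : ℝ) * (2 * δ) +
        2 / 2 ^ H * (7 * (Ω.card : ℝ)) + 2 / 2 ^ H * (7 * (Ω.card : ℝ)) := by ring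
    rw [h5]
    linarith
  linarith

/-- Replacing a function at the bad points. -/
theorem replace {X : Type} (Ω : Finset X) (B : X → Prop) (f g f' g' : X → ℝ)
    (hf : ∀ p, |f p| ≤ 1) (hg : ∀ p, |g p| ≤ 1) (hf' : ∀ p, |f' p| ≤ 1) (hg' : ∀ p, |g' p| ≤ 1)
    (h : ∀ p ∈ Ω, ¬ B p → f p = f' p ∧ g p = g' p) :
    |∑ p ∈ Ω, f p * g p - ∑ p ∈ Ω, f' p * g' p| ≤ 2 * ((Ω.filter B).card : ℝ) := by
  rw [← Finset.sum_sub_distrib]
  refine (Finset.abs_sum_le_sum_abs _ _).trans ?_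
  rw [← Finset.sum_filter_add_sum_filter_not Ω B]
  have g1 : ∑ p ∈ Ω.filter B, |f p * g p - f' p * g' p| ≤ 2 * ((Ω.filter B).card : ℝ) := by
    refine (Finset.sum_le_card_nsmul _ _ 2 fun p _ =>
      prod_two (hf p) (hg p) (hf' p) (hg' p)).trans ?_
    rw [nsmul_eq_mul]
    linarith
  have g2 : ∑ p ∈ Ω.filter (fun p => ¬ B p), |f p * g p - f' p * g' p| = 0 := by
    refine Finset.sum_eq_zero fun p hp => ?_
    obtain ⟨h1, h2⟩ := Finset.mem_filter.mp hp
    obtain ⟨h3, h4⟩ := h p h1 h2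
    rw [h3, h4, sub_self, abs_zero]
  linarith

variable {S : Dat} {n : ℕ} {η κ : ℝ} {lo : ℕ} {E E' : ℤ × ℤ} {p : Fin S.r → ℕ}

theorem fin_eq (hNST : SpecNST) (hS : S.Ok) (hp : p ∈ S.Om) (hη0 : 0 ≤ η) (hη1 : η < 1 / 2)
    (hκ : κ < 1 / 2) (hSf : Sf S.K0 E.1 E.2) (hdz : dz E.1 E.2 ≠ 0)
    (hG : S.Gh n η κ lo E E' p) :
    sc E.1 E.2 (S.D1 * ∏ i, p i) = sc E.1 E.2 (S.Dx E p (S.Ux E p)) := by
  have hr := hS.rp
  have h12 := hG.t12
  have hne : (S.Ux E p).Nonempty := by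
    rw [← Finset.card_pos]
    omega
  obtain ⟨i0, hi0⟩ := hne
  have hiJ : i0 ∉ S.Jx E p := by
    intro h
    have h1 := (Finset.mem_filter.mp h).2
    have h2 := (Finset.mem_filter.mp hi0).2
    omega
  have hdisj : ∀ V : Finset (Fin S.r), Disjoint (S.Jx E p) (Finset.univ \ (S.Jx E p ∪ V)) := by
    intro V
    rw [Finset.disjoint_left]
    intro x hx hx2
    exact (Finset.mem_sdiff.mp hx2).2 (Finset.mem_union_left _ hx)
  have hNd : S.Nd η κ E E' p (S.K0 * ∏ j ∈ (∅ : Finset (Fin S.r)), p j) i0 ∅ :=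
    hG.nod i0 ∅ (S.Jx E p ∪ ∅) (S.Jx E p) (Finset.univ \ (S.Jx E p ∪ ∅))
      (Finset.notMem_empty i0) (by rw [Finset.union_empty]; exact hiJ) (hdisj ∅)
  have hAok : S.Aok E p (S.Ux E p) :=
    (hG.nod i0 ∅ ∅ (S.Jx E p) (Finset.univ \ (S.Jx E p ∪ S.Ux E p)) (Finset.notMem_empty i0)
      (Finset.notMem_empty i0) (hdisj _)).aux
  exact (hNST S η κ E E' p _ i0 hS hp hη0 hη1 hκ hSf hdz hG.bad hiJ hNd).2 hAok

end PAIM

open PAIM in
theorem specPAI (hKPM : SpecKPM) (hNST : SpecNST) (hTGP : SpecTGP) (hMXP : SpecMXP)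
    (hGIV : SpecGIV) : SpecPAI := by
  intro ε hε
  obtain ⟨H, hH⟩ : ∃ H : ℕ, 14 / 2 ^ H ≤ ε / 8 := by
    obtain ⟨H, hH⟩ := exists_pow_lt_of_lt_one (show (0 : ℝ) < ε / 112 by positivity)
      (show (1 / 2 : ℝ) < 1 by norm_num)
    refine ⟨H, ?_⟩
    rw [one_div, inv_pow] at hH
    rw [div_eq_mul_inv]
    linarith
  obtain ⟨n, hn0, hn⟩ : ∃ n : ℕ, 0 < n ∧ 25 * (7 / 10) ^ n * 2 ^ H ≤ ε / 16 := by
    obtain ⟨n, hn⟩ := exists_pow_lt_of_lt_one
      (show (0 : ℝ) < ε / 16 / (25 * 2 ^ H) by positivity)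
      (show (7 / 10 : ℝ) < 1 by norm_num)
    refine ⟨n + 1, Nat.succ_pos n, ?_⟩
    have h1 : (7 / 10 : ℝ) ^ (n + 1) ≤ (7 / 10) ^ n :=
      pow_le_pow_of_le_one (by norm_num) (by norm_num) (Nat.le_succ n)
    have h2 : (7 / 10 : ℝ) ^ (n + 1) < ε / 16 / (25 * 2 ^ H) := lt_of_le_of_lt h1 hn
    rw [lt_div_iff₀ (by positivity)] at h2
    linarith
  have hnR : (0 : ℝ) < n := by exact_mod_cast hn0
  obtain ⟨η, hηdef⟩ : ∃ η : ℝ, η = min (1 / 1000) (ε / (64 * n)) := ⟨_, rfl⟩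
  have hη : 0 < η := by
    rw [hηdef]
    exact lt_min (by norm_num) (by positivity)
  have hη1 : η ≤ 1 / 1000 := by
    rw [hηdef]
    exact min_le_left _ _
  have hη2 : 64 * n * η ≤ ε := by
    have : η ≤ ε / (64 * n) := by
      rw [hηdef]
      exact min_le_right _ _
    rw [le_div_iff₀ (by positivity)] at this
    linarith
  refine ⟨n, η, η, 4 * n + 4, hn0, hη, hη, hη1, by positivity, ?_⟩
  intro S E E' hS hr hSf hdz hSf' hdz' f g hf hg
  have h2n : 2 * n ≤ S.r := by omega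
  obtain ⟨B, hB⟩ : ∃ B : (Fin S.r → ℕ) → Prop, B = fun p =>
    ¬ (S.Gh n η η 0 E E' p ∧ S.Gh n η η n E' E p) := ⟨_, rfl⟩
  have hBcard : ((S.Om.filter (fun p => ¬ (S.Gh n η η 0 E E' p ∧
      S.Gh n η η n E' E p))).card : ℝ) = ((S.Om.filter B).card : ℝ) := by
    congr 2
    ext p
    rw [Finset.mem_filter, Finset.mem_filter]
    simp only [hB]
  rw [hBcard]
  -- step 1
  have st1 := PAIM.replace S.Om B (fun p => f (Nat.log 2 (sc E.1 E.2 (S.D1 * ∏ i, p i))))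
    (fun p => g (Nat.log 2 (sc E'.1 E'.2 (S.D1 * ∏ i, p i))))
    (fun p => f (S.sx E p (S.Ux E p))) (fun p => g (S.sx E' p (S.Ux E' p)))
    (fun p => hf _) (fun p => hg _) (fun p => hf _) (fun p => hg _) (by
      intro p hp hnB
      rw [hB] at hnB
      obtain ⟨hG, hG'⟩ := not_not.mp hnB
      constructor
      · show f _ = f _
        rw [fin_eq hNST hS hp hη.le (by linarith) (by linarith) hSf hdz hG]
        rfl
      · show g _ = g _
        rw [fin_eq hNST hS hp hη.le (by linarith) (by linarith) hSf' hdz' hG']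
        rfl)
  -- step 2
  have st2 := hMXP S n η η E E' 0 n (fun p => g (S.sx E' p (S.Ux E' p))) hS hn0 h2n hη.le
    (by linarith) hη.le (by linarith) hSf hdz (Or.inl ⟨rfl, rfl⟩) (fun p _ => hg _)
    (fun k hk p hp p' hp' hR => by
      show g _ = g _
      rw [(hGIV S n E E' 0 n k p p' hS (Or.inl ⟨rfl, rfl⟩) hk hp hp' hR).1]) f hf
  -- step 3
  have hPf := hKPM.bdd f n hf
  have hPg := hKPM.bdd g n hg
  have st3 := hMXP S n η η E' E n 0
    (fun p => (Pop^[n] f) (S.sx E p (S.Uk n E E' p 0 n 0))) hS hn0 h2n hη.le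
    (by linarith) hη.le (by linarith) hSf' hdz' (Or.inr ⟨rfl, rfl⟩) (fun p _ => hPf _)
    (fun k hk p hp p' hp' hR => by
      show (Pop^[n] f) _ = (Pop^[n] f) _
      rw [(hGIV S n E' E n 0 k p p' hS (Or.inr ⟨rfl, rfl⟩) hk hp hp' hR).2]) g hg
  -- step 4
  have t1 := hTGP S n η η E E' 0 n hS hn0 hr hη.le (by linarith) (by linarith) hSf hdz
    (Or.inl ⟨rfl, rfl⟩)
  have t2 := hTGP S n η η E' E n 0 hS hn0 hr hη.le (by linarith) (by linarith) hSf' hdz'
    (Or.inr ⟨rfl, rfl⟩)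
  have hsub1 : S.Om.filter (fun p => ¬ B p) ⊆ S.Om.filter (S.Gh n η η 0 E E') := by
    intro p hp
    obtain ⟨h1, h2⟩ := Finset.mem_filter.mp hp
    rw [hB] at h2
    exact Finset.mem_filter.mpr ⟨h1, (not_not.mp h2).1⟩
  have hsub2 : S.Om.filter (fun p => ¬ B p) ⊆ S.Om.filter (S.Gh n η η n E' E) := by
    intro p hp
    obtain ⟨h1, h2⟩ := Finset.mem_filter.mp hp
    rw [hB] at h2
    exact Finset.mem_filter.mpr ⟨h1, (not_not.mp h2).2⟩
  have st4 := PAIM.core S.Om B (fun p => S.sx E p (S.Uk n E E' p 0 n 0))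
    (fun p => S.sx E' p (S.Uk n E' E p n 0 0)) (Pop^[n] f) (Pop^[n] g) (lu := Lm f)
    (lv := Lm g) (δ := ε / 16) H hPf hPg (hKPM.lmb f hf) (hKPM.lmb g hg)
    (fun k hk => (hKPM.mix f n k hf).trans ((mul_le_mul_of_nonneg_left
      (pow_le_pow_right₀ (by norm_num) hk) (by positivity)).trans hn))
    (fun k hk => (hKPM.mix g n k hg).trans ((mul_le_mul_of_nonneg_left
      (pow_le_pow_right₀ (by norm_num) hk) (by positivity)).trans hn))
    (by positivity)
    ((Finset.sum_le_sum_of_subset_of_nonneg hsub1 fun _ _ _ => by positivity).trans t1)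
    ((Finset.sum_le_sum_of_subset_of_nonneg hsub2 fun _ _ _ => by positivity).trans t2)
  -- sizes
  have hB1 : ((S.Om.filter (fun p => ¬ S.Gh n η η 0 E E' p)).card : ℝ) ≤
      ((S.Om.filter B).card : ℝ) := by
    have : S.Om.filter (fun p => ¬ S.Gh n η η 0 E E' p) ⊆ S.Om.filter B := by
      intro p hp
      obtain ⟨h1, h2⟩ := Finset.mem_filter.mp hp
      refine Finset.mem_filter.mpr ⟨h1, ?_⟩
      simp only [hB]
      exact fun h => h2 h.1
    exact_mod_cast Finset.card_le_card this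
  have hB2 : ((S.Om.filter (fun p => ¬ S.Gh n η η n E' E p)).card : ℝ) ≤
      ((S.Om.filter B).card : ℝ) := by
    have : S.Om.filter (fun p => ¬ S.Gh n η η n E' E p) ⊆ S.Om.filter B := by
      intro p hp
      obtain ⟨h1, h2⟩ := Finset.mem_filter.mp hp
      refine Finset.mem_filter.mpr ⟨h1, ?_⟩
      simp only [hB]
      exact fun h => h2 h.2
    exact_mod_cast Finset.card_le_card this
  -- the sum of the errors
  obtain ⟨N, hN⟩ : ∃ N : ℝ, N = (S.Om.card : ℝ) := ⟨_, rfl⟩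
  obtain ⟨b, hb⟩ : ∃ b : ℝ, b = ((S.Om.filter B).card : ℝ) := ⟨_, rfl⟩
  rw [← hN] at st2 st3 st4 ⊢
  rw [← hb] at st1 st4 hB1 hB2 ⊢
  have hN0 : 0 ≤ N := by rw [hN]; positivity
  have c1 : 2 * (n : ℝ) * ((S.Om.filter (fun p => ¬ S.Gh n η η 0 E E' p)).card : ℝ) ≤
      2 * n * b := mul_le_mul_of_nonneg_left hB1 (by positivity)
  have c2 : 2 * (n : ℝ) * ((S.Om.filter (fun p => ¬ S.Gh n η η n E' E p)).card : ℝ) ≤
      2 * n * b := mul_le_mul_of_nonneg_left hB2 (by positivity)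
  have c3 : (n : ℝ) * (4 * η + 4 * η) * N ≤ ε / 8 * N :=
    mul_le_mul_of_nonneg_right (by linarith) hN0
  have c4 : 28 / 2 ^ H * N ≤ ε / 4 * N := by
    refine mul_le_mul_of_nonneg_right ?_ hN0
    have : (28 : ℝ) / 2 ^ H = 2 * (14 / 2 ^ H) := by ring
    rw [this]
    linarith
  have comm3 : ∑ p ∈ S.Om, g (S.sx E' p (S.Ux E' p)) *
      (Pop^[n] f) (S.sx E p (S.Uk n E E' p 0 n 0)) =
      ∑ p ∈ S.Om, (Pop^[n] f) (S.sx E p (S.Uk n E E' p 0 n 0)) *
        g (S.sx E' p (S.Ux E' p)) := Finset.sum_congr rfl fun p _ => mul_comm _ _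
  have comm4 : ∑ p ∈ S.Om, (Pop^[n] g) (S.sx E' p (S.Uk n E' E p n 0 0)) *
      (Pop^[n] f) (S.sx E p (S.Uk n E E' p 0 n 0)) =
      ∑ p ∈ S.Om, (Pop^[n] f) (S.sx E p (S.Uk n E E' p 0 n 0)) *
        (Pop^[n] g) (S.sx E' p (S.Uk n E' E p n 0 0)) :=
    Finset.sum_congr rfl fun p _ => mul_comm _ _
  simp only [comm3, comm4] at st3
  obtain ⟨T0, hT0⟩ : ∃ T0 : ℝ, T0 = ∑ p ∈ S.Om,
    f (Nat.log 2 (sc E.1 E.2 (S.D1 * ∏ i, p i))) *
      g (Nat.log 2 (sc E'.1 E'.2 (S.D1 * ∏ i, p i))) := ⟨_, rfl⟩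
  rw [← hT0] at st1 ⊢
  rw [abs_le] at st1 st2 st3 st4 ⊢
  have d1 : (4 * (n : ℝ) + 4) * b = 4 * n * b + 4 * b := by ring
  have d2 : (2 * (ε / 16) + 28 / 2 ^ H) * N = ε / 8 * N + 28 / 2 ^ H * N := by ring
  have d3 : 0 ≤ ε * N := by positivity
  rw [d2] at st4
  rw [d1]
  constructor
  · linarith [st1.1, st2.1, st3.1, st4.1]
  · linarith [st1.2, st2.2, st3.2, st4.2]

end Pool.Agent.Lib.MP_8cb858_nt.PT
end

section
/-!
# SML: small lists
-/
namespace Pool.Agent.Lib.MP_8cb858_nt.PT.SMLM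

open Pool.Agent.Lib.MP_8cb858_nt.PT
open scoped Classical

lemma ty_lt (q : ℕ) (E : ℤ × ℤ) : ty q E < 4 := by
  unfold ty
  split_ifs <;> norm_num

/-- The prime factors of `K0 ∏_I p`. -/
lemma pf_card {r : ℕ} (K0 : ℕ) (p : Fin r → ℕ) (hp : ∀ j, (p j).Prime) (hK : 0 < K0)
    (I : Finset (Fin r)) :
    (K0 * ∏ j ∈ I, p j).primeFactors.card ≤ K0.primeFactors.card + r := by
  have h1 : (K0 * ∏ j ∈ I, p j).primeFactors ⊆ K0.primeFactors ∪ I.image p := by
    intro q hq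
    have hq1 := Nat.prime_of_mem_primeFactors hq
    have hq2 := Nat.dvd_of_mem_primeFactors hq
    rw [Finset.mem_union]
    rcases (Nat.Prime.dvd_mul hq1).mp hq2 with h | h
    · left; exact Nat.mem_primeFactors.mpr ⟨hq1, h, hK.ne'⟩
    · right
      obtain ⟨j, hj, hd⟩ := (Prime.dvd_finsetProd_iff hq1.prime _).mp h
      rw [Finset.mem_image]
      exact ⟨j, hj, ((Nat.prime_dvd_prime_iff_eq hq1 (hp j)).mp hd).symm⟩
  have h2 := Finset.card_le_card h1
  have h3 := Finset.card_union_le K0.primeFactors (I.image p)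
  have h4 : (I.image p).card ≤ r := by
    refine Finset.card_image_le.trans ?_
    have := Finset.card_le_univ I
    rwa [Fintype.card_fin] at this
  omega

/-- The number of elements in small cells. -/
lemma small_cells (hCLM : SpecCLM) (K : ℕ) (L : Finset ℕ) (E' : ℤ × ℤ) (x : ℝ) (hx : 0 ≤ x) :
    ((L.filter (fun q => ((L.filter (fun q' => ty q' E' = ty q E' ∧ cl K q' = cl K q)).card : ℝ)
      < x)).card : ℝ) ≤ x * (32 * 2 ^ K.primeFactors.card) := by
  set B := L.filter (fun q => ((L.filter (fun q' => ty q' E' = ty q E' ∧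
    cl K q' = cl K q)).card : ℝ) < x) with hB
  let f : ℕ → ℕ × (Finset ℕ × ℕ) := fun q => (ty q E', cl K q)
  have h1 : B.card ≤ ⌊x⌋₊ * (B.image f).card := by
    refine Finset.card_le_mul_card_image (f := f) B ⌊x⌋₊ ?_
    intro c hc
    obtain ⟨q, hq, rfl⟩ := Finset.mem_image.mp hc
    rw [hB, Finset.mem_filter] at hq
    apply Nat.le_floor
    refine le_trans ?_ hq.2.le
    have : (B.filter (fun x => f x = f q)) ⊆
        L.filter (fun q' => ty q' E' = ty q E' ∧ cl K q' = cl K q) := by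
      intro y hy
      rw [Finset.mem_filter] at hy ⊢
      refine ⟨?_, ?_⟩
      · have := hy.1
        rw [hB, Finset.mem_filter] at this
        exact this.1
      · exact ⟨congrArg Prod.fst hy.2, congrArg Prod.snd hy.2⟩
    exact_mod_cast Finset.card_le_card this
  have h2 : B.image f ⊆ Finset.range 4 ×ˢ (L.image (cl K)) := by
    intro c hc
    obtain ⟨q, hq, rfl⟩ := Finset.mem_image.mp hc
    rw [hB, Finset.mem_filter] at hq
    rw [Finset.mem_product]
    exact ⟨Finset.mem_range.mpr (ty_lt q E'), Finset.mem_image_of_mem _ hq.1⟩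
  have h3 : (B.image f).card ≤ 4 * (8 * 2 ^ K.primeFactors.card) := by
    refine (Finset.card_le_card h2).trans ?_
    rw [Finset.card_product, Finset.card_range]
    exact Nat.mul_le_mul_left 4 (hCLM.num K L)
  have h4 : ((B.image f).card : ℝ) ≤ 32 * 2 ^ K.primeFactors.card := by
    have : ((B.image f).card : ℝ) ≤ ((4 * (8 * 2 ^ K.primeFactors.card) : ℕ) : ℝ) := by
      exact_mod_cast h3
    refine this.trans (le_of_eq ?_)
    push_cast
    ring
  calc (B.card : ℝ) ≤ ((⌊x⌋₊ * (B.image f).card : ℕ) : ℝ) := by exact_mod_cast h1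
    _ = (⌊x⌋₊ : ℝ) * ((B.image f).card : ℝ) := by push_cast; ring
    _ ≤ x * (32 * 2 ^ K.primeFactors.card) := by
        apply mul_le_mul (Nat.floor_le hx) h4 (Nat.cast_nonneg _) hx

lemma exp_bounds (r : ℕ) : (r : ℝ) ≤ Real.exp r ∧ (2 : ℝ) ^ r ≤ Real.exp r := by
  constructor
  · have := Real.add_one_le_exp (r : ℝ); linarith
  · have h : (2 : ℝ) ≤ Real.exp 1 := by
      have := Real.add_one_le_exp (1 : ℝ); linarith
    calc (2 : ℝ) ^ r ≤ (Real.exp 1) ^ r := pow_le_pow_left₀ (by norm_num) h r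
      _ = Real.exp r := by rw [← Real.exp_nat_mul]; simp

theorem main (hONE : SpecONE) (hCLM : SpecCLM) : SpecSML := by
  intro r1 ε hε
  obtain ⟨m, hm⟩ := exists_nat_ge (Real.log (32 / ε))
  have hm' : 32 * Real.exp (-(m : ℝ)) ≤ ε := by
    have h1 : Real.exp (-(m : ℝ)) ≤ Real.exp (-(Real.log (32 / ε))) :=
      Real.exp_le_exp.mpr (by linarith)
    rw [Real.exp_neg, Real.exp_neg, Real.exp_log (by positivity)] at h1
    rw [Real.exp_neg]
    have h2 : (32 : ℝ) * (32 / ε)⁻¹ = ε := by field_simp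
    calc 32 * (Real.exp m)⁻¹ ≤ 32 * (32 / ε)⁻¹ := by linarith
      _ = ε := h2
  refine ⟨r1 + 10 + m, ?_⟩
  intro S E' hS
  have hok := hS.ok
  have hr0 : 1 ≤ S.r := hok.rp
  have hrr : (r1 + 10 + m) ≤ S.r := hS.r
  set r := S.r with hr
  have hrR : (r1 : ℝ) + 10 + m ≤ (r : ℝ) := by exact_mod_cast hrr
  have hr1 : (1 : ℝ) ≤ r := by exact_mod_cast hr0
  have hK0 : S.K0.primeFactors.card ≤ r := by
    have := hS.k0
    have h2 : 1 * S.K0.primeFactors.card ≤ (r1 + 10 + m) * S.K0.primeFactors.card :=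
      Nat.mul_le_mul_right _ (by omega)
    omega
  set c : ℝ := 32 * 4 ^ r * Real.exp ((r1 : ℝ) * r) / Real.exp (((r1 + 10 + m : ℕ) : ℝ) * r)
    with hc
  have hc0 : 0 ≤ c := by rw [hc]; positivity
  -- one pair
  have key : ∀ (i : Fin r) (I : Finset (Fin r)), i ∉ I →
      ((S.Om.filter (fun p => ((S.Ls E' (S.K0 * ∏ j ∈ I, p j) p i).card : ℝ) <
        Real.exp (r1 * r))).card : ℝ) ≤ c * (S.Om.card : ℝ) := by
    intro i I hiI
    refine hONE S.r S.L i (fun p => ((S.Ls E' (S.K0 * ∏ j ∈ I, p j) p i).card : ℝ) <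
        Real.exp (r1 * r)) c hc0 ?_
    intro p hp
    have hp' : ∀ j, p j ∈ S.L j := by
      intro j; exact (Fintype.mem_piFinset.mp hp) j
    have hpp : ∀ j, (p j).Prime := fun j => (hok.lpr j _ (hp' j)).1
    set K := S.K0 * ∏ j ∈ I, p j with hK
    have h1 : (S.L i).filter (fun q => ((S.Ls E' (S.K0 * ∏ j ∈ I, Function.update p i q j)
        (Function.update p i q) i).card : ℝ) < Real.exp (r1 * r)) =
        (S.L i).filter (fun q => (((S.L i).filter (fun q' => ty q' E' = ty q E' ∧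
          cl K q' = cl K q)).card : ℝ) < Real.exp (r1 * r)) := by
      apply Finset.filter_congr
      intro q _
      have h2 : ∏ j ∈ I, Function.update p i q j = ∏ j ∈ I, p j := by
        apply Finset.prod_congr rfl
        intro j hj
        rw [Function.update_of_ne]
        rintro rfl
        exact hiI hj
      rw [h2]
      unfold Dat.Ls
      rw [Function.update_self]
    have h3 := small_cells hCLM K (S.L i) E' (Real.exp (r1 * r)) (Real.exp_pos _).le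
    rw [← h1] at h3
    refine h3.trans ?_
    have h4 : K.primeFactors.card ≤ 2 * r := by
      have h40 := pf_card S.K0 p hpp hok.k0 I
      rw [hK]
      exact h40.trans (by have hre : S.r = r := rfl; omega)
    have h5 : (2 : ℝ) ^ K.primeFactors.card ≤ 4 ^ r := by
      calc (2 : ℝ) ^ K.primeFactors.card ≤ 2 ^ (2 * r) := pow_le_pow_right₀ (by norm_num) h4
        _ = 4 ^ r := by rw [pow_mul]; norm_num
    have h6 := hS.card i
    rw [← hr] at h6
    have h7 : Real.exp (((r1 + 10 + m : ℕ) : ℝ) * r) > 0 := Real.exp_pos _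
    calc Real.exp (r1 * r) * (32 * 2 ^ K.primeFactors.card)
        ≤ Real.exp (r1 * r) * (32 * 4 ^ r) := by
          apply mul_le_mul_of_nonneg_left _ (Real.exp_pos _).le
          linarith
      _ = c * Real.exp (((r1 + 10 + m : ℕ) : ℝ) * r) := by
          rw [hc]; field_simp
      _ ≤ c * ((S.L i).card : ℝ) := mul_le_mul_of_nonneg_left h6 hc0
  -- union
  let T : Finset (Fin r × Finset (Fin r)) := Finset.univ.filter (fun t => t.1 ∉ t.2)
  have hsub : S.Om.filter (fun p => ∃ (i : Fin S.r) (I : Finset (Fin S.r)), i ∉ I ∧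
      ((S.Ls E' (S.K0 * ∏ j ∈ I, p j) p i).card : ℝ) < Real.exp (r1 * S.r)) ⊆
      T.biUnion (fun t => S.Om.filter (fun p => ((S.Ls E' (S.K0 * ∏ j ∈ t.2, p j) p t.1).card : ℝ) <
        Real.exp (r1 * r))) := by
    intro p hp
    rw [Finset.mem_filter] at hp
    obtain ⟨hp1, i, I, hiI, hlt⟩ := hp
    rw [Finset.mem_biUnion]
    refine ⟨(i, I), ?_, ?_⟩
    · exact Finset.mem_filter.mpr ⟨Finset.mem_univ _, hiI⟩
    · exact Finset.mem_filter.mpr ⟨hp1, hlt⟩
  have hcard : ((S.Om.filter (fun p => ∃ (i : Fin S.r) (I : Finset (Fin S.r)), i ∉ I ∧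
      ((S.Ls E' (S.K0 * ∏ j ∈ I, p j) p i).card : ℝ) < Real.exp (r1 * S.r))).card : ℝ) ≤
      ∑ t ∈ T, ((S.Om.filter (fun p => ((S.Ls E' (S.K0 * ∏ j ∈ t.2, p j) p t.1).card : ℝ) <
        Real.exp (r1 * r))).card : ℝ) := by
    have := (Finset.card_le_card hsub).trans Finset.card_biUnion_le
    exact_mod_cast this
  refine hcard.trans ?_
  have h8 : ∑ t ∈ T, ((S.Om.filter (fun p => ((S.Ls E' (S.K0 * ∏ j ∈ t.2, p j) p t.1).card : ℝ) <
        Real.exp (r1 * r))).card : ℝ) ≤ ∑ t ∈ T, c * (S.Om.card : ℝ) := by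
    refine Finset.sum_le_sum (fun t ht => ?_)
    exact key t.1 t.2 (Finset.mem_filter.mp ht).2
  refine h8.trans ?_
  rw [Finset.sum_const, nsmul_eq_mul, ← mul_assoc]
  refine mul_le_mul_of_nonneg_right ?_ (Nat.cast_nonneg _)
  have h9 : (T.card : ℝ) ≤ r * 2 ^ r := by
    have : T.card ≤ r * 2 ^ r := by
      refine (Finset.card_filter_le _ _).trans ?_
      rw [Finset.card_univ, Fintype.card_prod, Fintype.card_fin, Fintype.card_finset,
        Fintype.card_fin]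
    exact_mod_cast this
  obtain ⟨b1, b2⟩ := exp_bounds r
  have b4 : (4 : ℝ) ^ r ≤ Real.exp (2 * r) := by
    have : (4 : ℝ) ^ r = 2 ^ r * 2 ^ r := by rw [← mul_pow]; norm_num
    rw [this]
    calc (2 : ℝ) ^ r * 2 ^ r ≤ Real.exp r * Real.exp r :=
          mul_le_mul b2 b2 (by positivity) (Real.exp_pos _).le
      _ = Real.exp (2 * r) := by rw [← Real.exp_add]; ring_nf
  have hcb : c ≤ 32 * Real.exp (2 * r) * Real.exp ((r1 : ℝ) * r) *
      Real.exp (-(((r1 + 10 + m : ℕ) : ℝ) * r)) := by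
    rw [hc, Real.exp_neg, ← div_eq_mul_inv]
    apply div_le_div_of_nonneg_right _ (Real.exp_pos _).le
    apply mul_le_mul_of_nonneg_right _ (Real.exp_pos _).le
    linarith
  calc (T.card : ℝ) * c ≤ (Real.exp r * Real.exp r) * (32 * Real.exp (2 * r) *
        Real.exp ((r1 : ℝ) * r) * Real.exp (-(((r1 + 10 + m : ℕ) : ℝ) * r))) := by
        apply mul_le_mul _ hcb hc0 (by positivity)
        exact h9.trans (mul_le_mul b1 b2 (by positivity) (Real.exp_pos _).le)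
    _ = 32 * Real.exp (r + r + 2 * r + r1 * r + -(((r1 + 10 + m : ℕ) : ℝ) * r)) := by
        rw [Real.exp_add, Real.exp_add, Real.exp_add, Real.exp_add]; ring
    _ ≤ 32 * Real.exp (-(m : ℝ)) := by
        apply mul_le_mul_of_nonneg_left _ (by norm_num)
        apply Real.exp_le_exp.mpr
        push_cast
        have hm0 : (0 : ℝ) ≤ m := Nat.cast_nonneg m
        nlinarith [mul_nonneg hm0 (by linarith : (0 : ℝ) ≤ r - 1)]
    _ ≤ ε := hm'

end Pool.Agent.Lib.MP_8cb858_nt.PT.SMLM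

namespace Pool.Agent.Lib.MP_8cb858_nt.PT

theorem specSML (hONE : SpecONE) (hCLM : SpecCLM) : SpecSML := SMLM.main hONE hCLM

end Pool.Agent.Lib.MP_8cb858_nt.PT
end

section
/-! Module STR: Theorem S*. -/
set_option autoImplicit false

namespace Pool.Agent.Lib.MP_8cb858_nt.PT

open Polynomial NumberField IsDedekindDomain Pool.Agent.Lib.MP_8cb858_nt.SEL
open Pool.Agent.Lib.MP_8cb858_nt.PF
open scoped Classical WithZero

namespace STRM

/-- the double sum of the errors -/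
theorem pair_sum {X Y : Type} (Ω : Finset X) (Ex : Finset Y) (F : Y → Y → X → ℝ) (c : ℝ)
    (hc : |c| ≤ 1) (hF : ∀ E E' p, |F E E' p| ≤ 1) (δ C : ℝ) (hC : 0 < C)
    (G : Y → Prop) (Bad : Y → Y → Finset X)
    (hgood : ∀ E ∈ Ex, ∀ E' ∈ Ex, G E → G E' →
      |∑ p ∈ Ω, F E E' p - c * (Ω.card : ℝ)| ≤ δ / 4 * (Ω.card : ℝ) + C * ((Bad E E').card : ℝ))
    (hδ : 0 < δ)
    (hG : ((Ex.filter (fun E => ¬ G E)).card : ℝ) ≤ δ / 16 * (Ex.card : ℝ))
    (hBad : (∑ E ∈ Ex, ∑ E' ∈ Ex, ((Bad E E').card : ℝ)) ≤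
      δ / (4 * C) * (Ex.card : ℝ) ^ 2 * (Ω.card : ℝ)) :
    |∑ p ∈ Ω, ∑ E ∈ Ex, ∑ E' ∈ Ex, F E E' p - c * (Ω.card : ℝ) * (Ex.card : ℝ) ^ 2| ≤
      δ * (Ω.card : ℝ) * (Ex.card : ℝ) ^ 2 := by
  have hΩ : (0 : ℝ) ≤ (Ω.card : ℝ) := Nat.cast_nonneg _
  have hE0 : (0 : ℝ) ≤ (Ex.card : ℝ) := Nat.cast_nonneg _
  have h1 : ∑ p ∈ Ω, ∑ E ∈ Ex, ∑ E' ∈ Ex, F E E' p - c * (Ω.card : ℝ) * (Ex.card : ℝ) ^ 2 =
      ∑ E ∈ Ex, ∑ E' ∈ Ex, (∑ p ∈ Ω, F E E' p - c * (Ω.card : ℝ)) := by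
    have h2 : ∑ p ∈ Ω, ∑ E ∈ Ex, ∑ E' ∈ Ex, F E E' p =
        ∑ E ∈ Ex, ∑ E' ∈ Ex, ∑ p ∈ Ω, F E E' p := by
      rw [Finset.sum_comm]
      refine Finset.sum_congr rfl fun E _ => ?_
      rw [Finset.sum_comm]
    rw [h2]
    simp only [Finset.sum_sub_distrib, Finset.sum_const, nsmul_eq_mul]
    ring
  rw [h1]
  have hterm : ∀ E ∈ Ex, ∀ E' ∈ Ex, |∑ p ∈ Ω, F E E' p - c * (Ω.card : ℝ)| ≤
      δ / 4 * (Ω.card : ℝ) + C * ((Bad E E').card : ℝ) +
        (if ¬ G E then 2 * (Ω.card : ℝ) else 0) + (if ¬ G E' then 2 * (Ω.card : ℝ) else 0) := by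
    intro E hE E' hE'
    have hB : (0 : ℝ) ≤ C * ((Bad E E').card : ℝ) := mul_nonneg hC.le (Nat.cast_nonneg _)
    have hD : (0 : ℝ) ≤ δ / 4 * (Ω.card : ℝ) := by positivity
    have htriv : |∑ p ∈ Ω, F E E' p - c * (Ω.card : ℝ)| ≤ 2 * (Ω.card : ℝ) := by
      have h3 : |∑ p ∈ Ω, F E E' p| ≤ (Ω.card : ℝ) := by
        calc |∑ p ∈ Ω, F E E' p| ≤ ∑ p ∈ Ω, |F E E' p| := Finset.abs_sum_le_sum_abs _ _
          _ ≤ ∑ _p ∈ Ω, (1 : ℝ) := Finset.sum_le_sum fun p _ => hF E E' p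
          _ = (Ω.card : ℝ) := by simp
      have h4 : |c * (Ω.card : ℝ)| ≤ (Ω.card : ℝ) := by
        rw [abs_mul, abs_of_nonneg hΩ]
        have := mul_le_mul_of_nonneg_right hc hΩ
        linarith
      have h5 := abs_sub (∑ p ∈ Ω, F E E' p) (c * (Ω.card : ℝ))
      linarith
    by_cases h6 : G E
    · by_cases h7 : G E'
      · have := hgood E hE E' hE' h6 h7
        rw [if_neg (not_not.2 h6), if_neg (not_not.2 h7)]
        linarith
      · rw [if_neg (not_not.2 h6), if_pos h7]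
        linarith
    · rw [if_pos h6]
      have : (0 : ℝ) ≤ (if ¬ G E' then 2 * (Ω.card : ℝ) else 0) := by
        split_ifs
        · exact le_refl (0 : ℝ)
        · positivity
      linarith
  have h8 : |∑ E ∈ Ex, ∑ E' ∈ Ex, (∑ p ∈ Ω, F E E' p - c * (Ω.card : ℝ))| ≤
      ∑ E ∈ Ex, ∑ E' ∈ Ex, (δ / 4 * (Ω.card : ℝ) + C * ((Bad E E').card : ℝ) +
        (if ¬ G E then 2 * (Ω.card : ℝ) else 0) + (if ¬ G E' then 2 * (Ω.card : ℝ) else 0)) := by
    refine le_trans (Finset.abs_sum_le_sum_abs _ _) (Finset.sum_le_sum fun E hE => ?_)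
    refine le_trans (Finset.abs_sum_le_sum_abs _ _) (Finset.sum_le_sum fun E' hE' => ?_)
    exact hterm E hE E' hE'
  have h9 : ∑ E ∈ Ex, ∑ E' ∈ Ex, (δ / 4 * (Ω.card : ℝ) + C * ((Bad E E').card : ℝ) +
        (if ¬ G E then 2 * (Ω.card : ℝ) else 0) + (if ¬ G E' then 2 * (Ω.card : ℝ) else 0)) =
      δ / 4 * (Ω.card : ℝ) * (Ex.card : ℝ) ^ 2 +
        C * (∑ E ∈ Ex, ∑ E' ∈ Ex, ((Bad E E').card : ℝ)) +
        4 * (Ω.card : ℝ) * (Ex.card : ℝ) * ((Ex.filter (fun E => ¬ G E)).card : ℝ) := by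
    have h10 : ∑ E ∈ Ex, (if ¬ G E then 2 * (Ω.card : ℝ) else 0) =
        2 * (Ω.card : ℝ) * ((Ex.filter (fun E => ¬ G E)).card : ℝ) := by
      rw [← Finset.sum_filter, Finset.sum_const, nsmul_eq_mul]
      ring
    simp only [Finset.sum_add_distrib, Finset.sum_const, nsmul_eq_mul, h10, ← Finset.mul_sum]
    ring
  rw [h9] at h8
  have h11 : C * (∑ E ∈ Ex, ∑ E' ∈ Ex, ((Bad E E').card : ℝ)) ≤
      δ / 4 * (Ω.card : ℝ) * (Ex.card : ℝ) ^ 2 := by
    have h12 := mul_le_mul_of_nonneg_left hBad hC.le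
    have h13 : C * (δ / (4 * C) * (Ex.card : ℝ) ^ 2 * (Ω.card : ℝ)) =
        δ / 4 * (Ω.card : ℝ) * (Ex.card : ℝ) ^ 2 := by
      field_simp
    linarith
  have h14 : 4 * (Ω.card : ℝ) * (Ex.card : ℝ) * ((Ex.filter (fun E => ¬ G E)).card : ℝ) ≤
      δ / 4 * (Ω.card : ℝ) * (Ex.card : ℝ) ^ 2 := by
    have h15 := mul_le_mul_of_nonneg_left hG
      (show (0 : ℝ) ≤ 4 * (Ω.card : ℝ) * (Ex.card : ℝ) by positivity)
    have h16 : 4 * (Ω.card : ℝ) * (Ex.card : ℝ) * (δ / 16 * (Ex.card : ℝ)) =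
        δ / 4 * (Ω.card : ℝ) * (Ex.card : ℝ) ^ 2 := by ring
    linarith
  have h17 : (0 : ℝ) ≤ δ * (Ω.card : ℝ) * (Ex.card : ℝ) ^ 2 := by positivity
  nlinarith [h8, h11, h14, h17]

/-- a prime whose square divides the discriminant, prime to `6 M! D1` -/
theorem not_sf {M D1 : ℕ} {E : ℤ × ℤ} (h : ¬ Sf (6 * M.factorial * D1) E.1 E.2) :
    ∃ p : ℕ, p.Prime ∧ M < p ∧ (p : ℤ) ^ 2 ∣ dz E.1 E.2 := by
  unfold Sf at h
  push Not at h
  obtain ⟨p, hp, h1, h2⟩ := h
  refine ⟨p, hp, ?_, h2⟩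
  by_contra h3
  push Not at h3
  apply h1
  have h4 : p ∣ M.factorial := (hp.dvd_factorial).2 h3
  exact dvd_mul_of_dvd_left (dvd_mul_of_dvd_right h4 _) _

theorem log_iff {s d : ℕ} {c : ℕ} (h : c = 2 ^ s) : c = 2 ^ d ↔ Nat.log 2 c = d := by
  rw [h, Nat.log_pow (by norm_num)]
  constructor
  · intro h1
    exact Nat.pow_right_injective (le_refl 2) h1
  · rintro rfl
    rfl

/-- the number of triples -/
theorem triples {A B : Type} (H : Set A) (hH : H.Finite) (Ω : Finset B)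
    (P : A → A → B → Prop) :
    (∑ E ∈ hH.toFinset, ∑ E' ∈ hH.toFinset, ((Ω.filter (fun p => P E E' p)).card : ℝ)) =
      ({t : A × A × B | t.1 ∈ H ∧ t.2.1 ∈ H ∧ t.2.2 ∈ Ω ∧ P t.1 t.2.1 t.2.2}.ncard : ℝ) := by
  have h1 : {t : A × A × B | t.1 ∈ H ∧ t.2.1 ∈ H ∧ t.2.2 ∈ Ω ∧ P t.1 t.2.1 t.2.2} =
      (((hH.toFinset ×ˢ hH.toFinset ×ˢ Ω).filter (fun t => P t.1 t.2.1 t.2.2) :
        Finset (A × A × B)) : Set (A × A × B)) := by
    ext t
    simp only [Set.mem_ofPred_eq, Finset.coe_filter, Finset.mem_product, Set.Finite.mem_toFinset,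
      and_assoc]
  rw [h1, Set.ncard_coe_finset, Finset.card_filter, Finset.sum_product]
  push_cast
  refine Finset.sum_congr rfl fun E _ => ?_
  rw [Finset.sum_product]
  refine Finset.sum_congr rfl fun E' _ => ?_
  rw [Finset.card_filter]
  push_cast
  rfl

end STRM

/-- **STAR.** -/
theorem specSTAR (hPAI : SpecPAI) (hBDM : SpecBDM) (hSMM : SpecSMM) (hTLZ : SpecTLZ)
    (hEQZ : SpecEQZ) (hGEN : SpecGEN) (hAUX : SpecAUX) (hKPM : SpecKPM) : SpecSTAR := by
  intro ε hε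
  obtain ⟨δ, hδ, hS⟩ := hSMM ε hε
  obtain ⟨n, η, κ, C, hn, hη, hκ, hκ1, hC, hP⟩ := hPAI (δ / 4) (by positivity)
  obtain ⟨r1, hB⟩ := hBDM n η κ (δ / (4 * C)) hn hη hκ hκ1 (by positivity)
  obtain ⟨M, X1, hT⟩ := hTLZ (δ / 16) (by positivity)
  have hN : 0 < 6 * M.factorial := by positivity
  set N : ℕ := 6 * M.factorial with hNdef
  refine ⟨40 * n + 2 * r1 * (N.primeFactors.card + 1) + N + 1, ?_⟩
  intro r D1 L hr hD1 hrD hL hcard hdis
  set r0 : ℕ := 40 * n + 2 * r1 * (N.primeFactors.card + 1) + N + 1 with hr0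
  have hD1pos : 0 < D1 := Nat.pos_of_ne_zero hD1.ne_zero
  have hrpos : 0 < r := by omega
  have hr1 : (1 : ℝ) ≤ r := by exact_mod_cast hrpos
  have h2r1 : 2 * r1 ≤ r0 := by
    have : 2 * r1 * 1 ≤ 2 * r1 * (N.primeFactors.card + 1) := Nat.mul_le_mul_left _ (by omega)
    omega
  have hr1r0 : r1 ≤ r0 := by omega
  have hexp1 : Real.exp (r1 * r) ≤ Real.exp (r0 * r) := by
    apply Real.exp_le_exp.2
    have : (r1 : ℝ) ≤ r0 := by exact_mod_cast hr1r0
    exact mul_le_mul_of_nonneg_right this (by linarith)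
  have hexpN : (N : ℝ) < Real.exp (r0 * r) := by
    have h1 : (r0 : ℝ) * r + 1 ≤ Real.exp (r0 * r) := Real.add_one_le_exp _
    have h2 : (r0 : ℝ) * 1 ≤ (r0 : ℝ) * r := mul_le_mul_of_nonneg_left hr1 (Nat.cast_nonneg _)
    have h3 : (N : ℝ) ≤ r0 := by
      have : N ≤ r0 := by omega
      exact_mod_cast this
    linarith
  have hK0 : 0 < N * D1 := Nat.mul_pos hN hD1pos
  obtain ⟨mm, hmm⟩ := hAUX r1 (N * D1) (Finset.univ.biUnion L)
  let S : Dat := ⟨r, N * D1, D1, L, mm⟩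
  have hlpr : ∀ i, ∀ q ∈ L i, q.Prime ∧ ¬ q ∣ N * D1 := by
    intro i q hq
    obtain ⟨h1, h2, h3⟩ := hL i q hq
    refine ⟨h1, fun h4 => ?_⟩
    rcases (Nat.Prime.dvd_mul h1).1 h4 with h5 | h5
    · have h6 : (q : ℝ) ≤ N := by exact_mod_cast Nat.le_of_dvd hN h5
      linarith
    · exact h3 h5
  have hOk : S.Ok := by
    refine ⟨hrpos, hK0, ?_, Dvd.intro_left _ rfl, hD1, hlpr, hdis, ?_, ?_⟩
    · exact dvd_mul_of_dvd_left (Dvd.intro _ rfl) _
    · intro K m hK h6 hc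
      exact (hmm K m hK h6 hc).1
    · intro K m j hK h6 hc
      obtain ⟨h1, h2, h3, h4, h5, h7⟩ := (hmm K m hK h6 hc).2 j
      refine ⟨h1, h2, h3, h7 hK0, fun i hi => h4 ?_⟩
      exact Finset.mem_biUnion.2 ⟨i, Finset.mem_univ _, hi⟩
  have hBig : Big S r1 := by
    refine ⟨hOk, le_trans hr1r0 hr, ?_, ?_, ?_, ?_, ?_⟩
    · exact le_trans (Nat.mul_le_mul_right _ hr1r0) hrD
    · have h1 : (N * D1).primeFactors.card ≤ N.primeFactors.card + D1.primeFactors.card := by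
        rw [Nat.primeFactors_mul hN.ne' hD1pos.ne']
        exact Finset.card_union_le _ _
      have h2 : 2 * (r1 * D1.primeFactors.card) ≤ r := by
        have h3 : 2 * r1 * D1.primeFactors.card ≤ r0 * D1.primeFactors.card :=
          Nat.mul_le_mul_right _ h2r1
        calc 2 * (r1 * D1.primeFactors.card) = 2 * r1 * D1.primeFactors.card := by ring
          _ ≤ _ := h3
          _ ≤ r := hrD
      have h4 : 2 * (r1 * N.primeFactors.card) ≤ r := by
        have h5 : 2 * r1 * (N.primeFactors.card + 1) = 2 * (r1 * N.primeFactors.card) + 2 * r1 := by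
          ring
        omega
      have h6 : r1 * (N * D1).primeFactors.card ≤
          r1 * (N.primeFactors.card + D1.primeFactors.card) := Nat.mul_le_mul_left _ h1
      rw [Nat.mul_add] at h6
      change r1 * (N * D1).primeFactors.card ≤ r
      omega
    · intro i q hq
      exact le_trans hexp1 (hL i q hq).2.1
    · intro i
      exact le_trans hexp1 (hcard i)
    · intro K m j hK h6 hc
      exact ((hmm K m hK h6 hc).2 j).2.2.2.2.1
  obtain ⟨X0, hX0⟩ := hB S hBig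
  refine ⟨max (max X0 X1) 1, fun X hX => ?_⟩
  have hXX0 : X0 ≤ X := le_trans (le_trans (le_max_left _ _) (le_max_left _ _)) hX
  have hXX1 : X1 ≤ X := le_trans (le_trans (le_max_right _ _) (le_max_left _ _)) hX
  have hX1 : 1 ≤ X := le_trans (le_max_right _ _) hX
  have hfin := hEQZ.1 X
  have hcardH : ((Hz X).ncard : ℝ) = (hfin.toFinset.card : ℝ) := by
    rw [Set.ncard_eq_toFinset_card _ hfin]
  have hne : hfin.toFinset.Nonempty := by
    rw [← Finset.card_pos, ← Set.ncard_eq_toFinset_card _ hfin]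
    exact hEQZ.2.1 X hX1
  have hpos : ∀ p ∈ Fintype.piFinset L, 0 < D1 * ∏ i, p i := by
    intro p hp
    refine Nat.mul_pos hD1pos (Finset.prod_pos fun i _ => ?_)
    exact (hlpr i (p i) (Fintype.mem_piFinset.1 hp i)).1.pos
  have hmain := hS (Fin r → ℕ) (ℤ × ℤ) (Fintype.piFinset L) hfin.toFinset
    (fun E p => Nat.log 2 (sc E.1 E.2 (D1 * ∏ i, p i))) hne ?_
  · have hcardΩ : ((Fintype.piFinset L).card : ℝ) = ∏ i, ((L i).card : ℝ) := by
      rw [Fintype.card_piFinset]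
      push_cast
      rfl
    rw [← hcardΩ]
    refine le_trans (le_of_eq ?_) hmain
    congr 1
    refine congrArg Finset.card (Finset.filter_congr fun p hp => ?_)
    have hprop : ∀ d : ℕ, prop X (D1 * ∏ i, p i) d =
        ((hfin.toFinset.filter (fun E : ℤ × ℤ =>
          Nat.log 2 (sc E.1 E.2 (D1 * ∏ i, p i)) = d)).card : ℝ) / (hfin.toFinset.card : ℝ) := by
      intro d
      unfold prop
      rw [hcardH]
      congr 2
      rw [← Set.ncard_coe_finset]
      congr 1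
      ext E
      simp only [Finset.coe_filter, Set.Finite.mem_toFinset, Set.mem_ofPred_eq]
      constructor
      · rintro ⟨h1, h2⟩
        obtain ⟨s, hs⟩ := (hGEN.fin E.1 E.2 _ h1.2.2 (hpos p hp)).2.2
        exact ⟨h1, (STRM.log_iff hs).1 h2⟩
      · rintro ⟨h1, h2⟩
        obtain ⟨s, hs⟩ := (hGEN.fin E.1 E.2 _ h1.2.2 (hpos p hp)).2.2
        exact ⟨h1, (STRM.log_iff hs).2 h2⟩
    simp only [hprop]
  · intro f g hf hg
    refine STRM.pair_sum (Fintype.piFinset L) hfin.toFinset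
      (fun E E' p => f (Nat.log 2 (sc E.1 E.2 (D1 * ∏ i, p i))) *
        g (Nat.log 2 (sc E'.1 E'.2 (D1 * ∏ i, p i)))) (Lm f * Lm g) ?_ ?_ δ C hC
      (fun E => Sf (N * D1) E.1 E.2)
      (fun E E' => S.Om.filter (fun p => ¬ (S.Gh n η κ 0 E E' p ∧ S.Gh n η κ n E' E p)))
      ?_ hδ ?_ ?_
    · rw [abs_mul]
      exact mul_le_one₀ (hKPM.lmb f hf) (abs_nonneg _) (hKPM.lmb g hg)
    · intro E E' p
      rw [abs_mul]
      exact mul_le_one₀ (hf _) (abs_nonneg _) (hg _)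
    · intro E hE E' hE' hsf hsf'
      rw [Set.Finite.mem_toFinset] at hE hE'
      have h40 : 40 * n ≤ S.r := by
        change 40 * n ≤ r
        omega
      exact hP S E E' hOk h40 hsf hE.2.2 hsf' hE'.2.2 f g hf hg
    · rw [← hcardH]
      refine le_trans ?_ (hT X hXX1)
      rw [← Set.ncard_coe_finset]
      refine Nat.cast_le.2 (Set.ncard_le_ncard ?_ (hfin.subset (Set.sep_subset _ _)))
      intro E hE
      rw [Finset.coe_filter, Set.mem_ofPred_eq, Set.Finite.mem_toFinset] at hE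
      exact ⟨hE.1, STRM.not_sf hE.2⟩
    · have h := STRM.triples (Hz X) hfin S.Om
        (fun E E' p => ¬ (S.Gh n η κ 0 E E' p ∧ S.Gh n η κ n E' E p))
      rw [← hcardH]
      refine le_trans (le_of_eq ?_) (hX0 X hXX0)
      convert h

end Pool.Agent.Lib.MP_8cb858_nt.PT
end

section
/-!
# Module TGS: the tightness step
-/
namespace Pool.Agent.Lib.MP_8cb858_nt.PT

open Polynomial NumberField IsDedekindDomain Pool.Agent.Lib.MP_8cb858_nt.SEL
open Pool.Agent.Lib.MP_8cb858_nt.PF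
open scoped Classical WithZero

namespace TGSM

open MXSM

variable {S : Dat} {E E' : ℤ × ℤ} {p : Fin S.r → ℕ} {a : Fin S.r}

theorem cls_eq (hp : p ∈ S.Om) (ha : ty (p a) E = 0) :
    S.Om.filter (S.Rt E E' a p) =
      ((S.Ls E' (S.Kx E p) p a).filter (fun q => Y12 q E.1 E.2)).image
        (fun q => Function.update p a q) := by
  ext p'
  rw [Finset.mem_image, Finset.mem_filter]
  constructor
  · rintro ⟨hp', h | ⟨hlt, hj, ht, ht', h2, hcl⟩⟩
    · refine ⟨p a, Finset.mem_filter.mpr ⟨Finset.mem_filter.mpr ⟨mem_L hp a, rfl, rfl⟩,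
        ty_zero.mp ha⟩, ?_⟩
      rw [← h]
      exact Function.update_eq_self a p
    · refine ⟨p' a, Finset.mem_filter.mpr ⟨Finset.mem_filter.mpr ⟨mem_L hp' a, ht'.symm,
        hcl.symm⟩, ty_zero.mp (ht.symm.trans ha)⟩, ?_⟩
      funext j
      by_cases h : j = a
      · subst h
        rw [Function.update_self]
      · rw [Function.update_of_ne h]
        exact hj j h
  · rintro ⟨q, hq, rfl⟩
    obtain ⟨hq1, hq2⟩ := Finset.mem_filter.mp hq
    obtain ⟨hq3, hq4, hq5⟩ := Finset.mem_filter.mp hq1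
    refine ⟨upd_mem hp hq3, Or.inr ⟨a.isLt, fun j hj => (Function.update_of_ne hj _ _).symm,
      ?_, ?_, ?_, ?_⟩⟩
    · show ty (p a) E = ty (Function.update p a q a) E
      rw [Function.update_self, ha, ty_zero.mpr hq2]
    · show ty (p a) E' = ty (Function.update p a q a) E'
      rw [Function.update_self, hq4]
    · show ty (p a) E ≠ 2
      rw [ha]
      norm_num
    · show cl (S.Kx E p) (p a) = cl (S.Kx E p) (Function.update p a q a)
      rw [Function.update_self, hq5]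

/-- The sum over the class. -/
theorem sum_split (Λ : Finset ℕ) (T : ℕ → Prop) (F : ℕ → ℝ) (x y : ℝ)
    (hx : ∀ q ∈ Λ, T q → F q = x) (hy : ∀ q ∈ Λ, ¬ T q → F q = y) :
    ∑ q ∈ Λ, F q = ((Λ.filter T).card : ℝ) * x +
      ((Λ.card : ℝ) - ((Λ.filter T).card : ℝ)) * y := by
  rw [← Finset.sum_filter_add_sum_filter_not Λ T]
  have g1 : ∑ q ∈ Λ.filter T, F q = ((Λ.filter T).card : ℝ) * x := by
    rw [Finset.sum_congr rfl (g := fun _ => x), Finset.sum_const, nsmul_eq_mul]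
    intro q hq
    rw [Finset.mem_filter] at hq
    exact hx q hq.1 hq.2
  have g2 : ∑ q ∈ Λ.filter (fun q => ¬ T q), F q =
      ((Λ.filter (fun q => ¬ T q)).card : ℝ) * y := by
    rw [Finset.sum_congr rfl (g := fun _ => y), Finset.sum_const, nsmul_eq_mul]
    intro q hq
    rw [Finset.mem_filter] at hq
    exact hy q hq.1 hq.2
  have g3 : (Λ.card : ℝ) = ((Λ.filter T).card : ℝ) +
      ((Λ.filter (fun q => ¬ T q)).card : ℝ) := by
    have := Finset.card_filter_add_card_filter_not (s := Λ) T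
    exact_mod_cast this.symm
  rw [g1, g2, g3]
  ring

end TGSM

open MXSM TGSM in
theorem specTGS (hIVT : SpecIVT) (hNST : SpecNST) (hCNT : SpecCNT) (hGEN : SpecGEN) :
    SpecTGS := by
  intro S η κ E E' p a U hS hp hη0 hη1 hκ hSf hdz hbad hUx haUx haU hN hN0 hAok
  have hta : ty (p a) E = 0 := (Finset.mem_filter.mp haUx).2
  have haJ : a ∉ S.Jx E p := by
    intro h
    have := (Finset.mem_filter.mp h).2
    omega
  -- the Selmer group at `U`
  have hDpos := dx_pos hS hp E U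
  obtain ⟨-, -, s, hs⟩ := hGEN.fin E.1 E.2 (S.Dx E p U) hdz hDpos
  have hsx : S.sx E p U = s := by
    unfold Dat.sx
    rw [hs, Nat.log_pow (by norm_num)]
  have hAokU : S.Aok E p U := hN.aux
  have hΛ : ∀ q ∈ S.Ls E' (S.Kx E p) p a, q ∈ S.L a ∧ ty q E' = ty (p a) E' ∧
      cl (S.Kx E p) q = cl (S.Kx E p) (p a) := fun q hq => Finset.mem_filter.mp hq
  have hA : ∀ q ∈ S.Ls E' (S.Kx E p) p a, Y12 q E.1 E.2 →
      ((∀ z : Sl E.1 E.2 (S.Dx E p U), Tz q z) →
        S.sx E (Function.update p a q) (insert a U) = s + 1) ∧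
      (¬ (∀ z : Sl E.1 E.2 (S.Dx E p U), Tz q z) →
        (2 : ℝ) ^ S.sx E (Function.update p a q) (insert a U) = 2 ^ s / 2) := by
    intro q hq h12
    obtain ⟨hqL, hqt, hqc⟩ := hΛ q hq
    have hty : ty q E = 0 := ty_zero.mpr h12
    obtain ⟨i1, i2, i3, i4, i5⟩ := hIVT S E p (Function.update p a q) a hS hp (upd_mem hp hqL)
      (fun j hj => (Function.update_of_ne hj _ _).symm) (by omega)
      (by rw [Function.update_self]; omega)
      (by
        rw [Function.update_self]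
        exact hqc.symm)
    have hUsub : U ⊆ S.Ux E (Function.update p a q) := by
      intro j hj
      refine Finset.mem_filter.mpr ⟨Finset.mem_univ j, ?_⟩
      rw [Function.update_of_ne (by rintro rfl; exact haU hj)]
      exact (Finset.mem_filter.mp (hUx hj)).2
    have haUx' : a ∈ S.Ux E (Function.update p a q) := by
      refine Finset.mem_filter.mpr ⟨Finset.mem_univ a, ?_⟩
      rw [Function.update_self]
      exact hty
    have hLs : S.Ls E' (S.Kx E p) (Function.update p a q) a = S.Ls E' (S.Kx E p) p a := by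
      unfold Dat.Ls
      rw [Function.update_self, hqt, hqc]
    have hprod : ∏ j ∈ S.Jx E p ∪ ∅, Function.update p a q j = ∏ j ∈ S.Jx E p ∪ ∅, p j := by
      refine Finset.prod_congr rfl fun j hj => ?_
      rw [Finset.union_empty] at hj
      exact Function.update_of_ne (by rintro rfl; exact haJ hj) _ _
    have hNd : S.Nd η κ E E' (Function.update p a q) (S.Kx E p) a ∅ := by
      unfold Dat.Nd
      rw [← i1, ← (i3 ∅).1, hLs, hprod]
      exact hN0
    have hst := (hNST S η κ E E' (Function.update p a q) (S.Kx E p) a hS (upd_mem hp hqL) hη0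
      hη1 hκ hSf hdz (by
        intro j
        by_cases hj : j = a
        · subst hj
          rw [Function.update_self, hty]
          norm_num
        · rw [Function.update_of_ne hj]
          exact hbad j) (by rw [← i1]; exact haJ) hNd).1 U a hUsub haUx' haU
        ((i3 U).2.mp hAokU) ((i3 (insert a U)).2.mp hAok)
    rw [← (i4 U haU).1, Function.update_self, hs] at hst
    unfold Dat.sx
    refine ⟨fun hz => ?_, fun hz => ?_⟩
    · rw [hst.1 hz, ← pow_succ', Nat.log_pow (by norm_num)]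
    · have h3 := hst.2 hz
      cases s with
      | zero => rw [pow_zero] at h3; omega
      | succ s =>
        have h4 : sc E.1 E.2 (S.Dx E (Function.update p a q) (insert a U)) = 2 ^ s := by
          rw [pow_succ] at h3
          omega
        rw [h4, Nat.log_pow (by norm_num), pow_succ]
        ring
  -- the sum
  have hcls := cls_eq (E := E) (E' := E') hp hta
  rw [hcls, Finset.sum_image (fun x _ y _ h => upd_inj h),
    Finset.card_image_of_injective _ upd_inj]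
  have k1 := TGSM.sum_split ((S.Ls E' (S.Kx E p) p a).filter (fun q => Y12 q E.1 E.2))
    (fun q => ∀ z : Sl E.1 E.2 (S.Dx E p U), Tz q z)
    (fun q => (2 : ℝ) ^ S.sx E (Function.update p a q) (insert a U)) (2 ^ (s + 1)) (2 ^ s / 2)
    (fun q hq hT => by
      show (2 : ℝ) ^ _ = _
      rw [(hA q (Finset.mem_filter.mp hq).1 (Finset.mem_filter.mp hq).2).1 hT])
    (fun q hq hT => (hA q (Finset.mem_filter.mp hq).1 (Finset.mem_filter.mp hq).2).2 hT)
  have hcnt := hCNT η κ (S.r ^ 2) (S.D1 * ∏ j ∈ S.Jx E p ∪ U, p j) (S.Mx E p U)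
    (S.Ls E' (S.Kx E p) p a) E s hη0 hN hdz hDpos
    (fun q hq => ⟨(hS.lpr a q (hΛ q hq).1).1, five_le hS (hΛ q hq).1,
      not_dvd_dx hS hp E U haJ haU (hΛ q hq).1⟩) hs
  rw [k1, hsx, Finset.filter_filter]
  have hc := (abs_le.mp hcnt).2
  obtain ⟨c, hcdef⟩ : ∃ c : ℝ, c = (((S.Ls E' (S.Kx E p) p a).filter (fun q => Y12 q E.1 E.2 ∧
    ∀ z : Sl E.1 E.2 (S.Dx E p U), Tz q z)).card : ℝ) := ⟨_, rfl⟩
  obtain ⟨N, hNdef⟩ : ∃ N : ℝ, N =
    (((S.Ls E' (S.Kx E p) p a).filter (fun q => Y12 q E.1 E.2)).card : ℝ) := ⟨_, rfl⟩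
  have hc' : c - (1 / 2) ^ s * N ≤ 2 * η * N := by
    rw [hcdef, hNdef]
    exact hc
  have hgoal : c * 2 ^ (s + 1) + (N - c) * (2 ^ s / 2) ≤
      ((1 / 2 + 3 * η) * 2 ^ s + 3 / 2) * N := by
    have h1 : (0 : ℝ) < 2 ^ s := by positivity
    have h2 : (2 : ℝ) ^ s * (1 / 2) ^ s = 1 := by
      rw [← mul_pow]
      norm_num
    have h3 := mul_le_mul_of_nonneg_left hc' h1.le
    rw [pow_succ]
    have h4 : (2 : ℝ) ^ s * (c - (1 / 2) ^ s * N) = 2 ^ s * c - N := by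
      calc (2 : ℝ) ^ s * (c - (1 / 2) ^ s * N) = 2 ^ s * c - (2 ^ s * (1 / 2) ^ s) * N := by ring
        _ = 2 ^ s * c - N := by rw [h2, one_mul]
    rw [h4] at h3
    nlinarith [h3]
  rw [hcdef, hNdef] at hgoal
  exact hgoal

end Pool.Agent.Lib.MP_8cb858_nt.PT
end

section
/-!
# TYP: typical numbers of types
-/
namespace Pool.Agent.Lib.MP_8cb858_nt.PT

open Polynomial NumberField IsDedekindDomain Pool.Agent.Lib.MP_8cb858_nt.SEL
open Pool.Agent.Lib.MP_8cb858_nt.PF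
open scoped Classical WithZero

namespace TYPM

lemma excl (hTYZ : SpecTYZ) {q : ℕ} (hq : q.Prime) (h5 : 5 ≤ q) (a b : ℤ) (h3 : Y3 q a b) :
    ¬ Y12 q a b := by
  intro h
  apply h
  have := ((hTYZ q hq h5).2.2.2 ((a : ZMod q), (b : ZMod q)) h3).1
  have e : ((-dz a b : ℤ) : ZMod q) = -(4 * (a : ZMod q) ^ 3 + 27 * (b : ZMod q) ^ 2) := by
    unfold dz
    push_cast
    ring
  rw [e]
  exact this

lemma ty0 {q : ℕ} {E : ℤ × ℤ} : ty q E = 0 ↔ Y12 q E.1 E.2 := by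
  unfold ty
  by_cases h1 : Y12 q E.1 E.2
  · simp [h1]
  · rw [if_neg h1]
    by_cases h2 : Y3 q E.1 E.2
    · simp [h1, h2]
    · rw [if_neg h2]
      by_cases h3 : (q : ℤ) ∣ dz E.1 E.2
      · simp [h1, h3]
      · simp [h1, h3]

lemma ty2 {q : ℕ} {E : ℤ × ℤ} (h : ty q E = 2) : ¬ Y12 q E.1 E.2 ∧ ¬ Y3 q E.1 E.2 := by
  unfold ty at h
  by_cases h1 : Y12 q E.1 E.2
  · simp [h1] at h
  · rw [if_neg h1] at h
    by_cases h2 : Y3 q E.1 E.2
    · simp [h2] at h
    · exact ⟨h1, h2⟩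

lemma ge5 {S : Dat} {r0 : ℕ} (hB : Big S r0) (h2 : 2 ≤ r0) (i : Fin S.r) {q : ℕ} (hq : q ∈ S.L i) :
    5 ≤ q := by
  have h := hB.pr i q hq
  have h1 : ((r0 : ℝ) * S.r) + 1 ≤ Real.exp (r0 * S.r) := Real.add_one_le_exp _
  have h3 : (4 : ℝ) ≤ (r0 : ℝ) * S.r := by
    have ha : (2 : ℝ) ≤ r0 := by exact_mod_cast h2
    have hb : (2 : ℝ) ≤ S.r := by exact_mod_cast h2.trans hB.r
    nlinarith
  have h4 : (5 : ℝ) ≤ (q : ℝ) := by linarith
  exact_mod_cast h4

lemma cheb {r N A : ℝ} (hr : 0 < r) (c : ℝ) (hc : 0 < c)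
    (h : A * (r / c) ^ 2 ≤ r / 4 * N) : A ≤ c ^ 2 / 4 / r * N := by
  have h1 : A * (r / c) ^ 2 * (c ^ 2 / r ^ 2) ≤ r / 4 * N * (c ^ 2 / r ^ 2) :=
    mul_le_mul_of_nonneg_right h (by positivity)
  have e1 : A * (r / c) ^ 2 * (c ^ 2 / r ^ 2) = A := by field_simp
  have e2 : r / 4 * N * (c ^ 2 / r ^ 2) = c ^ 2 / 4 / r * N := by field_simp
  rw [e1, e2] at h1
  exact h1

lemma mean_ge {κ : ℝ} {L : Finset ℕ} {E : ℤ × ℤ} (hL : (0 : ℝ) < L.card) (h : Tok κ L E) :
    1 / 2 - κ ≤ ((L.filter (fun q => ty q E = 0)).card : ℝ) / (L.card : ℝ) := by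
  rw [le_div_iff₀ hL]
  have e : L.filter (fun q => ty q E = 0) = L.filter (fun q => Y12 q E.1 E.2) := by
    refine Finset.filter_congr (fun q _ => ?_)
    exact ty0
  rw [e]
  have := (abs_le.1 h.t12).1
  linarith

lemma mean_le (hTYZ : SpecTYZ) {κ : ℝ} {L : Finset ℕ} {E : ℤ × ℤ} (hL : (0 : ℝ) < L.card)
    (hp : ∀ q ∈ L, q.Prime ∧ 5 ≤ q) (h : Tok κ L E) :
    ((L.filter (fun q => ty q E = 2)).card : ℝ) / (L.card : ℝ) ≤ 1 / 6 + 2 * κ := by
  rw [div_le_iff₀ hL]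
  have d1 : Disjoint (L.filter (fun q => Y12 q E.1 E.2)) (L.filter (fun q => Y3 q E.1 E.2)) := by
    rw [Finset.disjoint_left]
    intro q h1 h2
    rw [Finset.mem_filter] at h1 h2
    exact excl hTYZ (hp q h1.1).1 (hp q h1.1).2 _ _ h2.2 h1.2
  have d2 : Disjoint (L.filter (fun q => ty q E = 2))
      (L.filter (fun q => Y12 q E.1 E.2) ∪ L.filter (fun q => Y3 q E.1 E.2)) := by
    rw [Finset.disjoint_left]
    intro q h1 h2
    rw [Finset.mem_union, Finset.mem_filter, Finset.mem_filter] at h2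
    rw [Finset.mem_filter] at h1
    obtain ⟨h3, h4⟩ := ty2 h1.2
    rcases h2 with h2 | h2
    · exact h3 h2.2
    · exact h4 h2.2
  have hc : (L.filter (fun q => ty q E = 2)).card + ((L.filter (fun q => Y12 q E.1 E.2)).card +
      (L.filter (fun q => Y3 q E.1 E.2)).card) ≤ L.card := by
    rw [← Finset.card_union_of_disjoint d1, ← Finset.card_union_of_disjoint d2]
    refine Finset.card_le_card ?_
    intro q hq
    rw [Finset.mem_union, Finset.mem_union, Finset.mem_filter, Finset.mem_filter,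
      Finset.mem_filter] at hq
    rcases hq with hq | hq | hq
    · exact hq.1
    · exact hq.1
    · exact hq.1
  have hc' : ((L.filter (fun q => ty q E = 2)).card : ℝ) +
      (((L.filter (fun q => Y12 q E.1 E.2)).card : ℝ) +
      ((L.filter (fun q => Y3 q E.1 E.2)).card : ℝ)) ≤ (L.card : ℝ) := by
    exact_mod_cast hc
  have h1 := (abs_le.1 h.t12).1
  have h2 := (abs_le.1 h.t3).1
  linarith

end TYPM

theorem specTYP (hCHB : SpecCHB) (hTYZ : SpecTYZ) : SpecTYP := by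
  intro ε hε
  refine ⟨⌈252500 / ε⌉₊ + 2, ?_⟩
  intro S κ E hB hκ hκ1 hT
  have hr2 : 2 ≤ S.r := le_trans (by omega) hB.r
  have hr : (0 : ℝ) < S.r := by
    have : 0 < S.r := by omega
    exact_mod_cast this
  have hrε : 252500 / (S.r : ℝ) ≤ ε := by
    have h1 : 252500 / ε ≤ (S.r : ℝ) := by
      refine (Nat.le_ceil _).trans ?_
      have : ⌈252500 / ε⌉₊ ≤ S.r := le_trans (by omega) hB.r
      exact_mod_cast this
    rw [div_le_iff₀ hr]
    rw [div_le_iff₀ hε] at h1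
    linarith
  have hLc : ∀ i, (0 : ℝ) < (S.L i).card := fun i => (Real.exp_pos _).trans_le (hB.card i)
  have hLp : ∀ i, ∀ q ∈ S.L i, q.Prime ∧ 5 ≤ q := fun i q hq =>
    ⟨(hB.ok.lpr i q hq).1, TYPM.ge5 hB (by omega) i hq⟩
  -- the two exceptional sets
  have hA := hCHB S.r S.L (fun _ q => ty q E = 0) (S.r / 100) (by positivity)
  have hC := hCHB S.r S.L (fun _ q => ty q E = 2) (S.r / 1000) (by positivity)
  have hA' := TYPM.cheb hr 100 (by norm_num) hA
  have hC' := TYPM.cheb hr 1000 (by norm_num) hC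
  have hsub : S.Om.filter (fun p => ¬ (48 * S.r ≤ 100 * (S.Ux E p).card ∧
      100 * (S.Jx E p).card ≤ 17 * S.r)) ⊆
      (Fintype.piFinset S.L).filter (fun p =>
        (S.r : ℝ) / 100 ≤ |((Finset.univ.filter (fun i => ty (p i) E = 0)).card : ℝ) -
        ∑ i, (((S.L i).filter (fun q => ty q E = 0)).card : ℝ) / ((S.L i).card : ℝ)|) ∪
      (Fintype.piFinset S.L).filter (fun p =>
        (S.r : ℝ) / 1000 ≤ |((Finset.univ.filter (fun i => ty (p i) E = 2)).card : ℝ) -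
        ∑ i, (((S.L i).filter (fun q => ty q E = 2)).card : ℝ) / ((S.L i).card : ℝ)|) := by
    intro p hp
    rw [Finset.mem_filter] at hp
    rw [Finset.mem_union, Finset.mem_filter, Finset.mem_filter]
    by_contra hcon
    rw [not_or] at hcon
    obtain ⟨h1, h2⟩ := hcon
    have h1' : |((Finset.univ.filter (fun i => ty (p i) E = 0)).card : ℝ) -
        ∑ i, (((S.L i).filter (fun q => ty q E = 0)).card : ℝ) / ((S.L i).card : ℝ)| <
        (S.r : ℝ) / 100 := by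
      rw [not_and, not_le] at h1
      exact h1 hp.1
    have h2' : |((Finset.univ.filter (fun i => ty (p i) E = 2)).card : ℝ) -
        ∑ i, (((S.L i).filter (fun q => ty q E = 2)).card : ℝ) / ((S.L i).card : ℝ)| <
        (S.r : ℝ) / 1000 := by
      rw [not_and, not_le] at h2
      exact h2 hp.1
    have s1 : (S.r : ℝ) * (1 / 2 - κ) ≤
        ∑ i, (((S.L i).filter (fun q => ty q E = 0)).card : ℝ) / ((S.L i).card : ℝ) := by
      have : ∑ _i : Fin S.r, (1 / 2 - κ) ≤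
          ∑ i, (((S.L i).filter (fun q => ty q E = 0)).card : ℝ) / ((S.L i).card : ℝ) :=
        Finset.sum_le_sum (fun i _ => TYPM.mean_ge (hLc i) (hT i))
      rw [Finset.sum_const, nsmul_eq_mul, Finset.card_univ, Fintype.card_fin] at this
      exact this
    have s2 : ∑ i, (((S.L i).filter (fun q => ty q E = 2)).card : ℝ) / ((S.L i).card : ℝ) ≤
        (S.r : ℝ) * (1 / 6 + 2 * κ) := by
      have : ∑ i, (((S.L i).filter (fun q => ty q E = 2)).card : ℝ) / ((S.L i).card : ℝ) ≤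
          ∑ _i : Fin S.r, (1 / 6 + 2 * κ) :=
        Finset.sum_le_sum (fun i _ => TYPM.mean_le hTYZ (hLc i) (hLp i) (hT i))
      rw [Finset.sum_const, nsmul_eq_mul, Finset.card_univ, Fintype.card_fin] at this
      exact this
    have b1 := (abs_lt.1 h1').1
    have b2 := (abs_lt.1 h2').2
    have k1 : (S.r : ℝ) * κ ≤ S.r * (1 / 1000) := mul_le_mul_of_nonneg_left hκ1 hr.le
    apply hp.2
    constructor
    · have : (48 : ℝ) * S.r ≤ 100 * ((S.Ux E p).card : ℝ) := by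
        unfold Dat.Ux
        nlinarith
      exact_mod_cast this
    · have : (100 : ℝ) * ((S.Jx E p).card : ℝ) ≤ 17 * S.r := by
        unfold Dat.Jx
        nlinarith
      exact_mod_cast this
  have hcard := (Finset.card_le_card hsub).trans (Finset.card_union_le _ _)
  have hcard' := (Nat.cast_le (α := ℝ)).2 hcard
  rw [Nat.cast_add] at hcard'
  refine hcard'.trans (le_trans (add_le_add (le_trans (le_of_eq ?_) hA')
    (le_trans (le_of_eq ?_) hC')) ?_)
  · congr!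
  · congr!
  have hOm : (0 : ℝ) ≤ (S.Om.card : ℝ) := Nat.cast_nonneg _
  have e : (100 : ℝ) ^ 2 / 4 / S.r * ((Fintype.piFinset S.L).card : ℝ) +
      (1000 : ℝ) ^ 2 / 4 / S.r * ((Fintype.piFinset S.L).card : ℝ) =
      252500 / (S.r : ℝ) * (S.Om.card : ℝ) := by
    unfold Dat.Om
    ring
  rw [e]
  exact mul_le_mul_of_nonneg_right hrε hOm

end Pool.Agent.Lib.MP_8cb858_nt.PT
end
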