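import Pool.Agent.Lib.MP_8cb858_nt.PT.TDB

/-!
# The exceptional sets
-/

namespace Pool.Agent.Lib.MP_8cb858_nt.PT.TDM

open Finset

variable {δ : ℝ} {w Y : ℕ}

/-- squares of large primes -/
lemma exc_sq (hw : 0 < w) (Y : ℕ) [DecidablePred fun D : ℕ => ∃ p : ℕ, p.Prime ∧ w < p ∧ p ^ 2 ∣ D] :
    (((Icc 1 Y).filter (fun D => ∃ p : ℕ, p.Prime ∧ w < p ∧ p ^ 2 ∣ D)).card : ℝ) ≤
      Y * (1 / (w : ℝ)) := by
  have h1 := card_exists_le (Ioc w Y) Y (fun p => p ^ 2)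
    (fun D => ∃ p : ℕ, p.Prime ∧ w < p ∧ p ^ 2 ∣ D) (by
      rintro D hD ⟨p, hp, hwp, hd⟩
      rw [mem_Icc] at hD
      have h2 : p ^ 2 ≤ D := Nat.le_of_dvd (by omega) hd
      have h3 : p ≤ p ^ 2 := Nat.le_self_pow (by norm_num) p
      exact ⟨p, mem_Ioc.2 ⟨hwp, by omega⟩, hd⟩)
  refine h1.trans (mul_le_mul_of_nonneg_left ?_ (Nat.cast_nonneg _))
  rcases le_total w Y with h | h
  · have h2 := sum_Ioc_inv_sq_le_sub (α := ℝ) hw.ne' h
    have h3 : ∑ i ∈ Ioc w Y, 1 / ((i ^ 2 : ℕ) : ℝ) = ∑ i ∈ Ioc w Y, ((i : ℝ) ^ 2)⁻¹ := by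
      refine Finset.sum_congr rfl fun i _ => ?_
      push_cast; rw [one_div]
    rw [h3]
    refine h2.trans ?_
    rw [one_div]
    have : (0 : ℝ) ≤ (Y : ℝ)⁻¹ := by positivity
    linarith
  · rw [Ioc_eq_empty_of_le h, Finset.sum_empty]; positivity

/-- the sum over a window -/
lemma window_sum (hδ : 0 < δ) (hw : 0 < w) (j : ℕ) :
    ∑ q ∈ JJ δ w Y j, 1 / (q : ℝ) ≤ δ + 1 / (w : ℝ) := by
  have hw' : (0 : ℝ) < w := by exact_mod_cast hw
  rcases (JJ δ w Y j).eq_empty_or_nonempty with he | hne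
  · rw [he, Finset.sum_empty]; positivity
  · set p0 := (JJ δ w Y j).min' hne with hp0
    have hm := mem_JJ.1 ((JJ δ w Y j).min'_mem hne)
    rw [← hp0] at hm
    have hp0' : (0 : ℝ) < p0 := by exact_mod_cast hm.2.1.pos
    have h1 : JJ δ w Y j ⊆ Icc p0 ⌊(1 + δ) * (p0 : ℝ)⌋₊ := by
      intro q hq
      rw [mem_Icc]
      refine ⟨Finset.min'_le _ _ hq, Nat.le_floor ?_⟩
      have hq' := mem_JJ.1 hq
      exact win_le hδ hm.2.1.pos hq'.2.1.pos (hm.2.2.2.trans hq'.2.2.2.symm)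
    have h2 : ((JJ δ w Y j).card : ℝ) ≤ δ * p0 + 1 := by
      have h3 := card_le_card h1
      rw [Nat.card_Icc] at h3
      have h4 : (⌊(1 + δ) * (p0 : ℝ)⌋₊ : ℝ) ≤ (1 + δ) * p0 := Nat.floor_le (by positivity)
      have h5 : p0 ≤ ⌊(1 + δ) * (p0 : ℝ)⌋₊ + 1 := by
        have : p0 ≤ ⌊(1 + δ) * (p0 : ℝ)⌋₊ := Nat.le_floor (by nlinarith)
        omega
      have h6 : ((JJ δ w Y j).card : ℝ) ≤ ((⌊(1 + δ) * (p0 : ℝ)⌋₊ + 1 - p0 : ℕ) : ℝ) := by
        exact_mod_cast h3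
      rw [Nat.cast_sub h5] at h6
      push_cast at h6
      linarith
    calc ∑ q ∈ JJ δ w Y j, 1 / (q : ℝ) ≤ ∑ q ∈ JJ δ w Y j, 1 / (p0 : ℝ) := by
          refine Finset.sum_le_sum fun q hq => one_div_le_one_div_of_le hp0' ?_
          exact_mod_cast Finset.min'_le _ _ hq
      _ = ((JJ δ w Y j).card : ℝ) * (1 / (p0 : ℝ)) := by rw [Finset.sum_const, nsmul_eq_mul]
      _ ≤ (δ * p0 + 1) * (1 / (p0 : ℝ)) := mul_le_mul_of_nonneg_right h2 (by positivity)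
      _ = δ + 1 / (p0 : ℝ) := by field_simp
      _ ≤ δ + 1 / (w : ℝ) := by
          have : 1 / (p0 : ℝ) ≤ 1 / (w : ℝ) :=
            one_div_le_one_div_of_le hw' (by exact_mod_cast hm.2.2.1.le)
          linarith

/-- two large primes in one window -/
lemma exc_win (hδ : 0 < δ) (hw : 0 < w) (Y : ℕ)
    [DecidablePred fun D : ℕ => ¬ Set.InjOn (win δ) (LA w D : Set ℕ)] :
    (((Icc 1 Y).filter (fun D => ¬ Set.InjOn (win δ) (LA w D : Set ℕ))).card : ℝ) ≤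
      Y * (PS Y * (δ + 1 / (w : ℝ))) := by
  classical
  set s : Finset (Σ _ : ℕ, ℕ) := ((Icc 1 Y).filter Nat.Prime).sigma
    (fun p => (JJ δ w Y (win δ p)).erase p) with hs
  have h1 := card_exists_le s Y (fun x => x.1 * x.2)
    (fun D => ¬ Set.InjOn (win δ) (LA w D : Set ℕ)) (by
      intro D hD hn
      rw [mem_Icc] at hD
      unfold Set.InjOn at hn
      push Not at hn
      obtain ⟨p, hp, q, hq, he, hne⟩ := hn
      have hp' := mem_LA.1 (mem_coe.1 hp)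
      have hq' := mem_LA.1 (mem_coe.1 hq)
      refine ⟨⟨p, q⟩, ?_, ?_⟩
      · rw [hs, mem_sigma, mem_filter, mem_Icc, mem_erase]
        refine ⟨⟨⟨hp'.1.one_lt.le, (Nat.le_of_dvd (by omega) hp'.2.1).trans hD.2⟩, hp'.1⟩,
          Ne.symm hne, ?_⟩
        exact mem_JJ.2 ⟨(Nat.le_of_dvd (by omega) hq'.2.1).trans hD.2, hq'.1, hq'.2.2.2, he.symm⟩
      · exact Nat.Coprime.mul_dvd_of_dvd_of_dvd
          ((Nat.coprime_primes hp'.1 hq'.1).2 hne) hp'.2.1 hq'.2.1)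
  refine h1.trans (mul_le_mul_of_nonneg_left ?_ (Nat.cast_nonneg _))
  rw [hs, Finset.sum_sigma, PS, Finset.sum_mul]
  refine Finset.sum_le_sum fun p hp => ?_
  have h2 : ∑ q ∈ (JJ δ w Y (win δ p)).erase p, 1 / ((p * q : ℕ) : ℝ) =
      1 / (p : ℝ) * ∑ q ∈ (JJ δ w Y (win δ p)).erase p, 1 / (q : ℝ) := by
    rw [Finset.mul_sum]
    refine Finset.sum_congr rfl fun q _ => ?_
    push_cast
    rw [one_div_mul_one_div]
  simp only
  rw [h2]
  refine mul_le_mul_of_nonneg_left ?_ (by positivity)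
  refine le_trans ?_ (window_sum (Y := Y) hδ hw (win δ p))
  exact Finset.sum_le_sum_of_subset_of_nonneg (erase_subset _ _) fun i _ _ => by positivity

lemma win_mono (hδ : 0 < δ) {p q : ℕ} (hp : 0 < p) (h : p ≤ q) : win δ p ≤ win δ q := by
  unfold win
  refine Nat.floor_mono (div_le_div_of_nonneg_right ?_ (Real.log_pos (by linarith)).le)
  exact Real.log_le_log (by exact_mod_cast hp) (by exact_mod_cast h)

/-- poor windows -/
lemma exc_poor (hδ : 0 < δ) (hw : 0 < w) (Y : ℕ) {E : ℝ} (hE : 0 ≤ E)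
    [DecidablePred fun D : ℕ => ∃ p ∈ LA w D, ((JJ δ w Y (win δ p)).card : ℝ) < E] :
    (((Icc 1 Y).filter (fun D => ∃ p ∈ LA w D, ((JJ δ w Y (win δ p)).card : ℝ) < E)).card : ℝ) ≤
      Y * (((win δ Y : ℝ) + 1) * E / (w : ℝ)) := by
  classical
  have hw' : (0 : ℝ) < w := by exact_mod_cast hw
  set s : Finset ℕ := (Icc 1 Y).filter
    (fun p => p.Prime ∧ w < p ∧ ((JJ δ w Y (win δ p)).card : ℝ) < E) with hs
  have h1 := card_exists_le s Y (fun x => x)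
    (fun D => ∃ p ∈ LA w D, ((JJ δ w Y (win δ p)).card : ℝ) < E) (by
      rintro D hD ⟨p, hp, hc⟩
      rw [mem_Icc] at hD
      have hp' := mem_LA.1 hp
      refine ⟨p, ?_, hp'.2.1⟩
      rw [hs, mem_filter, mem_Icc]
      exact ⟨⟨hp'.1.one_lt.le, (Nat.le_of_dvd (by omega) hp'.2.1).trans hD.2⟩, hp'.1, hp'.2.2.2,
        hc⟩)
  refine h1.trans (mul_le_mul_of_nonneg_left ?_ (Nat.cast_nonneg _))
  have h2 : (s.card : ℝ) ≤ ((win δ Y : ℝ) + 1) * E := by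
    have h3 : ∀ p ∈ s, win δ p ∈ range (win δ Y + 1) := by
      intro p hp
      rw [hs, mem_filter, mem_Icc] at hp
      rw [mem_range]
      exact Nat.lt_succ_of_le (win_mono hδ hp.1.1 hp.1.2)
    rw [Finset.card_eq_sum_card_fiberwise h3]
    push_cast
    calc ∑ j ∈ range (win δ Y + 1), ((s.filter (fun p => win δ p = j)).card : ℝ)
        ≤ ∑ j ∈ range (win δ Y + 1), E := by
          refine Finset.sum_le_sum fun j _ => ?_
          rcases (s.filter (fun p => win δ p = j)).eq_empty_or_nonempty with he | ⟨p, hp⟩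
          · rw [he]; simpa using hE
          · rw [mem_filter, hs, mem_filter] at hp
            have h4 : s.filter (fun p => win δ p = j) ⊆ JJ δ w Y j := by
              intro q hq
              rw [mem_filter, hs, mem_filter, mem_Icc] at hq
              exact mem_JJ.2 ⟨hq.1.1.2, hq.1.2.1, hq.1.2.2.1, hq.2⟩
            have h5 : ((s.filter (fun p => win δ p = j)).card : ℝ) ≤ ((JJ δ w Y j).card : ℝ) := by
              exact_mod_cast card_le_card h4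
            have h6 := hp.1.2.2.2
            rw [hp.2] at h6
            linarith
      _ = _ := by rw [Finset.sum_const, nsmul_eq_mul, card_range]; push_cast; ring
  calc ∑ p ∈ s, 1 / (p : ℝ) ≤ ∑ p ∈ s, 1 / (w : ℝ) := by
        refine Finset.sum_le_sum fun p hp => one_div_le_one_div_of_le hw' ?_
        rw [hs, mem_filter] at hp
        exact_mod_cast hp.2.2.1.le
    _ = (s.card : ℝ) * (1 / (w : ℝ)) := by rw [Finset.sum_const, nsmul_eq_mul]
    _ ≤ ((win δ Y : ℝ) + 1) * E * (1 / (w : ℝ)) := mul_le_mul_of_nonneg_right h2 (by positivity)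
    _ = _ := by rw [mul_one_div]

/-- numbers close to `Y` -/
lemma exc_top (hδ : 0 < δ) (hδ1 : δ ≤ 1) (Y M : ℕ)
    [DecidablePred fun D : ℕ => (Y : ℝ) < (D : ℝ) * (1 + δ) ^ M] :
    (((Icc 1 Y).filter (fun D : ℕ => (Y : ℝ) < (D : ℝ) * (1 + δ) ^ M)).card : ℝ) ≤
      Y * (M * δ) + 1 := by
  have hY0 : (0 : ℝ) ≤ Y := Nat.cast_nonneg _
  have hB : 1 - (M : ℝ) * δ ≤ ((1 + δ) ^ M)⁻¹ := by
    have h1 : 1 + (M : ℝ) * (-δ) ≤ (1 + (-δ)) ^ M := one_add_mul_le_pow (by linarith) M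
    have h2 : (1 + (-δ)) ^ M ≤ ((1 + δ) ^ M)⁻¹ := by
      rw [← inv_pow]
      refine pow_le_pow_left₀ (by linarith) ?_ M
      rw [← one_div, le_div_iff₀ (by linarith : (0 : ℝ) < 1 + δ)]
      nlinarith
    linarith
  have hpos : (0 : ℝ) < (1 + δ) ^ M := by positivity
  set a : ℕ := ⌈(Y : ℝ) - Y * (M * δ)⌉₊ with ha
  have h1 : (Icc 1 Y).filter (fun D : ℕ => (Y : ℝ) < (D : ℝ) * (1 + δ) ^ M) ⊆ Icc a Y := by
    intro D hD
    rw [mem_filter, mem_Icc] at hD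
    rw [mem_Icc]
    refine ⟨?_, hD.1.2⟩
    rw [ha, Nat.ceil_le]
    have h2 : (Y : ℝ) * ((1 + δ) ^ M)⁻¹ ≤ D := by
      rw [← div_eq_mul_inv, div_le_iff₀ hpos]
      exact hD.2.le
    have h3 : (Y : ℝ) * (1 - M * δ) ≤ Y * ((1 + δ) ^ M)⁻¹ := mul_le_mul_of_nonneg_left hB hY0
    linarith
  have h2 : a ≤ Y := by
    rw [ha, Nat.ceil_le]
    have : (0 : ℝ) ≤ Y * (M * δ) := by positivity
    linarith
  have h3 : (((Icc 1 Y).filter (fun D : ℕ => (Y : ℝ) < (D : ℝ) * (1 + δ) ^ M)).card : ℝ) ≤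
      ((Y + 1 - a : ℕ) : ℝ) := by
    have := card_le_card h1
    rw [Nat.card_Icc] at this
    exact_mod_cast this
  rw [Nat.cast_sub (by omega)] at h3
  push_cast at h3
  have h4 : (Y : ℝ) - Y * (M * δ) ≤ a := Nat.le_ceil _
  linarith

end Pool.Agent.Lib.MP_8cb858_nt.PT.TDM
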