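import Pool.Agent.Lib.MP_8cb858_nt.PT.SpecA
import Pool.Agent.Lib.MP_8cb858_nt.PR.MK
import Pool.Agent.Lib.MP_8cb858_nt.PR.LAW
import Pool.Agent.Lib.MP_8cb858_nt.PU.REC
import Pool.Agent.Lib.MP_8cb858_nt.PT.TLZ
import Pool.Agent.Lib.MP_8cb858_nt.PR.DNP
import Pool.Agent.Lib.MP_8cb858_nt.PT.TLA
import Pool.Agent.Lib.MP_8cb858_nt.PU.TYZ
import Pool.Agent.Lib.MP_8cb858_nt.PF.SQL
import Pool.Agent.Lib.MP_8cb858_nt.PT.MXS
import Pool.Agent.Lib.MP_8cb858_nt.PT.UBI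
import Pool.Agent.Lib.MP_8cb858_nt.PT.BAS
import Pool.Agent.Lib.MP_8cb858_nt.PT.LIT
import Pool.Agent.Lib.MP_8cb858_nt.PT.MNC
import Pool.Agent.Lib.MP_8cb858_nt.PU.KRH
import Pool.Agent.Lib.MP_8cb858_nt.PT.FIN
import Pool.Agent.Lib.MP_8cb858_nt.PT.PLQ
import Pool.Agent.Lib.MP_8cb858_nt.PT.MLC
import Pool.Agent.Lib.MP_8cb858_nt.PU.TLZ
import Pool.Agent.Lib.MP_8cb858_nt.PU.MMA
import Pool.Agent.Lib.MP_8cb858_nt.PV.LWA
import Pool.Agent.Lib.MP_8cb858_nt.PT.MPB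
import Pool.Agent.Lib.MP_8cb858_nt.PU.MZ2
import Pool.Agent.Lib.MP_8cb858_nt.PT.TYP
import Pool.Agent.Lib.MP_8cb858_nt.PT.STZ
import Pool.Agent.Lib.MP_8cb858_nt.PU.WCH
import Pool.Agent.Lib.MP_8cb858_nt.PU.TEX
import Pool.Agent.Lib.MP_8cb858_nt.PT.TGP

section
/-!
# Module KPM: mixing of the kernel `Pop`
-/
set_option autoImplicit false

namespace Pool.Agent.Lib.MP_8cb858_nt.PT.KPMM

open Finset
open Pool.Agent.Lib.MP_8cb858_nt.PR (C2 Mop C2_sum)
open Pool.Agent.Lib.MP_8cb858_nt.PR.MKM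

lemma law_eq : PR.law = C2 := PR.specLAW

lemma Kop_eq (f : ℕ → ℝ) (k : ℕ) : Kop f k = Mop f k := rfl

lemma Lm_eq (f : ℕ → ℝ) : Lm f = ∑' d, C2 d * f d := by
  unfold Lm
  rw [law_eq]

lemma Pop_bdd {f : ℕ → ℝ} {K : ℝ} (hf : ∀ k, |f k| ≤ K) : ∀ k, |Pop f k| ≤ K := by
  intro k
  have a := abs_le.1 (Mop_bdd hf k)
  have b := abs_le.1 (hf k)
  rw [Pop, Kop_eq, abs_le]
  constructor <;> linarith [a.1, a.2, b.1, b.2]

lemma iter_bdd' {f : ℕ → ℝ} {K : ℝ} (hf : ∀ k, |f k| ≤ K) (n : ℕ) :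
    ∀ k, |(Pop^[n] f) k| ≤ K := by
  induction n with
  | zero => simpa using hf
  | succ n ih =>
    rw [Function.iterate_succ_apply']
    exact Pop_bdd ih

lemma Pop_contr {f : ℕ → ℝ} {K : ℝ} (hf : ∀ s, |f (s + 2) - f s| ≤ K * 2 ^ s) :
    ∀ s, |Pop f (s + 2) - Pop f s| ≤ K * (7 / 10) * 2 ^ s := by
  intro s
  have a := abs_le.1 (contr hf s)
  have b := abs_le.1 (hf s)
  rw [Pop, Pop, Kop_eq, Kop_eq, abs_le]
  constructor <;> nlinarith [a.1, a.2, b.1, b.2]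

lemma iter_contr' {f : ℕ → ℝ} (hf : ∀ k, |f k| ≤ 1) (n : ℕ) :
    ∀ s, |(Pop^[n] f) (s + 2) - (Pop^[n] f) s| ≤ 2 * (7 / 10) ^ n * 2 ^ s := by
  induction n with
  | zero =>
    intro s
    have a := abs_le.1 (hf (s + 2))
    have b := abs_le.1 (hf s)
    have c : (1 : ℝ) ≤ 2 ^ s := one_le_pow₀ (by norm_num)
    simp only [Function.iterate_zero, id_eq, pow_zero, mul_one]
    rw [abs_le]
    constructor <;> linarith [a.1, a.2, b.1, b.2]
  | succ n ih =>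
    rw [Function.iterate_succ_apply']
    intro s
    have h := Pop_contr ih s
    rw [pow_succ]
    convert h using 1
    ring

lemma iter_one {f : ℕ → ℝ} (hf : ∀ k, |f k| ≤ 1) (n : ℕ) :
    |(Pop^[n] f) 1 - (Pop^[n] f) 0| ≤ 4 * (7 / 10) ^ n := by
  induction n with
  | zero =>
    have a := abs_le.1 (hf 1)
    have b := abs_le.1 (hf 0)
    simp only [Function.iterate_zero, id_eq, pow_zero, mul_one]
    rw [abs_le]
    constructor <;> linarith [a.1, a.2, b.1, b.2]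
  | succ n ih =>
    rw [Function.iterate_succ_apply']
    have h2 := iter_contr' hf n 0
    generalize Pop^[n] f = g at ih h2
    have e : Pop g 1 - Pop g 0 = -(1 / 5) * (g 1 - g 0) + 3 / 10 * (g (0 + 2) - g 0) := by
      simp only [Pop, Kop, pow_zero, pow_one, sub_self, zero_mul, add_zero, one_mul, zero_add,
        Nat.sub_self, show 1 + 1 = 2 from rfl]
      ring
    have a := abs_le.1 ih
    have b := abs_le.1 h2
    rw [pow_zero, mul_one] at b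
    rw [e, pow_succ, abs_le]
    have hp : (0 : ℝ) < (7 / 10) ^ n := by positivity
    constructor <;> nlinarith [a.1, a.2, b.1, b.2]

lemma iter_zero {f : ℕ → ℝ} (hf : ∀ k, |f k| ≤ 1) (n s : ℕ) :
    |(Pop^[n] f) s - (Pop^[n] f) 0| ≤ 6 * (7 / 10) ^ n * 2 ^ s := by
  have hp : (0 : ℝ) < (7 / 10) ^ n := by positivity
  have h1 := par_bd (K := 2 * (7 / 10) ^ n) (by positivity) (iter_contr' hf n) s
  have h2 := iter_one hf n
  have c : (1 : ℝ) ≤ 2 ^ s := one_le_pow₀ (by norm_num)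
  have h3 : |(Pop^[n] f) (s % 2) - (Pop^[n] f) 0| ≤ 4 * (7 / 10) ^ n := by
    rcases Nat.mod_two_eq_zero_or_one s with h | h
    · rw [h, sub_self, abs_zero]
      positivity
    · rw [h]
      exact h2
  have h4 := abs_sub_le ((Pop^[n] f) s) ((Pop^[n] f) (s % 2)) ((Pop^[n] f) 0)
  have h5 : 4 * (7 / 10 : ℝ) ^ n ≤ 4 * (7 / 10) ^ n * 2 ^ s := by
    nlinarith
  calc _ ≤ _ := h4
    _ ≤ 2 * (7 / 10) ^ n * 2 ^ s + 4 * (7 / 10) ^ n * 2 ^ s := by linarith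
    _ = _ := by ring

lemma stat' {f : ℕ → ℝ} {K : ℝ} (hf : ∀ k, |f k| ≤ K) :
    ∑' d, C2 d * Pop f d = ∑' d, C2 d * f d := by
  have h1 : Summable fun d => C2 d * Mop f d := summ_bdd (Mop_bdd hf)
  have h2 : Summable fun d => C2 d * f d := summ_bdd hf
  have h3 : ∀ d, C2 d * Pop f d = 3 / 5 * (C2 d * Mop f d) + 2 / 5 * (C2 d * f d) := by
    intro d
    rw [Pop, Kop_eq]
    ring
  simp only [h3]
  rw [(h1.mul_left _).tsum_add (h2.mul_left _), tsum_mul_left, tsum_mul_left, stat hf]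
  ring

lemma iter_stat' {f : ℕ → ℝ} {K : ℝ} (hf : ∀ k, |f k| ≤ K) (n : ℕ) :
    ∑' d, C2 d * (Pop^[n] f) d = ∑' d, C2 d * f d := by
  induction n with
  | zero => rfl
  | succ n ih => rw [Function.iterate_succ_apply', stat' (iter_bdd' hf n), ih]

lemma mix (f : ℕ → ℝ) (n s : ℕ) (hf : ∀ k, |f k| ≤ 1) :
    |(Pop^[n] f) s - Lm f| ≤ 25 * (7 / 10) ^ n * 2 ^ s := by
  rw [Lm_eq, ← iter_stat' hf n]
  have hp : (0 : ℝ) < (7 / 10) ^ n := by positivity
  have c : (1 : ℝ) ≤ 2 ^ s := one_le_pow₀ (by norm_num)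
  have hz := iter_zero hf n
  have hb := iter_bdd' hf n
  generalize Pop^[n] f = g at hz hb
  have h2 : HasSum (fun d => C2 d * (g s - g d)) (g s - ∑' d, C2 d * g d) := by
    have a := (C2_sum.mul_right (g s)).sub (summ_bdd hb).hasSum
    rw [one_mul] at a
    simpa only [mul_sub] using a
  have h3 : HasSum (fun d => C2 d * (6 * (7 / 10) ^ n * (2 ^ s + 2 ^ d)))
      (6 * (7 / 10) ^ n * (2 ^ s + 3)) := by
    have h := (C2_summ 2).hasSum
    have e : ∑' d : ℕ, C2 d * (2 : ℝ) ^ d = 3 := by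
      rw [C2_gen, FF_two, mul_comm (3 : ℝ), ← mul_assoc, inv_mul_cancel₀ FF_one_pos.ne', one_mul]
    rw [e] at h
    have h' := ((C2_sum.mul_right ((2 : ℝ) ^ s)).add h).mul_left (6 * (7 / 10 : ℝ) ^ n)
    rw [one_mul] at h'
    have e2 : (fun d : ℕ => C2 d * (6 * (7 / 10 : ℝ) ^ n * (2 ^ s + 2 ^ d))) =
        fun d => 6 * (7 / 10 : ℝ) ^ n * (C2 d * 2 ^ s + C2 d * 2 ^ d) := by
      funext d
      ring
    rw [e2]
    exact h'
  have h4 : |g s - ∑' d, C2 d * g d| ≤ 6 * (7 / 10) ^ n * (2 ^ s + 3) := by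
    rw [← Real.norm_eq_abs]
    refine HasSum.norm_le_of_bounded h2 h3 fun d => ?_
    rw [Real.norm_eq_abs, abs_mul, abs_of_pos (C2_pos d)]
    apply mul_le_mul_of_nonneg_left _ (C2_pos d).le
    have h5 := abs_sub_le (g s) (g 0) (g d)
    rw [abs_sub_comm (g 0) (g d)] at h5
    have h6 := hz s
    have h7 := hz d
    calc |g s - g d| ≤ 6 * (7 / 10) ^ n * 2 ^ s + 6 * (7 / 10) ^ n * 2 ^ d := by linarith
      _ = _ := by ring
  refine h4.trans ?_
  nlinarith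

end Pool.Agent.Lib.MP_8cb858_nt.PT.KPMM

namespace Pool.Agent.Lib.MP_8cb858_nt.PT

open Finset KPMM
open Pool.Agent.Lib.MP_8cb858_nt.PR (C2 Mop C2_sum)
open Pool.Agent.Lib.MP_8cb858_nt.PR.MKM (C2_pos)
open scoped Classical

theorem specKPM : SpecKPM where
  mix := KPMM.mix
  bdd := fun _ n hf => iter_bdd' hf n
  lmb := by
    intro f hf
    rw [Lm_eq, ← Real.norm_eq_abs]
    refine HasSum.norm_le_of_bounded (PR.MKM.summ_bdd hf).hasSum C2_sum fun d => ?_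
    rw [Real.norm_eq_abs, abs_mul, abs_of_pos (C2_pos d)]
    calc C2 d * |f d| ≤ C2 d * 1 := mul_le_mul_of_nonneg_left (hf d) (C2_pos d).le
      _ = C2 d := mul_one _
  one := by
    rw [Lm_eq]
    simp only [mul_one]
    exact C2_sum.tsum_eq
  ind := by
    intro d
    unfold Lm
    rw [tsum_eq_single d]
    · show PR.law d * (if d = d then (1 : ℝ) else 0) = PR.law d
      rw [if_pos rfl, mul_one]
    · intro b hb
      show PR.law b * (if b = d then (1 : ℝ) else 0) = 0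
      rw [if_neg hb, mul_zero]
  pos := by
    intro d
    rw [law_eq]
    exact C2_pos d
  tl := by
    intro ε hε
    have h := C2_sum.tendsto_sum_nat
    have h2 := h.eventually (lt_mem_nhds (show 1 - ε < 1 by linarith))
    obtain ⟨N, hN⟩ := h2.exists
    refine ⟨N, ?_⟩
    rw [law_eq]
    exact hN.le

end Pool.Agent.Lib.MP_8cb858_nt.PT
end

section
/-!
# MP_8cb858_nt, phase 3 (Theorem B): all Specs of PT without hypotheses

Generated from the signatures of the modules `specXXX`.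
-/
namespace Pool.Agent.Lib.MP_8cb858_nt.PT.All

theorem hAUX : SpecAUX := specAUX

theorem hHZA : SpecHZA := specHZA

theorem hHZB : SpecHZB := specHZB hHZA

theorem hEQZ : SpecEQZ := specEQZ PR.specDNH hHZA hHZB

theorem hPRD : SpecPRD := specPRD hEQZ

theorem hTYZ : SpecTYZ := specTYZ (PR.specDNQ PR.specFRT) PF.All.hDNP

theorem hAXP : SpecAXP := specAXP hPRD hTYZ hEQZ

theorem hBAB : SpecBAB := specBAB hEQZ hTYZ

theorem hMPT : SpecMPT := specMPT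

theorem hMZ2 : SpecMZ2 := specMZ2 SEL.hCLS PF.All.hFPT PF.All.hFAD PF.All.hFATT hMPT

theorem hMHB : SpecMHB := specMHB

theorem hMLI : SpecMLI := specMLI hMHB

theorem hMNC : SpecMNC := specMNC

theorem hMZC : SpecMZC := specMZC

theorem hMKV : SpecMKV := specMKV PR.specFID

theorem hMIV : SpecMIV := specMIV PF.All.hFHB PF.All.hFCN

theorem hMLC : SpecMLC := specMLC hMLI hMNC hMZC hMKV hMIV PR.specFID

theorem hMQR : SpecMQR := specMQR hMLC

theorem hMPB : SpecMPB := specMPB PF.All.hFFIB PF.All.hFAL hMQR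

theorem hMP1 : SpecMP1 := specMP1 hMPB PF.All.hFI1 PF.All.hFAD

theorem hMP2 : SpecMP2 := specMP2 hMPB PF.All.hFI2 PF.All.hFAD

theorem hMMA : SpecMMA := specMMA SEL.hCNL SEL.hBX2 PF.All.hFZ1 hMZ2 hMP1 hMP2

theorem hHQB : SpecHQB := specHQB

theorem hPLQ : SpecPLQ := specPLQ

theorem hFMZ : SpecFMZ := specFMP hMMA hHQB hPLQ hHZB

theorem hSEQ : SpecSEQ := specSEQ PF.All.hDFI PF.All.hINV PF.All.hSFN

theorem hGEN : SpecGEN := specGEN PF.All.hSFN hSEQ PF.All.hAFI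

theorem hBAS : SpecBAS := specBAS hFMZ hAXP hGEN hEQZ

theorem hTYV : SpecTYV := specTYV hPRD hTYZ hEQZ

theorem hBNH : SpecBNH := specBNH

theorem hSWR : SpecSWR := specSWR

theorem hCHR : SpecCHR := specCHR

theorem hUBI : SpecUBI := specUBI hFMZ hBNH hSWR hCHR

theorem hNOD : SpecNOD := specNOD hAXP hTYV hUBI hEQZ

theorem hTYE : SpecTYE := specTYE hNOD hTYZ hEQZ

theorem hCHB : SpecCHB := specCHB

theorem hTYP : SpecTYP := specTYP hCHB hTYZ

theorem hBLK : SpecBLK := specBLK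

theorem hEQR : SpecEQR := specEQR

theorem hBLB : SpecBLB := specBLB hBLK hEQR hTYZ

theorem hBSB : SpecBSB := specBSB hBAS hEQZ

theorem hONE : SpecONE := specONE

theorem hSQZ : SpecSQZ := specSQZ hPLQ PF.All.hNFF PF.All.hHNS (PF.specSQF PF.All.hHNA)

theorem hCLM : SpecCLM := specCLM hSQZ

theorem hSML : SpecSML := specSML hONE hCLM

theorem hNDB : SpecNDB := specNDB hNOD

theorem hBDM : SpecBDM := specBDM hBAB hTYE hTYP hBLB hBSB hSML hNDB hEQZ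

theorem hTVL : SpecTVL := specTVL PF.All.hDFI PF.All.hLGF PF.All.hEVA PF.All.hINV PF.All.hLRF PF.All.hNFF

theorem hTRL : SpecTRL := specTRL hTVL PF.All.hDFI PF.All.hLSF PF.All.hINV PF.All.hNFF

theorem hTRZ : SpecTRZ := specTRZ hTRL hPLQ

theorem hCNT : SpecCNT := specCNT hTRZ hGEN

theorem hLIT : SpecLIT := specLIT PF.All.hTOC PF.All.hTOI PF.All.hNRM PF.All.hEVA PF.All.hINV PF.All.hAFI PF.All.hLIC PF.All.hLIT

theorem hFAH : SpecFAH := specFAH PF.All.hNFF PF.All.hLRF PF.All.hAFI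

theorem hHAQ : SpecHAQ := specHAQ PR.specHYP PF.All.hLSF PF.All.hINV PF.All.hNFF hFAH

theorem hSLH : SpecSLH := specSLH PF.All.hINV hLIT PF.All.hLGF PF.All.hLTF PF.All.hLVF PF.All.hLZF PF.All.hEVF PF.All.hNFF hHAQ hFAH

theorem hKMD : SpecKMD := specKMD PF.All.hTWD PF.All.hKMF PF.All.hIXF

theorem hELH : SpecELH := specELH PF.All.hINV PF.All.hEVF PF.All.hLZF PF.All.hNFF hKMD hLIT hFAH

theorem hRPH : SpecRPH := specRPH PF.All.hDFI PF.All.hLZF PF.All.hINV PF.All.hNFF hLIT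

theorem hKRH : SpecKRH := specKRH PF.All.hDFI hSLH hTVL hHAQ hRPH hFAH PF.All.hNFF

theorem hCRH : SpecCRH := specCRH PF.All.hDFI hSLH hELH hHAQ hKRH hRPH PF.All.hSFN hFAH

theorem hKPM : SpecKPM := specKPM

theorem hRCH : SpecRCH := specRCH PF.All.hLGF PF.All.hLVF PF.All.hAFI PF.All.hINV PF.All.hADJ hHAQ hFAH PF.All.hNFF

theorem hSUF : SpecSUF := specSUF PF.All.hSUI

theorem hSRT : SpecSRT := specSRT

theorem hSRQ : SpecSRQ := specSRQ hSRT PF.All.hSRR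

theorem hSUH : SpecSUH := specSUH hSUF hSRQ PF.All.hSIR PF.All.hSPQ PF.All.hSPX PF.All.hSEJ PF.All.hSCT PF.All.hSEV

theorem hWCH : SpecWCH := specWCH hFAH hSUH PF.All.hNFF hKMD hLIT PF.All.hLSF PF.All.hEVF PF.All.hINV

theorem hWGH : SpecWGH := specWGH hELH hHAQ hRCH hWCH hKRH

theorem hSTH : SpecSTH := specSTH hWGH PR.specLAL hCRH hTVL hHAQ PF.All.hDFI hSLH hFAH PF.All.hNFF

theorem hRCQ : SpecRCQ := specRCQ PF.All.hCOO PF.All.hNRM

theorem hSTEP : SpecSTEP := specSTEP hSTH hPLQ hRCQ hTYZ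

theorem hNST : SpecNST := specNST hSTEP hSQZ hCLM

theorem hRSM : SpecRSM := specRSM

theorem hTGT : SpecTGT := specTGT hRSM

theorem hIVT : SpecIVT := specIVT hCLM

theorem hTGS : SpecTGS := specTGS hIVT hNST hCNT hGEN

theorem hNR3 : SpecNR3 := specNR3

theorem hLJR : SpecLJR := specLJR PF.All.hCOO PF.All.hHNA PF.All.hHNS PF.All.hTOC PF.All.hTOI PF.All.hSQS PF.All.hAFI PF.All.hINV PF.All.hRTS hNR3

theorem hJNH : SpecJNH := specJNH hLJR hNR3 PF.All.hINV hKMD hFAH hLIT PF.All.hLZF PF.All.hLVF PF.All.hLGF PF.All.hEVF PF.All.hDFI PF.All.hSFN PF.All.hNFF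

theorem hJNK : SpecJNK := specJNK hJNH hPLQ

theorem hJST : SpecJST := specJST hJNK hCLM hSQZ

theorem hTGP : SpecTGP := specTGP hTGT hTGS hJST hIVT hEQR

theorem hMIX : SpecMIX := specMIX hRSM hKPM

theorem hMXS : SpecMXS := specMXS hEQR hIVT hNST hCNT hGEN hCLM hTYZ

theorem hMXP : SpecMXP := specMXP hMIX hMXS hEQR hIVT hCLM

theorem hGIV : SpecGIV := specGIV hEQR hIVT hCLM

theorem hPAI : SpecPAI := specPAI hKPM hNST hTGP hMXP hGIV

theorem hSMM : SpecSMM := specSMM hKPM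

theorem hTLA : SpecTLA := specTLA PR.specDNP PR.specDNH

theorem hTLZ : SpecTLZ := specTLZ hTLA hHZB

theorem hSTAR : SpecSTAR := specSTAR hPAI hBDM hSMM hTLZ hEQZ hGEN hAUX hKPM

theorem hTD : SpecTD := specTD

theorem hFIN : SpecFIN := specFIN hSTAR hTD hGEN

end Pool.Agent.Lib.MP_8cb858_nt.PT.All
end
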