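import Pool.Agent.Lib.MP_8cb858_nt.PT.FIN

/-!
# Definitions for Theorem S*: types, classes, nodes

Design: /team-store/MP_8cb858_STAR_design.txt. `E = (a, b)` is a pair of integers.
-/

namespace Pool.Agent.Lib.MP_8cb858_nt.PT

open Polynomial NumberField IsDedekindDomain Pool.Agent.Lib.MP_8cb858_nt.SEL
open Pool.Agent.Lib.MP_8cb858_nt.PF
open scoped Classical WithZero

/-- The type of the prime `q` for `E`: 0 = (1,2), 1 = (3), 2 = (1,1,1), 3 = bad. -/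
noncomputable def ty (q : ℕ) (E : ℤ × ℤ) : ℕ :=
  if Y12 q E.1 E.2 then 0 else if Y3 q E.1 E.2 then 1 else
    if (q : ℤ) ∣ dz E.1 E.2 then 3 else 2

/-- The class of `n` (prime to `K`) modulo squares at the primes dividing `K`. -/
noncomputable def cl (K n : ℕ) : Finset ℕ × ℕ :=
  (K.primeFactors.filter (fun p => IsSquare (n : ZMod p)), n % 8)

/-- The index of the first prime of type (3) in the sequence `mm` of auxiliary primes. -/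
noncomputable def jx (mm : ℕ → ℕ) (E : ℤ × ℤ) : ℕ := sInf {j | Y3 (mm j) E.1 E.2}

/-- The auxiliary prime. -/
noncomputable def mx (mm : ℕ → ℕ) (E : ℤ × ℤ) : ℕ := mm (jx mm E)

/-- A good node: `D = D0 m`, `m` the auxiliary prime, `L` a list of primes. -/
structure Nok (η κ : ℝ) (R D0 : ℕ) (mm : ℕ → ℕ) (L : Finset ℕ) (E : ℤ × ℤ) : Prop where
  aux : jx mm E < R ∧ Y3 (mx mm E) E.1 E.2
  t12 : |((L.filter (fun q => Y12 q E.1 E.2)).card : ℝ) - (L.card : ℝ) / 2| ≤ κ * L.card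
  t3 : |((L.filter (fun q => Y3 q E.1 E.2)).card : ℝ) - (L.card : ℝ) / 3| ≤ κ * L.card
  uni : ∀ z : Sl E.1 E.2 (D0 * mx mm E), z ≠ 0 →
    |((L.filter (fun q => Y12 q E.1 E.2 ∧ Tz q z)).card : ℝ) -
      ((L.filter (fun q => Y12 q E.1 E.2)).card : ℝ) / 2| ≤
      η * ((L.filter (fun q => Y12 q E.1 E.2)).card : ℝ)

/-- **NOD** (helper4/helper64). The probability over `E` of a bad node. -/
def SpecNOD : Prop :=
  ∀ η κ B : ℝ, 0 < η → 0 < κ → 0 < B → ∃ r0 : ℕ, ∀ (r D0 : ℕ) (L : Finset ℕ) (mm : ℕ → ℕ),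
    r0 ≤ r → Squarefree D0 → D0.primeFactors.card ≤ 3 * r →
    (∀ q ∈ L, q.Prime ∧ r0 ≤ q ∧ ¬ q ∣ D0) → Real.exp (r0 * r) ≤ (L.card : ℝ) →
    Function.Injective mm → (∀ j, (mm j).Prime ∧ r0 ≤ mm j ∧ ¬ mm j ∣ D0 ∧ mm j ∉ L) →
    ∃ X0 : ℝ, ∀ X : ℝ, X0 ≤ X →
      ({E ∈ Hz X | ¬ Nok η κ (r ^ 2) D0 mm L E}.ncard : ℝ) ≤
        Real.exp (-(B * r)) * ((Hz X).ncard : ℝ)

/-- **BAS** (helper4/helper64). The base bound. -/
def SpecBAS : Prop :=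
  ∀ δ ε : ℝ, 0 < δ → 0 < ε → ∃ r0 : ℕ, ∀ (r D1 : ℕ) (mm : ℕ → ℕ), r0 ≤ r → Squarefree D1 →
    r0 * D1.primeFactors.card ≤ r →
    Function.Injective mm → (∀ j, (mm j).Prime ∧ r0 ≤ mm j ∧ ¬ mm j ∣ D1) →
    ∃ X0 : ℝ, ∀ X : ℝ, X0 ≤ X →
      ({E ∈ Hz X | ¬ (jx mm E < r ^ 2 ∧ Y3 (mx mm E) E.1 E.2 ∧
        (sc E.1 E.2 (D1 * mx mm E) : ℝ) ≤ 2 ^ (δ * r))}.ncard : ℝ) ≤ ε * ((Hz X).ncard : ℝ)

end Pool.Agent.Lib.MP_8cb858_nt.PT
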