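import Pool.Agent.Lib.MP_8cb858_nt.PF.Top

/-!
# The Poonen-Rains law for almost all quadratic twists of the family of all curves over ℚ: definitions

Plan: /team-store/MP_8cb858_B_plan.txt. `D`, `K` are natural numbers, `a, b` integers,
`f = X^3 + a X + b`; `E^D : y^2 = x^3 + a D^2 x + b D^3` (isomorphic to `D y^2 = x^3 + a x + b`).
-/

namespace Pool.Agent.Lib.MP_8cb858_nt.PT

open Polynomial NumberField IsDedekindDomain Pool.Agent.Lib.MP_8cb858_nt.SEL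
open Pool.Agent.Lib.MP_8cb858_nt.PF
open scoped Classical WithZero

/-- `4 a^3 + 27 b^2`. -/
def dz (a b : ℤ) : ℤ := 4 * a ^ 3 + 27 * b ^ 2

/-- The pairs of integers of height at most `X` with `4 a^3 + 27 b^2 ≠ 0`. -/
def Hz (X : ℝ) : Set (ℤ × ℤ) := {q | |(q.1 : ℝ)| ^ 3 ≤ X ∧ (q.2 : ℝ) ^ 2 ≤ X ∧ dz q.1 q.2 ≠ 0}

/-- The 2-Selmer group of `E^D`. -/
abbrev Sl (a b : ℤ) (D : ℕ) : Type := Sel 2 (cur (a : ℚ) (b : ℚ) (D : ℚ))

/-- The order of the 2-Selmer group of `E^D`. -/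
noncomputable def sc (a b : ℤ) (D : ℕ) : ℕ := Nat.card (Sl a b D)

/-- The localisation of the Selmer class `z` at the prime number `p` is trivial (meaningful if `p` does
not divide `6 D` and `p` is of type (1,2)). -/
def Tz {a b : ℤ} {D : ℕ} (p : ℕ) (z : Sl a b D) : Prop :=
  ∃ v : HeightOneSpectrum (𝓞 ℚ), (p : 𝓞 ℚ) ∈ v.asIdeal ∧
    Triv (a := (a : ℚ)) (b := (b : ℚ)) (D : ℚ) v z

/-- `p` is of type (1,2): `f` is the product of a linear and an irreducible quadratic factor modulo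
`p` (`p ≥ 5`). -/
def Y12 (p : ℕ) (a b : ℤ) : Prop := ¬ IsSquare ((-dz a b : ℤ) : ZMod p)

/-- `p` is of type (3): `f` is irreducible modulo `p`. -/
def Y3 (p : ℕ) (a b : ℤ) : Prop := ∀ x : ZMod p, x ^ 3 + (a : ZMod p) * x + (b : ZMod p) ≠ 0

/-- `p` is of type (1,1,1) (`p ≥ 5`). -/
def Y111 (p : ℕ) (a b : ℤ) : Prop := ¬ Y12 p a b ∧ ¬ Y3 p a b ∧ ¬ (p : ℤ) ∣ dz a b

/-- `m` and `n` have the same class modulo squares in `ℚ_p` for all primes `p` dividing `K`. -/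
def Sq (K m n : ℕ) : Prop :=
  ∀ v : HeightOneSpectrum (𝓞 ℚ), (K : 𝓞 ℚ) ∈ v.asIdeal →
    IsSquare ((m * n : ℕ) : v.adicCompletion ℚ)

/-- `4 a^3 + 27 b^2` is not divisible by the square of a prime not dividing `K`. -/
def Sf (K : ℕ) (a b : ℤ) : Prop := ∀ p : ℕ, p.Prime → ¬ p ∣ K → ¬ (p : ℤ) ^ 2 ∣ dz a b

/-- `D` is `T`-admissible (for `K`, `P` and the class of `Ds` at the primes dividing `K`). -/
structure Adm (K Ds : ℕ) (P T : Finset ℕ) (D : ℕ) : Prop where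
  pos : 0 < D
  sq : Sq K D Ds
  ex : ∀ p ∈ T, p ∣ D ∧ ¬ p ^ 2 ∣ D
  un : ∀ p : ℕ, p.Prime → ¬ p ∣ K → p ∉ P → p ∉ T → ¬ p ∣ D

/-- The configurations of the step theorem: `6 ∣ K`, `Q` a set of primes of type (1,2), `P` a nonempty
set of primes of type (3), all prime to `K`; `4a^3+27b^2` squarefree outside `K`. -/
structure Cfz (K : ℕ) (Q P : Finset ℕ) (a b : ℤ) : Prop where
  pos : 0 < K
  six : 6 ∣ K
  qp : ∀ p ∈ Q, p.Prime ∧ ¬ p ∣ K ∧ Y12 p a b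
  pp : ∀ p ∈ P, p.Prime ∧ ¬ p ∣ K ∧ Y3 p a b
  ne : P.Nonempty
  sf : Sf K a b

/-- The proportion of the pairs of height at most `X` whose twist by `D` has `dim Sel_2 = d`. -/
noncomputable def prop (X : ℝ) (D d : ℕ) : ℝ :=
  ({q ∈ Hz X | sc q.1 q.2 D = 2 ^ d}.ncard : ℝ) / ((Hz X).ncard : ℝ)

end Pool.Agent.Lib.MP_8cb858_nt.PT
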