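import Pool.Agent.Lib.MP_8cb858_nt.PT.SpecF

/-!
# Row 205, module MPB: the number of `B` with pattern, for one `A`
-/

set_option autoImplicit false

namespace Pool.Agent.Lib.MP_8cb858_nt.PT

open Polynomial NumberField IsDedekindDomain Pool.Agent.Lib.MP_8cb858_nt.SEL Matrix
open Pool.Agent.Lib.MP_8cb858_nt.PF
open scoped Classical WithZero

namespace MPBM

variable {F : Type} [Field F] [NumberField F]

/-- the ideals -/
def J : HeightOneSpectrum (𝓞 F) ⊕ HeightOneSpectrum (𝓞 F) → Ideal (𝓞 F)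
  | Sum.inl v => v.asIdeal
  | Sum.inr v => v.asIdeal ^ 3

/-- the local sets -/
def T (Q z : Finset (HeightOneSpectrum (𝓞 F))) (A : MO F) :
    ∀ i : HeightOneSpectrum (𝓞 F) ⊕ HeightOneSpectrum (𝓞 F),
      Set (Matrix (Fin 3) (Fin 3) (𝓞 F ⧸ J i))
  | Sum.inl v => AL Q Q z A v
  | Sum.inr v => NW A v

end MPBM

open MPBM in
theorem specMPB (hFFIB : PF.SpecFFIB) (hFAL : PF.SpecFAL) (hMQR : SpecMQR) : SpecMPB := by
  intro F _ _ Q P W Z A S M hQP hW hZ hA h6 hM hS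
  have hcop : ∀ v u : HeightOneSpectrum (𝓞 F), v ≠ u → IsCoprime (v.asIdeal) (u.asIdeal) := by
    intro v u hne
    rw [Ideal.isCoprime_iff_sup_eq]
    exact v.isMaximal.coprime_of_ne u.isMaximal fun h => hne (HeightOneSpectrum.ext h)
  have hWQ : ∀ v ∈ W, v ∉ Q ∪ P := by
    intro v hv h
    rcases Finset.mem_union.1 h with h | h
    · exact (hW v hv).1 h
    · exact (hW v hv).2 h
  have hmq : ∀ v ∈ W, (NW A v).ncard ≤ 4 * nv v ^ 10 ∧ Finite (𝓞 F ⧸ v.asIdeal ^ 3) := by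
    intro v hv
    have h := h6 v (Finset.mem_union_right _ hv)
    exact hMQR F v A h.1 hA h.2
  have h6' : ∀ v ∈ Q ∪ P, (6 : 𝓞 F) ∉ v.asIdeal ∧ A.det ∉ v.asIdeal := fun v hv =>
    h6 v (Finset.mem_union_left _ hv)
  have hpos : ∀ v ∈ W, (0 : ℝ) < nv v := by
    intro v hv
    have h1 : (nv v : ℝ) ≠ 0 := by
      have := PF.card_quot v
      have h2 := PF.finite_quot v
      have h3 : 0 < Nat.card (𝓞 F ⧸ v.asIdeal) := by
        have := h2
        exact Nat.card_pos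
      rw [this] at h3
      exact_mod_cast h3.ne'
    positivity
  have hprodJ : (∏ l ∈ (Q ∪ P).disjSum W, J l) =
      (∏ v ∈ Q ∪ P, v.asIdeal) * ∏ v ∈ W, v.asIdeal ^ 3 := by
    rw [Finset.prod_disjSum]
    rfl
  have h1 : ∀ z ∈ Z, {B ∈ S | ∀ i ∈ (Q ∪ P).disjSum W, md (J i) B ∈ T Q z A i}.Finite ∧
      ({B ∈ S | ∀ i ∈ (Q ∪ P).disjSum W, md (J i) B ∈ T Q z A i}.ncard : ℝ) ≤
        M * (((∏ v ∈ Q ∪ P, (nv v : ℝ)) ^ 5 * ((1 / 2 ^ Q.card) *
        (∏ v ∈ Q, (1 + 1 / (nv v : ℝ)) ^ 2 / 2) * ∏ v ∈ P, (1 + 1 / (nv v : ℝ)) ^ 2 / 3)) *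
        ∏ v ∈ W, 4 * (nv v : ℝ) ^ 10) := by
    intro z hz
    obtain ⟨h2, h3⟩ := hFFIB (𝓞 F) (HeightOneSpectrum (𝓞 F) ⊕ HeightOneSpectrum (𝓞 F))
      ((Q ∪ P).disjSum W) J S (T Q z A) M (by
        rintro (v | v) hv (u | u) hu hne
        · exact hcop v u (fun h => hne (by rw [h]))
        · rw [Finset.inl_mem_disjSum] at hv
          rw [Finset.inr_mem_disjSum] at hu
          exact (hcop v u (fun h => hWQ u hu (h ▸ hv))).pow_right
        · rw [Finset.inr_mem_disjSum] at hv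
          rw [Finset.inl_mem_disjSum] at hu
          exact (hcop v u (fun h => hWQ v hv (h ▸ hu))).pow_left
        · exact (hcop v u (fun h => hne (by rw [h]))).pow) (by
        rintro (v | v) hv
        · exact finite_quot v
        · rw [Finset.inr_mem_disjSum] at hv
          exact (hmq v hv).2) hM (by
        rw [hprodJ]
        exact hS)
    refine ⟨h2, h3.trans (mul_le_mul_of_nonneg_left ?_ hM)⟩
    rw [Finset.prod_disjSum]
    refine mul_le_mul (hFAL F Q Q P z A hQP (Finset.Subset.refl _) (hZ z hz) hA h6')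
      ?_ (Finset.prod_nonneg fun v _ => Nat.cast_nonneg _) ?_
    · refine Finset.prod_le_prod (fun v _ => Nat.cast_nonneg _) fun v hv => ?_
      exact_mod_cast (hmq v hv).1
    · refine le_trans (Finset.prod_nonneg fun v _ => Nat.cast_nonneg _)
        (hFAL F Q Q P z A hQP (Finset.Subset.refl _) (hZ z hz) hA h6')
  have he : {B ∈ S | PatW Q P W Z A B} =
      ⋃ z ∈ Z, {B ∈ S | ∀ i ∈ (Q ∪ P).disjSum W, md (J i) B ∈ T Q z A i} := by
    ext B
    simp only [Set.mem_ofPred_eq, Set.mem_iUnion, PatW, Pat, exists_prop]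
    constructor
    · rintro ⟨hB, ⟨z, hz, h⟩, h'⟩
      refine ⟨z, hz, hB, ?_⟩
      rintro (v | v) hv
      · exact h v (Finset.inl_mem_disjSum.1 hv)
      · exact h' v (Finset.inr_mem_disjSum.1 hv)
    · rintro ⟨z, hz, hB, h⟩
      exact ⟨hB, ⟨z, hz, fun v hv => h (Sum.inl v) (Finset.inl_mem_disjSum.2 hv)⟩,
        fun v hv => h (Sum.inr v) (Finset.inr_mem_disjSum.2 hv)⟩
  have hfin : {B ∈ S | PatW Q P W Z A B}.Finite := by
    rw [he]
    exact Set.Finite.biUnion Z.finite_toSet fun z hz => (h1 z hz).1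
  refine ⟨hfin, ?_⟩
  have h2 : {B ∈ S | PatW Q P W Z A B}.ncard ≤
      ∑ z ∈ Z, {B ∈ S | ∀ i ∈ (Q ∪ P).disjSum W, md (J i) B ∈ T Q z A i}.ncard := by
    rw [he]
    exact Finset.set_ncard_biUnion_le Z _
  have h3 : ({B ∈ S | PatW Q P W Z A B}.ncard : ℝ) ≤
      ∑ z ∈ Z, ({B ∈ S | ∀ i ∈ (Q ∪ P).disjSum W, md (J i) B ∈ T Q z A i}.ncard : ℝ) := by
    exact_mod_cast h2
  refine h3.trans ((Finset.sum_le_sum fun z hz => (h1 z hz).2).trans (le_of_eq ?_))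
  rw [Finset.sum_const, nsmul_eq_mul, dnW, nmW, dns, mul_pow, ← Finset.prod_pow]
  have h4 : (∏ v ∈ W, ((nv v : ℝ) ^ 3) ^ 5) * (∏ v ∈ W, 4 / (nv v : ℝ) ^ 5) =
      ∏ v ∈ W, 4 * (nv v : ℝ) ^ 10 := by
    rw [← Finset.prod_mul_distrib]
    refine Finset.prod_congr rfl fun v hv => ?_
    have := (hpos v hv).ne'
    field_simp
  rw [← h4, ← Finset.prod_pow]
  ring

end Pool.Agent.Lib.MP_8cb858_nt.PT
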