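import Pool.Agent.Lib.MP_8cb858_nt.PT.DefN

/-!
# Specs, abstract probability: resampling, the kernel, tightness, mixing, second moment

Every Spec is a closed proposition with a complete proof in its doc string. Module XXX = file `PT/XXX.lean`,
`theorem specXXX (hYYY : SpecYYY) .. : SpecXXX`, own lemmas in the namespace `Pool.Agent.Lib.MP_8cb858_nt.PT.XXXM`.
All sums are over finite sets. `Ω.filter (R i p)` is the class of `p` for the equivalence relation `R i`.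
-/

namespace Pool.Agent.Lib.MP_8cb858_nt.PT

open scoped Classical

/-- The kernel `P`: `s ↦ s+1` with probability `2^{-s}`, `s ↦ s-1` otherwise (acting on functions). -/
noncomputable def Kop (f : ℕ → ℝ) (k : ℕ) : ℝ :=
  (1 / 2) ^ k * f (k + 1) + (1 - (1 / 2) ^ k) * f (k - 1)

/-- The kernel `P' = (3/5) P + (2/5) Id`. -/
noncomputable def Pop (f : ℕ → ℝ) (k : ℕ) : ℝ := 3 / 5 * Kop f k + 2 / 5 * f k

/-- The mean of `f` for the law `C_{2,d}`. -/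
noncomputable def Lm (f : ℕ → ℝ) : ℝ := ∑' d : ℕ, PR.law d * f d

/-- **KPM** (150 lines). Mixing of the kernel `P'`.
Proof. `PR/MK.lean`, `PR/LAW.lean`: `PR.law` is the law `C2` of MK (`C2_eq`), `C2_pos`, `C2_sum` (sum 1), `C2_summ 2` with
`∑ C2 d 2^d = 3` (see `MKM.law_st`), stationarity `MKM.stat`, contraction `MKM.contr`, `MKM.Mop_bdd`, `MKM.par_bd` (`Kop = Mop`).
Let `f_n = Pop^[n] f`, `N_n` with `|f_n(s+2) - f_n(s)| ≤ N_n 2^s`: `N_0 = 2`, and by `contr` `N_(n+1) = (3/5)(N_n/2) + (2/5) N_n =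
(7/10) N_n`, so `N_n = 2 (7/10)^n`. `f_(n+1)(1) - f_(n+1)(0) = (3/5)((f_n(2)+f_n(0))/2) + (2/5) f_n(1) - (3/5) f_n(1) - (2/5) f_n(0)
= -(1/5)(f_n(1) - f_n(0)) + (3/10)(f_n(2) - f_n(0))`, so `δ_n = |f_n(1) - f_n(0)|` satisfies `δ_0 ≤ 2`,
`δ_(n+1) ≤ δ_n/5 + (3/5)(7/10)^n`, hence `δ_n ≤ 4 (7/10)^n` (induction: `4/5 + 3/5 ≤ 14/5`). So
`|f_n(s) - f_n(0)| ≤ 2 (7/10)^n 2^s + 4 (7/10)^n ≤ 6 (7/10)^n 2^s` (`par_bd`). `Lm f_n = Lm f` (stationarity), so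
`|f_n(s) - Lm f| ≤ ∑_d law d |f_n(s) - f_n(d)| ≤ 6 (7/10)^n (2^s + 3) ≤ 25 (7/10)^n 2^s`. `tl`: from the sum 1. -/
structure SpecKPM : Prop where
  mix : ∀ (f : ℕ → ℝ) (n s : ℕ), (∀ k, |f k| ≤ 1) →
    |(Pop^[n] f) s - Lm f| ≤ 25 * (7 / 10) ^ n * 2 ^ s
  bdd : ∀ (f : ℕ → ℝ) (n : ℕ), (∀ k, |f k| ≤ 1) → ∀ k, |(Pop^[n] f) k| ≤ 1
  lmb : ∀ f : ℕ → ℝ, (∀ k, |f k| ≤ 1) → |Lm f| ≤ 1
  one : Lm (fun _ => 1) = 1
  ind : ∀ d : ℕ, Lm (fun k => if k = d then 1 else 0) = PR.law d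
  pos : ∀ d : ℕ, 0 < PR.law d
  tl : ∀ ε : ℝ, 0 < ε → ∃ N : ℕ, 1 - ε ≤ ∑ d ∈ Finset.range N, PR.law d

/-- **RSM** (50 lines). Resampling.
Proof. Double sum: `∑_p (∑_(p' ~ p) f p')/n_p = ∑_(p') f p' ∑_(p ~ p') 1/n_p` and `n_p = n_(p')` for `p ~ p'`. -/
def SpecRSM : Prop :=
  ∀ (X : Type) (Ω : Finset X) (R : X → X → Prop) (f : X → ℝ), Equivalence R →
    ∑ p ∈ Ω, (∑ p' ∈ Ω.filter (R p), f p') / ((Ω.filter (R p)).card : ℝ) = ∑ p ∈ Ω, f p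

/-- **TGT** (150 lines; from RSM). The tightness inequality.
Proof. `N_i(p)` = number of `j < r`, `i ≤ j`, with `act j p`; `M_i = 2^(s_i) ρ^(N_i)`. `S_i = ∑_{p, G i p} M_i(p)`. By RSM for `R i` and
`f = 1_(G i) M_(i+1)` (`G i`, `act j`, hence `N_(i+1)`, and `s_i` are constant on the classes): `∑_{G i} M_(i+1) =
∑_{p, G i p} ρ^(N_(i+1)(p)) avg_(p' ~ p) 2^(s_(i+1)(p'))`. If `act i p` fails: `= M_i(p)` (on the class `s (i+1) = s i`,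
`N_(i+1) = N_i`). If `act i p`: `≤ ρ^(N_(i+1)) (ρ 2^(s_i) + 3/2) = M_i + (3/2) ρ^(N_(i+1))`. So, as `G (i+1) → G i`,
`S_(i+1) ≤ S_i + (3/2) ∑_p ρ^(N_(i+1)(p)) [act i p]`. For fixed `p` the numbers `N_(i+1)(p)`, `i` active, are different natural numbers,
so `∑_i ρ^(N_(i+1)) [act i p] ≤ ∑_m ρ^m ≤ 4`. `S_0 ≤ #Ω`. `S_r ≤ #Ω + 6 #Ω`, `N_r = 0`. -/
def SpecTGT : Prop :=
  ∀ (X : Type) (Ω : Finset X) (r : ℕ) (R : ℕ → X → X → Prop) (s : ℕ → X → ℕ)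
    (act G : ℕ → X → Prop) (ρ : ℝ), 0 < ρ → ρ ≤ 3 / 4 → (∀ i, Equivalence (R i)) →
    (∀ i < r, ∀ p ∈ Ω, ∀ p' ∈ Ω, R i p p' →
      (∀ j < r, act j p ↔ act j p') ∧ (∀ j ≤ i, s j p = s j p') ∧ (G i p ↔ G i p')) →
    (∀ i < r, ∀ p ∈ Ω, G i p → ¬ act i p → s (i + 1) p = s i p) →
    (∀ i < r, ∀ p ∈ Ω, G i p → act i p →
      ∑ p' ∈ Ω.filter (R i p), (2 : ℝ) ^ s (i + 1) p' ≤
        (ρ * 2 ^ s i p + 3 / 2) * ((Ω.filter (R i p)).card : ℝ)) →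
    (∀ i < r, ∀ p ∈ Ω, G (i + 1) p → G i p) →
    (∀ p ∈ Ω, G 0 p → (2 : ℝ) ^ s 0 p * ρ ^ ((Finset.range r).filter (fun j => act j p)).card ≤ 1) →
    ∑ p ∈ Ω.filter (G r), (2 : ℝ) ^ s r p ≤ 7 * (Ω.card : ℝ)

/-- **MIX** (100 lines; from RSM, KPM `bdd`). The mixing inequality.
Proof. Induction on `n` (for all `f`, and all `n' ≤ n`): it is enough to show for `k < n` and `|f| ≤ 1`:
`|∑_p f(s_(k+1) p) g p - ∑_p (Pop f)(s_k p) g p| ≤ err #Ω + 2 #B`; apply it to `k = n-1, n-2, ..` and `Pop^[..] f`. By RSM for `R k`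
(`g` constant on the classes) the first sum is `∑_p g p avg_(p' ~ p) f(s_(k+1) p')`; for `p ∈ Ω \ B` the average differs from
`(Pop f)(s_k p)` by at most `err`, for `p ∈ B` by at most 2. -/
def SpecMIX : Prop :=
  ∀ (X : Type) (Ω B : Finset X) (n : ℕ) (R : ℕ → X → X → Prop) (s : ℕ → X → ℕ) (g : X → ℝ)
    (err : ℝ), 0 ≤ err → (∀ i, Equivalence (R i)) → (∀ p ∈ Ω, |g p| ≤ 1) →
    (∀ k < n, ∀ p ∈ Ω, ∀ p' ∈ Ω, R k p p' → s k p = s k p' ∧ g p = g p') →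
    (∀ k < n, ∀ p ∈ Ω, p ∉ B → ∀ f : ℕ → ℝ, (∀ m, |f m| ≤ 1) →
      |∑ p' ∈ Ω.filter (R k p), f (s (k + 1) p') -
        Pop f (s k p) * ((Ω.filter (R k p)).card : ℝ)| ≤ err * ((Ω.filter (R k p)).card : ℝ)) →
    ∀ f : ℕ → ℝ, (∀ m, |f m| ≤ 1) →
      |∑ p ∈ Ω, f (s n p) * g p - ∑ p ∈ Ω, (Pop^[n] f) (s 0 p) * g p| ≤
        n * err * (Ω.card : ℝ) + 2 * n * (B.card : ℝ)

/-- **SMM** (200 lines; from KPM). Second moment.
Proof. `Y` nonempty finite set of curves `Ex`, `N = #Ex`, `P_p(d) = #{E : s E p = d}/N`. Take `f = g = 1_d`; and `f = 1_d`, `g = 1`: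
`∑_p P_p(d)^2 = C_d^2 #Ω + O(δ #Ω)`, `∑_p P_p(d) = C_d #Ω + O(δ #Ω)`, so `∑_p (P_p(d) - C_d)^2 ≤ 4 δ #Ω` (`C_d ≤ 1`). Let
`ε' = min(ε,1)/8`, `N0` from KPM `tl` for `ε'`, and `δ = ε ε'^2/(16 N0^2 (N0+1))`: the number of `p` with
`|P_p(d) - C_d| > ε'/(N0+1)` for some `d < N0` is at most `N0 · 4 δ #Ω (N0+1)^2/ε'^2 ≤ ε #Ω` (choose `δ` accordingly). For the other
`p`: `d < N0`: `|P_p(d) - C_d| ≤ ε' ≤ ε`; `d ≥ N0`: `P_p(d) ≤ 1 - ∑_(d<N0) P_p(d) ≤ 1 - (1 - ε') + ε' = 2ε'`, `C_d ≤ ε'`, so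
`|P_p(d) - C_d| ≤ 2 ε' ≤ ε`. -/
def SpecSMM : Prop :=
  ∀ ε : ℝ, 0 < ε → ∃ δ : ℝ, 0 < δ ∧ ∀ (X Y : Type) (Ω : Finset X) (Ex : Finset Y)
    (s : Y → X → ℕ), Ex.Nonempty →
    (∀ f g : ℕ → ℝ, (∀ m, |f m| ≤ 1) → (∀ m, |g m| ≤ 1) →
      |∑ p ∈ Ω, ∑ E ∈ Ex, ∑ E' ∈ Ex, f (s E p) * g (s E' p) -
        Lm f * Lm g * (Ω.card : ℝ) * (Ex.card : ℝ) ^ 2| ≤ δ * (Ω.card : ℝ) * (Ex.card : ℝ) ^ 2) →
    ((Ω.filter (fun p => ∃ d : ℕ,
      ε < |((Ex.filter (fun E => s E p = d)).card : ℝ) / (Ex.card : ℝ) - PR.law d|)).card : ℝ) ≤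
        ε * (Ω.card : ℝ)

/-- **CHB** (80 lines). Chebyshev's inequality for independent indicators on a product of finite lists.
Proof. `X_i(p) = 1` if `T i (p i)`, independent under the uniform measure of `∏ L_i` (`Fintype.piFinset`), with mean
`μ_i = #{q ∈ L_i : T i q}/#L_i`; the variance of `∑ X_i` is `∑ μ_i (1 - μ_i) ≤ r/4`: `∑_p (∑_i (X_i - μ_i))^2 =
∑_i ∑_j ∑_p (X_i - μ_i)(X_j - μ_j)`, the terms `i ≠ j` vanish (sum over `p_i` first; `Finset.sum_piFinset_apply`-type lemmas,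
`Fintype.piFinset` as a product, or induction on `r`). -/
def SpecCHB : Prop :=
  ∀ (r : ℕ) (L : Fin r → Finset ℕ) (T : Fin r → ℕ → Prop) (t : ℝ), 0 < t →
    (((Fintype.piFinset L).filter (fun p =>
      t ≤ |((Finset.univ.filter (fun i => T i (p i))).card : ℝ) -
        ∑ i, (((L i).filter (T i)).card : ℝ) / ((L i).card : ℝ)|)).card : ℝ) * t ^ 2 ≤
      r / 4 * ((Fintype.piFinset L).card : ℝ)

/-- **BLK** (60 lines). No success in a block.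
Proof. The set is `∏_i L'_i` with `L'_i = {q ∈ L_i : ¬ T i q}` for `i ∈ I`, `L'_i = L_i` otherwise. -/
def SpecBLK : Prop :=
  ∀ (r : ℕ) (L : Fin r → Finset ℕ) (T : Fin r → ℕ → Prop) (I : Finset (Fin r)) (θ : ℝ), 0 ≤ θ →
    (∀ i ∈ I, (((L i).filter (fun q => ¬ T i q)).card : ℝ) ≤ θ * ((L i).card : ℝ)) →
    (((Fintype.piFinset L).filter (fun p => ∀ i ∈ I, ¬ T i (p i))).card : ℝ) ≤
      θ ^ I.card * ((Fintype.piFinset L).card : ℝ)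

/-- **ONE** (50 lines). A condition on one coordinate given the others.
Proof. `Fintype.piFinset L` is in bijection with `L i × ∏_(j ≠ i) L_j` (`Fin.insertNthEquiv`, or: group the `p` by the restriction
to `j ≠ i`: the classes of the relation agreeing outside `i` have exactly `#L_i` elements; RSM-type argument). -/
def SpecONE : Prop :=
  ∀ (r : ℕ) (L : Fin r → Finset ℕ) (i : Fin r) (B : (Fin r → ℕ) → Prop) (c : ℝ), 0 ≤ c →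
    (∀ p ∈ Fintype.piFinset L,
      (((L i).filter (fun q => B (Function.update p i q))).card : ℝ) ≤ c * ((L i).card : ℝ)) →
    (((Fintype.piFinset L).filter B).card : ℝ) ≤ c * ((Fintype.piFinset L).card : ℝ)

end Pool.Agent.Lib.MP_8cb858_nt.PT
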