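import Pool.Agent.Lib.MP_8cb858_nt.PT.SpecA

/-!
# Specs, block C: the probability over `E` of a bad node (SpecNOD, SpecBAS of `DefN.lean`)

`Hz X` is the set of the pairs `E = (a, b)` of height at most `X`, `N = #L`, `T12`, `T3` = the primes of `L` of type (1,2), (3)
for `E`. Everything is a statement for `X ≥ X0`, `X0` depending on all other data. Module XXX = file `PT/XXX.lean`,
`theorem specXXX (hYYY : SpecYYY) .. : SpecXXX`, own lemmas in the namespace `Pool.Agent.Lib.MP_8cb858_nt.PT.XXXM`.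
-/

namespace Pool.Agent.Lib.MP_8cb858_nt.PT

open Polynomial NumberField IsDedekindDomain Pool.Agent.Lib.MP_8cb858_nt.SEL
open Pool.Agent.Lib.MP_8cb858_nt.PF
open scoped Classical WithZero

/-- **PRD** (200 lines; from EQZ). Product densities.
Proof. `N = ∏_(p ∈ S) p`; the map `ZMod N → ∏ ZMod p` is a bijection (Chinese remainder theorem; `ZMod.prodEquivPi` or induction on
`S` with `ZMod.chineseRemainder`), so the set `R' ⊆ ZMod N × ZMod N` of the pairs whose reductions are in `R p` for all `p ∈ S` has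
`∏ #(R p)` elements; EQZ for `R'`. -/
def SpecPRD : Prop :=
  ∀ (S : Finset ℕ) (R : ∀ p : ℕ, Set (ZMod p × ZMod p)) (ε : ℝ), (∀ p ∈ S, p.Prime) → 0 < ε →
    ∃ X0 : ℝ, ∀ X : ℝ, X0 ≤ X →
      |({q ∈ Hz X | ∀ p ∈ S, ((q.1 : ZMod p), (q.2 : ZMod p)) ∈ R p}.ncard : ℝ) -
        (∏ p ∈ S, ((R p).ncard : ℝ) / (p : ℝ) ^ 2) * ((Hz X).ncard : ℝ)| ≤ ε * ((Hz X).ncard : ℝ)

/-- **AXP** (100 lines; from PRD, TYZ). The auxiliary primes.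
Proof. `jx mm E < R` and `Y3 (mx mm E)` hold as soon as some `j < R` has `Y3 (mm j) E` (`Nat.sInf_mem`, `Nat.sInf_le`). The primes
`mm j`, `j < R`, are different; by PRD and TYZ the proportion of `E` with `¬ Y3 (mm j) E` for all `j < R` tends to
`∏_(j<R) (1 - (1 - p^-2)/3) ≤ (2/3 + 1/75)^R ≤ (7/10)^R` (`p ≥ 5`); `ε = (7/10)^R`. -/
def SpecAXP : Prop :=
  ∀ (R : ℕ) (mm : ℕ → ℕ), Function.Injective mm → (∀ j, (mm j).Prime ∧ 5 ≤ mm j) →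
    ∃ X0 : ℝ, ∀ X : ℝ, X0 ≤ X →
      ({E ∈ Hz X | ¬ (jx mm E < R ∧ Y3 (mx mm E) E.1 E.2)}.ncard : ℝ) ≤
        2 * (7 / 10) ^ R * ((Hz X).ncard : ℝ)

/-- **TYV** (250 lines; from PRD, TYZ). The types in a list.
Proof. `x_q = 1` if `Y12 q E`, `μ = 1/2`: `∑_E (∑_q (x_q - μ))^2 = ∑_(q,q') ∑_E (x_q - μ)(x_q' - μ)`. `q = q'`: `≤ #Hz`. `q ≠ q'`: by PRD
(`S = {q, q'}`, `{q}`) and TYZ (density `1/2 - 1/(2q)`) `∑_E (x_q - μ)(x_q' - μ) ≤ (1/(4 q q') + ε') #Hz`, and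
`∑_(q ≠ q') 1/(q q') ≤ (∑_(q ∈ L) 1/q)^2 ≤ N` (Cauchy-Schwarz: `(∑ 1/q)^2 ≤ N ∑ 1/q^2 ≤ N`). With `ε' = 1/N`: total `≤ 3 N #Hz`.
Chebyshev: the proportion with `|T12 - N/2| > κ N` is `≤ 3/(κ^2 N)`. The same for `Y3`, `μ = 1/3`, density `1/3 - 1/(3q^2)`. -/
def SpecTYV : Prop :=
  ∀ (κ : ℝ) (L : Finset ℕ), 0 < κ → (∀ q ∈ L, q.Prime ∧ 5 ≤ q) → ∃ X0 : ℝ, ∀ X : ℝ, X0 ≤ X →
    ({E ∈ Hz X | ¬ (|((L.filter (fun q => Y12 q E.1 E.2)).card : ℝ) - (L.card : ℝ) / 2| ≤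
        κ * L.card ∧
      |((L.filter (fun q => Y3 q E.1 E.2)).card : ℝ) - (L.card : ℝ) / 3| ≤ κ * L.card)}.ncard : ℝ) *
      (κ ^ 2 * L.card) ≤ 6 * ((Hz X).ncard : ℝ)

/-- **BNH** (120 lines). Hoeffding's inequality for subsets.
Proof. `∑_(z ⊆ Q) e^(t (2 #z - m)) = (e^t + e^(-t))^m = 2^m (cosh t)^m ≤ 2^m e^(m t^2/2)` (`Real.cosh_le_exp_half_sq`), `m = #Q`
(`Finset.prod_add`, or induction on `Q`). With `t = 2η` (`2 #z - m > 2 η m` for the first half of the sets): the number of `z` with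
`#z - m/2 > η m` is `≤ 2^m e^(m t^2/2 - 2 η m t) = 2^m e^(-2 η^2 m)`; complement for the other half. -/
def SpecBNH : Prop :=
  ∀ (Q : Finset ℕ) (η : ℝ), 0 < η →
    ((Q.powerset.filter (fun z => η * (Q.card : ℝ) < |(z.card : ℝ) - (Q.card : ℝ) / 2|)).card : ℝ) ≤
      2 * 2 ^ Q.card * Real.exp (-(2 * η ^ 2 * Q.card))

/-- **SWR** (200 lines). Sampling without replacement.
Proof. `T` has `t` elements, `A ⊆ T` has `a`, `|a - t/2| > η t`. For an `m`-subset `Q` of `T` put `x = #(Q ∩ A)`. Sums over all `m`-subsets: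
`∑ x = a C(t-1, m-1)`, `∑ x (x - 1) = a (a-1) C(t-2, m-2)` (double counting: `Finset.powersetCard`, number of `Q` containing given
elements). With `C = C(t, m)` the mean is `μ = a m/t` and the variance `m (a/t)(1 - a/t)(t-m)/(t-1) ≤ m/4 · t/(t-1) ≤ m/2`. If `|x - m/2| ≤ η m/2`
then `|x - μ| ≥ η m/2`; by Chebyshev the number of such `Q` is `≤ C (m/2)/(η m/2)^2 = 2 C/(η^2 m) ≤ C/2` if `m ≥ 4/η^2`. -/
def SpecSWR : Prop :=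
  ∀ (T A : Finset ℕ) (m : ℕ) (η : ℝ), 0 < η → A ⊆ T → m ≤ T.card → 2 ≤ T.card →
    4 / η ^ 2 ≤ (m : ℝ) → η * (T.card : ℝ) < |(A.card : ℝ) - (T.card : ℝ) / 2| →
    ((T.card.choose m : ℕ) : ℝ) ≤
      2 * (((T.powersetCard m).filter
        (fun Q => η / 2 * (m : ℝ) < |((Q ∩ A).card : ℝ) - (m : ℝ) / 2|)).card : ℝ)

/-- **CHR** (60 lines). Ratio of binomial coefficients.
Proof. `C(N,m)/C(t,m) = ∏_(i<m) (N-i)/(t-i)` and `(N - i)/(t - i) ≤ N/(t - m) ≤ 1/(1/2 - 2κ)` (`i < m ≤ κ N`, `t ≥ (1/2 - κ) N`), and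
`1/(1/2 - 2κ) = 2/(1 - 4κ) ≤ 2 e^(8 κ)` for `κ ≤ 1/8`. (`Nat.choose_eq_descFactorial_div_factorial` or induction on `m`.) -/
def SpecCHR : Prop :=
  ∀ (N t m : ℕ) (κ : ℝ), 0 < κ → κ ≤ 1 / 8 → (m : ℝ) ≤ κ * N → (1 / 2 - κ) * (N : ℝ) ≤ t → t ≤ N →
    ((N.choose m : ℕ) : ℝ) ≤ (2 * Real.exp (8 * κ)) ^ m * ((t.choose m : ℕ) : ℝ)

/-- **UBI** (300 lines; from FMZ, BNH, SWR, CHR). Lemma U.
Proof. `κ = min(η^2/64, 1/16)`, `m = ⌊κ N⌋`, `N0` such that `m ≥ 16/η^2 + 2` etc. for `N ≥ N0`. For an `m`-subset `Q` of `L` let `Z_Q` be the set of the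
`z ⊆ Q` with `(η/2) m < |#z - m/2|`: `#Z_Q ≤ 2 · 2^m e^(-η^2 m/2)` (BNH). FMZ for all these `Q` (finitely many, `X0` the maximum):
`#{(E, z) : E ∈ Hz, Y12 on Q, z ≠ 0, pattern in Z_Q} ≤ C K1^ω 2 e^(-η^2 m/2) 2^-m e^(2m/q_min) #Hz` (`(1+1/q)^2 ≤ e^(2/q)`, `q ≥ P1`,
`P1 ≥ 64/η^2`, so `e^(2m/q) ≤ e^(η^2 m/32)`). Let `(E, z)` be biased: `|T12 - N/2| ≤ κ N`, `z ≠ 0`, `|#{q ∈ T12 : Tz} - #T12/2| > η #T12`. SWR with
`T = T12`, `A` = the primes of `T12` where `z` is NOT trivial (also biased): at least `C(T,m)/2` of the `m`-subsets `Q` of `T12 ⊆ L` have `(E, z)` in their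
set (pattern `= Q ∩ A`). So `(1/2) #biased · min C(T,m) ≤ ∑_Q ..`, and with CHR (`C(N,m) ≤ (2 e^(8κ))^m C(T,m)`):
`#biased ≤ 4 C K1^ω e^(m (8κ - η^2/2 + η^2/32)) #Hz ≤ 4 C K1^ω e^(-η^2 m/4) #Hz` (`8κ ≤ η^2/8`). The number of `E` is at most the number of
`(E, z)`. `c = η^2 κ/8` (`m ≥ κN/2`). -/
def SpecUBI : Prop :=
  ∀ η : ℝ, 0 < η → η ≤ 1 → ∃ (κ c C K1 : ℝ) (P1 N0 : ℕ), 0 < κ ∧ 0 < c ∧ 1 ≤ C ∧ 1 ≤ K1 ∧
    ∀ (L : Finset ℕ) (D : ℕ), Squarefree D → (∀ q ∈ L, q.Prime ∧ P1 ≤ q ∧ ¬ q ∣ D) →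
      N0 ≤ L.card → ∃ X0 : ℝ, ∀ X : ℝ, X0 ≤ X →
      ({E ∈ Hz X | |((L.filter (fun q => Y12 q E.1 E.2)).card : ℝ) - (L.card : ℝ) / 2| ≤
          κ * L.card ∧
        ∃ z : Sl E.1 E.2 D, z ≠ 0 ∧ η * ((L.filter (fun q => Y12 q E.1 E.2)).card : ℝ) <
          |((L.filter (fun q => Y12 q E.1 E.2 ∧ Tz q z)).card : ℝ) -
            ((L.filter (fun q => Y12 q E.1 E.2)).card : ℝ) / 2|}.ncard : ℝ) ≤
        C * K1 ^ D.primeFactors.card * Real.exp (-(c * L.card)) * ((Hz X).ncard : ℝ)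

-- **NOD** (200 lines): `theorem specNOD (hAXP : SpecAXP) (hTYV : SpecTYV) (hUBI : SpecUBI) (hEQZ : SpecEQZ) : SpecNOD` (file PT/NOD.lean).
-- Proof. WLOG `η ≤ 1`. `κ' = min(κ, κ_U)`. Outside the sets of AXP (`R = r^2`), TYV (`κ'`) and UBI (for `D = D0 mm j`, all `j < r^2`; squarefree
-- with `ω(D) ≤ 3r + 1`; `q ∤ D`) the node is good (`mx mm E = mm j` with `j = jx mm E < r^2`). Proportions: `2 (7/10)^(r^2)`,
-- `6/(κ'^2 exp(r0 r))`, `r^2 C K1^(3r+1) exp(-c exp(r0 r))`; each is `≤ exp(-B r)/3` for `r ≥ r0`, `r0` large (`r0 ≥ B + 1`, ..).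
-- **BAS** (150 lines): `theorem specBAS (hFMZ : SpecFMZ) (hAXP : SpecAXP) (hGEN : SpecGEN) (hEQZ : SpecEQZ) : SpecBAS` (file PT/BAS.lean).
-- Proof. AXP for `R = r^2`: `2 (7/10)^(r^2) ≤ ε/2`. For `j < r^2`, `D = D1 mm j` (squarefree): FMZ with `Q = ∅`, `Z = {∅}`:
-- `∑_E (sc E D - 1) ≤ C K1^(ω(D1)+1) #Hz`, so the proportion of `E` with `sc E D > 2^(δ r)` is at most `C K1^(ω(D1)+1)/(2^(δ r) - 1)`; `ω(D1) ≤ r/r0`,
-- `K1^(r/r0) ≤ 2^(δ r/2)` for large `r0`; sum over `j < r^2`: `≤ ε/2`.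

end Pool.Agent.Lib.MP_8cb858_nt.PT
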