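import Pool.Agent.Lib.MP_8cb858_nt.PU.WIN

/-!
# Classes of the numbers `D ≤ Y` with the same small part and the same windows
-/

namespace Pool.Agent.Lib.MP_8cb858_nt.PT.TDM

open Finset

/-- large primes of `D` -/
def LA (w D : ℕ) : Finset ℕ := D.primeFactors.filter (fun p => w < p)

lemma mem_LA {w D p : ℕ} : p ∈ LA w D ↔ p.Prime ∧ p ∣ D ∧ D ≠ 0 ∧ w < p := by
  unfold LA
  rw [mem_filter, Nat.mem_primeFactors]
  tauto

/-- the window of `p` -/
noncomputable def win (δ : ℝ) (p : ℕ) : ℕ := ⌊Real.log p / Real.log (1 + δ)⌋₊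

lemma win_le {δ : ℝ} (hδ : 0 < δ) {p q : ℕ} (hp : 0 < p) (hq : 0 < q)
    (h : win δ p = win δ q) : (q : ℝ) ≤ (1 + δ) * p := by
  have hl : 0 < Real.log (1 + δ) := Real.log_pos (by linarith)
  have hp' : (0 : ℝ) < p := by exact_mod_cast hp
  have hq' : (0 : ℝ) < q := by exact_mod_cast hq
  have h1 : Real.log q / Real.log (1 + δ) < (win δ q : ℝ) + 1 := by
    unfold win; exact Nat.lt_floor_add_one _
  have h2 : (win δ p : ℝ) ≤ Real.log p / Real.log (1 + δ) := by
    unfold win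
    refine Nat.floor_le (div_nonneg (Real.log_nonneg ?_) hl.le)
    exact_mod_cast hp
  rw [← h] at h1
  rw [div_lt_iff₀ hl] at h1
  rw [le_div_iff₀ hl] at h2
  have h3 : Real.log q ≤ Real.log ((1 + δ) * p) := by
    rw [Real.log_mul (by linarith) hp'.ne']
    linarith
  exact (Real.log_le_log_iff hq' (by positivity)).1 h3

/-- primes of `(w, Y]` in the window `j` -/
noncomputable def JJ (δ : ℝ) (w Y j : ℕ) : Finset ℕ :=
  (Icc 1 Y).filter (fun p => p.Prime ∧ w < p ∧ win δ p = j)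

lemma mem_JJ {δ : ℝ} {w Y j p : ℕ} : p ∈ JJ δ w Y j ↔ p ≤ Y ∧ p.Prime ∧ w < p ∧ win δ p = j := by
  unfold JJ
  rw [mem_filter, mem_Icc]
  constructor
  · rintro ⟨⟨_, h1⟩, h2⟩; exact ⟨h1, h2⟩
  · rintro ⟨h1, h2⟩; exact ⟨⟨h2.1.one_lt.le, h1⟩, h2⟩

/-- the class of `D` -/
noncomputable def key (δ : ℝ) (w D : ℕ) : ℕ × Finset ℕ :=
  (D / ∏ p ∈ LA w D, p, (LA w D).image (win δ))

/-- `D` is good -/
structure Gd (δ E : ℝ) (w Y M r0 D : ℕ) : Prop where
  pos : 1 ≤ D
  sq : ∀ p : ℕ, p.Prime → w < p → ¬ p ^ 2 ∣ D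
  inj : Set.InjOn (win δ) (LA w D)
  leM : (LA w D).card ≤ M
  sm : r0 * (D.primeFactors.filter (fun p => p ≤ w)).card ≤ (LA w D).card
  ge : r0 ≤ (LA w D).card
  rich : ∀ p ∈ LA w D, E ≤ ((JJ δ w Y (win δ p)).card : ℝ)
  leY : (D : ℝ) * (1 + δ) ^ M ≤ Y

variable {δ E : ℝ} {w Y M r0 : ℕ}

lemma prod_LA_dvd (D : ℕ) : (∏ p ∈ LA w D, p) ∣ D := by
  refine (Finset.prod_primes_dvd D (fun p hp => (mem_LA.1 hp).1.prime) fun p hp => (mem_LA.1 hp).2.1)

lemma key_mul (D : ℕ) : (key δ w D).1 * ∏ p ∈ LA w D, p = D := by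
  unfold key
  exact Nat.div_mul_cancel (prod_LA_dvd D)

/-- the small part has only small primes -/
lemma key_smooth {D : ℕ} (h : Gd δ E w Y M r0 D) {p : ℕ} (hp : p.Prime) (hd : p ∣ (key δ w D).1) :
    p ≤ w := by
  by_contra hlt
  push Not at hlt
  have hpos := h.pos
  have hk := key_mul (δ := δ) (w := w) D
  have hmem : p ∈ LA w D := mem_LA.2 ⟨hp, by rw [← hk]; exact hd.mul_right _, by omega, hlt⟩
  have h2 : p ∣ ∏ p ∈ LA w D, p := Finset.dvd_prod_of_mem _ hmem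
  refine h.sq p hp hlt ?_
  rw [sq, ← hk]
  exact mul_dvd_mul hd h2

lemma key_pos {D : ℕ} (h : Gd δ E w Y M r0 D) : 0 < (key δ w D).1 := by
  have hk := key_mul (δ := δ) (w := w) D
  have hpos := h.pos
  rcases Nat.eq_zero_or_pos (key δ w D).1 with h0 | h0
  · rw [h0, zero_mul] at hk; omega
  · exact h0

lemma card_key {D : ℕ} (h : Gd δ E w Y M r0 D) : (key δ w D).2.card = (LA w D).card := by
  unfold key
  exact Finset.card_image_of_injOn h.inj

lemma key_omega {D : ℕ} (h : Gd δ E w Y M r0 D) :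
    r0 * (key δ w D).1.primeFactors.card ≤ (key δ w D).2.card := by
  rw [card_key h]
  refine le_trans ?_ h.sm
  refine Nat.mul_le_mul_left _ (card_le_card fun p hp => ?_)
  rw [Nat.mem_primeFactors] at hp
  rw [mem_filter, Nat.mem_primeFactors]
  have hk := key_mul (δ := δ) (w := w) D
  have hpos := h.pos
  exact ⟨⟨hp.1, by rw [← hk]; exact hp.2.1.mul_right _, by omega⟩, key_smooth h hp.1 hp.2.1⟩

/-- large primes of a product -/
lemma LA_prod {m r : ℕ} (hm : 0 < m) (hsm : ∀ p : ℕ, p.Prime → p ∣ m → p ≤ w) (p : Fin r → ℕ)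
    (hp : ∀ j, (p j).Prime ∧ w < p j) : LA w (m * ∏ j, p j) = univ.image p := by
  ext q
  rw [mem_LA, mem_image]
  constructor
  · rintro ⟨hq, hd, _, hw⟩
    rcases hq.dvd_mul.1 hd with h | h
    · exact absurd (hsm q hq h) (by omega)
    · obtain ⟨j, _, hj⟩ := (Prime.dvd_finsetProd_iff hq.prime _).1 h
      exact ⟨j, mem_univ _, ((Nat.prime_dvd_prime_iff_eq hq (hp j).1).1 hj).symm⟩
  · rintro ⟨j, _, rfl⟩
    refine ⟨(hp j).1, ?_, ?_, (hp j).2⟩
    · exact (Finset.dvd_prod_of_mem _ (mem_univ j)).mul_left _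
    · exact Nat.mul_ne_zero hm.ne' (Finset.prod_ne_zero_iff.2 fun j _ => (hp j).1.ne_zero)

lemma key_prod {m r : ℕ} (hm : 0 < m) (hsm : ∀ p : ℕ, p.Prime → p ∣ m → p ≤ w) (p : Fin r → ℕ)
    (hp : ∀ j, (p j).Prime ∧ w < p j) (e : Fin r → ℕ) (he : Function.Injective e)
    (hw : ∀ j, win δ (p j) = e j) : key δ w (m * ∏ j, p j) = (m, univ.image e) := by
  unfold key
  rw [LA_prod hm hsm p hp]
  have hinj : Function.Injective p := by
    intro i j hij
    apply he
    rw [← hw i, ← hw j, hij]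
  have h1 : ∏ q ∈ univ.image p, q = ∏ j, p j := by
    rw [Finset.prod_image fun i _ j _ h => hinj h]
  have h2 : 0 < ∏ j, p j := Finset.prod_pos fun j _ => (hp j).1.pos
  rw [h1, Nat.mul_div_cancel _ h2, Finset.image_image]
  congr 1
  refine Finset.image_congr fun j _ => ?_
  exact hw j

/-- the lists of a class -/
noncomputable def LL (δ : ℝ) (w Y : ℕ) (S : Finset ℕ) (j : Fin S.card) : Finset ℕ :=
  JJ δ w Y (S.orderEmbOfFin rfl j)

lemma image_emb (S : Finset ℕ) : univ.image (fun j : Fin S.card => S.orderEmbOfFin rfl j) = S := by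
  have := Finset.range_orderEmbOfFin S rfl
  apply Finset.coe_injective
  rw [Finset.coe_image, Finset.coe_univ, Set.image_univ]
  exact this

lemma mem_LL {S : Finset ℕ} {p : Fin S.card → ℕ} (h : p ∈ Fintype.piFinset (LL δ w Y S)) (j) :
    p j ≤ Y ∧ (p j).Prime ∧ w < p j ∧ win δ (p j) = S.orderEmbOfFin rfl j := by
  rw [Fintype.mem_piFinset] at h
  exact mem_JJ.1 (h j)

/-- every good number is in its class -/
lemma cover {D : ℕ} (h : Gd δ E w Y M r0 D) (hDY : D ≤ Y) :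
    ∃ p ∈ Fintype.piFinset (LL δ w Y (key δ w D).2), D = (key δ w D).1 * ∏ j, p j := by
  classical
  have hpos := h.pos
  set S := (key δ w D).2 with hS
  have hS' : S = (LA w D).image (win δ) := rfl
  have hex : ∀ j : Fin S.card, ∃ q ∈ LA w D, win δ q = S.orderEmbOfFin rfl j := by
    intro j
    have : S.orderEmbOfFin rfl j ∈ S := Finset.orderEmbOfFin_mem S rfl j
    exact mem_image.1 (show S.orderEmbOfFin rfl j ∈ (LA w D).image (win δ) from this)
  choose p hp1 hp2 using hex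
  refine ⟨p, ?_, ?_⟩
  · rw [Fintype.mem_piFinset]
    intro j
    have h1 := mem_LA.1 (hp1 j)
    exact mem_JJ.2 ⟨(Nat.le_of_dvd (by omega) h1.2.1).trans hDY, h1.1, h1.2.2.2, hp2 j⟩
  · have hinj : Function.Injective p := by
      intro i j hij
      have h1 : S.orderEmbOfFin rfl i = S.orderEmbOfFin rfl j := by rw [← hp2 i, ← hp2 j, hij]
      exact (S.orderEmbOfFin rfl).injective h1
    have himg : univ.image p = LA w D := by
      refine Finset.eq_of_subset_of_card_le ?_ ?_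
      · intro q hq
        obtain ⟨j, _, rfl⟩ := mem_image.1 hq
        exact hp1 j
      · rw [Finset.card_image_of_injective _ hinj, Finset.card_univ, Fintype.card_fin, hS,
          card_key h]
    have h1 : ∏ j, p j = ∏ q ∈ LA w D, q := by
      rw [← himg, Finset.prod_image fun i _ j _ h => hinj h]
    rw [h1, key_mul]

/-- the elements of the class of a good number are at most `Y` -/
lemma class_le (hδ : 0 < δ) {D : ℕ} (h : Gd δ E w Y M r0 D) (hDY : D ≤ Y)
    {p : Fin (key δ w D).2.card → ℕ} (hp : p ∈ Fintype.piFinset (LL δ w Y (key δ w D).2)) :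
    (key δ w D).1 * ∏ j, p j ≤ Y := by
  obtain ⟨p0, hp0, hD⟩ := cover h hDY
  have h1 : ∀ j, (p j : ℝ) ≤ (1 + δ) * p0 j := fun j =>
    win_le hδ (mem_LL hp0 j).2.1.pos (mem_LL hp j).2.1.pos
      ((mem_LL hp0 j).2.2.2.trans (mem_LL hp j).2.2.2.symm)
  have h2 : ∏ j, (p j : ℝ) ≤ (1 + δ) ^ (key δ w D).2.card * ∏ j, (p0 j : ℝ) := by
    calc ∏ j, (p j : ℝ) ≤ ∏ j, ((1 + δ) * (p0 j : ℝ)) :=
          Finset.prod_le_prod (fun j _ => Nat.cast_nonneg _) fun j _ => h1 j
      _ = _ := by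
          rw [Finset.prod_mul_distrib, Finset.prod_const, Finset.card_univ, Fintype.card_fin]
  have h3 : (1 + δ) ^ (key δ w D).2.card ≤ (1 + δ) ^ M := by
    refine pow_le_pow_right₀ (by linarith) ?_
    rw [card_key h]; exact h.leM
  have h4 : (((key δ w D).1 * ∏ j, p j : ℕ) : ℝ) ≤ Y := by
    push_cast
    have hD' : (D : ℝ) = (key δ w D).1 * ∏ j, (p0 j : ℝ) := by exact_mod_cast hD
    calc ((key δ w D).1 : ℝ) * ∏ j, (p j : ℝ)
        ≤ (key δ w D).1 * ((1 + δ) ^ (key δ w D).2.card * ∏ j, (p0 j : ℝ)) :=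
          mul_le_mul_of_nonneg_left h2 (Nat.cast_nonneg _)
      _ = (D : ℝ) * (1 + δ) ^ (key δ w D).2.card := by rw [hD']; ring
      _ ≤ (D : ℝ) * (1 + δ) ^ M := mul_le_mul_of_nonneg_left h3 (Nat.cast_nonneg _)
      _ ≤ Y := h.leY
  exact_mod_cast h4

lemma class_pos {D : ℕ} (h : Gd δ E w Y M r0 D)
    {p : Fin (key δ w D).2.card → ℕ} (hp : p ∈ Fintype.piFinset (LL δ w Y (key δ w D).2)) :
    1 ≤ (key δ w D).1 * ∏ j, p j :=
  Nat.mul_pos (key_pos h) (Finset.prod_pos fun j _ => (mem_LL hp j).2.1.pos)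

lemma key_class {D : ℕ} (h : Gd δ E w Y M r0 D)
    {p : Fin (key δ w D).2.card → ℕ} (hp : p ∈ Fintype.piFinset (LL δ w Y (key δ w D).2)) :
    key δ w ((key δ w D).1 * ∏ j, p j) = key δ w D := by
  rw [key_prod (key_pos h) (fun q hq hd => key_smooth h hq hd) p
    (fun j => ⟨(mem_LL hp j).2.1, (mem_LL hp j).2.2.1⟩)
    (fun j => (key δ w D).2.orderEmbOfFin rfl j) ((key δ w D).2.orderEmbOfFin rfl).injective
    (fun j => (mem_LL hp j).2.2.2), image_emb]

/-- injectivity inside a class -/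
lemma class_inj {D : ℕ} (h : Gd δ E w Y M r0 D)
    {p q : Fin (key δ w D).2.card → ℕ} (hp : p ∈ Fintype.piFinset (LL δ w Y (key δ w D).2))
    (hq : q ∈ Fintype.piFinset (LL δ w Y (key δ w D).2))
    (he : (key δ w D).1 * ∏ j, p j = (key δ w D).1 * ∏ j, q j) : p = q := by
  have h1 := LA_prod (w := w) (key_pos h) (fun q hq hd => key_smooth h hq hd) p
    (fun j => ⟨(mem_LL hp j).2.1, (mem_LL hp j).2.2.1⟩)
  have h2 := LA_prod (w := w) (key_pos h) (fun q hq hd => key_smooth h hq hd) q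
    (fun j => ⟨(mem_LL hq j).2.1, (mem_LL hq j).2.2.1⟩)
  rw [he, h2] at h1
  funext j
  have h3 : p j ∈ univ.image q := by rw [h1]; exact mem_image_of_mem _ (mem_univ j)
  obtain ⟨k, _, hk⟩ := mem_image.1 h3
  have h4 : (key δ w D).2.orderEmbOfFin rfl k = (key δ w D).2.orderEmbOfFin rfl j := by
    rw [← (mem_LL hq k).2.2.2, ← (mem_LL hp j).2.2.2, hk]
  have h5 : k = j := ((key δ w D).2.orderEmbOfFin rfl).injective h4
  rw [← hk, h5]

/-- the numbers of the class sizes add up to at most `Y` -/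
lemma class_sum (hδ : 0 < δ) (K : Finset (ℕ × Finset ℕ))
    (hK : ∀ c ∈ K, ∃ D, D ≤ Y ∧ Gd δ E w Y M r0 D ∧ key δ w D = c) :
    ∑ c ∈ K, ∏ j, (LL δ w Y c.2 j).card ≤ Y := by
  classical
  have h1 : ∀ c ∈ K, ∏ j, (LL δ w Y c.2 j).card ≤
      ((Icc 1 Y).filter (fun D => key δ w D = c)).card := by
    intro c hc
    obtain ⟨D, hDY, hD, rfl⟩ := hK c hc
    rw [← Fintype.card_piFinset]
    refine card_le_card_of_injOn (fun p => (key δ w D).1 * ∏ j, p j) ?_ ?_
    · intro p hp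
      have hp' : p ∈ Fintype.piFinset (LL δ w Y (key δ w D).2) := hp
      rw [mem_coe, mem_filter, mem_Icc]
      exact ⟨⟨class_pos hD hp', class_le hδ hD hDY hp'⟩, key_class hD hp'⟩
    · intro p hp q hq he
      exact class_inj hD hp hq he
  calc ∑ c ∈ K, ∏ j, (LL δ w Y c.2 j).card
      ≤ ∑ c ∈ K, ((Icc 1 Y).filter (fun D => key δ w D = c)).card := Finset.sum_le_sum h1
    _ = (K.biUnion (fun c => (Icc 1 Y).filter (fun D => key δ w D = c))).card := by
        rw [Finset.card_biUnion]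
        intro c _ c' _ hne
        rw [Function.onFun, Finset.disjoint_left]
        intro D hD hD'
        exact hne ((mem_filter.1 hD).2.symm.trans (mem_filter.1 hD').2)
    _ ≤ (Icc 1 Y).card := by
        refine card_le_card fun D hD => ?_
        obtain ⟨c, _, hc⟩ := mem_biUnion.1 hD
        exact (mem_filter.1 hc).1
    _ = Y := by simp

end Pool.Agent.Lib.MP_8cb858_nt.PT.TDM
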