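import Pool.Agent.Lib.MP_8cb858_nt.PT.SpecC
import Pool.Agent.Lib.MP_8cb858_nt.PT.SpecA
import Pool.Agent.Lib.MP_8cb858_nt.PT.DefN

section
/-!
Module AXP: the auxiliary primes.
-/
namespace Pool.Agent.Lib.MP_8cb858_nt.PT

open scoped Classical

namespace AXPM

/-- the residue classes modulo `p` which are not of type (3) -/
def Nr (p : ℕ) : Set (ZMod p × ZMod p) := {q | ¬ ∀ x : ZMod p, x ^ 3 + q.1 * x + q.2 ≠ 0}

theorem ratio (hTYZ : SpecTYZ) {p : ℕ} (hp : p.Prime) (h5 : 5 ≤ p) :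
    ((Nr p).ncard : ℝ) / (p : ℝ) ^ 2 ≤ 7 / 10 := by
  have := Fact.mk hp
  obtain ⟨-, h2, -, -⟩ := hTYZ p hp h5
  set T : Set (ZMod p × ZMod p) := {q | ∀ x : ZMod p, x ^ 3 + q.1 * x + q.2 ≠ 0} with hT
  have hc : Nr p = Tᶜ := rfl
  have h3 : T.ncard + (Nr p).ncard = p ^ 2 := by
    rw [hc, Set.ncard_add_ncard_compl, Nat.card_prod, Nat.card_zmod, sq]
  have h2' : 3 * (T.ncard : ℝ) + 1 = (p : ℝ) ^ 2 := by exact_mod_cast h2
  have h3' : (T.ncard : ℝ) + ((Nr p).ncard : ℝ) = (p : ℝ) ^ 2 := by exact_mod_cast h3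
  have h5' : (5 : ℝ) ≤ p := by exact_mod_cast h5
  rw [div_le_iff₀ (by positivity)]
  nlinarith

end AXPM

open AXPM in
theorem specAXP (hPRD : SpecPRD) (hTYZ : SpecTYZ) (hEQZ : SpecEQZ) : SpecAXP := by
  intro R mm hinj hmm
  set S : Finset ℕ := (Finset.range R).image mm with hS
  have hcard : S.card = R := by
    rw [hS, Finset.card_image_of_injective _ hinj, Finset.card_range]
  have hSp : ∀ p ∈ S, p.Prime ∧ 5 ≤ p := by
    intro p hp
    obtain ⟨j, -, rfl⟩ := Finset.mem_image.1 hp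
    exact hmm j
  have hε : (0 : ℝ) < (7 / 10) ^ R := by positivity
  obtain ⟨X0, hX0⟩ := hPRD S Nr ((7 / 10) ^ R) (fun p hp => (hSp p hp).1) hε
  refine ⟨X0, fun X hX => ?_⟩
  have h1 := hX0 X hX
  have hsub : {E ∈ Hz X | ¬ (jx mm E < R ∧ Y3 (mx mm E) E.1 E.2)} ⊆
      {q ∈ Hz X | ∀ p ∈ S, ((q.1 : ZMod p), (q.2 : ZMod p)) ∈ Nr p} := by
    rintro E ⟨hE, hn⟩
    refine ⟨hE, fun p hp => ?_⟩
    obtain ⟨j, hj, rfl⟩ := Finset.mem_image.1 hp
    have hj' : j < R := Finset.mem_range.1 hj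
    intro hY
    apply hn
    have hmem : j ∈ {j | Y3 (mm j) E.1 E.2} := hY
    exact ⟨(Nat.sInf_le hmem).trans_lt hj', Nat.sInf_mem ⟨j, hmem⟩⟩
  have h2 : ({E ∈ Hz X | ¬ (jx mm E < R ∧ Y3 (mx mm E) E.1 E.2)}.ncard : ℝ) ≤
      ({q ∈ Hz X | ∀ p ∈ S, ((q.1 : ZMod p), (q.2 : ZMod p)) ∈ Nr p}.ncard : ℝ) := by
    exact_mod_cast Set.ncard_le_ncard hsub ((hEQZ.1 X).subset fun q hq => hq.1)
  have h3 : ∏ p ∈ S, ((Nr p).ncard : ℝ) / (p : ℝ) ^ 2 ≤ (7 / 10) ^ R := by
    calc ∏ p ∈ S, ((Nr p).ncard : ℝ) / (p : ℝ) ^ 2 ≤ ∏ _p ∈ S, (7 / 10 : ℝ) :=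
          Finset.prod_le_prod (fun p _ => by positivity)
            fun p hp => ratio hTYZ (hSp p hp).1 (hSp p hp).2
      _ = (7 / 10) ^ R := by rw [Finset.prod_const, hcard]
  have h4 := (abs_le.1 h1).2
  have h5 : (0 : ℝ) ≤ ((Hz X).ncard : ℝ) := Nat.cast_nonneg _
  have h6 := mul_le_mul_of_nonneg_right h3 h5
  linarith

end Pool.Agent.Lib.MP_8cb858_nt.PT
end

section
/-!
# Module BLK: no success in a block
-/
set_option autoImplicit false

namespace Pool.Agent.Lib.MP_8cb858_nt.PT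

open Finset
open scoped Classical

theorem specBLK : SpecBLK := by
  intro r L T I θ hθ h
  have h1 : (Fintype.piFinset L).filter (fun p => ∀ i ∈ I, ¬ T i (p i)) =
      Fintype.piFinset (fun i => if i ∈ I then (L i).filter (fun q => ¬ T i q) else L i) := by
    ext p
    rw [mem_filter, Fintype.mem_piFinset, Fintype.mem_piFinset]
    constructor
    · rintro ⟨h2, h3⟩ i
      by_cases hi : i ∈ I
      · rw [if_pos hi, mem_filter]
        exact ⟨h2 i, h3 i hi⟩
      · rw [if_neg hi]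
        exact h2 i
    · intro h2
      refine ⟨fun i => ?_, fun i hi => ?_⟩
      · have h3 := h2 i
        by_cases hi : i ∈ I
        · rw [if_pos hi, mem_filter] at h3
          exact h3.1
        · rwa [if_neg hi] at h3
      · have h3 := h2 i
        rw [if_pos hi, mem_filter] at h3
        exact h3.2
  rw [h1, Fintype.card_piFinset, Fintype.card_piFinset]
  push_cast
  have h2 : ∏ i : Fin r, (((if i ∈ I then (L i).filter (fun q => ¬ T i q) else L i).card : ℕ) : ℝ) ≤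
      ∏ i : Fin r, ((if i ∈ I then θ else 1) * ((L i).card : ℝ)) := by
    apply prod_le_prod
    · intro i _
      positivity
    · intro i _
      by_cases hi : i ∈ I
      · rw [if_pos hi, if_pos hi]
        exact h i hi
      · rw [if_neg hi, if_neg hi, one_mul]
  refine h2.trans (le_of_eq ?_)
  rw [prod_mul_distrib, prod_ite_mem]
  simp

end Pool.Agent.Lib.MP_8cb858_nt.PT
end

section
/-!
# BNH: Hoeffding's inequality for subsets
-/
namespace Pool.Agent.Lib.MP_8cb858_nt.PT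

namespace BNHM

theorem gen (Q : Finset ℕ) (t : ℝ) :
    ∑ z ∈ Q.powerset, Real.exp (t * (2 * z.card - Q.card)) ≤
      2 ^ Q.card * Real.exp (Q.card * (t ^ 2 / 2)) := by
  have h1 := Finset.sum_pow_mul_eq_add_pow (Real.exp t) (Real.exp (-t)) Q
  have h2 : ∀ z ∈ Q.powerset, Real.exp (t * (2 * z.card - Q.card)) =
      Real.exp t ^ z.card * Real.exp (-t) ^ (Q.card - z.card) := by
    intro z hz
    rw [← Real.exp_nat_mul, ← Real.exp_nat_mul, ← Real.exp_add,
      Nat.cast_sub (Finset.card_le_card (Finset.mem_powerset.1 hz))]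
    congr 1
    ring
  rw [Finset.sum_congr rfl h2, h1, Real.exp_nat_mul, ← mul_pow]
  refine pow_le_pow_left₀ (by positivity) ?_ _
  have h3 := Real.cosh_le_exp_half_sq t
  rw [Real.cosh_eq] at h3
  linarith

end BNHM

theorem specBNH : SpecBNH := by
  intro Q η hη
  have h1 := BNHM.gen Q (2 * η)
  have h2 := BNHM.gen Q (-(2 * η))
  have key : ∀ z ∈ Q.powerset.filter (fun z => η * (Q.card : ℝ) <
      |(z.card : ℝ) - (Q.card : ℝ) / 2|), (1 : ℝ) ≤
      Real.exp (-(4 * η ^ 2 * Q.card)) * (Real.exp (2 * η * (2 * z.card - Q.card)) +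
        Real.exp (-(2 * η) * (2 * z.card - Q.card))) := by
    intro z hz
    have hz' := (Finset.mem_filter.1 hz).2
    rw [mul_add, ← Real.exp_add, ← Real.exp_add]
    rcases lt_abs.1 hz' with h | h
    · have h3 : (1 : ℝ) ≤ Real.exp (-(4 * η ^ 2 * Q.card) + 2 * η * (2 * z.card - Q.card)) := by
        apply Real.one_le_exp
        nlinarith
      have h4 := Real.exp_pos (-(4 * η ^ 2 * Q.card) + -(2 * η) * (2 * z.card - Q.card))
      linarith
    · have h3 : (1 : ℝ) ≤ Real.exp (-(4 * η ^ 2 * Q.card) + -(2 * η) * (2 * z.card - Q.card)) := by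
        apply Real.one_le_exp
        nlinarith
      have h4 := Real.exp_pos (-(4 * η ^ 2 * Q.card) + 2 * η * (2 * z.card - Q.card))
      linarith
  calc ((Q.powerset.filter (fun z => η * (Q.card : ℝ) <
        |(z.card : ℝ) - (Q.card : ℝ) / 2|)).card : ℝ)
      = ∑ z ∈ Q.powerset.filter (fun z => η * (Q.card : ℝ) <
        |(z.card : ℝ) - (Q.card : ℝ) / 2|), (1 : ℝ) := by simp
    _ ≤ ∑ z ∈ Q.powerset.filter (fun z => η * (Q.card : ℝ) <
        |(z.card : ℝ) - (Q.card : ℝ) / 2|), Real.exp (-(4 * η ^ 2 * Q.card)) *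
        (Real.exp (2 * η * (2 * z.card - Q.card)) +
        Real.exp (-(2 * η) * (2 * z.card - Q.card))) := Finset.sum_le_sum key
    _ ≤ ∑ z ∈ Q.powerset, Real.exp (-(4 * η ^ 2 * Q.card)) *
        (Real.exp (2 * η * (2 * z.card - Q.card)) +
        Real.exp (-(2 * η) * (2 * z.card - Q.card))) :=
        Finset.sum_le_sum_of_subset_of_nonneg (Finset.filter_subset _ _)
          fun z _ _ => by positivity
    _ = Real.exp (-(4 * η ^ 2 * Q.card)) *
        (∑ z ∈ Q.powerset, Real.exp (2 * η * (2 * z.card - Q.card)) +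
        ∑ z ∈ Q.powerset, Real.exp (-(2 * η) * (2 * z.card - Q.card))) := by
        rw [← Finset.mul_sum, Finset.sum_add_distrib]
    _ ≤ Real.exp (-(4 * η ^ 2 * Q.card)) *
        (2 ^ Q.card * Real.exp (Q.card * ((2 * η) ^ 2 / 2)) +
          2 ^ Q.card * Real.exp (Q.card * ((-(2 * η)) ^ 2 / 2))) :=
        mul_le_mul_of_nonneg_left (add_le_add h1 h2) (Real.exp_pos _).le
    _ = 2 * 2 ^ Q.card * Real.exp (-(2 * η ^ 2 * Q.card)) := by
        have e1 : Real.exp (-(2 * η ^ 2 * Q.card)) =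
            Real.exp (-(4 * η ^ 2 * Q.card)) * Real.exp (Q.card * ((2 * η) ^ 2 / 2)) := by
          rw [← Real.exp_add]
          congr 1
          ring
        rw [e1, show (-(2 * η)) ^ 2 = (2 * η) ^ 2 by ring]
        ring

end Pool.Agent.Lib.MP_8cb858_nt.PT
end

section
/-!
# Module ONE: a condition on one coordinate given the others
-/
set_option autoImplicit false

namespace Pool.Agent.Lib.MP_8cb858_nt.PT.ONEM

open Finset
open scoped Classical

/-- Resampling one coordinate. -/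
lemma resample {r : ℕ} (L : Fin r → Finset ℕ) (i : Fin r) (F : (Fin r → ℕ) → ℝ) :
    ∑ p ∈ Fintype.piFinset L, ∑ q ∈ L i, F (Function.update p i q) =
      ((L i).card : ℝ) * ∑ p ∈ Fintype.piFinset L, F p := by
  rw [← sum_product' (Fintype.piFinset L) (L i) (fun p q => F (Function.update p i q))]
  have h1 : ∑ x ∈ Fintype.piFinset L ×ˢ L i, F (Function.update x.1 i x.2) =
      ∑ x ∈ Fintype.piFinset L ×ˢ L i, F x.1 := by
    have hmem : ∀ x ∈ Fintype.piFinset L ×ˢ L i,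
        ((Function.update x.1 i x.2, x.1 i) : (Fin r → ℕ) × ℕ) ∈ Fintype.piFinset L ×ˢ L i := by
      intro x hx
      rw [mem_product, Fintype.mem_piFinset] at hx ⊢
      refine ⟨fun j => ?_, hx.1 i⟩
      by_cases hj : j = i
      · subst hj
        simpa using hx.2
      · simpa [Function.update_of_ne hj] using hx.1 j
    have hinv : ∀ x : (Fin r → ℕ) × ℕ,
        ((Function.update (Function.update x.1 i x.2) i (x.1 i),
          (Function.update x.1 i x.2) i) : (Fin r → ℕ) × ℕ) = x := by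
      intro x
      simp
    refine sum_bij' (fun x _ => (Function.update x.1 i x.2, x.1 i))
      (fun x _ => (Function.update x.1 i x.2, x.1 i)) hmem hmem (fun x _ => hinv x)
      (fun x _ => hinv x) (fun x _ => rfl)
  rw [h1, sum_product]
  simp only [sum_const, nsmul_eq_mul]
  rw [← mul_sum]

end Pool.Agent.Lib.MP_8cb858_nt.PT.ONEM

namespace Pool.Agent.Lib.MP_8cb858_nt.PT

open Finset ONEM
open scoped Classical

theorem specONE : SpecONE := by
  intro r L i B c hc h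
  have h1 := resample L i (fun p => if B p then (1 : ℝ) else 0)
  have h2 : ∑ p ∈ Fintype.piFinset L, ∑ q ∈ L i, (if B (Function.update p i q) then (1 : ℝ) else 0)
      ≤ ∑ _p ∈ Fintype.piFinset L, c * ((L i).card : ℝ) := by
    apply sum_le_sum
    intro p hp
    have h3 := h p hp
    rw [card_filter] at h3
    push_cast at h3
    exact h3
  rw [h1, sum_const, nsmul_eq_mul] at h2
  have h3 : ∑ p ∈ Fintype.piFinset L, (if B p then (1 : ℝ) else 0) =
      (((Fintype.piFinset L).filter B).card : ℝ) := by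
    rw [card_filter]
    push_cast
    rfl
  rw [h3] at h2
  rcases Nat.eq_zero_or_pos (L i).card with h0 | h0
  · have h4 : Fintype.piFinset L = ∅ := by
      rw [Finset.card_eq_zero] at h0
      apply eq_empty_of_forall_notMem
      intro p hp
      rw [Fintype.mem_piFinset] at hp
      have := hp i
      rw [h0] at this
      exact notMem_empty _ this
    rw [h4]
    simp
  · have h0' : (0 : ℝ) < (L i).card := by exact_mod_cast h0
    nlinarith [h2, h0']

end Pool.Agent.Lib.MP_8cb858_nt.PT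
end

section
/-!
# Module CHB: Chebyshev's inequality for independent indicators
-/
set_option autoImplicit false

namespace Pool.Agent.Lib.MP_8cb858_nt.PT.CHBM

open Finset
open scoped Classical

/-- the mean -/
noncomputable def mu {r : ℕ} (L : Fin r → Finset ℕ) (T : Fin r → ℕ → Prop) (i : Fin r) : ℝ :=
  (((L i).filter (T i)).card : ℝ) / ((L i).card : ℝ)

/-- the centred indicator -/
noncomputable def YY {r : ℕ} (L : Fin r → Finset ℕ) (T : Fin r → ℕ → Prop) (i : Fin r) (q : ℕ) :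
    ℝ := (if T i q then 1 else 0) - mu L T i

lemma empty_of {r : ℕ} (L : Fin r → Finset ℕ) (i : Fin r) (h0 : (L i).card = 0) :
    Fintype.piFinset L = ∅ := by
  rw [Finset.card_eq_zero] at h0
  apply eq_empty_of_forall_notMem
  intro p hp
  rw [Fintype.mem_piFinset] at hp
  have := hp i
  rw [h0] at this
  exact notMem_empty _ this

lemma sum_YY {r : ℕ} (L : Fin r → Finset ℕ) (T : Fin r → ℕ → Prop) (i : Fin r) :
    ∑ q ∈ L i, YY L T i q = 0 := by
  unfold YY
  rw [sum_sub_distrib, sum_const, nsmul_eq_mul]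
  have h1 : ∑ q ∈ L i, (if T i q then (1 : ℝ) else 0) = (((L i).filter (T i)).card : ℝ) := by
    rw [card_filter]
    push_cast
    rfl
  rw [h1, mu]
  rcases Nat.eq_zero_or_pos (L i).card with h0 | h0
  · have h2 : ((L i).filter (T i)).card = 0 := Nat.le_zero.1 (h0 ▸ card_filter_le _ _)
    rw [h0, h2]
    simp
  · have h0' : ((L i).card : ℝ) ≠ 0 := by exact_mod_cast h0.ne'
    field_simp
    ring

lemma sum_YY_sq {r : ℕ} (L : Fin r → Finset ℕ) (T : Fin r → ℕ → Prop) (i : Fin r) :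
    ∑ q ∈ L i, YY L T i q ^ 2 ≤ ((L i).card : ℝ) / 4 := by
  rcases Nat.eq_zero_or_pos (L i).card with h0 | h0
  · rw [Finset.card_eq_zero] at h0
    rw [h0]
    simp
  · have h0' : (0 : ℝ) < (L i).card := by exact_mod_cast h0
    have h1 : ∀ q ∈ L i, YY L T i q ^ 2 =
        (1 - 2 * mu L T i) * (if T i q then (1 : ℝ) else 0) + mu L T i ^ 2 := by
      intro q _
      unfold YY
      split_ifs <;> ring
    rw [sum_congr rfl h1, sum_add_distrib, ← mul_sum, sum_const, nsmul_eq_mul]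
    have h2 : ∑ q ∈ L i, (if T i q then (1 : ℝ) else 0) = mu L T i * (L i).card := by
      have h3 : ∑ q ∈ L i, (if T i q then (1 : ℝ) else 0) = (((L i).filter (T i)).card : ℝ) := by
        rw [card_filter]
        push_cast
        rfl
      rw [h3, mu]
      field_simp
    rw [h2]
    nlinarith [sq_nonneg (2 * mu L T i - 1), mul_nonneg h0'.le (sq_nonneg (2 * mu L T i - 1))]

lemma cross {r : ℕ} (L : Fin r → Finset ℕ) (T : Fin r → ℕ → Prop) (i j : Fin r) (hij : i ≠ j) :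
    ∑ p ∈ Fintype.piFinset L, YY L T i (p i) * YY L T j (p j) = 0 := by
  have h1 := ONEM.resample L i (fun p => YY L T i (p i) * YY L T j (p j))
  have h2 : ∑ p ∈ Fintype.piFinset L, ∑ q ∈ L i,
      YY L T i ((Function.update p i q) i) * YY L T j ((Function.update p i q) j) = 0 := by
    apply sum_eq_zero
    intro p _
    simp only [Function.update_self, Function.update_of_ne hij.symm]
    rw [← sum_mul, sum_YY, zero_mul]
  rw [h2] at h1
  rcases Nat.eq_zero_or_pos (L i).card with h0 | h0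
  · rw [empty_of L i h0]
    simp
  · have h0' : ((L i).card : ℝ) ≠ 0 := by exact_mod_cast h0.ne'
    exact (mul_eq_zero.1 h1.symm).resolve_left h0'

lemma diag {r : ℕ} (L : Fin r → Finset ℕ) (T : Fin r → ℕ → Prop) (i : Fin r) :
    ∑ p ∈ Fintype.piFinset L, YY L T i (p i) * YY L T i (p i) ≤
      1 / 4 * ((Fintype.piFinset L).card : ℝ) := by
  have h1 := ONEM.resample L i (fun p => YY L T i (p i) * YY L T i (p i))
  have h2 : ∑ p ∈ Fintype.piFinset L, ∑ q ∈ L i,
      YY L T i ((Function.update p i q) i) * YY L T i ((Function.update p i q) i) ≤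
      ∑ _p ∈ Fintype.piFinset L, ((L i).card : ℝ) / 4 := by
    apply sum_le_sum
    intro p _
    simp only [Function.update_self]
    have h3 := sum_YY_sq L T i
    simpa only [sq] using h3
  rw [h1, sum_const, nsmul_eq_mul] at h2
  rcases Nat.eq_zero_or_pos (L i).card with h0 | h0
  · rw [empty_of L i h0]
    simp
  · have h0' : (0 : ℝ) < (L i).card := by exact_mod_cast h0
    nlinarith [h2, h0']

end Pool.Agent.Lib.MP_8cb858_nt.PT.CHBM

namespace Pool.Agent.Lib.MP_8cb858_nt.PT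

open Finset CHBM
open scoped Classical

theorem specCHB : SpecCHB := by
  intro r L T t ht
  have h1 : ∀ p : Fin r → ℕ, ((univ.filter (fun i => T i (p i))).card : ℝ) -
      ∑ i, (((L i).filter (T i)).card : ℝ) / ((L i).card : ℝ) = ∑ i, YY L T i (p i) := by
    intro p
    unfold YY mu
    rw [sum_sub_distrib, card_filter]
    push_cast
    rfl
  have h2 : ∑ p ∈ Fintype.piFinset L, (∑ i, YY L T i (p i)) ^ 2 ≤
      r / 4 * ((Fintype.piFinset L).card : ℝ) := by
    have h3 : ∀ p ∈ Fintype.piFinset L, (∑ i, YY L T i (p i)) ^ 2 =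
        ∑ i, ∑ j, YY L T i (p i) * YY L T j (p j) := by
      intro p _
      rw [sq, sum_mul_sum]
    rw [sum_congr rfl h3, sum_comm]
    have h4 : ∀ i : Fin r, ∑ p ∈ Fintype.piFinset L, ∑ j, YY L T i (p i) * YY L T j (p j) ≤
        1 / 4 * ((Fintype.piFinset L).card : ℝ) := by
      intro i
      rw [sum_comm, ← add_sum_erase _ _ (mem_univ i)]
      have h5 : ∑ j ∈ univ.erase i, ∑ p ∈ Fintype.piFinset L, YY L T i (p i) * YY L T j (p j) = 0 := by
        apply sum_eq_zero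
        intro j hj
        exact cross L T i j (ne_of_mem_erase hj).symm
      rw [h5, add_zero]
      exact diag L T i
    refine (sum_le_sum fun i _ => h4 i).trans (le_of_eq ?_)
    rw [sum_const, nsmul_eq_mul, card_univ, Fintype.card_fin]
    ring
  refine le_trans ?_ h2
  rw [← nsmul_eq_mul, ← sum_const]
  have h6 : ∑ _p ∈ (Fintype.piFinset L).filter (fun p =>
      t ≤ |((univ.filter (fun i => T i (p i))).card : ℝ) -
        ∑ i, (((L i).filter (T i)).card : ℝ) / ((L i).card : ℝ)|), t ^ 2 ≤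
      ∑ p ∈ (Fintype.piFinset L).filter (fun p =>
      t ≤ |((univ.filter (fun i => T i (p i))).card : ℝ) -
        ∑ i, (((L i).filter (T i)).card : ℝ) / ((L i).card : ℝ)|),
        (∑ i, YY L T i (p i)) ^ 2 := by
    apply sum_le_sum
    intro p hp
    rw [mem_filter, h1] at hp
    rw [← sq_abs (∑ i, YY L T i (p i))]
    exact pow_le_pow_left₀ ht.le hp.2 2
  refine h6.trans ?_
  exact sum_le_sum_of_subset_of_nonneg (filter_subset _ _) (fun p _ _ => sq_nonneg _)

end Pool.Agent.Lib.MP_8cb858_nt.PT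
end

section
/-!
# CHR: ratio of binomial coefficients
-/
namespace Pool.Agent.Lib.MP_8cb858_nt.PT

theorem specCHR : SpecCHR := by
  intro N t m κ hκ hκ8 hm ht htN
  induction m with
  | zero => simp
  | succ m ih =>
    have hm' : (m : ℝ) + 1 ≤ κ * N := by
      have := hm
      push_cast at this
      exact this
    have hmN : (m : ℝ) ≤ κ * N := by linarith
    have hN0 : (0 : ℝ) ≤ N := Nat.cast_nonneg N
    have hi := ih hmN
    have h1 := Nat.choose_succ_right_eq N m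
    have h2 := Nat.choose_succ_right_eq t m
    have hmt : (m : ℝ) ≤ t := by nlinarith
    have hmt' : m ≤ t := by exact_mod_cast hmt
    have hmN' : m ≤ N := hmt'.trans htN
    have h1' : ((N.choose (m + 1) : ℕ) : ℝ) * (m + 1) = (N.choose m : ℕ) * ((N : ℝ) - m) := by
      rw [← Nat.cast_sub hmN']
      exact_mod_cast h1
    have h2' : ((t.choose (m + 1) : ℕ) : ℝ) * (m + 1) = (t.choose m : ℕ) * ((t : ℝ) - m) := by
      rw [← Nat.cast_sub hmt']
      exact_mod_cast h2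
    have he : 1 + 8 * κ ≤ Real.exp (8 * κ) := by
      have := Real.add_one_le_exp (8 * κ)
      linarith
    have h3 : (N : ℝ) - m ≤ 2 * Real.exp (8 * κ) * ((t : ℝ) - m) := by
      have h4 : (1 / 2 - 2 * κ) * (N : ℝ) ≤ t - m := by linarith
      have h5 : 0 ≤ (t : ℝ) - m := by linarith
      have h6 : 2 * (1 + 8 * κ) * ((t : ℝ) - m) ≤ 2 * Real.exp (8 * κ) * ((t : ℝ) - m) :=
        mul_le_mul_of_nonneg_right (by linarith) h5
      have h7 : 2 * (1 + 8 * κ) * ((1 / 2 - 2 * κ) * (N : ℝ)) ≤ 2 * (1 + 8 * κ) * ((t : ℝ) - m) :=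
        mul_le_mul_of_nonneg_left h4 (by linarith)
      have h8 : (N : ℝ) ≤ 2 * (1 + 8 * κ) * ((1 / 2 - 2 * κ) * (N : ℝ)) := by
        have : 0 ≤ 4 * κ * (1 - 8 * κ) * N :=
          mul_nonneg (mul_nonneg (by linarith) (by linarith)) hN0
        nlinarith
      have h9 : (0 : ℝ) ≤ m := Nat.cast_nonneg m
      linarith
    have hm1 : (0 : ℝ) < (m : ℝ) + 1 := by positivity
    refine le_of_mul_le_mul_right ?_ hm1
    have hc : (0 : ℝ) ≤ (N.choose m : ℕ) := Nat.cast_nonneg _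
    have hct : (0 : ℝ) ≤ (t.choose m : ℕ) := Nat.cast_nonneg _
    have htm : 0 ≤ (t : ℝ) - m := by linarith
    calc ((N.choose (m + 1) : ℕ) : ℝ) * (m + 1) = (N.choose m : ℕ) * ((N : ℝ) - m) := h1'
      _ ≤ (N.choose m : ℕ) * (2 * Real.exp (8 * κ) * ((t : ℝ) - m)) :=
          mul_le_mul_of_nonneg_left h3 hc
      _ ≤ ((2 * Real.exp (8 * κ)) ^ m * (t.choose m : ℕ)) *
          (2 * Real.exp (8 * κ) * ((t : ℝ) - m)) :=
          mul_le_mul_of_nonneg_right hi (mul_nonneg (by positivity) htm)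
      _ = (2 * Real.exp (8 * κ)) ^ (m + 1) * ((t.choose m : ℕ) * ((t : ℝ) - m)) := by ring
      _ = (2 * Real.exp (8 * κ)) ^ (m + 1) * ((t.choose (m + 1) : ℕ) : ℝ) * (m + 1) := by
          rw [← h2']
          ring

end Pool.Agent.Lib.MP_8cb858_nt.PT
end

section
/-! Module MIX: the mixing inequality. -/
set_option autoImplicit false

namespace Pool.Agent.Lib.MP_8cb858_nt.PT

open scoped Classical

namespace MIXM

theorem step (hRSM : SpecRSM) (hKPM : SpecKPM) (X : Type) (Ω B : Finset X) (R : X → X → Prop)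
    (s s' : X → ℕ) (g : X → ℝ) (err : ℝ) (herr : 0 ≤ err) (hR : Equivalence R)
    (hg : ∀ p ∈ Ω, |g p| ≤ 1)
    (hc : ∀ p ∈ Ω, ∀ p' ∈ Ω, R p p' → s p = s p' ∧ g p = g p')
    (f : ℕ → ℝ) (hf : ∀ m, |f m| ≤ 1)
    (hB : ∀ p ∈ Ω, p ∉ B →
      |∑ p' ∈ Ω.filter (R p), f (s' p') - Pop f (s p) * ((Ω.filter (R p)).card : ℝ)| ≤
        err * ((Ω.filter (R p)).card : ℝ)) :
    |∑ p ∈ Ω, f (s' p) * g p - ∑ p ∈ Ω, (Pop f) (s p) * g p| ≤
      err * (Ω.card : ℝ) + 2 * (B.card : ℝ) := by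
  have h0 := hRSM X Ω R (fun p => f (s' p) * g p) hR
  simp only at h0
  rw [← h0, ← Finset.sum_sub_distrib]
  have hPf : ∀ k, |Pop f k| ≤ 1 := fun k => by
    have := hKPM.bdd f 1 hf k
    simpa using this
  have hterm : ∀ p ∈ Ω,
      |(∑ p' ∈ Ω.filter (R p), f (s' p') * g p') / ((Ω.filter (R p)).card : ℝ) -
        Pop f (s p) * g p| ≤ err + (if p ∈ B then (2 : ℝ) else 0) := by
    intro p hp
    have hpm : p ∈ Ω.filter (R p) := Finset.mem_filter.2 ⟨hp, hR.refl p⟩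
    have hn : (0 : ℝ) < ((Ω.filter (R p)).card : ℝ) := by
      exact_mod_cast Finset.card_pos.2 ⟨p, hpm⟩
    have h1 : ∑ p' ∈ Ω.filter (R p), f (s' p') * g p' =
        (∑ p' ∈ Ω.filter (R p), f (s' p')) * g p := by
      rw [Finset.sum_mul]
      refine Finset.sum_congr rfl fun p' hp' => ?_
      have := (hc p hp p' (Finset.mem_filter.1 hp').1 (Finset.mem_filter.1 hp').2).2
      rw [this]
    rw [h1]
    have h2 : (∑ p' ∈ Ω.filter (R p), f (s' p')) * g p / ((Ω.filter (R p)).card : ℝ) -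
        Pop f (s p) * g p =
        ((∑ p' ∈ Ω.filter (R p), f (s' p')) / ((Ω.filter (R p)).card : ℝ) - Pop f (s p)) *
          g p := by ring
    rw [h2, abs_mul]
    have h3 : |(∑ p' ∈ Ω.filter (R p), f (s' p')) / ((Ω.filter (R p)).card : ℝ) -
        Pop f (s p)| ≤ err + (if p ∈ B then (2 : ℝ) else 0) := by
      by_cases hb : p ∈ B
      · rw [if_pos hb]
        have h4 : |(∑ p' ∈ Ω.filter (R p), f (s' p')) / ((Ω.filter (R p)).card : ℝ)| ≤ 1 := by
          rw [abs_div, abs_of_pos hn, div_le_one hn]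
          calc |∑ p' ∈ Ω.filter (R p), f (s' p')| ≤ ∑ p' ∈ Ω.filter (R p), |f (s' p')| :=
                Finset.abs_sum_le_sum_abs _ _
            _ ≤ ∑ _p' ∈ Ω.filter (R p), (1 : ℝ) := Finset.sum_le_sum fun p' _ => hf _
            _ = ((Ω.filter (R p)).card : ℝ) := by simp
        have h5 := hPf (s p)
        have h6 := abs_sub ((∑ p' ∈ Ω.filter (R p), f (s' p')) / ((Ω.filter (R p)).card : ℝ))
          (Pop f (s p))
        linarith
      · rw [if_neg hb, add_zero]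
        have h4 := hB p hp hb
        have h5 : (∑ p' ∈ Ω.filter (R p), f (s' p')) / ((Ω.filter (R p)).card : ℝ) -
            Pop f (s p) = (∑ p' ∈ Ω.filter (R p), f (s' p') -
              Pop f (s p) * ((Ω.filter (R p)).card : ℝ)) / ((Ω.filter (R p)).card : ℝ) := by
          field_simp
        rw [h5, abs_div, abs_of_pos hn, div_le_iff₀ hn]
        exact h4
    have h7 := hg p hp
    have h8 : 0 ≤ err + (if p ∈ B then (2 : ℝ) else 0) := by
      split_ifs <;> linarith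
    calc _ ≤ (err + (if p ∈ B then (2 : ℝ) else 0)) * 1 :=
          mul_le_mul h3 h7 (abs_nonneg _) h8
      _ = _ := mul_one _
  calc _ ≤ ∑ p ∈ Ω, |(∑ p' ∈ Ω.filter (R p), f (s' p') * g p') /
          ((Ω.filter (R p)).card : ℝ) - Pop f (s p) * g p| := Finset.abs_sum_le_sum_abs _ _
    _ ≤ ∑ p ∈ Ω, (err + (if p ∈ B then (2 : ℝ) else 0)) := Finset.sum_le_sum hterm
    _ = err * (Ω.card : ℝ) + 2 * ((Ω.filter (fun p => p ∈ B)).card : ℝ) := by
        rw [Finset.sum_add_distrib, Finset.sum_const, nsmul_eq_mul, ← Finset.sum_filter,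
          Finset.sum_const, nsmul_eq_mul]
        ring
    _ ≤ err * (Ω.card : ℝ) + 2 * (B.card : ℝ) := by
        have : (Ω.filter (fun p => p ∈ B)).card ≤ B.card :=
          Finset.card_le_card fun q hq => (Finset.mem_filter.1 hq).2
        have h9 : ((Ω.filter (fun p => p ∈ B)).card : ℝ) ≤ B.card := by exact_mod_cast this
        linarith

end MIXM

theorem specMIX (hRSM : SpecRSM) (hKPM : SpecKPM) : SpecMIX := by
  intro X Ω B n R s g err herr hR hg hc hB f hf
  have key : ∀ j : ℕ, j ≤ n →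
      |∑ p ∈ Ω, f (s n p) * g p - ∑ p ∈ Ω, (Pop^[j] f) (s (n - j) p) * g p| ≤
        j * (err * (Ω.card : ℝ) + 2 * (B.card : ℝ)) := by
    intro j
    induction j with
    | zero => intro _; simp
    | succ j ih =>
      intro hj
      have h1 := ih (by omega)
      have hk : n - (j + 1) < n := by omega
      have hk1 : n - (j + 1) + 1 = n - j := by omega
      have h2 := MIXM.step hRSM hKPM X Ω B (R (n - (j + 1))) (s (n - (j + 1))) (s (n - j)) g err
        herr (hR _) hg (fun p hp p' hp' hr => hc _ hk p hp p' hp' hr) (Pop^[j] f)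
        (hKPM.bdd f j hf) (fun p hp hpB => by
          have := hB _ hk p hp hpB (Pop^[j] f) (hKPM.bdd f j hf)
          rwa [hk1] at this)
      have h3 : Pop^[j + 1] f = Pop (Pop^[j] f) := Function.iterate_succ_apply' _ _ _
      rw [h3]
      have h4 := abs_sub_le (∑ p ∈ Ω, f (s n p) * g p)
        (∑ p ∈ Ω, (Pop^[j] f) (s (n - j) p) * g p)
        (∑ p ∈ Ω, (Pop (Pop^[j] f)) (s (n - (j + 1)) p) * g p)
      push_cast
      linarith
  have h := key n le_rfl
  rw [Nat.sub_self] at h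
  calc _ ≤ _ := h
    _ = _ := by ring

end Pool.Agent.Lib.MP_8cb858_nt.PT
end

section
/-!
# The probability of a bad node
-/
namespace Pool.Agent.Lib.MP_8cb858_nt.PT

open Polynomial NumberField IsDedekindDomain Pool.Agent.Lib.MP_8cb858_nt.SEL
open Pool.Agent.Lib.MP_8cb858_nt.PF
open scoped Classical WithZero

namespace NODM

/-- subsets of a finite set as finsets -/
lemma nc {S : Set (ℤ × ℤ)} (hS : S.Finite) (P : ℤ × ℤ → Prop) [DecidablePred P] :
    ({E ∈ S | P E}.ncard : ℝ) = ((hS.toFinset.filter P).card : ℝ) := by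
  have : ({E ∈ S | P E} : Set (ℤ × ℤ)) = ((hS.toFinset.filter P : Finset (ℤ × ℤ)) :
      Set (ℤ × ℤ)) := by
    ext E
    rw [Finset.mem_coe, Finset.mem_filter, Set.Finite.mem_toFinset]
    rfl
  rw [this, Set.ncard_coe_finset]

lemma b1 {B r : ℝ} (hB : 0 < B) (hr : 3 * (B + 2) ≤ r) (n : ℕ) (hn : (n : ℝ) = r ^ 2) :
    2 * (7 / 10 : ℝ) ^ n ≤ Real.exp (-(B * r)) / 3 := by
  have h1 : (7 / 10 : ℝ) ≤ Real.exp (-(1 / 3)) := by
    have h2 : (7 / 10 : ℝ) ^ 3 ≤ Real.exp (-(1 / 3)) ^ 3 := by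
      rw [← Real.exp_nat_mul]
      have h3 : ((3 : ℕ) : ℝ) * -(1 / 3) = -1 := by norm_num
      rw [h3]
      have := Real.exp_neg_one_gt_d9
      norm_num at this ⊢
      linarith
    exact le_of_pow_le_pow_left₀ (by norm_num) (Real.exp_pos _).le h2
  have h2 : (7 / 10 : ℝ) ^ n ≤ Real.exp (-(r ^ 2 / 3)) := by
    refine (pow_le_pow_left₀ (by norm_num) h1 n).trans (le_of_eq ?_)
    rw [← Real.exp_nat_mul, hn]; congr 1; ring
  have h3 : Real.exp (-(r ^ 2 / 3)) ≤ Real.exp (-(B * r)) * Real.exp (-2) := by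
    rw [← Real.exp_add]
    apply Real.exp_le_exp.2
    nlinarith
  have h4 : Real.exp (-2) ≤ 1 / 6 := by
    have h5 : Real.exp (-2) = Real.exp (-1) ^ 2 := by
      rw [← Real.exp_nat_mul]; congr 1; norm_num
    rw [h5]
    have h6 := Real.exp_neg_one_lt_d9
    have h7 := Real.exp_pos (-1)
    nlinarith
  have h5 : Real.exp (-(B * r)) * Real.exp (-2) ≤ Real.exp (-(B * r)) * (1 / 6) :=
    mul_le_mul_of_nonneg_left h4 (Real.exp_pos _).le
  linarith

end NODM

open NODM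

theorem specNOD (hAXP : SpecAXP) (hTYV : SpecTYV) (hUBI : SpecUBI) (hEQZ : SpecEQZ) : SpecNOD := by
  intro η κ B hη hκ hB
  set η1 : ℝ := min η 1 with hη1
  have hη10 : 0 < η1 := lt_min hη one_pos
  obtain ⟨κU, c, C, K1, P1, N0, hκU, hc, hC, hK1, hU⟩ := hUBI η1 hη10 (min_le_right _ _)
  set κ' : ℝ := min κ κU with hκ'
  have hκ'0 : 0 < κ' := lt_min hκ hκU
  set W : ℝ := B + 3 * C + 2 + 4 * K1 with hW
  set r0 : ℕ := max (max (max P1 N0) 5) (max (max ⌈3 * (B + 2)⌉₊ ⌈B + 18 / κ' ^ 2⌉₊) ⌈W / c⌉₊)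
    with hr0
  have r1 : P1 ≤ r0 := le_trans (le_trans (le_max_left _ _) (le_max_left _ _)) (le_max_left _ _)
  have r2 : N0 ≤ r0 := le_trans (le_trans (le_max_right _ _) (le_max_left _ _)) (le_max_left _ _)
  have r3 : 5 ≤ r0 := le_trans (le_max_right _ _) (le_max_left _ _)
  have r4 : 3 * (B + 2) ≤ (r0 : ℝ) := by
    refine (Nat.le_ceil _).trans ?_
    exact_mod_cast le_trans (le_trans (le_max_left _ _) (le_max_left _ _)) (le_max_right _ _)
  have r5 : B + 18 / κ' ^ 2 ≤ (r0 : ℝ) := by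
    refine (Nat.le_ceil _).trans ?_
    exact_mod_cast le_trans (le_trans (le_max_right _ _) (le_max_left _ _)) (le_max_right _ _)
  have r6 : W / c ≤ (r0 : ℝ) := by
    refine (Nat.le_ceil _).trans ?_
    exact_mod_cast le_trans (le_max_right _ _) (le_max_right _ _)
  refine ⟨r0, ?_⟩
  intro r D0 L mm hr hD0 hω hL hLc hmi hmm
  have hrr : (r0 : ℝ) ≤ r := by exact_mod_cast hr
  have hr1 : 1 ≤ r := by omega
  have hr1' : (1 : ℝ) ≤ r := by exact_mod_cast hr1
  have hrpos : (0 : ℝ) < r := by linarith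
  have hNr : (r0 : ℝ) * r ≤ L.card := by
    have h1 := Real.add_one_le_exp ((r0 : ℝ) * r)
    linarith
  have hNN0 : N0 ≤ L.card := by
    have h1 : (r0 : ℝ) ≤ L.card := by nlinarith [(Nat.cast_nonneg r0 : (0 : ℝ) ≤ r0)]
    have h2 : r0 ≤ L.card := by exact_mod_cast h1
    omega
  -- the three sources
  obtain ⟨XA, hXA⟩ := hAXP (r ^ 2) mm hmi (fun j => ⟨(hmm j).1, r3.trans (hmm j).2.1⟩)
  obtain ⟨XT, hXT⟩ := hTYV κ' L hκ'0 (fun q hq => ⟨(hL q hq).1, r3.trans (hL q hq).2.1⟩)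
  have hsqf : ∀ j, Squarefree (D0 * mm j) := fun j => by
    rw [Nat.squarefree_mul ((Nat.Prime.coprime_iff_not_dvd (hmm j).1).2 (hmm j).2.2.1).symm]
    exact ⟨hD0, (hmm j).1.prime.squarefree⟩
  have hUj : ∀ j, ∃ X0 : ℝ, ∀ X : ℝ, X0 ≤ X →
      ({E ∈ Hz X | |((L.filter (fun q => Y12 q E.1 E.2)).card : ℝ) - (L.card : ℝ) / 2| ≤
          κU * L.card ∧
        ∃ z : Sl E.1 E.2 (D0 * mm j), z ≠ 0 ∧
          η1 * ((L.filter (fun q => Y12 q E.1 E.2)).card : ℝ) <
          |((L.filter (fun q => Y12 q E.1 E.2 ∧ Tz q z)).card : ℝ) -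
            ((L.filter (fun q => Y12 q E.1 E.2)).card : ℝ) / 2|}.ncard : ℝ) ≤
        C * K1 ^ (D0 * mm j).primeFactors.card * Real.exp (-(c * L.card)) * ((Hz X).ncard : ℝ) := by
    intro j
    refine hU L (D0 * mm j) (hsqf j) (fun q hq => ⟨(hL q hq).1, r1.trans (hL q hq).2.1, ?_⟩) hNN0
    intro hd
    rcases (hL q hq).1.dvd_mul.1 hd with h | h
    · exact (hL q hq).2.2 h
    · have h2 := (Nat.prime_dvd_prime_iff_eq (hL q hq).1 (hmm j).1).1 h
      exact (hmm j).2.2.2 (h2 ▸ hq)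
  choose XU hXU using hUj
  refine ⟨max (max XA XT) (∑ j ∈ Finset.range (r ^ 2), |XU j|), fun X hX => ?_⟩
  have hA := hXA X ((le_trans (le_max_left _ _) (le_max_left _ _)).trans hX)
  have hT := hXT X ((le_trans (le_max_right _ _) (le_max_left _ _)).trans hX)
  have hXj : ∀ j ∈ Finset.range (r ^ 2), XU j ≤ X := by
    intro j hj
    have a1 := Finset.single_le_sum (f := fun j => |XU j|) (fun j _ => abs_nonneg _) hj
    have a2 := le_abs_self (XU j)
    have a3 := (le_max_right (max XA XT) (∑ j ∈ Finset.range (r ^ 2), |XU j|)).trans hX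
    linarith
  have hfin := hEQZ.1 X
  set H : Finset (ℤ × ℤ) := hfin.toFinset with hH
  set h : ℝ := ((Hz X).ncard : ℝ) with hh
  have hh0 : 0 ≤ h := Nat.cast_nonneg _
  rw [nc hfin] at hA hT ⊢
  set UF : ℕ → Finset (ℤ × ℤ) := fun j => H.filter (fun E =>
    |((L.filter (fun q => Y12 q E.1 E.2)).card : ℝ) - (L.card : ℝ) / 2| ≤ κU * L.card ∧
        ∃ z : Sl E.1 E.2 (D0 * mm j), z ≠ 0 ∧
          η1 * ((L.filter (fun q => Y12 q E.1 E.2)).card : ℝ) <
          |((L.filter (fun q => Y12 q E.1 E.2 ∧ Tz q z)).card : ℝ) -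
            ((L.filter (fun q => Y12 q E.1 E.2)).card : ℝ) / 2|) with hUF
  have hUc : ∀ j ∈ Finset.range (r ^ 2), ((UF j).card : ℝ) ≤
      C * K1 ^ (3 * r + 1) * Real.exp (-(c * L.card)) * h := by
    intro j hj
    have a1 := hXU j X (hXj j hj)
    rw [nc hfin] at a1
    refine a1.trans ?_
    refine mul_le_mul_of_nonneg_right ?_ hh0
    refine mul_le_mul_of_nonneg_right ?_ (Real.exp_pos _).le
    refine mul_le_mul_of_nonneg_left ?_ (by linarith)
    refine pow_le_pow_right₀ hK1 ?_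
    rw [Nat.primeFactors_mul hD0.ne_zero (hmm j).1.ne_zero, Nat.Prime.primeFactors (hmm j).1]
    refine (Finset.card_union_le _ _).trans ?_
    rw [Finset.card_singleton]
    omega
  -- inclusion
  have hsub : H.filter (fun E => ¬ Nok η κ (r ^ 2) D0 mm L E) ⊆
      (H.filter (fun E => ¬ (jx mm E < r ^ 2 ∧ Y3 (mx mm E) E.1 E.2)) ∪
      H.filter (fun E => ¬ (|((L.filter (fun q => Y12 q E.1 E.2)).card : ℝ) - (L.card : ℝ) / 2| ≤
        κ' * L.card ∧
      |((L.filter (fun q => Y3 q E.1 E.2)).card : ℝ) - (L.card : ℝ) / 3| ≤ κ' * L.card))) ∪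
      (Finset.range (r ^ 2)).biUnion UF := by
    intro E hE
    obtain ⟨hEH, hbad⟩ := Finset.mem_filter.1 hE
    by_contra hcon
    rw [Finset.mem_union, Finset.mem_union, not_or, not_or] at hcon
    obtain ⟨⟨h1, h2⟩, h3⟩ := hcon
    rw [Finset.mem_filter, not_and, not_not] at h1 h2
    have h1' := h1 hEH
    have h2' := h2 hEH
    have hLc0 : (0 : ℝ) ≤ L.card := Nat.cast_nonneg _
    apply hbad
    refine ⟨h1', h2'.1.trans (mul_le_mul_of_nonneg_right (min_le_left _ _) hLc0),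
      h2'.2.trans (mul_le_mul_of_nonneg_right (min_le_left _ _) hLc0), ?_⟩
    intro z hz
    by_contra hb
    push Not at hb
    apply h3
    refine Finset.mem_biUnion.2 ⟨jx mm E, Finset.mem_range.2 h1'.1, ?_⟩
    rw [hUF]
    refine Finset.mem_filter.2 ⟨hEH, h2'.1.trans
      (mul_le_mul_of_nonneg_right (min_le_right _ _) hLc0), z, hz, lt_of_le_of_lt ?_ hb⟩
    exact mul_le_mul_of_nonneg_right (min_le_left _ _) (Nat.cast_nonneg _)
  have hcard : ((H.filter (fun E => ¬ Nok η κ (r ^ 2) D0 mm L E)).card : ℝ) ≤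
      2 * (7 / 10) ^ (r ^ 2) * h +
      ((H.filter (fun E => ¬ (|((L.filter (fun q => Y12 q E.1 E.2)).card : ℝ) - (L.card : ℝ) / 2| ≤
        κ' * L.card ∧
      |((L.filter (fun q => Y3 q E.1 E.2)).card : ℝ) - (L.card : ℝ) / 3| ≤ κ' * L.card))).card : ℝ)
      + (r : ℝ) ^ 2 * (C * K1 ^ (3 * r + 1) * Real.exp (-(c * L.card)) * h) := by
    refine le_trans (Nat.cast_le.2 (Finset.card_le_card hsub)) ?_
    refine le_trans (Nat.cast_le.2 (Finset.card_union_le _ _)) ?_
    rw [Nat.cast_add]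
    refine add_le_add ?_ ?_
    · refine le_trans (Nat.cast_le.2 (Finset.card_union_le _ _)) ?_
      rw [Nat.cast_add]
      exact add_le_add hA le_rfl
    · refine le_trans (Nat.cast_le.2 Finset.card_biUnion_le) ?_
      rw [Nat.cast_sum]
      refine (Finset.sum_le_sum hUc).trans (le_of_eq ?_)
      rw [Finset.sum_const, Finset.card_range, nsmul_eq_mul]
      push_cast; ring
  refine hcard.trans ?_
  -- the three bounds
  have q1 : 2 * (7 / 10 : ℝ) ^ (r ^ 2) ≤ Real.exp (-(B * r)) / 3 :=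
    b1 hB (r4.trans hrr) (r ^ 2) (by push_cast; ring)
  have q2 : ((H.filter (fun E => ¬ (|((L.filter (fun q => Y12 q E.1 E.2)).card : ℝ) -
      (L.card : ℝ) / 2| ≤ κ' * L.card ∧
      |((L.filter (fun q => Y3 q E.1 E.2)).card : ℝ) - (L.card : ℝ) / 3| ≤ κ' * L.card))).card : ℝ)
      ≤ Real.exp (-(B * r)) / 3 * h := by
    have hk : 0 < κ' ^ 2 := by positivity
    have h1 : 18 ≤ Real.exp (-(B * r)) * (κ' ^ 2 * L.card) := by
      have h2 : Real.exp (18 / κ' ^ 2 * r) ≤ Real.exp (-(B * r)) * L.card := by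
        calc Real.exp (18 / κ' ^ 2 * r) ≤ Real.exp (-(B * r)) * Real.exp (r0 * r) := by
              rw [← Real.exp_add]
              apply Real.exp_le_exp.2
              nlinarith
          _ ≤ _ := mul_le_mul_of_nonneg_left hLc (Real.exp_pos _).le
      have h3 : 18 / κ' ^ 2 ≤ Real.exp (18 / κ' ^ 2 * r) := by
        have h4 := Real.add_one_le_exp (18 / κ' ^ 2 * r)
        have h5 : 18 / κ' ^ 2 ≤ 18 / κ' ^ 2 * r := by
          have : 0 < 18 / κ' ^ 2 := by positivity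
          nlinarith
        linarith
      have h4 : 18 / κ' ^ 2 ≤ Real.exp (-(B * r)) * L.card := h3.trans h2
      rw [div_le_iff₀ hk] at h4
      linarith
    have hTc := hT
    have hx : 0 < κ' ^ 2 * (L.card : ℝ) := by
      by_contra hcon
      push Not at hcon
      have : Real.exp (-(B * r)) * (κ' ^ 2 * L.card) ≤ 0 :=
        mul_nonpos_of_nonneg_of_nonpos (Real.exp_pos _).le hcon
      linarith
    refine le_of_mul_le_mul_right (hTc.trans ?_) hx
    nlinarith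
  have q3 : (r : ℝ) ^ 2 * (C * K1 ^ (3 * r + 1) * Real.exp (-(c * L.card)) * h) ≤
      Real.exp (-(B * r)) / 3 * h := by
    have h1 : (r : ℝ) ^ 2 ≤ Real.exp (2 * r) := by
      have h2 : (r : ℝ) ≤ Real.exp r := by have := Real.add_one_le_exp (r : ℝ); linarith
      have h3 : Real.exp (2 * (r : ℝ)) = Real.exp r ^ 2 := by
        rw [← Real.exp_nat_mul]; congr 1
      rw [h3]
      exact pow_le_pow_left₀ hrpos.le h2 2
    have h2 : 3 * C ≤ Real.exp (3 * C * r) := by
      have h3 := Real.add_one_le_exp (3 * C * r)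
      nlinarith
    have h3 : K1 ^ (3 * r + 1) ≤ Real.exp (4 * K1 * r) := by
      have h4 : K1 ≤ Real.exp K1 := by have := Real.add_one_le_exp K1; linarith
      calc K1 ^ (3 * r + 1) ≤ K1 ^ (4 * r) := pow_le_pow_right₀ hK1 (by omega)
        _ ≤ Real.exp K1 ^ (4 * r) := pow_le_pow_left₀ (by linarith) h4 _
        _ = Real.exp (4 * K1 * r) := by
            rw [← Real.exp_nat_mul]; congr 1; push_cast; ring
    have h4 : Real.exp (-(c * L.card)) ≤ Real.exp (-(W * r)) := by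
      apply Real.exp_le_exp.2
      rw [div_le_iff₀ hc] at r6
      have h5 : c * ((r0 : ℝ) * r) ≤ c * L.card := mul_le_mul_of_nonneg_left hNr hc.le
      have h6 : W * r ≤ r0 * c * r := mul_le_mul_of_nonneg_right r6 hrpos.le
      linarith
    have h5 : (r : ℝ) ^ 2 * (3 * C * K1 ^ (3 * r + 1) * Real.exp (-(c * L.card))) ≤
        Real.exp (-(B * r)) := by
      calc (r : ℝ) ^ 2 * (3 * C * K1 ^ (3 * r + 1) * Real.exp (-(c * L.card)))
          ≤ Real.exp (2 * r) * (Real.exp (3 * C * r) * Real.exp (4 * K1 * r) *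
            Real.exp (-(W * r))) := by
            refine mul_le_mul h1 ?_ (by positivity) (Real.exp_pos _).le
            refine mul_le_mul ?_ h4 (Real.exp_pos _).le (by positivity)
            exact mul_le_mul h2 h3 (by positivity) (Real.exp_pos _).le
        _ = Real.exp (-(B * r)) := by
            rw [← Real.exp_add, ← Real.exp_add, ← Real.exp_add, hW]; congr 1; ring
    calc (r : ℝ) ^ 2 * (C * K1 ^ (3 * r + 1) * Real.exp (-(c * L.card)) * h)
        = (r : ℝ) ^ 2 * (3 * C * K1 ^ (3 * r + 1) * Real.exp (-(c * L.card))) / 3 * h := by ring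
      _ ≤ _ := mul_le_mul_of_nonneg_right (by linarith) hh0
  have q1' := mul_le_mul_of_nonneg_right q1 hh0
  linarith

end Pool.Agent.Lib.MP_8cb858_nt.PT
end

section
/-!
Module PRD: product densities (Chinese remainder theorem and equidistribution).
-/
namespace Pool.Agent.Lib.MP_8cb858_nt.PT

open scoped Classical

namespace PRDM

/-- the equivalence of pairs given by a product ring isomorphism -/
def pairEquiv {ι : Type} {A : Type} {B : ι → Type} (e : A ≃ (∀ i, B i)) :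
    (A × A) ≃ (∀ i, B i × B i) where
  toFun q i := (e q.1 i, e q.2 i)
  invFun f := (e.symm fun i => (f i).1, e.symm fun i => (f i).2)
  left_inv q := by
    obtain ⟨a, b⟩ := q
    simp
  right_inv f := by
    funext i
    simp

theorem ncard_pull {ι : Type} [Fintype ι] {A : Type} {B : ι → Type} (e : A ≃ (∀ i, B i))
    (R : ∀ i, Set (B i × B i)) :
    {q : A × A | ∀ i, (e q.1 i, e q.2 i) ∈ R i}.ncard = ∏ i, (R i).ncard := by
  have h1 : Nat.card {q : A × A | ∀ i, (e q.1 i, e q.2 i) ∈ R i} =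
      Nat.card (∀ i, R i) := by
    refine Nat.card_congr ?_
    refine Equiv.trans ?_ (Equiv.Set.univPi R)
    refine (pairEquiv e).subtypeEquiv fun q => ?_
    simp only [Set.mem_ofPred_eq, Set.mem_univ_pi]
    rfl
  have h2 : {q : A × A | ∀ i, (e q.1 i, e q.2 i) ∈ R i}.ncard =
      Nat.card {q : A × A | ∀ i, (e q.1 i, e q.2 i) ∈ R i} := rfl
  rw [h2, h1, Nat.card_pi]
  rfl

end PRDM

open PRDM in
theorem specPRD (hEQZ : SpecEQZ) : SpecPRD := by
  intro S R ε hS hε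
  set N : ℕ := ∏ i : S, (i : ℕ) with hN
  have hcop : Pairwise (Function.onFun Nat.Coprime fun i : S => (i : ℕ)) := by
    intro i j hij
    exact (Nat.coprime_primes (hS i i.2) (hS j j.2)).2 fun h => hij (Subtype.ext h)
  have hNpos : 0 < N := Finset.prod_pos fun i _ => (hS i i.2).pos
  let e : ZMod N ≃+* (∀ i : S, ZMod (i : ℕ)) := ZMod.prodEquivPi (fun i : S => (i : ℕ)) hcop
  have he : ∀ (n : ℤ) (i : S), e (n : ZMod N) i = (n : ZMod (i : ℕ)) := by
    intro n i
    rw [map_intCast, Pi.intCast_apply]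
  set R' : Set (ZMod N × ZMod N) := {q | ∀ i : S, (e q.1 i, e q.2 i) ∈ R i} with hR'
  have hcard : R'.ncard = ∏ i : S, (R i).ncard := ncard_pull e.toEquiv fun i : S => R i
  obtain ⟨X0, hX0⟩ := hEQZ.2.2 N R' ε hNpos hε
  refine ⟨X0, fun X hX => ?_⟩
  have h1 := hX0 X hX
  have h2 : {q ∈ Hz X | ((q.1 : ZMod N), (q.2 : ZMod N)) ∈ R'} =
      {q ∈ Hz X | ∀ p ∈ S, ((q.1 : ZMod p), (q.2 : ZMod p)) ∈ R p} := by
    ext q
    simp only [Set.mem_setOf_eq, hR', he]
    constructor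
    · rintro ⟨hq, h⟩
      exact ⟨hq, fun p hp => h ⟨p, hp⟩⟩
    · rintro ⟨hq, h⟩
      exact ⟨hq, fun i => h i i.2⟩
  have h3 : (R'.ncard : ℝ) / (N : ℝ) ^ 2 = ∏ p ∈ S, ((R p).ncard : ℝ) / (p : ℝ) ^ 2 := by
    rw [hcard, hN, Nat.cast_prod, Nat.cast_prod, ← Finset.prod_pow, ← Finset.prod_div_distrib]
    exact Finset.prod_coe_sort S fun p => ((R p).ncard : ℝ) / (p : ℝ) ^ 2
  rw [h2, h3] at h1
  exact h1

end Pool.Agent.Lib.MP_8cb858_nt.PT
end

section
/-! Module RSM: resampling. -/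
set_option autoImplicit false

namespace Pool.Agent.Lib.MP_8cb858_nt.PT

open scoped Classical

theorem specRSM : SpecRSM := by
  intro X Ω R f hR
  have h1 : ∀ p ∈ Ω, (∑ p' ∈ Ω.filter (R p), f p') / ((Ω.filter (R p)).card : ℝ) =
      ∑ p' ∈ Ω, (if R p p' then f p' / ((Ω.filter (R p')).card : ℝ) else 0) := by
    intro p _
    rw [← Finset.sum_filter, Finset.sum_div]
    refine Finset.sum_congr rfl fun p' hp' => ?_
    have h2 : R p p' := (Finset.mem_filter.1 hp').2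
    have h3 : Ω.filter (R p) = Ω.filter (R p') := by
      refine Finset.filter_congr fun q _ => ?_
      exact ⟨fun h => hR.trans (hR.symm h2) h, fun h => hR.trans h2 h⟩
    rw [h3]
  rw [Finset.sum_congr rfl h1, Finset.sum_comm]
  refine Finset.sum_congr rfl fun p' hp' => ?_
  rw [← Finset.sum_filter, Finset.sum_const, nsmul_eq_mul]
  have h4 : Ω.filter (fun p => R p p') = Ω.filter (R p') :=
    Finset.filter_congr fun q _ => ⟨fun h => hR.symm h, fun h => hR.symm h⟩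
  rw [h4]
  have h5 : ((Ω.filter (R p')).card : ℝ) ≠ 0 := by
    have : p' ∈ Ω.filter (R p') := Finset.mem_filter.2 ⟨hp', hR.refl p'⟩
    exact_mod_cast (Finset.card_pos.2 ⟨p', this⟩).ne'
  field_simp

end Pool.Agent.Lib.MP_8cb858_nt.PT
end

section
/-!
# SMM: the second moment
-/
namespace Pool.Agent.Lib.MP_8cb858_nt.PT

open scoped Classical

namespace SMMM

theorem law_le_one (hKPM : SpecKPM) (d : ℕ) : PR.law d ≤ 1 := by
  have h := hKPM.lmb (fun k => if k = d then 1 else 0) (by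
    intro k; split_ifs <;> simp)
  rw [hKPM.ind d] at h
  exact (le_abs_self _).trans h

theorem law_tail (hKPM : SpecKPM) {N d : ℕ} {e : ℝ}
    (h : 1 - e ≤ ∑ d ∈ Finset.range N, PR.law d) (hd : N ≤ d) : PR.law d ≤ e := by
  have h1 : ∑' k : ℕ, PR.law k = 1 := by
    have := hKPM.one
    unfold Lm at this
    simpa using this
  have hs : Summable PR.law := by
    by_contra hn
    rw [tsum_eq_zero_of_not_summable hn] at h1
    exact zero_ne_one h1
  have h2 := hs.sum_le_tsum (insert d (Finset.range N)) (fun i _ => (hKPM.pos i).le)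
  rw [Finset.sum_insert (by simp only [Finset.mem_range]; omega), h1] at h2
  linarith

theorem count_one {X Y : Type} (Ex : Finset Y) (s : Y → X → ℕ) (p : X) (d : ℕ) :
    ∑ E ∈ Ex, ∑ _E' ∈ Ex, (if s E p = d then (1 : ℝ) else 0) * 1 =
      ((Ex.filter (fun E => s E p = d)).card : ℝ) * (Ex.card : ℝ) := by
  rw [show ((Ex.filter (fun E => s E p = d)).card : ℝ) =
    ∑ E ∈ Ex, (if s E p = d then (1 : ℝ) else 0) from by
      rw [Finset.sum_boole]]
  rw [Finset.sum_mul]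
  apply Finset.sum_congr rfl
  intro E _
  rw [Finset.sum_const, nsmul_eq_mul, mul_one, mul_comm]

theorem count_two {X Y : Type} (Ex : Finset Y) (s : Y → X → ℕ) (p : X) (d : ℕ) :
    ∑ E ∈ Ex, ∑ E' ∈ Ex, (if s E p = d then (1 : ℝ) else 0) *
      (if s E' p = d then (1 : ℝ) else 0) =
      ((Ex.filter (fun E => s E p = d)).card : ℝ) ^ 2 := by
  rw [show ((Ex.filter (fun E => s E p = d)).card : ℝ) =
    ∑ E ∈ Ex, (if s E p = d then (1 : ℝ) else 0) from by
      rw [Finset.sum_boole]]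
  rw [sq, Finset.sum_mul_sum]

theorem count_disj {X Y : Type} (Ex : Finset Y) (s : Y → X → ℕ) (p : X) (N d : ℕ)
    (hd : N ≤ d) :
    ((Ex.filter (fun E => s E p = d)).card : ℝ) +
      ∑ k ∈ Finset.range N, ((Ex.filter (fun E => s E p = k)).card : ℝ) ≤ (Ex.card : ℝ) := by
  have h : ∀ k, ((Ex.filter (fun E => s E p = k)).card : ℝ) =
      ∑ E ∈ Ex, (if s E p = k then (1 : ℝ) else 0) := by
    intro k; rw [Finset.sum_boole]
  simp only [h]
  rw [Finset.sum_comm, ← Finset.sum_add_distrib,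
    show (Ex.card : ℝ) = ∑ E ∈ Ex, (1 : ℝ) from by simp]
  apply Finset.sum_le_sum
  intro E _
  rw [Finset.sum_ite_eq]
  split_ifs with h1 h2
  · rw [Finset.mem_range] at h2; omega
  · simp
  · simp
  · simp

theorem markov {X : Type} (Ω : Finset X) (f : X → ℝ) (t A : ℝ) (ht : 0 < t)
    (hA : ∑ p ∈ Ω, f p ^ 2 ≤ A) :
    ((Ω.filter (fun p => t < |f p|)).card : ℝ) * t ^ 2 ≤ A := by
  refine le_trans ?_ hA
  calc ((Ω.filter (fun p => t < |f p|)).card : ℝ) * t ^ 2
      = ∑ _p ∈ Ω.filter (fun p => t < |f p|), t ^ 2 := by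
        rw [Finset.sum_const, nsmul_eq_mul]
    _ ≤ ∑ p ∈ Ω.filter (fun p => t < |f p|), f p ^ 2 := by
        apply Finset.sum_le_sum
        intro p hp
        rw [Finset.mem_filter] at hp
        rw [← sq_abs (f p)]
        exact pow_le_pow_left₀ ht.le hp.2.le 2
    _ ≤ ∑ p ∈ Ω, f p ^ 2 :=
        Finset.sum_le_sum_of_subset_of_nonneg (Finset.filter_subset _ _)
          (fun _ _ _ => sq_nonneg _)

end SMMM

open SMMM in
theorem specSMM (hKPM : SpecKPM) : SpecSMM := by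
  intro ε hε
  set e : ℝ := min ε 1 / 8 with he
  have hm : 0 < min ε 1 := lt_min hε one_pos
  have he0 : 0 < e := by positivity
  have he1 : 8 * e ≤ ε := by
    have := min_le_left ε 1
    linarith
  obtain ⟨N0, hN0⟩ := hKPM.tl e he0
  set t : ℝ := e / ((N0 : ℝ) + 1) with ht
  have hN1 : (0 : ℝ) < (N0 : ℝ) + 1 := by positivity
  have ht0 : 0 < t := by positivity
  set δ : ℝ := ε * t ^ 2 / (3 * ((N0 : ℝ) + 1)) with hδ
  have hδ0 : 0 < δ := by positivity
  refine ⟨δ, hδ0, ?_⟩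
  intro X Y Ω Ex s hEx hfg
  have hN : (0 : ℝ) < (Ex.card : ℝ) := by exact_mod_cast Finset.card_pos.2 hEx
  set P : X → ℕ → ℝ := fun p d => ((Ex.filter (fun E => s E p = d)).card : ℝ) / (Ex.card : ℝ)
    with hP
  have hPn : ∀ p d, ((Ex.filter (fun E => s E p = d)).card : ℝ) = P p d * (Ex.card : ℝ) := by
    intro p d
    rw [hP]
    field_simp
  -- second moment
  have var : ∀ d : ℕ, ∑ p ∈ Ω, (P p d - PR.law d) ^ 2 ≤ 3 * δ * (Ω.card : ℝ) := by
    intro d
    have b1 : ∀ m : ℕ, |(fun k => if k = d then (1 : ℝ) else 0) m| ≤ 1 := by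
      intro k; dsimp only; split_ifs <;> simp
    have b2 : ∀ m : ℕ, |(fun _ => (1 : ℝ)) m| ≤ 1 := by
      intro k; simp
    have a1 := hfg _ _ b1 b1
    have a2 := hfg _ _ b1 b2
    rw [hKPM.ind d] at a1 a2
    rw [hKPM.one] at a2
    simp only [count_one, count_two, hPn] at a1 a2
    have c1 : ∑ p ∈ Ω, (P p d * (Ex.card : ℝ)) ^ 2 =
        (∑ p ∈ Ω, P p d ^ 2) * (Ex.card : ℝ) ^ 2 := by
      rw [Finset.sum_mul]
      exact Finset.sum_congr rfl (fun _ _ => by ring)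
    have c2 : ∑ p ∈ Ω, P p d * (Ex.card : ℝ) * (Ex.card : ℝ) =
        (∑ p ∈ Ω, P p d) * (Ex.card : ℝ) ^ 2 := by
      rw [Finset.sum_mul]
      exact Finset.sum_congr rfl (fun _ _ => by ring)
    rw [c1] at a1
    rw [c2] at a2
    have hN2 : (0 : ℝ) < (Ex.card : ℝ) ^ 2 := pow_pos hN 2
    have a1' : ∑ p ∈ Ω, P p d ^ 2 - PR.law d * PR.law d * (Ω.card : ℝ) ≤ δ * (Ω.card : ℝ) := by
      have := (abs_le.1 a1).2
      have h3 : (∑ p ∈ Ω, P p d ^ 2 - PR.law d * PR.law d * (Ω.card : ℝ)) * (Ex.card : ℝ) ^ 2 ≤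
          δ * (Ω.card : ℝ) * (Ex.card : ℝ) ^ 2 := by linarith
      exact le_of_mul_le_mul_right h3 hN2
    have a2' : -(δ * (Ω.card : ℝ)) ≤ ∑ p ∈ Ω, P p d - PR.law d * (Ω.card : ℝ) := by
      have := (abs_le.1 a2).1
      have h3 : -(δ * (Ω.card : ℝ)) * (Ex.card : ℝ) ^ 2 ≤
          (∑ p ∈ Ω, P p d - PR.law d * (Ω.card : ℝ)) * (Ex.card : ℝ) ^ 2 := by linarith
      exact le_of_mul_le_mul_right h3 hN2
    have c3 : ∑ p ∈ Ω, (P p d - PR.law d) ^ 2 =
        ∑ p ∈ Ω, P p d ^ 2 - 2 * PR.law d * ∑ p ∈ Ω, P p d +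
          PR.law d ^ 2 * (Ω.card : ℝ) := by
      rw [Finset.mul_sum, ← Finset.sum_sub_distrib,
        show (Ω.card : ℝ) = ∑ p ∈ Ω, (1 : ℝ) from by simp, Finset.mul_sum,
        ← Finset.sum_add_distrib]
      exact Finset.sum_congr rfl (fun _ _ => by ring)
    rw [c3]
    have l0 := (hKPM.pos d).le
    have l1 := law_le_one hKPM d
    have hΩ : (0 : ℝ) ≤ (Ω.card : ℝ) := Nat.cast_nonneg _
    have hδΩ : 0 ≤ δ * (Ω.card : ℝ) := mul_nonneg hδ0.le hΩ
    have h4 : PR.law d * (-(δ * (Ω.card : ℝ))) ≤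
        PR.law d * (∑ p ∈ Ω, P p d - PR.law d * (Ω.card : ℝ)) :=
      mul_le_mul_of_nonneg_left a2' l0
    have h5 : PR.law d * (δ * (Ω.card : ℝ)) ≤ δ * (Ω.card : ℝ) :=
      mul_le_of_le_one_left hδΩ l1
    nlinarith
  have badd : ∀ d : ℕ, ((Ω.filter (fun p => t < |P p d - PR.law d|)).card : ℝ) * t ^ 2 ≤
      3 * δ * (Ω.card : ℝ) := by
    intro d
    exact markov Ω (fun p => P p d - PR.law d) t _ ht0 (var d)
  -- union bound
  have sub : Ω.filter (fun p => ∃ d : ℕ, ε < |P p d - PR.law d|) ⊆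
      (Finset.range N0).biUnion (fun d => Ω.filter (fun p => t < |P p d - PR.law d|)) := by
    intro p hp
    rw [Finset.mem_filter] at hp
    obtain ⟨hpΩ, d, hd⟩ := hp
    by_contra hcon
    have hsm : ∀ k < N0, |P p k - PR.law k| ≤ t := by
      intro k hk
      by_contra hk2
      push Not at hk2
      exact hcon (Finset.mem_biUnion.2 ⟨k, Finset.mem_range.2 hk,
        Finset.mem_filter.2 ⟨hpΩ, hk2⟩⟩)
    have hte : t ≤ e := by
      rw [ht, div_le_iff₀ hN1]
      have : (0 : ℝ) ≤ (N0 : ℝ) := by positivity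
      nlinarith
    rcases lt_or_ge d N0 with h1 | h1
    · have := hsm d h1
      linarith
    · have hc := count_disj Ex s p N0 d h1
      simp only [hPn] at hc
      rw [← Finset.sum_mul, ← add_mul] at hc
      have hc1 : P p d + ∑ k ∈ Finset.range N0, P p k ≤ 1 := by
        have : (P p d + ∑ k ∈ Finset.range N0, P p k) * (Ex.card : ℝ) ≤
          1 * (Ex.card : ℝ) := by rw [one_mul]; exact hc
        exact le_of_mul_le_mul_right this hN
      have hc2 : ∑ k ∈ Finset.range N0, PR.law k - e ≤ ∑ k ∈ Finset.range N0, P p k := by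
        have h2 : ∑ k ∈ Finset.range N0, (PR.law k - P p k) ≤ ∑ _k ∈ Finset.range N0, t := by
          apply Finset.sum_le_sum
          intro k hk
          have := (abs_le.1 (hsm k (Finset.mem_range.1 hk))).1
          linarith
        rw [Finset.sum_sub_distrib, Finset.sum_const, Finset.card_range, nsmul_eq_mul] at h2
        have h3 : (N0 : ℝ) * t ≤ e := by
          rw [ht, mul_div_assoc', div_le_iff₀ hN1]
          nlinarith
        linarith
      have hP0 : 0 ≤ P p d := by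
        exact div_nonneg (Nat.cast_nonneg _) hN.le
      have l0 := (hKPM.pos d).le
      have l1 := law_tail hKPM hN0 h1
      have : |P p d - PR.law d| ≤ 2 * e := by
        rw [abs_le]
        constructor <;> linarith
      linarith
  have hcard : ((Ω.filter (fun p => ∃ d : ℕ, ε < |P p d - PR.law d|)).card : ℝ) ≤
      ∑ d ∈ Finset.range N0, ((Ω.filter (fun p => t < |P p d - PR.law d|)).card : ℝ) := by
    exact_mod_cast (Finset.card_le_card sub).trans Finset.card_biUnion_le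
  refine hcard.trans ?_
  have ht2 : (0 : ℝ) < t ^ 2 := by positivity
  have : (∑ d ∈ Finset.range N0, ((Ω.filter (fun p => t < |P p d - PR.law d|)).card : ℝ)) *
      t ^ 2 ≤ ε * (Ω.card : ℝ) * t ^ 2 := by
    rw [Finset.sum_mul]
    refine (Finset.sum_le_sum (fun d _ => badd d)).trans ?_
    rw [Finset.sum_const, Finset.card_range, nsmul_eq_mul, hδ]
    have hΩ : (0 : ℝ) ≤ (Ω.card : ℝ) := Nat.cast_nonneg _
    have e1 : ∀ w : ℝ, (N0 : ℝ) * (3 * (ε * t ^ 2 / (3 * ((N0 : ℝ) + 1))) * w) =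
        ((N0 : ℝ) / ((N0 : ℝ) + 1)) * (ε * w * t ^ 2) := by
      intro w
      clear hPn var badd
      field_simp
    rw [e1]
    apply mul_le_of_le_one_left
    · exact mul_nonneg (mul_nonneg hε.le hΩ) ht2.le
    · rw [div_le_one hN1]
      linarith
  exact le_of_mul_le_mul_right this ht2

end Pool.Agent.Lib.MP_8cb858_nt.PT
end

section
/-!
# SWR: sampling without replacement
-/
namespace Pool.Agent.Lib.MP_8cb858_nt.PT

namespace SWRM

/-- The number of the `m`-subsets of `T` containing `S`. -/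
theorem cnt (T S : Finset ℕ) (m : ℕ) (hS : S ⊆ T) (hm : S.card ≤ m) :
    ((T.powersetCard m).filter (fun Q => S ⊆ Q)).card = (T.card - S.card).choose (m - S.card) := by
  rw [← Finset.card_sdiff_of_subset hS, ← Finset.card_powersetCard]
  refine Finset.card_nbij' (fun Q => Q \ S) (fun R => R ∪ S) ?_ ?_ ?_ ?_
  · intro Q hQ
    rw [Finset.mem_coe, Finset.mem_filter, Finset.mem_powersetCard] at hQ
    rw [Finset.mem_coe, Finset.mem_powersetCard]
    refine ⟨Finset.sdiff_subset_sdiff hQ.1.1 le_rfl, ?_⟩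
    rw [Finset.card_sdiff_of_subset hQ.2, hQ.1.2]
  · intro R hR
    rw [Finset.mem_coe, Finset.mem_powersetCard] at hR
    rw [Finset.mem_coe, Finset.mem_filter, Finset.mem_powersetCard]
    refine ⟨⟨Finset.union_subset (hR.1.trans Finset.sdiff_subset) hS, ?_⟩,
      Finset.subset_union_right⟩
    rw [Finset.card_union_of_disjoint, hR.2]
    · omega
    · rw [Finset.disjoint_left]
      intro x hx
      exact (Finset.mem_sdiff.1 (hR.1 hx)).2
  · intro Q hQ
    rw [Finset.mem_coe, Finset.mem_filter] at hQ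
    exact Finset.sdiff_union_of_subset hQ.2
  · intro R hR
    rw [Finset.mem_coe, Finset.mem_powersetCard] at hR
    show (R ∪ S) \ S = R
    rw [Finset.union_sdiff_right]
    refine Finset.sdiff_eq_self_of_disjoint ?_
    rw [Finset.disjoint_left]
    intro x hx
    exact (Finset.mem_sdiff.1 (hR.1 hx)).2

theorem card_inter_eq (Q A : Finset ℕ) :
    ((Q ∩ A).card : ℝ) = ∑ a ∈ A, if {a} ⊆ Q then (1 : ℝ) else 0 := by
  rw [Finset.sum_ite, Finset.sum_const_zero, add_zero, Finset.sum_const, nsmul_eq_mul, mul_one]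
  congr 2
  ext x
  simp [and_comm]

/-- First moment. -/
theorem mom1 (T A : Finset ℕ) (m : ℕ) (hA : A ⊆ T) (hm : 1 ≤ m) :
    ∑ Q ∈ T.powersetCard m, ((Q ∩ A).card : ℝ) =
      A.card * (((T.card - 1).choose (m - 1) : ℕ) : ℝ) := by
  simp_rw [card_inter_eq]
  rw [Finset.sum_comm]
  have : ∀ a ∈ A, ∑ Q ∈ T.powersetCard m, (if {a} ⊆ Q then (1 : ℝ) else 0) =
      (((T.card - 1).choose (m - 1) : ℕ) : ℝ) := by
    intro a ha
    rw [Finset.sum_ite, Finset.sum_const_zero, add_zero, Finset.sum_const, nsmul_eq_mul, mul_one,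
      cnt T {a} m (Finset.singleton_subset_iff.2 (hA ha)) (by simpa using hm),
      Finset.card_singleton]
  rw [Finset.sum_congr rfl this, Finset.sum_const, nsmul_eq_mul]

/-- Second moment. -/
theorem mom2 (T A : Finset ℕ) (m : ℕ) (hA : A ⊆ T) (hm : 2 ≤ m) :
    ∑ Q ∈ T.powersetCard m, ((Q ∩ A).card : ℝ) ^ 2 =
      A.card * (((T.card - 1).choose (m - 1) : ℕ) : ℝ) +
        A.card * (A.card - 1) * (((T.card - 2).choose (m - 2) : ℕ) : ℝ) := by
  have h1 : ∀ Q ∈ T.powersetCard m, ((Q ∩ A).card : ℝ) ^ 2 =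
      ∑ a ∈ A, ∑ b ∈ A, if {a, b} ⊆ Q then (1 : ℝ) else 0 := by
    intro Q _
    rw [card_inter_eq, sq, Finset.sum_mul_sum]
    refine Finset.sum_congr rfl fun a _ => Finset.sum_congr rfl fun b _ => ?_
    by_cases h1 : a ∈ Q <;> by_cases h2 : b ∈ Q <;> simp [Finset.insert_subset_iff, h1, h2]
  rw [Finset.sum_congr rfl h1, Finset.sum_comm]
  have h2 : ∀ a ∈ A, ∑ Q ∈ T.powersetCard m, ∑ b ∈ A, (if {a, b} ⊆ Q then (1 : ℝ) else 0) =
      (((T.card - 1).choose (m - 1) : ℕ) : ℝ) +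
        (A.card - 1) * (((T.card - 2).choose (m - 2) : ℕ) : ℝ) := by
    intro a ha
    rw [Finset.sum_comm]
    rw [← Finset.add_sum_erase A _ ha]
    have h3 : ∀ b ∈ A.erase a, ∑ Q ∈ T.powersetCard m, (if {a, b} ⊆ Q then (1 : ℝ) else 0) =
        (((T.card - 2).choose (m - 2) : ℕ) : ℝ) := by
      intro b hb
      have hab : a ≠ b := fun h => (Finset.mem_erase.1 hb).1 h.symm
      rw [Finset.sum_ite, Finset.sum_const_zero, add_zero, Finset.sum_const, nsmul_eq_mul, mul_one,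
        cnt T {a, b} m ?_ ?_, Finset.card_pair hab]
      · intro x hx
        rcases Finset.mem_insert.1 hx with rfl | hx
        · exact hA ha
        · rw [Finset.mem_singleton.1 hx]
          exact hA (Finset.mem_of_mem_erase hb)
      · rw [Finset.card_pair hab]
        exact hm
    rw [Finset.sum_congr rfl h3, Finset.sum_const, nsmul_eq_mul, Finset.card_erase_of_mem ha,
      Nat.cast_sub (Finset.card_pos.2 ⟨a, ha⟩), Nat.cast_one, Finset.pair_eq_singleton,
      Finset.sum_ite, Finset.sum_const_zero, add_zero, Finset.sum_const, nsmul_eq_mul, mul_one,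
      cnt T {a} m (Finset.singleton_subset_iff.2 (hA ha)) (by simp; omega),
      Finset.card_singleton]
  rw [Finset.sum_congr rfl h2, Finset.sum_const, nsmul_eq_mul]
  ring

theorem ch1 (t m : ℕ) (ht : 1 ≤ t) (hm : 1 ≤ m) :
    (((t - 1).choose (m - 1) : ℕ) : ℝ) * t = m * ((t.choose m : ℕ) : ℝ) := by
  obtain ⟨t, rfl⟩ := Nat.exists_eq_add_of_le' ht
  obtain ⟨m, rfl⟩ := Nat.exists_eq_add_of_le' hm
  have := Nat.add_one_mul_choose_eq t m
  simp only [Nat.add_sub_cancel]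
  have h : ((((t + 1) * t.choose m : ℕ)) : ℝ) = (((t + 1).choose (m + 1) * (m + 1) : ℕ) : ℝ) := by
    exact_mod_cast this
  push_cast at h ⊢
  linarith

end SWRM

theorem specSWR : SpecSWR := by
  classical
  intro T A m η hη hA hmt ht2 hm hbias
  set t : ℝ := (T.card : ℝ) with ht
  set a : ℝ := (A.card : ℝ) with ha
  have ht2' : (2 : ℝ) ≤ t := by
    rw [ht]
    exact_mod_cast ht2
  have ht0 : 0 < t := by linarith
  have ha0 : 0 ≤ a := Nat.cast_nonneg _
  have hat : a ≤ t := by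
    rw [ht, ha]
    exact_mod_cast Finset.card_le_card hA
  have hη2 : η < 1 / 2 := by
    have h1 : |a - t / 2| ≤ t / 2 := by
      rw [abs_le]
      constructor <;> linarith
    have h2 : η * t < 1 / 2 * t := by linarith
    exact lt_of_mul_lt_mul_right h2 ht0.le
  have hη22 : η ^ 2 < 1 / 4 := by nlinarith
  have hm16 : (16 : ℝ) ≤ m := by
    refine le_trans ?_ hm
    rw [le_div_iff₀ (by positivity)]
    nlinarith
  have hm2 : 2 ≤ m := by
    have : (2 : ℝ) ≤ m := by linarith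
    exact_mod_cast this
  have hm0 : (0 : ℝ) < m := by linarith
  have hmt' : (m : ℝ) ≤ t := by
    rw [ht]
    exact_mod_cast hmt
  have hηm : 4 ≤ η ^ 2 * m := by
    rw [div_le_iff₀ (by positivity)] at hm
    linarith
  set C : ℝ := ((T.card.choose m : ℕ) : ℝ) with hC
  have hC0 : 0 ≤ C := Nat.cast_nonneg _
  have e1 := SWRM.mom1 T A m hA (by omega)
  have e2 := SWRM.mom2 T A m hA hm2
  have c1 := SWRM.ch1 T.card m (by omega) (by omega)
  have c2 := SWRM.ch1 (T.card - 1) (m - 1) (by omega) (by omega)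
  rw [Nat.cast_sub (by omega : 1 ≤ T.card), Nat.cast_sub (by omega : 1 ≤ m), Nat.cast_one,
    Nat.sub_sub, Nat.sub_sub] at c2
  set p1 : ℝ := (((T.card - 1).choose (m - 1) : ℕ) : ℝ) with hp1
  norm_num at c2
  set p2 : ℝ := (((T.card - 2).choose (m - 2) : ℕ) : ℝ) with hp2
  have hcard : ((T.powersetCard m).card : ℝ) = C := by rw [Finset.card_powersetCard]
  set μ : ℝ := a * m / t with hμ
  have e3 : ∑ Q ∈ T.powersetCard m, (((Q ∩ A).card : ℝ) - μ) ^ 2 =
      a * p1 + a * (a - 1) * p2 - 2 * μ * (a * p1) + C * μ ^ 2 := by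
    have : ∀ Q ∈ T.powersetCard m, (((Q ∩ A).card : ℝ) - μ) ^ 2 =
        ((Q ∩ A).card : ℝ) ^ 2 - 2 * μ * ((Q ∩ A).card : ℝ) + μ ^ 2 := by
      intro Q _
      ring
    rw [Finset.sum_congr rfl this, Finset.sum_add_distrib, Finset.sum_sub_distrib, e2,
      ← Finset.mul_sum, e1, Finset.sum_const, nsmul_eq_mul, hcard]
  have ht1 : 0 < t - 1 := by linarith
  have hp1e : p1 = m * C / t := by
    rw [eq_div_iff ht0.ne']
    exact c1
  have hp2e : p2 = (m - 1) * (m * C / t) / (t - 1) := by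
    rw [eq_div_iff ht1.ne', ← hp1e]
    exact c2
  have e4 : ∑ Q ∈ T.powersetCard m, (((Q ∩ A).card : ℝ) - μ) ^ 2 ≤ C * m / 2 := by
    rw [e3, hp2e, hp1e, hμ]
    have e5 : a * (m * C / t) + a * (a - 1) * ((m - 1) * (m * C / t) / (t - 1)) -
        2 * (a * m / t) * (a * (m * C / t)) + C * (a * m / t) ^ 2 =
        C * m * (a * (t - a) * (t - m)) / (t ^ 2 * (t - 1)) := by
      field_simp
      ring
    rw [e5, div_le_div_iff₀ (by positivity) (by norm_num)]
    have h6 : a * (t - a) ≤ t ^ 2 / 4 := by nlinarith [sq_nonneg (a - t / 2)]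
    have h7 : 0 ≤ t - m := by linarith
    have h8 : a * (t - a) * (t - m) ≤ t ^ 2 / 4 * t :=
      mul_le_mul h6 (by linarith) h7 (by positivity)
    have h9 : t ^ 2 / 4 * t * 2 ≤ t ^ 2 * (t - 1) := by
      have : t ^ 2 / 4 * t * 2 = t ^ 2 * (t / 2) := by ring
      rw [this]
      exact mul_le_mul_of_nonneg_left (by linarith) (by positivity)
    have h10 : 0 ≤ C * m := by positivity
    calc C * m * (a * (t - a) * (t - m)) * 2 = C * m * (a * (t - a) * (t - m) * 2) := by ring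
      _ ≤ C * m * (t ^ 2 * (t - 1)) := mul_le_mul_of_nonneg_left (by linarith) h10
  set B := (T.powersetCard m).filter
    (fun Q => η / 2 * (m : ℝ) < |((Q ∩ A).card : ℝ) - (m : ℝ) / 2|) with hB
  set G := (T.powersetCard m).filter
    (fun Q => ¬ η / 2 * (m : ℝ) < |((Q ∩ A).card : ℝ) - (m : ℝ) / 2|) with hG
  have hBG : (B.card : ℝ) + G.card = C := by
    rw [← hcard]
    exact_mod_cast Finset.card_filter_add_card_filter_not _
  have hμm : η * m ≤ |μ - m / 2| := by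
    have : μ - m / 2 = (a - t / 2) * (m / t) := by
      rw [hμ]
      field_simp
    rw [this, abs_mul, abs_of_pos (by positivity : 0 < (m : ℝ) / t)]
    have h11 : η * t * (m / t) ≤ |a - t / 2| * (m / t) :=
      mul_le_mul_of_nonneg_right hbias.le (by positivity)
    have h12 : η * t * (m / t) = η * m := by
      field_simp
    linarith
  have hGd : ∀ Q ∈ G, (η * m / 2) ^ 2 ≤ (((Q ∩ A).card : ℝ) - μ) ^ 2 := by
    intro Q hQ
    have hQ' := not_lt.1 (Finset.mem_filter.1 hQ).2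
    rw [← sq_abs (((Q ∩ A).card : ℝ) - μ)]
    refine pow_le_pow_left₀ (by positivity) ?_ 2
    have h13 : |μ - m / 2| ≤ |((Q ∩ A).card : ℝ) - μ| + |((Q ∩ A).card : ℝ) - (m : ℝ) / 2| := by
      have : μ - m / 2 = (((Q ∩ A).card : ℝ) - (m : ℝ) / 2) - (((Q ∩ A).card : ℝ) - μ) := by ring
      rw [this, add_comm]
      exact abs_sub _ _
    linarith
  have h14 : (G.card : ℝ) * (η * m / 2) ^ 2 ≤ C * m / 2 := by
    refine le_trans ?_ e4
    rw [← nsmul_eq_mul, ← Finset.sum_const]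
    refine (Finset.sum_le_sum hGd).trans ?_
    exact Finset.sum_le_sum_of_subset_of_nonneg (Finset.filter_subset _ _)
      fun Q _ _ => sq_nonneg _
  have h15 : (G.card : ℝ) ≤ C / 2 := by
    have h16 : (G.card : ℝ) * m ≤ (G.card : ℝ) * (η * m / 2) ^ 2 := by
      refine mul_le_mul_of_nonneg_left ?_ (Nat.cast_nonneg _)
      have : (η * m / 2) ^ 2 = η ^ 2 * m * m / 4 := by ring
      rw [this]
      nlinarith
    have h17 : (G.card : ℝ) * m ≤ C / 2 * m := by linarith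
    exact le_of_mul_le_mul_right h17 hm0
  linarith

end Pool.Agent.Lib.MP_8cb858_nt.PT
end

section
/-!
# TGT: the tightness inequality
-/
namespace Pool.Agent.Lib.MP_8cb858_nt.PT

open scoped Classical

namespace TGTM

/-- The number of active steps `j` with `i ≤ j < r`. -/
noncomputable def Nn {X : Type} (r : ℕ) (act : ℕ → X → Prop) (i : ℕ) (p : X) : ℕ :=
  ((Finset.range r).filter (fun j => i ≤ j ∧ act j p)).card

theorem Nn_act {X : Type} {r : ℕ} {act : ℕ → X → Prop} {i : ℕ} {p : X} (hi : i < r)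
    (h : act i p) : Nn r act i p = Nn r act (i + 1) p + 1 := by
  unfold Nn
  rw [show (Finset.range r).filter (fun j => i ≤ j ∧ act j p) =
    insert i ((Finset.range r).filter (fun j => i + 1 ≤ j ∧ act j p)) from ?_]
  · rw [Finset.card_insert_of_notMem]
    simp
  · ext j
    simp only [Finset.mem_filter, Finset.mem_range, Finset.mem_insert]
    constructor
    · rintro ⟨h1, h2, h3⟩
      rcases eq_or_lt_of_le h2 with h4 | h4
      · exact Or.inl h4.symm
      · exact Or.inr ⟨h1, h4, h3⟩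
    · rintro (h1 | ⟨h1, h2, h3⟩)
      · subst h1; exact ⟨hi, le_refl _, h⟩
      · exact ⟨h1, by omega, h3⟩

theorem Nn_not {X : Type} {r : ℕ} {act : ℕ → X → Prop} {i : ℕ} {p : X}
    (h : ¬ act i p) : Nn r act i p = Nn r act (i + 1) p := by
  unfold Nn
  congr 1
  ext j
  simp only [Finset.mem_filter, Finset.mem_range]
  constructor
  · rintro ⟨h1, h2, h3⟩
    rcases eq_or_lt_of_le h2 with h4 | h4
    · subst h4; exact absurd h3 h
    · exact ⟨h1, h4, h3⟩
  · rintro ⟨h1, h2, h3⟩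
    exact ⟨h1, by omega, h3⟩

theorem Nn_zero {X : Type} (r : ℕ) (act : ℕ → X → Prop) (p : X) :
    Nn r act 0 p = ((Finset.range r).filter (fun j => act j p)).card := by
  unfold Nn
  congr 1
  ext j
  simp

theorem Nn_top {X : Type} (r : ℕ) (act : ℕ → X → Prop) (p : X) : Nn r act r p = 0 := by
  unfold Nn
  rw [Finset.card_eq_zero, Finset.filter_eq_empty_iff]
  intro j hj h
  rw [Finset.mem_range] at hj
  omega

theorem Nn_congr {X : Type} {r : ℕ} {act : ℕ → X → Prop} {p p' : X}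
    (h : ∀ j < r, act j p ↔ act j p') (i : ℕ) : Nn r act i p = Nn r act i p' := by
  unfold Nn
  congr 1
  apply Finset.filter_congr
  intro j hj
  rw [Finset.mem_range] at hj
  rw [h j hj]

end TGTM

open TGTM in
theorem specTGT (hRSM : SpecRSM) : SpecTGT := by
  intro X Ω r R s act G ρ hρ0 hρ1 hR h4 h5 h6 h7 h8
  set S : ℕ → ℝ := fun i => ∑ p ∈ Ω, if G i p then (2 : ℝ) ^ s i p * ρ ^ Nn r act i p else 0
    with hS
  have step : ∀ i < r, S (i + 1) ≤ S i +
      6 * ∑ p ∈ Ω, (ρ ^ Nn r act (i + 1) p - ρ ^ Nn r act i p) := by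
    intro i hi
    have e1 : S (i + 1) ≤ ∑ p ∈ Ω,
        if G i p then (2 : ℝ) ^ s (i + 1) p * ρ ^ Nn r act (i + 1) p else 0 := by
      apply Finset.sum_le_sum
      intro p hp
      by_cases hg : G (i + 1) p
      · rw [if_pos hg, if_pos (h7 i hi p hp hg)]
      · rw [if_neg hg]
        split_ifs
        · positivity
        · exact le_refl _
    refine e1.trans ?_
    rw [← hRSM X Ω (R i) _ (hR i), Finset.mul_sum, ← Finset.sum_add_distrib]
    apply Finset.sum_le_sum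
    intro p hp
    have hself : p ∈ Ω.filter (R i p) := Finset.mem_filter.2 ⟨hp, (hR i).refl p⟩
    have hcard : (0 : ℝ) < ((Ω.filter (R i p)).card : ℝ) := by
      exact_mod_cast Finset.card_pos.2 ⟨p, hself⟩
    rw [div_le_iff₀ hcard]
    have hρN : ∀ n : ℕ, 0 < ρ ^ n := fun n => pow_pos hρ0 n
    have hdif : 0 ≤ ρ ^ Nn r act (i + 1) p - ρ ^ Nn r act i p := by
      by_cases ha : act i p
      · rw [Nn_act hi ha, pow_succ]
        nlinarith [hρN (Nn r act (i + 1) p)]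
      · rw [Nn_not ha, sub_self]
    by_cases hg : G i p
    · rw [if_pos hg]
      have e2 : (∑ p' ∈ Ω.filter (R i p),
          if G i p' then (2 : ℝ) ^ s (i + 1) p' * ρ ^ Nn r act (i + 1) p' else 0) =
          (∑ p' ∈ Ω.filter (R i p), (2 : ℝ) ^ s (i + 1) p') * ρ ^ Nn r act (i + 1) p := by
        rw [Finset.sum_mul]
        apply Finset.sum_congr rfl
        intro p' hp'
        rw [Finset.mem_filter] at hp'
        obtain ⟨c1, c2, c3⟩ := h4 i hi p hp p' hp'.1 hp'.2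
        rw [if_pos (c3.1 hg), Nn_congr c1 (i + 1)]
      rw [e2]
      by_cases ha : act i p
      · have e3 := h6 i hi p hp hg ha
        have e4 := mul_le_mul_of_nonneg_right e3 (hρN (Nn r act (i + 1) p)).le
        refine e4.trans ?_
        rw [Nn_act hi ha, pow_succ]
        have hx := hρN (Nn r act (i + 1) p)
        have e5 : (ρ * 2 ^ s i p + 3 / 2) * ρ ^ Nn r act (i + 1) p ≤
            2 ^ s i p * (ρ ^ Nn r act (i + 1) p * ρ) +
              6 * (ρ ^ Nn r act (i + 1) p - ρ ^ Nn r act (i + 1) p * ρ) := by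
          nlinarith
        nlinarith
      · have e3 : ∑ p' ∈ Ω.filter (R i p), (2 : ℝ) ^ s (i + 1) p' =
            ((Ω.filter (R i p)).card : ℝ) * 2 ^ s i p := by
          rw [← nsmul_eq_mul, ← Finset.sum_const]
          apply Finset.sum_congr rfl
          intro p' hp'
          rw [Finset.mem_filter] at hp'
          obtain ⟨c1, c2, c3⟩ := h4 i hi p hp p' hp'.1 hp'.2
          rw [h5 i hi p' hp'.1 (c3.1 hg) (fun h => ha ((c1 i hi).2 h)), ← c2 i (le_refl i)]
        rw [e3, Nn_not ha, sub_self]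
        linarith
    · rw [if_neg hg]
      have e2 : (∑ p' ∈ Ω.filter (R i p),
          if G i p' then (2 : ℝ) ^ s (i + 1) p' * ρ ^ Nn r act (i + 1) p' else 0) = 0 := by
        apply Finset.sum_eq_zero
        intro p' hp'
        rw [Finset.mem_filter] at hp'
        obtain ⟨c1, c2, c3⟩ := h4 i hi p hp p' hp'.1 hp'.2
        rw [if_neg (fun h => hg (c3.2 h))]
      rw [e2]
      have : 0 ≤ 6 * (ρ ^ Nn r act (i + 1) p - ρ ^ Nn r act i p) := by linarith
      nlinarith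
  have ind : ∀ i ≤ r, S i ≤ S 0 + 6 * ∑ p ∈ Ω, (ρ ^ Nn r act i p - ρ ^ Nn r act 0 p) := by
    intro i
    induction i with
    | zero => intro _; simp
    | succ k ih =>
      intro hk
      have i1 := ih (by omega)
      have i2 := step k (by omega)
      rw [Finset.sum_sub_distrib] at i1 i2 ⊢
      linarith
  have fin := ind r (le_refl r)
  have e1 : S r = ∑ p ∈ Ω.filter (G r), (2 : ℝ) ^ s r p := by
    rw [Finset.sum_filter]
    apply Finset.sum_congr rfl
    intro p _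
    rw [Nn_top, pow_zero, mul_one]
  have e2 : S 0 ≤ (Ω.card : ℝ) := by
    rw [show (Ω.card : ℝ) = ∑ p ∈ Ω, (1 : ℝ) from by simp]
    apply Finset.sum_le_sum
    intro p hp
    by_cases hg : G 0 p
    · rw [if_pos hg, Nn_zero]
      exact h8 p hp hg
    · rw [if_neg hg]
      norm_num
  have e3 : ∑ p ∈ Ω, (ρ ^ Nn r act r p - ρ ^ Nn r act 0 p) ≤ (Ω.card : ℝ) := by
    rw [show (Ω.card : ℝ) = ∑ p ∈ Ω, (1 : ℝ) from by simp]
    apply Finset.sum_le_sum
    intro p _
    rw [Nn_top, pow_zero]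
    have : 0 < ρ ^ Nn r act 0 p := pow_pos hρ0 _
    linarith
  rw [← e1]
  linarith

end Pool.Agent.Lib.MP_8cb858_nt.PT
end

section
/-!
# The types in a list
-/
namespace Pool.Agent.Lib.MP_8cb858_nt.PT

open Polynomial NumberField IsDedekindDomain Pool.Agent.Lib.MP_8cb858_nt.SEL
open Pool.Agent.Lib.MP_8cb858_nt.PF
open scoped Classical WithZero

namespace TYVM

/-- sums of `1/q^2` -/
lemma sum_inv_sq (L : Finset ℕ) (hL : ∀ q ∈ L, q.Prime ∧ 5 ≤ q) :
    ∑ q ∈ L, (1 / (q : ℝ)) ^ 2 ≤ 1 / 4 := by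
  obtain ⟨M, hM⟩ : ∃ M : ℕ, ∀ q ∈ L, q ≤ M := ⟨L.sup id, fun q hq => Finset.le_sup (f := id) hq⟩
  have h1 : L ⊆ Finset.Ioc 4 (max 4 M) := by
    intro q hq
    rw [Finset.mem_Ioc]
    exact ⟨(hL q hq).2, (hM q hq).trans (le_max_right _ _)⟩
  calc ∑ q ∈ L, (1 / (q : ℝ)) ^ 2 ≤ ∑ q ∈ Finset.Ioc 4 (max 4 M), (1 / (q : ℝ)) ^ 2 :=
        Finset.sum_le_sum_of_subset_of_nonneg h1 fun i _ _ => by positivity
    _ = ∑ q ∈ Finset.Ioc 4 (max 4 M), ((q : ℝ) ^ 2)⁻¹ := by
        refine Finset.sum_congr rfl fun i _ => ?_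
        rw [one_div, inv_pow]
    _ ≤ (4 : ℝ)⁻¹ - ((max 4 M : ℕ) : ℝ)⁻¹ := by
        have := sum_Ioc_inv_sq_le_sub (α := ℝ) (k := 4) (n := max 4 M) (by norm_num) (le_max_left _ _)
        simpa using this
    _ ≤ 1 / 4 := by
        have : (0 : ℝ) ≤ ((max 4 M : ℕ) : ℝ)⁻¹ := by positivity
        linarith

/-- the second moment -/
lemma var (hPRD : SpecPRD) (hfin : ∀ X : ℝ, (Hz X).Finite) (μ : ℝ) (hμ0 : 0 ≤ μ) (hμ1 : μ ≤ 1)
    (R : ∀ p : ℕ, Set (ZMod p × ZMod p)) (L : Finset ℕ) (hL : ∀ q ∈ L, q.Prime ∧ 5 ≤ q)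
    (hρ : ∀ q ∈ L, |((R q).ncard : ℝ) / (q : ℝ) ^ 2 - μ| ≤ 1 / (q : ℝ)) :
    ∃ X0 : ℝ, ∀ X : ℝ, X0 ≤ X →
      ∑ E ∈ (hfin X).toFinset,
        (((L.filter (fun q => ((E.1 : ZMod q), (E.2 : ZMod q)) ∈ R q)).card : ℝ) -
          μ * L.card) ^ 2 ≤ 3 * (L.card : ℝ) * ((Hz X).ncard : ℝ) := by
  set N : ℝ := (L.card : ℝ) with hN
  have hN0 : 0 ≤ N := Nat.cast_nonneg _
  set ε : ℝ := 1 / (3 * (N + 1)) with hε
  have hε0 : 0 < ε := by positivity
  -- the thresholds
  have h1 : ∀ q q' : ℕ, ∃ X0 : ℝ, q ∈ L → q' ∈ L → ∀ X : ℝ, X0 ≤ X →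
      |({E ∈ Hz X | ∀ p ∈ ({q, q'} : Finset ℕ), ((E.1 : ZMod p), (E.2 : ZMod p)) ∈ R p}.ncard : ℝ) -
        (∏ p ∈ ({q, q'} : Finset ℕ), ((R p).ncard : ℝ) / (p : ℝ) ^ 2) * ((Hz X).ncard : ℝ)| ≤
          ε * ((Hz X).ncard : ℝ) := by
    intro q q'
    by_cases hq : q ∈ L ∧ q' ∈ L
    · obtain ⟨X0, hX0⟩ := hPRD {q, q'} R ε (by
        intro p hp
        rw [Finset.mem_insert, Finset.mem_singleton] at hp
        rcases hp with rfl | rfl
        · exact (hL _ hq.1).1
        · exact (hL _ hq.2).1) hε0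
      exact ⟨X0, fun _ _ => hX0⟩
    · exact ⟨0, fun h h' => absurd ⟨h, h'⟩ hq⟩
  choose X0 hX0 using h1
  refine ⟨∑ q ∈ L, ∑ q' ∈ L, |X0 q q'|, fun X hX => ?_⟩
  have hXle : ∀ q ∈ L, ∀ q' ∈ L, X0 q q' ≤ X := by
    intro q hq q' hq'
    have a1 := Finset.single_le_sum (f := fun q' => |X0 q q'|) (fun j _ => abs_nonneg _) hq'
    have a2 := Finset.single_le_sum (f := fun q => ∑ q' ∈ L, |X0 q q'|)
      (fun j _ => Finset.sum_nonneg fun _ _ => abs_nonneg _) hq
    have a3 := le_abs_self (X0 q q')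
    linarith
  set H : Finset (ℤ × ℤ) := (hfin X).toFinset with hH
  have hHc : (H.card : ℝ) = ((Hz X).ncard : ℝ) := by
    rw [Set.ncard_eq_toFinset_card _ (hfin X)]
  set h : ℝ := ((Hz X).ncard : ℝ) with hh
  have hh0 : 0 ≤ h := Nat.cast_nonneg _
  set x : ℕ → ℤ × ℤ → ℝ := fun q E => if ((E.1 : ZMod q), (E.2 : ZMod q)) ∈ R q then 1 else 0
    with hx
  have hx0 : ∀ q E, 0 ≤ x q E := fun q E => by rw [hx]; simp only; split_ifs <;> norm_num
  have hx1 : ∀ q E, x q E ≤ 1 := fun q E => by rw [hx]; simp only; split_ifs <;> norm_num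
  set ρ : ℕ → ℝ := fun q => ((R q).ncard : ℝ) / (q : ℝ) ^ 2 with hρd
  -- first moments
  have hsx : ∀ q ∈ L, (ρ q - ε) * h ≤ ∑ E ∈ H, x q E := by
    intro q hq
    have a1 := (abs_le.1 (hX0 q q hq hq X (hXle q hq q hq))).1
    have a2 : ({E ∈ Hz X | ∀ p ∈ ({q, q} : Finset ℕ),
        ((E.1 : ZMod p), (E.2 : ZMod p)) ∈ R p}.ncard : ℝ) = ∑ E ∈ H, x q E := by
      rw [hx]
      simp only
      rw [Finset.sum_boole]
      have : ({E ∈ Hz X | ∀ p ∈ ({q, q} : Finset ℕ),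
          ((E.1 : ZMod p), (E.2 : ZMod p)) ∈ R p} : Set (ℤ × ℤ)) =
          ((H.filter (fun E => ((E.1 : ZMod q), (E.2 : ZMod q)) ∈ R q) : Finset (ℤ × ℤ)) :
            Set (ℤ × ℤ)) := by
        ext E
        rw [Finset.mem_coe, Finset.mem_filter, hH, Set.Finite.mem_toFinset]
        simp
      rw [this, Set.ncard_coe_finset]
    rw [a2, Finset.pair_eq_singleton, Finset.prod_singleton] at a1
    have a3 : (ρ q - ε) * h = ρ q * h - ε * h := by ring
    rw [a3]
    linarith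
  -- second moments
  have hsxx : ∀ q ∈ L, ∀ q' ∈ L, q ≠ q' → ∑ E ∈ H, x q E * x q' E ≤ (ρ q * ρ q' + ε) * h := by
    intro q hq q' hq' hne
    have a1 := (abs_le.1 (hX0 q q' hq hq' X (hXle q hq q' hq'))).2
    have a2 : ({E ∈ Hz X | ∀ p ∈ ({q, q'} : Finset ℕ),
        ((E.1 : ZMod p), (E.2 : ZMod p)) ∈ R p}.ncard : ℝ) = ∑ E ∈ H, x q E * x q' E := by
      have b1 : ∀ E, x q E * x q' E = if (((E.1 : ZMod q), (E.2 : ZMod q)) ∈ R q ∧
          ((E.1 : ZMod q'), (E.2 : ZMod q')) ∈ R q') then 1 else 0 := by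
        intro E
        rw [hx]
        simp only
        by_cases c1 : ((E.1 : ZMod q), (E.2 : ZMod q)) ∈ R q <;>
          by_cases c2 : ((E.1 : ZMod q'), (E.2 : ZMod q')) ∈ R q' <;> simp [c1, c2]
      simp_rw [b1]
      rw [Finset.sum_boole]
      have : ({E ∈ Hz X | ∀ p ∈ ({q, q'} : Finset ℕ),
          ((E.1 : ZMod p), (E.2 : ZMod p)) ∈ R p} : Set (ℤ × ℤ)) =
          ((H.filter (fun E => (((E.1 : ZMod q), (E.2 : ZMod q)) ∈ R q ∧
          ((E.1 : ZMod q'), (E.2 : ZMod q')) ∈ R q')) : Finset (ℤ × ℤ)) :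
            Set (ℤ × ℤ)) := by
        ext E
        rw [Finset.mem_coe, Finset.mem_filter, hH, Set.Finite.mem_toFinset]
        constructor
        · rintro ⟨d1, d2⟩
          exact ⟨d1, d2 q (by simp), d2 q' (by simp)⟩
        · rintro ⟨d1, d2, d3⟩
          refine ⟨d1, fun p hp => ?_⟩
          rw [Finset.mem_insert, Finset.mem_singleton] at hp
          rcases hp with rfl | rfl
          · exact d2
          · exact d3
      rw [this, Set.ncard_coe_finset]
    rw [a2, Finset.prod_pair hne] at a1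
    have a3 : (ρ q * ρ q' + ε) * h = ρ q * ρ q' * h + ε * h := by ring
    rw [a3]
    linarith
  -- covariance
  have hcov : ∀ q ∈ L, ∀ q' ∈ L, ∑ E ∈ H, (x q E - μ) * (x q' E - μ) ≤
      (1 / (q : ℝ) * (1 / (q' : ℝ)) + 3 * ε + if q = q' then 1 else 0) * h := by
    intro q hq q' hq'
    by_cases hne : q = q'
    · subst hne
      rw [if_pos rfl]
      calc ∑ E ∈ H, (x q E - μ) * (x q E - μ) ≤ ∑ E ∈ H, (1 : ℝ) := by
            refine Finset.sum_le_sum fun E _ => ?_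
            nlinarith [hx0 q E, hx1 q E]
        _ = h := by rw [Finset.sum_const, nsmul_eq_mul, mul_one, hHc]
        _ ≤ _ := by
            have : (0 : ℝ) ≤ 1 / (q : ℝ) * (1 / (q : ℝ)) + 3 * ε := by positivity
            nlinarith
    · rw [if_neg hne, add_zero]
      have e1 : ∑ E ∈ H, (x q E - μ) * (x q' E - μ) = ∑ E ∈ H, x q E * x q' E -
          μ * ∑ E ∈ H, x q E - μ * ∑ E ∈ H, x q' E + μ ^ 2 * h := by
        rw [← hHc, Finset.mul_sum, Finset.mul_sum, ← Finset.sum_sub_distrib,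
          ← Finset.sum_sub_distrib, mul_comm (μ ^ 2), ← nsmul_eq_mul, ← Finset.sum_const,
          ← Finset.sum_add_distrib]
        refine Finset.sum_congr rfl fun E _ => ?_
        ring
      rw [e1]
      have e2 := hsxx q hq q' hq' hne
      have e3 := mul_le_mul_of_nonneg_left (hsx q hq) hμ0
      have e4 := mul_le_mul_of_nonneg_left (hsx q' hq') hμ0
      have e5 : (ρ q - μ) * (ρ q' - μ) ≤ 1 / (q : ℝ) * (1 / (q' : ℝ)) := by
        refine (le_abs_self _).trans ?_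
        rw [abs_mul]
        exact mul_le_mul (hρ q hq) (hρ q' hq') (abs_nonneg _) (by positivity)
      have e6 : (ρ q - μ) * (ρ q' - μ) * h ≤ 1 / (q : ℝ) * (1 / (q' : ℝ)) * h :=
        mul_le_mul_of_nonneg_right e5 hh0
      have e7 : μ * ε * h ≤ ε * h := by
        have : μ * ε ≤ ε := by nlinarith
        exact mul_le_mul_of_nonneg_right this hh0
      nlinarith
  -- sum
  have hexp : ∑ E ∈ H, (((L.filter (fun q => ((E.1 : ZMod q), (E.2 : ZMod q)) ∈ R q)).card : ℝ) -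
          μ * L.card) ^ 2 = ∑ q ∈ L, ∑ q' ∈ L, ∑ E ∈ H, (x q E - μ) * (x q' E - μ) := by
    have b1 : ∀ E : ℤ × ℤ, ((L.filter (fun q => ((E.1 : ZMod q), (E.2 : ZMod q)) ∈ R q)).card : ℝ) -
          μ * L.card = ∑ q ∈ L, (x q E - μ) := by
      intro E
      rw [Finset.sum_sub_distrib, Finset.sum_const, nsmul_eq_mul, hx]
      simp only
      rw [Finset.sum_boole]
      ring
    simp_rw [b1, sq, Finset.sum_mul_sum]
    rw [Finset.sum_comm]
    refine Finset.sum_congr rfl fun q _ => ?_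
    rw [Finset.sum_comm]
  rw [hexp]
  calc ∑ q ∈ L, ∑ q' ∈ L, ∑ E ∈ H, (x q E - μ) * (x q' E - μ)
      ≤ ∑ q ∈ L, ∑ q' ∈ L, (1 / (q : ℝ) * (1 / (q' : ℝ)) + 3 * ε + if q = q' then 1 else 0) * h :=
        Finset.sum_le_sum fun q hq => Finset.sum_le_sum fun q' hq' => hcov q hq q' hq'
    _ = ((∑ q ∈ L, 1 / (q : ℝ)) ^ 2 + 3 * ε * (N * N) + N) * h := by
        simp_rw [← Finset.sum_mul, Finset.sum_add_distrib]
        congr 1
        have c1 : ∑ q ∈ L, ∑ q' ∈ L, 1 / (q : ℝ) * (1 / (q' : ℝ)) = (∑ q ∈ L, 1 / (q : ℝ)) ^ 2 := by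
          rw [sq, Finset.sum_mul_sum]
        have c2 : ∑ q ∈ L, ∑ q' ∈ L, (if q = q' then (1 : ℝ) else 0) = N := by
          have : ∀ q ∈ L, ∑ q' ∈ L, (if q = q' then (1 : ℝ) else 0) = 1 := by
            intro q hq
            rw [Finset.sum_ite_eq L q, if_pos hq]
          rw [Finset.sum_congr rfl this, Finset.sum_const, nsmul_eq_mul, mul_one]
        have c3 : ∑ q ∈ L, ∑ q' ∈ L, 3 * ε = 3 * ε * (N * N) := by
          rw [Finset.sum_const, Finset.sum_const, nsmul_eq_mul, nsmul_eq_mul]; ring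
        rw [c1, c2, c3]
    _ ≤ 3 * N * h := by
        refine mul_le_mul_of_nonneg_right ?_ hh0
        have d1 : (∑ q ∈ L, 1 / (q : ℝ)) ^ 2 ≤ N * ∑ q ∈ L, (1 / (q : ℝ)) ^ 2 :=
          sq_sum_le_card_mul_sum_sq
        have d2 := sum_inv_sq L hL
        have d3 : N * ∑ q ∈ L, (1 / (q : ℝ)) ^ 2 ≤ N * (1 / 4) := mul_le_mul_of_nonneg_left d2 hN0
        have d4 : 3 * ε * (N * N) ≤ N := by
          have : 3 * ε * (N * N) = N * (N / (N + 1)) := by rw [hε]; field_simp
          rw [this]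
          have h2 : N / (N + 1) ≤ 1 := by rw [div_le_one (by linarith)]; linarith
          nlinarith
        linarith

/-- Chebyshev -/
lemma cheb {α : Type*} (H : Finset α) (f : α → ℝ) (N κ h : ℝ) (hN : 0 ≤ N)
    (hv : ∑ E ∈ H, f E ^ 2 ≤ 3 * N * h) (hh : 0 ≤ h) (hκ : 0 < κ) :
    ((H.filter (fun E => κ * N < |f E|)).card : ℝ) * (κ ^ 2 * N) ≤ 3 * h := by
  rcases hN.eq_or_lt with h0 | h0
  · rw [← h0]; simp; exact hh
  · have h1 : ((H.filter (fun E => κ * N < |f E|)).card : ℝ) * (κ * N) ^ 2 ≤ 3 * N * h := by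
      calc ((H.filter (fun E => κ * N < |f E|)).card : ℝ) * (κ * N) ^ 2
          = ∑ E ∈ H.filter (fun E => κ * N < |f E|), (κ * N) ^ 2 := by
            rw [Finset.sum_const, nsmul_eq_mul]
        _ ≤ ∑ E ∈ H.filter (fun E => κ * N < |f E|), f E ^ 2 := by
            refine Finset.sum_le_sum fun E hE => ?_
            have h2 := (Finset.mem_filter.1 hE).2
            rw [← sq_abs (f E)]
            exact pow_le_pow_left₀ (by positivity) h2.le 2
        _ ≤ ∑ E ∈ H, f E ^ 2 :=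
            Finset.sum_le_sum_of_subset_of_nonneg (Finset.filter_subset _ _) fun _ _ _ => sq_nonneg _
        _ ≤ _ := hv
    have h3 : N * (((H.filter (fun E => κ * N < |f E|)).card : ℝ) * (κ ^ 2 * N)) ≤ N * (3 * h) := by
      nlinarith
    exact le_of_mul_le_mul_left h3 h0

end TYVM

open TYVM

theorem specTYV (hPRD : SpecPRD) (hTYZ : SpecTYZ) (hEQZ : SpecEQZ) : SpecTYV := by
  intro κ L hκ hL
  have hfin := hEQZ.1
  set R1 : ∀ p : ℕ, Set (ZMod p × ZMod p) := fun p => {q | ¬ IsSquare (-(4 * q.1 ^ 3 + 27 * q.2 ^ 2))}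
    with hR1
  set R3 : ∀ p : ℕ, Set (ZMod p × ZMod p) := fun p => {q | ∀ x : ZMod p, x ^ 3 + q.1 * x + q.2 ≠ 0}
    with hR3
  have hr1 : ∀ q ∈ L, |((R1 q).ncard : ℝ) / (q : ℝ) ^ 2 - 1 / 2| ≤ 1 / (q : ℝ) := by
    intro q hq
    have h5 : (0 : ℝ) < q := by have := (hL q hq).1.pos; exact_mod_cast this
    have h1 := (hTYZ q (hL q hq).1 (hL q hq).2).1
    have h2 : 2 * ((R1 q).ncard : ℝ) = q * (q - 1) := by
      have h3 : ((2 * (R1 q).ncard : ℕ) : ℝ) = ((q * (q - 1) : ℕ) : ℝ) := by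
        rw [hR1]; exact_mod_cast h1
      push_cast [Nat.cast_sub (hL q hq).1.one_lt.le] at h3
      exact h3
    have h3 : ((R1 q).ncard : ℝ) / (q : ℝ) ^ 2 - 1 / 2 = -(1 / (2 * q)) := by
      have : ((R1 q).ncard : ℝ) = q * (q - 1) / 2 := by linarith
      rw [this]; field_simp; ring
    rw [h3, abs_neg, abs_of_pos (by positivity)]
    exact one_div_le_one_div_of_le h5 (by linarith)
  have hr3 : ∀ q ∈ L, |((R3 q).ncard : ℝ) / (q : ℝ) ^ 2 - 1 / 3| ≤ 1 / (q : ℝ) := by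
    intro q hq
    have h5 : (0 : ℝ) < q := by have := (hL q hq).1.pos; exact_mod_cast this
    have h5' : (1 : ℝ) ≤ q := by have := (hL q hq).1.one_lt.le; exact_mod_cast this
    have h1 := (hTYZ q (hL q hq).1 (hL q hq).2).2.1
    have h2 : 3 * ((R3 q).ncard : ℝ) + 1 = (q : ℝ) ^ 2 := by
      have h3 : ((3 * (R3 q).ncard + 1 : ℕ) : ℝ) = ((q ^ 2 : ℕ) : ℝ) := by
        rw [hR3]; exact_mod_cast h1
      push_cast at h3
      exact h3
    have h3 : ((R3 q).ncard : ℝ) / (q : ℝ) ^ 2 - 1 / 3 = -(1 / (3 * (q : ℝ) ^ 2)) := by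
      have : ((R3 q).ncard : ℝ) = ((q : ℝ) ^ 2 - 1) / 3 := by linarith
      rw [this]; field_simp; ring
    rw [h3, abs_neg, abs_of_pos (by positivity)]
    exact one_div_le_one_div_of_le h5 (by nlinarith)
  obtain ⟨X1, hX1⟩ := var hPRD hfin (1 / 2) (by norm_num) (by norm_num) R1 L hL hr1
  obtain ⟨X3, hX3⟩ := var hPRD hfin (1 / 3) (by norm_num) (by norm_num) R3 L hL hr3
  refine ⟨max X1 X3, fun X hX => ?_⟩
  have v1 := hX1 X ((le_max_left _ _).trans hX)
  have v3 := hX3 X ((le_max_right _ _).trans hX)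
  have hh : (0 : ℝ) ≤ ((Hz X).ncard : ℝ) := Nat.cast_nonneg _
  have c1 := cheb _ _ (L.card : ℝ) κ _ (Nat.cast_nonneg _) v1 hh hκ
  have c3 := cheb _ _ (L.card : ℝ) κ _ (Nat.cast_nonneg _) v3 hh hκ
  have y1 : ∀ (E : ℤ × ℤ) (q : ℕ), ((E.1 : ZMod q), (E.2 : ZMod q)) ∈ R1 q ↔ Y12 q E.1 E.2 := by
    intro E q
    show ¬ IsSquare (-(4 * (E.1 : ZMod q) ^ 3 + 27 * (E.2 : ZMod q) ^ 2)) ↔ _
    unfold Y12 dz
    push_cast
    rfl
  have y3 : ∀ (E : ℤ × ℤ) (q : ℕ), ((E.1 : ZMod q), (E.2 : ZMod q)) ∈ R3 q ↔ Y3 q E.1 E.2 :=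
    fun E q => Iff.rfl
  simp_rw [y1] at c1
  simp_rw [y3] at c3
  set S1 := (hfin X).toFinset.filter (fun E => κ * (L.card : ℝ) <
    |((L.filter (fun q => Y12 q E.1 E.2)).card : ℝ) - 1 / 2 * (L.card : ℝ)|) with hS1
  set S3 := (hfin X).toFinset.filter (fun E => κ * (L.card : ℝ) <
    |((L.filter (fun q => Y3 q E.1 E.2)).card : ℝ) - 1 / 3 * (L.card : ℝ)|) with hS3
  have hsub : ({E ∈ Hz X | ¬ (|((L.filter (fun q => Y12 q E.1 E.2)).card : ℝ) -
      (L.card : ℝ) / 2| ≤ κ * L.card ∧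
      |((L.filter (fun q => Y3 q E.1 E.2)).card : ℝ) - (L.card : ℝ) / 3| ≤ κ * L.card)} :
      Set (ℤ × ℤ)) ⊆ ((S1 ∪ S3 : Finset (ℤ × ℤ)) : Set (ℤ × ℤ)) := by
    rintro E ⟨hE, hn⟩
    rw [Finset.mem_coe, Finset.mem_union]
    by_contra hcon
    push Not at hcon
    apply hn
    constructor
    · by_contra h
      push Not at h
      apply hcon.1
      rw [hS1]
      refine Finset.mem_filter.2 ⟨(hfin X).mem_toFinset.2 hE, ?_⟩
      have : 1 / 2 * (L.card : ℝ) = (L.card : ℝ) / 2 := by ring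
      rw [this]; exact h
    · by_contra h
      push Not at h
      apply hcon.2
      rw [hS3]
      refine Finset.mem_filter.2 ⟨(hfin X).mem_toFinset.2 hE, ?_⟩
      have : 1 / 3 * (L.card : ℝ) = (L.card : ℝ) / 3 := by ring
      rw [this]; exact h
  have hc : (({E ∈ Hz X | ¬ (|((L.filter (fun q => Y12 q E.1 E.2)).card : ℝ) -
      (L.card : ℝ) / 2| ≤ κ * L.card ∧
      |((L.filter (fun q => Y3 q E.1 E.2)).card : ℝ) - (L.card : ℝ) / 3| ≤ κ * L.card)} :
      Set (ℤ × ℤ)).ncard : ℝ) ≤ (S1.card : ℝ) + S3.card := by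
    have h1 := Set.ncard_le_ncard hsub (Finset.finite_toSet _)
    rw [Set.ncard_coe_finset] at h1
    have h2 := Finset.card_union_le S1 S3
    exact_mod_cast h1.trans h2
  have hk : 0 ≤ κ ^ 2 * (L.card : ℝ) := by positivity
  have := mul_le_mul_of_nonneg_right hc hk
  linarith

end Pool.Agent.Lib.MP_8cb858_nt.PT
end

section
/-!
# Lemma U
-/
namespace Pool.Agent.Lib.MP_8cb858_nt.PT

open Polynomial NumberField IsDedekindDomain Pool.Agent.Lib.MP_8cb858_nt.SEL
open Pool.Agent.Lib.MP_8cb858_nt.PF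
open scoped Classical WithZero

namespace UBIM

/-- double counting -/
lemma dcount {α β : Type*} [DecidableEq β] (S : Finset α) (B : Finset β) (G : α → Finset β) (c : ℝ)
    (h : ∀ b ∈ B, c ≤ ((S.filter (fun Q => b ∈ G Q)).card : ℝ)) :
    (B.card : ℝ) * c ≤ ∑ Q ∈ S, ((G Q).card : ℝ) := by
  classical
  calc (B.card : ℝ) * c = ∑ b ∈ B, c := by rw [Finset.sum_const, nsmul_eq_mul]
    _ ≤ ∑ b ∈ B, ((S.filter (fun Q => b ∈ G Q)).card : ℝ) := Finset.sum_le_sum h
    _ = ∑ b ∈ B, ∑ Q ∈ S, (if b ∈ G Q then (1 : ℝ) else 0) := by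
        refine Finset.sum_congr rfl fun b _ => ?_
        rw [Finset.sum_boole]
    _ = ∑ Q ∈ S, ∑ b ∈ B, (if b ∈ G Q then (1 : ℝ) else 0) := Finset.sum_comm
    _ ≤ ∑ Q ∈ S, ((G Q).card : ℝ) := by
        refine Finset.sum_le_sum fun Q _ => ?_
        rw [Finset.sum_boole]
        have : B.filter (fun b => b ∈ G Q) ⊆ G Q := fun b hb => (Finset.mem_filter.1 hb).2
        exact_mod_cast Finset.card_le_card this

/-- the product of the factors -/
lemma prod_bound (Q : Finset ℕ) (P : ℝ) (hP : 0 < P) (hQ : ∀ q ∈ Q, P ≤ (q : ℝ)) :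
    ∏ p ∈ Q, (1 + 1 / (p : ℝ)) ^ 2 / 2 ≤ Real.exp (2 / P * Q.card) / 2 ^ Q.card := by
  have h1 : ∀ p ∈ Q, (1 + 1 / (p : ℝ)) ^ 2 / 2 ≤ Real.exp (2 / P) / 2 := by
    intro p hp
    have hp0 : 0 < (p : ℝ) := hP.trans_le (hQ p hp)
    have h2 : 1 + 1 / (p : ℝ) ≤ Real.exp (1 / P) := by
      calc 1 + 1 / (p : ℝ) ≤ 1 + 1 / P := by
            have := one_div_le_one_div_of_le hP (hQ p hp); linarith
        _ = 1 / P + 1 := by ring
        _ ≤ _ := Real.add_one_le_exp _
    have h3 : (1 + 1 / (p : ℝ)) ^ 2 ≤ Real.exp (1 / P) ^ 2 :=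
      pow_le_pow_left₀ (by positivity) h2 2
    have h4 : Real.exp (1 / P) ^ 2 = Real.exp (2 / P) := by
      rw [← Real.exp_nat_mul]; congr 1; push_cast; ring
    rw [h4] at h3
    linarith
  calc ∏ p ∈ Q, (1 + 1 / (p : ℝ)) ^ 2 / 2 ≤ ∏ p ∈ Q, Real.exp (2 / P) / 2 :=
        Finset.prod_le_prod (fun p _ => by positivity) h1
    _ = _ := by
        rw [Finset.prod_const, div_pow, ← Real.exp_nat_mul]
        congr 2; ring

end UBIM

open UBIM

theorem specUBI (hFMZ : SpecFMZ) (hBNH : SpecBNH) (hSWR : SpecSWR) (hCHR : SpecCHR) : SpecUBI := by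
  obtain ⟨C, K1, P0, hC, hK1, hF⟩ := hFMZ
  intro η hη hη1
  set κ : ℝ := min (η ^ 2 / 64) (1 / 16) with hκ
  have hκ0 : 0 < κ := lt_min (by positivity) (by norm_num)
  have hκη : κ ≤ η ^ 2 / 64 := min_le_left _ _
  have hκ16 : κ ≤ 1 / 16 := min_le_right _ _
  have hη2 : 0 < η ^ 2 := by positivity
  set P1 : ℕ := max (P0 + 1) ⌈64 / η ^ 2⌉₊ with hP1
  set N0 : ℕ := ⌈(16 / η ^ 2 + 3) / κ⌉₊ with hN0
  refine ⟨κ, η ^ 2 * κ / 8, 4 * C, K1, P1, N0, hκ0, by positivity, by linarith, hK1, ?_⟩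
  intro L D hD hL hN
  set N : ℕ := L.card with hNd
  set m : ℕ := ⌊κ * N⌋₊ with hm
  have hκN : 16 / η ^ 2 + 3 ≤ κ * N := by
    have h1 : (16 / η ^ 2 + 3) / κ ≤ N := (Nat.le_ceil _).trans (by exact_mod_cast hN)
    rw [div_le_iff₀ hκ0] at h1
    linarith
  have hm1 : (m : ℝ) ≤ κ * N := Nat.floor_le (by positivity)
  have hm2 : κ * N - 1 ≤ m := by have := Nat.lt_floor_add_one (κ * (N : ℝ)); linarith
  have h16 : 16 ≤ 16 / η ^ 2 := by
    rw [le_div_iff₀ hη2]; nlinarith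
  have hm3 : 4 / η ^ 2 ≤ (m : ℝ) := by
    have : 4 / η ^ 2 ≤ 16 / η ^ 2 := div_le_div_of_nonneg_right (by norm_num) hη2.le
    linarith
  have hNpos : 0 < (N : ℝ) := by
    by_contra h
    push Not at h
    have : κ * N ≤ 0 := mul_nonpos_of_nonneg_of_nonpos hκ0.le h
    linarith
  have hP1r : 64 / η ^ 2 ≤ (P1 : ℝ) := by
    refine (Nat.le_ceil _).trans ?_
    exact_mod_cast le_max_right _ _
  have hP1pos : (0 : ℝ) < P1 := lt_of_lt_of_le (by positivity) hP1r
  -- the patterns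
  set ZQ : Finset ℕ → Finset (Finset ℕ) := fun Q => Q.powerset.filter
    (fun z => η / 2 * (Q.card : ℝ) < |(z.card : ℝ) - (Q.card : ℝ) / 2|) with hZQ
  have hX : ∀ Q : Finset ℕ, ∃ X0 : ℝ, Q ∈ L.powersetCard m → ∀ X : ℝ, X0 ≤ X →
      {z : (Σ q : ℤ × ℤ, Sl q.1 q.2 D) | z.1 ∈ Hz X ∧ (∀ p ∈ Q, Y12 p z.1.1 z.1.2) ∧ z.2 ≠ 0 ∧
        Q.filter (fun p => ¬ Tz p z.2) ∈ ZQ Q}.Finite ∧
      ({z : (Σ q : ℤ × ℤ, Sl q.1 q.2 D) | z.1 ∈ Hz X ∧ (∀ p ∈ Q, Y12 p z.1.1 z.1.2) ∧ z.2 ≠ 0 ∧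
        Q.filter (fun p => ¬ Tz p z.2) ∈ ZQ Q}.ncard : ℝ) ≤
        C * K1 ^ D.primeFactors.card * (((ZQ Q).card : ℝ) / 2 ^ Q.card) *
          (∏ p ∈ Q, (1 + 1 / (p : ℝ)) ^ 2 / 2) * ((Hz X).ncard : ℝ) := by
    intro Q
    by_cases hQ : Q ∈ L.powersetCard m
    · have hQL := (Finset.mem_powersetCard.1 hQ).1
      obtain ⟨X0, hX0⟩ := hF Q D (ZQ Q) hD (fun p hp => by
        have h1 := hL p (hQL hp)
        refine ⟨h1.1, ?_, h1.2.2⟩
        have : P0 + 1 ≤ P1 := le_max_left _ _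
        omega) (fun z hz => Finset.mem_powerset.1 (Finset.mem_filter.1 hz).1)
      exact ⟨X0, fun _ => hX0⟩
    · exact ⟨0, fun h => absurd h hQ⟩
  choose X0 hX0 using hX
  refine ⟨∑ Q ∈ L.powersetCard m, |X0 Q|, fun X hXX => ?_⟩
  have hXQ : ∀ Q ∈ L.powersetCard m, X0 Q ≤ X := fun Q hQ => by
    have h1 := Finset.single_le_sum (f := fun Q => |X0 Q|) (fun j _ => abs_nonneg _) hQ
    have h2 := le_abs_self (X0 Q)
    linarith
  set GS : Finset ℕ → Set (Σ q : ℤ × ℤ, Sl q.1 q.2 D) := fun Q =>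
    {z : (Σ q : ℤ × ℤ, Sl q.1 q.2 D) | z.1 ∈ Hz X ∧ (∀ p ∈ Q, Y12 p z.1.1 z.1.2) ∧ z.2 ≠ 0 ∧
        Q.filter (fun p => ¬ Tz p z.2) ∈ ZQ Q} with hGS
  set BS : Set (Σ q : ℤ × ℤ, Sl q.1 q.2 D) := {z | z.1 ∈ Hz X ∧
    |((L.filter (fun q => Y12 q z.1.1 z.1.2)).card : ℝ) - (L.card : ℝ) / 2| ≤ κ * L.card ∧
    z.2 ≠ 0 ∧ η * ((L.filter (fun q => Y12 q z.1.1 z.1.2)).card : ℝ) <
          |((L.filter (fun q => Y12 q z.1.1 z.1.2 ∧ Tz q z.2)).card : ℝ) -
            ((L.filter (fun q => Y12 q z.1.1 z.1.2)).card : ℝ) / 2|} with hBS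
  -- every biased pair is in many of the sets
  set c0 : ℝ := ((N.choose m : ℕ) : ℝ) / (2 * (2 * Real.exp (8 * κ)) ^ m) with hc0
  have hmN : m ≤ N := by
    have : (m : ℝ) ≤ N := by nlinarith
    exact_mod_cast this
  have hc0pos : 0 < c0 := by
    have : 0 < N.choose m := Nat.choose_pos hmN
    have : (0 : ℝ) < ((N.choose m : ℕ) : ℝ) := by exact_mod_cast this
    positivity
  have hmany : ∀ b ∈ BS, c0 ≤ (((L.powersetCard m).filter (fun Q => b ∈ GS Q)).card : ℝ) := by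
    rintro ⟨E, z⟩ ⟨hE, ht, hz, hb⟩
    simp only at ht hb hz hE
    set T : Finset ℕ := L.filter (fun q => Y12 q E.1 E.2) with hT
    set A : Finset ℕ := T.filter (fun q => ¬ Tz q z) with hA
    have hTN : T.card ≤ N := Finset.card_le_card (Finset.filter_subset _ _)
    have ht' := abs_le.1 ht
    have hTl : (1 / 2 - κ) * (N : ℝ) ≤ T.card := by linarith [ht'.1]
    have hAT : (A.card : ℝ) = T.card - ((L.filter (fun q => Y12 q E.1 E.2 ∧ Tz q z)).card : ℝ) := by
      have h1 : L.filter (fun q => Y12 q E.1 E.2 ∧ Tz q z) = T.filter (fun q => Tz q z) := by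
        rw [hT, Finset.filter_filter]
      have h2 : (T.filter (fun q => Tz q z)).card + A.card = T.card := by
        rw [hA]; exact Finset.card_filter_add_card_filter_not _
      rw [h1]
      have h3 : ((T.filter (fun q => Tz q z)).card : ℝ) + A.card = T.card := by exact_mod_cast h2
      linarith
    have hbias : η * (T.card : ℝ) < |(A.card : ℝ) - (T.card : ℝ) / 2| := by
      have h1 : (A.card : ℝ) - (T.card : ℝ) / 2 =
          -(((L.filter (fun q => Y12 q E.1 E.2 ∧ Tz q z)).card : ℝ) - (T.card : ℝ) / 2) := by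
        rw [hAT]; ring
      rw [h1, abs_neg]
      exact hb
    have hmT : m ≤ T.card := by
      have : (m : ℝ) ≤ T.card := by nlinarith
      exact_mod_cast this
    have hT2 : 2 ≤ T.card := by
      have h1 : (2 : ℝ) ≤ m := by linarith
      have h2 : 2 ≤ m := by exact_mod_cast h1
      omega
    have hS := hSWR T A m η hη (Finset.filter_subset _ _) hmT hT2 hm3 hbias
    have hc := hCHR N T.card m κ hκ0 (by linarith) hm1 hTl hTN
    have hsub : (T.powersetCard m).filter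
        (fun Q => η / 2 * (m : ℝ) < |((Q ∩ A).card : ℝ) - (m : ℝ) / 2|) ⊆
        (L.powersetCard m).filter (fun Q => (⟨E, z⟩ : Σ q : ℤ × ℤ, Sl q.1 q.2 D) ∈ GS Q) := by
      intro Q hQ
      obtain ⟨hQ1, hQ2⟩ := Finset.mem_filter.1 hQ
      obtain ⟨hQT, hQm⟩ := Finset.mem_powersetCard.1 hQ1
      refine Finset.mem_filter.2 ⟨Finset.mem_powersetCard.2
        ⟨hQT.trans (Finset.filter_subset _ _), hQm⟩, ?_⟩
      refine ⟨hE, fun p hp => (Finset.mem_filter.1 (hQT hp)).2, hz, ?_⟩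
      have h1 : Q.filter (fun p => ¬ Tz p z) = Q ∩ A := by
        ext p
        rw [Finset.mem_filter, Finset.mem_inter, hA, Finset.mem_filter]
        constructor
        · rintro ⟨h2, h3⟩; exact ⟨h2, hQT h2, h3⟩
        · rintro ⟨h2, _, h3⟩; exact ⟨h2, h3⟩
      show Q.filter (fun p => ¬ Tz p z) ∈ ZQ Q
      rw [h1, hZQ]
      refine Finset.mem_filter.2 ⟨Finset.mem_powerset.2 Finset.inter_subset_left, ?_⟩
      rw [hQm]
      exact hQ2
    have hcard : (((T.powersetCard m).filter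
        (fun Q => η / 2 * (m : ℝ) < |((Q ∩ A).card : ℝ) - (m : ℝ) / 2|)).card : ℝ) ≤
        (((L.powersetCard m).filter
          (fun Q => (⟨E, z⟩ : Σ q : ℤ × ℤ, Sl q.1 q.2 D) ∈ GS Q)).card : ℝ) := by
      exact_mod_cast Finset.card_le_card hsub
    rw [hc0, div_le_iff₀ (by positivity)]
    have hpw : (0 : ℝ) < (2 * Real.exp (8 * κ)) ^ m := by positivity
    have h5 : ((N.choose m : ℕ) : ℝ) ≤ (2 * Real.exp (8 * κ)) ^ m *
        (2 * (((L.powersetCard m).filter
          (fun Q => (⟨E, z⟩ : Σ q : ℤ × ℤ, Sl q.1 q.2 D) ∈ GS Q)).card : ℝ)) := by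
      refine hc.trans (mul_le_mul_of_nonneg_left ?_ hpw.le)
      linarith
    linarith
  -- finiteness
  have hfin : ∀ Q ∈ L.powersetCard m, (GS Q).Finite := fun Q hQ => (hX0 Q hQ X (hXQ Q hQ)).1
  have hBfin : BS.Finite := by
    refine Set.Finite.subset (Set.Finite.biUnion (Finset.finite_toSet (L.powersetCard m))
      (t := GS) (fun Q hQ => hfin Q hQ)) ?_
    intro b hb
    have h1 := hmany b hb
    have h2 : 0 < ((L.powersetCard m).filter (fun Q => b ∈ GS Q)).card := by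
      have : (0 : ℝ) < (((L.powersetCard m).filter (fun Q => b ∈ GS Q)).card : ℝ) :=
        lt_of_lt_of_le hc0pos h1
      exact_mod_cast this
    obtain ⟨Q, hQ⟩ := Finset.card_pos.1 h2
    obtain ⟨hQ1, hQ2⟩ := Finset.mem_filter.1 hQ
    exact Set.mem_biUnion hQ1 hQ2
  set Gf : Finset ℕ → Finset (Σ q : ℤ × ℤ, Sl q.1 q.2 D) := fun Q =>
    if h : Q ∈ L.powersetCard m then (hfin Q h).toFinset else ∅ with hGf
  have hGfm : ∀ Q ∈ L.powersetCard m, ∀ b, b ∈ Gf Q ↔ b ∈ GS Q := by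
    intro Q hQ b
    rw [hGf]
    simp only [hQ, dif_pos, Set.Finite.mem_toFinset]
  have hdc := dcount (L.powersetCard m) hBfin.toFinset Gf c0 (by
    intro b hb
    have h1 := hmany b (hBfin.mem_toFinset.1 hb)
    refine h1.trans (le_of_eq ?_)
    congr 2
    refine Finset.filter_congr fun Q hQ => ?_
    exact (hGfm Q hQ b).symm)
  -- the upper bound
  have hup : ∀ Q ∈ L.powersetCard m, ((Gf Q).card : ℝ) ≤
      C * K1 ^ D.primeFactors.card * (2 * Real.exp (-(η ^ 2 / 2 * m))) *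
        (Real.exp (η ^ 2 / 32 * m) / 2 ^ m) * ((Hz X).ncard : ℝ) := by
    intro Q hQ
    obtain ⟨hQL, hQm⟩ := Finset.mem_powersetCard.1 hQ
    have h1 := (hX0 Q hQ X (hXQ Q hQ)).2
    have h2 : (Gf Q).card = (GS Q).ncard := by
      rw [hGf]
      simp only [hQ, dif_pos]
      rw [Set.ncard_eq_toFinset_card _ (hfin Q hQ)]
    rw [h2]
    refine h1.trans ?_
    have h3 : ((ZQ Q).card : ℝ) / 2 ^ Q.card ≤ 2 * Real.exp (-(η ^ 2 / 2 * m)) := by
      have h4 := hBNH Q (η / 2) (by positivity)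
      rw [div_le_iff₀ (by positivity), hQm]
      have h5 : ((ZQ Q).card : ℝ) ≤ 2 * 2 ^ Q.card * Real.exp (-(2 * (η / 2) ^ 2 * Q.card)) := by
        rw [hZQ]; exact h4
      rw [hQm] at h5
      have h6 : -(2 * (η / 2) ^ 2 * (m : ℝ)) = -(η ^ 2 / 2 * m) := by ring
      rw [h6] at h5
      linarith
    have h7 := prod_bound Q P1 hP1pos (fun q hq => by exact_mod_cast (hL q (hQL hq)).2.1)
    rw [hQm] at h7
    have h8 : 2 / (P1 : ℝ) * m ≤ η ^ 2 / 32 * m := by
      refine mul_le_mul_of_nonneg_right ?_ (Nat.cast_nonneg _)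
      rw [div_le_iff₀ hP1pos]
      rw [div_le_iff₀ hη2] at hP1r
      linarith
    have h9 : ∏ p ∈ Q, (1 + 1 / (p : ℝ)) ^ 2 / 2 ≤ Real.exp (η ^ 2 / 32 * m) / 2 ^ m :=
      h7.trans (div_le_div_of_nonneg_right (Real.exp_le_exp.2 h8) (by positivity))
    have hCK : 0 ≤ C * K1 ^ D.primeFactors.card := by positivity
    have h10 : 0 ≤ ∏ p ∈ Q, (1 + 1 / (p : ℝ)) ^ 2 / 2 := Finset.prod_nonneg fun p _ => by positivity
    refine mul_le_mul_of_nonneg_right ?_ (Nat.cast_nonneg _)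
    refine mul_le_mul (mul_le_mul_of_nonneg_left h3 hCK) h9 h10 ?_
    exact mul_nonneg hCK (by positivity)
  have hsum : ∑ Q ∈ L.powersetCard m, ((Gf Q).card : ℝ) ≤ ((N.choose m : ℕ) : ℝ) *
      (C * K1 ^ D.primeFactors.card * (2 * Real.exp (-(η ^ 2 / 2 * m))) *
        (Real.exp (η ^ 2 / 32 * m) / 2 ^ m) * ((Hz X).ncard : ℝ)) := by
    refine (Finset.sum_le_sum hup).trans (le_of_eq ?_)
    rw [Finset.sum_const, Finset.card_powersetCard, nsmul_eq_mul]
  have hB := hdc.trans hsum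
  have hBcard : (hBfin.toFinset.card : ℝ) = (BS.ncard : ℝ) := by
    rw [Set.ncard_eq_toFinset_card _ hBfin]
  rw [hBcard, hc0] at hB
  have hch : (0 : ℝ) < ((N.choose m : ℕ) : ℝ) := by
    have : 0 < N.choose m := Nat.choose_pos hmN
    exact_mod_cast this
  have hBS2 : (BS.ncard : ℝ) ≤ 4 * C * K1 ^ D.primeFactors.card *
      Real.exp (-(η ^ 2 * κ / 8 * N)) * ((Hz X).ncard : ℝ) := by
    have h1 : (BS.ncard : ℝ) ≤ (2 * (2 * Real.exp (8 * κ)) ^ m) *
        (C * K1 ^ D.primeFactors.card * (2 * Real.exp (-(η ^ 2 / 2 * m))) *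
        (Real.exp (η ^ 2 / 32 * m) / 2 ^ m) * ((Hz X).ncard : ℝ)) := by
      have h2 : (BS.ncard : ℝ) * ((N.choose m : ℕ) : ℝ) ≤
          ((N.choose m : ℕ) : ℝ) * ((2 * (2 * Real.exp (8 * κ)) ^ m) *
        (C * K1 ^ D.primeFactors.card * (2 * Real.exp (-(η ^ 2 / 2 * m))) *
        (Real.exp (η ^ 2 / 32 * m) / 2 ^ m) * ((Hz X).ncard : ℝ))) := by
        have h3 : (0 : ℝ) < 2 * (2 * Real.exp (8 * κ)) ^ m := by positivity
        rw [← mul_div_assoc, div_le_iff₀ h3] at hB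
        linarith
      rw [mul_comm] at h2
      exact le_of_mul_le_mul_left h2 hch
    refine h1.trans (le_of_eq_of_le (b := 4 * C * K1 ^ D.primeFactors.card *
      (Real.exp (8 * κ) ^ m * Real.exp (-(η ^ 2 / 2 * m)) * Real.exp (η ^ 2 / 32 * m)) *
        ((Hz X).ncard : ℝ)) ?_ ?_)
    · rw [mul_pow]
      have : (2 : ℝ) ^ m ≠ 0 := by positivity
      field_simp
      ring
    · refine mul_le_mul_of_nonneg_right ?_ (Nat.cast_nonneg _)
      refine mul_le_mul_of_nonneg_left ?_ (by positivity)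
      rw [← Real.exp_nat_mul, ← Real.exp_add, ← Real.exp_add]
      apply Real.exp_le_exp.2
      have hm4 : κ * N / 2 ≤ m := by linarith
      have h4 : 8 * κ ≤ η ^ 2 / 8 := by linarith
      have h5 : (m : ℝ) * (8 * κ) ≤ m * (η ^ 2 / 8) := mul_le_mul_of_nonneg_left h4 (Nat.cast_nonneg _)
      have h6 : η ^ 2 / 4 * (κ * N / 2) ≤ η ^ 2 / 4 * m := mul_le_mul_of_nonneg_left hm4 (by positivity)
      nlinarith [mul_nonneg hη2.le (Nat.cast_nonneg (α := ℝ) m)]
  -- from pairs to curves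
  refine le_trans ?_ hBS2
  have hinj : ({E ∈ Hz X | |((L.filter (fun q => Y12 q E.1 E.2)).card : ℝ) - (L.card : ℝ) / 2| ≤
          κ * L.card ∧
        ∃ z : Sl E.1 E.2 D, z ≠ 0 ∧ η * ((L.filter (fun q => Y12 q E.1 E.2)).card : ℝ) <
          |((L.filter (fun q => Y12 q E.1 E.2 ∧ Tz q z)).card : ℝ) -
            ((L.filter (fun q => Y12 q E.1 E.2)).card : ℝ) / 2|} : Set (ℤ × ℤ)) ⊆
      Sigma.fst '' BS := by
    rintro E ⟨hE, ht, z, hz, hb⟩
    exact ⟨⟨E, z⟩, ⟨hE, ht, hz, hb⟩, rfl⟩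
  have h1 := Set.ncard_le_ncard hinj (hBfin.image _)
  have h2 := Set.ncard_image_le (f := (Sigma.fst : (Σ q : ℤ × ℤ, Sl q.1 q.2 D) → ℤ × ℤ)) hBfin
  exact_mod_cast h1.trans h2

end Pool.Agent.Lib.MP_8cb858_nt.PT
end
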